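import Pool.Agent.Lib.MP_e78765_gt.Spec

/-!
# Elementary properties of the integrand (MP_e78765_gt, module Alg)
-/

open scoped ContDiff Topology
open MeasureTheory Set Filter

namespace MP_e78765_gt

namespace Alg_aux

lemma mir_sub (x y : E3) : mir (x - y) = mir x - mir y := by
  ext i
  fin_cases i <;> simp [mir]
  ring

lemma mir_inner (x y : E3) : inner ℝ (mir x) (mir y) = inner ℝ x y := by
  simp [mir, PiLp.inner_apply, Fin.sum_univ_three]

lemma mir_norm (x : E3) : ‖mir x‖ = ‖x‖ := by
  rw [← sq_eq_sq₀ (norm_nonneg _) (norm_nonneg _), ← real_inner_self_eq_norm_sq,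
    ← real_inner_self_eq_norm_sq, mir_inner]

/-- the reflected vector -/
noncomputable def R (d a : E3) : E3 := a - (2 * inner ℝ d a / ‖d‖ ^ 2) • d

lemma R_norm (d a : E3) : ‖R d a‖ = ‖a‖ := by
  rw [← sq_eq_sq₀ (norm_nonneg _) (norm_nonneg _)]
  unfold R
  rcases eq_or_ne d 0 with rfl | hd
  · simp
  · have h : ‖d‖ ≠ 0 := norm_ne_zero_iff.2 hd
    rw [norm_sub_sq_real, inner_smul_right, norm_smul, mul_pow, Real.norm_eq_abs, sq_abs,
      real_inner_comm d a]
    field_simp
    ring

lemma R_inner (d a b : E3) : inner ℝ (R d a) b =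
    inner ℝ a b - 2 * inner ℝ d a * inner ℝ d b / ‖d‖ ^ 2 := by
  unfold R
  rw [inner_sub_left, real_inner_smul_left]
  ring

lemma key (d a b : E3) :
    |inner ℝ a b - 2 * inner ℝ d a * inner ℝ d b / ‖d‖ ^ 2| ≤ ‖a‖ * ‖b‖ := by
  rw [← R_inner, ← R_norm d a]
  exact abs_real_inner_le_norm _ _

end Alg_aux

open Alg_aux

theorem tAlg : S_Alg := by
  refine ⟨?_, ?_, ?_, ?_, ?_, ?_, ?_⟩
  · intro x a y b
    unfold qf
    have h : y - x = -(x - y) := (neg_sub x y).symm
    rw [h, norm_neg, inner_neg_left, inner_neg_left, real_inner_comm a b]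
    ring
  · intro x a y b
    unfold qf
    have h := (abs_le.1 (key (x - y) a b)).1
    apply div_nonneg _ (sq_nonneg _)
    linarith
  · intro x a y b
    unfold qf
    have h := (abs_le.1 (key (x - y) a b)).2
    apply div_le_div_of_nonneg_right _ (sq_nonneg _)
    linarith
  · intro x a y b
    unfold qf
    rw [← mir_sub, mir_inner, mir_inner, mir_inner, mir_norm, mir_norm, mir_norm]
  · intro x a y b
    unfold qf
    rw [norm_neg, norm_neg, inner_neg_neg, inner_neg_right, inner_neg_right]
    ring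
  · intro c x a y b hc
    unfold qf
    have hc' : |c| ≠ 0 := abs_ne_zero.2 hc
    rw [← smul_sub, norm_smul, norm_smul, norm_smul, real_inner_smul_left, real_inner_smul_left,
      real_inner_smul_left, real_inner_smul_right, real_inner_smul_right, real_inner_smul_right,
      Real.norm_eq_abs, mul_pow, sq_abs]
    rcases eq_or_ne (x - y) 0 with hd | hd
    · rw [hd]; simp
    · have h : ‖x - y‖ ≠ 0 := norm_ne_zero_iff.2 hd
      have h2 : |c| * ‖a‖ * (|c| * ‖b‖) = c ^ 2 * (‖a‖ * ‖b‖) := by
        rw [← sq_abs c]; ring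
      rw [h2]
      field_simp
  · intro w x a y b
    unfold qf
    rw [add_sub_add_right_eq_sub]

end MP_e78765_gt
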