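import Pool.Agent.Lib.MP_e78765_gt.Spec2

/-! Constant speed parametrisation of a knot. -/

open scoped ContDiff Topology
open MeasureTheory Set Filter

namespace MP_e78765_gt

theorem tArc : S_Sig → S_Rep → S_Arc := by
  intro hSig hRep r t0 hr
  obtain ⟨σ, L, h1, h2, h3, h4, h5, h6⟩ := hSig r t0 hr
  obtain ⟨k1, k2, k3, k4⟩ := hRep r σ hr h1 h2 h3
  refine ⟨fun t => r (σ t), k1, k2, ?_, ⟨L, h5, ?_⟩, k4⟩
  · simp only [h4]
  · intro t
    rw [k3, norm_smul, Real.norm_eq_abs, abs_of_pos (h2 t), mul_comm]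
    exact h6 t

end MP_e78765_gt
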