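import Pool.Agent.Lib.MP_e78765_gt.Spec

/-!
# Bounds of a knot (MP_e78765_gt): module Bd
-/

set_option autoImplicit false

open scoped ContDiff Topology
open MeasureTheory Set Filter

namespace MP_e78765_gt

namespace Bd_aux

/-- A continuous periodic function is bounded. -/
theorem bdd {f : ℝ → E3} (hf : Continuous f) (hp : ∀ t, f (t + 1) = f t) :
    ∃ M : ℝ, 0 < M ∧ ∀ t, ‖f t‖ ≤ M := by
  have hper : Function.Periodic f 1 := hp
  have hc : IsCompact (range f) := hper.compact_of_continuous one_ne_zero hf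
  obtain ⟨C, hC⟩ := hc.isBounded.exists_norm_le
  exact ⟨max C 1, lt_of_lt_of_le one_pos (le_max_right _ _),
    fun t => le_trans (hC _ (mem_range_self t)) (le_max_left _ _)⟩

/-- A continuous periodic function without zeros is bounded below. -/
theorem low {f : ℝ → E3} (hf : Continuous f) (hp : ∀ t, f (t + 1) = f t) (h0 : ∀ t, f t ≠ 0) :
    ∃ m : ℝ, 0 < m ∧ ∀ t, m ≤ ‖f t‖ := by
  have hper : Function.Periodic f 1 := hp
  have hc : IsCompact (range f) := hper.compact_of_continuous one_ne_zero hf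
  obtain ⟨m, hm, hmm⟩ := hc.exists_forall_le' (f := fun x : E3 => ‖x‖) continuous_norm.continuousOn
    (a := 0) (by
      rintro _ ⟨t, rfl⟩
      exact norm_pos_iff.2 (h0 t))
  exact ⟨m, hm, fun t => hmm _ (mem_range_self t)⟩

/-- The derivative of a periodic function is periodic. -/
theorem per_deriv {f : ℝ → E3} (hp : ∀ t, f (t + 1) = f t) (t : ℝ) : deriv f (t + 1) = deriv f t := by
  have h : (fun x => f (x + 1)) = f := funext hp
  rw [← deriv_comp_add_const, h]

/-- Lipschitz bound on the line. -/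
theorem lip {f : ℝ → E3} {C : ℝ} (hf : Differentiable ℝ f) (hC : ∀ t, ‖deriv f t‖ ≤ C) (s t : ℝ) :
    ‖f s - f t‖ ≤ C * |s - t| := by
  have h := Convex.norm_image_sub_le_of_norm_deriv_le (f := f) (s := univ) (x := t) (y := s) (C := C)
    (fun x _ => hf x) (fun x _ => hC x) convex_univ (mem_univ _) (mem_univ _)
  rwa [Real.norm_eq_abs] at h

/-- Second order bound. -/
theorem sec {f : ℝ → E3} {K : ℝ} (hf : Differentiable ℝ f)
    (hK : ∀ s t, ‖deriv f s - deriv f t‖ ≤ K * |s - t|) (hK0 : 0 ≤ K) (s t : ℝ) :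
    ‖f s - f t - (s - t) • deriv f t‖ ≤ K * (s - t) ^ 2 := by
  have hd : ∀ x ∈ uIcc t s, HasDerivWithinAt (fun y => f y - (y - t) • deriv f t)
      (deriv f x - deriv f t) (uIcc t s) x := by
    intro x _
    have h1 := (hf x).hasDerivAt
    have h2 : HasDerivAt (fun y : ℝ => (y - t) • deriv f t) ((1 : ℝ) • deriv f t) x :=
      ((hasDerivAt_id x).sub_const t).smul_const _
    rw [one_smul] at h2
    exact (h1.sub h2).hasDerivWithinAt
  have hb : ∀ x ∈ uIcc t s, ‖deriv f x - deriv f t‖ ≤ K * |s - t| := by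
    intro x hx
    refine le_trans (hK x t) ?_
    refine mul_le_mul_of_nonneg_left ?_ hK0
    exact abs_sub_left_of_mem_uIcc hx
  have h := Convex.norm_image_sub_le_of_norm_hasDerivWithin_le hd hb (convex_uIcc t s) left_mem_uIcc
    right_mem_uIcc
  rw [sub_self, zero_smul, sub_zero, Real.norm_eq_abs] at h
  have e1 : f s - (s - t) • deriv f t - f t = f s - f t - (s - t) • deriv f t := by abel
  have e2 : K * |s - t| * |s - t| = K * (s - t) ^ 2 := by
    rw [mul_assoc, ← pow_two, sq_abs]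
  rw [e1, e2] at h
  exact h

end Bd_aux

open Bd_aux in
theorem tBd : S_Bd := by
  intro r hr
  have hd0 : Differentiable ℝ r := (contDiff_infty_iff_deriv.1 hr.smooth).1
  have hs1 : ContDiff ℝ ∞ (deriv r) := (contDiff_infty_iff_deriv.1 hr.smooth).2
  have hd1 : Differentiable ℝ (deriv r) := (contDiff_infty_iff_deriv.1 hs1).1
  have hs2 : ContDiff ℝ ∞ (deriv (deriv r)) := (contDiff_infty_iff_deriv.1 hs1).2
  have hp0 : ∀ t, r (t + 1) = r t := hr.periodic
  have hp1 : ∀ t, deriv r (t + 1) = deriv r t := per_deriv hp0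
  have hp2 : ∀ t, deriv (deriv r) (t + 1) = deriv (deriv r) t := per_deriv hp1
  obtain ⟨m, hm0, hm⟩ := low hs1.continuous hp1 hr.regular
  obtain ⟨M, hM0, hM⟩ := bdd hs1.continuous hp1
  obtain ⟨K, hK0, hK⟩ := bdd hs2.continuous hp2
  have hL := lip hd1 hK
  have hS := sec hd0 hL hK0.le
  have hR := lip hd0 hM
  refine ⟨⟨m, M, K, hm0, hM0, hK0, hm, hM, hL, hS, hR⟩, ?_⟩
  intro b hb
  -- near the diagonal
  set δ : ℝ := m / (2 * K) with hδ
  have hδ0 : 0 < δ := by positivity
  have near : ∀ s t, |s - t| ≤ δ → m / 2 * |s - t| ≤ ‖r s - r t‖ := by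
    intro s t hst
    have h1 : |s - t| * m ≤ ‖(s - t) • deriv r t‖ := by
      rw [norm_smul, Real.norm_eq_abs]
      exact mul_le_mul_of_nonneg_left (hm t) (abs_nonneg _)
    have h2 : ‖(s - t) • deriv r t‖ ≤ ‖r s - r t‖ + ‖r s - r t - (s - t) • deriv r t‖ := by
      have e : (s - t) • deriv r t = (r s - r t) - (r s - r t - (s - t) • deriv r t) := by abel
      have h := norm_sub_le (r s - r t) (r s - r t - (s - t) • deriv r t)
      rwa [← e] at h
    have h3 := hS s t
    have h4 : K * (s - t) ^ 2 ≤ m / 2 * |s - t| := by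
      rw [← sq_abs, pow_two, ← mul_assoc]
      refine mul_le_mul_of_nonneg_right ?_ (abs_nonneg _)
      calc K * |s - t| ≤ K * δ := mul_le_mul_of_nonneg_left hst hK0.le
        _ = m / 2 := by rw [hδ]; field_simp
    linarith
  -- away from the diagonal
  have hcp : IsCompact {z : ℝ × ℝ | z.1 ∈ Icc (0 : ℝ) 1 ∧ δ ≤ |z.1 - z.2| ∧ |z.1 - z.2| ≤ b} := by
    have hsub : {z : ℝ × ℝ | z.1 ∈ Icc (0 : ℝ) 1 ∧ δ ≤ |z.1 - z.2| ∧ |z.1 - z.2| ≤ b} ⊆
        Icc (0 : ℝ) 1 ×ˢ Icc (-1 : ℝ) 2 := by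
      rintro ⟨s, t⟩ ⟨h1, -, h3⟩
      have h4 := abs_le.1 (le_trans h3 hb.le)
      have h1' : s ∈ Icc (0 : ℝ) 1 := h1
      refine ⟨h1, ?_⟩
      change t ∈ Icc (-1 : ℝ) 2
      have h5 : -1 ≤ s - t ∧ s - t ≤ 1 := h4
      exact ⟨by linarith [h1'.1, h5.2], by linarith [h1'.2, h5.1]⟩
    refine IsCompact.of_isClosed_subset (isCompact_Icc.prod isCompact_Icc) ?_ hsub
    refine IsClosed.inter (isClosed_Icc.preimage continuous_fst) (IsClosed.inter ?_ ?_)
    · exact isClosed_le continuous_const (continuous_fst.sub continuous_snd).abs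
    · exact isClosed_le (continuous_fst.sub continuous_snd).abs continuous_const
  obtain ⟨c1, hc1, hfar⟩ := hcp.exists_forall_le' (f := fun z : ℝ × ℝ => ‖r z.1 - r z.2‖)
    (((hd0.continuous.comp continuous_fst).sub (hd0.continuous.comp continuous_snd)).norm.continuousOn)
    (a := 0) (by
      rintro ⟨s, t⟩ ⟨-, h2, h3⟩
      refine norm_pos_iff.2 (sub_ne_zero.2 fun h => ?_)
      change δ ≤ |s - t| at h2
      change |s - t| ≤ b at h3
      change r s = r t at h
      obtain ⟨n, hn⟩ := hr.inj s t h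
      have h4 : |s - t| = |(n : ℝ)| := by
        rw [hn]
        have : s - (s + n) = -(n : ℝ) := by ring
        rw [this, abs_neg]
      rw [h4] at h2 h3
      have h5 : |(n : ℝ)| < 1 := lt_of_le_of_lt h3 hb
      have h6 : |n| < 1 := by exact_mod_cast h5
      have h7 : n = 0 := Int.abs_lt_one_iff.1 h6
      rw [h7, Int.cast_zero, abs_zero] at h2
      exact absurd hδ0 (not_lt.2 h2))
  refine ⟨min (m / 2) c1, lt_min (by positivity) hc1, ?_⟩
  intro s t hst
  rcases le_total |s - t| δ with h | h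
  · exact le_trans (mul_le_mul_of_nonneg_right (min_le_left _ _) (abs_nonneg _)) (near s t h)
  · have hper : Function.Periodic r 1 := hp0
    have e1 : r (s - ⌊s⌋) = r s := by
      have := hper.sub_int_mul_eq (x := s) ⌊s⌋
      rwa [mul_one] at this
    have e2 : r (t - ⌊s⌋) = r t := by
      have := hper.sub_int_mul_eq (x := t) ⌊s⌋
      rwa [mul_one] at this
    have e3 : (s - ⌊s⌋) - (t - ⌊s⌋) = s - t := by ring
    have h1 := hfar (s - ⌊s⌋, t - ⌊s⌋) (by
      refine ⟨⟨?_, ?_⟩, ?_, ?_⟩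
      · change 0 ≤ s - ⌊s⌋
        linarith [Int.floor_le s]
      · change s - ⌊s⌋ ≤ 1
        linarith [Int.lt_floor_add_one s]
      · change δ ≤ |(s - ⌊s⌋) - (t - ⌊s⌋)|
        rw [e3]; exact h
      · change |(s - ⌊s⌋) - (t - ⌊s⌋)| ≤ b
        rw [e3]; exact hst)
    change c1 ≤ ‖r (s - ⌊s⌋) - r (t - ⌊s⌋)‖ at h1
    rw [e1, e2] at h1
    calc min (m / 2) c1 * |s - t| ≤ c1 * |s - t| :=
          mul_le_mul_of_nonneg_right (min_le_right _ _) (abs_nonneg _)
      _ ≤ c1 * 1 := mul_le_mul_of_nonneg_left (le_trans hst hb.le) hc1.le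
      _ = c1 := mul_one _
      _ ≤ ‖r s - r t‖ := h1

end MP_e78765_gt
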