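import Pool.Agent.Lib.MP_e78765_gt.Spec5

/-! The inverse of a round circle (MP_e78765_gt, THEOREM R4, part IV). -/

open scoped ContDiff Topology
open MeasureTheory Set Filter

namespace MP_e78765_gt

namespace CI_aux

/-- A circle in algebraic form. -/
def circ (c u v : E3) : Set E3 := {x | ∃ a b : ℝ, a ^ 2 + b ^ 2 = 1 ∧ x = c + a • u + b • v}

theorem exists_angle (a b : ℝ) (h : a ^ 2 + b ^ 2 = 1) :
    ∃ θ : ℝ, Real.cos θ = a ∧ Real.sin θ = b := by
  have hz : ‖(⟨a, b⟩ : ℂ)‖ = 1 := by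
    rw [Complex.norm_def, Complex.normSq_mk, Real.sqrt_eq_one]
    nlinarith
  have hz0 : (⟨a, b⟩ : ℂ) ≠ 0 := by
    intro h0
    rw [h0] at hz
    simp at hz
  refine ⟨Complex.arg ⟨a, b⟩, ?_, ?_⟩
  · rw [Complex.cos_arg hz0, hz]
    simp
  · rw [Complex.sin_arg, hz]
    simp

theorem range_eq (c u v : E3) :
    Set.range (fun θ : ℝ => c + Real.cos θ • u + Real.sin θ • v) = circ c u v := by
  ext x
  constructor
  · rintro ⟨θ, rfl⟩
    exact ⟨Real.cos θ, Real.sin θ, Real.cos_sq_add_sin_sq θ, rfl⟩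
  · rintro ⟨a, b, h, rfl⟩
    obtain ⟨θ, h1, h2⟩ := exists_angle a b h
    exact ⟨θ, by simp only [h1, h2]⟩

/-- Rotation of the two vectors. -/
theorem circ_rot (c u v : E3) (p q : ℝ) (h : p ^ 2 + q ^ 2 = 1) :
    circ c u v = circ c (p • u + q • v) (-q • u + p • v) := by
  ext x
  constructor
  · rintro ⟨a, b, hab, rfl⟩
    refine ⟨a * p + b * q, -(a * q) + b * p, ?_, ?_⟩
    · linear_combination (p ^ 2 + q ^ 2) * hab + h
    · have h1 : a = (a * p + b * q) * p + (-(a * q) + b * p) * (-q) := by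
        linear_combination (-a) * h
      have h2 : b = (a * p + b * q) * q + (-(a * q) + b * p) * p := by
        linear_combination (-b) * h
      have h3 : (a * p + b * q) • (p • u + q • v) + (-(a * q) + b * p) • (-q • u + p • v)
          = ((a * p + b * q) * p + (-(a * q) + b * p) * (-q)) • u
            + ((a * p + b * q) * q + (-(a * q) + b * p) * p) • v := by
        module
      rw [add_assoc, add_assoc, h3, ← h1, ← h2]
  · rintro ⟨a, b, hab, rfl⟩
    refine ⟨a * p - b * q, a * q + b * p, ?_, ?_⟩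
    · linear_combination (p ^ 2 + q ^ 2) * hab + h
    · module

theorem alg1 (α β a w : ℝ) (hw : w ≠ 0) (hd : α + β * a ≠ 0) (h : w = α ^ 2 - β ^ 2) :
    (α + β * a)⁻¹ = w⁻¹ * α - (α * a + β) / (α + β * a) * w⁻¹ * β := by
  field_simp
  linear_combination h

theorem alg2 (α β a w : ℝ) (hw : w ≠ 0) (hd : α + β * a ≠ 0) (h : w = α ^ 2 - β ^ 2) :
    (α + β * a)⁻¹ * a = -(w⁻¹ * β) + (α * a + β) / (α + β * a) * w⁻¹ * α := by
  field_simp
  linear_combination a * h

theorem alg3 (α β a w : ℝ) (hw : w ≠ 0) (hd : α - β * a ≠ 0) (h : w = α ^ 2 - β ^ 2) :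
    (α * ((α * a - β) / (α - β * a)) + β) / (w / (α - β * a)) = a := by
  rw [div_eq_iff (div_ne_zero hw hd), mul_div_assoc', div_add' _ _ _ hd, mul_div_assoc',
    div_left_inj' hd]
  linear_combination (-a) * h

/-- The main computation. -/
theorem main (c u v : E3) (hu : 0 < ‖u‖) (huv : ‖v‖ = ‖u‖) (h0 : inner ℝ u v = (0 : ℝ))
    (hc : inner ℝ c v = (0 : ℝ)) (hz : (0 : E3) ∉ circ c u v) :
    ∃ c' u' v' : E3, 0 < ‖u'‖ ∧ ‖v'‖ = ‖u'‖ ∧ inner ℝ u' v' = (0 : ℝ) ∧
      inv '' circ c u v = circ c' u' v' := by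
  set α : ℝ := ‖c‖ ^ 2 + ‖u‖ ^ 2 with hα
  set β : ℝ := 2 * inner ℝ c u with hβ
  have hnorm : ∀ a b : ℝ, a ^ 2 + b ^ 2 = 1 → ‖c + a • u + b • v‖ ^ 2 = α + β * a := by
    intro a b hab
    rw [← real_inner_self_eq_norm_sq]
    simp only [inner_add_left, inner_add_right, real_inner_smul_left, real_inner_smul_right]
    rw [real_inner_self_eq_norm_sq, real_inner_self_eq_norm_sq, real_inner_self_eq_norm_sq, huv,
      real_inner_comm c u, real_inner_comm c v, real_inner_comm u v, h0, hc, hα, hβ]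
    linear_combination (‖u‖ ^ 2) * hab
  have hpos : ∀ a b : ℝ, a ^ 2 + b ^ 2 = 1 → 0 < α + β * a := by
    intro a b hab
    rw [← hnorm a b hab]
    have : c + a • u + b • v ≠ 0 := by
      intro h
      exact hz ⟨a, b, hab, h.symm⟩
    positivity
  have hp1 : 0 < α + β := by simpa using hpos 1 0 (by norm_num)
  have hm1 : 0 < α - β := by
    have := hpos (-1) 0 (by norm_num)
    linarith
  have hw : 0 < α ^ 2 - β ^ 2 := by nlinarith
  set w : ℝ := α ^ 2 - β ^ 2 with hwd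
  set s : ℝ := Real.sqrt w with hsd
  have hs : 0 < s := Real.sqrt_pos.mpr hw
  have hs2 : s ^ 2 = w := Real.sq_sqrt hw.le
  have hpos' : ∀ a b : ℝ, a ^ 2 + b ^ 2 = 1 → 0 < α - β * a := by
    intro a b hab
    have := hpos (-a) b (by linarith [neg_sq a])
    linarith
  have key : ∀ a b : ℝ, 0 < α + β * a → (α + β * a)⁻¹ • (c + a • u + b • v)
      = w⁻¹ • (α • c - β • u) + ((α * a + β) / (α + β * a)) • (w⁻¹ • (α • u - β • c))
        + (s * b / (α + β * a)) • (s⁻¹ • v) := by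
    intro a b hab
    have e1 := alg1 α β a w hw.ne' hab.ne' hwd
    have e2 := alg2 α β a w hw.ne' hab.ne' hwd
    have e3 : (α + β * a)⁻¹ * b = s * b / (α + β * a) * s⁻¹ := by
      field_simp
    have e4 : w⁻¹ • (α • c - β • u) + ((α * a + β) / (α + β * a)) • (w⁻¹ • (α • u - β • c))
        + (s * b / (α + β * a)) • (s⁻¹ • v)
        = (w⁻¹ * α - (α * a + β) / (α + β * a) * w⁻¹ * β) • c
          + (-(w⁻¹ * β) + (α * a + β) / (α + β * a) * w⁻¹ * α) • u
          + (s * b / (α + β * a) * s⁻¹) • v := by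
      module
    rw [e4, ← e1, ← e2, ← e3]
    module
  have hinv : ∀ a b : ℝ, a ^ 2 + b ^ 2 = 1 → inv (c + a • u + b • v)
      = w⁻¹ • (α • c - β • u) + ((α * a + β) / (α + β * a)) • (w⁻¹ • (α • u - β • c))
        + (s * b / (α + β * a)) • (s⁻¹ • v) := by
    intro a b hab
    rw [inv, hnorm a b hab]
    exact key a b (hpos a b hab)
  have hn1 : ‖w⁻¹ • (α • u - β • c)‖ ^ 2 = ‖u‖ ^ 2 / w := by
    rw [norm_smul, mul_pow, ← real_inner_self_eq_norm_sq (α • u - β • c)]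
    simp only [inner_sub_left, inner_sub_right, real_inner_smul_left, real_inner_smul_right]
    rw [real_inner_self_eq_norm_sq, real_inner_self_eq_norm_sq, Real.norm_eq_abs, sq_abs,
      real_inner_comm c u]
    have e : inner ℝ c u = β / 2 := by rw [hβ]; ring
    have e' : ‖c‖ ^ 2 = α - ‖u‖ ^ 2 := by rw [hα]; ring
    rw [e, e']
    field_simp
    linear_combination (-(‖u‖ ^ 2)) * hwd
  have hn2 : ‖s⁻¹ • v‖ ^ 2 = ‖u‖ ^ 2 / w := by
    rw [norm_smul, mul_pow, huv, Real.norm_eq_abs, sq_abs, inv_pow, hs2]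
    field_simp
  have hn3 : ‖s⁻¹ • v‖ = ‖w⁻¹ • (α • u - β • c)‖ := by
    have := hn2.trans hn1.symm
    exact (sq_eq_sq₀ (norm_nonneg _) (norm_nonneg _)).mp this
  refine ⟨w⁻¹ • (α • c - β • u), w⁻¹ • (α • u - β • c), s⁻¹ • v, ?_, hn3, ?_, ?_⟩
  · have : 0 < ‖w⁻¹ • (α • u - β • c)‖ ^ 2 := by rw [hn1]; positivity
    exact lt_of_le_of_ne (norm_nonneg _) (fun h => by rw [← h] at this; norm_num at this)
  · simp only [real_inner_smul_left, real_inner_smul_right, inner_sub_left, h0, hc]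
    ring
  · ext x
    constructor
    · rintro ⟨y, ⟨a, b, hab, rfl⟩, rfl⟩
      refine ⟨(α * a + β) / (α + β * a), s * b / (α + β * a), ?_, hinv a b hab⟩
      have h1 := hpos a b hab
      rw [div_pow, div_pow, mul_pow, hs2, ← add_div, div_eq_one_iff_eq (by positivity), hwd]
      linear_combination (α ^ 2 - β ^ 2) * hab
    · rintro ⟨a, b, hab, rfl⟩
      have h1 := hpos' a b hab
      have hab2 : ((α * a - β) / (α - β * a)) ^ 2 + (s * b / (α - β * a)) ^ 2 = 1 := by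
        rw [div_pow, div_pow, mul_pow, hs2, ← add_div, div_eq_one_iff_eq (by positivity), hwd]
        linear_combination (α ^ 2 - β ^ 2) * hab
      have h2 : α + β * ((α * a - β) / (α - β * a)) = w / (α - β * a) := by
        rw [hwd]
        field_simp
        ring
      refine ⟨_, ⟨(α * a - β) / (α - β * a), s * b / (α - β * a), hab2, rfl⟩, ?_⟩
      rw [hinv _ _ hab2, h2]
      have h3 := alg3 α β a w hw.ne' h1.ne' hwd
      have h4 : s * (s * b / (α - β * a)) / (w / (α - β * a)) = b := by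
        rw [← hs2]
        field_simp
      rw [h3, h4]

end CI_aux

open CI_aux in
theorem tCI : S_Inv → S_CI := by
  intro _ C hC h0
  obtain ⟨c, u, v, hu, huv, h, rfl⟩ := hC
  rw [range_eq] at h0 ⊢
  by_cases hpq : (inner ℝ c u : ℝ) ^ 2 + (inner ℝ c v : ℝ) ^ 2 = 0
  · have hv : inner ℝ c v = (0 : ℝ) := by
      have h1 : (inner ℝ c v : ℝ) ^ 2 = 0 := by
        nlinarith [sq_nonneg (inner ℝ c u : ℝ), sq_nonneg (inner ℝ c v : ℝ)]
      exact pow_eq_zero_iff two_ne_zero |>.mp h1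
    obtain ⟨c', u', v', h1, h2, h3, h4⟩ := main c u v hu huv h hv h0
    exact ⟨c', u', v', h1, h2, h3, h4.trans (range_eq _ _ _).symm⟩
  · set p0 : ℝ := inner ℝ c u with hp0
    set q0 : ℝ := inner ℝ c v with hq0
    have hr : 0 < p0 ^ 2 + q0 ^ 2 := lt_of_le_of_ne (by positivity) (Ne.symm hpq)
    set ρ : ℝ := Real.sqrt (p0 ^ 2 + q0 ^ 2) with hρ
    have hρ0 : 0 < ρ := Real.sqrt_pos.mpr hr
    have hρ2 : ρ ^ 2 = p0 ^ 2 + q0 ^ 2 := Real.sq_sqrt hr.le
    have h1 : (p0 / ρ) ^ 2 + (q0 / ρ) ^ 2 = 1 := by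
      rw [div_pow, div_pow, hρ2, ← add_div, div_self hpq]
    have hvu : inner ℝ v u = (0 : ℝ) := by rw [real_inner_comm]; exact h
    have hu2 : ‖(p0 / ρ) • u + (q0 / ρ) • v‖ ^ 2 = ‖u‖ ^ 2 := by
      rw [← real_inner_self_eq_norm_sq]
      simp only [inner_add_left, inner_add_right, real_inner_smul_left, real_inner_smul_right]
      rw [real_inner_self_eq_norm_sq, real_inner_self_eq_norm_sq, huv, h, hvu]
      linear_combination (‖u‖ ^ 2) * h1
    have hv2 : ‖-(q0 / ρ) • u + (p0 / ρ) • v‖ ^ 2 = ‖u‖ ^ 2 := by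
      rw [← real_inner_self_eq_norm_sq]
      simp only [inner_add_left, inner_add_right, real_inner_smul_left, real_inner_smul_right]
      rw [real_inner_self_eq_norm_sq, real_inner_self_eq_norm_sq, huv, h, hvu]
      linear_combination (‖u‖ ^ 2) * h1
    have hu3 : ‖(p0 / ρ) • u + (q0 / ρ) • v‖ = ‖u‖ :=
      (sq_eq_sq₀ (norm_nonneg _) (norm_nonneg _)).mp hu2
    have hv3 : ‖-(q0 / ρ) • u + (p0 / ρ) • v‖ = ‖u‖ :=
      (sq_eq_sq₀ (norm_nonneg _) (norm_nonneg _)).mp hv2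
    have ho : inner ℝ ((p0 / ρ) • u + (q0 / ρ) • v) (-(q0 / ρ) • u + (p0 / ρ) • v) = (0 : ℝ) := by
      simp only [inner_add_left, inner_add_right, real_inner_smul_left, real_inner_smul_right]
      rw [real_inner_self_eq_norm_sq, real_inner_self_eq_norm_sq, huv, h, hvu]
      ring
    have hcv : inner ℝ c (-(q0 / ρ) • u + (p0 / ρ) • v) = (0 : ℝ) := by
      simp only [inner_add_right, real_inner_smul_right]
      rw [← hp0, ← hq0]
      ring
    rw [circ_rot c u v _ _ h1] at h0 ⊢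
    obtain ⟨c', u', v', h1, h2, h3, h4⟩ := main c _ _ (by rw [hu3]; exact hu)
      (by rw [hu3, hv3]) ho hcv h0
    exact ⟨c', u', v', h1, h2, h3, h4.trans (range_eq _ _ _).symm⟩

end MP_e78765_gt
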