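import Pool.Agent.Lib.MP_e78765_gt.Spec

/-!
# Chart of a mirror knot (MP_e78765_gt)
-/

open scoped ContDiff Topology
open MeasureTheory Set Filter

namespace MP_e78765_gt

namespace Ch_aux

lemma mir_two (x : E3) : (mir x) 2 = -x 2 := by simp [mir]

lemma inv_two (x : E3) : (inv x) 2 = (‖x‖ ^ 2)⁻¹ * x 2 := by simp [inv]

lemma mir_eq_self {x : E3} (h : x 2 = 0) : mir x = x := by
  ext i
  fin_cases i <;> simp [mir, h]

lemma qf_sub (w x a y b : E3) : qf (x - w) a (y - w) b = qf x a y b := by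
  unfold qf
  rw [sub_sub_sub_cancel_right]

lemma per {r : ℝ → E3} (h : ∀ t, r (t + 1) = r t) (t : ℝ) (n : ℤ) : r (t + n) = r t := by
  have h1 : Function.Periodic r 1 := h
  have h2 := h1.int_mul n t
  rwa [mul_one] at h2

lemma r0 {r : ℝ → E3} (h : MirrorKnot r) : (r 0) 2 = 0 := by
  have h1 := h.sym 0
  rw [neg_zero] at h1
  have h2 : (r 0) 2 = (mir (r 0)) 2 := by rw [← h1]
  rw [mir_two] at h2
  linarith

lemma rh {r : ℝ → E3} (h : MirrorKnot r) : (r (1 / 2)) 2 = 0 := by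
  have h1 := h.sym (1 / 2)
  have h3 : r (-(1 / 2)) = r (1 / 2) := by
    rw [← h.periodic (-(1 / 2))]
    norm_num
  rw [h3] at h1
  have h2 : (r (1 / 2)) 2 = (mir (r (1 / 2))) 2 := by rw [← h1]
  rw [mir_two] at h2
  linarith

lemma rt_iff {r : ℝ → E3} (h : MirrorKnot r) (t : ℝ) :
    r t = r (1 / 2) ↔ ∃ n : ℤ, t = 1 / 2 + n := by
  constructor
  · intro h1
    exact h.inj (1 / 2) t h1.symm
  · rintro ⟨n, rfl⟩
    exact per h.periodic _ n

lemma rt_iff0 {r : ℝ → E3} (h : MirrorKnot r) (t : ℝ) :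
    r t = r 0 ↔ ∃ n : ℤ, t = n := by
  constructor
  · intro h1
    obtain ⟨n, hn⟩ := h.inj 0 t h1.symm
    exact ⟨n, by linarith⟩
  · rintro ⟨n, rfl⟩
    have := per h.periodic 0 n
    rwa [zero_add] at this

lemma pq {r : ℝ → E3} (h : MirrorKnot r) : r 0 - r (1 / 2) ≠ 0 := by
  intro h1
  obtain ⟨n, hn⟩ := (rt_iff h 0).1 (sub_eq_zero.1 h1)
  have h2 : (2 : ℝ) * n = -1 := by linarith
  have h3 : (2 : ℤ) * n = -1 := by exact_mod_cast h2
  omega

lemma ph2 {r : ℝ → E3} (h : MirrorKnot r) : (ph r) 2 = 0 := by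
  unfold ph
  rw [inv_two, PiLp.sub_apply, r0 h, rh h]
  simp

lemma ch2 {r : ℝ → E3} (h : MirrorKnot r) (x : E3) :
    (ch r x) 2 = x 2 / ‖x - r (1 / 2)‖ ^ 2 := by
  unfold ch
  rw [PiLp.sub_apply, inv_two, PiLp.sub_apply, rh h, ph2 h]
  rw [sub_zero, sub_zero, mul_comm]
  exact (div_eq_mul_inv _ _).symm

lemma back2 {r : ℝ → E3} (h : MirrorKnot r) (x : E3) :
    (back r x) 2 = x 2 / ‖x + ph r‖ ^ 2 := by
  unfold back
  rw [PiLp.add_apply, inv_two, PiLp.add_apply, rh h, ph2 h]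
  rw [zero_add, add_zero, mul_comm]
  exact (div_eq_mul_inv _ _).symm

end Ch_aux

open Ch_aux in
theorem tCh : S_Inv → S_Mir → S_Ch := by
  rintro ⟨i1, i2, i3, i4, i5, i6, i7, i8, i9, i10, i11, i12⟩
    ⟨m1, m2, m3, m4, m5, m6, m7, m8⟩ r h
  have hphne : ph r ≠ 0 := i1 _ (pq h)
  have hback : ∀ x, x ≠ r (1 / 2) → back r (ch r x) = x := by
    intro x hx
    unfold back ch
    rw [sub_add_cancel, i2 _ (sub_ne_zero.2 hx)]
    abel
  have hder : ∀ t, r t ≠ r (1 / 2) →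
      HasDerivAt (Fc r) (dinv (r t - r (1 / 2)) (deriv r t)) t := by
    intro t ht
    have hr : HasDerivAt r (deriv r t) t :=
      ((h.smooth.differentiable (by simp)) t).hasDerivAt
    have h1 : HasDerivAt (fun s => r s - r (1 / 2)) (deriv r t) t := hr.sub_const _
    have h2 := i10 (fun s => r s - r (1 / 2)) (deriv r t) t (sub_ne_zero.2 ht) h1
    exact h2.sub_const _
  refine ⟨r0 h, rh h, ph2 h, hphne, rt_iff h, rt_iff0 h, ?_, ?_, ?_, ?_, ?_, ?_, ?_, ?_, ?_, ?_⟩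
  · intro x hx
    refine ⟨hback x hx, ?_, ch2 h x⟩
    intro h1
    unfold ch at h1
    have h2 : inv (x - r (1 / 2)) = 0 := by
      have := congrArg (fun z => z + ph r) h1
      simpa using this
    exact i1 _ (sub_ne_zero.2 hx) h2
  · intro x hx
    have hx' : x + ph r ≠ 0 := fun h1 => hx (eq_neg_of_add_eq_zero_left h1)
    refine ⟨?_, ?_, back2 h x⟩
    · unfold ch back
      rw [add_sub_cancel_left, i2 _ hx', add_sub_cancel_right]
    · intro h1
      unfold back at h1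
      exact i1 _ hx' (by simpa using h1)
  · intro t ht
    have hd := hder t ht
    refine ⟨?_, hd.deriv, ?_⟩
    · have h1 : ContDiffAt ℝ ∞ (fun s => r s - r (1 / 2)) t :=
        (h.smooth.contDiffAt).sub contDiffAt_const
      have h2 : ContDiffAt ℝ ∞ (inv ∘ fun s => r s - r (1 / 2)) t :=
        ContDiffAt.comp t (i9 _ (sub_ne_zero.2 ht)) h1
      exact h2.sub contDiffAt_const
    · rw [hd.deriv]
      intro h1
      have h2 := i5 (r t - r (1 / 2)) (deriv r t) (sub_ne_zero.2 ht)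
      rw [h1, norm_zero] at h2
      have h3 : 0 < ‖deriv r t‖ / ‖r t - r (1 / 2)‖ ^ 2 :=
        div_pos (norm_pos_iff.2 (h.regular t)) (pow_pos (norm_pos_iff.2 (sub_ne_zero.2 ht)) 2)
      linarith
  · intro t
    unfold Fc
    rw [h.periodic]
  · intro t
    unfold Fc ch
    rw [h.sym, m3, i6, m3, mir_eq_self (rh h), mir_eq_self (ph2 h)]
  · unfold Fc ch ph
    rw [sub_self]
  · intro t ht
    have h1 := h.pos t ht
    have h2 : r t ≠ r (1 / 2) := by
      intro h3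
      rw [h3, rh h] at h1
      exact lt_irrefl _ h1
    unfold Fc
    rw [ch2 h]
    exact div_pos h1 (pow_pos (norm_pos_iff.2 (sub_ne_zero.2 h2)) 2)
  · intro s t hs ht hst
    have h1 := congrArg (back r) hst
    unfold Fc at h1
    rwa [hback _ hs, hback _ ht] at h1
  · intro s t hs ht
    rw [(hder s hs).deriv, (hder t ht).deriv]
    unfold Fc ch
    rw [qf_sub, i11 _ _ _ _ (sub_ne_zero.2 hs) (sub_ne_zero.2 ht), qf_sub]
    rfl
  · have hev : ∀ᶠ t in 𝓝[≠] (1 / 2 : ℝ), r t ≠ r (1 / 2) := by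
      rw [eventually_nhdsWithin_iff]
      have h1 : Ioo (0 : ℝ) 1 ∈ 𝓝 (1 / 2 : ℝ) := Ioo_mem_nhds (by norm_num) (by norm_num)
      filter_upwards [h1] with t ht hne h2
      obtain ⟨n, hn⟩ := (rt_iff h t).1 h2
      have h3 : (-1 : ℝ) < n := by linarith [ht.1]
      have h4 : (n : ℝ) < 1 := by linarith [ht.2]
      have h5 : (-1 : ℤ) < n := by exact_mod_cast h3
      have h6 : n < (1 : ℤ) := by exact_mod_cast h4
      have h7 : n = 0 := by omega
      rw [h7] at hn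
      exact hne (by simpa using hn)
    have hlim : Tendsto (fun t => ‖r t - r (1 / 2)‖) (𝓝[≠] (1 / 2)) (𝓝[>] 0) := by
      rw [tendsto_nhdsWithin_iff]
      constructor
      · have hc : Continuous (fun t => ‖r t - r (1 / 2)‖) :=
          (h.smooth.continuous.sub continuous_const).norm
        have h1 := hc.tendsto (1 / 2 : ℝ)
        simp only [sub_self, norm_zero] at h1
        exact h1.mono_left nhdsWithin_le_nhds
      · filter_upwards [hev] with t ht
        exact norm_pos_iff.2 (sub_ne_zero.2 ht)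
    have h1 : Tendsto (fun t => ‖r t - r (1 / 2)‖⁻¹ + -‖ph r‖) (𝓝[≠] (1 / 2)) atTop :=
      tendsto_atTop_add_const_right _ _ (tendsto_inv_nhdsGT_zero.comp hlim)
    refine tendsto_atTop_mono' _ ?_ h1
    filter_upwards [hev] with t ht
    have h2 : ‖inv (r t - r (1 / 2))‖ = ‖r t - r (1 / 2)‖⁻¹ := i3 _ (sub_ne_zero.2 ht)
    have h3 : ‖inv (r t - r (1 / 2))‖ - ‖ph r‖ ≤ ‖inv (r t - r (1 / 2)) - ph r‖ :=
      norm_sub_norm_le _ _
    rw [h2] at h3
    unfold Fc ch
    linarith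

end MP_e78765_gt
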