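import Pool.Agent.Lib.MP_e78765_gt.Spec

/-!
# A mirror knot on a vertical line in the chart is a round circle (MP_e78765_gt)
-/

open scoped ContDiff Topology
open MeasureTheory Set Filter

namespace MP_e78765_gt

namespace Circ_aux

/-- The vertical unit vector. -/
noncomputable def e3 : E3 := !₂[0, 0, 1]

lemma norm_e3 : ‖e3‖ = 1 := by
  rw [EuclideanSpace.norm_eq, Fin.sum_univ_three]
  simp [e3]

lemma inner_e3 (x : E3) : inner ℝ x e3 = x 2 := by
  simp [e3, PiLp.inner_apply, Fin.sum_univ_three]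

lemma eq_smul (x : E3) (h0 : x 0 = 0) (h1 : x 1 = 0) : x = x 2 • e3 := by
  ext i
  fin_cases i
  · simpa [e3] using h0
  · simpa [e3] using h1
  · simp [e3]

lemma norm_sq (P : E3) (hP : P 2 = 0) (z : ℝ) : ‖z • e3 + P‖ ^ 2 = ‖P‖ ^ 2 + z ^ 2 := by
  rw [add_comm, norm_add_sq_real, inner_smul_right, inner_e3, hP, norm_smul, norm_e3]
  simp

lemma back_eq (r : ℝ → E3) (hP : ph r 2 = 0) (hP0 : ph r ≠ 0) (z : ℝ) :
    back r (z • e3) = (r (1 / 2) + (1 / (2 * ‖ph r‖ ^ 2)) • ph r)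
      + ((‖ph r‖ ^ 2 - z ^ 2) / (‖ph r‖ ^ 2 + z ^ 2)) • ((1 / (2 * ‖ph r‖ ^ 2)) • ph r)
      + (2 * ‖ph r‖ * z / (‖ph r‖ ^ 2 + z ^ 2)) • ((1 / (2 * ‖ph r‖)) • e3) := by
  have ha : 0 < ‖ph r‖ := norm_pos_iff.2 hP0
  have hb : ‖ph r‖ ^ 2 + z ^ 2 ≠ 0 := by positivity
  rw [back, inv, norm_sq _ hP]
  generalize ‖ph r‖ = a at ha hb ⊢
  generalize ph r = P
  match_scalars <;> field_simp <;> ring

end Circ_aux

open Circ_aux in
theorem tCirc : S_Ch → S_Circ := by
  intro hCh r hr hF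
  obtain ⟨-, -, hP2, hP0, hq, -, hback, -, hFc, hFper, hFsym, hF0, hFpos, -, -, hinf⟩ := hCh r hr
  have ha : 0 < ‖ph r‖ := norm_pos_iff.2 hP0
  -- the knot on the open interval is not `q`
  have hne : ∀ t ∈ Ioo (-(1 / 2) : ℝ) (1 / 2), r t ≠ r (1 / 2) := by
    intro t ht h
    obtain ⟨n, hn⟩ := (hq t).1 h
    have h1 : (-1 : ℝ) < n := by linarith [ht.1]
    have h2 : (n : ℝ) < 0 := by linarith [ht.2]
    have h1' : (-1 : ℤ) < n := by exact_mod_cast h1
    have h2' : n < 0 := by exact_mod_cast h2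
    omega
  -- the curve in the chart is vertical
  have hv : ∀ t ∈ Ioo (-(1 / 2) : ℝ) (1 / 2), Fc r t = (Fc r t 2) • e3 := by
    intro t ht
    rcases lt_trichotomy t 0 with h | h | h
    · have h1 := hF (-t) ⟨by linarith, by linarith [ht.1]⟩
      have h2 : Fc r t = mir (Fc r (-t)) := by
        have := hFsym (-t)
        rwa [neg_neg] at this
      apply eq_smul
      · rw [h2]; simpa [mir] using h1.1
      · rw [h2]; simpa [mir] using h1.2
    · subst h
      rw [hF0]; simp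
    · have h1 := hF t ⟨h, ht.2⟩
      exact eq_smul _ h1.1 h1.2
  have hrt : ∀ t ∈ Ioo (-(1 / 2) : ℝ) (1 / 2), r t = back r ((Fc r t 2) • e3) := by
    intro t ht
    rw [← hv t ht]
    exact ((hback (r t) (hne t ht)).1).symm
  -- all heights occur
  have hpos : ∀ z : ℝ, 0 < z → ∃ t ∈ Ioo (-(1 / 2) : ℝ) (1 / 2), Fc r t 2 = z := by
    intro z hz
    have h1 : Tendsto (fun t => ‖Fc r t‖) (𝓝[<] (1 / 2)) atTop :=
      hinf.mono_left (nhdsWithin_mono _ (fun x hx => ne_of_lt hx))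
    have h2 : ∀ᶠ t in 𝓝[<] (1 / 2 : ℝ), z < ‖Fc r t‖ := h1.eventually_gt_atTop z
    have h3 : ∀ᶠ t in 𝓝[<] (1 / 2 : ℝ), t ∈ Ioo (0 : ℝ) (1 / 2) :=
      Ioo_mem_nhdsLT (by norm_num)
    obtain ⟨t1, ht1, ht1'⟩ := (h2.and h3).exists
    have h4 : ‖Fc r t1‖ = Fc r t1 2 := by
      conv_lhs => rw [hv t1 ⟨by linarith [ht1'.1], ht1'.2⟩]
      rw [norm_smul, norm_e3, mul_one, Real.norm_of_nonneg (hFpos t1 ht1').le]
    rw [h4] at ht1
    have hc : ContinuousOn (fun t => Fc r t 2) (Icc 0 t1) := by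
      intro t ht
      have h5 : ContinuousAt (Fc r) t :=
        (hFc t (hne t ⟨by linarith [ht.1], by linarith [ht.2, ht1'.2]⟩)).1.continuousAt
      have h6 : ContinuousAt (fun t => Fc r t 2) t :=
        ((EuclideanSpace.proj (𝕜 := ℝ) (2 : Fin 3)).continuous.continuousAt).comp h5
      exact h6.continuousWithinAt
    have h7 := intermediate_value_Icc ht1'.1.le hc
    have h8 : z ∈ Icc (Fc r 0 2) (Fc r t1 2) := by
      rw [hF0]
      exact ⟨by simpa using hz.le, ht1.le⟩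
    obtain ⟨t, ht, htz⟩ := h7 h8
    exact ⟨t, ⟨by linarith [ht.1], by linarith [ht.2, ht1'.2]⟩, htz⟩
  have hall : ∀ z : ℝ, ∃ t ∈ Ioo (-(1 / 2) : ℝ) (1 / 2), Fc r t 2 = z := by
    intro z
    rcases lt_trichotomy z 0 with h | h | h
    · obtain ⟨t, ht, htz⟩ := hpos (-z) (by linarith)
      refine ⟨-t, ⟨by linarith [ht.2], by linarith [ht.1]⟩, ?_⟩
      rw [hFsym t]
      simp [mir, htz]
    · exact ⟨0, ⟨by norm_num, by norm_num⟩, by rw [hF0, h]; simp⟩
    · exact hpos z h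
  -- the value at `1/2`
  have hqv : r (1 / 2) = (r (1 / 2) + (1 / (2 * ‖ph r‖ ^ 2)) • ph r)
      + Real.cos Real.pi • ((1 / (2 * ‖ph r‖ ^ 2)) • ph r)
      + Real.sin Real.pi • ((1 / (2 * ‖ph r‖)) • e3) := by
    rw [Real.cos_pi, Real.sin_pi]
    module
  refine ⟨r (1 / 2) + (1 / (2 * ‖ph r‖ ^ 2)) • ph r, (1 / (2 * ‖ph r‖ ^ 2)) • ph r,
    (1 / (2 * ‖ph r‖)) • e3, ?_, ?_, ?_, ?_⟩
  · rw [norm_smul]
    have : ‖1 / (2 * ‖ph r‖ ^ 2)‖ = 1 / (2 * ‖ph r‖ ^ 2) := Real.norm_of_nonneg (by positivity)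
    rw [this]; positivity
  · rw [norm_smul, norm_smul, norm_e3, Real.norm_of_nonneg (by positivity),
      Real.norm_of_nonneg (by positivity)]
    field_simp
  · rw [inner_smul_left, inner_smul_right, inner_e3, hP2]
    simp
  · apply Subset.antisymm
    · rintro _ ⟨t, rfl⟩
      -- reduce to `[-1/2, 1/2)`
      obtain ⟨n, hn⟩ : ∃ n : ℤ, t + n ∈ Ico (-(1 / 2) : ℝ) (1 / 2) := by
        refine ⟨-⌊t + 1 / 2⌋, ?_⟩
        have h1 := Int.floor_le (t + 1 / 2)
        have h2 := Int.lt_floor_add_one (t + 1 / 2)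
        push_cast
        exact ⟨by linarith, by linarith⟩
      have hper : Function.Periodic r 1 := hr.periodic
      have h1 : r (t + n) = r t := by
        have := hper.int_mul n t
        simpa using this
      rw [← h1]
      generalize t + (n : ℝ) = s at hn
      rcases eq_or_lt_of_le hn.1 with h | h
      · refine ⟨Real.pi, ?_⟩
        have h2 : r s = r (1 / 2) := (hq s).2 ⟨-1, by rw [← h]; push_cast; ring⟩
        rw [h2]
        exact hqv.symm
      · have hs : s ∈ Ioo (-(1 / 2) : ℝ) (1 / 2) := ⟨h, hn.2⟩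
        rw [hrt s hs, back_eq r hP2 hP0]
        generalize Fc r s 2 = z
        refine ⟨2 * Real.arctan (z / ‖ph r‖), ?_⟩
        have hw : 0 < 1 + (z / ‖ph r‖) ^ 2 := by positivity
        have hcos : Real.cos (2 * Real.arctan (z / ‖ph r‖))
            = (‖ph r‖ ^ 2 - z ^ 2) / (‖ph r‖ ^ 2 + z ^ 2) := by
          rw [Real.cos_two_mul, Real.cos_sq_arctan]
          field_simp
          ring
        have hsin : Real.sin (2 * Real.arctan (z / ‖ph r‖))
            = 2 * ‖ph r‖ * z / (‖ph r‖ ^ 2 + z ^ 2) := by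
          rw [Real.sin_two_mul, Real.sin_arctan, Real.cos_arctan]
          have h3 : Real.sqrt (1 + (z / ‖ph r‖) ^ 2) ^ 2 = 1 + (z / ‖ph r‖) ^ 2 :=
            Real.sq_sqrt hw.le
          have h4 : 2 * (z / ‖ph r‖ / Real.sqrt (1 + (z / ‖ph r‖) ^ 2))
              * (1 / Real.sqrt (1 + (z / ‖ph r‖) ^ 2))
              = 2 * (z / ‖ph r‖) / Real.sqrt (1 + (z / ‖ph r‖) ^ 2) ^ 2 := by
            field_simp
          rw [h4, h3]
          field_simp
        simp only [hcos, hsin]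
    · rintro _ ⟨θ, rfl⟩
      by_cases hc : 1 + Real.cos θ = 0
      · have h1 : Real.cos θ = -1 := by linarith
        have h2 : Real.sin θ = 0 := by
          have := Real.sin_sq_add_cos_sq θ
          rw [h1] at this
          nlinarith
        refine ⟨1 / 2, ?_⟩
        simp only [h1, h2]
        module
      · obtain ⟨t, ht, htz⟩ := hall (‖ph r‖ * Real.sin θ / (1 + Real.cos θ))
        refine ⟨t, ?_⟩
        rw [hrt t ht, htz, back_eq r hP2 hP0]
        have h0 : 0 < 1 + Real.cos θ :=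
          lt_of_le_of_ne (by linarith [Real.neg_one_le_cos θ]) (Ne.symm hc)
        have hs2 : Real.sin θ ^ 2 = 1 - Real.cos θ ^ 2 := by
          linarith [Real.sin_sq_add_cos_sq θ]
        have hd : ‖ph r‖ ^ 2 + (‖ph r‖ * Real.sin θ / (1 + Real.cos θ)) ^ 2
            = 2 * ‖ph r‖ ^ 2 / (1 + Real.cos θ) := by
          rw [div_pow, mul_pow, hs2]
          field_simp
          ring
        have h3 : (‖ph r‖ ^ 2 - (‖ph r‖ * Real.sin θ / (1 + Real.cos θ)) ^ 2)
            / (‖ph r‖ ^ 2 + (‖ph r‖ * Real.sin θ / (1 + Real.cos θ)) ^ 2) = Real.cos θ := by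
          rw [hd, div_pow, mul_pow, hs2]
          field_simp
          ring
        have h4 : 2 * ‖ph r‖ * (‖ph r‖ * Real.sin θ / (1 + Real.cos θ))
            / (‖ph r‖ ^ 2 + (‖ph r‖ * Real.sin θ / (1 + Real.cos θ)) ^ 2) = Real.sin θ := by
          rw [hd]
          field_simp
        rw [h3, h4]

end MP_e78765_gt
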