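import Pool.Agent.Lib.MP_e78765_gt.Spec

/-!
# Cone condition and growth in the chart (MP_e78765_gt, module Cone)
-/

open scoped ContDiff Topology
open MeasureTheory Set Filter

namespace MP_e78765_gt

namespace Cone_aux

lemma mir0 (x : E3) : (mir x) 0 = x 0 := by simp [mir]

lemma mir1 (x : E3) : (mir x) 1 = x 1 := by simp [mir]

lemma taylor {r : ℝ → E3} {K : ℝ}
    (h : ∀ s t, ‖r s - r t - (s - t) • deriv r t‖ ≤ K * (s - t) ^ 2) (i : Fin 3) (s t : ℝ) :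
    |r s i - r t i - (s - t) * deriv r t i| ≤ K * (s - t) ^ 2 := by
  have := (PiLp.norm_apply_le (r s - r t - (s - t) • deriv r t) i).trans (h s t)
  simpa using this

lemma deriv_zero {r : ℝ → E3} {K : ℝ} (hK : 0 < K)
    (h : ∀ s t, ‖r s - r t - (s - t) • deriv r t‖ ≤ K * (s - t) ^ 2) (i : Fin 3) (c : ℝ)
    (hsym : ∀ s, r (c + s) i = r (c - s) i) : deriv r c i = 0 := by
  by_contra hne
  have hd : 0 < |deriv r c i| := abs_pos.2 hne
  set d := deriv r c i with hdd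
  have hs : 0 < |d| / (2 * K) := by positivity
  set s := |d| / (2 * K) with hss
  have h1 := taylor h i (c + s) c
  have h2 := taylor h i (c - s) c
  rw [← hdd] at h1 h2
  rw [hsym s] at h1
  have e1 : c + s - c = s := by ring
  have e2 : c - s - c = -s := by ring
  rw [e1] at h1
  rw [e2] at h2
  obtain ⟨h1a, h1b⟩ := abs_le.1 h1
  obtain ⟨h2a, h2b⟩ := abs_le.1 h2
  have h3 : s * |d| ≤ K * s ^ 2 := by
    rcases abs_cases d with ⟨ha, _⟩ | ⟨ha, _⟩ <;> rw [ha] <;> nlinarith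
  have h4 : K * s = |d| / 2 := by
    rw [hss]; field_simp
  have h5 : s * |d| ≤ s * (|d| / 2) := by
    rw [← h4]; linarith
  have h6 := le_of_mul_le_mul_left h5 hs
  linarith

lemma third {r : ℝ → E3} {K : ℝ} (hr : ∀ t, deriv r t ≠ 0) (hK : 0 < K)
    (h : ∀ s t, ‖r s - r t - (s - t) • deriv r t‖ ≤ K * (s - t) ^ 2) (c : ℝ)
    (hsym : ∀ s, r (c + s) 0 = r (c - s) 0 ∧ r (c + s) 1 = r (c - s) 1) :
    deriv r c 0 = 0 ∧ deriv r c 1 = 0 ∧ deriv r c 2 ≠ 0 := by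
  have h0 := deriv_zero hK h 0 c (fun s => (hsym s).1)
  have h1 := deriv_zero hK h 1 c (fun s => (hsym s).2)
  refine ⟨h0, h1, fun h2 => hr c ?_⟩
  ext i
  fin_cases i
  · exact h0
  · exact h1
  · exact h2

/-- lower bound at an end point -/
lemma pos_of {α K : ℝ} (hα : α ≠ 0) (hK : 0 < K) (g : ℝ → ℝ)
    (hg : ∀ s ∈ Ioo (0 : ℝ) (1 / 2), 0 < g s) (h : ∀ s, |g s - s * α| ≤ K * s ^ 2) : 0 < α := by
  by_contra hc
  have hα' : α < 0 := lt_of_le_of_ne (not_lt.1 hc) hα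
  have hs : 0 < min (1 / 4) (-α / K) := lt_min (by norm_num) (div_pos (by linarith) hK)
  set s := min (1 / 4) (-α / K) with hss
  have hs1 : s ≤ 1 / 4 := min_le_left _ _
  have hs2 : s ≤ -α / K := min_le_right _ _
  have h1 := hg s ⟨hs, by linarith⟩
  have h2 := (abs_le.1 (h s)).2
  have h3 : K * s ≤ -α := by
    rw [le_div_iff₀ hK] at hs2; linarith
  nlinarith

lemma lower {α β K : ℝ} (hα : 0 < α) (hβ : 0 < β) (hK : 0 < K) (g : ℝ → ℝ) (hgc : Continuous g)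
    (hg : ∀ s ∈ Ioo (0 : ℝ) (1 / 2), 0 < g s) (h : ∀ s, |g s - s * α| ≤ K * s ^ 2)
    (h' : ∀ s, |g (1 / 2 - s) - s * β| ≤ K * s ^ 2) :
    ∃ c : ℝ, 0 < c ∧ ∀ t ∈ Ioo (0 : ℝ) (1 / 2), c * (t * (1 / 2 - t)) ≤ g t := by
  have hδ : 0 < min (1 / 4) (min (α / (2 * K)) (β / (2 * K))) :=
    lt_min (by norm_num) (lt_min (by positivity) (by positivity))
  set δ := min (1 / 4) (min (α / (2 * K)) (β / (2 * K))) with hδδ
  have hδ1 : δ ≤ 1 / 4 := min_le_left _ _
  have hδ2 : δ ≤ α / (2 * K) := (min_le_right _ _).trans (min_le_left _ _)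
  have hδ3 : δ ≤ β / (2 * K) := (min_le_right _ _).trans (min_le_right _ _)
  have hδ2' : K * δ ≤ α / 2 := by
    rw [le_div_iff₀ (by positivity)] at hδ2; linarith
  have hδ3' : K * δ ≤ β / 2 := by
    rw [le_div_iff₀ (by positivity)] at hδ3; linarith
  obtain ⟨t0, ht0, hmin⟩ := (isCompact_Icc (a := δ) (b := 1 / 2 - δ)).exists_isMinOn
    (nonempty_Icc.2 (by linarith)) hgc.continuousOn
  have hm : 0 < g t0 := hg t0 ⟨by linarith [ht0.1], by linarith [ht0.2]⟩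
  refine ⟨min α (min β (g t0)), lt_min hα (lt_min hβ hm), ?_⟩
  intro t ht
  have ht1 := ht.1
  have ht2 := ht.2
  have hpos : 0 < t * (1 / 2 - t) := mul_pos ht1 (by linarith)
  rcases le_or_gt t δ with h1 | h1
  · have h2 : min α (min β (g t0)) ≤ α := min_le_left _ _
    have h3 := (abs_le.1 (h t)).1
    have h4 : K * t ≤ α / 2 := (mul_le_mul_of_nonneg_left h1 hK.le).trans hδ2'
    have h5 : min α (min β (g t0)) * (t * (1 / 2 - t)) ≤ α * (t * (1 / 2 - t)) :=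
      mul_le_mul_of_nonneg_right h2 hpos.le
    have h6 : K * t ^ 2 ≤ α / 2 * t := by nlinarith
    have h7 : α * (t * (1 / 2 - t)) ≤ α * (t * (1 / 2)) := by
      apply mul_le_mul_of_nonneg_left _ hα.le
      apply mul_le_mul_of_nonneg_left _ ht1.le
      linarith
    linarith
  · rcases le_or_gt (1 / 2 - δ) t with h1' | h1'
    · have h2 : min α (min β (g t0)) ≤ β := (min_le_right _ _).trans (min_le_left _ _)
      have h3 := (abs_le.1 (h' (1 / 2 - t))).1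
      have e : 1 / 2 - (1 / 2 - t) = t := by ring
      rw [e] at h3
      have hs : 0 < 1 / 2 - t := by linarith
      have h4 : K * (1 / 2 - t) ≤ β / 2 :=
        (mul_le_mul_of_nonneg_left (by linarith) hK.le).trans hδ3'
      have h5 : min α (min β (g t0)) * (t * (1 / 2 - t)) ≤ β * (t * (1 / 2 - t)) :=
        mul_le_mul_of_nonneg_right h2 hpos.le
      have h6 : K * (1 / 2 - t) ^ 2 ≤ β / 2 * (1 / 2 - t) := by nlinarith
      have h7 : β * (t * (1 / 2 - t)) ≤ β * (1 / 2 * (1 / 2 - t)) := by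
        apply mul_le_mul_of_nonneg_left _ hβ.le
        apply mul_le_mul_of_nonneg_right _ hs.le
        linarith
      linarith
    · have h2 : min α (min β (g t0)) ≤ g t0 := (min_le_right _ _).trans (min_le_right _ _)
      have h3 : g t0 ≤ g t := hmin ⟨h1.le, h1'.le⟩
      have h5 : min α (min β (g t0)) * (t * (1 / 2 - t)) ≤ g t0 * (t * (1 / 2 - t)) :=
        mul_le_mul_of_nonneg_right h2 hpos.le
      have h6 : g t0 * (t * (1 / 2 - t)) ≤ g t0 * 1 := by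
        apply mul_le_mul_of_nonneg_left _ hm.le
        nlinarith
      linarith

end Cone_aux

open Cone_aux

theorem tCone : S_Ch → S_Bd → S_Inv → S_Cone := by
  intro hCh hBd hInv r hr
  obtain ⟨hp2, hq2, -, -, hqt, hpt, hch, -, hder, -, -, hF0, -, -, -, -⟩ := hCh r hr
  obtain ⟨⟨m, M, K, hm, hM, hK, -, hdM, -, hT, hLip⟩, -⟩ := hBd r hr.toIsKnot
  obtain ⟨-, -, hI3, hI4, hI5, -⟩ := hInv
  have hreg := hr.regular
  have hsym0 : ∀ s, r (0 + s) 0 = r (0 - s) 0 ∧ r (0 + s) 1 = r (0 - s) 1 := by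
    intro s
    rw [zero_add, zero_sub, hr.sym, mir0, mir1]
    exact ⟨rfl, rfl⟩
  have hhalf : ∀ s, r (1 / 2 + s) = mir (r (1 / 2 - s)) := by
    intro s
    rw [← hr.sym, ← hr.periodic (-(1 / 2 - s))]
    congr 1
    ring
  have hsym1 : ∀ s, r (1 / 2 + s) 0 = r (1 / 2 - s) 0 ∧ r (1 / 2 + s) 1 = r (1 / 2 - s) 1 := by
    intro s
    rw [hhalf, mir0, mir1]
    exact ⟨rfl, rfl⟩
  obtain ⟨a0, a1, a2⟩ := third hreg hK hT 0 hsym0
  obtain ⟨-, -, b2⟩ := third hreg hK hT (1 / 2) hsym1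
  have hT0 : ∀ s, |r s 2 - s * deriv r 0 2| ≤ K * s ^ 2 := by
    intro s
    have := taylor hT 2 s 0
    rwa [hp2, sub_zero, sub_zero] at this
  have hT1 : ∀ s, |r (1 / 2 - s) 2 - s * (-deriv r (1 / 2) 2)| ≤ K * s ^ 2 := by
    intro s
    have := taylor hT 2 (1 / 2 - s) (1 / 2)
    rw [hq2, sub_zero] at this
    have e : 1 / 2 - s - 1 / 2 = -s := by ring
    rw [e] at this
    have e2 : r (1 / 2 - s) 2 - s * (-deriv r (1 / 2) 2) =
      r (1 / 2 - s) 2 - -s * deriv r (1 / 2) 2 := by ring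
    rw [e2]
    rwa [neg_sq] at this
  have hα : 0 < deriv r 0 2 := pos_of a2 hK (fun s => r s 2) hr.pos hT0
  have hβ : 0 < -deriv r (1 / 2) 2 := by
    refine pos_of (neg_ne_zero.2 b2) hK (fun s => r (1 / 2 - s) 2) ?_ hT1
    intro s hs
    exact hr.pos _ ⟨by linarith [hs.2], by linarith [hs.1]⟩
  have hcont : Continuous (fun s => r s 2) := by
    have := hr.smooth.continuous
    fun_prop
  obtain ⟨c0, hc0, hlow⟩ := lower hα hβ hK (fun s => r s 2) hcont hr.pos hT0 hT1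
  have hpq : r 0 ≠ r (1 / 2) := by
    intro h
    obtain ⟨z, hz⟩ := (hqt 0).1 h
    have h2 : (2 * z : ℝ) = -1 := by linarith
    have h3 : (2 * z : ℤ) = -1 := by exact_mod_cast h2
    omega
  have hD : 0 < ‖r 0 - r (1 / 2)‖ := norm_pos_iff.2 (sub_ne_zero.2 hpq)
  refine ⟨?_, ?_, ?_⟩
  · set D := ‖r 0 - r (1 / 2)‖ with hDD
    refine ⟨min 1 (c0 * D / M ^ 2), lt_min one_pos (by positivity), min_le_left _ _, ?_⟩
    intro t ht
    have hne : r t ≠ r (1 / 2) := by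
      intro h
      obtain ⟨z, hz⟩ := (hqt t).1 h
      have h1 : (z : ℝ) < 0 := by linarith [ht.2]
      have h2 : (-1 : ℝ) < z := by linarith [ht.1]
      have h1' : z < 0 := by exact_mod_cast h1
      have h2' : -1 < z := by exact_mod_cast h2
      omega
    have hB : 0 < ‖r t - r (1 / 2)‖ := norm_pos_iff.2 (sub_ne_zero.2 hne)
    have hF : ‖Fc r t‖ = ‖r t - r 0‖ / (‖r t - r (1 / 2)‖ * D) := by
      unfold Fc ch ph
      rw [hI4 _ _ (sub_ne_zero.2 hne) (sub_ne_zero.2 hpq), sub_sub_sub_cancel_right]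
    have hF2 : Fc r t 2 = r t 2 / ‖r t - r (1 / 2)‖ ^ 2 := (hch (r t) hne).2.2
    have hA1 : ‖r t - r 0‖ ≤ M * t := by
      have := hLip t 0
      rwa [sub_zero, abs_of_pos ht.1] at this
    have hB1 : ‖r t - r (1 / 2)‖ ≤ M * (1 / 2 - t) := by
      have := hLip t (1 / 2)
      rwa [abs_sub_comm, abs_of_pos (by linarith [ht.2])] at this
    have hl := hlow t ht
    rw [hF, hF2]
    set A := ‖r t - r 0‖ with hAA
    set B := ‖r t - r (1 / 2)‖ with hBB
    have hA0 : 0 ≤ A := norm_nonneg _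
    set c := min 1 (c0 * D / M ^ 2) with hcc
    have hc : 0 < c := lt_min one_pos (by positivity)
    have hcM : c * M ^ 2 ≤ c0 * D := by
      have : c ≤ c0 * D / M ^ 2 := min_le_right _ _
      rwa [le_div_iff₀ (by positivity)] at this
    have hpos : 0 < t * (1 / 2 - t) := mul_pos ht.1 (by linarith [ht.2])
    have key : c * A * B ≤ r t 2 * D := by
      calc c * A * B ≤ c * (M * t) * (M * (1 / 2 - t)) := by
            apply mul_le_mul (mul_le_mul_of_nonneg_left hA1 hc.le) hB1 hB.le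
            have := ht.1
            positivity
        _ = (c * M ^ 2) * (t * (1 / 2 - t)) := by ring
        _ ≤ (c0 * D) * (t * (1 / 2 - t)) := mul_le_mul_of_nonneg_right hcM hpos.le
        _ = (c0 * (t * (1 / 2 - t))) * D := by ring
        _ ≤ r t 2 * D := mul_le_mul_of_nonneg_right hl hD.le
    rw [← mul_div_assoc, div_le_div_iff₀ (by positivity) (by positivity)]
    calc c * A * B ^ 2 = (c * A * B) * B := by ring
      _ ≤ (r t 2 * D) * B := mul_le_mul_of_nonneg_right key hB.le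
      _ = r t 2 * (B * D) := by ring
  · refine ⟨M * (2 * (1 + ‖ph r‖ ^ 2)), ?_⟩
    intro t ht
    have hne := sub_ne_zero.2 ht
    rw [(hder t ht).2.1, hI5 _ _ hne]
    have h1 : ‖r t - r (1 / 2)‖⁻¹ ≤ ‖Fc r t‖ + ‖ph r‖ := by
      rw [← hI3 _ hne]
      have : inv (r t - r (1 / 2)) = Fc r t + ph r := by
        unfold Fc ch
        rw [sub_add_cancel]
      rw [this]
      exact norm_add_le _ _
    have h2 : 0 ≤ ‖r t - r (1 / 2)‖⁻¹ := by positivity
    have h3 : (‖r t - r (1 / 2)‖⁻¹) ^ 2 ≤ (‖Fc r t‖ + ‖ph r‖) ^ 2 := pow_le_pow_left₀ h2 h1 2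
    have h4 : (‖Fc r t‖ + ‖ph r‖) ^ 2 ≤ (2 * (1 + ‖ph r‖ ^ 2)) * (1 + ‖Fc r t‖ ^ 2) := by
      nlinarith [sq_nonneg (‖Fc r t‖ - ‖ph r‖), sq_nonneg (‖Fc r t‖ * ‖ph r‖)]
    calc ‖deriv r t‖ / ‖r t - r (1 / 2)‖ ^ 2 = ‖deriv r t‖ * (‖r t - r (1 / 2)‖⁻¹) ^ 2 := by
          rw [inv_pow, div_eq_mul_inv]
      _ ≤ M * ((2 * (1 + ‖ph r‖ ^ 2)) * (1 + ‖Fc r t‖ ^ 2)) := by
          apply mul_le_mul (hdM t) (h3.trans h4) (by positivity) hM.le
      _ = M * (2 * (1 + ‖ph r‖ ^ 2)) * (1 + ‖Fc r t‖ ^ 2) := by ring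
  · have h0 : inner ℝ (r 0 - r (1 / 2)) (deriv r 0) = 0 := by
      have h2 : (r 0 - r (1 / 2)) 2 = 0 := by
        rw [PiLp.sub_apply, hp2, hq2, sub_zero]
      rw [PiLp.inner_apply, Fin.sum_univ_three, a0, a1, h2]
      simp
    have hd : deriv (Fc r) 0 = (‖r 0 - r (1 / 2)‖ ^ 2)⁻¹ • deriv r 0 := by
      rw [(hder 0 hpq).2.1]
      unfold dinv
      rw [h0]
      simp
    rw [hd]
    refine ⟨?_, ?_, ?_⟩
    · simp [a0]
    · simp [a1]
    · have : ((‖r 0 - r (1 / 2)‖ ^ 2)⁻¹ • deriv r 0) 2 =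
        (‖r 0 - r (1 / 2)‖ ^ 2)⁻¹ * deriv r 0 2 := by simp
      rw [this]
      positivity

end MP_e78765_gt
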