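import Pool.Agent.Lib.MP_e78765_gt.Spec5

/-! Straight variations: a knot is critical iff the first variation vanishes (MP_e78765_gt). -/

set_option autoImplicit false

open scoped ContDiff Topology
open MeasureTheory Set Filter

namespace MP_e78765_gt

theorem tCr : S_FV → S_Cr := by
  intro hFV r hr
  have key : ∀ φ : ℝ → E3, ContDiff ℝ ∞ φ → (∀ t, φ (t + 1) = φ t) →
      HasDerivAt (fun τ : ℝ => energy (fun t => r t + τ • φ t)) (LL r φ) 0 := by
    intro φ hφ hper
    have h0 : (fun t => r t + (0 : ℝ) • φ t) = r := by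
      funext t
      rw [zero_smul, add_zero]
    have hJS : JS (fun a t => r t + a • φ t) 1 := by
      refine ⟨ContDiff.contDiffOn ?_, ?_⟩
      · exact (hr.smooth.comp contDiff_snd).add (contDiff_fst.smul (hφ.comp contDiff_snd))
      · intro a t
        simp only [hr.periodic t, hper t]
    have h1 := hFV (fun a t => r t + a • φ t) 1 φ one_pos hJS (by
      show IsKnot (fun t => r t + (0 : ℝ) • φ t)
      rw [h0]
      exact hr) (by
      intro t
      have h2 := ((hasDerivAt_id (0 : ℝ)).smul_const (φ t)).const_add (r t)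
      rw [one_smul] at h2
      exact h2)
    have h3 : LL (fun t => r t + (0 : ℝ) • φ t) φ = LL r φ := by rw [h0]
    rw [← h3]
    exact h1
  refine ⟨key, ⟨fun h φ hφ hper => ?_, fun h φ hφ hper => ?_⟩⟩
  · exact (key φ hφ hper).unique (h φ hφ hper)
  · have h1 := key φ hφ hper
    rw [h φ hφ hper] at h1
    exact h1

end MP_e78765_gt
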