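import Pool.Agent.Lib.MP_e78765_gt.Spec5

/-! Criticality is invariant under changes of the parameter (MP_e78765_gt). -/

set_option autoImplicit false

open scoped ContDiff Topology
open MeasureTheory Set Filter

namespace MP_e78765_gt

theorem tCrA : S_Cr → S_SgI → S_Rep → S_Fb → S_CrA := by
  intro _ hSgI hRep hFb r σ hr hcr hσ hσ' hσ1 φ hφ hper
  obtain ⟨ρ, hρ, hρ', hρ1, hσρ, -⟩ := hSgI σ hσ hσ' hσ1
  have hk : IsKnot (fun t => r (σ t)) := (hRep r σ hr hσ hσ' hσ1).1
  have h1 := hcr (fun t => φ (ρ t)) (hφ.comp hρ) (fun t => by rw [hρ1, hper])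
  have hJS : JS (fun a t => r (σ t) + a • φ t) 1 := by
    refine ⟨ContDiff.contDiffOn ?_, ?_⟩
    · exact (hk.smooth.comp contDiff_snd).add (contDiff_fst.smul (hφ.comp contDiff_snd))
    · intro a t
      have h2 : r (σ (t + 1)) = r (σ t) := hk.periodic t
      simp only [h2, hper t]
  obtain ⟨a1, _, _, _, _, ha1, -, -, -, -, H⟩ := hFb (fun a t => r (σ t) + a • φ t) 1 one_pos hJS (by
    show IsKnot (fun t => r (σ t) + (0 : ℝ) • φ t)
    have h0 : (fun t => r (σ t) + (0 : ℝ) • φ t) = fun t => r (σ t) := by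
      funext t
      rw [zero_smul, add_zero]
    rw [h0]
    exact hk)
  refine h1.congr_of_eventuallyEq ?_
  have hnb : Ioo (-a1) a1 ∈ 𝓝 (0 : ℝ) := Ioo_mem_nhds (by linarith) ha1
  filter_upwards [hnb] with τ hτ
  have h3 := (hRep _ ρ (H τ hτ).1 hρ hρ' hρ1).2.2.2
  simp only [hσρ] at h3
  exact h3.symm

end MP_e78765_gt
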