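import Pool.Agent.Lib.MP_e78765_gt.Spec5

/-!
# THEOREM R4 (MP_e78765_gt): criticality under rigid motions
-/

set_option autoImplicit false

open scoped ContDiff Topology
open MeasureTheory Set Filter

namespace MP_e78765_gt

/-- Criticality is invariant under rigid motions. -/
theorem tCrB : S_Cr → S_Tr → S_Fb → S_CrB := by
  intro _ hTr hFb r A b hr hcrit φ hφ hφp
  set ψ : ℝ → E3 := fun t => A.symm (φ t) with hψ
  have hψs : ContDiff ℝ ∞ ψ := A.symm.contDiff.comp hφ
  have hψp : ∀ t, ψ (t + 1) = ψ t := fun t => by simp only [hψ, hφp t]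
  have h1 := hcrit ψ hψs hψp
  have hJS : JS (fun a t => r t + a • ψ t) 1 := by
    refine ⟨ContDiff.contDiffOn ?_, ?_⟩
    · exact (hr.smooth.comp contDiff_snd).add (contDiff_fst.smul (hψs.comp contDiff_snd))
    · intro a t
      simp only [hr.periodic t, hψp t]
  have h0 : (fun t => r t + (0 : ℝ) • ψ t) = r := by
    funext t
    rw [zero_smul, add_zero]
  obtain ⟨a1, m, M, K, φ', ha1, -, -, -, -, hbd⟩ :=
    hFb (fun a t => r t + a • ψ t) 1 one_pos hJS (by
      show IsKnot (fun t => r t + (0 : ℝ) • ψ t)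
      rw [h0]
      exact hr)
  have heq : (fun τ : ℝ => energy (fun t => (A (r t) + b) + τ • φ t)) =ᶠ[𝓝 0]
      fun τ : ℝ => energy (fun t => r t + τ • ψ t) := by
    have hmem : Ioo (-a1) a1 ∈ 𝓝 (0 : ℝ) := Ioo_mem_nhds (by linarith) ha1
    filter_upwards [hmem] with τ hτ
    have hk : IsKnot (fun t => r t + τ • ψ t) := (hbd τ hτ).1
    have h2 := ((hTr A b).1 _ hk).2
    rw [← h2]
    congr 1
    funext t
    rw [map_add, map_smul, hψ, A.apply_symm_apply]
    abel
  exact h1.congr_of_eventuallyEq heq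

end MP_e78765_gt
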