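import Pool.Agent.Lib.MP_e78765_gt.Spec5

/-!
# THEOREM R4 (MP_e78765_gt): criticality under inversion
-/

set_option autoImplicit false

open scoped ContDiff Topology
open MeasureTheory Set Filter

namespace MP_e78765_gt

namespace CrM_aux

theorem knot_sub {r : ℝ → E3} (hr : IsKnot r) (c : E3) : IsKnot (fun t => r t - c) := by
  refine ⟨hr.smooth.sub contDiff_const, fun t => ?_, fun t => ?_, fun s t h => ?_⟩
  · simp only [hr.periodic]
  · rw [deriv_sub_const]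
    exact hr.regular t
  · exact hr.inj s t (sub_left_injective h)

theorem has_deriv {f : ℝ → E3} (hf : IsKnot f) (t : ℝ) : HasDerivAt f (deriv f t) t :=
  ((hf.smooth.differentiable (by simp)) t).hasDerivAt

theorem deriv_inv (hInv : S_Inv) {f : ℝ → E3} (hf : IsKnot f) (h0 : ∀ t, f t ≠ 0) (t : ℝ) :
    deriv (fun t => inv (f t)) t = dinv (f t) (deriv f t) := by
  obtain ⟨-, -, -, -, -, -, -, -, -, h10, -, -⟩ := hInv
  exact (h10 f (deriv f t) t (h0 t) (has_deriv hf t)).deriv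

theorem knot_inv (hInv : S_Inv) {f : ℝ → E3} (hf : IsKnot f) (h0 : ∀ t, f t ≠ 0) :
    IsKnot (fun t => inv (f t)) := by
  have hI := hInv
  obtain ⟨-, h2, -, -, h5, -, -, -, h9, h10, -, -⟩ := hInv
  refine ⟨?_, fun t => ?_, fun t => ?_, fun s t h => ?_⟩
  · rw [contDiff_iff_contDiffAt]
    intro t
    exact ContDiffAt.comp (g := inv) t (h9 (f t) (h0 t)) hf.smooth.contDiffAt
  · simp only [hf.periodic]
  · rw [deriv_inv hI hf h0 t]
    intro h
    have h1 := h5 (f t) (deriv f t) (h0 t)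
    rw [h, norm_zero] at h1
    have h3 : ‖deriv f t‖ / ‖f t‖ ^ 2 ≠ 0 :=
      div_ne_zero (norm_ne_zero_iff.2 (hf.regular t)) (pow_ne_zero 2 (norm_ne_zero_iff.2 (h0 t)))
    exact h3 h1.symm
  · have h' : inv (f s) = inv (f t) := h
    have h1 : inv (inv (f s)) = inv (inv (f t)) := by rw [h']
    rw [h2 _ (h0 s), h2 _ (h0 t)] at h1
    exact hf.inj s t h1

theorem energy_inv (hInv : S_Inv) (hDS : S_DS) {f : ℝ → E3} (hf : IsKnot f)
    (h0 : ∀ t, f t ≠ 0) : energy (fun t => inv (f t)) = energy f := by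
  have hI := hInv
  obtain ⟨-, -, -, -, -, -, -, -, -, -, h11, -⟩ := hInv
  rw [hDS _ hf, hDS _ (knot_inv hI hf h0)]
  congr 1
  refine integral_congr_ae (Eventually.of_forall fun z => ?_)
  change Q (fun t => inv (f t)) z.1 z.2 = Q f z.1 z.2
  unfold Q
  rw [deriv_inv hI hf h0, deriv_inv hI hf h0]
  exact h11 _ _ _ _ (h0 _) (h0 _)

/-- A continuous periodic function without zeros is bounded below. -/
theorem bdd_below {u : ℝ → E3} (hu : Continuous u) (hp : ∀ t, u (t + 1) = u t)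
    (h0 : ∀ t, u t ≠ 0) : ∃ m : ℝ, 0 < m ∧ ∀ t, m ≤ ‖u t‖ := by
  obtain ⟨t0, -, ht0⟩ := isCompact_Icc.exists_isMinOn (nonempty_Icc.2 zero_le_one)
    (hu.norm.continuousOn (s := Icc (0 : ℝ) 1))
  refine ⟨‖u t0‖, norm_pos_iff.2 (h0 t0), fun t => ?_⟩
  have hper : Function.Periodic u 1 := hp
  obtain ⟨y, hy, hyt⟩ := hper.exists_mem_Ico₀ one_pos t
  rw [hyt]
  exact ht0 ⟨hy.1, hy.2.le⟩

theorem bdd_above {u : ℝ → E3} (hu : Continuous u) (hp : ∀ t, u (t + 1) = u t) :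
    ∃ M : ℝ, 0 < M ∧ ∀ t, ‖u t‖ ≤ M := by
  obtain ⟨t0, -, ht0⟩ := isCompact_Icc.exists_isMaxOn (nonempty_Icc.2 zero_le_one)
    (hu.norm.continuousOn (s := Icc (0 : ℝ) 1))
  refine ⟨‖u t0‖ + 1, by positivity, fun t => ?_⟩
  have hper : Function.Periodic u 1 := hp
  obtain ⟨y, hy, hyt⟩ := hper.exists_mem_Ico₀ one_pos t
  rw [hyt]
  have h1 : ‖u y‖ ≤ ‖u t0‖ := ht0 ⟨hy.1, hy.2.le⟩
  linarith

theorem js_line {u φ : ℝ → E3} (hu : ContDiff ℝ ∞ u) (hup : ∀ t, u (t + 1) = u t)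
    (hφ : ContDiff ℝ ∞ φ) (hφp : ∀ t, φ (t + 1) = φ t) (a0 : ℝ) :
    JS (fun a t => u t + a • φ t) a0 := by
  refine ⟨ContDiff.contDiffOn ?_, fun a t => by simp only [hup, hφp]⟩
  exact (hu.comp contDiff_snd).add (contDiff_fst.smul (hφ.comp contDiff_snd))

theorem js_inv (hInv : S_Inv) {f : ℝ → ℝ → E3} {a0 : ℝ} (hf : JS f a0)
    (h0 : ∀ a ∈ Ioo (-a0) a0, ∀ t, f a t ≠ 0) : JS (fun a t => inv (f a t)) a0 := by
  obtain ⟨-, -, -, -, -, -, -, -, h9, -, -, -⟩ := hInv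
  refine ⟨fun z hz => ?_, fun a t => by simp only [hf.2]⟩
  exact ContDiffAt.comp_contDiffWithinAt (g := inv) z (h9 _ (h0 z.1 hz.1 z.2)) (hf.1 z hz)

theorem smooth_dinv {u φ : ℝ → E3} (hu : ContDiff ℝ ∞ u) (hφ : ContDiff ℝ ∞ φ)
    (h0 : ∀ t, u t ≠ 0) : ContDiff ℝ ∞ (fun t => dinv (u t) (φ t)) := by
  have hn : ContDiff ℝ ∞ (fun t => ‖u t‖ ^ 2) := hu.norm_sq ℝ
  have hne : ∀ t, ‖u t‖ ^ 2 ≠ 0 := fun t => pow_ne_zero 2 (norm_ne_zero_iff.2 (h0 t))
  have h1 : ContDiff ℝ ∞ (fun t => (‖u t‖ ^ 2)⁻¹) := hn.inv hne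
  have h2 : ContDiff ℝ ∞ (fun t => 2 * inner ℝ (u t) (φ t) / ‖u t‖ ^ 2) :=
    (contDiff_const.mul (hu.inner ℝ hφ)).div hn hne
  exact h1.smul (hφ.sub (h2.smul hu))

end CrM_aux

open CrM_aux

/-- Criticality under inversion. -/
theorem tCrM : S_Cr → S_FV → S_Fb → S_Dqf → S_Inv → S_DS → S_CrM := by
  intro hCr hFV hFb hDqf hInv hDS r c hr hrc
  have hf0 : IsKnot (fun t => r t - c) := knot_sub hr c
  have hf0n : ∀ t, r t - c ≠ 0 := fun t => sub_ne_zero.2 (hrc t)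
  have hu : IsKnot (fun t => inv (r t - c)) := knot_inv hInv hf0 hf0n
  refine ⟨hu, fun hcrit => ?_⟩
  have h1 := hInv.1
  have h2 := hInv.2.1
  have h10 := hInv.2.2.2.2.2.2.2.2.2.1
  rw [(hCr _ hu).2]
  intro φ hφ hφp
  set u : ℝ → E3 := fun t => inv (r t - c) with hudef
  have hun : ∀ t, u t ≠ 0 := fun t => h1 _ (hf0n t)
  -- the family of straight lines
  have hJS : JS (fun a t => u t + a • φ t) 1 := js_line hu.smooth hu.periodic hφ hφp 1
  have hF0 : (fun t => u t + (0 : ℝ) • φ t) = u := by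
    funext t
    rw [zero_smul, add_zero]
  obtain ⟨a1, m', M', K', φ', ha1, ha1', -, -, -, hbd⟩ :=
    hFb (fun a t => u t + a • φ t) 1 one_pos hJS (by simp only [hF0]; exact hu)
  have hkn : ∀ a ∈ Ioo (-a1) a1, IsKnot (fun t => u t + a • φ t) := fun a ha => (hbd a ha).1
  obtain ⟨m, hm, hmu⟩ := bdd_below hu.smooth.continuous hu.periodic hun
  obtain ⟨M, hM, hMφ⟩ := bdd_above hφ.continuous hφp
  obtain ⟨a2, ha2, ha21, ha2m⟩ : ∃ a2 : ℝ, 0 < a2 ∧ a2 ≤ a1 ∧ a2 * M ≤ m / 2 := by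
    refine ⟨min a1 (m / 2 / M), lt_min ha1 (by positivity), min_le_left _ _, ?_⟩
    calc min a1 (m / 2 / M) * M ≤ m / 2 / M * M :=
          mul_le_mul_of_nonneg_right (min_le_right _ _) hM.le
      _ = m / 2 := by field_simp
  have hFn : ∀ a ∈ Ioo (-a2) a2, ∀ t, u t + a • φ t ≠ 0 := by
    intro a ha t h
    have h3 : ‖u t‖ = ‖a • φ t‖ := by
      rw [eq_neg_of_add_eq_zero_left h, norm_neg]
    have h4 : ‖a • φ t‖ ≤ m / 2 := by
      rw [norm_smul, Real.norm_eq_abs]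
      have h5 : |a| ≤ a2 := (abs_lt.2 ha).le
      calc |a| * ‖φ t‖ ≤ a2 * M := mul_le_mul h5 (hMφ t) (norm_nonneg _) ha2.le
        _ ≤ m / 2 := ha2m
    have h5 := hmu t
    linarith
  have hJS2 : JS (fun a t => u t + a • φ t) a2 := js_line hu.smooth hu.periodic hφ hφp a2
  have hJH : JS (fun a t => inv (u t + a • φ t)) a2 := js_inv hInv hJS2 hFn
  have hH0 : (fun t => inv (u t + (0 : ℝ) • φ t)) = fun t => r t - c := by
    funext t
    rw [zero_smul, add_zero]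
    exact h2 _ (hf0n t)
  -- the field
  have hψ : ∀ t, HasDerivAt (fun a : ℝ => inv (u t + a • φ t)) (dinv (u t) (φ t)) 0 := by
    intro t
    have h3 : HasDerivAt (fun a : ℝ => u t + a • φ t) (φ t) 0 := by
      have h4 := ((hasDerivAt_id (0 : ℝ)).smul_const (φ t)).const_add (u t)
      simpa using h4
    have h5 := h10 (fun a : ℝ => u t + a • φ t) (φ t) 0
      (by simp only [zero_smul, add_zero]; exact hun t) h3
    simp only [zero_smul, add_zero] at h5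
    exact h5
  have hD1 : HasDerivAt (fun a : ℝ => energy (fun t => inv (u t + a • φ t)))
      (LL (fun t => r t - c) (fun t => dinv (u t) (φ t))) 0 := by
    have h3 := hFV (fun a t => inv (u t + a • φ t)) a2 (fun t => dinv (u t) (φ t)) ha2 hJH
      (by simp only [hH0]; exact hf0) hψ
    simp only [hH0] at h3
    exact h3
  have hD2 : HasDerivAt (fun a : ℝ => energy (fun t => u t + a • φ t)) (LL u φ) 0 :=
    (hCr u hu).1 φ hφ hφp
  have heq : (fun a : ℝ => energy (fun t => inv (u t + a • φ t))) =ᶠ[𝓝 0]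
      fun a : ℝ => energy (fun t => u t + a • φ t) := by
    have hmem : Ioo (-a2) a2 ∈ 𝓝 (0 : ℝ) := Ioo_mem_nhds (by linarith) ha2
    filter_upwards [hmem] with a ha
    exact energy_inv hInv hDS (hkn a ⟨by linarith [ha.1], by linarith [ha.2]⟩) (hFn a ha)
  have hLL : LL u φ = LL (fun t => r t - c) (fun t => dinv (u t) (φ t)) :=
    hD2.unique (hD1.congr_of_eventuallyEq heq.symm)
  have htr : LL (fun t => r t - c) (fun t => dinv (u t) (φ t)) =
      LL r (fun t => dinv (u t) (φ t)) := by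
    unfold LL
    refine integral_congr_ae (Eventually.of_forall fun z => ?_)
    change dQ (fun t => r t - c) _ z.1 z.2 = dQ r _ z.1 z.2
    unfold dQ
    rw [deriv_sub_const, deriv_sub_const]
    change dqf (r z.1 - c) _ (r z.2 - c) _ _ _ _ _ = _
    rw [sub_eq_add_neg, sub_eq_add_neg]
    exact hDqf.2.2.2 (-c) _ _ _ _ _ _ _ _
  rw [hLL, htr]
  refine (hCr r hr).2.1 hcrit _ (smooth_dinv hu.smooth hφ hun) fun t => ?_
  rw [hφp t, hu.periodic t]

end MP_e78765_gt
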