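import Pool.Agent.Lib.MP_e78765_gt.Spec

/-!
# The radial cut-off (MP_e78765_gt)
-/

open scoped ContDiff Topology
open MeasureTheory Set Filter

namespace MP_e78765_gt

namespace Cut_aux

lemma norm_inv' (x : E3) (hx : x ≠ 0) : ‖inv x‖ = ‖x‖⁻¹ := by
  have h : 0 < ‖x‖ := norm_pos_iff.2 hx
  rw [inv, norm_smul, norm_inv, norm_pow, norm_norm]
  field_simp

lemma cut_zero (ε : ℝ) (hε : 0 < ε) (x : E3) (hx : ‖x‖ ≤ ε) : cut ε x = 0 := by
  have h : Real.log (‖x‖ / ε) ≤ 0 :=
    Real.log_nonpos (by positivity) ((div_le_one hε).2 hx)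
  rw [cut, St, Real.smoothTransition.zero_of_nonpos h, zero_mul]

lemma smooth_at (ε : ℝ) (hε : 0 < ε) (x : E3) (hx : x ≠ 0) : ContDiffAt ℝ ∞ (cut ε) x := by
  have h : 0 < ‖x‖ := norm_pos_iff.2 hx
  have hn : ContDiffAt ℝ ∞ (fun y : E3 => ‖y‖) x := contDiffAt_norm ℝ hx
  have hs : ContDiff ℝ ∞ St := Real.smoothTransition.contDiff
  have h1 : ContDiffAt ℝ ∞ (fun y : E3 => Real.log (‖y‖ / ε)) x :=
    (hn.div_const ε).log (by positivity)
  have h2 : ContDiffAt ℝ ∞ (fun y : E3 => -Real.log (ε * ‖y‖)) x :=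
    ((contDiffAt_const.mul hn).log (by positivity)).neg
  exact (hs.contDiffAt.comp x h1).mul (hs.contDiffAt.comp x h2)

end Cut_aux

open Cut_aux in
theorem tCut : S_Cut := by
  intro ε hε
  refine ⟨?_, ?_, ?_, ?_, ?_, ?_, ?_⟩
  · intro x
    exact ⟨mul_nonneg (Real.smoothTransition.nonneg _) (Real.smoothTransition.nonneg _),
      mul_le_one₀ (Real.smoothTransition.le_one _) (Real.smoothTransition.nonneg _)
        (Real.smoothTransition.le_one _)⟩
  · exact cut_zero ε hε
  · intro x hx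
    have h : -Real.log (ε * ‖x‖) ≤ 0 := by
      have := Real.log_nonneg hx
      linarith
    rw [cut, St, St, Real.smoothTransition.zero_of_nonpos h, mul_zero]
  · intro x h1 h2
    have he := Real.exp_pos 1
    have hx : 0 < ‖x‖ := lt_of_lt_of_le (by positivity) h1
    have h3 : 1 ≤ Real.log (‖x‖ / ε) := by
      rw [Real.le_log_iff_exp_le (by positivity), le_div_iff₀ hε]
      exact h1
    have h4 : 1 ≤ -Real.log (ε * ‖x‖) := by
      rw [← Real.log_inv, Real.le_log_iff_exp_le (by positivity), ← one_div,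
        le_div_iff₀ (by positivity)]
      exact h2
    rw [cut, St, St, Real.smoothTransition.one_of_one_le h3,
      Real.smoothTransition.one_of_one_le h4, one_mul]
  · intro x y h
    rw [cut, cut, h]
  · intro x hx
    have h : 0 < ‖x‖ := norm_pos_iff.2 hx
    have h1 : Real.log (‖x‖⁻¹ / ε) = -Real.log (ε * ‖x‖) := by
      rw [← Real.log_inv]
      congr 1
      field_simp
    have h2 : -Real.log (ε * ‖x‖⁻¹) = Real.log (‖x‖ / ε) := by
      rw [← Real.log_inv]
      congr 1
      field_simp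
    rw [cut, cut, norm_inv' x hx, h1, h2, mul_comm]
  · rw [contDiff_iff_contDiffAt]
    intro x
    by_cases hx : x = 0
    · subst hx
      have h0 : cut ε =ᶠ[𝓝 (0 : E3)] fun _ => (0 : ℝ) := by
        filter_upwards [Metric.ball_mem_nhds (0 : E3) hε] with y hy
        exact cut_zero ε hε y (by simpa using (mem_ball_zero_iff.1 hy).le)
      exact contDiffAt_const.congr_of_eventuallyEq h0
    · exact smooth_at ε hε x hx

end MP_e78765_gt
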