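import Pool.Agent.Lib.MP_e78765_gt.Spec5

/-!
# Module DB: pointwise bounds of `dQ` for a non-smooth field
-/

set_option autoImplicit false

open scoped ContDiff Topology
open MeasureTheory Set Filter

namespace MP_e78765_gt

namespace DB_aux

theorem per_deriv {f : ℝ → E3} (hf : ∀ t, f (t + 1) = f t) (t : ℝ) : deriv f (t + 1) = deriv f t := by
  have h1 : (fun x => f (x + 1)) = f := funext hf
  have h2 := deriv_comp_add_const f 1 t
  rw [h1] at h2
  exact h2.symm

theorem dqf_diag (x a b ξ α η β : E3) : dqf x a x b ξ α η β = 0 := by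
  unfold dqf
  simp

theorem quot {x y a : E3} {h K : ℝ} (hh : h ≠ 0) (hb : ‖x - y - h • a‖ ≤ K * h ^ 2) :
    ‖a - h⁻¹ • (x - y)‖ ≤ K * |h| := by
  have h1 : a - h⁻¹ • (x - y) = -(h⁻¹ • (x - y - h • a)) := by
    rw [smul_sub h⁻¹ (x - y), smul_smul, inv_mul_cancel₀ hh, one_smul, neg_sub]
  rw [h1, norm_neg, norm_smul, norm_inv, Real.norm_eq_abs]
  have hp : 0 < |h| := abs_pos.mpr hh
  rw [inv_mul_le_iff₀ hp]
  calc ‖x - y - h • a‖ ≤ K * h ^ 2 := hb
    _ = |h| * (K * |h|) := by rw [← sq_abs h]; ring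

/-- Taylor bound from a Lipschitz bound of the derivative. -/
theorem taylor {ψ : ℝ → E3} {L : ℝ} (hψ : Differentiable ℝ ψ) (hL : 0 ≤ L)
    (h : ∀ s t, ‖deriv ψ s - deriv ψ t‖ ≤ L * |s - t|) (s t : ℝ) :
    ‖ψ s - ψ t - (s - t) • deriv ψ s‖ ≤ L * (s - t) ^ 2 := by
  set v := deriv ψ s with hv
  have hd : ∀ x ∈ uIcc s t, HasDerivWithinAt (fun x => ψ x - x • v) (deriv ψ x - (1 : ℝ) • v)
      (uIcc s t) x := by
    intro x _
    exact (((hψ x).hasDerivAt).sub ((hasDerivAt_id x).smul_const v)).hasDerivWithinAt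
  have hb : ∀ x ∈ uIcc s t, ‖deriv ψ x - (1 : ℝ) • v‖ ≤ L * |s - t| := by
    intro x hx
    rw [one_smul, hv]
    refine (h x s).trans (mul_le_mul_of_nonneg_left ?_ hL)
    rw [abs_sub_comm s t]
    exact abs_sub_left_of_mem_uIcc hx
  have hc : Convex ℝ (uIcc s t) := convex_uIcc s t
  have e := hc.norm_image_sub_le_of_norm_hasDerivWithin_le hd hb right_mem_uIcc left_mem_uIcc
  have e2 : ψ s - s • v - (ψ t - t • v) = ψ s - ψ t - (s - t) • v := by
    rw [sub_smul]; abel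
  rw [e2] at e
  refine e.trans (le_of_eq ?_)
  rw [Real.norm_eq_abs, mul_assoc, ← sq, sq_abs]

theorem taylor' {ψ : ℝ → E3} {L : ℝ} (hψ : Differentiable ℝ ψ) (hL : 0 ≤ L)
    (h : ∀ s t, ‖deriv ψ s - deriv ψ t‖ ≤ L * |s - t|) (s t : ℝ) :
    ‖ψ s - ψ t - (s - t) • deriv ψ t‖ ≤ L * (s - t) ^ 2 := by
  have e := taylor hψ hL h t s
  have e1 : ψ t - ψ s - (t - s) • deriv ψ t = -(ψ s - ψ t - (s - t) • deriv ψ t) := by
    rw [sub_smul, sub_smul]; abel
  rw [e1, norm_neg] at e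
  calc _ ≤ L * (t - s) ^ 2 := e
    _ = L * (s - t) ^ 2 := by ring

end DB_aux

open DB_aux in
theorem tDB : S_DqB → S_DB := by
  intro hB m M K hm hM hK
  obtain ⟨C, hC, hC'⟩ := hB m M hm hM
  refine ⟨C * (K ^ 2 * M + 2 * (K * M)), by positivity, ?_⟩
  intro f ψ δ hδ hδ1 hf hψp hψ hd hlow hup hTf hLip
  have hL : 0 ≤ M / δ := by positivity
  have hdiff : Differentiable ℝ ψ := hψ.differentiable (by simp)
  have hW : ∀ s t : ℝ, s - t ≠ 0 → ‖(s - t)⁻¹ • (ψ s - ψ t)‖ ≤ M := by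
    intro s t hh
    rw [norm_smul, norm_inv, Real.norm_eq_abs, inv_mul_le_iff₀ (abs_pos.mpr hh), mul_comm]
    exact (hup s t).2
  -- the two bounds for `0 < |s - t| ≤ 1 / 2`
  have key : ∀ s t : ℝ, s ≠ t → |s - t| ≤ 1 / 2 →
      |dQ f ψ s t| ≤ C * (K ^ 2 * M + K * (M / δ)) ∧
      |dQ f ψ s t| ≤ C * (K ^ 2 * M + 2 * (K * M) * (1 / |s - t|)) := by
    intro s t h hst
    have hh : s - t ≠ 0 := sub_ne_zero.mpr h
    have hp : 0 < |s - t| := abs_pos.mpr hh
    have h2 : (s - t) ^ 2 ≠ 0 := pow_ne_zero 2 hh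
    have base := fun R hR1 hR2 =>
      hC' (f s) (deriv f s) (f t) (deriv f t) (ψ s) (deriv ψ s) (ψ t) (deriv ψ t) (s - t)
        (K * |s - t|) M R hh (hd s).1 (hd s).2.1 (hd t).1 (hd t).2.1 (hlow s t hst)
        (hup s t).1 (quot hh (hTf s t).1) (quot hh (hTf s t).2) (hW s t hh)
        (hd s).2.2 (hd t).2.2 hR1 hR2
    constructor
    · refine (base (M / δ * |s - t|) (quot hh (taylor hdiff hL hLip s t))
        (quot hh (taylor' hdiff hL hLip s t))).trans (le_of_eq ?_)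
      rw [div_eq_iff h2, ← sq_abs (s - t)]
      ring
    · have t1 : ∀ v : E3, ‖v‖ ≤ M → ‖v - (s - t)⁻¹ • (ψ s - ψ t)‖ ≤ 2 * M := by
        intro v hv
        calc _ ≤ ‖v‖ + ‖(s - t)⁻¹ • (ψ s - ψ t)‖ := norm_sub_le _ _
          _ ≤ M + M := add_le_add hv (hW s t hh)
          _ = 2 * M := by ring
      refine (base (2 * M) (t1 _ (hd s).2.2) (t1 _ (hd t).2.2)).trans (le_of_eq ?_)
      have h3 : |s - t| ≠ 0 := hp.ne'
      rw [← sq_abs (s - t)]
      field_simp
  -- periodicity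
  have hdf := per_deriv hf
  have hdψ := per_deriv hψp
  have p1 : Function.Periodic f 1 := hf
  have p2 : Function.Periodic ψ 1 := hψp
  have p3 : Function.Periodic (deriv f) 1 := hdf
  have p4 : Function.Periodic (deriv ψ) 1 := hdψ
  have per : ∀ (s t : ℝ) (n : ℤ), dQ f ψ s t = dQ f ψ (s - n) t := by
    intro s t n
    have e1 : dQ f ψ s t = dQ f ψ (s - (n : ℝ) * 1) t := by
      unfold dQ
      rw [p1.sub_int_mul_eq, p2.sub_int_mul_eq, p3.sub_int_mul_eq, p4.sub_int_mul_eq]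
    rwa [mul_one] at e1
  constructor
  · intro s t
    rw [per s t (round (s - t))]
    set s' : ℝ := s - (round (s - t) : ℤ) with hs'
    have hst : |s' - t| ≤ 1 / 2 := by
      have := abs_sub_round (s - t)
      rw [show s' - t = s - t - round (s - t) by rw [hs']; ring]
      exact this
    rcases eq_or_ne s' t with h | h
    · rw [h]
      unfold dQ
      rw [dqf_diag, abs_zero]
      positivity
    · refine (key s' t h hst).1.trans ?_
      rw [mul_div_assoc]
      refine mul_le_mul_of_nonneg_left ?_ hC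
      rw [le_div_iff₀ hδ]
      have e1 : (K ^ 2 * M + K * (M / δ)) * δ = K ^ 2 * M * δ + K * M := by
        field_simp
      rw [e1]
      have e2 : K ^ 2 * M * δ ≤ K ^ 2 * M * 1 :=
        mul_le_mul_of_nonneg_left hδ1 (by positivity)
      have e3 : 0 < K * M := by positivity
      linarith
  · intro s t n hne hst
    rw [per s t n]
    have e0 : s - n - t = s - t - n := by ring
    have h : s - (n : ℝ) ≠ t := by
      intro h
      apply hne
      rw [← h]; ring
    have hst' : |s - (n : ℝ) - t| ≤ 1 / 2 := by rw [e0]; exact hst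
    refine (key (s - n) t h hst').2.trans ?_
    rw [e0, mul_assoc C]
    refine mul_le_mul_of_nonneg_left ?_ hC
    have hx : 0 ≤ 1 / |s - t - n| := by positivity
    have e3 : 0 < K * M := by positivity
    have e4 : 0 < K ^ 2 * M := by positivity
    nlinarith [mul_nonneg e4.le hx, mul_nonneg e3.le hx]

end MP_e78765_gt
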