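import Pool.Agent.Lib.MP_e78765_gt.Spec5

/-!
# An integral estimate: thin set times square root (MP_e78765_gt, THEOREM R4, module DI)
-/

open scoped ContDiff Topology
open MeasureTheory Set Filter

namespace MP_e78765_gt

namespace DI_aux

/-- Indicator of a box with given centre and half sides. -/
noncomputable def bx (a r b q : ℝ) (z : ℝ × ℝ) : ℝ :=
  (Icc (a - r) (a + r) ×ˢ Icc (b - q) (b + q)).indicator (fun _ => (1 : ℝ)) z

lemma bx_nonneg (a r b q : ℝ) (z : ℝ × ℝ) : 0 ≤ bx a r b q z :=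
  indicator_nonneg (fun _ _ => zero_le_one) z

lemma bx_one {a r b q s t : ℝ} (h1 : |s - a| ≤ r) (h2 : |t - b| ≤ q) : bx a r b q (s, t) = 1 := by
  rw [abs_le] at h1 h2
  have hm : (s, t) ∈ Icc (a - r) (a + r) ×ˢ Icc (b - q) (b + q) :=
    ⟨⟨by show a - r ≤ s; linarith, by show s ≤ a + r; linarith⟩,
      ⟨by show b - q ≤ t; linarith, by show t ≤ b + q; linarith⟩⟩
  exact indicator_of_mem hm _

lemma vol_box (a r b q : ℝ) : volume (Icc (a - r) (a + r) ×ˢ Icc (b - q) (b + q)) =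
    ENNReal.ofReal (2 * r) * ENNReal.ofReal (2 * q) := by
  rw [Measure.volume_eq_prod, Measure.prod_prod, Real.volume_Icc, Real.volume_Icc]
  congr 2 <;> ring

lemma bx_int (a r b q : ℝ) : Integrable (bx a r b q) := by
  refine (integrable_indicator_iff (measurableSet_Icc.prod measurableSet_Icc)).mpr ?_
  refine integrableOn_const (by
    rw [vol_box]
    exact ENNReal.mul_ne_top ENNReal.ofReal_ne_top ENNReal.ofReal_ne_top)

lemma bx_integral (a r b q : ℝ) (hr : 0 ≤ r) (hq : 0 ≤ q) : ∫ z, bx a r b q z = 4 * r * q := by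
  have h1 : ∫ z, bx a r b q z =
      ∫ z, (Icc (a - r) (a + r) ×ˢ Icc (b - q) (b + q)).indicator (fun _ => (1 : ℝ)) z := rfl
  rw [h1, integral_indicator_const _ (measurableSet_Icc.prod measurableSet_Icc), smul_eq_mul,
    mul_one, Measure.real, vol_box, ENNReal.toReal_mul, ENNReal.toReal_ofReal (by linarith),
    ENNReal.toReal_ofReal (by linarith)]
  ring

/-- The thin set. -/
lemma thin {s δ : ℝ} (hs : 0 < s) (hs1 : s < 1) (hδ : 0 < δ)
    (h : Real.sin (2 * Real.pi * s) ^ 2 ≤ 2 * δ ^ 2) : ∃ i : Fin 3, |s - (i : ℝ) / 2| ≤ δ := by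
  have hc : ∃ i : Fin 3, |s - (i : ℝ) / 2| ≤ 1 / 4 := by
    rcases le_total s (1 / 4) with h1 | h1
    · refine ⟨0, ?_⟩
      simp only [Fin.val_zero, Nat.cast_zero, zero_div, sub_zero]
      rw [abs_le]; constructor <;> linarith
    · rcases le_total s (3 / 4) with h2 | h2
      · refine ⟨1, ?_⟩
        simp only [Fin.val_one, Nat.cast_one]
        rw [abs_le]; constructor <;> linarith
      · refine ⟨2, ?_⟩
        simp only [Fin.val_two, Nat.cast_ofNat]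
        rw [abs_le]; constructor <;> linarith
  obtain ⟨i, hi⟩ := hc
  refine ⟨i, ?_⟩
  set u : ℝ := s - (i : ℝ) / 2 with hu
  have hpi := Real.pi_pos
  have h2 : |2 * Real.pi * u| ≤ Real.pi / 2 := by
    rw [abs_mul, abs_of_pos (by positivity)]
    nlinarith
  have h3 := Real.mul_abs_le_abs_sin h2
  have h4 : |Real.sin (2 * Real.pi * u)| = |Real.sin (2 * Real.pi * s)| := by
    have e : 2 * Real.pi * s = 2 * Real.pi * u + ((i : ℕ) : ℝ) * Real.pi := by rw [hu]; ring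
    rw [e, Real.sin_add_nat_mul_pi, abs_mul, abs_pow, abs_neg, abs_one, one_pow, one_mul]
  have h5 : 2 / Real.pi * |2 * Real.pi * u| = 4 * |u| := by
    rw [abs_mul, abs_of_pos (by positivity : (0 : ℝ) < 2 * Real.pi)]
    field_simp
    ring
  rw [h5, h4] at h3
  have h6 : (4 * |u|) ^ 2 ≤ 2 * δ ^ 2 := by
    refine le_trans ?_ h
    rw [← sq_abs (Real.sin (2 * Real.pi * s))]
    exact pow_le_pow_left₀ (by positivity) h3 2
  have h7 : |u| ^ 2 ≤ δ ^ 2 := by nlinarith [sq_nonneg (|u|), sq_nonneg δ]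
  exact (pow_le_pow_iff_left₀ (abs_nonneg _) hδ.le two_ne_zero).mp h7

/-- The integer nearest to `s - t`. -/
lemma near {s t : ℝ} (hs : 0 < s) (hs1 : s < 1) (ht : 0 < t) (ht1 : t < 1) :
    ∃ j : Fin 3, |s - t - (((j : ℕ) : ℤ) - 1 : ℤ)| ≤ 1 / 2 := by
  rcases le_total (s - t) (-(1 / 2)) with h1 | h1
  · refine ⟨0, ?_⟩
    simp only [Fin.val_zero, Nat.cast_zero, zero_sub, Int.cast_neg, Int.cast_one]
    rw [abs_le]; constructor <;> linarith
  · rcases le_total (s - t) (1 / 2) with h2 | h2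
    · refine ⟨1, ?_⟩
      simp only [Fin.val_one, Nat.cast_one, sub_self, Int.cast_zero, sub_zero]
      rw [abs_le]; constructor <;> linarith
    · refine ⟨2, ?_⟩
      have e : ((((2 : Fin 3) : ℕ) : ℤ) - 1 : ℤ) = 1 := by norm_num
      rw [e, Int.cast_one, abs_le]
      constructor <;> linarith

/-- The dominating function. -/
noncomputable def GG (C δ : ℝ) (z : ℝ × ℝ) : ℝ :=
  (∑ i : Fin 3, ∑ j : Fin 3, C / δ *
    (bx ((i : ℝ) / 2) δ ((i : ℝ) / 2 - (((j : ℕ) : ℤ) - 1 : ℤ)) (2 * Real.sqrt δ) z +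
      bx ((i : ℝ) / 2 + (((j : ℕ) : ℤ) - 1 : ℤ)) (2 * Real.sqrt δ) ((i : ℝ) / 2) δ z)) +
  ∑ i : Fin 3, C * (1 + 1 / Real.sqrt δ) *
    (bx ((i : ℝ) / 2) δ (1 / 2) (1 / 2) z + bx (1 / 2) (1 / 2) ((i : ℝ) / 2) δ z)

lemma GG_integrable (C δ : ℝ) : Integrable (GG C δ) := by
  refine Integrable.add ?_ ?_
  · refine integrable_finsetSum _ (fun i _ => integrable_finsetSum _ (fun j _ => ?_))
    exact ((bx_int _ _ _ _).add (bx_int _ _ _ _)).const_mul _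
  · refine integrable_finsetSum _ (fun i _ => ?_)
    exact ((bx_int _ _ _ _).add (bx_int _ _ _ _)).const_mul _

lemma GG_integral (C δ : ℝ) (hδ : 0 < δ) : ∫ z, GG C δ z =
    (∑ _i : Fin 3, ∑ _j : Fin 3, C / δ * (16 * δ * Real.sqrt δ)) +
      ∑ _i : Fin 3, C * (1 + 1 / Real.sqrt δ) * (4 * δ) := by
  have hs : 0 ≤ Real.sqrt δ := Real.sqrt_nonneg _
  unfold GG
  rw [integral_add]
  · congr 1
    · rw [integral_finsetSum]
      · refine Finset.sum_congr rfl (fun i _ => ?_)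
        rw [integral_finsetSum]
        · refine Finset.sum_congr rfl (fun j _ => ?_)
          rw [integral_const_mul, integral_add (bx_int _ _ _ _) (bx_int _ _ _ _),
            bx_integral _ _ _ _ hδ.le (by positivity), bx_integral _ _ _ _ (by positivity) hδ.le]
          ring
        · intro j _
          exact ((bx_int _ _ _ _).add (bx_int _ _ _ _)).const_mul _
      · intro i _
        refine integrable_finsetSum _ (fun j _ => ?_)
        exact ((bx_int _ _ _ _).add (bx_int _ _ _ _)).const_mul _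
    · rw [integral_finsetSum]
      · refine Finset.sum_congr rfl (fun i _ => ?_)
        rw [integral_const_mul, integral_add (bx_int _ _ _ _) (bx_int _ _ _ _),
          bx_integral _ _ _ _ hδ.le (by norm_num), bx_integral _ _ _ _ (by norm_num) hδ.le]
        ring
      · intro i _
        exact ((bx_int _ _ _ _).add (bx_int _ _ _ _)).const_mul _
  · refine integrable_finsetSum _ (fun i _ => integrable_finsetSum _ (fun j _ => ?_))
    exact ((bx_int _ _ _ _).add (bx_int _ _ _ _)).const_mul _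
  · refine integrable_finsetSum _ (fun i _ => ?_)
    exact ((bx_int _ _ _ _).add (bx_int _ _ _ _)).const_mul _

section Dom

variable {C δ : ℝ}

lemma A_nonneg (hC : 0 ≤ C) (hδ : 0 < δ) (z : ℝ × ℝ) (i j : Fin 3) : 0 ≤ C / δ *
    (bx ((i : ℝ) / 2) δ ((i : ℝ) / 2 - (((j : ℕ) : ℤ) - 1 : ℤ)) (2 * Real.sqrt δ) z +
      bx ((i : ℝ) / 2 + (((j : ℕ) : ℤ) - 1 : ℤ)) (2 * Real.sqrt δ) ((i : ℝ) / 2) δ z) :=
  mul_nonneg (by positivity) (add_nonneg (bx_nonneg _ _ _ _ _) (bx_nonneg _ _ _ _ _))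

lemma B_nonneg (hC : 0 ≤ C) (z : ℝ × ℝ) (i : Fin 3) : 0 ≤ C * (1 + 1 / Real.sqrt δ) *
    (bx ((i : ℝ) / 2) δ (1 / 2) (1 / 2) z + bx (1 / 2) (1 / 2) ((i : ℝ) / 2) δ z) :=
  mul_nonneg (by positivity) (add_nonneg (bx_nonneg _ _ _ _ _) (bx_nonneg _ _ _ _ _))

lemma GG_nonneg (hC : 0 ≤ C) (hδ : 0 < δ) (z : ℝ × ℝ) : 0 ≤ GG C δ z :=
  add_nonneg (Finset.sum_nonneg (fun i _ => Finset.sum_nonneg (fun j _ => A_nonneg hC hδ z i j)))
    (Finset.sum_nonneg (fun i _ => B_nonneg hC z i))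

lemma A_le (hC : 0 ≤ C) (hδ : 0 < δ) (z : ℝ × ℝ) (i j : Fin 3) : C / δ *
    (bx ((i : ℝ) / 2) δ ((i : ℝ) / 2 - (((j : ℕ) : ℤ) - 1 : ℤ)) (2 * Real.sqrt δ) z +
      bx ((i : ℝ) / 2 + (((j : ℕ) : ℤ) - 1 : ℤ)) (2 * Real.sqrt δ) ((i : ℝ) / 2) δ z) ≤
      GG C δ z := by
  have h1 := Finset.single_le_sum (f := fun j : Fin 3 => C / δ *
    (bx ((i : ℝ) / 2) δ ((i : ℝ) / 2 - (((j : ℕ) : ℤ) - 1 : ℤ)) (2 * Real.sqrt δ) z +
      bx ((i : ℝ) / 2 + (((j : ℕ) : ℤ) - 1 : ℤ)) (2 * Real.sqrt δ) ((i : ℝ) / 2) δ z))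
    (fun j _ => A_nonneg hC hδ z i j) (Finset.mem_univ j)
  have h2 := Finset.single_le_sum (f := fun i : Fin 3 => ∑ j : Fin 3, C / δ *
    (bx ((i : ℝ) / 2) δ ((i : ℝ) / 2 - (((j : ℕ) : ℤ) - 1 : ℤ)) (2 * Real.sqrt δ) z +
      bx ((i : ℝ) / 2 + (((j : ℕ) : ℤ) - 1 : ℤ)) (2 * Real.sqrt δ) ((i : ℝ) / 2) δ z))
    (fun i _ => Finset.sum_nonneg (fun j _ => A_nonneg hC hδ z i j)) (Finset.mem_univ i)
  have h3 : 0 ≤ ∑ i : Fin 3, C * (1 + 1 / Real.sqrt δ) *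
    (bx ((i : ℝ) / 2) δ (1 / 2) (1 / 2) z + bx (1 / 2) (1 / 2) ((i : ℝ) / 2) δ z) :=
    Finset.sum_nonneg (fun i _ => B_nonneg hC z i)
  unfold GG
  exact le_trans h1 (le_trans h2 (le_add_of_nonneg_right h3))

lemma B_le (hC : 0 ≤ C) (hδ : 0 < δ) (z : ℝ × ℝ) (i : Fin 3) : C * (1 + 1 / Real.sqrt δ) *
    (bx ((i : ℝ) / 2) δ (1 / 2) (1 / 2) z + bx (1 / 2) (1 / 2) ((i : ℝ) / 2) δ z) ≤
      GG C δ z := by
  have h2 := Finset.single_le_sum (f := fun i : Fin 3 => C * (1 + 1 / Real.sqrt δ) *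
    (bx ((i : ℝ) / 2) δ (1 / 2) (1 / 2) z + bx (1 / 2) (1 / 2) ((i : ℝ) / 2) δ z))
    (fun i _ => B_nonneg hC z i) (Finset.mem_univ i)
  have h3 : 0 ≤ ∑ i : Fin 3, ∑ j : Fin 3, C / δ *
    (bx ((i : ℝ) / 2) δ ((i : ℝ) / 2 - (((j : ℕ) : ℤ) - 1 : ℤ)) (2 * Real.sqrt δ) z +
      bx ((i : ℝ) / 2 + (((j : ℕ) : ℤ) - 1 : ℤ)) (2 * Real.sqrt δ) ((i : ℝ) / 2) δ z) :=
    Finset.sum_nonneg (fun i _ => Finset.sum_nonneg (fun j _ => A_nonneg hC hδ z i j))
  unfold GG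
  exact le_trans h2 (le_add_of_nonneg_left h3)

lemma dom (hC : 0 ≤ C) (hδ : 0 < δ) (hδ1 : δ ≤ 1 / 4) (D : ℝ → ℝ → ℝ)
    (h0 : ∀ s t, 2 * δ ^ 2 < Real.sin (2 * Real.pi * s) ^ 2 →
      2 * δ ^ 2 < Real.sin (2 * Real.pi * t) ^ 2 → D s t = 0)
    (h1 : ∀ s t, |D s t| ≤ C / δ)
    (h2 : ∀ (s t : ℝ) (n : ℤ), s ≠ t + n → |s - t - n| ≤ 1 / 2 →
      |D s t| ≤ C * (1 + 1 / |s - t - n|))
    {s t : ℝ} (hs : 0 < s) (hs1 : s < 1) (ht : 0 < t) (ht1 : t < 1) :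
    |D s t| ≤ GG C δ (s, t) := by
  have hq : 0 < Real.sqrt δ := Real.sqrt_pos.mpr hδ
  have hδq : δ ≤ Real.sqrt δ := by
    have e : Real.sqrt δ ^ 2 = δ := Real.sq_sqrt hδ.le
    have h3 : Real.sqrt δ ≤ 1 := Real.sqrt_le_one.mpr (by linarith)
    nlinarith
  have hCd : 0 ≤ C / δ := by positivity
  have hCq : 0 ≤ C * (1 + 1 / Real.sqrt δ) := by positivity
  have hs2 : |s - 1 / 2| ≤ 1 / 2 := by rw [abs_le]; constructor <;> linarith
  have ht2 : |t - 1 / 2| ≤ 1 / 2 := by rw [abs_le]; constructor <;> linarith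
  obtain ⟨j, hj⟩ := near hs hs1 ht ht1
  have hfar : Real.sqrt δ < |s - t - (((j : ℕ) : ℤ) - 1 : ℤ)| →
      |D s t| ≤ C * (1 + 1 / Real.sqrt δ) := by
    intro h
    refine le_trans (h2 s t _ ?_ hj) ?_
    · intro e
      have e2 : s - t - (((j : ℕ) : ℤ) - 1 : ℤ) = 0 := by linarith
      rw [e2, abs_zero] at h
      linarith
    · refine mul_le_mul_of_nonneg_left ?_ hC
      have := one_div_le_one_div_of_le hq h.le
      linarith
  by_cases c1 : Real.sin (2 * Real.pi * s) ^ 2 ≤ 2 * δ ^ 2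
  · obtain ⟨i, hi⟩ := thin hs hs1 hδ c1
    by_cases c3 : |s - t - (((j : ℕ) : ℤ) - 1 : ℤ)| ≤ Real.sqrt δ
    · refine le_trans (h1 s t) (le_trans ?_ (A_le hC hδ (s, t) i j))
      have hb : |t - ((i : ℝ) / 2 - (((j : ℕ) : ℤ) - 1 : ℤ))| ≤ 2 * Real.sqrt δ := by
        rw [abs_le] at hi c3 ⊢
        constructor <;> linarith [hi.1, hi.2, c3.1, c3.2]
      rw [bx_one hi hb]
      have := bx_nonneg ((i : ℝ) / 2 + (((j : ℕ) : ℤ) - 1 : ℤ)) (2 * Real.sqrt δ) ((i : ℝ) / 2) δ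
        (s, t)
      nlinarith
    · refine le_trans (hfar (not_le.mp c3)) (le_trans ?_ (B_le hC hδ (s, t) i))
      rw [bx_one hi ht2]
      have := bx_nonneg (1 / 2) (1 / 2) ((i : ℝ) / 2) δ (s, t)
      nlinarith
  · by_cases c2 : Real.sin (2 * Real.pi * t) ^ 2 ≤ 2 * δ ^ 2
    · obtain ⟨i, hi⟩ := thin ht ht1 hδ c2
      by_cases c3 : |s - t - (((j : ℕ) : ℤ) - 1 : ℤ)| ≤ Real.sqrt δ
      · refine le_trans (h1 s t) (le_trans ?_ (A_le hC hδ (s, t) i j))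
        have hb : |s - ((i : ℝ) / 2 + (((j : ℕ) : ℤ) - 1 : ℤ))| ≤ 2 * Real.sqrt δ := by
          rw [abs_le] at hi c3 ⊢
          constructor <;> linarith [hi.1, hi.2, c3.1, c3.2]
        rw [bx_one hb hi]
        have := bx_nonneg ((i : ℝ) / 2) δ ((i : ℝ) / 2 - (((j : ℕ) : ℤ) - 1 : ℤ))
          (2 * Real.sqrt δ) (s, t)
        nlinarith
      · refine le_trans (hfar (not_le.mp c3)) (le_trans ?_ (B_le hC hδ (s, t) i))
        rw [bx_one hs2 hi]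
        have := bx_nonneg ((i : ℝ) / 2) δ (1 / 2) (1 / 2) (s, t)
        nlinarith
    · rw [h0 s t (not_le.mp c1) (not_le.mp c2), abs_zero]
      exact GG_nonneg hC hδ _

end Dom

end DI_aux

open DI_aux

theorem tDI : S_DI := by
  intro C hC
  refine ⟨168 * C, by positivity, fun δ D hδ hδ1 hint h0 h1 h2 => ?_⟩
  have hq : 0 < Real.sqrt δ := Real.sqrt_pos.mpr hδ
  have hsq : Real.sqrt δ ^ 2 = δ := Real.sq_sqrt hδ.le
  have hq1 : Real.sqrt δ ≤ 1 := Real.sqrt_le_one.mpr (by linarith)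
  have hle : |∫ z in Ioo (0 : ℝ) 1 ×ˢ Ioo (0 : ℝ) 1, D z.1 z.2| ≤
      ∫ z in Ioo (0 : ℝ) 1 ×ˢ Ioo (0 : ℝ) 1, GG C δ z := by
    rw [← Real.norm_eq_abs]
    refine norm_integral_le_of_norm_le (GG_integrable C δ).integrableOn ?_
    refine (ae_restrict_iff' (measurableSet_Ioo.prod measurableSet_Ioo)).mpr
      (Eventually.of_forall (fun z hz => ?_))
    exact dom hC hδ hδ1 D h0 h1 h2 hz.1.1 hz.1.2 hz.2.1 hz.2.2
  refine le_trans hle (le_trans (setIntegral_le_integral (GG_integrable C δ)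
    (Eventually.of_forall (fun z => GG_nonneg hC hδ z))) ?_)
  rw [GG_integral C δ hδ]
  simp only [Finset.sum_const, Finset.card_univ, Fintype.card_fin, nsmul_eq_mul, Nat.cast_ofNat]
  have e1 : C / δ * (16 * δ * Real.sqrt δ) = 16 * C * Real.sqrt δ := by
    field_simp
  have e2 : C * (1 + 1 / Real.sqrt δ) * (4 * δ) ≤ 8 * C * Real.sqrt δ := by
    have e3 : C * (1 + 1 / Real.sqrt δ) * (4 * δ) = C * (4 * (Real.sqrt δ ^ 2 + Real.sqrt δ)) := by
      have e4 : C * (1 + 1 / Real.sqrt δ) * (4 * Real.sqrt δ ^ 2) =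
          C * (4 * (Real.sqrt δ ^ 2 + Real.sqrt δ)) := by
        field_simp
      rw [hsq] at e4 ⊢
      exact e4
    rw [e3]
    have e5 : Real.sqrt δ ^ 2 ≤ Real.sqrt δ := by nlinarith
    have e6 : C * (4 * (Real.sqrt δ ^ 2 + Real.sqrt δ)) ≤ C * (4 * (Real.sqrt δ + Real.sqrt δ)) :=
      mul_le_mul_of_nonneg_left (by linarith) hC
    linarith
  rw [e1]
  have h3 : 0 ≤ C * Real.sqrt δ := by positivity
  linarith

end MP_e78765_gt
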