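import Pool.Agent.Lib.MP_e78765_gt.Spec5

/-!
# First variation of the push (MP_e78765_gt, THEOREM R4, module DL)
-/

open scoped ContDiff Topology
open MeasureTheory Set Filter

namespace MP_e78765_gt

namespace DL_aux

/-- `1 - e^(-y)` is concave. -/
lemma conc (a k : ℝ) (ha : 0 ≤ a) (ha1 : a ≤ 1) :
    a * (1 - Real.exp (-(2 * k))) ≤ 1 - Real.exp (-(2 * (a * k))) := by
  have h := convexOn_exp.2 (mem_univ (0 : ℝ)) (mem_univ (-(2 * k))) (by linarith : (0 : ℝ) ≤ 1 - a)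
    ha (by ring)
  simp only [smul_eq_mul, Real.exp_zero, mul_zero, mul_one, zero_add] at h
  have e : a * -(2 * k) = -(2 * (a * k)) := by ring
  rw [e] at h
  linarith

/-- Bounded weight times an integrable function. -/
lemma wint (F : ℂ × ℂ → ℝ) (hF : Integrable F) (a : ℝ) (ha : 0 ≤ a) :
    Integrable (fun ζ : ℂ × ℂ => (1 - Real.exp (-(2 * (a * (‖ζ.1‖ ^ 2 + ‖ζ.2‖ ^ 2))))) * F ζ) := by
  refine hF.bdd_mul (c := 1) (Continuous.aestronglyMeasurable (by fun_prop)) ?_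
  refine Eventually.of_forall (fun ζ => ?_)
  have h0 : 0 ≤ a * (‖ζ.1‖ ^ 2 + ‖ζ.2‖ ^ 2) := by positivity
  have h1 : Real.exp (-(2 * (a * (‖ζ.1‖ ^ 2 + ‖ζ.2‖ ^ 2)))) ≤ 1 :=
    Real.exp_le_one_iff.mpr (by linarith)
  have h2 := Real.exp_pos (-(2 * (a * (‖ζ.1‖ ^ 2 + ‖ζ.2‖ ^ 2))))
  rw [Real.norm_eq_abs, abs_le]
  constructor <;> linarith

lemma strA {g ℓ : ℝ → E3} {t0 t1 ε c a : ℝ} (h : Str g ℓ t0 t1 ε c 1) (ha : 0 ≤ a) (ha1 : a ≤ 1) :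
    Str g ℓ t0 t1 ε c a where
  kn := h.kn
  ax := h.ax
  t0_pos := h.t0_pos
  t01 := h.t01
  t1_le := h.t1_le
  near0 := h.near0
  near2 := h.near2
  c_pos := h.c_pos
  c_le := h.c_le
  cone := h.cone
  ok := by
    refine ⟨h.ok.1, ha, fun x => le_trans ?_ (h.ok.2.2 x)⟩
    have h1 : 0 ≤ ε * |deriv St x| := mul_nonneg h.ok.1.le (abs_nonneg _)
    nlinarith
  inner := h.inner
  outer := h.outer

end DL_aux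

open DL_aux

theorem tDL : S_FV → S_PF → S_Key → S_DL := by
  intro hFV hPF hKey g ℓ t0 t1 ε c hS
  obtain ⟨h0, a0, ha0, hJS, hder⟩ := hPF g ℓ t0 t1 ε c hS
  have hkn : IsKnot ((fun a => ra ε c a g) 0) := by
    simp only [h0]
    exact hS.kn.toIsKnot
  have hD := hFV (fun a => ra ε c a g) a0 (Xf ε c g) ha0 hJS hkn hder
  simp only [h0] at hD
  -- the slope
  have hslope := hasDerivAt_iff_tendsto_slope_zero.mp hD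
  have hright : Tendsto (fun t : ℝ => t⁻¹ • (energy (ra ε c (0 + t) g) - energy (ra ε c 0 g)))
      (𝓝[>] 0) (𝓝 (LL g (Xf ε c g))) :=
    hslope.mono_left (nhdsWithin_mono _ (fun x hx => ne_of_gt hx))
  refine le_of_tendsto hright ?_
  have hmem : ∀ᶠ t : ℝ in 𝓝[>] 0, 0 < t ∧ t ≤ 1 := by
    have h1 : Ioc (0 : ℝ) 1 ∈ 𝓝[>] (0 : ℝ) := Ioc_mem_nhdsGT one_pos
    filter_upwards [h1] with t ht
    exact ht
  filter_upwards [hmem] with a ha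
  obtain ⟨hap, ha1⟩ := ha
  obtain ⟨hint, hE⟩ := hKey g ℓ t0 t1 ε c a (strA hS hap.le ha1)
  rw [zero_add, h0, hE, smul_eq_mul]
  have hmono : a * ∫ ζ : ℂ × ℂ,
      (1 - Real.exp (-(2 * (‖ζ.1‖ ^ 2 + ‖ζ.2‖ ^ 2)))) * ‖Dw g ℓ ζ‖ ^ 2 ≤
      ∫ ζ : ℂ × ℂ, (1 - Real.exp (-(2 * (a * (‖ζ.1‖ ^ 2 + ‖ζ.2‖ ^ 2))))) * ‖Dw g ℓ ζ‖ ^ 2 := by
    rw [← integral_const_mul]
    refine integral_mono ?_ (wint _ hint a hap.le) (fun ζ => ?_)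
    · have h1 := (wint _ hint 1 zero_le_one).const_mul a
      simpa only [one_mul] using h1
    · show a * ((1 - Real.exp (-(2 * (‖ζ.1‖ ^ 2 + ‖ζ.2‖ ^ 2)))) * ‖Dw g ℓ ζ‖ ^ 2) ≤
        (1 - Real.exp (-(2 * (a * (‖ζ.1‖ ^ 2 + ‖ζ.2‖ ^ 2))))) * ‖Dw g ℓ ζ‖ ^ 2
      rw [← mul_assoc]
      exact mul_le_mul_of_nonneg_right (conc a _ hap.le ha1) (by positivity)
  have hpi : 0 ≤ (Real.pi ^ 2)⁻¹ := by positivity
  have h2 := mul_le_mul_of_nonneg_left hmono hpi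
  have h3 : a⁻¹ * (energy g - 2 * ((Real.pi ^ 2)⁻¹ * ∫ ζ : ℂ × ℂ,
      (1 - Real.exp (-(2 * (a * (‖ζ.1‖ ^ 2 + ‖ζ.2‖ ^ 2))))) * ‖Dw g ℓ ζ‖ ^ 2) - energy g) =
      -(a⁻¹ * (2 * ((Real.pi ^ 2)⁻¹ * ∫ ζ : ℂ × ℂ,
      (1 - Real.exp (-(2 * (a * (‖ζ.1‖ ^ 2 + ‖ζ.2‖ ^ 2))))) * ‖Dw g ℓ ζ‖ ^ 2))) := by ring
  rw [h3, neg_le_neg_iff]
  have h4 : 2 * ((Real.pi ^ 2)⁻¹ * ∫ ζ : ℂ × ℂ,
      (1 - Real.exp (-(2 * (‖ζ.1‖ ^ 2 + ‖ζ.2‖ ^ 2)))) * ‖Dw g ℓ ζ‖ ^ 2) =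
      a⁻¹ * (2 * ((Real.pi ^ 2)⁻¹ * (a * ∫ ζ : ℂ × ℂ,
      (1 - Real.exp (-(2 * (‖ζ.1‖ ^ 2 + ‖ζ.2‖ ^ 2)))) * ‖Dw g ℓ ζ‖ ^ 2))) := by
    field_simp
  rw [h4]
  exact mul_le_mul_of_nonneg_left (by linarith) (inv_nonneg.mpr hap.le)

end MP_e78765_gt
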