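import Pool.Agent.Lib.MP_e78765_gt.Spec5

/-!
# Module DQ: uniform bound for `dQ` along smooth fields
-/

set_option autoImplicit false

open scoped ContDiff Topology
open MeasureTheory Set Filter

namespace MP_e78765_gt

namespace DQ_aux

theorem per_deriv {f : ℝ → E3} (hf : ∀ t, f (t + 1) = f t) (t : ℝ) : deriv f (t + 1) = deriv f t := by
  have h1 : (fun x => f (x + 1)) = f := funext hf
  have h2 := deriv_comp_add_const f 1 t
  rw [h1] at h2
  exact h2.symm

theorem dqf_diag (x a b ξ α η β : E3) : dqf x a x b ξ α η β = 0 := by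
  unfold dqf
  simp

theorem quot {x y a : E3} {h K : ℝ} (hh : h ≠ 0) (hb : ‖x - y - h • a‖ ≤ K * h ^ 2) :
    ‖a - h⁻¹ • (x - y)‖ ≤ K * |h| := by
  have h1 : a - h⁻¹ • (x - y) = -(h⁻¹ • (x - y - h • a)) := by
    rw [smul_sub h⁻¹ (x - y), smul_smul, inv_mul_cancel₀ hh, one_smul, neg_sub]
  rw [h1, norm_neg, norm_smul, norm_inv, Real.norm_eq_abs]
  have hp : 0 < |h| := abs_pos.mpr hh
  rw [inv_mul_le_iff₀ hp]
  calc ‖x - y - h • a‖ ≤ K * h ^ 2 := hb
    _ = |h| * (K * |h|) := by rw [← sq_abs h]; ring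

end DQ_aux

open DQ_aux in
theorem tDQ : S_DqB → S_DQ := by
  intro hB m M K hm hM hK
  obtain ⟨C, hC, hC'⟩ := hB m M hm hM
  refine ⟨C * (K ^ 2 * (M + 1)), by positivity, ?_⟩
  intro f φ hf hφ hd hlow hup hTf hTφ s t
  -- reduction to `|s - t| ≤ 1 / 2`
  have key : ∀ s t : ℝ, |s - t| ≤ 1 / 2 → |dQ f φ s t| ≤ C * (K ^ 2 * (M + 1)) := by
    intro s t hst
    rcases eq_or_ne s t with h | h
    · subst h
      unfold dQ
      rw [dqf_diag, abs_zero]
      positivity
    · have hh : s - t ≠ 0 := sub_ne_zero.mpr h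
      have hp : 0 < |s - t| := abs_pos.mpr hh
      have e := hC' (f s) (deriv f s) (f t) (deriv f t) (φ s) (deriv φ s) (φ t) (deriv φ t) (s - t)
        (K * |s - t|) M (K * |s - t|) hh (hd s).1 (hd s).2.1 (hd t).1 (hd t).2.1 (hlow s t hst)
        (hup s t).1 (quot hh (hTf s t).1) (quot hh (hTf s t).2)
        (by
          rw [norm_smul, norm_inv, Real.norm_eq_abs, inv_mul_le_iff₀ hp, mul_comm]
          exact (hup s t).2)
        (hd s).2.2 (hd t).2.2 (quot hh (hTφ s t).1) (quot hh (hTφ s t).2)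
      refine e.trans (le_of_eq ?_)
      have h2 : (s - t) ^ 2 ≠ 0 := pow_ne_zero 2 hh
      rw [div_eq_iff h2, ← sq_abs (s - t)]
      ring
  have hdf := per_deriv hf
  have hdφ := per_deriv hφ
  have p1 : Function.Periodic f 1 := hf
  have p2 : Function.Periodic φ 1 := hφ
  have p3 : Function.Periodic (deriv f) 1 := hdf
  have p4 : Function.Periodic (deriv φ) 1 := hdφ
  have e1 : dQ f φ s t = dQ f φ (s - (round (s - t) : ℤ) * 1) t := by
    unfold dQ
    rw [p1.sub_int_mul_eq, p2.sub_int_mul_eq, p3.sub_int_mul_eq, p4.sub_int_mul_eq]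
  rw [e1]
  apply key
  have := abs_sub_round (s - t)
  rw [mul_one, show s - (round (s - t) : ℝ) - t = s - t - round (s - t) by ring]
  exact this

end MP_e78765_gt
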