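import Pool.Agent.Lib.MP_e78765_gt.Spec

/-!
# `S_DS`: the energy is `4` plus the integral of `Q`
-/

set_option autoImplicit false

open scoped ContDiff Topology
open MeasureTheory Set Filter

namespace MP_e78765_gt

theorem tDS : S_DSu → S_QB → S_DS := by
  intro hDSu hQB r hr
  obtain ⟨-, -, hint⟩ := hQB r hr
  have hcont : Continuous (fun t => ‖deriv r t‖) := (hr.smooth.continuous_deriv (by norm_num)).norm
  have hL : 0 < len r 0 1 := by
    unfold len
    exact intervalIntegral.intervalIntegral_pos_of_pos_on (hcont.intervalIntegrable 0 1)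
      (fun t _ => norm_pos_iff.2 (hr.regular t)) one_pos
  have h01 : (0 : ℝ) ≤ 1 := zero_le_one
  have hint' : Integrable (fun z : ℝ × ℝ => Q r z.1 z.2)
      ((volume.restrict (Ioo (0 : ℝ) 1)).prod (volume.restrict (Ioo (0 : ℝ) 1))) := by
    rw [Measure.prod_restrict, ← Measure.volume_eq_prod]
    exact hint
  have hI1 : IntegrableOn (fun u => ∫ v in Ioo (0 : ℝ) 1, Q r u v) (Ioo (0 : ℝ) 1) :=
    hint'.integral_prod_left
  have hI2 : IntegrableOn (fun u => 4 * ‖deriv r u‖ / len r 0 1) (Ioo (0 : ℝ) 1) := by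
    have h1 : Continuous (fun u => 4 * ‖deriv r u‖ / len r 0 1) := (continuous_const.mul hcont).div_const _
    exact (h1.integrableOn_Icc (a := 0) (b := 1)).mono_set Ioo_subset_Icc_self
  have hE : energy r = ∫ u in Ioo (0 : ℝ) 1, ((∫ v in Ioo (0 : ℝ) 1, Q r u v) + 4 * ‖deriv r u‖ / len r 0 1) := by
    unfold energy
    rw [intervalIntegral.integral_of_le h01, integral_Ioc_eq_integral_Ioo]
    refine setIntegral_congr_fun measurableSet_Ioo fun u hu => ?_
    show (∫ v in (0 : ℝ)..1, (1 / ‖r u - r v‖ ^ 2 - 1 / arcDist r u v ^ 2) * ‖deriv r u‖ * ‖deriv r v‖) = _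
    rw [hDSu r hr u hu, intervalIntegral.integral_of_le h01, integral_Ioc_eq_integral_Ioo]
  have hL2 : ∫ u in Ioo (0 : ℝ) 1, 4 * ‖deriv r u‖ / len r 0 1 = 4 := by
    have h1 : ∀ u, 4 * ‖deriv r u‖ / len r 0 1 = 4 / len r 0 1 * ‖deriv r u‖ := fun u => by ring
    simp only [h1]
    rw [integral_const_mul, ← integral_Ioc_eq_integral_Ioo, ← intervalIntegral.integral_of_le h01]
    show 4 / len r 0 1 * len r 0 1 = 4
    exact div_mul_cancel₀ _ hL.ne'
  rw [hE, integral_add hI1 hI2, hL2, Measure.volume_eq_prod, setIntegral_prod _ hint, add_comm]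

end MP_e78765_gt
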