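import Pool.Agent.Lib.MP_e78765_gt.Spec

/-!
# MP_e78765_gt, module DSu: the inner integral of the formula of Doyle and Schramm
-/

set_option autoImplicit false

open scoped ContDiff Topology
open MeasureTheory Set Filter

namespace MP_e78765_gt

namespace DSu_aux

lemma ii_congr {f g : ℝ → ℝ} {a b : ℝ} (hab : a ≤ b) (h : ∀ x ∈ Ioo a b, f x = g x) :
    ∫ x in a..b, f x = ∫ x in a..b, g x := by
  rw [intervalIntegral.integral_of_le hab, intervalIntegral.integral_of_le hab,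
    integral_Ioc_eq_integral_Ioo, integral_Ioc_eq_integral_Ioo]
  exact setIntegral_congr_fun measurableSet_Ioo h

lemma ii_bdd {f : ℝ → ℝ} {a b C : ℝ} (hab : a ≤ b) (hc : ContinuousOn f (Ioo a b))
    (hb : ∀ x ∈ Ioo a b, |f x| ≤ C) : IntervalIntegrable f volume a b := by
  rw [intervalIntegrable_iff_integrableOn_Ioo_of_le hab]
  refine ⟨hc.aestronglyMeasurable measurableSet_Ioo, ?_⟩
  refine HasFiniteIntegral.restrict_of_bounded (C := C) measure_Ioo_lt_top ?_
  refine (ae_restrict_iff' measurableSet_Ioo).2 (Eventually.of_forall fun x hx => ?_)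
  rw [Real.norm_eq_abs]
  exact hb x hx

/-- the algebraic estimate -/
lemma alg (x a b : E3) :
    |(‖a‖ * ‖b‖ + inner ℝ a b) * ‖x‖ ^ 2 - 2 * inner ℝ x a * inner ℝ x b| ≤
      2 * ‖x‖ ^ 2 * (‖a - x‖ ^ 2 + ‖b - x‖ ^ 2) := by
  obtain ⟨p, hp⟩ : ∃ p : E3, p = a - x := ⟨_, rfl⟩
  obtain ⟨q, hq⟩ : ∃ q : E3, q = b - x := ⟨_, rfl⟩
  have ha : a = x + p := by rw [hp]; abel
  have hb : b = x + q := by rw [hq]; abel
  rw [← hp, ← hq]
  have h1 : inner ℝ x a = ‖x‖ ^ 2 + inner ℝ x p := by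
    rw [ha, inner_add_right, real_inner_self_eq_norm_sq]
  have h2 : inner ℝ x b = ‖x‖ ^ 2 + inner ℝ x q := by
    rw [hb, inner_add_right, real_inner_self_eq_norm_sq]
  have h3 : inner ℝ a b = ‖x‖ ^ 2 + inner ℝ x p + inner ℝ x q + inner ℝ p q := by
    rw [ha, hb, inner_add_left, inner_add_right, inner_add_right, real_inner_self_eq_norm_sq,
      real_inner_comm x p]
    ring
  have h4 : ‖a‖ ^ 2 = ‖x‖ ^ 2 + 2 * inner ℝ x p + ‖p‖ ^ 2 := by rw [ha, norm_add_sq_real]
  have h5 : ‖b‖ ^ 2 = ‖x‖ ^ 2 + 2 * inner ℝ x q + ‖q‖ ^ 2 := by rw [hb, norm_add_sq_real]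
  have h6 := abs_real_inner_le_norm x p
  have h7 := abs_real_inner_le_norm x q
  have h8 := abs_le.1 (abs_real_inner_le_norm p q)
  have h9 : |inner ℝ x p * inner ℝ x q| ≤ ‖x‖ ^ 2 * (‖p‖ * ‖q‖) := by
    rw [abs_mul]
    calc |inner ℝ x p| * |inner ℝ x q| ≤ (‖x‖ * ‖p‖) * (‖x‖ * ‖q‖) :=
          mul_le_mul h6 h7 (abs_nonneg _) (by positivity)
      _ = ‖x‖ ^ 2 * (‖p‖ * ‖q‖) := by ring
  have h9' := abs_le.1 h9
  have h10 : ‖a‖ * ‖b‖ ≤ (‖a‖ ^ 2 + ‖b‖ ^ 2) / 2 := by nlinarith [sq_nonneg (‖a‖ - ‖b‖)]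
  have h11 := real_inner_le_norm a b
  have h12 : ‖p‖ * ‖q‖ ≤ (‖p‖ ^ 2 + ‖q‖ ^ 2) / 2 := by nlinarith [sq_nonneg (‖p‖ - ‖q‖)]
  have hX : 0 ≤ ‖x‖ ^ 2 := by positivity
  have k1 := mul_le_mul_of_nonneg_left h10 hX
  have k2 := mul_le_mul_of_nonneg_left h11 hX
  have k3 := mul_le_mul_of_nonneg_left h12 hX
  have k4 := mul_le_mul_of_nonneg_left h8.1 hX
  have k5 := mul_le_mul_of_nonneg_left h8.2 hX
  rw [h4, h5] at k1
  rw [h3] at k2
  rw [h1, h2, h3]
  generalize inner ℝ x p = α at *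
  generalize inner ℝ x q = β at *
  generalize inner ℝ p q = γ at *
  rw [abs_le]
  constructor
  · linarith
  · linarith

lemma qbound {r : ℝ → E3} {K c : ℝ} (hc : 0 < c) {s t : ℝ} (hst : s ≠ t)
    (h1 : ‖deriv r s - deriv r t‖ ≤ K * |s - t|)
    (h2 : ‖r s - r t - (s - t) • deriv r t‖ ≤ K * (s - t) ^ 2)
    (h3 : c * |s - t| ≤ ‖r s - r t‖) : |Q r s t| ≤ 10 * K ^ 2 / c ^ 2 := by
  have hδ : s - t ≠ 0 := sub_ne_zero.2 hst
  obtain ⟨δ, hδe⟩ : ∃ δ : ℝ, δ = s - t := ⟨_, rfl⟩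
  rw [← hδe] at h1 h2 h3 hδ
  obtain ⟨x, hxe⟩ : ∃ x : E3, x = δ⁻¹ • (r s - r t) := ⟨_, rfl⟩
  have hx : r s - r t = δ • x := by rw [hxe, smul_smul, mul_inv_cancel₀ hδ, one_smul]
  have hδ2 : 0 < |δ| := abs_pos.2 hδ
  have hP : ‖deriv r t - x‖ ≤ K * |δ| := by
    have e : r s - r t - δ • deriv r t = -(δ • (deriv r t - x)) := by
      rw [hx, smul_sub]
      abel
    rw [e, norm_neg, norm_smul, Real.norm_eq_abs] at h2
    have h4 : |δ| * ‖deriv r t - x‖ ≤ |δ| * (K * |δ|) := by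
      have e2 : |δ| * (K * |δ|) = K * δ ^ 2 := by
        rw [← sq_abs δ]
        ring
      rw [e2]
      exact h2
    exact le_of_mul_le_mul_left h4 hδ2
  have hR : ‖deriv r s - x‖ ≤ 2 * K * |δ| := by
    have e : deriv r s - x = (deriv r s - deriv r t) + (deriv r t - x) := by abel
    rw [e]
    exact (norm_add_le _ _).trans (by linarith)
  have hX : c ≤ ‖x‖ := by
    rw [hx, norm_smul, Real.norm_eq_abs, mul_comm c] at h3
    exact le_of_mul_le_mul_left h3 hδ2
  have hX0 : 0 < ‖x‖ := lt_of_lt_of_le hc hX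
  have hQ : Q r s t = ((‖deriv r s‖ * ‖deriv r t‖ + inner ℝ (deriv r s) (deriv r t)) * ‖x‖ ^ 2 -
      2 * inner ℝ x (deriv r s) * inner ℝ x (deriv r t)) / (δ ^ 2 * ‖x‖ ^ 4) := by
    unfold Q qf
    rw [hx, real_inner_smul_left, real_inner_smul_left, norm_smul, mul_pow, Real.norm_eq_abs, sq_abs]
    field_simp
  rw [hQ, abs_div, abs_of_pos (a := δ ^ 2 * ‖x‖ ^ 4) (by positivity)]
  have h4 := alg x (deriv r s) (deriv r t)
  have h5 : ‖deriv r s - x‖ ^ 2 ≤ 4 * K ^ 2 * δ ^ 2 := by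
    have h6 := pow_le_pow_left₀ (norm_nonneg _) hR 2
    have e : (2 * K * |δ|) ^ 2 = 4 * K ^ 2 * δ ^ 2 := by
      rw [mul_pow, mul_pow, sq_abs]
      ring
    rwa [e] at h6
  have h6 : ‖deriv r t - x‖ ^ 2 ≤ K ^ 2 * δ ^ 2 := by
    have h7 := pow_le_pow_left₀ (norm_nonneg _) hP 2
    rwa [mul_pow, sq_abs] at h7
  have h7 : 2 * ‖x‖ ^ 2 * (‖deriv r s - x‖ ^ 2 + ‖deriv r t - x‖ ^ 2) ≤ 10 * K ^ 2 * δ ^ 2 * ‖x‖ ^ 2 := by
    have h8 := mul_le_mul_of_nonneg_left (add_le_add h5 h6) (a := 2 * ‖x‖ ^ 2) (by positivity)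
    linarith
  have hδ3 : 0 < δ ^ 2 := by positivity
  calc |(‖deriv r s‖ * ‖deriv r t‖ + inner ℝ (deriv r s) (deriv r t)) * ‖x‖ ^ 2 -
      2 * inner ℝ x (deriv r s) * inner ℝ x (deriv r t)| / (δ ^ 2 * ‖x‖ ^ 4)
      ≤ (10 * K ^ 2 * δ ^ 2 * ‖x‖ ^ 2) / (δ ^ 2 * ‖x‖ ^ 4) :=
        div_le_div_of_nonneg_right (h4.trans h7) (by positivity)
    _ = 10 * K ^ 2 / ‖x‖ ^ 2 := by field_simp
    _ ≤ 10 * K ^ 2 / c ^ 2 := by gcongr

end DSu_aux

open DSu_aux

theorem tDSu : S_Loc → S_Bd → S_DSu := by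
  intro hLoc hBd r hr u hu
  obtain ⟨hu0, hu1⟩ := hu
  obtain ⟨⟨m, M, K, hm, hM, hK, hb1, hb2, hb3, hb4, hb5⟩, hch⟩ := hBd r hr
  have hcr : Continuous r := hr.smooth.continuous
  have hcd : Continuous (deriv r) := hr.smooth.continuous_deriv (by simp)
  have hdiff : ∀ t, HasDerivAt r (deriv r t) t := fun t =>
    ((hr.smooth.differentiable (by simp)) t).hasDerivAt
  have hper : ∀ t, r (t + 1) = r t := hr.periodic
  have hperd : ∀ t, deriv r (t + 1) = deriv r t := by
    intro t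
    have e : (fun x => r (x + 1)) = r := funext hper
    rw [← deriv_comp_add_const, e]
  have hσc : Continuous (fun t => ‖deriv r t‖) := hcd.norm
  have hadd : ∀ x y z, len r x y + len r y z = len r x z := fun x y z =>
    intervalIntegral.integral_add_adjacent_intervals (hσc.intervalIntegrable _ _)
      (hσc.intervalIntegrable _ _)
  have hpos : ∀ x y, x < y → 0 < len r x y := fun x y h =>
    intervalIntegral.intervalIntegral_pos_of_pos (hσc.intervalIntegrable _ _)
      (fun t => norm_pos_iff.2 (hr.regular t)) h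
  have hshift : ∀ x, len r x (x + 1) = len r 0 1 := by
    intro x
    have hp : Function.Periodic (fun t => ‖deriv r t‖) 1 := fun t => by
      show ‖deriv r (t + 1)‖ = ‖deriv r t‖
      rw [hperd]
    have h := hp.intervalIntegral_add_eq x 0
    rw [zero_add] at h
    exact h
  obtain ⟨L, hL⟩ : ∃ L, L = len r 0 1 := ⟨_, rfl⟩
  have hL0 : 0 < L := by rw [hL]; exact hpos 0 1 one_pos
  have hder : ∀ v, HasDerivAt (fun v => len r u v) ‖deriv r v‖ v := fun v =>
    (hσc.integral_hasStrictDerivAt u v).hasDerivAt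
  have hlc : Continuous (fun v => len r u v) :=
    continuous_iff_continuousAt.2 fun v => (hder v).continuousAt
  have hlen1 : ∀ v, L - len r u v = len r v (u + 1) := by
    intro v
    rw [hL, ← hshift u, ← hadd u v (u + 1)]
    ring
  -- points of the curve are different
  have hne : ∀ v ∈ Ioo u (u + 1), r u ≠ r v := by
    intro v hv h
    obtain ⟨k, hk⟩ := hr.inj u v h
    have h1 : (0 : ℝ) < k := by linarith [hv.1]
    have h2 : (k : ℝ) < 1 := by linarith [hv.2]
    have h3 : (0 : ℤ) < k := by exact_mod_cast h1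
    have h4 : k < (1 : ℤ) := by exact_mod_cast h2
    omega
  have hN0 : ∀ v ∈ Ioo u (u + 1), 0 < ‖r u - r v‖ ^ 2 := fun v hv => by
    have h1 : 0 < ‖r u - r v‖ := norm_pos_iff.2 (sub_ne_zero.2 (hne v hv))
    positivity
  have hl0 : ∀ v ∈ Ioo u (u + 1), 0 < len r u v := fun v hv => hpos u v hv.1
  have hl1 : ∀ v ∈ Ioo u (u + 1), 0 < L - len r u v := fun v hv => by
    rw [hlen1]
    exact hpos v (u + 1) hv.2
  -- the midpoint
  obtain ⟨a, ha, haL⟩ : ∃ a ∈ Ioo u (u + 1), len r u a = L / 2 := by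
    have h1 : L / 2 ∈ Ioo (len r u u) (len r u (u + 1)) := by
      have e : len r u u = 0 := intervalIntegral.integral_same
      rw [e, hshift, ← hL]
      constructor <;> linarith
    exact intermediate_value_Ioo (by linarith) hlc.continuousOn h1
  obtain ⟨b, hbd⟩ : ∃ b, b = max (a - u) (u + 1 - a) := ⟨_, rfl⟩
  have hb1' : b < 1 := by
    rw [hbd]
    exact max_lt (by linarith [ha.2]) (by linarith [ha.1])
  have hba : a - u ≤ b := by rw [hbd]; exact le_max_left _ _
  have hbb : u + 1 - a ≤ b := by rw [hbd]; exact le_max_right _ _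
  obtain ⟨C, hC⟩ := hLoc r hr b hb1'
  obtain ⟨c, hc, hcc⟩ := hch b hb1'
  -- the integrands
  obtain ⟨D, hD⟩ : ∃ D : ℝ → ℝ, D = fun v => min (len r u v) (L - len r u v) := ⟨_, rfl⟩
  obtain ⟨F, hF⟩ : ∃ F : ℝ → ℝ, F = fun v =>
      (1 / ‖r u - r v‖ ^ 2 - 1 / D v ^ 2) * ‖deriv r u‖ * ‖deriv r v‖ := ⟨_, rfl⟩
  have hDl : ∀ v ≤ a, D v = len r u v := by
    intro v hv
    rw [hD]
    refine min_eq_left ?_
    have h1 := hadd u v a
    have h2 : 0 ≤ len r v a := by
      rcases eq_or_lt_of_le hv with h | h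
      · rw [h]
        exact (intervalIntegral.integral_same).ge
      · exact (hpos v a h).le
    linarith
  have hDr : ∀ v, a ≤ v → D v = L - len r u v := by
    intro v hv
    rw [hD]
    refine min_eq_right ?_
    have h1 := hadd u a v
    have h2 : 0 ≤ len r a v := by
      rcases eq_or_lt_of_le hv with h | h
      · rw [h]
        exact (intervalIntegral.integral_same).ge
      · exact (hpos a v h).le
    linarith
  have hD0 : ∀ v ∈ Ioo u (u + 1), 0 < D v := by
    intro v hv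
    rw [hD]
    exact lt_min (hl0 v hv) (hl1 v hv)
  have hDc : Continuous D := by
    rw [hD]
    exact hlc.min (continuous_const.sub hlc)
  have hNc : Continuous (fun v => ‖r u - r v‖ ^ 2) := ((continuous_const.sub hcr).norm).pow 2
  -- periodicity of `Q`
  have hQp : ∀ v, Q r (u + 1) v = Q r u v := by
    intro v
    unfold Q
    rw [hper, hperd]
  have hQp' : ∀ v, Q r u (v + 1) = Q r u v := by
    intro v
    unfold Q
    rw [hper, hperd]
  -- bounds
  have hFb : ∀ v ∈ Ioo u (u + 1), |F v| ≤ C * M * M := by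
    intro v hv
    have key : |1 / ‖r u - r v‖ ^ 2 - 1 / D v ^ 2| ≤ C := by
      rcases le_total v a with h | h
      · rw [hDl v h]
        exact (hC u v (by linarith [hv.1]) (by linarith)).1
      · rw [hDr v h, hlen1]
        have h1 := (hC v (u + 1) (by linarith [hv.2]) (by linarith)).1
        rw [hper, norm_sub_rev] at h1
        exact h1
    have hC0 : 0 ≤ C := (abs_nonneg _).trans key
    rw [hF]
    show |(1 / ‖r u - r v‖ ^ 2 - 1 / D v ^ 2) * ‖deriv r u‖ * ‖deriv r v‖| ≤ C * M * M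
    rw [abs_mul, abs_mul, abs_of_nonneg (norm_nonneg _), abs_of_nonneg (norm_nonneg _)]
    have h2 := hb2 u
    have h3 := hb2 v
    gcongr
  have hQb : ∀ v ∈ Ioo u (u + 1), |Q r u v| ≤ 10 * K ^ 2 / c ^ 2 := by
    intro v hv
    rcases le_total v a with h | h
    · have h1 : |u - v| ≤ b := by
        rw [abs_sub_comm, abs_of_pos (by linarith [hv.1])]
        linarith
      exact qbound hc (ne_of_lt hv.1) (hb3 u v) (hb4 u v) (hcc u v h1)
    · rw [← hQp v]
      have h1 : |u + 1 - v| ≤ b := by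
        rw [abs_of_pos (by linarith [hv.2])]
        linarith
      exact qbound hc (ne_of_gt hv.2) (hb3 (u + 1) v) (hb4 (u + 1) v) (hcc (u + 1) v h1)
  have hFc : ContinuousOn F (Ioo u (u + 1)) := by
    rw [hF]
    refine ContinuousOn.mul (ContinuousOn.mul (ContinuousOn.sub ?_ ?_) continuousOn_const)
      hσc.continuousOn
    · exact continuousOn_const.div hNc.continuousOn fun v hv => (hN0 v hv).ne'
    · exact continuousOn_const.div (hDc.pow 2).continuousOn fun v hv => (pow_pos (hD0 v hv) 2).ne'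
  have hQc : ContinuousOn (fun v => Q r u v) (Ioo u (u + 1)) := by
    unfold Q qf
    refine ContinuousOn.div (ContinuousOn.sub ?_ (ContinuousOn.div ?_ hNc.continuousOn
      fun v hv => (hN0 v hv).ne')) hNc.continuousOn fun v hv => (hN0 v hv).ne'
    · exact ((continuous_const.mul hσc).add (continuous_const.inner hcd)).continuousOn
    · exact ((continuous_const.mul ((continuous_const.sub hcr).inner continuous_const)).mul
        ((continuous_const.sub hcr).inner hcd)).continuousOn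
  have hFi : IntervalIntegrable F volume u (u + 1) := ii_bdd (by linarith) hFc hFb
  have hQi : IntervalIntegrable (fun v => Q r u v) volume u (u + 1) := ii_bdd (by linarith) hQc hQb
  -- the left side
  have hLHS : (∫ v in (0 : ℝ)..1,
      (1 / ‖r u - r v‖ ^ 2 - 1 / arcDist r u v ^ 2) * ‖deriv r u‖ * ‖deriv r v‖) =
      ∫ v in u..(u + 1), F v := by
    obtain ⟨G, hG⟩ : ∃ G : ℝ → ℝ, G = fun v =>
      (1 / ‖r u - r v‖ ^ 2 - 1 / arcDist r u v ^ 2) * ‖deriv r u‖ * ‖deriv r v‖ := ⟨_, rfl⟩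
    have h1 : (∫ v in (0 : ℝ)..1, G v) = ∫ v in (0 : ℝ)..1, G (Int.fract v) := by
      refine ii_congr zero_le_one fun v hv => ?_
      rw [Int.fract_eq_self.2 ⟨hv.1.le, hv.2⟩]
    have h2 : Function.Periodic (fun v : ℝ => G (Int.fract v)) 1 := fun v => by
      show G (Int.fract (v + 1)) = G (Int.fract v)
      rw [Int.fract_add_one]
    have h3 := h2.intervalIntegral_add_eq 0 u
    rw [zero_add] at h3
    have h4 : (∫ v in u..(u + 1), G (Int.fract v)) = ∫ v in u..(u + 1), F v := by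
      refine ii_congr (by linarith) fun v hv => ?_
      rcases lt_or_ge v 1 with h | h
      · rw [Int.fract_eq_self.2 ⟨by linarith [hv.1], h⟩, hG, hF]
        show (1 / ‖r u - r v‖ ^ 2 - 1 / arcDist r u v ^ 2) * ‖deriv r u‖ * ‖deriv r v‖ =
          (1 / ‖r u - r v‖ ^ 2 - 1 / D v ^ 2) * ‖deriv r u‖ * ‖deriv r v‖
        have e : arcDist r u v = D v := by
          rw [hD, arcDist, abs_of_pos (hl0 v hv), hL]
        rw [e]
      · have e0 : Int.fract v = v - 1 := by
          rw [Int.fract_eq_iff]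
          refine ⟨by linarith, by linarith [hv.2], 1, by push_cast; ring⟩
        rw [e0, hG, hF]
        show (1 / ‖r u - r (v - 1)‖ ^ 2 - 1 / arcDist r u (v - 1) ^ 2) * ‖deriv r u‖ *
          ‖deriv r (v - 1)‖ = (1 / ‖r u - r v‖ ^ 2 - 1 / D v ^ 2) * ‖deriv r u‖ * ‖deriv r v‖
        have e1 : r v = r (v - 1) := by
          rw [← hper (v - 1), sub_add_cancel]
        have e2 : deriv r v = deriv r (v - 1) := by
          rw [← hperd (v - 1), sub_add_cancel]
        have e3 : len r u (v - 1) = -(L - len r u v) := by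
          have h5 := hadd u (v - 1) v
          have h6 := hshift (v - 1)
          rw [sub_add_cancel, ← hL] at h6
          linarith
        have e : arcDist r u (v - 1) = D v := by
          rw [hD, arcDist, e3, abs_neg, abs_of_pos (hl1 v hv), ← hL, sub_sub_cancel, min_comm]
        rw [e, e1, e2]
    rw [← hG] at *
    rw [h1, h3, h4]
  have hRHS : (∫ v in (0 : ℝ)..1, Q r u v) = ∫ v in u..(u + 1), Q r u v := by
    have h2 : Function.Periodic (fun v : ℝ => Q r u v) 1 := hQp'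
    have h3 := h2.intervalIntegral_add_eq 0 u
    rw [zero_add] at h3
    exact h3
  -- the derivatives
  have hg : ∀ v ∈ Ioo u (u + 1), HasDerivAt
      (fun v => inner ℝ (r u - r v) (deriv r u) / ‖r u - r v‖ ^ 2)
      (‖deriv r u‖ * ‖deriv r v‖ / ‖r u - r v‖ ^ 2 - Q r u v) v := by
    intro v hv
    have h1 : HasDerivAt (fun v => r u - r v) (-deriv r v) v := (hdiff v).const_sub (r u)
    have h2 : HasDerivAt (fun v => inner ℝ (r u - r v) (deriv r u))
        (inner ℝ (-deriv r v) (deriv r u)) v := by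
      have h3 := h1.inner ℝ (hasDerivAt_const v (deriv r u))
      rw [inner_zero_right, zero_add] at h3
      exact h3
    have h3 : HasDerivAt (fun v => ‖r u - r v‖ ^ 2) (2 * inner ℝ (r u - r v) (-deriv r v)) v :=
      h1.norm_sq
    have h4 := h2.div h3 (hN0 v hv).ne'
    have h5 : ‖r u - r v‖ ≠ 0 := norm_ne_zero_iff.2 (sub_ne_zero.2 (hne v hv))
    have e : (inner ℝ (-deriv r v) (deriv r u) * ‖r u - r v‖ ^ 2 -
        inner ℝ (r u - r v) (deriv r u) * (2 * inner ℝ (r u - r v) (-deriv r v))) /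
        (‖r u - r v‖ ^ 2) ^ 2 = ‖deriv r u‖ * ‖deriv r v‖ / ‖r u - r v‖ ^ 2 - Q r u v := by
      unfold Q qf
      rw [inner_neg_left, inner_neg_right, real_inner_comm (deriv r u) (deriv r v)]
      field_simp
      ring
    rw [e] at h4
    exact h4
  have hh1 : ∀ v ∈ Ioo u (u + 1), v ≤ a → HasDerivAt
      (fun v => inner ℝ (r u - r v) (deriv r u) / ‖r u - r v‖ ^ 2 + ‖deriv r u‖ / len r u v)
      (F v - Q r u v) v := by
    intro v hv hva
    have h1 := (hg v hv).add ((hasDerivAt_const v ‖deriv r u‖).div (hder v) (hl0 v hv).ne')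
    have h2 := (hl0 v hv).ne'
    have h3 := (hN0 v hv).ne'
    have e : ‖deriv r u‖ * ‖deriv r v‖ / ‖r u - r v‖ ^ 2 - Q r u v +
        (0 * len r u v - ‖deriv r u‖ * ‖deriv r v‖) / len r u v ^ 2 = F v - Q r u v := by
      rw [hF]
      show _ = (1 / ‖r u - r v‖ ^ 2 - 1 / D v ^ 2) * ‖deriv r u‖ * ‖deriv r v‖ - Q r u v
      rw [hDl v hva]
      field_simp
      ring
    rw [e] at h1
    exact h1
  have hh2 : ∀ v ∈ Ioo u (u + 1), a ≤ v → HasDerivAt
      (fun v => inner ℝ (r u - r v) (deriv r u) / ‖r u - r v‖ ^ 2 - ‖deriv r u‖ / (L - len r u v))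
      (F v - Q r u v) v := by
    intro v hv hva
    have h1 := (hg v hv).sub ((hasDerivAt_const v ‖deriv r u‖).div ((hder v).const_sub L)
      (hl1 v hv).ne')
    have h2 := (hl1 v hv).ne'
    have h3 := (hN0 v hv).ne'
    have e : ‖deriv r u‖ * ‖deriv r v‖ / ‖r u - r v‖ ^ 2 - Q r u v -
        (0 * (L - len r u v) - ‖deriv r u‖ * -‖deriv r v‖) / (L - len r u v) ^ 2 =
        F v - Q r u v := by
      rw [hF]
      show _ = (1 / ‖r u - r v‖ ^ 2 - 1 / D v ^ 2) * ‖deriv r u‖ * ‖deriv r v‖ - Q r u v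
      rw [hDr v hva]
      field_simp
      ring
    rw [e] at h1
    exact h1
  have hFQ : IntervalIntegrable (fun v => F v - Q r u v) volume u (u + 1) := hFi.sub hQi
  have hFQ1 : IntervalIntegrable (fun v => F v - Q r u v) volume u a :=
    hFQ.mono_set (by
      rw [uIcc_of_le ha.1.le, uIcc_of_le (by linarith)]
      exact Icc_subset_Icc_right ha.2.le)
  have hFQ2 : IntervalIntegrable (fun v => F v - Q r u v) volume a (u + 1) :=
    hFQ.mono_set (by
      rw [uIcc_of_le ha.2.le, uIcc_of_le (by linarith)]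
      exact Icc_subset_Icc_left ha.1.le)
  -- the two pieces
  have hI1 := intervalIntegral.integral_eq_sub_of_hasDerivAt_of_tendsto ha.1
    (fun v hv => hh1 v ⟨hv.1, hv.2.trans ha.2⟩ hv.2.le) hFQ1 (fa := 0)
    (fb := inner ℝ (r u - r a) (deriv r u) / ‖r u - r a‖ ^ 2 + ‖deriv r u‖ / len r u a) (by
      have h1 : Tendsto (fun v => C * (v - u)) (𝓝[>] u) (𝓝 0) := by
        have h2 : Continuous (fun v => C * (v - u)) := by fun_prop
        have h3 := h2.tendsto u
        rw [sub_self, mul_zero] at h3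
        exact h3.mono_left nhdsWithin_le_nhds
      refine squeeze_zero_norm' ?_ h1
      filter_upwards [Ioo_mem_nhdsGT ha.1] with v hv
      exact (hC u v (by linarith [hv.1]) (by linarith [hv.2])).2.1)
    ((hh1 a ha le_rfl).continuousAt.tendsto.mono_left nhdsWithin_le_nhds)
  have hI2 := intervalIntegral.integral_eq_sub_of_hasDerivAt_of_tendsto ha.2
    (fun v hv => hh2 v ⟨ha.1.trans hv.1, hv.2⟩ hv.1.le) hFQ2
    (fa := inner ℝ (r u - r a) (deriv r u) / ‖r u - r a‖ ^ 2 - ‖deriv r u‖ / (L - len r u a))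
    (fb := 0)
    ((hh2 a ha le_rfl).continuousAt.tendsto.mono_left nhdsWithin_le_nhds) (by
      have h1 : Tendsto (fun v => C * (u + 1 - v)) (𝓝[<] (u + 1)) (𝓝 0) := by
        have h2 : Continuous (fun v => C * (u + 1 - v)) := by fun_prop
        have h3 := h2.tendsto (u + 1)
        rw [sub_self, mul_zero] at h3
        exact h3.mono_left nhdsWithin_le_nhds
      refine squeeze_zero_norm' ?_ h1
      filter_upwards [Ioo_mem_nhdsLT ha.2] with v hv
      have h2 := (hC v (u + 1) (by linarith [hv.2]) (by linarith [hv.1])).2.2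
      rw [hper, hperd, norm_sub_rev (r v), ← hlen1] at h2
      exact h2)
  have hsum := intervalIntegral.integral_add_adjacent_intervals hFQ1 hFQ2
  have hsub := intervalIntegral.integral_sub hFi hQi
  rw [hLHS, hRHS, ← hL]
  rw [hsub, hI1, hI2, haL] at hsum
  have e1 : L - L / 2 = L / 2 := by ring
  have e2 : ‖deriv r u‖ / (L / 2) = 2 * ‖deriv r u‖ / L := by
    field_simp
  rw [e1, e2] at hsum
  have e3 : 4 * ‖deriv r u‖ / L = 2 * (2 * ‖deriv r u‖ / L) := by ring
  rw [e3]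
  linarith

end MP_e78765_gt
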