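import Pool.Agent.Lib.MP_e78765_gt.Spec3

/-!
# MP_e78765_gt, module DW: `Dw` as a difference of two `Wt`
-/

set_option autoImplicit false

open scoped ContDiff Topology
open MeasureTheory Set Filter

namespace MP_e78765_gt

namespace DW_aux

theorem phi_cont (ζ : ℂ × ℂ) : Continuous (phi ζ) := by
  unfold phi
  fun_prop

theorem deriv_cont {f : ℝ → E3} {t : ℝ} (h : ContDiffAt ℝ ∞ f t) : ContinuousAt (deriv f) t := by
  have h1 : ContDiffAt ℝ 0 (fderiv ℝ f) t := h.fderiv_right (by simp)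
  have h2 : deriv f = fun s => fderiv ℝ f s 1 := by
    funext s
    exact (fderiv_apply_one_eq_deriv (f := f) (x := s)).symm
  rw [h2]
  exact h1.continuousAt.clm_apply continuousAt_const

theorem ne_half {r : ℝ → E3} (hq : ∀ t, r t = r (1 / 2) ↔ ∃ n : ℤ, t = 1 / 2 + n) :
    ∀ t ∈ Ioo (0 : ℝ) (1 / 2), r t ≠ r (1 / 2) := by
  intro t ht h
  obtain ⟨n, hn⟩ := (hq t).1 h
  have h1 : (n : ℝ) < 0 := by linarith [ht.2]
  have h2 : (-1 : ℝ) < n := by linarith [ht.1]
  have h3 : n < 0 := by exact_mod_cast h1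
  have h4 : -1 < n := by exact_mod_cast h2
  omega

end DW_aux

open DW_aux in
theorem tDW : S_Ch → S_DW := by
  intro hCh f g t0 t1 hf hg g0 g12 h0 h01 h14 hn0 hn1 ζ
  obtain ⟨-, -, -, -, hq, -, -, -, hF, -⟩ := hCh f hf
  obtain ⟨-, -, -, -, hqg, -, -, -, hG, -⟩ := hCh g hg
  have hph : ph g = ph f := by
    unfold ph
    rw [g0, g12]
  have hrq := ne_half hq
  have hgq := ne_half hqg
  have hsub : ∀ t ∈ Icc t0 (1 / 2 - t0), t ∈ Ioo (0 : ℝ) (1 / 2) :=
    fun t ht => ⟨by linarith [ht.1], by linarith [ht.2]⟩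
  have hle : t0 ≤ 1 / 2 - t0 := by linarith
  have hFc : ContinuousOn (Fc f) (Icc t0 (1 / 2 - t0)) := fun t ht =>
    (hF t (hrq t (hsub t ht))).1.continuousAt.continuousWithinAt
  have hGc : ContinuousOn (Fc g) (Icc t0 (1 / 2 - t0)) := fun t ht =>
    (hG t (hgq t (hsub t ht))).1.continuousAt.continuousWithinAt
  have hFd : ContinuousOn (deriv (Fc f)) (Icc t0 (1 / 2 - t0)) := fun t ht =>
    (deriv_cont (hF t (hrq t (hsub t ht))).1).continuousWithinAt
  have hGd : ContinuousOn (deriv (Fc g)) (Icc t0 (1 / 2 - t0)) := fun t ht =>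
    (deriv_cont (hG t (hgq t (hsub t ht))).1).continuousWithinAt
  have hI1 : IntervalIntegrable (fun t => (‖deriv (Fc f) t‖ : ℂ) * phi ζ (Fc f t)) volume t0
      (1 / 2 - t0) := by
    refine ContinuousOn.intervalIntegrable ?_
    rw [uIcc_of_le hle]
    exact (Complex.continuous_ofReal.comp_continuousOn hFd.norm).mul
      ((phi_cont ζ).comp_continuousOn hFc)
  have hI2 : IntervalIntegrable (fun t => (‖deriv (Fc g) t‖ : ℂ) * phi ζ (Fc g t)) volume t0
      (1 / 2 - t0) := by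
    refine ContinuousOn.intervalIntegrable ?_
    rw [uIcc_of_le hle]
    exact (Complex.continuous_ofReal.comp_continuousOn hGd.norm).mul
      ((phi_cont ζ).comp_continuousOn hGc)
  unfold Wt Dw
  rw [← intervalIntegral.integral_sub hI1 hI2, intervalIntegral.integral_of_le hle]
  have hvan : ∀ t ∈ Ioo (0 : ℝ) (1 / 2) \ Ioc t0 (1 / 2 - t0),
      (‖deriv (Fc f) t‖ : ℂ) * phi ζ (Fc f t) -
        (‖deriv (Fc g) t‖ : ℂ) * phi ζ (Fc g t) = 0 := by
    rintro t ⟨ht, ht'⟩
    have hU : Fc g =ᶠ[𝓝 t] Fc f := by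
      have hfun : ∀ s, g s = f s → Fc g s = Fc f s := by
        intro s hs
        unfold Fc ch
        rw [hs, g12, hph]
      by_cases hc : t ≤ t0
      · have h1 : t ∈ Ioo (-t1) t1 := ⟨by linarith [ht.1], by linarith⟩
        refine Filter.eventually_of_mem (Ioo_mem_nhds h1.1 h1.2) fun s hs => hfun s (hn0 s ?_)
        exact abs_lt.2 hs
      · have h2 : 1 / 2 - t0 < t := by
          by_contra h3
          exact ht' ⟨not_le.1 hc, not_lt.1 h3⟩
        have h1 : t ∈ Ioo (1 / 2 - t1) (1 / 2 + t1) := ⟨by linarith, by linarith [ht.2]⟩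
        refine Filter.eventually_of_mem (Ioo_mem_nhds h1.1 h1.2) fun s hs => hfun s (hn1 s ?_)
        exact abs_lt.2 ⟨by linarith [hs.1], by linarith [hs.2]⟩
    rw [hU.deriv_eq, hU.eq_of_nhds, sub_self]
  exact (setIntegral_eq_of_subset_of_forall_sdiff_eq_zero measurableSet_Ioo
    (fun t ht => hsub t ⟨ht.1.le, ht.2⟩) hvan).symm

end MP_e78765_gt
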