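import Pool.Agent.Lib.MP_e78765_gt.Spec3

/-!
# THEOREM R2, module Dc: continuity of `Dw` outside `0`
-/

set_option autoImplicit false

open scoped ContDiff Topology
open MeasureTheory Set Filter

namespace MP_e78765_gt

namespace Dc_aux

lemma continuous_phi_x (ζ : ℂ × ℂ) : Continuous (fun x : E3 => phi ζ x) := by
  unfold phi
  fun_prop

lemma continuous_phi_z (x : E3) : Continuous (fun ζ : ℂ × ℂ => phi ζ x) := by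
  unfold phi
  fun_prop

lemma sq_pos_of_ne {ζ : ℂ × ℂ} (h : ζ ≠ 0) : 0 < ‖ζ.1‖ ^ 2 + ‖ζ.2‖ ^ 2 := by
  by_cases h1 : ζ.1 = 0
  · have h2 : ζ.2 ≠ 0 := fun h2 => h (Prod.ext h1 h2)
    have := norm_pos_iff.2 h2
    positivity
  · have := norm_pos_iff.2 h1
    positivity

lemma sq_exp {k R : ℝ} (hk : 0 < k) (hR : 0 ≤ R) :
    1 + R ^ 2 ≤ (1 + 2 / k ^ 2) * Real.exp (k * R) := by
  have h1 := Real.quadratic_le_exp_of_nonneg (x := k * R) (by positivity)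
  have h2 : 1 + (k * R) ^ 2 / 2 ≤ Real.exp (k * R) := by
    have : 0 ≤ k * R := by positivity
    linarith
  have h3 : (1 + 2 / k ^ 2) * (1 + (k * R) ^ 2 / 2) ≤ (1 + 2 / k ^ 2) * Real.exp (k * R) :=
    mul_le_mul_of_nonneg_left h2 (by positivity)
  have h4 : (1 + 2 / k ^ 2) * (1 + (k * R) ^ 2 / 2) = 1 + R ^ 2 + (2 / k ^ 2 + (k * R) ^ 2 / 2) := by
    field_simp
    ring
  have h5 : 0 ≤ 2 / k ^ 2 + (k * R) ^ 2 / 2 := by positivity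
  linarith

lemma phi_bd (ker : S_Ker) {c δ K D : ℝ} (hc : 0 < c) (hδ : 0 < δ) (hK : 0 ≤ K)
    {ζ : ℂ × ℂ} (hζ : δ ≤ ‖ζ.1‖ ^ 2 + ‖ζ.2‖ ^ 2) {x : E3} (hx : 0 < x 2) (hcx : c * ‖x‖ ≤ x 2)
    (hD : D ≤ K * (1 + ‖x‖ ^ 2)) :
    D * ‖phi ζ x‖ ≤ K * (1 + 2 / (c * δ) ^ 2) := by
  rw [(ker x x hx hx).1 ζ]
  have h1 : Real.exp (-(x 2 * (‖ζ.1‖ ^ 2 + ‖ζ.2‖ ^ 2))) ≤ Real.exp (-(c * δ * ‖x‖)) := by
    apply Real.exp_le_exp.2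
    have h2 : c * ‖x‖ * δ ≤ x 2 * (‖ζ.1‖ ^ 2 + ‖ζ.2‖ ^ 2) := mul_le_mul hcx hζ hδ.le hx.le
    nlinarith
  have h3 : D * Real.exp (-(x 2 * (‖ζ.1‖ ^ 2 + ‖ζ.2‖ ^ 2))) ≤
      K * (1 + ‖x‖ ^ 2) * Real.exp (-(c * δ * ‖x‖)) :=
    (mul_le_mul_of_nonneg_right hD (Real.exp_pos _).le).trans
      (mul_le_mul_of_nonneg_left h1 (by positivity))
  have h4 := sq_exp (k := c * δ) (R := ‖x‖) (by positivity) (norm_nonneg x)
  have h5 : (1 + ‖x‖ ^ 2) * Real.exp (-(c * δ * ‖x‖)) ≤ 1 + 2 / (c * δ) ^ 2 := by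
    rw [Real.exp_neg, ← div_eq_mul_inv, div_le_iff₀ (Real.exp_pos _)]
    exact h4
  calc D * Real.exp (-(x 2 * (‖ζ.1‖ ^ 2 + ‖ζ.2‖ ^ 2))) ≤
      K * (1 + ‖x‖ ^ 2) * Real.exp (-(c * δ * ‖x‖)) := h3
    _ = K * ((1 + ‖x‖ ^ 2) * Real.exp (-(c * δ * ‖x‖))) := by ring
    _ ≤ K * (1 + 2 / (c * δ) ^ 2) := mul_le_mul_of_nonneg_left h5 hK

/-- The integrand for one curve. -/
noncomputable def g1 (r : ℝ → E3) (ζ : ℂ × ℂ) (t : ℝ) : ℂ :=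
  (‖deriv (Fc r) t‖ : ℂ) * phi ζ (Fc r t)

lemma ne_half (hCh : S_Ch) {r : ℝ → E3} (hr : MirrorKnot r) {t : ℝ}
    (ht : t ∈ Ioo (0 : ℝ) (1 / 2)) : r t ≠ r (1 / 2) := by
  intro h
  obtain ⟨-, -, -, -, h5, -⟩ := hCh r hr
  obtain ⟨n, hn⟩ := (h5 t).1 h
  have hn1 : (n : ℝ) < 0 := by linarith [ht.2]
  have hn2 : (-1 : ℝ) < n := by linarith [ht.1]
  have hn3 : n < 0 := by exact_mod_cast hn1
  have hn4 : -1 < n := by exact_mod_cast hn2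
  omega

lemma meas_g1 (hCh : S_Ch) {r : ℝ → E3} (hr : MirrorKnot r) (ζ : ℂ × ℂ) :
    AEStronglyMeasurable (g1 r ζ) (volume.restrict (Ioo (0 : ℝ) (1 / 2))) := by
  have hc : ContinuousOn (Fc r) (Ioo (0 : ℝ) (1 / 2)) := fun t ht => by
    obtain ⟨-, -, -, -, -, -, -, -, h9, -⟩ := hCh r hr
    exact (h9 t (ne_half hCh hr ht)).1.continuousAt.continuousWithinAt
  have m1 : AEStronglyMeasurable (fun t => phi ζ (Fc r t))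
      (volume.restrict (Ioo (0 : ℝ) (1 / 2))) :=
    ((continuous_phi_x ζ).comp_continuousOn hc).aestronglyMeasurable measurableSet_Ioo
  have m3 : AEStronglyMeasurable (fun t => (‖deriv (Fc r) t‖ : ℂ))
      (volume.restrict (Ioo (0 : ℝ) (1 / 2))) := by
    have : Measurable (fun t => (‖deriv (Fc r) t‖ : ℂ)) :=
      Complex.measurable_ofReal.comp (measurable_deriv _).norm
    exact this.aestronglyMeasurable
  exact m3.mul m1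

lemma bd_g1 (cone : S_Cone) (ker : S_Ker) (hCh : S_Ch) {r : ℝ → E3} (hr : MirrorKnot r) {δ : ℝ}
    (hδ : 0 < δ) : ∃ C : ℝ, ∀ ζ : ℂ × ℂ, δ ≤ ‖ζ.1‖ ^ 2 + ‖ζ.2‖ ^ 2 →
      ∀ t ∈ Ioo (0 : ℝ) (1 / 2), ‖g1 r ζ t‖ ≤ C := by
  obtain ⟨⟨c, hc, -, hcone⟩, ⟨C0, hC0⟩, -⟩ := cone r hr
  obtain ⟨-, -, -, -, -, -, -, -, -, -, -, -, hpos, -⟩ := hCh r hr
  refine ⟨|C0| * (1 + 2 / (c * δ) ^ 2), fun ζ hζ t ht => ?_⟩
  have hD0 : ‖deriv (Fc r) t‖ ≤ |C0| * (1 + ‖Fc r t‖ ^ 2) :=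
    (hC0 t (ne_half hCh hr ht)).trans
      (mul_le_mul_of_nonneg_right (le_abs_self C0) (by positivity))
  rw [g1, norm_mul, Complex.norm_real, norm_norm]
  exact phi_bd ker hc hδ (abs_nonneg C0) hζ (hpos t ht) (hcone t ht) hD0

end Dc_aux

open Dc_aux in
theorem tDc : S_Cone → S_Ker → S_Ch → S_Dc := by
  intro cone ker hCh r ℓ hr hax
  have hℓ := hax.kn
  have hDw : ∀ ζ, Dw r ℓ ζ = ∫ t in Ioo (0 : ℝ) (1 / 2), (g1 r ζ t - g1 ℓ ζ t) := fun _ => rfl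
  have hfin : IsFiniteMeasure (volume.restrict (Ioo (0 : ℝ) (1 / 2))) :=
    ⟨by rw [Measure.restrict_apply_univ]; simp⟩
  intro ζ hζ
  refine ContinuousAt.continuousWithinAt ?_
  have hpos := sq_pos_of_ne hζ
  have hδ : 0 < (‖ζ.1‖ ^ 2 + ‖ζ.2‖ ^ 2) / 2 := by linarith
  obtain ⟨C, hC⟩ := bd_g1 cone ker hCh hr hδ
  obtain ⟨C', hC'⟩ := bd_g1 cone ker hCh hℓ hδ
  have hnear : ∀ᶠ ξ : ℂ × ℂ in 𝓝 ζ, (‖ζ.1‖ ^ 2 + ‖ζ.2‖ ^ 2) / 2 < ‖ξ.1‖ ^ 2 + ‖ξ.2‖ ^ 2 := by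
    have hcont : Continuous (fun ξ : ℂ × ℂ => ‖ξ.1‖ ^ 2 + ‖ξ.2‖ ^ 2) := by fun_prop
    exact hcont.continuousAt.eventually (lt_mem_nhds (by linarith))
  have e : Dw r ℓ = fun ζ => ∫ t in Ioo (0 : ℝ) (1 / 2), (g1 r ζ t - g1 ℓ ζ t) := funext hDw
  rw [e]
  refine continuousAt_of_dominated (bound := fun _ => C + C') ?_ ?_ ?_ ?_
  · exact Eventually.of_forall fun ξ => (meas_g1 hCh hr ξ).sub (meas_g1 hCh hℓ ξ)
  · filter_upwards [hnear] with ξ hξ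
    refine (ae_restrict_iff' measurableSet_Ioo).2 (Eventually.of_forall fun t ht => ?_)
    exact (norm_sub_le _ _).trans (add_le_add (hC ξ hξ.le t ht) (hC' ξ hξ.le t ht))
  · exact integrable_const _
  · refine Eventually.of_forall fun t => ?_
    have h1 : ∀ f : ℝ → E3, Continuous (fun ξ : ℂ × ℂ => g1 f ξ t) := fun f =>
      continuous_const.mul (continuous_phi_z (Fc f t))
    exact ((h1 r).sub (h1 ℓ)).continuousAt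

end MP_e78765_gt
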