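import Pool.Agent.Lib.MP_e78765_gt.Spec3

/-!
# Dd: the displacement of the straightening
-/

set_option autoImplicit false

open scoped ContDiff Topology
open MeasureTheory Set Filter

namespace MP_e78765_gt

namespace Dd_aux

theorem smooth_deriv {E : Type} [NormedAddCommGroup E] [NormedSpace ℝ E] {w : ℝ → E} (h : ContDiff ℝ ∞ w) :
    ContDiff ℝ ∞ (deriv w) := (contDiff_infty_iff_deriv.1 h).2

theorem smooth_diff {E : Type} [NormedAddCommGroup E] [NormedSpace ℝ E] {w : ℝ → E} (h : ContDiff ℝ ∞ w)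
    (t : ℝ) : HasDerivAt w (deriv w t) t :=
  ((contDiff_infty_iff_deriv.1 h).1 t).hasDerivAt

theorem per_deriv {E : Type} [NormedAddCommGroup E] [NormedSpace ℝ E] {w : ℝ → E}
    (h : Function.Periodic w 1) : Function.Periodic (deriv w) 1 := by
  intro t
  rw [← deriv_comp_add_const]
  have h2 : (fun x => w (x + 1)) = w := funext h
  rw [h2]

theorem per_half {E : Type} {w : ℝ → E} {a : E} (h : Function.Periodic w 1) (h0 : w 0 = a)
    (h1 : w (1 / 2) = a) (k : ℤ) : w ((k : ℝ) / 2) = a := by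
  rcases Int.even_or_odd' k with ⟨j, hj | hj⟩
  · have e1 : ((k : ℝ) / 2) = 0 - (-j : ℤ) • (1 : ℝ) := by
      rw [hj]
      push_cast
      simp
    rw [e1, h.sub_zsmul_eq, h0]
  · have e1 : ((k : ℝ) / 2) = 1 / 2 - (-j : ℤ) • (1 : ℝ) := by
      rw [hj]
      push_cast
      simp
      ring
    rw [e1, h.sub_zsmul_eq, h1]

theorem per_bdd {E : Type} [NormedAddCommGroup E] {w : ℝ → E} (h : Function.Periodic w 1)
    (hc : Continuous w) : ∃ K : ℝ, 0 ≤ K ∧ ∀ t, ‖w t‖ ≤ K := by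
  obtain ⟨K, hK⟩ := (isCompact_Icc (a := (0 : ℝ)) (b := 1)).exists_bound_of_continuousOn hc.continuousOn
  refine ⟨K, (norm_nonneg (w 0)).trans (hK 0 ⟨le_rfl, zero_le_one⟩), fun t => ?_⟩
  have h1 : w (Int.fract t) = w t := by
    have h2 := h.sub_zsmul_eq (x := t) ⌊t⌋
    rw [← h2]
    congr 1
    rw [zsmul_one]
    rfl
  rw [← h1]
  exact hK _ ⟨Int.fract_nonneg t, (Int.fract_lt_one t).le⟩

theorem mvt {E : Type} [NormedAddCommGroup E] [NormedSpace ℝ E] {w : ℝ → E} (h : ContDiff ℝ ∞ w) {K : ℝ}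
    (hK : ∀ t, ‖deriv w t‖ ≤ K) (s t : ℝ) : ‖w s - w t‖ ≤ K * |s - t| := by
  have h1 := Convex.norm_image_sub_le_of_norm_deriv_le (f := w) (s := univ) (x := t) (y := s) (C := K)
    (fun x _ => (smooth_diff h x).differentiableAt) (fun x _ => hK x) convex_univ (mem_univ _) (mem_univ _)
  rwa [Real.norm_eq_abs] at h1

theorem quad {E : Type} [NormedAddCommGroup E] [NormedSpace ℝ E] {w : ℝ → E} (h : ContDiff ℝ ∞ w) {K : ℝ}
    (hK0 : 0 ≤ K) {t0 : ℝ} (h0 : w t0 = 0) (hK : ∀ t, ‖deriv w t‖ ≤ K * |t - t0|) (t : ℝ) :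
    ‖w t‖ ≤ K * |t - t0| ^ 2 := by
  have h1 := Convex.norm_image_sub_le_of_norm_deriv_le (f := w) (s := uIcc t0 t) (x := t0) (y := t)
    (C := K * |t - t0|) (fun x _ => (smooth_diff h x).differentiableAt) (fun x hx => by
      refine (hK x).trans (mul_le_mul_of_nonneg_left ?_ hK0)
      rw [abs_sub_comm, abs_sub_comm t]
      have := abs_sub_left_of_mem_uIcc hx
      rw [abs_sub_comm, abs_sub_comm t] at this
      exact this) (convex_uIcc _ _) left_mem_uIcc right_mem_uIcc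
  rw [h0, sub_zero, Real.norm_eq_abs] at h1
  rw [pow_two, ← mul_assoc]
  exact h1

/-- the estimates near a zero of `w` and `deriv w` -/
theorem main {w : ℝ → E3} {Y : ℝ → ℝ} (hw : ContDiff ℝ ∞ w) (hY : ContDiff ℝ ∞ Y)
    (hp : Function.Periodic w 1) (h00 : w 0 = 0) (h01 : w (1 / 2) = 0) (h10 : deriv w 0 = 0)
    (h11 : deriv w (1 / 2) = 0) {K B δ : ℝ} (hK0 : 0 ≤ K) (hK : ∀ t, ‖deriv (deriv w) t‖ ≤ K)
    (hB : 0 ≤ B) (hδ : 0 < δ) (hYp : ∀ t, Y (t + 1 / 2) = Y t) (hY01 : ∀ t, 0 ≤ Y t ∧ Y t ≤ 1)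
    (hY0 : ∀ t ∈ Icc δ (1 / 2 - δ), Y t = 0) (hY1 : ∀ t, |deriv Y t| ≤ B / δ)
    (hY2 : ∀ t, |deriv (deriv Y) t| ≤ B / δ ^ 2) (t : ℝ) :
    ‖deriv (fun s => Y s • w s) t‖ ≤ (B * K + K) * δ ∧
      ‖deriv (deriv (fun s => Y s • w s)) t‖ ≤ 3 * B * K + K := by
  have hd1 : ∀ s, HasDerivAt (fun s => Y s • w s) (Y s • deriv w s + deriv Y s • w s) s := fun s =>
    (smooth_diff hY s).smul (smooth_diff hw s)
  have hd1' : deriv (fun s => Y s • w s) = fun s => Y s • deriv w s + deriv Y s • w s :=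
    funext fun s => (hd1 s).deriv
  have hd2 : ∀ s, HasDerivAt (fun s => Y s • deriv w s + deriv Y s • w s)
      ((Y s • deriv (deriv w) s + deriv Y s • deriv w s) +
        (deriv Y s • deriv w s + deriv (deriv Y) s • w s)) s := fun s =>
    ((smooth_diff hY s).smul (smooth_diff (smooth_deriv hw) s)).add
      ((smooth_diff (smooth_deriv hY) s).smul (smooth_diff hw s))
  -- the estimate near a half integer
  have near : ∀ k : ℤ, |t - (k : ℝ) / 2| ≤ δ →
      ‖deriv (fun s => Y s • w s) t‖ ≤ (B * K + K) * δ ∧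
        ‖deriv (deriv (fun s => Y s • w s)) t‖ ≤ 3 * B * K + K := by
    intro k hk
    have hw0 : w ((k : ℝ) / 2) = 0 := per_half hp h00 h01 k
    have hw1 : deriv w ((k : ℝ) / 2) = 0 := per_half (per_deriv hp) h10 h11 k
    have e1 : ∀ s, ‖deriv w s‖ ≤ K * |s - (k : ℝ) / 2| := by
      intro s
      have := mvt (smooth_deriv hw) hK s ((k : ℝ) / 2)
      rwa [hw1, sub_zero] at this
    have e2 := quad hw hK0 hw0 e1 t
    have e1' : ‖deriv w t‖ ≤ K * δ := (e1 t).trans (mul_le_mul_of_nonneg_left hk hK0)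
    have e2' : ‖w t‖ ≤ K * δ ^ 2 := e2.trans (mul_le_mul_of_nonneg_left
      (pow_le_pow_left₀ (abs_nonneg _) hk 2) hK0)
    have hYa : |Y t| ≤ 1 := by rw [abs_of_nonneg (hY01 t).1]; exact (hY01 t).2
    have a1 : ‖Y t • deriv w t‖ ≤ K * δ := by
      rw [norm_smul, Real.norm_eq_abs]
      calc |Y t| * ‖deriv w t‖ ≤ 1 * (K * δ) := mul_le_mul hYa e1' (norm_nonneg _) zero_le_one
        _ = K * δ := one_mul _
    have a2 : ‖deriv Y t • w t‖ ≤ B * K * δ := by
      rw [norm_smul, Real.norm_eq_abs]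
      calc |deriv Y t| * ‖w t‖ ≤ (B / δ) * (K * δ ^ 2) :=
            mul_le_mul (hY1 t) e2' (norm_nonneg _) (by positivity)
        _ = B * K * δ := by field_simp
    have a3 : ‖Y t • deriv (deriv w) t‖ ≤ K := by
      rw [norm_smul, Real.norm_eq_abs]
      calc |Y t| * ‖deriv (deriv w) t‖ ≤ 1 * K := mul_le_mul hYa (hK t) (norm_nonneg _) zero_le_one
        _ = K := one_mul _
    have a4 : ‖deriv Y t • deriv w t‖ ≤ B * K := by
      rw [norm_smul, Real.norm_eq_abs]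
      calc |deriv Y t| * ‖deriv w t‖ ≤ (B / δ) * (K * δ) :=
            mul_le_mul (hY1 t) e1' (norm_nonneg _) (by positivity)
        _ = B * K := by field_simp
    have a5 : ‖deriv (deriv Y) t • w t‖ ≤ B * K := by
      rw [norm_smul, Real.norm_eq_abs]
      calc |deriv (deriv Y) t| * ‖w t‖ ≤ (B / δ ^ 2) * (K * δ ^ 2) :=
            mul_le_mul (hY2 t) e2' (norm_nonneg _) (by positivity)
        _ = B * K := by field_simp
    constructor
    · rw [(hd1 t).deriv]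
      refine (norm_add_le _ _).trans ?_
      linarith
    · rw [hd1', (hd2 t).deriv]
      refine (norm_add_le _ _).trans ?_
      have b1 := norm_add_le (Y t • deriv (deriv w) t) (deriv Y t • deriv w t)
      have b2 := norm_add_le (deriv Y t • deriv w t) (deriv (deriv Y) t • w t)
      linarith
  -- the three cases
  have hx0 : (⌊2 * t⌋ : ℝ) ≤ 2 * t := Int.floor_le _
  have hx1 : 2 * t < ⌊2 * t⌋ + 1 := Int.lt_floor_add_one _
  by_cases c1 : t - (⌊2 * t⌋ : ℝ) / 2 ≤ δ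
  · refine near ⌊2 * t⌋ ?_
    rw [abs_of_nonneg (by linarith)]
    exact c1
  by_cases c2 : 1 / 2 - δ ≤ t - (⌊2 * t⌋ : ℝ) / 2
  · refine near (⌊2 * t⌋ + 1) ?_
    push_cast
    rw [abs_of_nonpos (by linarith)]
    linarith
  push Not at c1 c2
  have hz : (fun s => Y s • w s) =ᶠ[𝓝 t] fun _ => (0 : E3) := by
    have hmem : Ioo ((⌊2 * t⌋ : ℝ) / 2 + δ) ((⌊2 * t⌋ : ℝ) / 2 + (1 / 2 - δ)) ∈ 𝓝 t :=
      Ioo_mem_nhds (by linarith) (by linarith)
    filter_upwards [hmem] with s hs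
    have hYper : Function.Periodic Y (1 / 2) := hYp
    have h2 := hYper.sub_zsmul_eq (x := s) ⌊2 * t⌋
    have h3 : Y (s - ⌊2 * t⌋ • (1 / 2 : ℝ)) = 0 := by
      refine hY0 _ ⟨?_, ?_⟩
      · have := hs.1
        rw [zsmul_eq_mul]
        linarith
      · have := hs.2
        rw [zsmul_eq_mul]
        linarith
    rw [← h2, h3, zero_smul]
  have hz1 : deriv (fun s => Y s • w s) =ᶠ[𝓝 t] fun _ => (0 : E3) := by
    have := hz.deriv
    simpa using this
  have hz2 : deriv (deriv (fun s => Y s • w s)) t = 0 := by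
    rw [hz1.deriv_eq]
    simp
  constructor
  · rw [hz1.eq_of_nhds, norm_zero]
    positivity
  · rw [hz2, norm_zero]
    positivity

end Dd_aux

open Dd_aux

theorem tDd : S_Yc → S_Mir → S_Dd := by
  intro hYc hM r ℓ hr hℓ hd0 hd1
  obtain ⟨hmadd, hmsmul, hmsub, -⟩ := hM
  obtain ⟨B, hB, hY⟩ := hYc
  obtain ⟨w, hwdef⟩ : ∃ w : ℝ → E3, w = fun t => ℓ t - r t := ⟨_, rfl⟩
  have hws : ContDiff ℝ ∞ w := by
    rw [hwdef]
    exact hℓ.kn.smooth.sub hr.smooth
  have hwp : Function.Periodic w 1 := fun t => by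
    rw [hwdef]
    show ℓ (t + 1) - r (t + 1) = ℓ t - r t
    rw [hℓ.kn.periodic, hr.periodic]
  have hwd : ∀ t, deriv w t = deriv ℓ t - deriv r t := fun t => by
    rw [hwdef]
    exact ((smooth_diff hℓ.kn.smooth t).sub (smooth_diff hr.smooth t)).deriv
  have h00 : w 0 = 0 := by
    rw [hwdef]
    show ℓ 0 - r 0 = 0
    rw [hℓ.zero, sub_self]
  have h01 : w (1 / 2) = 0 := by
    rw [hwdef]
    show ℓ (1 / 2) - r (1 / 2) = 0
    rw [hℓ.half, sub_self]
  have h10 : deriv w 0 = 0 := by rw [hwd, hd0, sub_self]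
  have h11 : deriv w (1 / 2) = 0 := by rw [hwd, hd1, sub_self]
  obtain ⟨K, hK0, hK⟩ := per_bdd (per_deriv (per_deriv hwp))
    (smooth_deriv (smooth_deriv hws)).continuous
  have hC : 0 < B * K + K + (3 * B * K + K) + 1 := by positivity
  refine ⟨B * K + K + (3 * B * K + K) + 1, hC, fun δ hδ hδ4 => ?_⟩
  obtain ⟨y1, y2, y3, y4, -, y6, -, y8, y9⟩ := hY δ hδ hδ4
  have hDd : Dd δ r ℓ = fun t => Yc δ t • w t := by
    rw [hwdef]
    rfl
  have hsm : ContDiff ℝ ∞ (Dd δ r ℓ) := by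
    rw [hDd]
    exact y1.smul hws
  have hmain := main hws y1 hwp h00 h01 h10 h11 hK0 hK hB hδ y2 y4 y6 y8 y9
  rw [← hDd] at hmain
  have b1 : ∀ t, ‖deriv (Dd δ r ℓ) t‖ ≤ (B * K + K + (3 * B * K + K) + 1) * δ := fun t =>
    (hmain t).1.trans (mul_le_mul_of_nonneg_right (by
      have : 0 ≤ 3 * B * K + K := by positivity
      linarith) hδ.le)
  have b2 : ∀ t, ‖deriv (deriv (Dd δ r ℓ)) t‖ ≤ B * K + K + (3 * B * K + K) + 1 := fun t =>
    (hmain t).2.trans (by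
      have : 0 ≤ B * K + K := by positivity
      linarith)
  refine ⟨hsm, ?_, ?_, b1, mvt hsm b1, mvt (smooth_deriv hsm) b2⟩
  · intro t
    rw [hDd]
    show Yc δ (t + 1) • w (t + 1) = Yc δ t • w t
    have h1 : Yc δ (t + 1) = Yc δ t := by
      have h2 := y2 (t + 1 / 2)
      have h3 : t + 1 / 2 + 1 / 2 = t + 1 := by ring
      rw [h3] at h2
      rw [h2, y2]
    rw [h1, hwp]
  · intro t
    show Yc δ (-t) • (ℓ (-t) - r (-t)) = mir (Yc δ t • (ℓ t - r t))
    rw [y3, hℓ.kn.sym, hr.sym, ← hmsub, hmsmul]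

end MP_e78765_gt
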