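import Mathlib

/-!
# Moebius energy of knots: definitions (MP_e78765_gt)

`E3` is Euclidean three-space.  `IsKnot`, `energy`, `AmbientIsotopic`, `IsRoundCircle`, `mir` and
`MirrorKnot` occur in the final statement; everything else is used in the proof only.
-/

open scoped ContDiff Topology
open MeasureTheory Set Filter

namespace MP_e78765_gt

/-- Euclidean space `R^3`. -/
abbrev E3 := EuclideanSpace ℝ (Fin 3)

/-- A knot: a smooth, `1`-periodic, regular, embedded closed curve in `R^3`. -/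
structure IsKnot (r : ℝ → E3) : Prop where
  smooth : ContDiff ℝ ∞ r
  periodic : ∀ t, r (t + 1) = r t
  regular : ∀ t, deriv r t ≠ 0
  inj : ∀ s t, r s = r t → ∃ n : ℤ, t = s + n

/-- (Signed) length of the arc of `r` from the parameter `u` to the parameter `v`. -/
noncomputable def len (r : ℝ → E3) (u v : ℝ) : ℝ := ∫ t in u..v, ‖deriv r t‖

/-- Arc-length distance along the closed curve `r` between the points with parameters
`u, v` in `[0,1]`: the length of the shorter of the two arcs. -/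
noncomputable def arcDist (r : ℝ → E3) (u v : ℝ) : ℝ :=
  min |len r u v| (len r 0 1 - |len r u v|)

/-- The Moebius energy of a closed curve. -/
noncomputable def energy (r : ℝ → E3) : ℝ :=
  ∫ u in (0 : ℝ)..1, ∫ v in (0 : ℝ)..1,
    (1 / ‖r u - r v‖ ^ 2 - 1 / arcDist r u v ^ 2) * ‖deriv r u‖ * ‖deriv r v‖

/-- Ambient isotopy of (the images of) two closed curves. -/
def AmbientIsotopic (r r' : ℝ → E3) : Prop :=
  ∃ H : unitInterval → E3 ≃ₜ E3, Continuous (fun z : unitInterval × E3 => H z.1 z.2) ∧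
    (∀ x, H 0 x = x) ∧ (H 1) '' Set.range r = Set.range r'

/-- A round circle in `R^3`. -/
def IsRoundCircle (C : Set E3) : Prop :=
  ∃ c u v : E3, 0 < ‖u‖ ∧ ‖v‖ = ‖u‖ ∧ inner ℝ u v = 0 ∧
    C = Set.range (fun θ : ℝ => c + Real.cos θ • u + Real.sin θ • v)

/-- The reflection in the plane `x_3 = 0`. -/
noncomputable def mir (x : E3) : E3 := !₂[x 0, x 1, -x 2]

/-- A knot which is invariant under the reflection in the plane `x_3 = 0` and meets this plane
exactly in the two points `r 0` and `r (1/2)` (symmetric parametrisation). -/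
structure MirrorKnot (r : ℝ → E3) : Prop extends IsKnot r where
  sym : ∀ t, r (-t) = mir (r t)
  pos : ∀ t ∈ Set.Ioo (0 : ℝ) (1 / 2), 0 < r t 2

/-! ### The conformal integrand -/

/-- The conformally invariant integrand of the Moebius energy for two line elements `(x, a)`,
`(y, b)`: `(1 - cos (conformal angle)) |a| |b| / |x - y|^2`. -/
noncomputable def qf (x a y b : E3) : ℝ :=
  (‖a‖ * ‖b‖ + inner ℝ a b - 2 * inner ℝ (x - y) a * inner ℝ (x - y) b / ‖x - y‖ ^ 2)
    / ‖x - y‖ ^ 2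

/-- The kernel `|a| |b| / |x - y|^2`. -/
noncomputable def kf (x a y b : E3) : ℝ := ‖a‖ * ‖b‖ / ‖x - y‖ ^ 2

/-- `qf` along a curve. -/
noncomputable def Q (r : ℝ → E3) (s t : ℝ) : ℝ := qf (r s) (deriv r s) (r t) (deriv r t)

/-- Cross kernel of `a` and the mirror image of `b`. -/
noncomputable def kk (a b : ℝ → E3) (s t : ℝ) : ℝ :=
  kf (a s) (deriv a s) (mir (b t)) (deriv b t)

/-- `X a b` is the interaction of the upper half `a` and the lower half `mir b`. -/
noncomputable def XX (a b : ℝ → E3) : ℝ :=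
  ∫ z in Ioo (0 : ℝ) (1 / 2) ×ˢ Ioo (0 : ℝ) (1 / 2),
    qf (a z.1) (deriv a z.1) (mir (b z.2)) (-mir (deriv b z.2))

/-- The self interaction of the upper half. -/
noncomputable def AA (a : ℝ → E3) : ℝ :=
  ∫ z in Ioo (0 : ℝ) (1 / 2) ×ˢ Ioo (0 : ℝ) (1 / 2), Q a z.1 z.2

/-- The reflection form of the difference of two curves over the parameters `[α, β]`. -/
noncomputable def VV (a b : ℝ → E3) (α β : ℝ) : ℝ :=
  ∫ s in α..β, ∫ t in α..β, (kk a a s t - kk a b s t - kk b a s t + kk b b s t)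

/-! ### Inversion -/

/-- Inversion in the unit sphere. -/
noncomputable def inv (x : E3) : E3 := (‖x‖ ^ 2)⁻¹ • x

/-- The derivative of `inv` at `x` in the direction `a`. -/
noncomputable def dinv (x a : E3) : E3 := (‖x‖ ^ 2)⁻¹ • (a - (2 * inner ℝ x a / ‖x‖ ^ 2) • x)

/-! ### The chart of a mirror knot and the slide -/

/-- The point `q = r (1/2)` is sent to infinity, the point `p = r 0` to the origin. -/
noncomputable def ph (r : ℝ → E3) : E3 := inv (r 0 - r (1 / 2))

/-- The chart `x ↦ inv (x - q) - inv (p - q)`. -/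
noncomputable def ch (r : ℝ → E3) (x : E3) : E3 := inv (x - r (1 / 2)) - ph r

/-- The inverse of the chart. -/
noncomputable def back (r : ℝ → E3) (x : E3) : E3 := r (1 / 2) + inv (x + ph r)

/-- The knot in the chart. -/
noncomputable def Fc (r : ℝ → E3) (t : ℝ) : E3 := ch r (r t)

/-- The second chart: `Gm r y = inv (inv y - ph r)` for `y ≠ 0`, extended smoothly by `0`. -/
noncomputable def Gm (r : ℝ → E3) (y : E3) : E3 :=
  (1 - 2 * inner ℝ y (ph r) + ‖y‖ ^ 2 * ‖ph r‖ ^ 2)⁻¹ • (y - ‖y‖ ^ 2 • ph r)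

/-- The knot in the second chart. -/
noncomputable def Gc (r : ℝ → E3) (t : ℝ) : E3 := Gm r (r t - r (1 / 2))

/-- The smooth step. -/
noncomputable def St (x : ℝ) : ℝ := Real.smoothTransition x

/-- The radial cut-off: `0` for `|x| ≤ ε` and for `|x| ≥ 1/ε`, `1` for
`e ε ≤ |x| ≤ 1/(e ε)`. -/
noncomputable def cut (ε : ℝ) (x : E3) : ℝ := St (Real.log (‖x‖ / ε)) * St (-Real.log (ε * ‖x‖))

/-- The slide: a radial map. -/
noncomputable def sl (ε τ : ℝ) (x : E3) : E3 := Real.exp (τ * cut ε x) • x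

open Classical in
/-- The knot `r` slid on both sides. -/
noncomputable def rs (ε τ : ℝ) (r : ℝ → E3) (t : ℝ) : E3 :=
  if r t = r (1 / 2) then r (1 / 2) else back r (sl ε τ (Fc r t))

open Classical in
/-- The knot `r` slid on the lower side only. -/
noncomputable def as (ε τ : ℝ) (r : ℝ → E3) (t : ℝ) : E3 :=
  if 0 ≤ r t 2 then r t else rs ε τ r t

/-! ### The reproducing functions of the reflection form -/

/-- `phi ζ x = exp (-x_3 |ζ|^2 - i (2 x_1 Re (conj ζ_1 ζ_2) + 2 x_2 Im (conj ζ_1 ζ_2)))`. -/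
noncomputable def phi (ζ : ℂ × ℂ) (x : E3) : ℂ :=
  Complex.exp (-(x 2 * (‖ζ.1‖ ^ 2 + ‖ζ.2‖ ^ 2) : ℝ)
    - Complex.I * ((2 * x 0 * ((starRingEnd ℂ) ζ.1 * ζ.2).re
      + 2 * x 1 * ((starRingEnd ℂ) ζ.1 * ζ.2).im : ℝ) : ℂ))

/-- Transform of the arc-length measure of the curve `a` over the parameters `[α, β]`. -/
noncomputable def Wt (a : ℝ → E3) (α β : ℝ) (ζ : ℂ × ℂ) : ℂ :=
  ∫ t in α..β, (‖deriv a t‖ : ℂ) * phi ζ (a t)

end MP_e78765_gt
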