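import Pool.Agent.Lib.MP_e78765_gt.Defs

/-! The reflection in an arbitrary plane of `R^3`. -/

namespace MP_e78765_gt

/-- The reflection in the plane `{x | ⟨x, n⟩ = c}` of `R^3`, for a unit vector `n`. -/
noncomputable def refl (n : E3) (c : ℝ) (x : E3) : E3 := x - (2 * (inner ℝ x n - c)) • n

end MP_e78765_gt
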