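import Pool.Agent.Lib.MP_e78765_gt.Defs2

/-! Equivariant isotopy, and the definitions used in the proof of THEOREM R2. -/

open scoped ContDiff Topology
open MeasureTheory Set Filter

namespace MP_e78765_gt

/-- Ambient isotopy of (the images of) two closed curves, commuting with the map `ρ`. -/
def SymIso (ρ : E3 → E3) (r r' : ℝ → E3) : Prop :=
  ∃ H : unitInterval → E3 ≃ₜ E3, Continuous (fun z : unitInterval × E3 => H z.1 z.2) ∧
    (∀ x, H 0 x = x) ∧ (H 1) '' Set.range r = Set.range r' ∧ ∀ σ x, H σ (ρ x) = ρ (H σ x)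

/-- The vertical unit vector. -/
noncomputable def e3 : E3 := !₂[0, 0, 1]

/-- `ℓ` is a mirror knot on the circle through `r 0` and `r (1/2)` orthogonal to the plane
(the vertical axis in the chart of `r`, which is also the chart of `ℓ`). -/
structure Axial (r ℓ : ℝ → E3) : Prop where
  kn : MirrorKnot ℓ
  zero : ℓ 0 = r 0
  half : ℓ (1 / 2) = r (1 / 2)
  axis : ∀ t ∈ Ioo (0 : ℝ) (1 / 2), (Fc ℓ t) 0 = 0 ∧ (Fc ℓ t) 1 = 0

/-- Periodic cut-off: `1` near `0` and `1/2` (mod `1`), `0` away from them. -/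
noncomputable def Yc (δ t : ℝ) : ℝ := 1 - St (Real.sin (2 * Real.pi * t) ^ 2 / δ ^ 2 - 1)

/-- The displacement of the straightening. -/
noncomputable def Dd (δ : ℝ) (r ℓ : ℝ → E3) (t : ℝ) : E3 := Yc δ t • (ℓ t - r t)

/-- The straightened knot: equal to `ℓ` near `0` and `1/2`. -/
noncomputable def rst (δ : ℝ) (r ℓ : ℝ → E3) (t : ℝ) : E3 := r t + Dd δ r ℓ t

/-- Difference of the transforms of two curves in their charts. -/
noncomputable def Dw (f g : ℝ → E3) (ζ : ℂ × ℂ) : ℂ :=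
  ∫ t in Ioo (0 : ℝ) (1 / 2), ((‖deriv (Fc f) t‖ : ℂ) * phi ζ (Fc f t)
    - (‖deriv (Fc g) t‖ : ℂ) * phi ζ (Fc g t))

/-- Angular cut-off, odd in the third coordinate: `1` for `x 2 ≥ c ‖x‖`, `0` for
`|x 2| ≤ c ‖x‖ / 2`, `-1` for `x 2 ≤ -c ‖x‖`. -/
noncomputable def Ang (c : ℝ) (x : E3) : ℝ :=
  St (2 * x 2 / (c * ‖x‖) - 1) - St (-(2 * x 2) / (c * ‖x‖) - 1)

/-- The push: moves the points above the plane up and the points below the plane down, identity
near `0` and near infinity. -/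
noncomputable def ps (ε c a : ℝ) (x : E3) : E3 := x + (a * (cut ε x * Ang c x)) • e3

/-- `ε` is small enough for the push by `a`. -/
def Okp (ε a : ℝ) : Prop := 0 < ε ∧ 0 ≤ a ∧ ∀ x, a * ε * |deriv St x| ≤ 1 / 8

open Classical in
/-- The pushed knot. -/
noncomputable def ra (ε c a : ℝ) (r : ℝ → E3) (t : ℝ) : E3 :=
  if r t = r (1 / 2) then r (1 / 2) else back r (ps ε c a (Fc r t))

open Classical in
/-- `f` above the plane, `g` below it. -/
noncomputable def glue (f g : ℝ → E3) (t : ℝ) : E3 := if 0 ≤ f t 2 then f t else g t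

/-- A knot which is on the axis near `0` and `1/2`, with parameters which allow the push. -/
structure Str (r ℓ : ℝ → E3) (t0 t1 ε c a : ℝ) : Prop where
  kn : MirrorKnot r
  ax : Axial r ℓ
  t0_pos : 0 < t0
  t01 : t0 < t1
  t1_le : t1 ≤ 1 / 4
  near0 : ∀ t, |t| < t1 → ℓ t = r t
  near2 : ∀ t, |t - 1 / 2| < t1 → ℓ t = r t
  c_pos : 0 < c
  c_le : c ≤ 1
  cone : ∀ t ∈ Ioo (0 : ℝ) (1 / 2), c * ‖Fc r t‖ ≤ Fc r t 2
  ok : Okp ε a
  inner : ∀ t ∈ Icc t0 (1 / 2 - t0), Real.exp 1 * ε ≤ ‖Fc r t‖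
  outer : ∀ t ∈ Icc t0 (1 / 2 - t0), Real.exp 1 * (ε * ‖Fc r t‖) ≤ 1

end MP_e78765_gt
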