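import Pool.Agent.Lib.MP_e78765_gt.Defs3

/-! Symmetric knots and their halves (MP_e78765_gt, THEOREM R3). -/

open MeasureTheory Set Filter

namespace MP_e78765_gt

/-- A knot whose image is invariant under the reflection in the plane `⟨x, n⟩ = c` and meets this
plane in exactly two points. -/
def IsSymKnot (n : E3) (c : ℝ) (r : ℝ → E3) : Prop :=
  IsKnot r ∧ refl n c '' range r = range r ∧ ({x ∈ range r | inner ℝ x n = c}).ncard = 2

/-- `h` is a half of `g`: a knot which coincides with `g` on the side `⟨x, n⟩ ≥ c` of the plane and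
whose part on the other side is half of a round circle symmetric with respect to the plane. -/
def IsHalf (n : E3) (c : ℝ) (g h : ℝ → E3) : Prop :=
  IsKnot h ∧ range h ∩ {x | c ≤ inner ℝ x n} = range g ∩ {x | c ≤ inner ℝ x n} ∧
    ∃ C : Set E3, IsRoundCircle C ∧ refl n c '' C = C ∧
      range h ∩ {x | inner ℝ x n ≤ c} = C ∩ {x | inner ℝ x n ≤ c}

end MP_e78765_gt
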