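import Pool.Agent.Lib.MP_e78765_gt.Defs4

/-! Critical points of the Moebius energy: definitions (MP_e78765_gt, THEOREM R4). -/

open scoped ContDiff Topology
open MeasureTheory Set Filter

namespace MP_e78765_gt

/-- `r` is a critical point of the Moebius energy: the derivative of the energy at `r` in the
direction of every smooth `1`-periodic `φ` exists and is `0`. -/
def IsCritical (r : ℝ → E3) : Prop :=
  ∀ φ : ℝ → E3, ContDiff ℝ ∞ φ → (∀ t, φ (t + 1) = φ t) →
    HasDerivAt (fun τ : ℝ => energy (fun t => r t + τ • φ t)) 0 0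

/-- The inversion in the sphere with centre `o` and radius `R`. -/
noncomputable def invS (o : E3) (R : ℝ) (x : E3) : E3 := o + (R ^ 2 / ‖x - o‖ ^ 2) • (x - o)

/-- The derivative of `qf` at `(x, a, y, b)` in the direction `(ξ, α, η, β)`. -/
noncomputable def dqf (x a y b ξ α η β : E3) : ℝ :=
  (inner ℝ a α / ‖a‖ * ‖b‖ + ‖a‖ * (inner ℝ b β / ‖b‖) + inner ℝ α b + inner ℝ a β
    - 2 * ((inner ℝ (ξ - η) a + inner ℝ (x - y) α) * inner ℝ (x - y) b
        + inner ℝ (x - y) a * (inner ℝ (ξ - η) b + inner ℝ (x - y) β)) / ‖x - y‖ ^ 2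
    + 4 * inner ℝ (x - y) a * inner ℝ (x - y) b * inner ℝ (x - y) (ξ - η) / ‖x - y‖ ^ 4)
    / ‖x - y‖ ^ 2
  - 2 * (‖a‖ * ‖b‖ + inner ℝ a b - 2 * inner ℝ (x - y) a * inner ℝ (x - y) b / ‖x - y‖ ^ 2)
    * inner ℝ (x - y) (ξ - η) / ‖x - y‖ ^ 4

/-- `dqf` along the curve `f` for the variation field `φ`. -/
noncomputable def dQ (f φ : ℝ → E3) (s t : ℝ) : ℝ :=
  dqf (f s) (deriv f s) (f t) (deriv f t) (φ s) (deriv φ s) (φ t) (deriv φ t)

/-- The first variation of the energy of `f` in the direction `φ`. -/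
noncomputable def LL (f φ : ℝ → E3) : ℝ :=
  ∫ z in Ioo (0 : ℝ) 1 ×ˢ Ioo (0 : ℝ) 1, dQ f φ z.1 z.2

/-- Jointly smooth families of closed curves. -/
def JS (f : ℝ → ℝ → E3) (a0 : ℝ) : Prop :=
  ContDiffOn ℝ ∞ (fun z : ℝ × ℝ => f z.1 z.2) (Ioo (-a0) a0 ×ˢ univ) ∧
    ∀ a t, f a (t + 1) = f a t

/-- The vertical translations of the chart, as a vector field on `R^3`. -/
noncomputable def VF (q y : E3) : E3 := ‖y - q‖ ^ 2 • e3 - (2 * (y - q) 2) • (y - q)

/-- The field of the push. -/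
noncomputable def Xf (ε c : ℝ) (g : ℝ → E3) (t : ℝ) : E3 :=
  (cut ε (Fc g t) * Ang c (Fc g t)) • VF (g (1 / 2)) (g t)

/-- `1` for the upper half `(0, 1/2)`, `-1` for the lower half. -/
noncomputable def sgn (t : ℝ) : ℝ := if 0 < Real.sin (2 * Real.pi * t) then 1 else -1

/-- The normal part of `VF` along `g`. -/
noncomputable def Nf (q : E3) (g : ℝ → E3) (t : ℝ) : E3 :=
  VF q (g t) - (inner ℝ (VF q (g t)) (deriv g t) / ‖deriv g t‖ ^ 2) • deriv g t

/-- The normal part of the push. -/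
noncomputable def Psi (g : ℝ → E3) (t : ℝ) : E3 := sgn t • Nf (g (1 / 2)) g t

end MP_e78765_gt
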