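import Pool.Agent.Lib.MP_e78765_gt.Spec5

/-! Comparison of the first variations (MP_e78765_gt, THEOREM R4). -/

set_option autoImplicit false

open scoped ContDiff Topology
open MeasureTheory Set Filter

namespace MP_e78765_gt

namespace Dif_aux

theorem lip_of_deriv {g : ℝ → E3} (hg : ContDiff ℝ ∞ g) {M : ℝ} (hM : ∀ t, ‖deriv g t‖ ≤ M)
    (s t : ℝ) : ‖g s - g t‖ ≤ M * |s - t| := by
  have h := Convex.norm_image_sub_le_of_norm_deriv_le (f := g) (s := univ) (C := M)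
    (x := t) (y := s) (fun x _ => (hg.differentiable (by simp)).differentiableAt)
    (fun x _ => hM x) convex_univ (mem_univ _) (mem_univ _)
  rwa [Real.norm_eq_abs] at h

theorem swap_taylor {x y a : E3} {s t K : ℝ} (h : ‖y - x - (t - s) • a‖ ≤ K * (t - s) ^ 2) :
    ‖x - y - (s - t) • a‖ ≤ K * (s - t) ^ 2 := by
  have h1 : x - y - (s - t) • a = -(y - x - (t - s) • a) := by
    rw [← neg_sub t s, neg_smul]; abel
  rw [h1, norm_neg]
  have h2 : (s - t) ^ 2 = (t - s) ^ 2 := by ring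
  rwa [h2]

theorem dQ_congr {f g ψ : ℝ → E3} {s t : ℝ} (h1 : f s = g s) (h2 : deriv f s = deriv g s)
    (h3 : f t = g t) (h4 : deriv f t = deriv g t) : dQ f ψ s t = dQ g ψ s t := by
  unfold dQ
  rw [h1, h2, h3, h4]

end Dif_aux

open Dif_aux

theorem tDif : S_DB → S_DI → S_LLi → S_PB → S_Sk → S_Sk3 → S_Bd → S_Dif := by
  intro hDB hDI hLLi hPB hSk hSk3 hBd r ℓ hr hax h0 h1
  obtain ⟨δ1, m, M, K, c, κ, hδ1, hδ14, hm, hM, hK, hc, hκ, hSkd⟩ := hSk r ℓ hr hax h0 h1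
  obtain ⟨δ2, C2, hδ2, hC2, hPBd⟩ := hPB r ℓ hr hax h0 h1
  obtain ⟨C3, hC3, hSk3d⟩ := hSk3 r ℓ hr hax h0 h1
  obtain ⟨⟨m', M', K', hm', hM', hK', b1, b2, b3, b4, b5⟩, hch⟩ := hBd r hr.toIsKnot
  obtain ⟨c', hc', hcd⟩ := hch (1 / 2) (by norm_num)
  obtain ⟨m0, hm0, e1, e2, e3, e4⟩ : ∃ m0 : ℝ, 0 < m0 ∧ m0 ≤ m ∧ m0 ≤ m' ∧ m0 ≤ c ∧ m0 ≤ c' :=
    ⟨min (min m m') (min c c'), lt_min (lt_min hm hm') (lt_min hc hc'),
      (min_le_left _ _).trans (min_le_left _ _), (min_le_left _ _).trans (min_le_right _ _),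
      (min_le_right _ _).trans (min_le_left _ _), (min_le_right _ _).trans (min_le_right _ _)⟩
  obtain ⟨M0, hM0, e5, e6, e7⟩ : ∃ M0 : ℝ, 0 < M0 ∧ M ≤ M0 ∧ M' ≤ M0 ∧ C2 ≤ M0 :=
    ⟨max (max M M') C2, lt_of_lt_of_le hC2 (le_max_right _ _),
      (le_max_left _ _).trans (le_max_left _ _), (le_max_right _ _).trans (le_max_left _ _),
      le_max_right _ _⟩
  obtain ⟨K0, hK0, e8, e9⟩ : ∃ K0 : ℝ, 0 < K0 ∧ K ≤ K0 ∧ K' ≤ K0 :=
    ⟨max K K', lt_of_lt_of_le hK (le_max_left _ _), le_max_left _ _, le_max_right _ _⟩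
  obtain ⟨C, hC, hDBd⟩ := hDB m0 M0 K0 hm0 hM0 hK0
  obtain ⟨C', hC', hDId⟩ := hDI (2 * C) (by positivity)
  refine squeeze_zero_norm' (a := fun δ => C' * Real.sqrt δ) ?_ ?_
  · have hev : ∀ᶠ δ in 𝓝[>] (0 : ℝ), δ ∈ Ioo (0 : ℝ) (min δ1 δ2) :=
      Ioo_mem_nhdsGT (lt_min hδ1 hδ2)
    filter_upwards [hev] with δ hδ
    have hd1 : δ ∈ Ioo (0 : ℝ) δ1 := ⟨hδ.1, hδ.2.trans_le (min_le_left _ _)⟩
    have hd2 : δ ∈ Ioo (0 : ℝ) δ2 := ⟨hδ.1, hδ.2.trans_le (min_le_right _ _)⟩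
    have hd4 : δ ≤ 1 / 4 := hd1.2.le.trans hδ14
    have hdpos : 0 < δ := hδ.1
    obtain ⟨kg, -, -, -, -, -, g1, g2, g3, g4, -⟩ := hSkd δ hd1
    obtain ⟨p1, p2, p3, p4, p5⟩ := hPBd δ hd2
    obtain ⟨-, -, q3⟩ := hSk3d δ hdpos hd4
    have hψL : ∀ s t, ‖Psi (rst δ r ℓ) s - Psi (rst δ r ℓ) t‖ ≤ M0 * |s - t| := fun s t =>
      (p4 s t).trans (mul_le_mul_of_nonneg_right e7 (abs_nonneg _))
    have hψ' : ∀ s t, ‖deriv (Psi (rst δ r ℓ)) s - deriv (Psi (rst δ r ℓ)) t‖ ≤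
        M0 / δ * |s - t| := fun s t =>
      (p5 s t).trans (mul_le_mul_of_nonneg_right (div_le_div_of_nonneg_right e7 hdpos.le)
        (abs_nonneg _))
    have hgd := hDBd (rst δ r ℓ) (Psi (rst δ r ℓ)) δ hdpos (by linarith) kg.periodic p2 p1
      (fun t => ⟨e1.trans (g1 t).1, (g1 t).2.trans e5, (p3 t).trans e7⟩)
      (fun s t hst => (mul_le_mul_of_nonneg_right e3 (abs_nonneg _)).trans (g4 s t hst))
      (fun s t => ⟨(lip_of_deriv kg.smooth (fun t => (g1 t).2) s t).trans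
        (mul_le_mul_of_nonneg_right e5 (abs_nonneg _)), hψL s t⟩)
      (fun s t => ⟨(swap_taylor (g3 t s)).trans (mul_le_mul_of_nonneg_right e8 (sq_nonneg _)),
        (g3 s t).trans (mul_le_mul_of_nonneg_right e8 (sq_nonneg _))⟩) hψ'
    have hrd := hDBd r (Psi (rst δ r ℓ)) δ hdpos (by linarith) hr.periodic p2 p1
      (fun t => ⟨e2.trans (b1 t), (b2 t).trans e6, (p3 t).trans e7⟩)
      (fun s t hst => (mul_le_mul_of_nonneg_right e4 (abs_nonneg _)).trans (hcd s t hst))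
      (fun s t => ⟨(b5 s t).trans (mul_le_mul_of_nonneg_right e6 (abs_nonneg _)), hψL s t⟩)
      (fun s t => ⟨(swap_taylor (b4 t s)).trans (mul_le_mul_of_nonneg_right e9 (sq_nonneg _)),
        (b4 s t).trans (mul_le_mul_of_nonneg_right e9 (sq_nonneg _))⟩) hψ'
    have hig := (hLLi (rst δ r ℓ) (Psi (rst δ r ℓ)) kg.toIsKnot p1 p2).1
    have hir := (hLLi r (Psi (rst δ r ℓ)) hr.toIsKnot p1 p2).1
    have key := hDId δ (fun s t => dQ (rst δ r ℓ) (Psi (rst δ r ℓ)) s t -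
      dQ r (Psi (rst δ r ℓ)) s t) hdpos hd4 (hig.sub hir) (fun s t hs ht => by
        have h2 := q3 s hs
        have h3 := q3 t ht
        rw [dQ_congr h2.1 h2.2 h3.1 h3.2, sub_self]) (fun s t => by
        have h2 := hgd.1 s t
        have h3 := hrd.1 s t
        have h4 : 2 * C / δ = C / δ + C / δ := by ring
        rw [h4]
        exact (abs_sub _ _).trans (add_le_add h2 h3)) (fun s t n hn hst => by
        have h2 := hgd.2 s t n hn hst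
        have h3 := hrd.2 s t n hn hst
        have h4 : 2 * C * (1 + 1 / |s - t - n|) = C * (1 + 1 / |s - t - n|) +
          C * (1 + 1 / |s - t - n|) := by ring
        rw [h4]
        exact (abs_sub _ _).trans (add_le_add h2 h3))
    have hLL : LL (rst δ r ℓ) (Psi (rst δ r ℓ)) - LL r (Psi (rst δ r ℓ)) =
        ∫ z in Ioo (0 : ℝ) 1 ×ˢ Ioo (0 : ℝ) 1, (dQ (rst δ r ℓ) (Psi (rst δ r ℓ)) z.1 z.2 -
          dQ r (Psi (rst δ r ℓ)) z.1 z.2) := by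
      unfold LL
      exact (integral_sub hig hir).symm
    rw [hLL, Real.norm_eq_abs]
    exact key
  · have h2 : Tendsto (fun δ : ℝ => C' * Real.sqrt δ) (𝓝 0) (𝓝 (C' * Real.sqrt 0)) :=
      (Real.continuous_sqrt.tendsto 0).const_mul C'
    rw [Real.sqrt_zero, mul_zero] at h2
    exact h2.mono_left nhdsWithin_le_nhds

end MP_e78765_gt
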