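import Pool.Agent.Lib.MP_e78765_gt.Spec

set_option autoImplicit false

/-!
# Module Dl: a radial family of bijections of `R^3` (helper86)
-/

open scoped ContDiff Topology
open MeasureTheory Set Filter

namespace MP_e78765_gt

namespace Dl_aux

/-- the radial factor as a function of the logarithm of the norm -/
noncomputable def kap (ε w : ℝ) : ℝ := St (w - Real.log ε) * St (-(Real.log ε + w))

/-- the angular factor -/
noncomputable def ang (c : ℝ) (x : E3) : ℝ := St (-(2 * x 2) / (c * ‖x‖) - 1)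

lemma St_nonneg (x : ℝ) : 0 ≤ St x := Real.smoothTransition.nonneg x

lemma St_le_one (x : ℝ) : St x ≤ 1 := Real.smoothTransition.le_one x

lemma St_zero {x : ℝ} (h : x ≤ 0) : St x = 0 := Real.smoothTransition.zero_of_nonpos h

lemma St_one {x : ℝ} (h : 1 ≤ x) : St x = 1 := Real.smoothTransition.one_of_one_le h

lemma St_diff (x : ℝ) : HasDerivAt St (deriv St x) x := by
  have h : ContDiff ℝ 1 Real.smoothTransition := Real.smoothTransition.contDiff (n := 1)
  have h1 : Differentiable ℝ St := h.differentiable (by norm_num)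
  exact (h1 x).hasDerivAt

lemma St_cont : Continuous St := by
  have h : Continuous Real.smoothTransition := Real.smoothTransition.continuous
  exact h

lemma dl_eq (ε c τ : ℝ) (x : E3) : dl ε c τ x = Real.exp (τ * (cut ε x * ang c x)) • x := rfl

lemma cut_eq {ε : ℝ} (hε : 0 < ε) {x : E3} (hx : x ≠ 0) : cut ε x = kap ε (Real.log ‖x‖) := by
  have h1 : ‖x‖ ≠ 0 := norm_ne_zero_iff.2 hx
  unfold cut kap
  rw [Real.log_div h1 hε.ne', Real.log_mul hε.ne' h1]

lemma ang_smul (c k : ℝ) (hk : 0 < k) (x : E3) : ang c (k • x) = ang c x := by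
  unfold ang
  rw [norm_smul, Real.norm_of_nonneg hk.le, PiLp.smul_apply, smul_eq_mul]
  have e1 : -(2 * (k * x 2)) = k * -(2 * x 2) := by ring
  have e2 : c * (k * ‖x‖) = k * (c * ‖x‖) := by ring
  rw [e1, e2, mul_div_mul_left _ _ hk.ne']

lemma ang_mem (c : ℝ) (x : E3) : 0 ≤ ang c x ∧ ang c x ≤ 1 := ⟨St_nonneg _, St_le_one _⟩

lemma hd (ε τ θ w : ℝ) : HasDerivAt (fun w => w + τ * (kap ε w * θ))
    (1 + τ * ((deriv St (w - Real.log ε) * St (-(Real.log ε + w)) +
      St (w - Real.log ε) * (deriv St (-(Real.log ε + w)) * (-1))) * θ)) w := by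
  have h1 : HasDerivAt (fun w : ℝ => w - Real.log ε) 1 w := (hasDerivAt_id w).sub_const _
  have h2 : HasDerivAt (fun w : ℝ => -(Real.log ε + w)) (-1) w :=
    ((hasDerivAt_id w).const_add (Real.log ε)).neg
  have h3 : HasDerivAt (fun w : ℝ => St (w - Real.log ε)) (deriv St (w - Real.log ε) * 1) w :=
    (St_diff (w - Real.log ε)).comp w h1
  have h4 : HasDerivAt (fun w : ℝ => St (-(Real.log ε + w)))
      (deriv St (-(Real.log ε + w)) * (-1)) w := (St_diff (-(Real.log ε + w))).comp w h2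
  rw [mul_one] at h3
  have h5 := h3.mul h4
  exact (hasDerivAt_id w).add ((h5.mul_const θ).const_mul τ)

lemma mono {τ : ℝ} (hτ : Sm τ) (ε : ℝ) {θ : ℝ} (h0 : 0 ≤ θ) (h1 : θ ≤ 1) :
    StrictMono (fun w => w + τ * (kap ε w * θ)) := by
  apply strictMono_of_deriv_pos
  intro w
  rw [(hd ε τ θ w).deriv]
  obtain ⟨-, hb⟩ := hτ
  have ha := hb (w - Real.log ε)
  have hb' := hb (-(Real.log ε + w))
  have p1 := St_nonneg (w - Real.log ε)
  have p2 := St_le_one (w - Real.log ε)
  have p3 := St_nonneg (-(Real.log ε + w))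
  have p4 := St_le_one (-(Real.log ε + w))
  have q1 : |τ * deriv St (w - Real.log ε) * (St (-(Real.log ε + w)) * θ)| ≤ 1 / 8 := by
    rw [abs_mul, abs_mul, abs_of_nonneg (mul_nonneg p3 h0)]
    calc |τ| * |deriv St (w - Real.log ε)| * (St (-(Real.log ε + w)) * θ)
        ≤ |τ| * |deriv St (w - Real.log ε)| * 1 := by
          refine mul_le_mul_of_nonneg_left ?_ (by positivity)
          exact mul_le_one₀ p4 h0 h1
      _ ≤ 1 / 8 := by rw [mul_one]; exact ha
  have q2 : |τ * deriv St (-(Real.log ε + w)) * (St (w - Real.log ε) * θ)| ≤ 1 / 8 := by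
    rw [abs_mul, abs_mul, abs_of_nonneg (mul_nonneg p1 h0)]
    calc |τ| * |deriv St (-(Real.log ε + w))| * (St (w - Real.log ε) * θ)
        ≤ |τ| * |deriv St (-(Real.log ε + w))| * 1 := by
          refine mul_le_mul_of_nonneg_left ?_ (by positivity)
          exact mul_le_one₀ p2 h0 h1
      _ ≤ 1 / 8 := by rw [mul_one]; exact hb'
  have e : 1 + τ * ((deriv St (w - Real.log ε) * St (-(Real.log ε + w)) +
      St (w - Real.log ε) * (deriv St (-(Real.log ε + w)) * (-1))) * θ) =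
      1 + τ * deriv St (w - Real.log ε) * (St (-(Real.log ε + w)) * θ) -
        τ * deriv St (-(Real.log ε + w)) * (St (w - Real.log ε) * θ) := by ring
  rw [e]
  have r1 := (abs_le.1 q1).1
  have r2 := (abs_le.1 q2).2
  linarith

lemma kap_mem (ε w : ℝ) : 0 ≤ kap ε w ∧ kap ε w ≤ 1 :=
  ⟨mul_nonneg (St_nonneg _) (St_nonneg _), mul_le_one₀ (St_le_one _) (St_nonneg _) (St_le_one _)⟩

lemma dl_zero (ε c τ : ℝ) : dl ε c τ 0 = 0 := by
  rw [dl_eq, smul_zero]

lemma log_norm_dl {ε : ℝ} (hε : 0 < ε) (c τ : ℝ) {x : E3} (hx : x ≠ 0) :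
    Real.log ‖dl ε c τ x‖ = Real.log ‖x‖ + τ * (kap ε (Real.log ‖x‖) * ang c x) := by
  rw [dl_eq, norm_smul, Real.norm_of_nonneg (Real.exp_pos _).le,
    Real.log_mul (Real.exp_pos _).ne' (norm_ne_zero_iff.2 hx), Real.log_exp, cut_eq hε hx]
  ring

lemma inj {ε : ℝ} (hε : 0 < ε) (c : ℝ) {τ : ℝ} (hτ : Sm τ) : Function.Injective (dl ε c τ) := by
  intro x y h
  by_cases hx : x = 0
  · subst hx
    rw [dl_zero, dl_eq] at h
    have h1 := (smul_eq_zero.1 h.symm).resolve_left (Real.exp_pos _).ne'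
    exact h1.symm
  by_cases hy : y = 0
  · subst hy
    rw [dl_zero, dl_eq] at h
    exact absurd ((smul_eq_zero.1 h).resolve_left (Real.exp_pos _).ne') hx
  -- `y = k x`
  obtain ⟨k, hk, hyk⟩ : ∃ k : ℝ, 0 < k ∧ y = k • x := by
    refine ⟨Real.exp (-(τ * (cut ε y * ang c y)) + τ * (cut ε x * ang c x)), Real.exp_pos _, ?_⟩
    rw [Real.exp_add, mul_smul, ← dl_eq ε c τ x, h, dl_eq ε c τ y, smul_smul, ← Real.exp_add,
      neg_add_cancel, Real.exp_zero, one_smul]
  have ha : ang c y = ang c x := by rw [hyk, ang_smul c k hk x]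
  have h1 := log_norm_dl hε c τ hx
  have h2 := log_norm_dl hε c τ hy
  rw [h, h2, ha] at h1
  have h3 := (mono hτ ε (ang_mem c x).1 (ang_mem c x).2).injective h1
  have h4 : ‖y‖ = ‖x‖ := Real.log_injOn_pos (norm_pos_iff.2 hy) (norm_pos_iff.2 hx) h3
  have h5 : k = 1 := by
    rw [hyk, norm_smul, Real.norm_of_nonneg hk.le] at h4
    have h6 : (k - 1) * ‖x‖ = 0 := by linarith
    have h7 := (mul_eq_zero.1 h6).resolve_right (norm_ne_zero_iff.2 hx)
    linarith
  rw [hyk, h5, one_smul]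

lemma surj {ε : ℝ} (hε : 0 < ε) (c : ℝ) {τ : ℝ} (hτ : Sm τ) : Function.Surjective (dl ε c τ) := by
  intro y
  by_cases hy : y = 0
  · exact ⟨0, by rw [dl_zero, hy]⟩
  have hyn : 0 < ‖y‖ := norm_pos_iff.2 hy
  obtain ⟨L, hL⟩ : ∃ L, L = Real.log ‖y‖ := ⟨_, rfl⟩
  have hcont : Continuous (fun w => w + τ * (kap ε w * ang c y)) :=
    continuous_iff_continuousAt.2 (fun w => (hd ε τ (ang c y) w).continuousAt)
  have hbd : ∀ w : ℝ, |τ * (kap ε w * ang c y)| ≤ 1 := by
    intro w
    obtain ⟨k1, k2⟩ := kap_mem ε w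
    obtain ⟨a1, a2⟩ := ang_mem c y
    rw [abs_mul, abs_of_nonneg (mul_nonneg k1 a1)]
    have h1 : kap ε w * ang c y ≤ 1 := mul_le_one₀ k2 a1 a2
    have h2 := hτ.1
    have h3 : |τ| * (kap ε w * ang c y) ≤ 1 / 8 * 1 :=
      mul_le_mul h2 h1 (mul_nonneg k1 a1) (by norm_num)
    linarith
  obtain ⟨w, -, hw⟩ : L ∈ (fun w => w + τ * (kap ε w * ang c y)) '' Icc (L - 1) (L + 1) := by
    refine intermediate_value_Icc (by linarith) hcont.continuousOn ⟨?_, ?_⟩
    · have h1 := (abs_le.1 (hbd (L - 1))).2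
      show L - 1 + τ * (kap ε (L - 1) * ang c y) ≤ L
      linarith
    · have h1 := (abs_le.1 (hbd (L + 1))).1
      show L ≤ L + 1 + τ * (kap ε (L + 1) * ang c y)
      linarith
  have hw' : w + τ * (kap ε w * ang c y) = L := hw
  have hk : 0 < Real.exp w / ‖y‖ := div_pos (Real.exp_pos _) hyn
  refine ⟨(Real.exp w / ‖y‖) • y, ?_⟩
  have hx : (Real.exp w / ‖y‖) • y ≠ 0 := smul_ne_zero hk.ne' hy
  have hn : ‖(Real.exp w / ‖y‖) • y‖ = Real.exp w := by
    rw [norm_smul, Real.norm_of_nonneg hk.le, div_mul_cancel₀ _ hyn.ne']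
  rw [dl_eq, cut_eq hε hx, hn, Real.log_exp, ang_smul c _ hk y, smul_smul, ← mul_div_assoc,
    ← Real.exp_add, add_comm, hw', hL, Real.exp_log hyn, div_self hyn.ne', one_smul]

lemma cont_A {ε c : ℝ} (hε : 0 < ε) (hc : 0 < c) (h0 : ∀ x : E3, ‖x‖ ≤ ε → cut ε x = 0)
    (hcc : Continuous (cut ε)) : Continuous (fun x : E3 => cut ε x * ang c x) := by
  rw [continuous_iff_continuousAt]
  intro x
  by_cases hx : x = 0
  · subst hx
    have h1 : (fun x : E3 => cut ε x * ang c x) =ᶠ[𝓝 0] fun _ => (0 : ℝ) := by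
      filter_upwards [Metric.ball_mem_nhds (0 : E3) hε] with y hy
      rw [h0 y (by rw [mem_ball_zero_iff] at hy; exact hy.le), zero_mul]
    exact continuousAt_const.congr h1.symm
  · have hn : c * ‖x‖ ≠ 0 := mul_ne_zero hc.ne' (norm_ne_zero_iff.2 hx)
    refine hcc.continuousAt.mul ?_
    have h2 : Continuous (fun x : E3 => x 2) := by fun_prop
    have h3 : ContinuousAt (fun x : E3 => -(2 * x 2) / (c * ‖x‖) - 1) x := by
      refine ContinuousAt.sub (ContinuousAt.div ?_ ?_ hn) continuousAt_const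
      · exact (h2.continuousAt.const_mul 2).neg
      · exact (continuous_norm.continuousAt).const_mul c
    exact ContinuousAt.comp (g := St) (f := fun x : E3 => -(2 * x 2) / (c * ‖x‖) - 1)
      St_cont.continuousAt h3

end Dl_aux

open Dl_aux

theorem tDl : S_StB → S_Cut → S_Dl := by
  intro _ hCut ε c hε hc _
  obtain ⟨-, cut0, cut1, -, -, -, cutc⟩ := hCut ε hε
  have hA := cont_A hε hc cut0 cutc.continuous
  refine ⟨?_, fun τ hτ => ⟨inj hε c hτ, surj hε c hτ⟩, ?_, ?_, ?_⟩
  · have h1 : Continuous (fun z : ℝ × E3 => Real.exp (z.1 * (cut ε z.2 * ang c z.2)) • z.2) := by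
      have h2 : Continuous (fun z : ℝ × E3 => cut ε z.2 * ang c z.2) := hA.comp continuous_snd
      exact (Real.continuous_exp.comp (continuous_fst.mul h2)).smul continuous_snd
    exact h1
  · intro x
    rw [dl_eq, zero_mul, Real.exp_zero, one_smul]
  · intro τ x hx
    rw [dl_eq]
    have h1 : cut ε x * ang c x = 0 := by
      rcases hx with hx | hx | hx
      · rw [cut0 x hx, zero_mul]
      · rw [cut1 x hx, zero_mul]
      · have h2 : ang c x = 0 := by
          unfold ang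
          apply St_zero
          by_cases hn : ‖x‖ = 0
          · rw [hn, mul_zero, div_zero]
            norm_num
          · have hp : 0 < c * ‖x‖ := mul_pos hc (lt_of_le_of_ne (norm_nonneg x) (Ne.symm hn))
            rw [sub_nonpos, div_le_one hp]
            linarith
        rw [h2, mul_zero]
    rw [h1, mul_zero, Real.exp_zero, one_smul]
  · intro τ x hx
    by_cases hn : x = 0
    · subst hn
      rw [dl_zero]
      unfold sl
      rw [smul_zero]
    · have hp : 0 < c * ‖x‖ := mul_pos hc (norm_pos_iff.2 hn)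
      have h2 : ang c x = 1 := by
        unfold ang
        apply St_one
        rw [le_sub_iff_add_le, le_div_iff₀ hp]
        linarith
      rw [dl_eq, h2, mul_one]
      rfl

end MP_e78765_gt
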