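import Pool.Agent.Lib.MP_e78765_gt.Spec

/-!
# THEOREM R, module Dom: domination of the transforms
-/

set_option autoImplicit false

open scoped ContDiff Topology
open MeasureTheory Set Filter

namespace MP_e78765_gt

private theorem sq_exp {k R : ℝ} (hk : 0 < k) (hR : 0 ≤ R) :
    1 + R ^ 2 ≤ (1 + 2 / k ^ 2) * Real.exp (k * R) := by
  have h1 := Real.quadratic_le_exp_of_nonneg (x := k * R) (by positivity)
  have h2 : 1 + (k * R) ^ 2 / 2 ≤ Real.exp (k * R) := by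
    have : 0 ≤ k * R := by positivity
    linarith
  have h3 : (1 + 2 / k ^ 2) * (1 + (k * R) ^ 2 / 2) ≤ (1 + 2 / k ^ 2) * Real.exp (k * R) :=
    mul_le_mul_of_nonneg_left h2 (by positivity)
  have h4 : (1 + 2 / k ^ 2) * (1 + (k * R) ^ 2 / 2) = 1 + R ^ 2 + (2 / k ^ 2 + (k * R) ^ 2 / 2) := by
    field_simp
    ring
  have h5 : 0 ≤ 2 / k ^ 2 + (k * R) ^ 2 / 2 := by positivity
  linarith

private theorem phi_bd (ker : S_Ker) {c δ K D : ℝ} (hc : 0 < c) (hδ : 0 < δ) (hK : 0 ≤ K)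
    {ζ : ℂ × ℂ} (hζ : δ ≤ ‖ζ.1‖ ^ 2 + ‖ζ.2‖ ^ 2) {x : E3} (hx : 0 < x 2) (hcx : c * ‖x‖ ≤ x 2)
    (hD : D ≤ K * (1 + ‖x‖ ^ 2)) :
    D * ‖phi ζ x‖ ≤ K * (1 + 2 / (c * δ) ^ 2) := by
  rw [(ker x x hx hx).1 ζ]
  have h1 : Real.exp (-(x 2 * (‖ζ.1‖ ^ 2 + ‖ζ.2‖ ^ 2))) ≤ Real.exp (-(c * δ * ‖x‖)) := by
    apply Real.exp_le_exp.2
    have h2 : c * ‖x‖ * δ ≤ x 2 * (‖ζ.1‖ ^ 2 + ‖ζ.2‖ ^ 2) := mul_le_mul hcx hζ hδ.le hx.le
    nlinarith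
  have h3 : D * Real.exp (-(x 2 * (‖ζ.1‖ ^ 2 + ‖ζ.2‖ ^ 2))) ≤
      K * (1 + ‖x‖ ^ 2) * Real.exp (-(c * δ * ‖x‖)) :=
    (mul_le_mul_of_nonneg_right hD (Real.exp_pos _).le).trans
      (mul_le_mul_of_nonneg_left h1 (by positivity))
  have h4 := sq_exp (k := c * δ) (R := ‖x‖) (by positivity) (norm_nonneg x)
  have h5 : (1 + ‖x‖ ^ 2) * Real.exp (-(c * δ * ‖x‖)) ≤ 1 + 2 / (c * δ) ^ 2 := by
    rw [Real.exp_neg, ← div_eq_mul_inv, div_le_iff₀ (Real.exp_pos _)]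
    exact h4
  calc D * Real.exp (-(x 2 * (‖ζ.1‖ ^ 2 + ‖ζ.2‖ ^ 2))) ≤ K * (1 + ‖x‖ ^ 2) * Real.exp (-(c * δ * ‖x‖)) := h3
    _ = K * ((1 + ‖x‖ ^ 2) * Real.exp (-(c * δ * ‖x‖))) := by ring
    _ ≤ K * (1 + 2 / (c * δ) ^ 2) := mul_le_mul_of_nonneg_left h5 hK

/-- A positive multiple of a point of the cone. -/
private theorem smul_cone {c E : ℝ} (hE : 0 < E) {x : E3} (hx : 0 < x 2) (hcx : c * ‖x‖ ≤ x 2) :
    0 < (E • x) 2 ∧ c * ‖E • x‖ ≤ (E • x) 2 := by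
  have e : (E • x) 2 = E * x 2 := rfl
  rw [e, norm_smul, Real.norm_of_nonneg hE.le]
  refine ⟨by positivity, ?_⟩
  calc c * (E * ‖x‖) = E * (c * ‖x‖) := by ring
    _ ≤ E * x 2 := mul_le_mul_of_nonneg_left hcx hE.le

theorem tDom : S_Cone → S_Sl → S_Ker → S_Ch → S_Dom := by
  intro cone slh ker chh r τ hr hτ δ hδ
  obtain ⟨⟨c, hc, -, hcone⟩, ⟨C0, hC0⟩, -⟩ := cone r hr
  obtain ⟨-, -, -, -, hhalf, -, -, -, hFc, -, -, -, hpos, -⟩ := chh r hr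
  have hE : 0 < Real.exp τ := Real.exp_pos τ
  refine ⟨(|C0| + 8 * |C0| + Real.exp τ * (|C0| * (1 + (Real.exp τ)⁻¹ ^ 2))) * (1 + 2 / (c * δ) ^ 2), ?_⟩
  intro ζ ε hζ hε t ht
  have hM : 0 ≤ 1 + 2 / (c * δ) ^ 2 := by positivity
  have hne : r t ≠ r (1 / 2) := by
    intro h
    obtain ⟨n, hn⟩ := (hhalf t).1 h
    have h1 : (n : ℝ) < 0 := by linarith [ht.2]
    have h2 : (-1 : ℝ) < n := by linarith [ht.1]
    have h3 : n < 0 := by exact_mod_cast h1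
    have h4 : -1 < n := by exact_mod_cast h2
    omega
  obtain ⟨hcd, -, -⟩ := hFc t hne
  have hx : 0 < Fc r t 2 := hpos t ht
  have hcx := hcone t ht
  have hD0 : ‖deriv (Fc r) t‖ ≤ |C0| * (1 + ‖Fc r t‖ ^ 2) :=
    (hC0 t hne).trans (mul_le_mul_of_nonneg_right (le_abs_self C0) (by positivity))
  have a0 : 0 ≤ |C0| := abs_nonneg C0
  refine ⟨?_, ?_, ?_⟩
  · rw [norm_mul, Complex.norm_real, norm_norm]
    refine (phi_bd ker hc hδ a0 hζ hx hcx hD0).trans (mul_le_mul_of_nonneg_right ?_ hM)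
    have : 0 ≤ Real.exp τ * (|C0| * (1 + (Real.exp τ)⁻¹ ^ 2)) := by positivity
    linarith
  · rw [norm_mul, Complex.norm_real, norm_norm]
    obtain ⟨s1, -, -, s4, s5, -⟩ := slh ε τ hε hτ
    have hd : HasDerivAt (fun s => sl ε τ (Fc r s)) (fderiv ℝ (sl ε τ) (Fc r t) (deriv (Fc r) t)) t := by
      have h1 : HasFDerivAt (sl ε τ) (fderiv ℝ (sl ε τ) (Fc r t)) (Fc r t) :=
        ((s1.contDiffAt).differentiableAt (by simp)).hasFDerivAt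
      have h2 : HasDerivAt (Fc r) (deriv (Fc r) t) t := (hcd.differentiableAt (by simp)).hasDerivAt
      exact h1.comp_hasDerivAt t h2
    rw [hd.deriv]
    obtain ⟨x1, x2⟩ := smul_cone (c := c) (Real.exp_pos (τ * cut ε (Fc r t))) hx hcx
    have hD : ‖fderiv ℝ (sl ε τ) (Fc r t) (deriv (Fc r) t)‖ ≤ 8 * |C0| * (1 + ‖sl ε τ (Fc r t)‖ ^ 2) := by
      have h1 := (s5 (Fc r t) (deriv (Fc r) t)).2
      have h2 := (s4 (Fc r t)).1
      have h3 : ‖Fc r t‖ ^ 2 ≤ 4 * ‖sl ε τ (Fc r t)‖ ^ 2 := by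
        have := norm_nonneg (Fc r t)
        nlinarith
      have h4 : |C0| * (1 + ‖Fc r t‖ ^ 2) ≤ |C0| * (4 * (1 + ‖sl ε τ (Fc r t)‖ ^ 2)) :=
        mul_le_mul_of_nonneg_left (by linarith) a0
      linarith
    refine (phi_bd ker hc hδ (by positivity) hζ x1 x2 hD).trans (mul_le_mul_of_nonneg_right ?_ hM)
    have : 0 ≤ Real.exp τ * (|C0| * (1 + (Real.exp τ)⁻¹ ^ 2)) := by positivity
    linarith
  · rw [norm_mul, Complex.norm_real, Real.norm_of_nonneg (by positivity)]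
    obtain ⟨x1, x2⟩ := smul_cone (c := c) hE hx hcx
    have hD : Real.exp τ * ‖deriv (Fc r) t‖ ≤
        Real.exp τ * (|C0| * (1 + (Real.exp τ)⁻¹ ^ 2)) * (1 + ‖Real.exp τ • Fc r t‖ ^ 2) := by
      rw [mul_assoc, mul_assoc]
      refine mul_le_mul_of_nonneg_left (hD0.trans (mul_le_mul_of_nonneg_left ?_ a0)) hE.le
      have h1 : ‖Fc r t‖ = (Real.exp τ)⁻¹ * ‖Real.exp τ • Fc r t‖ := by
        rw [norm_smul, Real.norm_of_nonneg hE.le, ← mul_assoc, inv_mul_cancel₀ hE.ne', one_mul]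
      rw [h1, mul_pow]
      have h2 : 0 ≤ (Real.exp τ)⁻¹ ^ 2 := by positivity
      have h3 : 0 ≤ ‖Real.exp τ • Fc r t‖ ^ 2 := by positivity
      nlinarith
    refine (phi_bd ker hc hδ (by positivity) hζ x1 x2 hD).trans (mul_le_mul_of_nonneg_right ?_ hM)
    linarith

end MP_e78765_gt
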