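import Pool.Agent.Lib.MP_e78765_gt.Spec5

/-! The bound for `dqf` near the diagonal (MP_e78765_gt, THEOREM R4). -/

set_option autoImplicit false

open scoped ContDiff Topology
open MeasureTheory Set Filter

namespace MP_e78765_gt

namespace DqB_aux

/-- projection orthogonal to the unit vector `n` -/
noncomputable def pj (n v : E3) : E3 := v - (inner ℝ n v : ℝ) • n

lemma pj_norm (n v : E3) (hn : ‖n‖ = 1) : ‖pj n v‖ ≤ 2 * ‖v‖ := by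
  unfold pj
  have h1 : |(inner ℝ n v : ℝ)| ≤ ‖n‖ * ‖v‖ := abs_real_inner_le_norm n v
  calc ‖v - (inner ℝ n v : ℝ) • n‖ ≤ ‖v‖ + ‖(inner ℝ n v : ℝ) • n‖ := norm_sub_le _ _
    _ = ‖v‖ + |(inner ℝ n v : ℝ)| * ‖n‖ := by rw [norm_smul, Real.norm_eq_abs]
    _ ≤ 2 * ‖v‖ := by rw [hn] at *; linarith

lemma pj_sub (n v w : E3) : pj n (v - w) = pj n v - pj n w := by
  unfold pj
  rw [inner_sub_right, sub_smul]
  abel

lemma pj_diff (p e w : E3) (hp : ‖p‖ = 1) (he : ‖e‖ = 1) :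
    ‖pj p w - pj e w‖ ≤ 2 * ‖p - e‖ * ‖w‖ := by
  have h1 : pj p w - pj e w = (inner ℝ (e - p) w : ℝ) • e - (inner ℝ p w : ℝ) • (p - e) := by
    unfold pj
    rw [inner_sub_left]
    module
  rw [h1]
  have h2 : |(inner ℝ (e - p) w : ℝ)| ≤ ‖e - p‖ * ‖w‖ := abs_real_inner_le_norm _ _
  have h3 : |(inner ℝ p w : ℝ)| ≤ ‖p‖ * ‖w‖ := abs_real_inner_le_norm _ _
  have h4 : ‖e - p‖ = ‖p - e‖ := norm_sub_rev _ _
  rw [h4] at h2
  rw [hp, one_mul] at h3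
  have h5 : |(inner ℝ p w : ℝ)| * ‖p - e‖ ≤ ‖w‖ * ‖p - e‖ :=
    mul_le_mul_of_nonneg_right h3 (norm_nonneg _)
  calc _ ≤ ‖(inner ℝ (e - p) w : ℝ) • e‖ + ‖(inner ℝ p w : ℝ) • (p - e)‖ := norm_sub_le _ _
    _ = |(inner ℝ (e - p) w : ℝ)| * ‖e‖ + |(inner ℝ p w : ℝ)| * ‖p - e‖ := by
        rw [norm_smul, norm_smul, Real.norm_eq_abs, Real.norm_eq_abs]
    _ ≤ 2 * ‖p - e‖ * ‖w‖ := by rw [he]; linarith

/-- difference of the derivatives of the normalizations -/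
lemma dA (p e α om : E3) (A U m P W R : ℝ) (hp : ‖p‖ = 1) (he : ‖e‖ = 1) (hm : 0 < m)
    (hA : m ≤ A) (hU : m ≤ U) (hP : |A - U| ≤ P) (hpe : ‖p - e‖ ≤ 2 * P / m)
    (hom : ‖om‖ ≤ W) (hR : ‖α - om‖ ≤ R) :
    ‖A⁻¹ • pj p α - U⁻¹ • pj e om‖ ≤ 2 * R / m + 6 * P * W / m ^ 2 := by
  have hA0 : 0 < A := lt_of_lt_of_le hm hA
  have hU0 : 0 < U := lt_of_lt_of_le hm hU
  have hP0 : 0 ≤ P := le_trans (abs_nonneg _) hP
  have hW0 : 0 ≤ W := le_trans (norm_nonneg _) hom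
  have hR0 : 0 ≤ R := le_trans (norm_nonneg _) hR
  have h1 : A⁻¹ • pj p α - U⁻¹ • pj e om =
      A⁻¹ • pj p (α - om) + A⁻¹ • (pj p om - pj e om) + (A⁻¹ - U⁻¹) • pj e om := by
    rw [pj_sub]
    module
  have hAi : A⁻¹ ≤ 1 / m := by
    rw [one_div]
    exact inv_anti₀ hm hA
  have hAi0 : 0 ≤ A⁻¹ := le_of_lt (inv_pos.2 hA0)
  have h2 : ‖A⁻¹ • pj p (α - om)‖ ≤ 1 / m * (2 * R) := by
    rw [norm_smul, Real.norm_eq_abs, abs_of_nonneg hAi0]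
    exact mul_le_mul hAi (le_trans (pj_norm p _ hp) (by linarith)) (norm_nonneg _) (by positivity)
  have h3 : ‖A⁻¹ • (pj p om - pj e om)‖ ≤ 1 / m * (2 * (2 * P / m) * W) := by
    rw [norm_smul, Real.norm_eq_abs, abs_of_nonneg hAi0]
    refine mul_le_mul hAi (le_trans (pj_diff p e om hp he) ?_) (norm_nonneg _) (by positivity)
    exact mul_le_mul (by linarith) hom (norm_nonneg _) (by positivity)
  have h4 : |A⁻¹ - U⁻¹| ≤ P / m ^ 2 := by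
    have h5 : A⁻¹ - U⁻¹ = -((A - U) / (A * U)) := by
      field_simp
      ring
    rw [h5, abs_neg, abs_div, abs_of_pos (mul_pos hA0 hU0)]
    have h6 : m ^ 2 ≤ A * U := by nlinarith
    exact div_le_div₀ hP0 hP (by positivity) h6
  have h5 : ‖(A⁻¹ - U⁻¹) • pj e om‖ ≤ P / m ^ 2 * (2 * W) := by
    rw [norm_smul, Real.norm_eq_abs]
    exact mul_le_mul h4 (le_trans (pj_norm e _ he) (by linarith)) (norm_nonneg _) (by positivity)
  rw [h1]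
  calc _ ≤ ‖A⁻¹ • pj p (α - om)‖ + ‖A⁻¹ • (pj p om - pj e om)‖ + ‖(A⁻¹ - U⁻¹) • pj e om‖ :=
        norm_add₃_le
    _ ≤ 1 / m * (2 * R) + 1 / m * (2 * (2 * P / m) * W) + P / m ^ 2 * (2 * W) := by linarith
    _ = 2 * R / m + 6 * P * W / m ^ 2 := by
        field_simp
        ring

/-- normalizations are Lipschitz -/
lemma unit_sub (a u : E3) (ha : 0 < ‖a‖) (hu : 0 < ‖u‖) :
    ‖‖a‖⁻¹ • a - ‖u‖⁻¹ • u‖ ≤ 2 * ‖a - u‖ / ‖a‖ := by
  have h1 : ‖a‖⁻¹ • a - ‖u‖⁻¹ • u = ‖a‖⁻¹ • (a - u) + (‖a‖⁻¹ - ‖u‖⁻¹) • u := by module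
  have h2 : ‖(‖a‖⁻¹ - ‖u‖⁻¹) • u‖ ≤ ‖a - u‖ / ‖a‖ := by
    rw [norm_smul, Real.norm_eq_abs]
    have h3 : |‖a‖⁻¹ - ‖u‖⁻¹| * ‖u‖ = |‖a‖ - ‖u‖| / ‖a‖ := by
      have h4 : ‖a‖⁻¹ - ‖u‖⁻¹ = -((‖a‖ - ‖u‖) / (‖a‖ * ‖u‖)) := by
        field_simp
        ring
      rw [h4, abs_neg, abs_div, abs_of_pos (mul_pos ha hu)]
      field_simp
    rw [h3]
    exact div_le_div_of_nonneg_right (abs_norm_sub_norm_le a u) (le_of_lt ha)
  have h5 : ‖‖a‖⁻¹ • (a - u)‖ = ‖a - u‖ / ‖a‖ := by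
    rw [norm_smul, Real.norm_eq_abs, abs_of_pos (inv_pos.2 ha)]
    field_simp
  rw [h1]
  calc _ ≤ ‖‖a‖⁻¹ • (a - u)‖ + ‖(‖a‖⁻¹ - ‖u‖⁻¹) • u‖ := norm_add_le _ _
    _ ≤ ‖a - u‖ / ‖a‖ + ‖a - u‖ / ‖a‖ := by rw [h5]; linarith
    _ = 2 * ‖a - u‖ / ‖a‖ := by ring

/-- the vector `T` -/
noncomputable def TT (p r e : E3) : E3 := p + r - (2 * (inner ℝ e p : ℝ)) • e

/-- its derivative -/
noncomputable def TD (p r e p' r' e' : E3) : E3 :=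
  p' + r' - (2 * ((inner ℝ e' p : ℝ) + inner ℝ e p')) • e - (2 * (inner ℝ e p : ℝ)) • e'

lemma TT_eq (p r e : E3) (hp : ‖p‖ = 1) (he : ‖e‖ = 1) :
    TT p r e = (p - e) + (r - e) + (‖p - e‖ ^ 2) • e := by
  have h1 : ‖p - e‖ ^ 2 = 2 - 2 * (inner ℝ e p : ℝ) := by
    rw [@norm_sub_sq_real, hp, he, real_inner_comm]
    ring
  unfold TT
  rw [h1]
  module

lemma TD_eq (p r e p' r' e' : E3) (hp : ‖p‖ = 1) (he : ‖e‖ = 1) (hpp : (inner ℝ p p' : ℝ) = 0)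
    (hee : (inner ℝ e e' : ℝ) = 0) :
    TD p r e p' r' e' = (p' - e') + (r' - e') + (2 * (inner ℝ (p - e) (p' - e') : ℝ)) • e
      + (‖p - e‖ ^ 2) • e' := by
  have h1 : ‖p - e‖ ^ 2 = 2 - 2 * (inner ℝ e p : ℝ) := by
    rw [@norm_sub_sq_real, hp, he, real_inner_comm]
    ring
  have h2 : (inner ℝ (p - e) (p' - e') : ℝ) = -((inner ℝ e' p : ℝ) + inner ℝ e p') := by
    rw [inner_sub_left, inner_sub_right, inner_sub_right, hpp, hee, real_inner_comm p e']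
    ring
  unfold TD
  rw [h1, h2]
  module

lemma TT_sq (p r e : E3) (hp : ‖p‖ = 1) (hr : ‖r‖ = 1) (he : ‖e‖ = 1) :
    ‖TT p r e‖ ^ 2 = 2 + 2 * (inner ℝ p r : ℝ) - 4 * inner ℝ e p * inner ℝ e r := by
  have h1 : (inner ℝ p p : ℝ) = 1 := by rw [real_inner_self_eq_norm_sq, hp]; norm_num
  have h2 : (inner ℝ r r : ℝ) = 1 := by rw [real_inner_self_eq_norm_sq, hr]; norm_num
  have h3 : (inner ℝ e e : ℝ) = 1 := by rw [real_inner_self_eq_norm_sq, he]; norm_num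
  rw [← real_inner_self_eq_norm_sq]
  unfold TT
  simp only [inner_sub_left, inner_sub_right, inner_add_left, inner_add_right,
    real_inner_smul_left, real_inner_smul_right, h1, h2, h3]
  rw [real_inner_comm r p, real_inner_comm p e, real_inner_comm r e]
  ring

lemma TT_TD (p r e p' r' e' : E3) (he : ‖e‖ = 1)
    (hpp : (inner ℝ p p' : ℝ) = 0) (hrr : (inner ℝ r r' : ℝ) = 0)
    (hee : (inner ℝ e e' : ℝ) = 0) :
    (inner ℝ (TT p r e) (TD p r e p' r' e') : ℝ) =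
      inner ℝ r p' + inner ℝ p r' - 2 * (inner ℝ p e' + inner ℝ e p') * inner ℝ e r
        - 2 * inner ℝ e p * (inner ℝ r e' + inner ℝ e r') := by
  have h3 : (inner ℝ e e : ℝ) = 1 := by rw [real_inner_self_eq_norm_sq, he]; norm_num
  unfold TT TD
  simp only [inner_sub_left, inner_sub_right, inner_add_left, inner_add_right,
    real_inner_smul_left, real_inner_smul_right, h3, hpp, hrr, hee]
  rw [real_inner_comm p e', real_inner_comm p e, real_inner_comm r e]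
  ring

lemma inner_pj (n v z : E3) : (inner ℝ z (pj n v) : ℝ) = inner ℝ z v - inner ℝ n v * inner ℝ z n := by
  unfold pj
  rw [inner_sub_right, real_inner_smul_right]

lemma ident (x y a b ξ η α β p r e om : E3) (A B U h : ℝ) (hA : 0 < A) (hB : 0 < B) (hU : 0 < U)
    (hh : h ≠ 0) (hp : ‖p‖ = 1) (hr : ‖r‖ = 1) (he : ‖e‖ = 1) (ha : a = A • p) (hb : b = B • r)
    (hxy : x - y = (h * U) • e) (hxe : ξ - η = h • om) :
    dqf x a y b ξ α η β = (h ^ 2)⁻¹ *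
      (((inner ℝ p α * B + A * inner ℝ r β) / (2 * U ^ 2) - A * B * inner ℝ e om / U ^ 3)
        * ‖TT p r e‖ ^ 2
        + A * B / U ^ 2 * inner ℝ (TT p r e)
          (TD p r e (A⁻¹ • pj p α) (B⁻¹ • pj r β) (U⁻¹ • pj e om))) := by
  have h1 : (inner ℝ p p : ℝ) = 1 := by rw [real_inner_self_eq_norm_sq, hp]; norm_num
  have h2 : (inner ℝ r r : ℝ) = 1 := by rw [real_inner_self_eq_norm_sq, hr]; norm_num
  have h3 : (inner ℝ e e : ℝ) = 1 := by rw [real_inner_self_eq_norm_sq, he]; norm_num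
  have hna : ‖a‖ = A := by rw [ha, norm_smul, hp, Real.norm_eq_abs, abs_of_pos hA, mul_one]
  have hnb : ‖b‖ = B := by rw [hb, norm_smul, hr, Real.norm_eq_abs, abs_of_pos hB, mul_one]
  have hnx : ‖x - y‖ ^ 2 = (h * U) ^ 2 := by
    rw [hxy, norm_smul, he, mul_one, Real.norm_eq_abs, sq_abs]
  have hnx4 : ‖x - y‖ ^ 4 = (h * U) ^ 4 := by
    have : ‖x - y‖ ^ 4 = (‖x - y‖ ^ 2) ^ 2 := by ring
    rw [this, hnx]
    ring
  rw [TT_sq p r e hp hr he, TT_TD p r e _ _ _ he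
    (by rw [real_inner_smul_right, inner_pj, h1]; ring)
    (by rw [real_inner_smul_right, inner_pj, h2]; ring)
    (by rw [real_inner_smul_right, inner_pj, h3]; ring)]
  unfold dqf
  rw [hna, hnb, hnx, hnx4, hxy, hxe, ha, hb]
  simp only [real_inner_smul_left, real_inner_smul_right, inner_pj]
  rw [real_inner_comm p om, real_inner_comm r om, real_inner_comm r α, real_inner_comm e p,
    real_inner_comm e r, real_inner_comm r p]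
  generalize (inner ℝ p α : ℝ) = pa
  generalize (inner ℝ α r : ℝ) = ra
  generalize (inner ℝ e α : ℝ) = ea
  generalize (inner ℝ p β : ℝ) = pb
  generalize (inner ℝ r β : ℝ) = rb
  generalize (inner ℝ e β : ℝ) = eb
  generalize (inner ℝ om p : ℝ) = pw
  generalize (inner ℝ om r : ℝ) = rom
  generalize (inner ℝ e om : ℝ) = ew
  field_simp
  ring

lemma TT_norm (p r e : E3) (m P : ℝ) (hp : ‖p‖ = 1) (he : ‖e‖ = 1)
    (h1 : ‖p - e‖ ≤ 2 * P / m) (h2 : ‖r - e‖ ≤ 2 * P / m) : ‖TT p r e‖ ≤ 8 * P / m := by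
  have h3 : ‖p - e‖ ≤ 2 := by
    have := norm_sub_le p e
    rw [hp, he] at this
    linarith
  rw [TT_eq p r e hp he]
  have h4 : ‖(‖p - e‖ ^ 2) • e‖ ≤ 2 * ‖p - e‖ := by
    rw [norm_smul, he, mul_one, Real.norm_eq_abs, abs_of_nonneg (sq_nonneg _), sq]
    exact mul_le_mul_of_nonneg_right h3 (norm_nonneg _)
  calc _ ≤ ‖p - e‖ + ‖r - e‖ + ‖(‖p - e‖ ^ 2) • e‖ := norm_add₃_le
    _ ≤ 2 * P / m + 2 * P / m + 2 * (2 * P / m) := by linarith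
    _ = 8 * P / m := by ring

lemma TD_norm (p r e p' r' e' : E3) (m P W R : ℝ) (hm : 0 < m) (hp : ‖p‖ = 1) (he : ‖e‖ = 1)
    (hpp : (inner ℝ p p' : ℝ) = 0) (hee : (inner ℝ e e' : ℝ) = 0)
    (h1 : ‖p - e‖ ≤ 2 * P / m) (h2 : ‖p' - e'‖ ≤ 2 * R / m + 6 * P * W / m ^ 2)
    (h3 : ‖r' - e'‖ ≤ 2 * R / m + 6 * P * W / m ^ 2) (h4 : ‖e'‖ ≤ 2 * W / m) :
    ‖TD p r e p' r' e'‖ ≤ 12 * R / m + 44 * P * W / m ^ 2 := by
  have h5 : ‖p - e‖ ≤ 2 := by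
    have := norm_sub_le p e
    rw [hp, he] at this
    linarith
  rw [TD_eq p r e p' r' e' hp he hpp hee]
  have h6 : ‖(2 * (inner ℝ (p - e) (p' - e') : ℝ)) • e‖ ≤ 4 * ‖p' - e'‖ := by
    rw [norm_smul, he, mul_one, Real.norm_eq_abs, abs_mul, abs_of_pos (by norm_num : (0 : ℝ) < 2)]
    have h7 : |(inner ℝ (p - e) (p' - e') : ℝ)| ≤ ‖p - e‖ * ‖p' - e'‖ :=
      abs_real_inner_le_norm _ _
    have h8 : ‖p - e‖ * ‖p' - e'‖ ≤ 2 * ‖p' - e'‖ :=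
      mul_le_mul_of_nonneg_right h5 (norm_nonneg _)
    linarith
  have h7 : ‖(‖p - e‖ ^ 2) • e'‖ ≤ 8 * P * W / m ^ 2 := by
    rw [norm_smul, Real.norm_eq_abs, abs_of_nonneg (sq_nonneg _), sq]
    have h8 : ‖p - e‖ * ‖p - e‖ ≤ 2 * (2 * P / m) :=
      mul_le_mul h5 h1 (norm_nonneg _) (by norm_num)
    have h9 : (‖p - e‖ * ‖p - e‖) * ‖e'‖ ≤ 2 * (2 * P / m) * (2 * W / m) := by
      refine mul_le_mul h8 h4 (norm_nonneg _) ?_
      have := le_trans (norm_nonneg _) h1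
      linarith
    calc _ ≤ 2 * (2 * P / m) * (2 * W / m) := h9
      _ = 8 * P * W / m ^ 2 := by
        field_simp
        ring
  calc _ ≤ ‖(p' - e') + (r' - e') + (2 * (inner ℝ (p - e) (p' - e') : ℝ)) • e‖
        + ‖(‖p - e‖ ^ 2) • e'‖ := norm_add_le _ _
    _ ≤ ‖p' - e'‖ + ‖r' - e'‖ + ‖(2 * (inner ℝ (p - e) (p' - e') : ℝ)) • e‖
        + ‖(‖p - e‖ ^ 2) • e'‖ := by
        have := @norm_add₃_le E3 _ (p' - e') (r' - e') ((2 * (inner ℝ (p - e) (p' - e') : ℝ)) • e)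
        linarith
    _ ≤ (2 * R / m + 6 * P * W / m ^ 2) + (2 * R / m + 6 * P * W / m ^ 2)
        + 4 * (2 * R / m + 6 * P * W / m ^ 2) + 8 * P * W / m ^ 2 := by linarith
    _ = 12 * R / m + 44 * P * W / m ^ 2 := by ring

end DqB_aux

open DqB_aux in
/-- The bound for `dqf`. -/
theorem tDqB : S_Dqf → S_DqB := by
  intro _ m M hm hM
  refine ⟨64 * (M / m ^ 2 + M ^ 2 / m ^ 3) / m ^ 2
    + M ^ 2 / m ^ 2 * (8 / m) * (12 / m + 44 / m ^ 2), by positivity, ?_⟩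
  intro x a y b ξ α η β h P W R hh ha1 ha2 hb1 hb2 hx1 hx2 hPa hPb hW1 hW2 hW3 hR1 hR2
  obtain ⟨u, hu⟩ : ∃ u, u = h⁻¹ • (x - y) := ⟨_, rfl⟩
  obtain ⟨om, hom⟩ : ∃ om, om = h⁻¹ • (ξ - η) := ⟨_, rfl⟩
  rw [← hu] at hPa hPb
  rw [← hom] at hW1 hR1 hR2
  have hh0 : 0 < |h| := abs_pos.2 hh
  have hnu : ‖u‖ = |h|⁻¹ * ‖x - y‖ := by rw [hu, norm_smul, norm_inv, Real.norm_eq_abs]
  have hU1 : m ≤ ‖u‖ := by
    rw [hnu, inv_mul_eq_div, le_div_iff₀ hh0]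
    exact hx1
  have hU0 : 0 < ‖u‖ := lt_of_lt_of_le hm hU1
  have hA0 : 0 < ‖a‖ := lt_of_lt_of_le hm ha1
  have hB0 : 0 < ‖b‖ := lt_of_lt_of_le hm hb1
  have hP0 : 0 ≤ P := le_trans (norm_nonneg _) hPa
  have hW0 : 0 ≤ W := le_trans (norm_nonneg _) hW1
  have hR0 : 0 ≤ R := le_trans (norm_nonneg _) hR1
  have hunit : ∀ z : E3, 0 < ‖z‖ → ‖‖z‖⁻¹ • z‖ = 1 := by
    intro z hz
    rw [norm_smul, norm_inv, norm_norm]
    field_simp
  have hback : ∀ z : E3, 0 < ‖z‖ → z = ‖z‖ • (‖z‖⁻¹ • z) := by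
    intro z hz
    rw [smul_smul, mul_inv_cancel₀ (ne_of_gt hz), one_smul]
  obtain ⟨p, hpd⟩ : ∃ p, p = ‖a‖⁻¹ • a := ⟨_, rfl⟩
  obtain ⟨r, hrd⟩ : ∃ r, r = ‖b‖⁻¹ • b := ⟨_, rfl⟩
  obtain ⟨e, hed⟩ : ∃ e, e = ‖u‖⁻¹ • u := ⟨_, rfl⟩
  have hp : ‖p‖ = 1 := by rw [hpd]; exact hunit a hA0
  have hr : ‖r‖ = 1 := by rw [hrd]; exact hunit b hB0
  have he : ‖e‖ = 1 := by rw [hed]; exact hunit u hU0
  have hap : a = ‖a‖ • p := by rw [hpd]; exact hback a hA0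
  have hbr : b = ‖b‖ • r := by rw [hrd]; exact hback b hB0
  have hue : u = ‖u‖ • e := by rw [hed]; exact hback u hU0
  have hxy : x - y = (h * ‖u‖) • e := by
    rw [mul_smul, ← hue, hu, smul_smul, mul_inv_cancel₀ hh, one_smul]
  have hxe : ξ - η = h • om := by
    rw [hom, smul_smul, mul_inv_cancel₀ hh, one_smul]
  have hid := ident x y a b ξ η α β p r e om ‖a‖ ‖b‖ ‖u‖ h hA0 hB0 hU0 hh hp hr he hap hbr hxy hxe
  have hpe : ‖p - e‖ ≤ 2 * P / m := by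
    rw [hpd, hed]
    refine le_trans (unit_sub a u hA0 hU0) ?_
    exact div_le_div₀ (by linarith) (by linarith) hm ha1
  have hre : ‖r - e‖ ≤ 2 * P / m := by
    rw [hrd, hed]
    refine le_trans (unit_sub b u hB0 hU0) ?_
    exact div_le_div₀ (by linarith) (by linarith) hm hb1
  have hAU : |‖a‖ - ‖u‖| ≤ P := le_trans (abs_norm_sub_norm_le a u) hPa
  have hBU : |‖b‖ - ‖u‖| ≤ P := le_trans (abs_norm_sub_norm_le b u) hPb
  have h11 : (inner ℝ p p : ℝ) = 1 := by rw [real_inner_self_eq_norm_sq, hp]; norm_num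
  have h33 : (inner ℝ e e : ℝ) = 1 := by rw [real_inner_self_eq_norm_sq, he]; norm_num
  have hdA := dA p e α om ‖a‖ ‖u‖ m P W R hp he hm ha1 hU1 hAU hpe hW1 hR1
  have hdB := dA r e β om ‖b‖ ‖u‖ m P W R hr he hm hb1 hU1 hBU hre hW1 hR2
  have he' : ‖‖u‖⁻¹ • pj e om‖ ≤ 2 * W / m := by
    rw [norm_smul, norm_inv, norm_norm, inv_mul_eq_div]
    exact div_le_div₀ (by positivity) (le_trans (pj_norm e om he) (by linarith)) hm hU1
  have hT := TT_norm p r e m P hp he hpe hre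
  have hTD := TD_norm p r e (‖a‖⁻¹ • pj p α) (‖b‖⁻¹ • pj r β) (‖u‖⁻¹ • pj e om) m P W R hm hp he
    (by rw [real_inner_smul_right, inner_pj, h11]; ring)
    (by rw [real_inner_smul_right, inner_pj, h33]; ring) hpe hdA hdB he'
  obtain ⟨T, hTd⟩ : ∃ T, T = TT p r e := ⟨_, rfl⟩
  obtain ⟨D, hDd⟩ : ∃ D, D = TD p r e (‖a‖⁻¹ • pj p α) (‖b‖⁻¹ • pj r β) (‖u‖⁻¹ • pj e om) :=
    ⟨_, rfl⟩
  rw [← hTd] at hT hid
  rw [← hDd] at hTD hid
  have i1 : |(inner ℝ p α : ℝ)| ≤ W := by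
    have := abs_real_inner_le_norm p α
    rw [hp, one_mul] at this
    linarith
  have i2 : |(inner ℝ r β : ℝ)| ≤ W := by
    have := abs_real_inner_le_norm r β
    rw [hr, one_mul] at this
    linarith
  have i3 : |(inner ℝ e om : ℝ)| ≤ W := by
    have := abs_real_inner_le_norm e om
    rw [he, one_mul] at this
    linarith
  have j1 : |((inner ℝ p α : ℝ) * ‖b‖ + ‖a‖ * inner ℝ r β) / (2 * ‖u‖ ^ 2)
      - ‖a‖ * ‖b‖ * inner ℝ e om / ‖u‖ ^ 3| ≤ W * (M / m ^ 2 + M ^ 2 / m ^ 3) := by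
    have k1 : |((inner ℝ p α : ℝ) * ‖b‖ + ‖a‖ * inner ℝ r β) / (2 * ‖u‖ ^ 2)| ≤
        (2 * (W * M)) / (2 * m ^ 2) := by
      rw [abs_div, abs_of_pos (by positivity : 0 < 2 * ‖u‖ ^ 2)]
      refine div_le_div₀ (by positivity) ?_ (by positivity) ?_
      · refine le_trans (abs_add_le _ _) ?_
        rw [abs_mul, abs_mul, abs_of_pos hB0, abs_of_pos hA0]
        have l1 : |(inner ℝ p α : ℝ)| * ‖b‖ ≤ W * M := mul_le_mul i1 hb2 (le_of_lt hB0) hW0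
        have l2 : ‖a‖ * |(inner ℝ r β : ℝ)| ≤ M * W :=
          mul_le_mul ha2 i2 (abs_nonneg _) (le_of_lt hM)
        linarith
      · have : m ^ 2 ≤ ‖u‖ ^ 2 := pow_le_pow_left₀ (le_of_lt hm) hU1 2
        linarith
    have k2 : |‖a‖ * ‖b‖ * (inner ℝ e om : ℝ) / ‖u‖ ^ 3| ≤ (M * M * W) / m ^ 3 := by
      rw [abs_div, abs_of_pos (by positivity : 0 < ‖u‖ ^ 3)]
      refine div_le_div₀ (by positivity) ?_ (by positivity)
        (pow_le_pow_left₀ (le_of_lt hm) hU1 3)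
      rw [abs_mul, abs_of_pos (mul_pos hA0 hB0)]
      exact mul_le_mul (mul_le_mul ha2 hb2 (le_of_lt hB0) (le_of_lt hM)) i3 (abs_nonneg _)
        (by positivity)
    refine le_trans (abs_sub _ _) ?_
    calc _ ≤ (2 * (W * M)) / (2 * m ^ 2) + (M * M * W) / m ^ 3 := add_le_add k1 k2
      _ = W * (M / m ^ 2 + M ^ 2 / m ^ 3) := by
        field_simp
  have j2 : ‖T‖ ^ 2 ≤ (8 * P / m) ^ 2 := pow_le_pow_left₀ (norm_nonneg _) hT 2
  have j3 : |(inner ℝ T D : ℝ)| ≤ (8 * P / m) * (12 * R / m + 44 * P * W / m ^ 2) :=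
    le_trans (abs_real_inner_le_norm T D)
      (mul_le_mul hT hTD (norm_nonneg _) (by positivity))
  have j4 : |‖a‖ * ‖b‖ / ‖u‖ ^ 2| ≤ M ^ 2 / m ^ 2 := by
    rw [abs_of_pos (by positivity)]
    refine div_le_div₀ (by positivity) ?_ (by positivity)
      (pow_le_pow_left₀ (le_of_lt hm) hU1 2)
    rw [sq]
    exact mul_le_mul ha2 hb2 (le_of_lt hB0) (le_of_lt hM)
  have j5 : |(((inner ℝ p α : ℝ) * ‖b‖ + ‖a‖ * inner ℝ r β) / (2 * ‖u‖ ^ 2)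
      - ‖a‖ * ‖b‖ * inner ℝ e om / ‖u‖ ^ 3) * ‖T‖ ^ 2
      + ‖a‖ * ‖b‖ / ‖u‖ ^ 2 * inner ℝ T D| ≤
      W * (M / m ^ 2 + M ^ 2 / m ^ 3) * (8 * P / m) ^ 2
        + M ^ 2 / m ^ 2 * ((8 * P / m) * (12 * R / m + 44 * P * W / m ^ 2)) := by
    refine le_trans (abs_add_le _ _) ?_
    rw [abs_mul, abs_mul, abs_of_nonneg (sq_nonneg ‖T‖)]
    exact add_le_add (mul_le_mul j1 j2 (sq_nonneg _) (by positivity))
      (mul_le_mul j4 j3 (abs_nonneg _) (by positivity))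
  rw [hid, abs_mul, abs_of_pos (by positivity : 0 < (h ^ 2)⁻¹), inv_mul_eq_div]
  refine div_le_div_of_nonneg_right (le_trans j5 ?_) (by positivity)
  have n1 : 0 ≤ P ^ 2 * W := by positivity
  have n2 : 0 ≤ P * R := by positivity
  have n3 : W * (M / m ^ 2 + M ^ 2 / m ^ 3) * (8 * P / m) ^ 2
        + M ^ 2 / m ^ 2 * ((8 * P / m) * (12 * R / m + 44 * P * W / m ^ 2))
      = 64 * (M / m ^ 2 + M ^ 2 / m ^ 3) / m ^ 2 * (P ^ 2 * W)
        + M ^ 2 / m ^ 2 * (8 / m) * (12 / m) * (P * R)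
        + M ^ 2 / m ^ 2 * (8 / m) * (44 / m ^ 2) * (P ^ 2 * W) := by
    field_simp
    ring
  rw [n3]
  have n4 : 0 ≤ 64 * (M / m ^ 2 + M ^ 2 / m ^ 3) / m ^ 2 * (P * R) := by positivity
  have n5 : 0 ≤ M ^ 2 / m ^ 2 * (8 / m) * (12 / m) * (P ^ 2 * W) := by positivity
  have n6 : 0 ≤ M ^ 2 / m ^ 2 * (8 / m) * (44 / m ^ 2) * (P * R) := by positivity
  have n7 : (64 * (M / m ^ 2 + M ^ 2 / m ^ 3) / m ^ 2
      + M ^ 2 / m ^ 2 * (8 / m) * (12 / m + 44 / m ^ 2)) * (P ^ 2 * W + P * R)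
      = (64 * (M / m ^ 2 + M ^ 2 / m ^ 3) / m ^ 2 * (P ^ 2 * W)
        + M ^ 2 / m ^ 2 * (8 / m) * (12 / m) * (P * R)
        + M ^ 2 / m ^ 2 * (8 / m) * (44 / m ^ 2) * (P ^ 2 * W))
      + (64 * (M / m ^ 2 + M ^ 2 / m ^ 3) / m ^ 2 * (P * R)
        + M ^ 2 / m ^ 2 * (8 / m) * (12 / m) * (P ^ 2 * W)
        + M ^ 2 / m ^ 2 * (8 / m) * (44 / m ^ 2) * (P * R)) := by ring
  rw [n7]
  linarith

end MP_e78765_gt
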