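import Pool.Agent.Lib.MP_e78765_gt.Spec5

/-! Derivative of `qf` along paths (MP_e78765_gt, helper15). -/

set_option autoImplicit false

open scoped ContDiff Topology
open MeasureTheory Set Filter

namespace MP_e78765_gt

namespace Dqf_aux

/-- The derivative of the norm. -/
theorem norm_deriv {a : ℝ → E3} {α : E3} {τ : ℝ} (h : HasDerivAt a α τ) (h0 : a τ ≠ 0) :
    HasDerivAt (fun t => ‖a t‖) (inner ℝ (a τ) α / ‖a τ‖) τ := by
  have h1 := h.norm_sq
  have h2 := h1.sqrt (by
    have : ‖a τ‖ ≠ 0 := norm_ne_zero_iff.2 h0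
    positivity)
  have h3 : (fun t => √(‖a t‖ ^ 2)) = fun t => ‖a t‖ := by
    funext t
    rw [Real.sqrt_sq (norm_nonneg _)]
  rw [h3, Real.sqrt_sq (norm_nonneg _)] at h2
  have h4 : 2 * inner ℝ (a τ) α / (2 * ‖a τ‖) = inner ℝ (a τ) α / ‖a τ‖ :=
    mul_div_mul_left _ _ two_ne_zero
  rwa [h4] at h2

end Dqf_aux

open Dqf_aux

theorem tDqf : S_Dqf := by
  refine ⟨?_, ?_, ?_, ?_⟩
  · intro x a y b ξ α η β ξ' α' η' β' c
    have h : ξ + c • ξ' - (η + c • η') = (ξ - η) + c • (ξ' - η') := by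
      rw [smul_sub]
      abel
    simp only [dqf, h, inner_add_right, inner_add_left, inner_smul_right, real_inner_smul_left]
    ring
  · intro x a y b ξ α η β
    have h : ξ - η = -(η - ξ) := (neg_sub _ _).symm
    have h' : x - y = -(y - x) := (neg_sub _ _).symm
    simp only [dqf, h, h', inner_neg_left, inner_neg_right, norm_neg]
    rw [real_inner_comm b a, real_inner_comm β a, real_inner_comm b α]
    ring
  · intro x a y b ξ α η β τ hx ha hy hb hxy ha0 hb0
    have hu : HasDerivAt (fun t => x t - y t) (ξ - η) τ := hx.sub hy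
    have hu0 : x τ - y τ ≠ 0 := sub_ne_zero.2 hxy
    have hn : ‖x τ - y τ‖ ≠ 0 := norm_ne_zero_iff.2 hu0
    have hD := hu.norm_sq
    have hP := hu.inner ℝ ha
    have hQ := hu.inner ℝ hb
    have hab := ha.inner ℝ hb
    have h := ((((norm_deriv ha ha0).mul (norm_deriv hb hb0)).add hab).sub
      (((hP.const_mul 2).mul hQ).div hD (pow_ne_zero 2 hn))).div hD (pow_ne_zero 2 hn)
    have hf : (fun τ => qf (x τ) (a τ) (y τ) (b τ)) = fun t =>
        (‖a t‖ * ‖b t‖ + inner ℝ (a t) (b t) -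
          2 * inner ℝ (x t - y t) (a t) * inner ℝ (x t - y t) (b t) / ‖x t - y t‖ ^ 2) /
          ‖x t - y t‖ ^ 2 := rfl
    rw [hf]
    refine h.congr_deriv ?_
    simp only [dqf, Pi.add_apply, Pi.sub_apply, Pi.mul_apply, Pi.div_apply]
    field_simp
    ring
  · intro w x a y b ξ α η β
    simp only [dqf, add_sub_add_right_eq_sub]

end MP_e78765_gt
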