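import Pool.Agent.Lib.MP_e78765_gt.Spec4

/-! Energy of the axial circle (MP_e78765_gt, THEOREM R3; helper26). -/

open scoped ContDiff Topology
open MeasureTheory Set Filter

namespace MP_e78765_gt

theorem tE4 : S_EF → S_E4 := by
  intro hEF r ℓ hA
  have hax : Axial ℓ ℓ := ⟨hA.kn, rfl, rfl, hA.axis⟩
  have h := hEF ℓ ℓ (1 / 4) (1 / 4) hA.kn hax (by norm_num) le_rfl le_rfl (fun _ _ => rfl)
    (fun _ _ => rfl)
    (fun t ht => hA.axis t ⟨ht.1, by linarith [ht.2]⟩)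
    (fun t ht => hA.axis t ⟨by linarith [ht.1], ht.2⟩)
  have h1 : glue ℓ ℓ = ℓ := by
    funext t
    exact ite_self _
  have h2 : Ioo (1 / 4 : ℝ) (1 / 2 - 1 / 4) = ∅ := by
    rw [show (1 / 2 - 1 / 4 : ℝ) = 1 / 4 by norm_num]
    exact Ioo_self _
  rw [h1, h2] at h
  rw [h]
  simp

end MP_e78765_gt
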