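import Pool.Agent.Lib.MP_e78765_gt.Spec3

/-!
# THEOREM R2, module EF: energy of a knot with straight lower half and ends
-/

set_option autoImplicit false

open scoped ContDiff Topology
open MeasureTheory Set Filter

namespace MP_e78765_gt

namespace EF_aux

/-! ### Monotone functions and their images -/

lemma im1 {g g' : ℝ → ℝ} {a b : ℝ} (hab : a < b) (hd : ∀ t ∈ Ioo a b, HasDerivAt g (g' t) t)
    (hn : ∀ t ∈ Ioo a b, g' t ≠ 0) (hc : ContinuousOn g (Icc a b)) (hlt : g a < g b) :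
    (∀ t ∈ Ioo a b, 0 < g' t) ∧ g '' Ioo a b = Ioo (g a) (g b) := by
  have hpos : ∀ t ∈ Ioo a b, 0 < g' t := by
    rcases hasDerivWithinAt_forall_lt_or_forall_gt_of_forall_ne (convex_Ioo a b)
      (fun t ht => (hd t ht).hasDerivWithinAt) hn with h | h
    · exfalso
      obtain ⟨c, hc1, hc2⟩ := exists_hasDerivAt_eq_slope g g' hab hc hd
      have h1 := h c hc1
      rw [hc2] at h1
      have h2 : 0 < (g b - g a) / (b - a) := div_pos (by linarith) (by linarith)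
      linarith
    · exact h
  have hm : StrictMonoOn g (Icc a b) := by
    apply strictMonoOn_of_deriv_pos (convex_Icc a b) hc
    intro x hx
    rw [interior_Icc] at hx
    rw [(hd x hx).deriv]
    exact hpos x hx
  refine ⟨hpos, ?_⟩
  apply Set.Subset.antisymm
  · rintro _ ⟨t, ht, rfl⟩
    exact ⟨hm (left_mem_Icc.2 hab.le) (Ioo_subset_Icc_self ht) ht.1,
      hm (Ioo_subset_Icc_self ht) (right_mem_Icc.2 hab.le) ht.2⟩
  · exact intermediate_value_Ioo hab.le hc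

lemma im2 {g g' : ℝ → ℝ} {a b : ℝ} (hab : a < b) (hd : ∀ t ∈ Ioo a b, HasDerivAt g (g' t) t)
    (hn : ∀ t ∈ Ioo a b, g' t ≠ 0) (hc : ContinuousOn g (Ico a b))
    (hT : Tendsto g (𝓝[<] b) atTop) :
    (∀ t ∈ Ioo a b, 0 < g' t) ∧ g '' Ioo a b = Ioi (g a) := by
  have key : ∀ t ∈ Ico a b, ∀ y : ℝ, ∃ s ∈ Ioo t b, y < g s := by
    intro t ht y
    have h1 : ∀ᶠ s in 𝓝[<] b, s ∈ Ioo t b := Ioo_mem_nhdsLT ht.2
    exact (h1.and (hT.eventually_gt_atTop y)).exists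
  have step : ∀ s ∈ Ioo a b, g a < g s → (∀ t ∈ Ioo a s, 0 < g' t) ∧
      g '' Ioo a s = Ioo (g a) (g s) := fun s hs h =>
    im1 hs.1 (fun t ht => hd t ⟨ht.1, ht.2.trans hs.2⟩) (fun t ht => hn t ⟨ht.1, ht.2.trans hs.2⟩)
      (hc.mono fun t ht => ⟨ht.1, lt_of_le_of_lt ht.2 hs.2⟩) h
  have near : ∀ t ∈ Ioo a b, ∃ s ∈ Ioo a b, t ∈ Ioo a s ∧ g a < g s := by
    intro t ht
    obtain ⟨s, hs, hs'⟩ := key t ⟨ht.1.le, ht.2⟩ (g a)
    exact ⟨s, ⟨ht.1.trans hs.1, hs.2⟩, ⟨ht.1, hs.1⟩, hs'⟩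
  refine ⟨fun t ht => ?_, ?_⟩
  · obtain ⟨s, hs, hts, h⟩ := near t ht
    exact (step s hs h).1 t hts
  · apply Set.Subset.antisymm
    · rintro _ ⟨t, ht, rfl⟩
      obtain ⟨s, hs, hts, h⟩ := near t ht
      have h1 : g t ∈ g '' Ioo a s := ⟨t, hts, rfl⟩
      rw [(step s hs h).2] at h1
      exact h1.1
    · intro y hy
      obtain ⟨s, hs, hs'⟩ := key a ⟨le_rfl, hab⟩ y
      have h1 : y ∈ Ioo (g a) (g s) := ⟨hy, hs'⟩
      rw [← (step s hs (lt_trans hy hs')).2] at h1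
      obtain ⟨t, ht, rfl⟩ := h1
      exact ⟨t, ⟨ht.1, ht.2.trans hs.2⟩, rfl⟩

lemma im3 {g g' : ℝ → ℝ} {a b : ℝ} (hab : a < b) (hd : ∀ t ∈ Ioo a b, HasDerivAt g (g' t) t)
    (hn : ∀ t ∈ Ioo a b, g' t ≠ 0) (hc : ContinuousOn g (Ioc a b))
    (hT : Tendsto g (𝓝[>] a) atBot) :
    (∀ t ∈ Ioo a b, 0 < g' t) ∧ g '' Ioo a b = Iio (g b) := by
  have key : ∀ t ∈ Ioc a b, ∀ y : ℝ, ∃ s ∈ Ioo a t, g s < y := by
    intro t ht y
    have h1 : ∀ᶠ s in 𝓝[>] a, s ∈ Ioo a t := Ioo_mem_nhdsGT ht.1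
    exact (h1.and (hT.eventually_lt_atBot y)).exists
  have step : ∀ s ∈ Ioo a b, g s < g b → (∀ t ∈ Ioo s b, 0 < g' t) ∧
      g '' Ioo s b = Ioo (g s) (g b) := fun s hs h =>
    im1 hs.2 (fun t ht => hd t ⟨hs.1.trans ht.1, ht.2⟩) (fun t ht => hn t ⟨hs.1.trans ht.1, ht.2⟩)
      (hc.mono fun t ht => ⟨lt_of_lt_of_le hs.1 ht.1, ht.2⟩) h
  have near : ∀ t ∈ Ioo a b, ∃ s ∈ Ioo a b, t ∈ Ioo s b ∧ g s < g b := by
    intro t ht
    obtain ⟨s, hs, hs'⟩ := key t ⟨ht.1, ht.2.le⟩ (g b)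
    exact ⟨s, ⟨hs.1, hs.2.trans ht.2⟩, ⟨hs.2, ht.2⟩, hs'⟩
  refine ⟨fun t ht => ?_, ?_⟩
  · obtain ⟨s, hs, hts, h⟩ := near t ht
    exact (step s hs h).1 t hts
  · apply Set.Subset.antisymm
    · rintro _ ⟨t, ht, rfl⟩
      obtain ⟨s, hs, hts, h⟩ := near t ht
      have h1 : g t ∈ g '' Ioo s b := ⟨t, hts, rfl⟩
      rw [(step s hs h).2] at h1
      exact h1.2
    · intro y hy
      obtain ⟨s, hs, hs'⟩ := key b ⟨hab, le_rfl⟩ y
      have h1 : y ∈ Ioo (g s) (g b) := ⟨hs', hy⟩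
      rw [← (step s hs (lt_trans hs' hy)).2] at h1
      obtain ⟨t, ht, rfl⟩ := h1
      exact ⟨t, ⟨hs.1.trans ht.1, ht.2⟩, rfl⟩

/-! ### Splitting of double integrals -/

lemma split2 (F : ℝ × ℝ → ℝ) {K V S : Set ℝ} (hKm : MeasurableSet K) (hVm : MeasurableSet V)
    (hd : Disjoint K V) (hS : (K ∪ V : Set ℝ) =ᵐ[volume] S) (hKS : K ⊆ S) (hVS : V ⊆ S)
    (hF : IntegrableOn F (S ×ˢ S)) :
    ∫ z in S ×ˢ S, F z = ((∫ z in K ×ˢ K, F z) + ∫ z in K ×ˢ V, F z) +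
      ((∫ z in V ×ˢ K, F z) + ∫ z in V ×ˢ V, F z) := by
  have h1 : ((K ∪ V) ×ˢ (K ∪ V) : Set (ℝ × ℝ)) =ᵐ[volume] S ×ˢ S := Measure.set_prod_ae_eq hS hS
  rw [← setIntegral_congr_set h1, Set.union_prod, Set.prod_union, Set.prod_union]
  have hUU := hF.mono_set (Set.prod_mono hKS hKS)
  have hUL := hF.mono_set (Set.prod_mono hKS hVS)
  have hLU := hF.mono_set (Set.prod_mono hVS hKS)
  have hLL := hF.mono_set (Set.prod_mono hVS hVS)
  have hd' : ∀ s : Set ℝ, Disjoint (s ×ˢ K) (s ×ˢ V) := by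
    intro s
    rw [Set.disjoint_prod]
    exact Or.inr hd
  rw [setIntegral_union _ _ (hUU.union hUL) (hLU.union hLL),
    setIntegral_union (hd' _) (hKm.prod hVm) hUU hUL,
    setIntegral_union (hd' _) (hVm.prod hVm) hLU hLL]
  · rw [Set.disjoint_left]
    rintro z (h | h) (h' | h')
    · exact Set.disjoint_left.1 hd h.1 h'.1
    · exact Set.disjoint_left.1 hd h.1 h'.1
    · exact Set.disjoint_left.1 hd h.1 h'.1
    · exact Set.disjoint_left.1 hd h.1 h'.1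
  · exact (hVm.prod hKm).union (hVm.prod hVm)

lemma swap_int (F : ℝ × ℝ → ℝ) (S T : Set ℝ) :
    ∫ z in S ×ˢ T, F z = ∫ z in T ×ˢ S, F (z.2, z.1) := by
  have h := (Measure.measurePreserving_swap (μ := (volume : Measure ℝ))
    (ν := (volume : Measure ℝ))).setIntegral_preimage_emb MeasurableEquiv.prodComm.measurableEmbedding
    F (S ×ˢ T)
  rw [Set.preimage_swap_prod] at h
  exact h.symm

/-! ### The axis -/

lemma e3_0 : e3 0 = 0 := by simp [e3]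

lemma e3_1 : e3 1 = 0 := by simp [e3]

lemma e3_2 : e3 2 = 1 := by simp [e3]

lemma norm_e3 : ‖e3‖ = 1 := by
  rw [EuclideanSpace.norm_eq, Fin.sum_univ_three, e3_0, e3_1, e3_2]
  simp

lemma axis_eq {x : E3} (h0 : x 0 = 0) (h1 : x 1 = 0) : x = x 2 • e3 := by
  ext i
  fin_cases i
  · change x 0 = (x 2 • e3) 0
    rw [h0]
    simp [e3_0]
  · change x 1 = (x 2 • e3) 1
    rw [h1]
    simp [e3_1]
  · change x 2 = (x 2 • e3) 2
    simp [e3_2]

lemma norm_axis {x : E3} (h0 : x 0 = 0) (h1 : x 1 = 0) : ‖x‖ = |x 2| := by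
  conv_lhs => rw [axis_eq h0 h1]
  rw [norm_smul, norm_e3, mul_one, Real.norm_eq_abs]

lemma qf_smul (x a y e : E3) {b : ℝ} (hb : 0 < b) : qf x a y (b • e) = b * qf x a y e := by
  unfold qf
  rw [norm_smul, Real.norm_eq_abs, abs_of_pos hb, inner_smul_right, inner_smul_right]
  ring

lemma qf_axis (y y' : ℝ) : qf (y • e3) e3 (y' • e3) e3 = 0 := by
  unfold qf
  rw [← sub_smul, norm_smul, inner_smul_left, real_inner_self_eq_norm_sq, norm_e3]
  by_cases h : y - y' = 0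
  · rw [h]
    simp
  · have h2 : (‖y - y'‖ * 1) ^ 2 = (y - y') ^ 2 := by
      rw [mul_one, Real.norm_eq_abs, sq_abs]
    rw [h2]
    simp only [one_pow, mul_one, conj_trivial]
    field_simp
    ring

lemma qf_axis' (hsym : ∀ x a y b : E3, qf x a y b = qf y b x a) (y y' : ℝ) {b b' : ℝ} (hb : 0 < b)
    (hb' : 0 < b') : qf (y • e3) (b • e3) (y' • e3) (b' • e3) = 0 := by
  rw [qf_smul _ _ _ _ hb', hsym, qf_smul _ _ _ _ hb, qf_axis, mul_zero, mul_zero]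

lemma comp_deriv {H : ℝ → E3} {d : E3} {t : ℝ} (h : HasDerivAt H d t) (i : Fin 3) :
    HasDerivAt (fun s => H s i) (d i) t :=
  (EuclideanSpace.proj i : E3 →L[ℝ] ℝ).hasFDerivAt.comp_hasDerivAt t h

end EF_aux

open EF_aux in
theorem tEF : S_DS → S_QB → S_Alg → S_Ch → S_Glue → S_Inv → S_Mir → S_EF := by
  intro hDS hQB hAlg hCh hGlue hInv hMir f ℓ t0 t2 hf hax ht2 ht20 ht0 hn0 hn2 hA1 hA2
  obtain ⟨hsym, -, -, -, -, -, htr⟩ := hAlg
  obtain ⟨-, hii, -, -, hdn, -, -, -, -, hdi, hqi, -⟩ := hInv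
  obtain ⟨hhK, hhf, hhl⟩ := hGlue f ℓ t2 hf hax.kn ht2 hn0 hn2
  set h := glue f ℓ with hh
  set q := f (1 / 2) with hq
  have hlq : ℓ (1 / 2) = q := hax.half
  have hphl : ph ℓ = ph f := by
    unfold ph
    rw [hax.zero, hax.half]
  have h12 : h (1 / 2) = q := hhf _ ⟨by norm_num, le_rfl⟩
  have h00 : h 0 = f 0 := hhf _ ⟨le_rfl, by norm_num⟩
  have ht0' : 0 < t0 := lt_of_lt_of_le ht2 ht20
  -- the exceptional point
  have hne : ∀ t ∈ Icc (0 : ℝ) 1, t ≠ 1 / 2 → h t ≠ q := by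
    intro t ht htn he
    rw [← h12] at he
    obtain ⟨n, hn⟩ := hhK.inj _ _ he
    have h1 : (n : ℝ) < 1 := by linarith [ht.1]
    have h2 : (-1 : ℝ) < n := by linarith [ht.2]
    have h3 : n < 1 := by exact_mod_cast h1
    have h4 : -1 < n := by exact_mod_cast h2
    have h5 : n = 0 := by omega
    apply htn
    rw [hn, h5]
    simp
  -- the chart
  set Hc : ℝ → E3 := fun t => inv (h t - q) - ph f with hHc
  set D : ℝ → E3 := fun t => dinv (h t - q) (deriv h t) with hD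
  have hdh : ∀ t, HasDerivAt h (deriv h t) t := fun t =>
    ((hhK.smooth.differentiable (by simp)) t).hasDerivAt
  have hHD : ∀ t, h t ≠ q → HasDerivAt Hc (D t) t := by
    intro t ht
    have h1 : HasDerivAt (fun s => h s - q) (deriv h t) t := (hdh t).sub_const q
    exact (hdi (fun s => h s - q) (deriv h t) t (sub_ne_zero.2 ht) h1).sub_const (ph f)
  have hD0 : ∀ t, h t ≠ q → D t ≠ 0 := by
    intro t ht h1
    have h2 := hdn (h t - q) (deriv h t) (sub_ne_zero.2 ht)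
    rw [show dinv (h t - q) (deriv h t) = 0 from h1, norm_zero] at h2
    have h3 : ‖h t - q‖ ≠ 0 := norm_ne_zero_iff.2 (sub_ne_zero.2 ht)
    have h4 : ‖deriv h t‖ ≠ 0 := norm_ne_zero_iff.2 (hhK.regular t)
    exact (div_ne_zero h4 (pow_ne_zero 2 h3)) h2.symm
  have hQc : ∀ s t, h s ≠ q → h t ≠ q → Q h s t = qf (Hc s) (D s) (Hc t) (D t) := by
    intro s t hs ht
    have h1 := hqi (h s - q) (deriv h s) (h t - q) (deriv h t) (sub_ne_zero.2 hs) (sub_ne_zero.2 ht)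
    have h2 := htr (-q) (h s) (deriv h s) (h t) (deriv h t)
    have h3 := htr (-ph f) (inv (h s - q)) (D s) (inv (h t - q)) (D t)
    rw [← sub_eq_add_neg, ← sub_eq_add_neg] at h2 h3
    change qf (h s) (deriv h s) (h t) (deriv h t) = _
    rw [← h2, ← h1]
    exact h3.symm
  have hHinj : ∀ s t, h s ≠ q → h t ≠ q → Hc s = Hc t → h s = h t := by
    intro s t hs ht he
    have h1 : inv (h s - q) = inv (h t - q) := sub_left_injective he
    have h2 := congrArg inv h1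
    rw [hii _ (sub_ne_zero.2 hs), hii _ (sub_ne_zero.2 ht)] at h2
    exact sub_left_injective h2
  obtain ⟨-, -, -, -, -, -, -, -, hF, -, -, -, hpos, -, -, hTf⟩ := hCh f hf
  obtain ⟨-, -, -, -, -, -, -, -, -, hFper, hFneg, -, hposl, -, -, hTl⟩ := hCh ℓ hax.kn
  -- the upper half
  have hup : ∀ t ∈ Icc (0 : ℝ) (1 / 2), Hc t = Fc f t := by
    intro t ht
    change inv (h t - q) - ph f = inv (f t - f (1 / 2)) - ph f
    rw [hhf t ht]
  have hdup : ∀ t ∈ Ioo (0 : ℝ) (1 / 2), deriv (Fc f) t = D t := by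
    intro t ht
    have h1 : HasDerivAt Hc (D t) t := hHD t (hne t ⟨ht.1.le, by linarith [ht.2]⟩ ht.2.ne)
    have h2 : Hc =ᶠ[𝓝 t] Fc f := by
      filter_upwards [Ioo_mem_nhds ht.1 ht.2] with s hs
      exact hup s ⟨hs.1.le, hs.2.le⟩
    exact (h1.congr_of_eventuallyEq h2.symm).deriv
  -- the lower half
  have hlo : ∀ t ∈ Icc (1 / 2 : ℝ) 1, Hc t = Fc ℓ t := by
    intro t ht
    change inv (h t - q) - ph f = inv (ℓ t - ℓ (1 / 2)) - ph ℓ
    rw [hhl t ht, hlq, hphl]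
  have hlo' : ∀ t ∈ Ioo (1 / 2 : ℝ) 1, (Hc t) 0 = 0 ∧ (Hc t) 1 = 0 ∧ (Hc t) 2 < 0 := by
    intro t ht
    have h1 : Fc ℓ t = mir (Fc ℓ (1 - t)) := by
      have e1 := hFneg (1 - t)
      have e2 := hFper (-(1 - t))
      rw [show -(1 - t) + 1 = t by ring] at e2
      rw [e2, e1]
    have h2 : 1 - t ∈ Ioo (0 : ℝ) (1 / 2) := ⟨by linarith [ht.2], by linarith [ht.1]⟩
    obtain ⟨h3, h4⟩ := hax.axis _ h2
    have h5 := hposl _ h2
    rw [hlo t ⟨ht.1.le, ht.2.le⟩, h1]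
    refine ⟨?_, ?_, ?_⟩
    · simpa [mir] using h3
    · simpa [mir] using h4
    · simpa [mir] using h5
  -- the sets
  set K : Set ℝ := Ioo t0 (1 / 2 - t0) with hK
  set V1 : Set ℝ := Ioo 0 t0 with hV1
  set V2 : Set ℝ := Ioo (1 / 2 - t0) (1 / 2) with hV2
  set V3 : Set ℝ := Ioo (1 / 2) 1 with hV3
  set V : Set ℝ := (V1 ∪ V2) ∪ V3 with hV
  have hVm : MeasurableSet V := (measurableSet_Ioo.union measurableSet_Ioo).union measurableSet_Ioo
  have hVo : IsOpen V := (isOpen_Ioo.union isOpen_Ioo).union isOpen_Ioo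
  have hK1 : K ⊆ Ioo (0 : ℝ) (1 / 2) := fun t ht => ⟨by linarith [ht.1], by linarith [ht.2]⟩
  have hV1' : V1 ⊆ Ioo (0 : ℝ) (1 / 2) := fun t ht => ⟨ht.1, by linarith [ht.2]⟩
  have hV2' : V2 ⊆ Ioo (0 : ℝ) (1 / 2) := fun t ht => ⟨by linarith [ht.1], ht.2⟩
  have hVI : ∀ t ∈ V, t ∈ Ioo (0 : ℝ) 1 ∧ t ≠ 1 / 2 := by
    rintro t ((ht | ht) | ht)
    · exact ⟨⟨ht.1, by linarith [ht.2]⟩, by linarith [ht.2] |> ne_of_lt⟩
    · exact ⟨⟨by linarith [ht.1], by linarith [ht.2]⟩, ht.2.ne⟩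
    · exact ⟨⟨by linarith [ht.1], ht.2⟩, ht.1.ne'⟩
  have hVq : ∀ t ∈ V, h t ≠ q := fun t ht =>
    hne t (Ioo_subset_Icc_self (hVI t ht).1) (hVI t ht).2
  have hKq : ∀ t ∈ K, h t ≠ q := fun t ht =>
    hne t ⟨(hK1 ht).1.le, by linarith [(hK1 ht).2]⟩ (hK1 ht).2.ne
  -- the axis
  have hVax : ∀ t ∈ V, (Hc t) 0 = 0 ∧ (Hc t) 1 = 0 := by
    rintro t ((ht | ht) | ht)
    · rw [hup t (Ioo_subset_Icc_self (hV1' ht))]
      exact hA1 t ⟨ht.1, ht.2.le⟩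
    · rw [hup t (Ioo_subset_Icc_self (hV2' ht))]
      exact hA2 t ⟨ht.1.le, ht.2⟩
    · exact ⟨(hlo' t ht).1, (hlo' t ht).2.1⟩
  have hDax : ∀ t ∈ V, (D t) 0 = 0 ∧ (D t) 1 = 0 := by
    intro t ht
    have h1 := hHD t (hVq t ht)
    have h2 : ∀ i : Fin 3, (∀ s ∈ V, (Hc s) i = 0) → (D t) i = 0 := by
      intro i hi
      have h3 : HasDerivAt (fun s => Hc s i) 0 t := by
        refine (hasDerivAt_const t (0 : ℝ)).congr_of_eventuallyEq ?_
        filter_upwards [hVo.mem_nhds ht] with s hs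
        exact hi s hs
      exact (comp_deriv h1 i).unique h3
    exact ⟨h2 0 fun s hs => (hVax s hs).1, h2 1 fun s hs => (hVax s hs).2⟩
  have hZd : ∀ t, h t ≠ q → HasDerivAt (fun s => Hc s 2) ((D t) 2) t := fun t ht =>
    comp_deriv (hHD t ht) 2
  have hZn : ∀ t ∈ V, (D t) 2 ≠ 0 := by
    intro t ht h1
    apply hD0 t (hVq t ht)
    rw [axis_eq (hDax t ht).1 (hDax t ht).2, h1, zero_smul]
  have hZc : ∀ t ∈ Icc (0 : ℝ) 1, t ≠ 1 / 2 → ContinuousAt (fun s => Hc s 2) t := fun t ht h1 =>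
    (hZd t (hne t ht h1)).continuousAt
  have hH0 : (Hc 0) 2 = 0 := by
    have h1 : Hc 0 = 0 := by
      change inv (h 0 - q) - ph f = 0
      rw [h00]
      exact sub_self _
    rw [h1]
    rfl
  have hH1 : (Hc 1) 2 = 0 := by
    have h1 : Hc 1 = Hc 0 := by
      change inv (h 1 - q) - ph f = inv (h 0 - q) - ph f
      have := hhK.periodic 0
      rw [zero_add] at this
      rw [this]
    rw [h1, hH0]
  have s12 : (1 / 2 - t0 : ℝ) ∈ Ioo (0 : ℝ) (1 / 2) := ⟨by linarith, by linarith⟩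
  have s1 : t0 ∈ Ioo (0 : ℝ) (1 / 2) := ⟨ht0', by linarith⟩
  obtain ⟨p1, i1⟩ : (∀ t ∈ Ioo 0 t0, 0 < (D t) 2) ∧
      (fun s => Hc s 2) '' Ioo 0 t0 = Ioo ((Hc 0) 2) ((Hc t0) 2) := by
    refine im1 (g := fun s => Hc s 2) (g' := fun s => (D s) 2) ht0'
      (fun t ht => hZd t (hVq t (Or.inl (Or.inl ht)))) (fun t ht => hZn t (Or.inl (Or.inl ht)))
      (fun t ht => (hZc t ⟨ht.1, by linarith [ht.2]⟩ (by
        have := ht.2
        intro h1
        linarith)).continuousWithinAt) ?_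
    change (Hc 0) 2 < (Hc t0) 2
    rw [hH0, hup t0 ⟨s1.1.le, s1.2.le⟩]
    exact hpos t0 s1
  obtain ⟨p2, i2⟩ : (∀ t ∈ Ioo (1 / 2 - t0) (1 / 2), 0 < (D t) 2) ∧
      (fun s => Hc s 2) '' Ioo (1 / 2 - t0) (1 / 2) = Ioi ((Hc (1 / 2 - t0)) 2) := by
    refine im2 (g := fun s => Hc s 2) (g' := fun s => (D s) 2) (by linarith)
      (fun t ht => hZd t (hVq t (Or.inl (Or.inr ht)))) (fun t ht => hZn t (Or.inl (Or.inr ht)))
      (fun t ht => (hZc t ⟨by linarith [ht.1], by linarith [ht.2]⟩ ht.2.ne).continuousWithinAt) ?_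
    have h1 : Tendsto (fun t => ‖Fc f t‖) (𝓝[<] (1 / 2)) atTop :=
      hTf.mono_left (nhdsWithin_mono _ fun t (ht : t < 1 / 2) => ht.ne)
    refine h1.congr' ?_
    filter_upwards [Ioo_mem_nhdsLT (show (1 / 2 - t0 : ℝ) < 1 / 2 by linarith)] with t ht
    have h2 := hVax t (Or.inl (Or.inr ht))
    have h3 := hpos t (hV2' ht)
    rw [hup t (Ioo_subset_Icc_self (hV2' ht))] at h2 ⊢
    rw [norm_axis h2.1 h2.2, abs_of_pos h3]
  obtain ⟨p3, i3⟩ : (∀ t ∈ Ioo (1 / 2 : ℝ) 1, 0 < (D t) 2) ∧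
      (fun s => Hc s 2) '' Ioo (1 / 2 : ℝ) 1 = Iio ((Hc 1) 2) := by
    refine im3 (g := fun s => Hc s 2) (g' := fun s => (D s) 2) (by norm_num)
      (fun t ht => hZd t (hVq t (Or.inr ht))) (fun t ht => hZn t (Or.inr ht))
      (fun t ht => (hZc t ⟨by linarith [ht.1], ht.2⟩ ht.1.ne').continuousWithinAt) ?_
    have h1 : Tendsto (fun t => ‖Fc ℓ t‖) (𝓝[>] (1 / 2)) atTop :=
      hTl.mono_left (nhdsWithin_mono _ fun t (ht : 1 / 2 < t) => ht.ne')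
    have h1' : Tendsto (fun t => -‖Fc ℓ t‖) (𝓝[>] (1 / 2)) atBot := tendsto_neg_atTop_atBot.comp h1
    refine h1'.congr' ?_
    filter_upwards [Ioo_mem_nhdsGT (show (1 / 2 : ℝ) < 1 by norm_num)] with t ht
    obtain ⟨h2, h3, h4⟩ := hlo' t ht
    rw [hlo t ⟨ht.1.le, ht.2.le⟩] at h2 h3 h4 ⊢
    rw [norm_axis h2 h3, abs_of_neg h4, neg_neg]
  have hpV : ∀ t ∈ V, 0 < (D t) 2 := by
    rintro t ((ht | ht) | ht)
    · exact p1 t ht
    · exact p2 t ht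
    · exact p3 t ht
  have hHV : ∀ t ∈ V, Hc t = (Hc t) 2 • e3 := fun t ht => axis_eq (hVax t ht).1 (hVax t ht).2
  have hDV : ∀ t ∈ V, D t = (D t) 2 • e3 := fun t ht => axis_eq (hDax t ht).1 (hDax t ht).2
  set z1 := (Fc f t0) 2 with hz1
  set z2 := (Fc f (1 / 2 - t0)) 2 with hz2
  have hz1' : (Hc t0) 2 = z1 := by rw [hup t0 ⟨s1.1.le, s1.2.le⟩]
  have hz2' : (Hc (1 / 2 - t0)) 2 = z2 := by rw [hup _ ⟨s12.1.le, s12.2.le⟩]
  have hz1p : 0 < z1 := hpos t0 s1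
  have hinj : InjOn (fun s => Hc s 2) V := by
    intro s hs t ht he
    have h1 : Hc s = Hc t := by
      rw [hHV s hs, hHV t ht]
      change (Hc s) 2 = (Hc t) 2 at he
      rw [he]
    obtain ⟨n, hn⟩ := hhK.inj _ _ (hHinj s t (hVq s hs) (hVq t ht) h1)
    have a1 := (hVI s hs).1
    have a2 := (hVI t ht).1
    have h1 : (n : ℝ) < 1 := by linarith [a1.1, a2.2]
    have h2 : (-1 : ℝ) < n := by linarith [a1.2, a2.1]
    have h3 : n < 1 := by exact_mod_cast h1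
    have h4 : -1 < n := by exact_mod_cast h2
    have h5 : n = 0 := by omega
    rw [hn, h5]
    simp
  have himg : (fun s => Hc s 2) '' V =ᵐ[volume] (Iio z1 ∪ Ioi z2 : Set ℝ) := by
    rw [hV, image_union, image_union, i1, i2, i3, hH0, hH1, hz1', hz2']
    have h0 : ∀ᵐ y : ℝ, y ≠ 0 := by
      rw [ae_iff]
      simp
    filter_upwards [h0] with y hy
    apply propext
    change (y ∈ (Ioo 0 z1 ∪ Ioi z2) ∪ Iio 0) ↔ y ∈ Iio z1 ∪ Ioi z2
    simp only [mem_union, mem_Ioo, mem_Ioi, mem_Iio]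
    constructor
    · rintro ((h1 | h1) | h1)
      · exact Or.inl h1.2
      · exact Or.inr h1
      · exact Or.inl (h1.trans hz1p)
    · rintro (h1 | h1)
      · rcases lt_or_gt_of_ne hy with h2 | h2
        · exact Or.inr h2
        · exact Or.inl (Or.inl ⟨h2, h1⟩)
      · exact Or.inl (Or.inr h1)
  -- the change of variables
  have hcv : ∀ s ∈ K, (∫ t in V, Q h s t) =
      ∫ y in Iio z1 ∪ Ioi z2, qf (Fc f s) (deriv (Fc f) s) (y • e3) e3 := by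
    intro s hs
    rw [← setIntegral_congr_set himg, integral_image_eq_integral_abs_deriv_smul hVm
      (fun t ht => (hZd t (hVq t ht)).hasDerivWithinAt) hinj]
    refine setIntegral_congr_fun hVm ?_
    intro t ht
    change Q h s t = |(D t) 2| • qf (Fc f s) (deriv (Fc f) s) ((Hc t) 2 • e3) e3
    rw [hQc s t (hKq s hs) (hVq t ht), abs_of_pos (hpV t ht), smul_eq_mul,
      ← qf_smul _ _ _ _ (hpV t ht), ← hHV t ht, ← hDV t ht, hup s (Ioo_subset_Icc_self (hK1 hs)),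
      hdup s (hK1 hs)]
  -- the decomposition
  obtain ⟨-, -, hI⟩ := hQB h hhK
  have hS : (K ∪ V : Set ℝ) =ᵐ[volume] Ioo (0 : ℝ) 1 := by
    have h0 : ∀ c : ℝ, ∀ᵐ y : ℝ, y ≠ c := by
      intro c
      rw [ae_iff]
      simp
    filter_upwards [h0 t0, h0 (1 / 2 - t0), h0 (1 / 2)] with y hy1 hy2 hy3
    apply propext
    change (y ∈ K ∪ V) ↔ y ∈ Ioo (0 : ℝ) 1
    constructor
    · rintro (h1 | h1)
      · exact ⟨(hK1 h1).1, by linarith [(hK1 h1).2]⟩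
      · exact (hVI y h1).1
    · intro h1
      rcases lt_or_gt_of_ne hy1 with h2 | h2
      · exact Or.inr (Or.inl (Or.inl ⟨h1.1, h2⟩))
      rcases lt_or_gt_of_ne hy2 with h3 | h3
      · exact Or.inl ⟨h2, h3⟩
      rcases lt_or_gt_of_ne hy3 with h4 | h4
      · exact Or.inr (Or.inl (Or.inr ⟨h3, h4⟩))
      · exact Or.inr (Or.inr ⟨h4, h1.2⟩)
  have hdKV : Disjoint K V := by
    rw [Set.disjoint_left]
    rintro t ht ((h1 | h1) | h1)
    · linarith [ht.1, h1.2]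
    · linarith [ht.2, h1.1]
    · linarith [ht.2, h1.1]
  have hKS : K ⊆ Ioo (0 : ℝ) 1 := fun t ht => ⟨(hK1 ht).1, by linarith [(hK1 ht).2]⟩
  have hVS : V ⊆ Ioo (0 : ℝ) 1 := fun t ht => (hVI t ht).1
  have hKm : MeasurableSet K := measurableSet_Ioo
  have hKK : ∫ z in K ×ˢ K, Q h z.1 z.2 = ∫ z in K ×ˢ K, Q f z.1 z.2 := by
    refine setIntegral_congr_fun (hKm.prod hKm) ?_
    rintro ⟨s, t⟩ ⟨hs, ht⟩
    change Q h s t = Q f s t
    have hd : ∀ t ∈ Ioo (0 : ℝ) (1 / 2), deriv h t = deriv f t := by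
      intro t ht
      refine Filter.EventuallyEq.deriv_eq ?_
      filter_upwards [Ioo_mem_nhds ht.1 ht.2] with s hs
      exact hhf s ⟨hs.1.le, hs.2.le⟩
    unfold Q
    rw [hhf s (Ioo_subset_Icc_self (hK1 hs)), hhf t (Ioo_subset_Icc_self (hK1 ht)), hd s (hK1 hs),
      hd t (hK1 ht)]
  have hVV : ∫ z in V ×ˢ V, Q h z.1 z.2 = 0 := by
    rw [← integral_zero (ℝ × ℝ) ℝ (μ := volume.restrict (V ×ˢ V))]
    refine setIntegral_congr_fun (hVm.prod hVm) ?_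
    rintro ⟨s, t⟩ ⟨hs, ht⟩
    change Q h s t = 0
    rw [hQc s t (hVq s hs) (hVq t ht), hHV s hs, hDV s hs, hHV t ht, hDV t ht]
    exact qf_axis' hsym _ _ (hpV s hs) (hpV t ht)
  have hVK : ∫ z in V ×ˢ K, Q h z.1 z.2 = ∫ z in K ×ˢ V, Q h z.1 z.2 := by
    rw [swap_int]
    refine setIntegral_congr_fun (hKm.prod hVm) ?_
    rintro ⟨s, t⟩ -
    exact hsym _ _ _ _
  have hKV : ∫ z in K ×ˢ V, Q h z.1 z.2 = ∫ s in K, ∫ y in Iio z1 ∪ Ioi z2,
      qf (Fc f s) (deriv (Fc f) s) (y • e3) e3 := by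
    have h1 : IntegrableOn (fun z : ℝ × ℝ => Q h z.1 z.2) (K ×ˢ V)
        ((volume : Measure ℝ).prod volume) := hI.mono_set (Set.prod_mono hKS hVS)
    have h2 := setIntegral_prod (fun z : ℝ × ℝ => Q h z.1 z.2) h1
    rw [← Measure.volume_eq_prod] at h2
    rw [h2]
    exact setIntegral_congr_fun hKm fun s hs => hcv s hs
  rw [hDS h hhK, split2 _ hKm hVm hdKV hS hKS hVS hI, hKK, hVV, hVK, hKV]
  ring

end MP_e78765_gt
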