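import Pool.Agent.Lib.MP_e78765_gt.Spec3

/-!
# Module EH: the push does not change the energy of the half-straight knot
-/

set_option autoImplicit false

open scoped ContDiff Topology
open MeasureTheory Set Filter

namespace MP_e78765_gt

namespace EH_aux

lemma e3_0 : e3 0 = 0 := by simp [e3]
lemma e3_1 : e3 1 = 0 := by simp [e3]
lemma e3_2 : e3 2 = 1 := by simp [e3]

lemma ps_0 (ε c b : ℝ) (x : E3) : ps ε c b x 0 = x 0 := by
  rw [ps, PiLp.add_apply, PiLp.smul_apply, e3_0]; simp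
lemma ps_1 (ε c b : ℝ) (x : E3) : ps ε c b x 1 = x 1 := by
  rw [ps, PiLp.add_apply, PiLp.smul_apply, e3_1]; simp

lemma Fc_eq {r ℓ : ℝ → E3} (h0 : ℓ 0 = r 0) (h2 : ℓ (1 / 2) = r (1 / 2)) {t : ℝ}
    (h : ℓ t = r t) : Fc r t = Fc ℓ t := by
  unfold Fc ch ph
  rw [h0, h2, h]

end EH_aux

open EH_aux in
theorem tEH : S_EF → S_Ra → S_Ch → S_Ps → S_Cut → S_Alg → S_EH := by
  intro hEF hRa hCh hPs hCut hAlg r ℓ t0 t1 ε c a hS
  obtain ⟨hkn, hax, ht0, ht01, ht1, hn0, hn2, hc0, hc1, hcone, hok, hin, hout⟩ := hS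
  obtain ⟨hgk, hg0, hg2, ⟨t2, ht2, ht20, hgn0, hgn2⟩, hgq, hgF⟩ :=
    hRa r ℓ t0 t1 ε c a ⟨hkn, hax, ht0, ht01, ht1, hn0, hn2, hc0, hc1, hcone, hok, hin, hout⟩
  set g : ℝ → E3 := ra ε c a r with hg
  have hε := hok.1
  obtain ⟨-, -, -, -, hps5, -, -⟩ := hPs ε c a hok hc0 hc1
  have hcut4 := (hCut ε hε).2.2.2.1
  have hax2 := hax.axis
  -- parameters
  have hhalf : ∀ t, t ∈ Ioo (0 : ℝ) (1 / 2) → r t ≠ r (1 / 2) := by
    intro t ht h
    obtain ⟨n, hn⟩ := ((hCh r hkn).2.2.2.2.1 t).1 h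
    have h1 : (n : ℝ) = t - 1 / 2 := by linarith
    have h2 : (-1 : ℝ) < n := by rw [h1]; linarith [ht.1]
    have h3 : (n : ℝ) < 0 := by rw [h1]; linarith [ht.2]
    have h4 : (-1 : ℤ) < n := by exact_mod_cast h2
    have h5 : n < (0 : ℤ) := by exact_mod_cast h3
    omega
  -- the axis near the ends, for `r`
  have hra1 : ∀ t ∈ Ioc (0 : ℝ) t0, (Fc r t) 0 = 0 ∧ (Fc r t) 1 = 0 := by
    intro t ht
    have h1 : ℓ t = r t := hn0 t (by rw [abs_of_pos ht.1]; linarith [ht.2])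
    rw [Fc_eq hax.zero hax.half h1]
    exact hax2 t ⟨ht.1, by linarith [ht.2]⟩
  have hra2 : ∀ t ∈ Ico (1 / 2 - t0) (1 / 2 : ℝ), (Fc r t) 0 = 0 ∧ (Fc r t) 1 = 0 := by
    intro t ht
    have h1 : ℓ t = r t := hn2 t (by rw [abs_of_neg (by linarith [ht.2])]; linarith [ht.1])
    rw [Fc_eq hax.zero hax.half h1]
    exact hax2 t ⟨by linarith [ht.1], ht.2⟩
  -- the pushed knot in the chart
  have hgF2 : ∀ t ∈ Icc t0 (1 / 2 - t0), Fc g t = Fc r t + a • e3 := by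
    intro t ht
    have ht' : t ∈ Ioo (0 : ℝ) (1 / 2) := ⟨by linarith [ht.1], by linarith [ht.2]⟩
    rw [hgF t (hhalf t ht'), hps5 a _ (hcone t ht'), hcut4 _ (hin t ht) (hout t ht), mul_one]
  have hgax : Axial g ℓ :=
    ⟨hax.kn, hax.zero.trans hg0.symm, hax.half.trans hg2.symm, hax2⟩
  have hga1 : ∀ t ∈ Ioc (0 : ℝ) t0, (Fc g t) 0 = 0 ∧ (Fc g t) 1 = 0 := by
    intro t ht
    rw [hgF t (hhalf t ⟨ht.1, by linarith [ht.2]⟩), ps_0, ps_1]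
    exact hra1 t ht
  have hga2 : ∀ t ∈ Ico (1 / 2 - t0) (1 / 2 : ℝ), (Fc g t) 0 = 0 ∧ (Fc g t) 1 = 0 := by
    intro t ht
    rw [hgF t (hhalf t ⟨by linarith [ht.1], ht.2⟩), ps_0, ps_1]
    exact hra2 t ht
  have E1 := hEF r ℓ t0 t0 hkn hax ht0 le_rfl (by linarith)
    (fun t ht => hn0 t (by linarith)) (fun t ht => hn2 t (by linarith)) hra1 hra2
  have E2 := hEF g ℓ t0 t2 hgk hgax ht2 ht20 (by linarith)
    (fun t ht => (hn0 t (by linarith)).trans (hgn0 t ht).symm)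
    (fun t ht => (hn2 t (by linarith)).trans (hgn2 t ht).symm) hga1 hga2
  -- derivatives
  have hder : ∀ s ∈ Ioo t0 (1 / 2 - t0), deriv (Fc g) s = deriv (Fc r) s := by
    intro s hs
    have h1 : Fc g =ᶠ[𝓝 s] fun t => Fc r t + a • e3 := by
      filter_upwards [Ioo_mem_nhds hs.1 hs.2] with t ht
      exact hgF2 t (Ioo_subset_Icc_self ht)
    rw [h1.deriv_eq, deriv_add_const]
  have hgne : ∀ s ∈ Ioo t0 (1 / 2 - t0), g s ≠ g (1 / 2) := by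
    intro s hs h
    rw [hg2] at h
    exact hhalf s ⟨by linarith [hs.1], by linarith [hs.2]⟩ ((hgq s).1 h)
  have hrne : ∀ s ∈ Ioo t0 (1 / 2 - t0), r s ≠ r (1 / 2) := fun s hs =>
    hhalf s ⟨by linarith [hs.1], by linarith [hs.2]⟩
  obtain ⟨-, -, -, -, -, -, hQt⟩ := hAlg
  have hQ : ∀ s ∈ Ioo t0 (1 / 2 - t0), ∀ t ∈ Ioo t0 (1 / 2 - t0), Q g s t = Q r s t := by
    intro s hs t ht
    have h1 := (hCh g hgk).2.2.2.2.2.2.2.2.2.2.2.2.2.2.1 s t (hgne s hs) (hgne t ht)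
    have h2 := (hCh r hkn).2.2.2.2.2.2.2.2.2.2.2.2.2.2.1 s t (hrne s hs) (hrne t ht)
    rw [h1, h2, hgF2 s (Ioo_subset_Icc_self hs), hgF2 t (Ioo_subset_Icc_self ht), hder s hs,
      hder t ht, hQt]
  have I1 : (∫ z in Ioo t0 (1 / 2 - t0) ×ˢ Ioo t0 (1 / 2 - t0), Q g z.1 z.2) =
      ∫ z in Ioo t0 (1 / 2 - t0) ×ˢ Ioo t0 (1 / 2 - t0), Q r z.1 z.2 := by
    refine setIntegral_congr_fun (measurableSet_Ioo.prod measurableSet_Ioo) ?_
    intro z hz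
    exact hQ z.1 hz.1 z.2 hz.2
  have hz1 : (Fc g t0) 2 = (Fc r t0) 2 + a := by
    rw [hgF2 t0 ⟨le_rfl, by linarith⟩, PiLp.add_apply, PiLp.smul_apply, e3_2]
    simp
  have hz2 : (Fc g (1 / 2 - t0)) 2 = (Fc r (1 / 2 - t0)) 2 + a := by
    rw [hgF2 (1 / 2 - t0) ⟨by linarith, le_rfl⟩, PiLp.add_apply, PiLp.smul_apply, e3_2]
    simp
  have I2 : (∫ s in Ioo t0 (1 / 2 - t0),
      ∫ y in Iio ((Fc g t0) 2) ∪ Ioi ((Fc g (1 / 2 - t0)) 2),
        qf (Fc g s) (deriv (Fc g) s) (y • e3) e3) =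
      ∫ s in Ioo t0 (1 / 2 - t0),
      ∫ y in Iio ((Fc r t0) 2) ∪ Ioi ((Fc r (1 / 2 - t0)) 2),
        qf (Fc r s) (deriv (Fc r) s) (y • e3) e3 := by
    refine setIntegral_congr_fun measurableSet_Ioo ?_
    intro s hs
    simp only
    have h1 := (measurePreserving_add_right (volume : Measure ℝ) a).setIntegral_preimage_emb
      (measurableEmbedding_addRight a)
      (fun y : ℝ => qf (Fc g s) (deriv (Fc g) s) (y • e3) e3)
      (Iio ((Fc g t0) 2) ∪ Ioi ((Fc g (1 / 2 - t0)) 2))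
    rw [← h1]
    have h2 : (fun y : ℝ => y + a) ⁻¹' (Iio ((Fc g t0) 2) ∪ Ioi ((Fc g (1 / 2 - t0)) 2)) =
        Iio ((Fc r t0) 2) ∪ Ioi ((Fc r (1 / 2 - t0)) 2) := by
      ext y
      simp only [mem_preimage, mem_union, mem_Iio, mem_Ioi, hz1, hz2, add_lt_add_iff_right]
    rw [h2]
    refine setIntegral_congr_fun (measurableSet_Iio.union measurableSet_Ioi) ?_
    intro y _
    simp only
    rw [hgF2 s (Ioo_subset_Icc_self hs), hder s hs, add_smul, hQt]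
  rw [E1, E2, I1, I2]

end MP_e78765_gt
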