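import Pool.Agent.Lib.MP_e78765_gt.Spec3

/-!
# THEOREM R2, module Ell: the axial knot with prescribed velocities
-/

set_option autoImplicit false

open scoped ContDiff Topology
open MeasureTheory Set Filter

namespace MP_e78765_gt

namespace Ell_aux

/-- A diffeomorphism of the circle, `u ↦ u - 2 arg (1 - κ e^(iu))`. -/
noncomputable def gk (κ u : ℝ) : ℝ :=
  u + 2 * Real.arctan (κ * Real.sin u / (1 - κ * Real.cos u))

theorem den_pos {κ : ℝ} (h : |κ| < 1) (u : ℝ) : 0 < 1 - κ * Real.cos u := by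
  have h1 : κ * Real.cos u ≤ |κ| := by
    refine (le_abs_self _).trans ?_
    rw [abs_mul]
    exact mul_le_of_le_one_right (abs_nonneg _) (Real.abs_cos_le_one u)
  linarith

theorem gk_smooth {κ : ℝ} (h : |κ| < 1) : ContDiff ℝ ∞ (gk κ) := by
  unfold gk
  refine contDiff_id.add (contDiff_const.mul (Real.contDiff_arctan.comp ?_))
  exact ContDiff.div (contDiff_const.mul Real.contDiff_sin)
    (contDiff_const.sub (contDiff_const.mul Real.contDiff_cos)) (fun u => (den_pos h u).ne')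

theorem den2_pos {κ : ℝ} (h : |κ| < 1) (u : ℝ) : 0 < 1 - 2 * κ * Real.cos u + κ ^ 2 := by
  have h1 := den_pos h u
  nlinarith [Real.sin_sq_add_cos_sq u, sq_nonneg (κ * Real.sin u)]

theorem gk_deriv {κ : ℝ} (h : |κ| < 1) (u : ℝ) :
    HasDerivAt (gk κ) ((1 - κ ^ 2) / (1 - 2 * κ * Real.cos u + κ ^ 2)) u := by
  have h1 := den_pos h u
  have h2 := den2_pos h u
  have hs := ((Real.hasDerivAt_sin u).const_mul κ)
  have hc := ((Real.hasDerivAt_cos u).const_mul κ).const_sub 1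
  have hd := (hs.div hc h1.ne').arctan.const_mul 2
  have hf := (hasDerivAt_id u).add hd
  have h3 := Real.sin_sq_add_cos_sq u
  have h4 : 1 + (κ * Real.sin u / (1 - κ * Real.cos u)) ^ 2 =
      (1 - 2 * κ * Real.cos u + κ ^ 2) / (1 - κ * Real.cos u) ^ 2 := by
    rw [div_pow, eq_div_iff (pow_pos h1 2).ne', add_mul, div_mul_cancel₀ _ (pow_pos h1 2).ne']
    linear_combination κ ^ 2 * h3
  refine (show HasDerivAt (gk κ) _ u from hf).congr_deriv ?_
  show 1 + 2 * (1 / (1 + (κ * Real.sin u / (1 - κ * Real.cos u)) ^ 2) *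
    ((κ * Real.cos u * (1 - κ * Real.cos u) - κ * Real.sin u * -(κ * -Real.sin u)) /
      (1 - κ * Real.cos u) ^ 2)) = _
  rw [h4]
  field_simp
  linear_combination (-2 * κ ^ 2) * h3

theorem gk_add (κ u : ℝ) : gk κ (u + 2 * Real.pi) = gk κ u + 2 * Real.pi := by
  unfold gk
  rw [Real.sin_add_two_pi, Real.cos_add_two_pi]
  ring

theorem gk_neg (κ u : ℝ) : gk κ (-u) = -gk κ u := by
  unfold gk
  rw [Real.sin_neg, Real.cos_neg, mul_neg, neg_div, Real.arctan_neg]
  ring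

theorem exists_g {lam : ℝ} (hl : 0 < lam) : ∃ g : ℝ → ℝ, ContDiff ℝ ∞ g ∧ (∀ u, 0 < deriv g u) ∧
    (∀ u, g (u + 2 * Real.pi) = g u + 2 * Real.pi) ∧ (∀ u, g (-u) = -g u) ∧ g 0 = 0 ∧
    g Real.pi = Real.pi ∧ deriv g 0 = lam ∧ deriv g Real.pi = lam⁻¹ := by
  have h1 : 0 < lam + 1 := by linarith
  have hk : |(lam - 1) / (lam + 1)| < 1 := by
    rw [abs_div, abs_of_pos h1, div_lt_one h1, abs_lt]
    constructor <;> linarith
  have hk2 := abs_lt.mp hk
  have hd : ∀ u, deriv (gk ((lam - 1) / (lam + 1))) u = _ := fun u => (gk_deriv hk u).deriv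
  refine ⟨gk ((lam - 1) / (lam + 1)), gk_smooth hk, fun u => ?_, gk_add _, gk_neg _, ?_, ?_, ?_, ?_⟩
  · rw [hd]
    refine div_pos ?_ (den2_pos hk u)
    nlinarith [hk2.1, hk2.2]
  · simp [gk]
  · simp [gk]
  · rw [hd, Real.cos_zero]
    have e : 1 - 2 * ((lam - 1) / (lam + 1)) * 1 + ((lam - 1) / (lam + 1)) ^ 2 =
      4 / (lam + 1) ^ 2 := by
      field_simp
      ring
    rw [e]
    field_simp
    ring
  · rw [hd, Real.cos_pi]
    have e : 1 - 2 * ((lam - 1) / (lam + 1)) * -1 + ((lam - 1) / (lam + 1)) ^ 2 =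
      4 * lam ^ 2 / (lam + 1) ^ 2 := by
      field_simp
      ring
    rw [e]
    field_simp
    ring

theorem exists_theta {A B : ℝ} (hA : 0 < A) (hB : 0 < B) : ∃ θ : ℝ → ℝ, ContDiff ℝ ∞ θ ∧
    (∀ t, 0 < deriv θ t) ∧ (∀ t, θ (t + 1) = θ t + 2 * Real.pi) ∧ (∀ t, θ (-t) = -θ t) ∧
    θ 0 = 0 ∧ θ (1 / 2) = Real.pi ∧ deriv θ 0 = A ∧ deriv θ (1 / 2) = B := by
  have hpi := Real.pi_pos
  obtain ⟨g, g1, g2, g3, g4, g5, g6, g7, g8⟩ := exists_g (lam := Real.sqrt (A / B))
    (Real.sqrt_pos.mpr (div_pos hA hB))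
  obtain ⟨f, f1, f2, f3, f4, f5, f6, f7, f8⟩ := exists_g (lam := Real.sqrt (A * B) / (2 * Real.pi))
    (div_pos (Real.sqrt_pos.mpr (mul_pos hA hB)) (by positivity))
  have fd : ∀ u, HasDerivAt f (deriv f u) u := fun u =>
    (f1.differentiable (by simp)).differentiableAt.hasDerivAt
  have gd : ∀ u, HasDerivAt g (deriv g u) u := fun u =>
    (g1.differentiable (by simp)).differentiableAt.hasDerivAt
  have hd : ∀ t, HasDerivAt (fun t => g (f (4 * Real.pi * t) / 2))
      (deriv g (f (4 * Real.pi * t) / 2) * (deriv f (4 * Real.pi * t) * (4 * Real.pi) / 2)) t := by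
    intro t
    have e1 : HasDerivAt (fun t : ℝ => 4 * Real.pi * t) (4 * Real.pi) t := by
      simpa using (hasDerivAt_id t).const_mul (4 * Real.pi)
    exact (gd _).comp t (((fd _).comp t e1).div_const 2)
  have hf2 : f (2 * Real.pi) = 2 * Real.pi := by
    have h := f3 0
    rw [zero_add, f5, zero_add] at h
    exact h
  have hdf2 : deriv f (2 * Real.pi) = deriv f 0 := by
    have h1 : (fun u => f (u + 2 * Real.pi)) = fun u => f u + 2 * Real.pi := funext f3
    have h2 : HasDerivAt (fun u => f (u + 2 * Real.pi)) (deriv f (0 + 2 * Real.pi)) 0 :=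
      HasDerivAt.comp_add_const 0 (2 * Real.pi) (fd _)
    rw [h1] at h2
    have h3 := h2.unique ((fd 0).add_const (2 * Real.pi))
    rw [zero_add] at h3
    exact h3
  have hAB : Real.sqrt (A / B) * Real.sqrt (A * B) = A := by
    rw [← Real.sqrt_mul (div_pos hA hB).le]
    have e : A / B * (A * B) = A ^ 2 := by field_simp
    rw [e, Real.sqrt_sq hA.le]
  have hAB' : (Real.sqrt (A / B))⁻¹ * Real.sqrt (A * B) = B := by
    rw [← Real.sqrt_inv, ← Real.sqrt_mul (inv_nonneg.mpr (div_pos hA hB).le)]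
    have e : (A / B)⁻¹ * (A * B) = B ^ 2 := by field_simp
    rw [e, Real.sqrt_sq hB.le]
  refine ⟨fun t => g (f (4 * Real.pi * t) / 2), ?_, ?_, ?_, ?_, ?_, ?_, ?_, ?_⟩
  · exact g1.comp ((f1.comp (contDiff_const.mul contDiff_id)).div_const 2)
  · intro t
    rw [(hd t).deriv]
    have := g2 (f (4 * Real.pi * t) / 2)
    have := f2 (4 * Real.pi * t)
    positivity
  · intro t
    have e : f (4 * Real.pi * (t + 1)) = f (4 * Real.pi * t) + 4 * Real.pi := by
      have e1 : 4 * Real.pi * (t + 1) = 4 * Real.pi * t + 2 * Real.pi + 2 * Real.pi := by ring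
      rw [e1, f3, f3]
      ring
    show g (f (4 * Real.pi * (t + 1)) / 2) = _
    rw [e, add_div, show 4 * Real.pi / 2 = 2 * Real.pi by ring, g3]
  · intro t
    show g (f (4 * Real.pi * -t) / 2) = _
    rw [mul_neg, f4, neg_div, g4]
  · show g (f (4 * Real.pi * 0) / 2) = 0
    rw [mul_zero, f5, zero_div, g5]
  · show g (f (4 * Real.pi * (1 / 2)) / 2) = _
    rw [show 4 * Real.pi * (1 / 2) = 2 * Real.pi by ring, hf2,
      show 2 * Real.pi / 2 = Real.pi by ring, g6]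
  · rw [(hd 0).deriv, mul_zero, f5, zero_div, g7, f7]
    rw [show Real.sqrt (A * B) / (2 * Real.pi) * (4 * Real.pi) / 2 = Real.sqrt (A * B) by
      field_simp; ring]
    exact hAB
  · rw [(hd (1 / 2)).deriv, show 4 * Real.pi * (1 / 2) = 2 * Real.pi by ring, hf2,
      show 2 * Real.pi / 2 = Real.pi by ring, g8, hdf2, f7]
    rw [show Real.sqrt (A * B) / (2 * Real.pi) * (4 * Real.pi) / 2 = Real.sqrt (A * B) by
      field_simp; ring]
    exact hAB'

theorem theta_int {θ : ℝ → ℝ} (h3 : ∀ t, θ (t + 1) = θ t + 2 * Real.pi) (t : ℝ) (n : ℤ) :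
    θ (t + n) = θ t + 2 * Real.pi * n := by
  have hp : Function.Periodic (fun t => θ t - 2 * Real.pi * t) 1 := by
    intro t
    show θ (t + 1) - 2 * Real.pi * (t + 1) = θ t - 2 * Real.pi * t
    rw [h3]
    ring
  have h := hp.int_mul n t
  simp only [mul_one] at h
  linarith

theorem mk_deriv {q u v : E3} {θ : ℝ → ℝ} {θ' : ℝ} {t : ℝ} (h : HasDerivAt θ θ' t) :
    HasDerivAt (fun t => q + (1 + Real.cos (θ t)) • u + Real.sin (θ t) • v)
      ((-Real.sin (θ t) * θ') • u + (Real.cos (θ t) * θ') • v) t :=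
  (((h.cos.const_add 1).smul_const u).const_add q).add (h.sin.smul_const v)

theorem mk_knot {q u v : E3} {θ : ℝ → ℝ} (hq : q 2 = 0) (hu : u 2 = 0) (hu0 : u ≠ 0)
    (hv0 : v 0 = 0) (hv1 : v 1 = 0) (hv2 : 0 < v 2) (h1 : ContDiff ℝ ∞ θ)
    (h2 : ∀ t, 0 < deriv θ t) (h3 : ∀ t, θ (t + 1) = θ t + 2 * Real.pi)
    (h4 : ∀ t, θ (-t) = -θ t) (h5 : θ 0 = 0) (h6 : θ (1 / 2) = Real.pi) :
    MirrorKnot (fun t => q + (1 + Real.cos (θ t)) • u + Real.sin (θ t) • v) := by
  have hd : ∀ t, HasDerivAt θ (deriv θ t) t := fun u =>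
    (h1.differentiable (by simp)).differentiableAt.hasDerivAt
  have hm : StrictMono θ := strictMono_of_deriv_pos h2
  have c2 : ∀ t, (q + (1 + Real.cos (θ t)) • u + Real.sin (θ t) • v) 2 =
      Real.sin (θ t) * v 2 := by
    intro t
    simp [hq, hu]
  refine ⟨⟨?_, ?_, ?_, ?_⟩, ?_, ?_⟩
  · exact (contDiff_const.add ((contDiff_const.add (Real.contDiff_cos.comp h1)).smul
      contDiff_const)).add ((Real.contDiff_sin.comp h1).smul contDiff_const)
  · intro t
    show q + (1 + Real.cos (θ (t + 1))) • u + Real.sin (θ (t + 1)) • v = _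
    rw [h3, Real.cos_add_two_pi, Real.sin_add_two_pi]
  · intro t ht
    rw [(mk_deriv (hd t)).deriv] at ht
    have e2 : Real.cos (θ t) * deriv θ t * v 2 = 0 := by
      have := congrArg (fun x : E3 => x 2) ht
      simpa [hu] using this
    have hc : Real.cos (θ t) = 0 := by
      rcases mul_eq_zero.mp e2 with h | h
      · rcases mul_eq_zero.mp h with h | h
        · exact h
        · exact absurd h (h2 t).ne'
      · exact absurd h hv2.ne'
    rw [hc, zero_mul, zero_smul, add_zero, smul_eq_zero] at ht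
    rcases ht with h | h
    · rcases mul_eq_zero.mp h with h | h
      · have := Real.sin_sq_add_cos_sq (θ t)
        rw [hc, neg_eq_zero.mp h] at this
        norm_num at this
      · exact absurd h (h2 t).ne'
    · exact hu0 h
  · intro s t hst
    have e2 : Real.sin (θ s) = Real.sin (θ t) := by
      have h := congrArg (fun x : E3 => x 2) hst
      simp only [c2] at h
      exact mul_right_cancel₀ hv2.ne' h
    have e1 : Real.cos (θ s) = Real.cos (θ t) := by
      have h : q + (1 + Real.cos (θ s)) • u + Real.sin (θ s) • v =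
        q + (1 + Real.cos (θ t)) • u + Real.sin (θ t) • v := hst
      rw [e2] at h
      have h' := add_left_cancel (add_right_cancel h)
      have h'' := smul_left_injective ℝ hu0 h'
      exact add_left_cancel h''
    have ha := Real.Angle.cos_sin_inj e1 e2
    rw [Real.Angle.angle_eq_iff_two_pi_dvd_sub] at ha
    obtain ⟨k, hk⟩ := ha
    refine ⟨-k, hm.injective ?_⟩
    rw [theta_int h3]
    push_cast
    linarith
  · intro t
    show q + (1 + Real.cos (θ (-t))) • u + Real.sin (θ (-t)) • v = mir _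
    rw [h4, Real.cos_neg, Real.sin_neg]
    ext i
    fin_cases i <;> simp [mir, hv0, hv1, hq, hu]
  · intro t ht
    show 0 < (q + (1 + Real.cos (θ t)) • u + Real.sin (θ t) • v) 2
    rw [c2]
    refine mul_pos (Real.sin_pos_of_pos_of_lt_pi ?_ ?_) hv2
    · rw [← h5]
      exact hm ht.1
    · rw [← h6]
      exact hm ht.2

theorem vel {g : ℝ → E3} {a : E3} (h : HasDerivAt g a 0) (hs : ∀ t, g (-t) = mir (g t))
    (hp : ∀ t ∈ Ioo (0 : ℝ) (1 / 2), 0 < g t 2) (ha : a ≠ 0) : a 0 = 0 ∧ a 1 = 0 ∧ 0 < a 2 := by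
  have hc : ∀ i : Fin 3, HasDerivAt (fun t => g t i) (a i) 0 := fun i =>
    (EuclideanSpace.proj i : E3 →L[ℝ] ℝ).hasFDerivAt.comp_hasDerivAt 0 h
  have hev : ∀ f : ℝ → ℝ, ∀ b : ℝ, HasDerivAt f b 0 → (∀ t, f (-t) = f t) → b = 0 := by
    intro f b hf he
    have h1 : HasDerivAt (fun t => f (-t)) (-b) 0 := by
      have h2 : HasDerivAt f b (-0) := by simpa using hf
      have h3 := h2.comp 0 (hasDerivAt_neg 0)
      rw [mul_neg_one] at h3
      exact h3
    rw [show (fun t => f (-t)) = f from funext he] at h1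
    have := hf.unique h1
    linarith
  have a0 : a 0 = 0 := hev _ _ (hc 0) (fun t => by simp [hs, mir])
  have a1 : a 1 = 0 := hev _ _ (hc 1) (fun t => by simp [hs, mir])
  have g0 : g 0 2 = 0 := by
    have := congrArg (fun x : E3 => x 2) (hs 0)
    simp only [neg_zero, mir] at this
    have h2 : g 0 2 = - g 0 2 := by simpa using this
    linarith
  have a2 : 0 ≤ a 2 := by
    refine ge_of_tendsto (hc 2).tendsto_slope_zero_right ?_
    have : ∀ᶠ t in 𝓝[>] (0 : ℝ), t ∈ Ioo (0 : ℝ) (1 / 2) := Ioo_mem_nhdsGT (by norm_num)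
    filter_upwards [this] with t ht
    rw [zero_add, g0, sub_zero, smul_eq_mul]
    exact mul_nonneg (inv_nonneg.mpr ht.1.le) (hp t ht).le
  refine ⟨a0, a1, lt_of_le_of_ne a2 (fun h2 => ha ?_)⟩
  ext i
  fin_cases i
  · simpa using a0
  · simpa using a1
  · simpa using h2.symm

theorem nsq (x : E3) : ‖x‖ ^ 2 = x 0 ^ 2 + x 1 ^ 2 + x 2 ^ 2 := by
  rw [EuclideanSpace.norm_sq_eq, Fin.sum_univ_three]
  simp

theorem inv_inv' {x : E3} (hx : x ≠ 0) : inv (inv x) = x := by
  have hn : ‖x‖ ≠ 0 := norm_ne_zero_iff.mpr hx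
  have h1 : ‖inv x‖ ^ 2 = (‖x‖ ^ 2)⁻¹ := by
    unfold inv
    rw [norm_smul, Real.norm_eq_abs, mul_pow, sq_abs]
    field_simp
  show (‖inv x‖ ^ 2)⁻¹ • inv x = x
  rw [h1, inv_inv]
  show ‖x‖ ^ 2 • (‖x‖ ^ 2)⁻¹ • x = x
  rw [smul_smul, mul_inv_cancel₀ (pow_ne_zero 2 hn), one_smul]

end Ell_aux

open Ell_aux in
theorem tEll : S_Ch → S_Ell := by
  intro hCh r hr
  obtain ⟨hr0, hr2, hP2, hP, -⟩ := hCh r hr
  set P := ph r with hPdef
  have hn : 0 < ‖P‖ := norm_pos_iff.mpr hP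
  have hdr : ∀ t, HasDerivAt r (deriv r t) t := fun u =>
    (hr.smooth.differentiable (by simp)).differentiableAt.hasDerivAt
  obtain ⟨va0, va1, va2⟩ := vel (hdr 0) hr.sym hr.pos (hr.regular 0)
  have hdb : HasDerivAt (fun s => r (1 / 2 - s)) (-deriv r (1 / 2)) 0 := by
    have h1 : HasDerivAt r (deriv r (1 / 2)) (1 / 2 - 0) := by simpa using hdr (1 / 2)
    have h2 : HasDerivAt (fun s : ℝ => 1 / 2 - s) (-1) 0 :=
      (hasDerivAt_id (0 : ℝ)).const_sub (1 / 2)
    have h3 := h1.scomp 0 h2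
    rw [neg_one_smul] at h3
    exact h3
  obtain ⟨vb0, vb1, vb2⟩ := vel hdb (fun t => by
    have e : (1 / 2 - -t : ℝ) = -(1 / 2 - t - 1) := by ring
    have e2 : r (1 / 2 - t) = r (1 / 2 - t - 1) := by
      have := hr.periodic (1 / 2 - t - 1)
      rw [sub_add_cancel] at this
      exact this
    show r (1 / 2 - -t) = mir (r (1 / 2 - t))
    rw [e, hr.sym, e2]) (fun t ht => hr.pos (1 / 2 - t) ⟨by linarith [ht.2], by linarith [ht.1]⟩)
    (neg_ne_zero.mpr (hr.regular (1 / 2)))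
  have wb0 : (deriv r (1 / 2)) 0 = 0 := by simpa using vb0
  have wb1 : (deriv r (1 / 2)) 1 = 0 := by simpa using vb1
  have wb2 : 0 < -(deriv r (1 / 2)) 2 := by simpa using vb2
  obtain ⟨θ, h1, h2, h3, h4, h5, h6, h7, h8⟩ := exists_theta
    (A := 2 * ‖P‖ * (deriv r 0) 2) (B := 2 * ‖P‖ * -(deriv r (1 / 2)) 2)
    (by positivity) (mul_pos (by positivity) wb2)
  have hd : ∀ t, HasDerivAt θ (deriv θ t) t := fun u =>
    (h1.differentiable (by simp)).differentiableAt.hasDerivAt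
  have hm : StrictMono θ := strictMono_of_deriv_pos h2
  set v : E3 := !₂[0, 0, (2 * ‖P‖)⁻¹] with hv
  set u : E3 := (2 * ‖P‖ ^ 2)⁻¹ • P with hu
  have v0 : v 0 = 0 := by simp [hv]
  have v1 : v 1 = 0 := by simp [hv]
  have v2 : v 2 = (2 * ‖P‖)⁻¹ := by simp [hv]
  have u2 : u 2 = 0 := by simp [hu, hP2]
  have hu0 : u ≠ 0 := smul_ne_zero (inv_ne_zero (by positivity)) hP
  have hk : MirrorKnot (fun t => r (1 / 2) + (1 + Real.cos (θ t)) • u + Real.sin (θ t) • v) :=
    mk_knot hr2 u2 hu0 v0 v1 (by rw [v2]; positivity) h1 h2 h3 h4 h5 h6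
  have hx : r 0 - r (1 / 2) ≠ 0 := by
    intro h
    apply hP
    rw [hPdef]
    unfold ph inv
    rw [h, smul_zero]
  have hinv : (‖P‖ ^ 2)⁻¹ • P = r 0 - r (1 / 2) := inv_inv' hx
  have hz : r (1 / 2) + (1 + Real.cos (θ 0)) • u + Real.sin (θ 0) • v = r 0 := by
    rw [h5, Real.cos_zero, Real.sin_zero, zero_smul, add_zero, hu, smul_smul,
      show (1 + 1) * (2 * ‖P‖ ^ 2)⁻¹ = (‖P‖ ^ 2)⁻¹ by field_simp; norm_num, hinv]
    abel
  have hh : r (1 / 2) + (1 + Real.cos (θ (1 / 2))) • u + Real.sin (θ (1 / 2)) • v = r (1 / 2) := by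
    rw [h6, Real.cos_pi, Real.sin_pi]
    simp
  refine ⟨_, ⟨hk, hz, hh, ?_⟩, ?_, ?_⟩
  · intro t ht
    have s1 : 0 < θ t := by
      rw [← h5]
      exact hm ht.1
    have s2 : θ t < Real.pi := by
      rw [← h6]
      exact hm ht.2
    have hs : 0 < Real.sin (θ t) := Real.sin_pos_of_pos_of_lt_pi s1 s2
    have hsc := Real.sin_sq_add_cos_sq (θ t)
    have hc : 0 < 1 + Real.cos (θ t) := by
      have := Real.neg_one_le_cos (θ t)
      rcases eq_or_lt_of_le this with h | h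
      · rw [← h] at hsc
        nlinarith
      · linarith
    have hx2 : ‖(1 + Real.cos (θ t)) • u + Real.sin (θ t) • v‖ ^ 2 =
        (1 + Real.cos (θ t)) * (2 * ‖P‖ ^ 2)⁻¹ := by
      have hPn := nsq P
      rw [hP2] at hPn
      rw [nsq]
      have e0 : ((1 + Real.cos (θ t)) • u + Real.sin (θ t) • v) 0 =
        (1 + Real.cos (θ t)) * ((2 * ‖P‖ ^ 2)⁻¹ * P 0) := by simp [hu, v0]
      have e1 : ((1 + Real.cos (θ t)) • u + Real.sin (θ t) • v) 1 =
        (1 + Real.cos (θ t)) * ((2 * ‖P‖ ^ 2)⁻¹ * P 1) := by simp [hu, v1]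
      have e2 : ((1 + Real.cos (θ t)) • u + Real.sin (θ t) • v) 2 =
        Real.sin (θ t) * (2 * ‖P‖)⁻¹ := by simp [u2, v2]
      rw [e0, e1, e2]
      have e3 : P 1 ^ 2 = ‖P‖ ^ 2 - P 0 ^ 2 := by linarith
      have e4 : Real.sin (θ t) ^ 2 = 1 - Real.cos (θ t) ^ 2 := by linarith
      rw [mul_pow, mul_pow, mul_pow (1 + Real.cos (θ t)), mul_pow _ (P 1), mul_pow _ (2 * ‖P‖)⁻¹,
        e3, e4]
      field_simp
      ring
    have hF : Fc (fun t => r (1 / 2) + (1 + Real.cos (θ t)) • u + Real.sin (θ t) • v) t =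
        ((1 + Real.cos (θ t)) * (2 * ‖P‖ ^ 2)⁻¹)⁻¹ • ((1 + Real.cos (θ t)) • u +
          Real.sin (θ t) • v) - P := by
      show inv (r (1 / 2) + (1 + Real.cos (θ t)) • u + Real.sin (θ t) • v -
        (r (1 / 2) + (1 + Real.cos (θ (1 / 2))) • u + Real.sin (θ (1 / 2)) • v)) -
        inv (r (1 / 2) + (1 + Real.cos (θ 0)) • u + Real.sin (θ 0) • v -
        (r (1 / 2) + (1 + Real.cos (θ (1 / 2))) • u + Real.sin (θ (1 / 2)) • v)) = _
      rw [hh, hz, add_assoc, add_sub_cancel_left]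
      unfold inv
      rw [hx2]
      rfl
    rw [hF]
    constructor
    · simp only [PiLp.sub_apply, PiLp.smul_apply, PiLp.add_apply, hu, v0, smul_eq_mul]
      field_simp
      ring
    · simp only [PiLp.sub_apply, PiLp.smul_apply, PiLp.add_apply, hu, v1, smul_eq_mul]
      field_simp
      ring
  · rw [(mk_deriv (hd 0)).deriv, h5, h7]
    ext i
    fin_cases i
    · simp [v0, va0]
    · simp [v1, va1]
    · simp only [Real.sin_zero, Real.cos_zero, neg_zero, zero_mul, zero_smul, zero_add, one_mul]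
      show 2 * ‖P‖ * (deriv r 0) 2 * v 2 = (deriv r 0) 2
      rw [v2]
      field_simp
  · rw [(mk_deriv (hd (1 / 2))).deriv, h6, h8]
    generalize deriv r (1 / 2) = w at wb0 wb1
    ext i
    fin_cases i
    · simp [v0, wb0]
    · simp [v1, wb1]
    · simp only [Real.sin_pi, Real.cos_pi, neg_zero, zero_mul, zero_smul, zero_add]
      show -1 * (2 * ‖P‖ * -w 2) * v 2 = w 2
      rw [v2]
      field_simp

end MP_e78765_gt
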