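import Pool.Agent.Lib.MP_e78765_gt.Spec5

/-!
# First variation of the energy (MP_e78765_gt): module FV
-/

set_option autoImplicit false

open scoped ContDiff Topology
open MeasureTheory Set Filter

namespace MP_e78765_gt

namespace FV_aux

/-- The diagonal is a null set. -/
theorem diag_null : ∀ᵐ z : ℝ × ℝ, z.1 ≠ z.2 := by
  have hm : MeasurableSet {z : ℝ × ℝ | z.1 = z.2} := measurableSet_eq_fun measurable_fst measurable_snd
  have h : (volume : Measure (ℝ × ℝ)) {z : ℝ × ℝ | z.1 = z.2} = 0 := by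
    rw [Measure.volume_eq_prod, Measure.measure_prod_null hm]
    refine Filter.Eventually.of_forall fun x => ?_
    have : Prod.mk x ⁻¹' {z : ℝ × ℝ | z.1 = z.2} = {x} := by
      ext y
      exact eq_comm
    change volume (Prod.mk x ⁻¹' {z : ℝ × ℝ | z.1 = z.2}) = 0
    rw [this]
    simp
  rw [ae_iff]
  simpa using h

theorem meas_dQ {f φ : ℝ → E3} (h1 : Measurable f) (h2 : Measurable (deriv f)) (h3 : Measurable φ)
    (h4 : Measurable (deriv φ)) : Measurable (fun z : ℝ × ℝ => dQ f φ z.1 z.2) := by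
  have a1 : Measurable (fun z : ℝ × ℝ => f z.1) := h1.comp measurable_fst
  have a2 : Measurable (fun z : ℝ × ℝ => deriv f z.1) := h2.comp measurable_fst
  have a3 : Measurable (fun z : ℝ × ℝ => φ z.1) := h3.comp measurable_fst
  have a4 : Measurable (fun z : ℝ × ℝ => deriv φ z.1) := h4.comp measurable_fst
  have b1 : Measurable (fun z : ℝ × ℝ => f z.2) := h1.comp measurable_snd
  have b2 : Measurable (fun z : ℝ × ℝ => deriv f z.2) := h2.comp measurable_snd
  have b3 : Measurable (fun z : ℝ × ℝ => φ z.2) := h3.comp measurable_snd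
  have b4 : Measurable (fun z : ℝ × ℝ => deriv φ z.2) := h4.comp measurable_snd
  unfold dQ dqf
  fun_prop

end FV_aux

open FV_aux in
theorem tFV : S_Fb → S_DQ → S_Dqf → S_DS → S_QB → S_FV := by
  intro hFb hDQ hDqf hDS hQB f a0 φ ha0 hJS hk hφ
  obtain ⟨a1, m, M, K, ψ, ha1, ha10, hm, hM, hK, H⟩ := hFb f a0 ha0 hJS hk
  obtain ⟨C, hC, hbd⟩ := hDQ m M K hm hM hK
  have h0 : (0 : ℝ) ∈ Ioo (-a1) a1 := ⟨by linarith, ha1⟩
  have hnhds : Ioo (-a1) a1 ∈ 𝓝 (0 : ℝ) := isOpen_Ioo.mem_nhds h0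
  have hψ : ψ 0 = φ := by
    funext t
    exact ((H 0 h0).2.2.2.1 t).unique (hφ t)
  have hbound : ∀ a ∈ Ioo (-a1) a1, ∀ s t, |dQ (f a) (ψ a) s t| ≤ C := by
    intro a ha s t
    obtain ⟨hkn, hsm, hper, -, -, hlow, hch, hlip, hsec, hsec2⟩ := H a ha
    exact hbd (f a) (ψ a) hkn.periodic hper hlow hch hlip hsec hsec2 s t
  have hfin : IsFiniteMeasure
      ((volume : Measure (ℝ × ℝ)).restrict (Ioo (0 : ℝ) 1 ×ˢ Ioo (0 : ℝ) 1)) := by
    constructor
    rw [Measure.restrict_apply_univ, Measure.volume_eq_prod, Measure.prod_prod]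
    simp
  have hsm0 : Measurable (fun z : ℝ × ℝ => dQ (f 0) (ψ 0) z.1 z.2) := by
    obtain ⟨hkn, hsm, -⟩ := H 0 h0
    refine meas_dQ hkn.smooth.continuous.measurable ?_ hsm.continuous.measurable ?_
    · exact (contDiff_infty_iff_deriv.1 hkn.smooth).2.continuous.measurable
    · exact (contDiff_infty_iff_deriv.1 hsm).2.continuous.measurable
  have hdiff : ∀ᵐ z : ℝ × ℝ ∂((volume : Measure (ℝ × ℝ)).restrict
      (Ioo (0 : ℝ) 1 ×ˢ Ioo (0 : ℝ) 1)), ∀ a ∈ Ioo (-a1) a1,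
      HasDerivAt (fun b => Q (f b) z.1 z.2) (dQ (f a) (ψ a) z.1 z.2) a := by
    have hms : MeasurableSet (Ioo (0 : ℝ) 1 ×ˢ Ioo (0 : ℝ) 1) := measurableSet_Ioo.prod measurableSet_Ioo
    rw [ae_restrict_iff' hms]
    filter_upwards [diag_null] with z hz hzm a ha
    obtain ⟨hkn, -, -, hda, hdda, hlow, -⟩ := H a ha
    have hne : f a z.1 ≠ f a z.2 := by
      intro he
      obtain ⟨n, hn⟩ := hkn.inj _ _ he
      have h1 := hzm.1
      have h2 := hzm.2
      have h3 : (-1 : ℝ) < n := by linarith [h1.1, h1.2, h2.1, h2.2]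
      have h4 : (n : ℝ) < 1 := by linarith [h1.1, h1.2, h2.1, h2.2]
      have h5 : (-1 : ℤ) < n := by exact_mod_cast h3
      have h6 : n < (1 : ℤ) := by exact_mod_cast h4
      have h7 : n = 0 := by omega
      rw [h7] at hn
      exact hz (by rw [hn]; simp)
    exact hDqf.2.2.1 (fun b => f b z.1) (fun b => deriv (f b) z.1) (fun b => f b z.2)
      (fun b => deriv (f b) z.2) _ _ _ _ a (hda z.1) (hdda z.1) (hda z.2) (hdda z.2) hne
      (hkn.regular _) (hkn.regular _)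
  have key := (hasDerivAt_integral_of_dominated_loc_of_deriv_le
    (μ := (volume : Measure (ℝ × ℝ)).restrict (Ioo (0 : ℝ) 1 ×ˢ Ioo (0 : ℝ) 1))
    (F := fun (a : ℝ) (z : ℝ × ℝ) => Q (f a) z.1 z.2)
    (F' := fun (a : ℝ) (z : ℝ × ℝ) => dQ (f a) (ψ a) z.1 z.2) (x₀ := (0 : ℝ))
    (s := Ioo (-a1) a1) (bound := fun _ => C) hnhds ?_ ?_ ?_ ?_ ?_ hdiff).2
  · have e : (fun a => energy (f a)) =ᶠ[𝓝 0] fun a =>
        4 + ∫ z in Ioo (0 : ℝ) 1 ×ˢ Ioo (0 : ℝ) 1, Q (f a) z.1 z.2 := by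
      filter_upwards [hnhds] with a ha
      exact hDS (f a) (H a ha).1
    rw [← hψ]
    exact (key.const_add 4).congr_of_eventuallyEq e
  · filter_upwards [hnhds] with a ha
    exact (hQB (f a) (H a ha).1).2.1.aestronglyMeasurable
  · exact (hQB (f 0) hk).2.2
  · exact hsm0.aestronglyMeasurable
  · refine Filter.Eventually.of_forall fun z a ha => ?_
    rw [Real.norm_eq_abs]
    exact hbound a ha z.1 z.2
  · exact integrable_const C

end MP_e78765_gt
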