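import Pool.Agent.Lib.MP_e78765_gt.Spec3

/-!
# Fat: the Fatou step
-/

set_option autoImplicit false

open scoped ContDiff Topology
open MeasureTheory Set Filter

namespace MP_e78765_gt

namespace Fat_aux

/-- The weight. -/
noncomputable def wt (ζ : ℂ × ℂ) : ℝ := 1 - Real.exp (-(2 * (‖ζ.1‖ ^ 2 + ‖ζ.2‖ ^ 2)))

theorem wt_cont : Continuous wt := by
  unfold wt
  fun_prop

theorem wt_nonneg (ζ : ℂ × ℂ) : 0 ≤ wt ζ := by
  unfold wt
  have : Real.exp (-(2 * (‖ζ.1‖ ^ 2 + ‖ζ.2‖ ^ 2))) ≤ 1 := by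
    apply Real.exp_le_one_iff.2
    have h1 := sq_nonneg ‖ζ.1‖
    have h2 := sq_nonneg ‖ζ.2‖
    linarith
  linarith

theorem wt_le (ζ : ℂ × ℂ) : wt ζ ≤ 1 := by
  unfold wt
  have := Real.exp_pos (-(2 * (‖ζ.1‖ ^ 2 + ‖ζ.2‖ ^ 2)))
  linarith

theorem wt_zero : wt 0 = 0 := by
  unfold wt
  simp

theorem wt_pos {ζ : ℂ × ℂ} (h : ζ ≠ 0) : 0 < wt ζ := by
  unfold wt
  have h1 : 0 < ‖ζ.1‖ ^ 2 + ‖ζ.2‖ ^ 2 := by
    by_contra hc
    have h2 := sq_nonneg ‖ζ.1‖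
    have h3 := sq_nonneg ‖ζ.2‖
    have h4 : ‖ζ.1‖ ^ 2 = 0 := by linarith
    have h5 : ‖ζ.2‖ ^ 2 = 0 := by linarith
    have h6 : ζ.1 = 0 := by simpa using h4
    have h7 : ζ.2 = 0 := by simpa using h5
    exact h (Prod.ext h6 h7)
  have : Real.exp (-(2 * (‖ζ.1‖ ^ 2 + ‖ζ.2‖ ^ 2))) < 1 := by
    apply Real.exp_lt_one_iff.2
    linarith
  linarith

/-- Fatou: if nonnegative integrable functions converge pointwise and their integrals tend to `0`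
then the limit vanishes almost everywhere. -/
theorem fatou {f : ℕ → ℂ × ℂ → ℝ} {g : ℂ × ℂ → ℝ} (hi : ∀ n, Integrable (f n))
    (h0 : ∀ n ζ, 0 ≤ f n ζ) (hl : ∀ ζ, Tendsto (fun n => f n ζ) atTop (𝓝 (g ζ)))
    (hI : Tendsto (fun n => ∫ ζ, f n ζ) atTop (𝓝 0)) : ∀ᵐ ζ : ℂ × ℂ, g ζ = 0 := by
  have hg0 : ∀ ζ, 0 ≤ g ζ := fun ζ => ge_of_tendsto' (hl ζ) fun n => h0 n ζ
  have hgm : AEMeasurable g :=
    aemeasurable_of_tendsto_metrizable_ae' (fun n => (hi n).aemeasurable)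
      (Eventually.of_forall hl)
  have hF : ∫⁻ ζ, ENNReal.ofReal (g ζ) ≤ 0 := by
    have h1 := lintegral_liminf_le' (u := atTop) (f := fun (n : ℕ) ζ => ENNReal.ofReal (f n ζ))
      (μ := (volume : Measure (ℂ × ℂ))) (fun n => (hi n).aemeasurable.ennreal_ofReal)
    have h2 : ∀ ζ, liminf (fun n => ENNReal.ofReal (f n ζ)) atTop = ENNReal.ofReal (g ζ) :=
      fun ζ => ((ENNReal.continuous_ofReal.tendsto _).comp (hl ζ)).liminf_eq
    have h3 : Tendsto (fun n => ∫⁻ ζ, ENNReal.ofReal (f n ζ)) atTop (𝓝 0) := by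
      have h4 : ∀ n, ∫⁻ ζ, ENNReal.ofReal (f n ζ) = ENNReal.ofReal (∫ ζ, f n ζ) :=
        fun n => (ofReal_integral_eq_lintegral_ofReal (hi n) (Eventually.of_forall (h0 n))).symm
      have h5 := (ENNReal.continuous_ofReal.tendsto _).comp hI
      rw [ENNReal.ofReal_zero] at h5
      refine h5.congr fun n => ?_
      rw [h4]
      rfl
    rw [h3.liminf_eq] at h1
    refine le_trans (le_of_eq ?_) h1
    exact lintegral_congr fun ζ => (h2 ζ).symm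
  have hz := (lintegral_eq_zero_iff' hgm.ennreal_ofReal).1 (le_antisymm hF bot_le)
  filter_upwards [hz] with ζ h
  have h1 : ENNReal.ofReal (g ζ) = 0 := h
  exact le_antisymm (ENNReal.ofReal_eq_zero.1 h1) (hg0 ζ)

end Fat_aux

open Fat_aux in
theorem tFat : S_Sw → S_Dc → S_Fat := by
  intro hSw hDc r ℓ δ1 hr hax hd0 hd1 hδ1 hint hlim ζ0 hζ0
  let dn : ℕ → ℝ := fun n => δ1 / ((n : ℝ) + 2)
  have hdn : ∀ n, dn n ∈ Ioo (0 : ℝ) δ1 := by
    intro n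
    have h2 : (0 : ℝ) < (n : ℝ) + 2 := by positivity
    refine ⟨div_pos hδ1 h2, ?_⟩
    rw [div_lt_iff₀ h2]
    have : (0 : ℝ) ≤ n := Nat.cast_nonneg n
    nlinarith
  have hdl : Tendsto dn atTop (𝓝[>] 0) := by
    refine tendsto_nhdsWithin_iff.2 ⟨?_, Eventually.of_forall fun n => (hdn n).1⟩
    refine Tendsto.div_atTop tendsto_const_nhds ?_
    exact tendsto_atTop_add_const_right _ _ tendsto_natCast_atTop_atTop
  have hae : ∀ᵐ ζ : ℂ × ℂ, wt ζ * ‖Dw r ℓ ζ‖ ^ 2 = 0 := by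
    refine fatou (f := fun n ζ => wt ζ * ‖Dw (rst (dn n) r ℓ) ℓ ζ‖ ^ 2) ?_ ?_ ?_ ?_
    · intro n
      refine (hint (dn n) (hdn n)).bdd_mul (c := 1) wt_cont.aestronglyMeasurable
        (Eventually.of_forall fun ζ => ?_)
      rw [Real.norm_eq_abs, abs_of_nonneg (wt_nonneg ζ)]
      exact wt_le ζ
    · intro n ζ
      exact mul_nonneg (wt_nonneg ζ) (sq_nonneg _)
    · intro ζ
      by_cases hζ : ζ = 0
      · subst hζ
        simp only [wt_zero, zero_mul]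
        exact tendsto_const_nhds
      · have h1 := (hSw r ℓ hr hax hd0 hd1 ζ hζ).comp hdl
        exact (h1.norm.pow 2).const_mul (wt ζ)
    · exact hlim.comp hdl
  have hae2 : (Dw r ℓ) =ᵐ[volume.restrict {ζ : ℂ × ℂ | ζ ≠ 0}] (fun _ => (0 : ℂ)) := by
    refine (ae_restrict_iff' (isOpen_ne.measurableSet)).2 ?_
    filter_upwards [hae] with ζ h hζ
    have h1 := (mul_eq_zero.1 h).resolve_left (wt_pos hζ).ne'
    simpa using h1
  have := MeasureTheory.Measure.eqOn_open_of_ae_eq hae2 isOpen_ne (hDc r ℓ hr hax)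
    continuousOn_const
  exact this hζ0

end MP_e78765_gt
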