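import Pool.Agent.Lib.MP_e78765_gt.Spec5

/-!
# Uniform bounds for a jointly smooth family of knots (MP_e78765_gt): module Fb
-/

set_option autoImplicit false

open scoped ContDiff Topology
open MeasureTheory Set Filter

namespace MP_e78765_gt

namespace Fb_aux

/-- Lipschitz bound on the line. -/
theorem lip {f : ℝ → E3} {C : ℝ} (hf : Differentiable ℝ f) (hC : ∀ t, ‖deriv f t‖ ≤ C) (s t : ℝ) :
    ‖f s - f t‖ ≤ C * |s - t| := by
  have h := Convex.norm_image_sub_le_of_norm_deriv_le (f := f) (s := univ) (x := t) (y := s) (C := C)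
    (fun x _ => hf x) (fun x _ => hC x) convex_univ (mem_univ _) (mem_univ _)
  rwa [Real.norm_eq_abs] at h

/-- Second order bound. -/
theorem sec {f : ℝ → E3} {K : ℝ} (hf : Differentiable ℝ f)
    (hK : ∀ s t, ‖deriv f s - deriv f t‖ ≤ K * |s - t|) (hK0 : 0 ≤ K) (s t : ℝ) :
    ‖f s - f t - (s - t) • deriv f t‖ ≤ K * (s - t) ^ 2 := by
  have hd : ∀ x ∈ uIcc t s, HasDerivWithinAt (fun y => f y - (y - t) • deriv f t)
      (deriv f x - deriv f t) (uIcc t s) x := by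
    intro x _
    have h1 := (hf x).hasDerivAt
    have h2 : HasDerivAt (fun y : ℝ => (y - t) • deriv f t) ((1 : ℝ) • deriv f t) x :=
      ((hasDerivAt_id x).sub_const t).smul_const _
    rw [one_smul] at h2
    exact (h1.sub h2).hasDerivWithinAt
  have hb : ∀ x ∈ uIcc t s, ‖deriv f x - deriv f t‖ ≤ K * |s - t| := by
    intro x hx
    refine le_trans (hK x t) ?_
    refine mul_le_mul_of_nonneg_left ?_ hK0
    exact abs_sub_left_of_mem_uIcc hx
  have h := Convex.norm_image_sub_le_of_norm_hasDerivWithin_le hd hb (convex_uIcc t s) left_mem_uIcc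
    right_mem_uIcc
  rw [sub_self, zero_smul, sub_zero, Real.norm_eq_abs] at h
  have e1 : f s - (s - t) • deriv f t - f t = f s - f t - (s - t) • deriv f t := by abel
  have e2 : K * |s - t| * |s - t| = K * (s - t) ^ 2 := by
    rw [mul_assoc, ← pow_two, sq_abs]
  rw [e1, e2] at h
  exact h

theorem sec' {f : ℝ → E3} {K : ℝ} (hf : Differentiable ℝ f)
    (hK : ∀ s t, ‖deriv f s - deriv f t‖ ≤ K * |s - t|) (hK0 : 0 ≤ K) (s t : ℝ) :
    ‖f s - f t - (s - t) • deriv f s‖ ≤ K * (s - t) ^ 2 := by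
  have h := sec hf hK hK0 t s
  have e1 : f t - f s - (t - s) • deriv f s = -(f s - f t - (s - t) • deriv f s) := by
    have : (t - s) • deriv f s = -((s - t) • deriv f s) := by
      rw [← neg_smul]; congr 1; ring
    rw [this]; abel
  rw [e1, norm_neg] at h
  have e2 : (t - s) ^ 2 = (s - t) ^ 2 := by ring
  rw [e2] at h
  exact h

/-- The strip. -/
def U (a0 : ℝ) : Set (ℝ × ℝ) := Ioo (-a0) a0 ×ˢ univ

theorem isOpen_U (a0 : ℝ) : IsOpen (U a0) := isOpen_Ioo.prod isOpen_univ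

theorem mem_U {a0 a t : ℝ} (ha : a ∈ Ioo (-a0) a0) : (a, t) ∈ U a0 := ⟨ha, mem_univ _⟩

/-- Partial derivative. -/
noncomputable def pd (G : ℝ × ℝ → E3) (v : ℝ × ℝ) (z : ℝ × ℝ) : E3 := fderiv ℝ G z v

theorem pd_smooth {G : ℝ × ℝ → E3} {a0 : ℝ} (hG : ContDiffOn ℝ ∞ G (U a0)) (v : ℝ × ℝ) :
    ContDiffOn ℝ ∞ (pd G v) (U a0) := by
  have h : ContDiffOn ℝ ∞ (fderiv ℝ G) (U a0) :=
    hG.fderiv_of_isOpen (isOpen_U a0) (by simp)
  exact h.clm_apply contDiffOn_const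

theorem pd_per {G : ℝ × ℝ → E3} (hG : ∀ a t, G (a, t + 1) = G (a, t)) (v : ℝ × ℝ) (a t : ℝ) :
    pd G v (a, t + 1) = pd G v (a, t) := by
  have h : (fun z : ℝ × ℝ => G (z + ((0 : ℝ), (1 : ℝ)))) = G := by
    funext z
    obtain ⟨x, y⟩ := z
    simp only [Prod.mk_add_mk, add_zero]
    exact hG x y
  have h2 : fderiv ℝ (fun z : ℝ × ℝ => G (z + ((0 : ℝ), (1 : ℝ)))) (a, t) =
      fderiv ℝ G ((a, t) + ((0 : ℝ), (1 : ℝ))) := fderiv_comp_add_right _
  rw [h, Prod.mk_add_mk, add_zero] at h2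
  unfold pd
  rw [h2]

theorem diffAt {G : ℝ × ℝ → E3} {a0 : ℝ} (hG : ContDiffOn ℝ ∞ G (U a0)) {a t : ℝ}
    (ha : a ∈ Ioo (-a0) a0) : DifferentiableAt ℝ G (a, t) :=
  (hG.contDiffAt ((isOpen_U a0).mem_nhds (mem_U ha))).differentiableAt (by simp)

theorem hd_a {G : ℝ × ℝ → E3} {a0 : ℝ} (hG : ContDiffOn ℝ ∞ G (U a0)) {a t : ℝ}
    (ha : a ∈ Ioo (-a0) a0) : HasDerivAt (fun b => G (b, t)) (pd G (1, 0) (a, t)) a := by
  have h := (diffAt hG ha (t := t)).hasFDerivAt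
  have h2 : HasDerivAt (fun b : ℝ => (b, t)) ((1 : ℝ), (0 : ℝ)) a :=
    (hasDerivAt_id a).prodMk (hasDerivAt_const a t)
  exact h.comp_hasDerivAt a h2

theorem hd_t {G : ℝ × ℝ → E3} {a0 : ℝ} (hG : ContDiffOn ℝ ∞ G (U a0)) {a : ℝ}
    (ha : a ∈ Ioo (-a0) a0) (t : ℝ) : HasDerivAt (fun s => G (a, s)) (pd G (0, 1) (a, t)) t := by
  have h := (diffAt hG ha (t := t)).hasFDerivAt
  have h2 : HasDerivAt (fun s : ℝ => (a, s)) ((0 : ℝ), (1 : ℝ)) t :=
    (hasDerivAt_const t a).prodMk (hasDerivAt_id t)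
  exact h.comp_hasDerivAt t h2

theorem smooth_t {G : ℝ × ℝ → E3} {a0 : ℝ} (hG : ContDiffOn ℝ ∞ G (U a0)) {a : ℝ}
    (ha : a ∈ Ioo (-a0) a0) : ContDiff ℝ ∞ (fun s => G (a, s)) := by
  rw [← contDiffOn_univ]
  exact hG.comp (f := fun s : ℝ => (a, s)) (contDiff_const.prodMk contDiff_id).contDiffOn
    (fun s _ => mem_U ha)

/-- Boundedness on a smaller strip. -/
theorem bdd {G : ℝ × ℝ → E3} {a0 a1 : ℝ} (hG : ContDiffOn ℝ ∞ G (U a0))
    (hp : ∀ a t, G (a, t + 1) = G (a, t)) (h1 : a1 < a0) :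
    ∃ B : ℝ, 0 < B ∧ ∀ a t, |a| ≤ a1 → ‖G (a, t)‖ ≤ B := by
  have hc : IsCompact (Icc (-a1) a1 ×ˢ Icc (0 : ℝ) 1) := isCompact_Icc.prod isCompact_Icc
  have hsub : Icc (-a1) a1 ×ˢ Icc (0 : ℝ) 1 ⊆ U a0 := by
    rintro ⟨x, y⟩ ⟨hx, _⟩
    exact ⟨⟨by have := hx.1; simp only at this; linarith, by have := hx.2; simp only at this; linarith⟩,
      mem_univ _⟩
  obtain ⟨C, hC⟩ := hc.exists_bound_of_continuousOn (hG.continuousOn.mono hsub)
  refine ⟨max C 1, lt_of_lt_of_le one_pos (le_max_right _ _), fun a t ha => ?_⟩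
  have hper : Function.Periodic (fun s => G (a, s)) 1 := fun s => hp a s
  have e : G (a, t) = G (a, Int.fract t) := by
    have h3 := hper.sub_int_mul_eq ⌊t⌋ (x := t)
    simp only [mul_one] at h3
    rw [show t - (⌊t⌋ : ℝ) = Int.fract t from rfl] at h3
    exact h3.symm
  rw [e]
  refine le_trans (hC (a, Int.fract t) ⟨?_, ?_⟩) (le_max_left _ _)
  · exact abs_le.1 ha
  · exact ⟨Int.fract_nonneg t, (Int.fract_lt_one t).le⟩

/-- Symmetry of the mixed partial derivatives. -/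
theorem symm {G : ℝ × ℝ → E3} {a0 : ℝ} (hG : ContDiffOn ℝ ∞ G (U a0)) {a t : ℝ}
    (ha : a ∈ Ioo (-a0) a0) : pd (pd G (0, 1)) (1, 0) (a, t) = pd (pd G (1, 0)) (0, 1) (a, t) := by
  have hat : ContDiffAt ℝ ∞ G (a, t) := hG.contDiffAt ((isOpen_U a0).mem_nhds (mem_U ha))
  have hs : IsSymmSndFDerivAt ℝ G (a, t) := hat.isSymmSndFDerivAt (by
    rw [minSmoothness_of_isRCLikeNormedField]
    exact WithTop.coe_le_coe.2 le_top)
  have hd : DifferentiableAt ℝ (fderiv ℝ G) (a, t) :=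
    (hat.fderiv_right (m := ∞) (by simp)).differentiableAt (by simp)
  have key : ∀ v w : ℝ × ℝ, fderiv ℝ (fun z => fderiv ℝ G z v) (a, t) w =
      fderiv ℝ (fderiv ℝ G) (a, t) w v := by
    intro v w
    have h := hd.hasFDerivAt.clm_apply (hasFDerivAt_const v (a, t))
    rw [h.fderiv]
    simp
  unfold pd
  rw [key, key]
  exact hs _ _

end Fb_aux

open Fb_aux in
theorem tFb : S_Bd → S_Fb := by
  intro hBd f a0 ha0 hJS hk
  obtain ⟨hF, hper⟩ := hJS
  set F : ℝ × ℝ → E3 := fun z => f z.1 z.2 with hFdef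
  have hFU : ContDiffOn ℝ ∞ F (U a0) := hF
  have hFp : ∀ a t, F (a, t + 1) = F (a, t) := fun a t => hper a t
  have h1 : a0 / 2 < a0 := by linarith
  -- partial derivatives
  have s1 := pd_smooth hFU (0, 1)
  have s2 := pd_smooth hFU (1, 0)
  have s11 := pd_smooth s1 (0, 1)
  have s21 := pd_smooth s2 (0, 1)
  have s211 := pd_smooth s21 (0, 1)
  have p1 := pd_per hFp (0, 1)
  have p2 := pd_per hFp (1, 0)
  have p11 := pd_per p1 (0, 1)
  have p21 := pd_per p2 (0, 1)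
  have p211 := pd_per p21 (0, 1)
  obtain ⟨B1, hB1, b1⟩ := bdd s1 p1 h1
  obtain ⟨B3, hB3, b11⟩ := bdd s11 p11 h1
  obtain ⟨B4, hB4, b21⟩ := bdd s21 p21 h1
  obtain ⟨B5, hB5, b211⟩ := bdd s211 p211 h1
  obtain ⟨B, hB, hBB1, hBB3, hBB4, hBB5⟩ : ∃ B : ℝ, 0 < B ∧ B1 ≤ B ∧ B3 ≤ B ∧ B4 ≤ B ∧ B5 ≤ B :=
    ⟨B1 + B3 + B4 + B5, by positivity, by linarith, by linarith, by linarith, by linarith⟩
  have hin : ∀ a : ℝ, |a| ≤ a0 / 2 → a ∈ Ioo (-a0) a0 := by
    intro a ha
    have := abs_le.1 ha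
    exact ⟨by linarith [this.1], by linarith [this.2]⟩
  -- identification of the derivatives
  have df : ∀ a ∈ Ioo (-a0) a0, ∀ t, HasDerivAt (f a) (pd F (0, 1) (a, t)) t :=
    fun a ha t => hd_t hFU ha t
  have dfe : ∀ a ∈ Ioo (-a0) a0, ∀ t, deriv (f a) t = pd F (0, 1) (a, t) :=
    fun a ha t => (df a ha t).deriv
  have dφ : ∀ a ∈ Ioo (-a0) a0, ∀ t, HasDerivAt (fun s => pd F (1, 0) (a, s))
      (pd (pd F (1, 0)) (0, 1) (a, t)) t := fun a ha t => hd_t s2 ha t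
  have dφe : ∀ a ∈ Ioo (-a0) a0, ∀ t, deriv (fun s => pd F (1, 0) (a, s)) t =
      pd (pd F (1, 0)) (0, 1) (a, t) := fun a ha t => (dφ a ha t).deriv
  have fa : ∀ a ∈ Ioo (-a0) a0, ∀ t, HasDerivAt (fun b => f b t) (pd F (1, 0) (a, t)) a :=
    fun a ha t => hd_a hFU ha
  have fda : ∀ a ∈ Ioo (-a0) a0, ∀ t, HasDerivAt (fun b => deriv (f b) t)
      (deriv (fun s => pd F (1, 0) (a, s)) t) a := by
    intro a ha t
    rw [dφe a ha t, ← symm hFU ha]
    refine (hd_a s1 ha (t := t)).congr_of_eventuallyEq ?_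
    filter_upwards [isOpen_Ioo.mem_nhds ha] with b hb
    exact dfe b hb t
  -- upper bounds
  have u1 : ∀ a, |a| ≤ a0 / 2 → ∀ t, ‖deriv (f a) t‖ ≤ B := by
    intro a ha t
    rw [dfe a (hin a ha) t]
    exact (b1 a t ha).trans hBB1
  have u2 : ∀ a, |a| ≤ a0 / 2 → ∀ t, ‖deriv (fun s => pd F (1, 0) (a, s)) t‖ ≤ B := by
    intro a ha t
    rw [dφe a (hin a ha) t]
    exact (b21 a t ha).trans hBB4
  have Df : ∀ a, |a| ≤ a0 / 2 → Differentiable ℝ (f a) := fun a ha t =>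
    (df a (hin a ha) t).differentiableAt
  have Dφ : ∀ a, |a| ≤ a0 / 2 → Differentiable ℝ (fun s => pd F (1, 0) (a, s)) := fun a ha t =>
    (dφ a (hin a ha) t).differentiableAt
  have l1 : ∀ a, |a| ≤ a0 / 2 → ∀ s t, ‖deriv (f a) s - deriv (f a) t‖ ≤ B * |s - t| := by
    intro a ha s t
    rw [dfe a (hin a ha) s, dfe a (hin a ha) t]
    exact lip (f := fun s => pd F (0, 1) (a, s)) (fun t => (hd_t s1 (hin a ha) t).differentiableAt)
      (fun t => by rw [(hd_t s1 (hin a ha) t).deriv]; exact (b11 a t ha).trans hBB3) s t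
  have l2 : ∀ a, |a| ≤ a0 / 2 → ∀ s t, ‖deriv (fun s => pd F (1, 0) (a, s)) s -
      deriv (fun s => pd F (1, 0) (a, s)) t‖ ≤ B * |s - t| := by
    intro a ha s t
    rw [dφe a (hin a ha) s, dφe a (hin a ha) t]
    exact lip (f := fun s => pd (pd F (1, 0)) (0, 1) (a, s))
      (fun t => (hd_t s21 (hin a ha) t).differentiableAt)
      (fun t => by rw [(hd_t s21 (hin a ha) t).deriv]; exact (b211 a t ha).trans hBB5) s t
  -- lower bounds at 0
  obtain ⟨⟨m0, M0, K0, hm0, -, -, hlow, -, -, -, -⟩, hch⟩ := hBd (f 0) hk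
  obtain ⟨c, hc, hchord⟩ := hch (1 / 2) (by norm_num)
  -- comparison with a = 0
  have cmp1 : ∀ a, |a| ≤ a0 / 2 → ∀ t, ‖deriv (f a) t - deriv (f 0) t‖ ≤ B * |a| := by
    intro a ha t
    have hd : ∀ x ∈ uIcc 0 a, HasDerivWithinAt (fun b => deriv (f b) t)
        (deriv (fun s => pd F (1, 0) (x, s)) t) (uIcc 0 a) x := by
      intro x hx
      have hx' : |x| ≤ a0 / 2 := by
        have := abs_sub_left_of_mem_uIcc hx
        simp only [sub_zero] at this
        exact this.trans ha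
      exact (fda x (hin x hx') t).hasDerivWithinAt
    have hb : ∀ x ∈ uIcc 0 a, ‖deriv (fun s => pd F (1, 0) (x, s)) t‖ ≤ B := by
      intro x hx
      have hx' : |x| ≤ a0 / 2 := by
        have := abs_sub_left_of_mem_uIcc hx
        simp only [sub_zero] at this
        exact this.trans ha
      exact u2 x hx' t
    have h := Convex.norm_image_sub_le_of_norm_hasDerivWithin_le hd hb (convex_uIcc 0 a)
      left_mem_uIcc right_mem_uIcc
    rwa [sub_zero, Real.norm_eq_abs] at h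
  have cmp2 : ∀ a, |a| ≤ a0 / 2 → ∀ s t, ‖(f a s - f a t) - (f 0 s - f 0 t)‖ ≤
      B * |s - t| * |a| := by
    intro a ha s t
    have hd : ∀ x ∈ uIcc 0 a, HasDerivWithinAt (fun b => f b s - f b t)
        (pd F (1, 0) (x, s) - pd F (1, 0) (x, t)) (uIcc 0 a) x := by
      intro x hx
      have hx' : |x| ≤ a0 / 2 := by
        have := abs_sub_left_of_mem_uIcc hx
        simp only [sub_zero] at this
        exact this.trans ha
      exact ((fa x (hin x hx') s).sub (fa x (hin x hx') t)).hasDerivWithinAt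
    have hb : ∀ x ∈ uIcc 0 a, ‖pd F (1, 0) (x, s) - pd F (1, 0) (x, t)‖ ≤ B * |s - t| := by
      intro x hx
      have hx' : |x| ≤ a0 / 2 := by
        have := abs_sub_left_of_mem_uIcc hx
        simp only [sub_zero] at this
        exact this.trans ha
      exact lip (Dφ x hx') (u2 x hx') s t
    have h := Convex.norm_image_sub_le_of_norm_hasDerivWithin_le hd hb (convex_uIcc 0 a)
      left_mem_uIcc right_mem_uIcc
    rwa [sub_zero, Real.norm_eq_abs] at h
  -- constants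
  set m : ℝ := min m0 c / 2 with hm
  have hmm : 0 < min m0 c := lt_min hm0 hc
  have hmpos : 0 < m := by rw [hm]; linarith
  set a1 : ℝ := min (a0 / 2) (m / B) with ha1
  have ha1pos : 0 < a1 := lt_min (by linarith) (div_pos hmpos hB)
  have ha1le : a1 ≤ a0 / 2 := min_le_left _ _
  have ha1B : a1 * B ≤ m := by
    have := min_le_right (a0 / 2) (m / B)
    calc a1 * B ≤ m / B * B := mul_le_mul_of_nonneg_right this hB.le
      _ = m := div_mul_cancel₀ _ hB.ne'
  refine ⟨a1, m, B, B, fun a t => pd F (1, 0) (a, t), ha1pos, lt_of_le_of_lt ha1le h1, hmpos, hB,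
    hB, ?_⟩
  intro a ha
  have haabs : |a| ≤ a1 := abs_le.2 ⟨ha.1.le, ha.2.le⟩
  have haa : |a| ≤ a0 / 2 := haabs.trans ha1le
  have hai := hin a haa
  have haB : B * |a| ≤ m := by
    calc B * |a| ≤ B * a1 := mul_le_mul_of_nonneg_left haabs hB.le
      _ = a1 * B := mul_comm _ _
      _ ≤ m := ha1B
  have low1 : ∀ t, m ≤ ‖deriv (f a) t‖ := by
    intro t
    have h2 := cmp1 a haa t
    have h3 := hlow t
    have h4 : ‖deriv (f 0) t‖ ≤ ‖deriv (f a) t‖ + ‖deriv (f a) t - deriv (f 0) t‖ := by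
      have := norm_sub_le (deriv (f a) t) (deriv (f a) t - deriv (f 0) t)
      rwa [sub_sub_cancel] at this
    have h5 : min m0 c ≤ m0 := min_le_left _ _
    have h6 : m0 ≤ ‖deriv (f 0) t‖ := h3
    have h7 : 2 * m = min m0 c := by rw [hm]; ring
    linarith
  have low2 : ∀ s t, |s - t| ≤ 1 / 2 → m * |s - t| ≤ ‖f a s - f a t‖ := by
    intro s t hst
    have h2 := cmp2 a haa s t
    have h3 := hchord s t hst
    have h4 : ‖f 0 s - f 0 t‖ ≤ ‖f a s - f a t‖ + ‖(f a s - f a t) - (f 0 s - f 0 t)‖ := by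
      have := norm_sub_le (f a s - f a t) ((f a s - f a t) - (f 0 s - f 0 t))
      rwa [sub_sub_cancel] at this
    have h5 : min m0 c ≤ c := min_le_right _ _
    have h7 : 2 * m = min m0 c := by rw [hm]; ring
    have h8 : 2 * m * |s - t| ≤ c * |s - t| := by
      refine mul_le_mul_of_nonneg_right ?_ (abs_nonneg _)
      rw [h7]; exact h5
    have h9 : B * |s - t| * |a| ≤ m * |s - t| := by
      calc B * |s - t| * |a| = (B * |a|) * |s - t| := by ring
        _ ≤ m * |s - t| := mul_le_mul_of_nonneg_right haB (abs_nonneg _)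
    linarith
  refine ⟨⟨smooth_t hFU hai, hper a, ?_, ?_⟩, smooth_t s2 hai, fun t => p2 a t, fun t => fa a hai t,
    fun t => fda a hai t, fun t => ⟨low1 t, u1 a haa t, u2 a haa t⟩, low2,
    fun s t => ⟨lip (Df a haa) (u1 a haa) s t, lip (Dφ a haa) (u2 a haa) s t⟩,
    fun s t => ⟨sec' (Df a haa) (l1 a haa) hB.le s t, sec (Df a haa) (l1 a haa) hB.le s t⟩,
    fun s t => ⟨sec' (Dφ a haa) (l2 a haa) hB.le s t, sec (Dφ a haa) (l2 a haa) hB.le s t⟩⟩
  · intro t h0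
    have := low1 t
    rw [h0, norm_zero] at this
    linarith
  · intro s t hst
    have hp : Function.Periodic (f a) 1 := hper a
    have h3 := hp.int_mul (round (s - t)) t
    have h4 : f a (t + (round (s - t) : ℝ)) = f a t := by
      have := hp.int_mul (round (s - t)) t
      rwa [mul_one] at this
    have h5 : |s - (t + (round (s - t) : ℝ))| ≤ 1 / 2 := by
      have := abs_sub_round (s - t)
      rwa [sub_sub] at this
    have h6 := low2 s (t + (round (s - t) : ℝ)) h5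
    rw [h4, hst, sub_self, norm_zero] at h6
    have h7 : |s - (t + (round (s - t) : ℝ))| = 0 := by
      have h8 : 0 ≤ |s - (t + (round (s - t) : ℝ))| := abs_nonneg _
      nlinarith
    have h8 := abs_eq_zero.1 h7
    refine ⟨-round (s - t), ?_⟩
    push_cast
    linarith

end MP_e78765_gt
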