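import Pool.Agent.Lib.MP_e78765_gt.Spec

/-! Assembly of THEOREM R from the statements of `Spec`. -/

open scoped ContDiff Topology
open MeasureTheory Set Filter

namespace MP_e78765_gt

theorem fin_main (hSplit : S_Split) (hParts : S_Parts) (hStB : S_StB) (hRs : S_Rs) (hAs : S_As)
    (hIso : S_Iso) (hLim : S_Lim) (hVW : S_VW) (hVlim : S_Vlim) (hLap : S_Lap) (hCirc : S_Circ)
    (r : ℝ → E3) (hr : MirrorKnot r) (hround : ¬ IsRoundCircle (Set.range r)) :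
    ∃ r' : ℝ → E3, IsKnot r' ∧ AmbientIsotopic r r' ∧ energy r' < energy r := by
  by_contra hcon
  push Not at hcon
  obtain ⟨-, ⟨τ0, hτ0, hSm⟩, -⟩ := hStB
  have hsmall : ∀ τ ∈ Ioo (0 : ℝ) τ0, Sm τ := by
    intro τ hτ
    apply hSm
    rw [abs_of_pos hτ.1]
    exact hτ.2.le
  apply hround
  apply hCirc r hr
  apply hLap r τ0 hr hτ0 hsmall
  intro τ hτ
  have hS := hsmall τ hτ
  -- the identity
  have key : ∀ ε, 0 < ε → Integrable (fun ζ : ℂ × ℂ => ‖Wd ε τ r ζ‖ ^ 2) ∧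
      (∫ ζ : ℂ × ℂ, ‖Wd ε τ r ζ‖ ^ 2) ≤ Real.pi ^ 2 * ((energy (rs ε τ r) - energy r) / 2) := by
    intro ε hε
    obtain ⟨hg, hg0, hg2, ⟨t1, ht1, ht14, hn0, hn2⟩, -, -⟩ := hRs r ε τ hr hε hS
    obtain ⟨hh, hu, hl⟩ := hAs r ε τ hr hε hS
    have hiso := hIso r ε τ hr hε hS
    have e1 := hSplit r (rs ε τ r) (as ε τ r) hr hg hh hu hl
    have e2 := hParts r (rs ε τ r) (as ε τ r) (t1 / 2) t1 hr hg hh hu hl (by linarith)
      (by linarith) ht14 hn0 hn2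
    obtain ⟨e3, e4⟩ := hVW r ε τ (t1 / 2) t1 hr hε hS (by linarith) (by linarith) ht14 hn0 hn2
    have e5 := hcon (as ε τ r) hh hiso
    refine ⟨e3, ?_⟩
    have hpi : (0 : ℝ) < Real.pi ^ 2 := by positivity
    have e6 : (∫ ζ : ℂ × ℂ, ‖Wd ε τ r ζ‖ ^ 2) = Real.pi ^ 2 * VV r (rs ε τ r) (t1 / 2) (1 / 2 - t1 / 2) := by
      rw [e4]
      field_simp
    rw [e6]
    apply mul_le_mul_of_nonneg_left _ hpi.le
    linarith
  apply hVlim r τ hr hS (fun ε hε => (key ε hε).1)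
  have hlim := hLim r τ hr hS
  have h2 : Tendsto (fun ε => Real.pi ^ 2 * ((energy (rs ε τ r) - energy r) / 2)) (𝓝[>] 0)
      (𝓝 0) := by
    have := ((hlim.sub_const (energy r)).div_const 2).const_mul (Real.pi ^ 2)
    simpa using this
  refine tendsto_of_tendsto_of_tendsto_of_le_of_le' tendsto_const_nhds h2 ?_ ?_
  · exact Eventually.of_forall fun ε => integral_nonneg fun ζ => by positivity
  · filter_upwards [self_mem_nhdsWithin] with ε hε
    exact (key ε hε).2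

end MP_e78765_gt
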