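import Pool.Agent.Lib.MP_e78765_gt.Spec3

/-! Assembly of THEOREM R2 from the statements of `Spec3`. -/

open scoped ContDiff Topology
open MeasureTheory Set Filter

namespace MP_e78765_gt

theorem SymIso.trans {ρ : E3 → E3} {a b c : ℝ → E3} (h1 : SymIso ρ a b) (h2 : SymIso ρ b c) :
    SymIso ρ a c := by
  obtain ⟨H, c1, i1, r1, s1⟩ := h1
  obtain ⟨G, c2, i2, r2, s2⟩ := h2
  refine ⟨fun σ => (H σ).trans (G σ), ?_, ?_, ?_, ?_⟩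
  · exact c2.comp (continuous_fst.prodMk c1)
  · intro x
    simp only [Homeomorph.trans_apply]
    rw [i1, i2]
  · rw [← r2, ← r1, image_image]
    rfl
  · intro σ x
    simp only [Homeomorph.trans_apply]
    rw [s1, s2]

theorem fin3 (hEll : S_Ell) (hSk : S_Sk) (hSi : S_Si) (hSe : S_Se) (hFat : S_Fat) (hLw : S_Lw)
    (hRa : S_Ra) (hIsoA : S_IsoA) (hKey : S_Key) (hPar : S_Par) (hCirc : S_Circ) : S_R2 := by
  intro r hr hround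
  by_contra hcon
  push Not at hcon
  obtain ⟨ℓ, hax, hd0, hd2⟩ := hEll r hr
  obtain ⟨δ0, m, M, K, c, κ, hδ0, -, -, -, -, -, -, hsk⟩ := hSk r ℓ hr hax hd0 hd2
  obtain ⟨δ1, hδ1, hsi⟩ := hSi r ℓ hr hax hd0 hd2
  obtain ⟨δ2, hδ2, hpar⟩ := hPar r ℓ hr hax hd0 hd2
  set δ3 := min δ0 (min δ1 δ2) with hδ3
  have hδ3pos : 0 < δ3 := lt_min hδ0 (lt_min hδ1 hδ2)
  have key : ∀ δ ∈ Ioo (0 : ℝ) δ3, Integrable (fun ζ : ℂ × ℂ => ‖Dw (rst δ r ℓ) ℓ ζ‖ ^ 2) ∧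
      (∫ ζ : ℂ × ℂ, (1 - Real.exp (-(2 * (‖ζ.1‖ ^ 2 + ‖ζ.2‖ ^ 2)))) *
        ‖Dw (rst δ r ℓ) ℓ ζ‖ ^ 2) ≤ Real.pi ^ 2 * ((energy (rst δ r ℓ) - energy r) / 2) := by
    intro δ hδ
    have h0 : δ ∈ Ioo (0 : ℝ) δ0 := ⟨hδ.1, lt_of_lt_of_le hδ.2 (min_le_left _ _)⟩
    have h1 : δ ∈ Ioo (0 : ℝ) δ1 := ⟨hδ.1, lt_of_lt_of_le hδ.2
      ((min_le_right _ _).trans (min_le_left _ _))⟩
    have h2 : δ ∈ Ioo (0 : ℝ) δ2 := ⟨hδ.1, lt_of_lt_of_le hδ.2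
      ((min_le_right _ _).trans (min_le_right _ _))⟩
    obtain ⟨t0, t1, ε, c', hstr⟩ := hpar δ h2
    obtain ⟨k1, k2⟩ := hKey _ _ _ _ _ _ _ hstr
    obtain ⟨hmk, -⟩ := hRa _ _ _ _ _ _ _ hstr
    have hiso := (hsi δ h1).trans (hIsoA _ _ _ _ _ _ _ hstr)
    have e1 := hcon _ hmk hiso
    refine ⟨k1, ?_⟩
    simp only [one_mul] at k2
    rw [k2] at e1
    have hpi : (0 : ℝ) < Real.pi ^ 2 := by positivity
    set I := ∫ ζ : ℂ × ℂ, (1 - Real.exp (-(2 * (‖ζ.1‖ ^ 2 + ‖ζ.2‖ ^ 2)))) *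
        ‖Dw (rst δ r ℓ) ℓ ζ‖ ^ 2 with hI
    have e2 : (Real.pi ^ 2)⁻¹ * I ≤ (energy (rst δ r ℓ) - energy r) / 2 := by linarith
    calc I = Real.pi ^ 2 * ((Real.pi ^ 2)⁻¹ * I) := by field_simp
      _ ≤ _ := mul_le_mul_of_nonneg_left e2 hpi.le
  have hzero : ∀ ζ : ℂ × ℂ, ζ ≠ 0 → Dw r ℓ ζ = 0 := by
    apply hFat r ℓ δ3 hr hax hd0 hd2 hδ3pos (fun δ hδ => (key δ hδ).1)
    have h2 : Tendsto (fun δ => Real.pi ^ 2 * ((energy (rst δ r ℓ) - energy r) / 2)) (𝓝[>] 0)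
        (𝓝 0) := by
      have := (((hSe r ℓ hr hax hd0 hd2).sub_const (energy r)).div_const 2).const_mul
        (Real.pi ^ 2)
      simpa using this
    refine tendsto_of_tendsto_of_tendsto_of_le_of_le' tendsto_const_nhds h2 ?_ ?_
    · refine Eventually.of_forall fun δ => integral_nonneg fun ζ => ?_
      apply mul_nonneg _ (by positivity)
      rw [sub_nonneg, Real.exp_le_one_iff]
      have : 0 ≤ ‖ζ.1‖ ^ 2 + ‖ζ.2‖ ^ 2 := by positivity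
      linarith
    · filter_upwards [Ioo_mem_nhdsGT hδ3pos] with δ hδ
      exact (key δ hδ).2
  apply hround
  apply hCirc r hr
  apply hLw r ℓ hr hax
  apply hzero
  intro h
  have := congrArg Prod.fst h
  simp at this

end MP_e78765_gt
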