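import Pool.Agent.Lib.MP_e78765_gt.Spec3

/-! The general symmetric case of THEOREM R2. -/

open scoped ContDiff Topology
open MeasureTheory Set Filter

namespace MP_e78765_gt

theorem fin4 (hArc : S_Arc) (hSym : S_Sym) (hRig : S_Rig) (hTr : S_Tr) (hTrS : S_TrS)
    (hMA : S_MirA) (hTwo : S_Two) (hR : S_R2)
    (r : ℝ → E3) (hr : IsKnot r) (n : E3) (c : ℝ) (hn : ‖n‖ = 1)
    (hsym : refl n c '' range r = range r)
    (htwo : ({x ∈ range r | inner ℝ x n = c}).ncard = 2)
    (hround : ¬ IsRoundCircle (range r)) :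
    ∃ r' : ℝ → E3, IsKnot r' ∧ refl n c '' range r' = range r' ∧
      ({x ∈ range r' | inner ℝ x n = c}).ncard = 2 ∧ SymIso (refl n c) r r' ∧
      energy r' < energy r := by
  obtain ⟨A, b, hA1, hA2⟩ := hRig n c hn
  obtain ⟨M, hM⟩ := hMA
  obtain ⟨hT1, hT2, -⟩ := hTr A b
  have hT3 := hTrS A b (refl n c) mir hA2
  obtain ⟨hk0, he0⟩ := hT1 r hr
  set r0 : ℝ → E3 := fun t => A (r t) + b with hr0
  have hrange0 : range r0 = (fun x => A x + b) '' range r := by
    rw [hr0, ← range_comp]; rfl
  -- a base point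
  have hne : ({x ∈ range r | inner ℝ x n = c}).Nonempty := by
    apply Set.nonempty_of_ncard_ne_zero
    rw [htwo]; norm_num
  obtain ⟨_, ⟨t0, rfl⟩, ht0⟩ := hne
  obtain ⟨r1, hk1, hrange1, hr10, ⟨L, hL, hsp⟩, he1⟩ := hArc r0 t0 hk0
  have hinj : Function.Injective (fun x : E3 => A x + b) := by
    intro x y hxy
    exact A.injective (add_right_cancel hxy)
  have hplane : ∀ C : Set E3, ({x ∈ (fun x => A x + b) '' C | x 2 = 0}).ncard =
      ({x ∈ C | inner ℝ x n = c}).ncard := by
    intro C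
    have : {x ∈ (fun x => A x + b) '' C | x 2 = 0} =
        (fun x => A x + b) '' {x ∈ C | inner ℝ x n = c} := by
      ext y
      constructor
      · rintro ⟨⟨x, hx, rfl⟩, hy⟩
        refine ⟨x, ⟨hx, ?_⟩, rfl⟩
        have := hA1 x
        simp only at hy
        rw [hy] at this
        linarith
      · rintro ⟨x, ⟨hx, hxc⟩, rfl⟩
        refine ⟨⟨x, hx, rfl⟩, ?_⟩
        have := hA1 x
        simp only
        rw [this, hxc, sub_self]
    rw [this, Set.ncard_image_of_injective _ hinj]
  have hsymC : ∀ C : Set E3, mir '' ((fun x => A x + b) '' C) =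
      (fun x => A x + b) '' (refl n c '' C) := by
    intro C
    rw [image_image, image_image]
    apply image_congr
    intro x _
    exact (hA2 x).symm
  have hsym1 : mir '' range r1 = range r1 := by
    rw [hrange1, hrange0, hsymC, hsym]
  have htwo1 : ({x ∈ range r1 | x 2 = 0}).ncard = 2 := by
    rw [hrange1, hrange0, hplane, htwo]
  have hzero : (r1 0) 2 = 0 := by
    rw [hr10, hr0]
    simp only
    rw [hA1, ht0, sub_self]
  have hround1 : ¬ IsRoundCircle (range r1) := by
    intro h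
    rw [hrange1, hrange0] at h
    exact hround (hT2 _ h)
  -- back to `r`
  have hback : (∃ r' : ℝ → E3, MirrorKnot r' ∧ SymIso mir r0 r' ∧ energy r' < energy r0) →
      ∃ r' : ℝ → E3, IsKnot r' ∧ refl n c '' range r' = range r' ∧
      ({x ∈ range r' | inner ℝ x n = c}).ncard = 2 ∧ SymIso (refl n c) r r' ∧
      energy r' < energy r := by
    rintro ⟨r', hk', hi', he'⟩
    obtain ⟨hS1, -, -⟩ := hTr A.symm (-(A.symm b))
    obtain ⟨hk2, he2⟩ := hS1 r' hk'.toIsKnot
    have hfun : (fun t => A.symm (r' t) + -(A.symm b)) = fun t => A.symm (r' t - b) := by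
      funext t
      rw [map_sub]; abel
    rw [hfun] at hk2 he2
    have hrg : (fun x => A x + b) '' range (fun t => A.symm (r' t - b)) = range r' := by
      rw [← range_comp]
      congr 1
      funext t
      simp
    obtain ⟨w1, w2⟩ := hTwo r' hk'
    refine ⟨fun t => A.symm (r' t - b), hk2, ?_, ?_, hT3 r r' hi', ?_⟩
    · apply hinj.image_injective
      rw [← hsymC, hrg, w1]
    · rw [← hplane, hrg, w2]
    · rw [he2, ← he0]
      exact he'
  apply hback
  have hiso : ∀ a a' b' : ℝ → E3, range a = range a' → SymIso mir a b' →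
      SymIso mir a' b' := by
    rintro a a' b' haa' ⟨H, h1, h2, h3, h4⟩
    exact ⟨H, h1, h2, by rw [← haa']; exact h3, h4⟩
  rcases hSym r1 L hk1 hL hsp hsym1 hzero htwo1 with hm | hm
  · obtain ⟨r', hk', hi', he'⟩ := hR r1 hm hround1
    exact ⟨r', hk', hiso _ _ _ hrange1 hi', by rw [← he1]; exact he'⟩
  · have hrange2 : range (fun t => mir (r1 t)) = range r1 := by
      rw [← hsym1, ← range_comp]
      rfl
    obtain ⟨hM1, -, -⟩ := hTr M 0
    obtain ⟨-, heM⟩ := hM1 r1 hk1
    have hfM : (fun t => M (r1 t) + 0) = fun t => mir (r1 t) := by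
      funext t; rw [add_zero, hM]
    rw [hfM] at heM
    obtain ⟨r', hk', hi', he'⟩ := hR _ hm (by rw [hrange2]; exact hround1)
    refine ⟨r', hk', hiso _ _ _ (hrange2.trans hrange1) hi', ?_⟩
    rw [← he1, ← heM]; exact he'

end MP_e78765_gt
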