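import Pool.Agent.Lib.MP_e78765_gt.Spec4
import Pool.Agent.Lib.MP_e78765_gt.Fin3

/-! Assembly of THEOREM R3 for mirror knots. -/

open scoped ContDiff Topology
open MeasureTheory Set Filter

namespace MP_e78765_gt

theorem fin5 (hEll : S_Ell) (hSk : S_Sk) (hSi : S_Si) (hSe : S_Se) (hFat : S_Fat) (hLw : S_Lw)
    (hRa : S_Ra) (hIsoA : S_IsoA) (hKey : S_Key) (hParA : S_ParA) (hHf : S_Hf) (hLimA : S_LimA)
    (hGlue : S_Glue) (hHs : S_Hs) (hCirc : S_Circ) : S_R3 := by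
  intro r hr hround
  obtain ⟨ℓ, hax, hd0, hd2⟩ := hEll r hr
  obtain ⟨δ0, m, M, K, c, κ, hδ0, -, -, -, -, -, -, hsk⟩ := hSk r ℓ hr hax hd0 hd2
  obtain ⟨δ1, hδ1, hsi⟩ := hSi r ℓ hr hax hd0 hd2
  obtain ⟨δ2, hδ2, hpar⟩ := hParA r ℓ hr hax hd0 hd2
  set δ3 := min δ0 (min δ1 δ2) with hδ3
  have hδ3pos : 0 < δ3 := lt_min hδ0 (lt_min hδ1 hδ2)
  have hpi : (0 : ℝ) < Real.pi ^ 2 := by positivity
  have hex : ∃ δ ∈ Ioo (0 : ℝ) δ3, 2 * energy (glue (rst δ r ℓ) ℓ) - 4 < energy r := by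
    by_contra hcon
    push Not at hcon
    have key : ∀ δ ∈ Ioo (0 : ℝ) δ3, Integrable (fun ζ : ℂ × ℂ => ‖Dw (rst δ r ℓ) ℓ ζ‖ ^ 2) ∧
        (∫ ζ : ℂ × ℂ, (1 - Real.exp (-(2 * (‖ζ.1‖ ^ 2 + ‖ζ.2‖ ^ 2)))) *
          ‖Dw (rst δ r ℓ) ℓ ζ‖ ^ 2) ≤ Real.pi ^ 2 * ((energy (rst δ r ℓ) - energy r) / 2) := by
      intro δ hδ
      have h2 : δ ∈ Ioo (0 : ℝ) δ2 := ⟨hδ.1, lt_of_lt_of_le hδ.2
        ((min_le_right _ _).trans (min_le_right _ _))⟩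
      obtain ⟨t0, t1, c', hstr⟩ := hpar δ h2
      obtain ⟨ε, hstr⟩ := hstr 1 zero_le_one
      obtain ⟨k1, k2⟩ := hKey _ _ _ _ _ _ _ hstr
      have k3 := hHf _ _ _ _ _ _ _ hstr
      have e1 := hcon δ hδ
      refine ⟨k1, ?_⟩
      have hI : (∫ ζ : ℂ × ℂ, (1 - Real.exp (-(2 * (‖ζ.1‖ ^ 2 + ‖ζ.2‖ ^ 2)))) *
          ‖Dw (rst δ r ℓ) ℓ ζ‖ ^ 2) ≤ ∫ ζ : ℂ × ℂ, ‖Dw (rst δ r ℓ) ℓ ζ‖ ^ 2 := by
        apply integral_mono_of_nonneg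
        · refine Eventually.of_forall fun ζ => ?_
          apply mul_nonneg _ (by positivity)
          rw [sub_nonneg, Real.exp_le_one_iff]
          have : 0 ≤ ‖ζ.1‖ ^ 2 + ‖ζ.2‖ ^ 2 := by positivity
          linarith
        · exact k1
        · refine Eventually.of_forall fun ζ => ?_
          show _ * _ ≤ _
          have h1 : 1 - Real.exp (-(2 * (‖ζ.1‖ ^ 2 + ‖ζ.2‖ ^ 2))) ≤ 1 := by
            linarith [Real.exp_pos (-(2 * (‖ζ.1‖ ^ 2 + ‖ζ.2‖ ^ 2)))]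
          exact mul_le_of_le_one_left (by positivity) h1
      refine hI.trans ?_
      set I := ∫ ζ : ℂ × ℂ, ‖Dw (rst δ r ℓ) ℓ ζ‖ ^ 2 with hIdef
      have e2 : (Real.pi ^ 2)⁻¹ * I ≤ (energy (rst δ r ℓ) - energy r) / 2 := by linarith
      calc I = Real.pi ^ 2 * ((Real.pi ^ 2)⁻¹ * I) := by field_simp
        _ ≤ _ := mul_le_mul_of_nonneg_left e2 hpi.le
    have hzero : ∀ ζ : ℂ × ℂ, ζ ≠ 0 → Dw r ℓ ζ = 0 := by
      apply hFat r ℓ δ3 hr hax hd0 hd2 hδ3pos (fun δ hδ => (key δ hδ).1)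
      have h2 : Tendsto (fun δ => Real.pi ^ 2 * ((energy (rst δ r ℓ) - energy r) / 2)) (𝓝[>] 0)
          (𝓝 0) := by
        have := (((hSe r ℓ hr hax hd0 hd2).sub_const (energy r)).div_const 2).const_mul
          (Real.pi ^ 2)
        simpa using this
      refine tendsto_of_tendsto_of_tendsto_of_le_of_le' tendsto_const_nhds h2 ?_ ?_
      · refine Eventually.of_forall fun δ => integral_nonneg fun ζ => ?_
        apply mul_nonneg _ (by positivity)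
        rw [sub_nonneg, Real.exp_le_one_iff]
        have : 0 ≤ ‖ζ.1‖ ^ 2 + ‖ζ.2‖ ^ 2 := by positivity
        linarith
      · filter_upwards [Ioo_mem_nhdsGT hδ3pos] with δ hδ
        exact (key δ hδ).2
    apply hround
    apply hCirc r hr
    apply hLw r ℓ hr hax
    apply hzero
    intro h
    have := congrArg Prod.fst h
    simp at this
  obtain ⟨δ, hδ, hlt⟩ := hex
  have h0 : δ ∈ Ioo (0 : ℝ) δ0 := ⟨hδ.1, lt_of_lt_of_le hδ.2 (min_le_left _ _)⟩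
  have h1 : δ ∈ Ioo (0 : ℝ) δ1 := ⟨hδ.1, lt_of_lt_of_le hδ.2
    ((min_le_right _ _).trans (min_le_left _ _))⟩
  have h2 : δ ∈ Ioo (0 : ℝ) δ2 := ⟨hδ.1, lt_of_lt_of_le hδ.2
    ((min_le_right _ _).trans (min_le_right _ _))⟩
  obtain ⟨t0, t1, c', hstr⟩ := hpar δ h2
  obtain ⟨ε1, hs1⟩ := hstr 0 le_rfl
  have ht1 : 0 < t1 := hs1.t0_pos.trans hs1.t01
  obtain ⟨gk, gu, gl⟩ := hGlue (rst δ r ℓ) ℓ t1 hs1.kn hax.kn ht1 hs1.near0 hs1.near2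
  obtain ⟨w1, w2⟩ := hHs (rst δ r ℓ) ℓ (glue (rst δ r ℓ) ℓ) hs1.kn hax.kn hs1.ax.zero hs1.ax.half
    gk.periodic gu gl
  refine ⟨rst δ r ℓ, ℓ, glue (rst δ r ℓ) ℓ, hs1.kn, hax.kn, hCirc ℓ hax.kn hax.axis, gk, w1, w2,
    hsi δ h1, hlt, ?_⟩
  intro η hη
  obtain ⟨k1, -⟩ := hKey _ _ _ _ _ _ _ hs1
  have hlim := hLimA (fun ζ => ‖Dw (rst δ r ℓ) ℓ ζ‖ ^ 2) k1 (fun ζ => by positivity)
  set I := ∫ ζ : ℂ × ℂ, ‖Dw (rst δ r ℓ) ℓ ζ‖ ^ 2 with hIdef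
  have hI2 : I - Real.pi ^ 2 * η / 2 < I := by
    have : 0 < Real.pi ^ 2 * η / 2 := by positivity
    linarith
  obtain ⟨a, ha0, ha⟩ := ((eventually_ge_atTop (0 : ℝ)).and
    (hlim.eventually (lt_mem_nhds hI2))).exists
  obtain ⟨ε, hs⟩ := hstr a ha0
  obtain ⟨-, k2⟩ := hKey _ _ _ _ _ _ _ hs
  have k3 := hHf _ _ _ _ _ _ _ hs
  obtain ⟨hmk, -⟩ := hRa _ _ _ _ _ _ _ hs
  refine ⟨ra ε c' a (rst δ r ℓ), hmk, (hsi δ h1).trans (hIsoA _ _ _ _ _ _ _ hs), ?_⟩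
  rw [k2, k3]
  set J := ∫ ζ : ℂ × ℂ, (1 - Real.exp (-(2 * (a * (‖ζ.1‖ ^ 2 + ‖ζ.2‖ ^ 2))))) *
    ‖Dw (rst δ r ℓ) ℓ ζ‖ ^ 2 with hJ
  have e1 : (Real.pi ^ 2)⁻¹ * I - (Real.pi ^ 2)⁻¹ * J < η / 2 := by
    rw [← mul_sub]
    have : I - J < Real.pi ^ 2 * (η / 2) := by linarith
    calc (Real.pi ^ 2)⁻¹ * (I - J) < (Real.pi ^ 2)⁻¹ * (Real.pi ^ 2 * (η / 2)) :=
          mul_lt_mul_of_pos_left this (by positivity)
      _ = η / 2 := by field_simp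
  linarith

end MP_e78765_gt
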