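import Pool.Agent.Lib.MP_e78765_gt.Spec5

/-! Assembly of THEOREM R4 for mirror knots. -/

open scoped ContDiff Topology
open MeasureTheory Set Filter

namespace MP_e78765_gt

theorem fin7 (hEll : S_Ell) (hFat : S_Fat) (hLw : S_Lw) (hKey : S_Key) (hPar : S_Par)
    (hCirc : S_Circ) (hDL : S_DL) (hPsi : S_Psi) (hTan : S_Tan) (hLLi : S_LLi)
    (hDif : S_Dif) : S_R4 := by
  intro r hr hround
  by_contra hcon
  push Not at hcon
  obtain ⟨ℓ, hax, hd0, hd2⟩ := hEll r hr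
  obtain ⟨δ0, hδ0, hpar⟩ := hPar r ℓ hr hax hd0 hd2
  have hdif := hDif r ℓ hr hax hd0 hd2
  have hpi : (0 : ℝ) < Real.pi ^ 2 := by positivity
  have key : ∀ δ ∈ Ioo (0 : ℝ) δ0, Integrable (fun ζ : ℂ × ℂ => ‖Dw (rst δ r ℓ) ℓ ζ‖ ^ 2) ∧
      (∫ ζ : ℂ × ℂ, (1 - Real.exp (-(2 * (‖ζ.1‖ ^ 2 + ‖ζ.2‖ ^ 2)))) *
        ‖Dw (rst δ r ℓ) ℓ ζ‖ ^ 2) ≤ Real.pi ^ 2 *
          (-(LL (rst δ r ℓ) (Psi (rst δ r ℓ)) - LL r (Psi (rst δ r ℓ))) / 2) := by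
    intro δ hδ
    obtain ⟨t0, t1, ε, c, hstr⟩ := hpar δ hδ
    obtain ⟨k1, -⟩ := hKey _ _ _ _ _ _ _ hstr
    have e1 := hDL _ _ _ _ _ _ hstr
    obtain ⟨p1, p2, p3, -, -, τ, p4, p5, p6⟩ := hPsi _ _ _ _ _ _ hstr
    have hkn : IsKnot (rst δ r ℓ) := hstr.kn.toIsKnot
    have hds : ContDiff ℝ ∞ (deriv (rst δ r ℓ)) := by
      have := hkn.smooth
      exact (contDiff_infty_iff_deriv.1 this).2
    have hdp : ∀ t, deriv (rst δ r ℓ) (t + 1) = deriv (rst δ r ℓ) t := by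
      intro t
      have h1 : (fun s => rst δ r ℓ (s + 1)) = rst δ r ℓ := by
        funext s
        exact hkn.periodic s
      rw [← deriv_comp_add_const (rst δ r ℓ) 1 t, h1]
    have e2 : Xf ε c (rst δ r ℓ) = fun t => Psi (rst δ r ℓ) t +
        (1 : ℝ) • (τ t • deriv (rst δ r ℓ) t) := by
      funext t
      rw [one_smul, p6]
    have e3 := (hLLi (rst δ r ℓ) (Psi (rst δ r ℓ)) hkn p1 p2).2
      (fun t => τ t • deriv (rst δ r ℓ) t) 1 (p4.smul hds) (fun t => by rw [p5, hdp])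
    have e4 := hTan (rst δ r ℓ) τ hkn p4 p5
    rw [e2, e3, e4] at e1
    have e5 := hcon (Psi (rst δ r ℓ)) p1 p2 p3
    refine ⟨k1, ?_⟩
    set I := ∫ ζ : ℂ × ℂ, (1 - Real.exp (-(2 * (‖ζ.1‖ ^ 2 + ‖ζ.2‖ ^ 2)))) *
        ‖Dw (rst δ r ℓ) ℓ ζ‖ ^ 2 with hI
    have e6 : (Real.pi ^ 2)⁻¹ * I ≤
        -(LL (rst δ r ℓ) (Psi (rst δ r ℓ)) - LL r (Psi (rst δ r ℓ))) / 2 := by linarith
    calc I = Real.pi ^ 2 * ((Real.pi ^ 2)⁻¹ * I) := by field_simp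
      _ ≤ _ := mul_le_mul_of_nonneg_left e6 hpi.le
  have hzero : ∀ ζ : ℂ × ℂ, ζ ≠ 0 → Dw r ℓ ζ = 0 := by
    apply hFat r ℓ δ0 hr hax hd0 hd2 hδ0 (fun δ hδ => (key δ hδ).1)
    have h2 : Tendsto (fun δ => Real.pi ^ 2 *
        (-(LL (rst δ r ℓ) (Psi (rst δ r ℓ)) - LL r (Psi (rst δ r ℓ))) / 2)) (𝓝[>] 0)
        (𝓝 0) := by
      have := ((hdif.neg).div_const 2).const_mul (Real.pi ^ 2)
      simpa using this
    refine tendsto_of_tendsto_of_tendsto_of_le_of_le' tendsto_const_nhds h2 ?_ ?_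
    · refine Eventually.of_forall fun δ => integral_nonneg fun ζ => ?_
      apply mul_nonneg _ (by positivity)
      rw [sub_nonneg, Real.exp_le_one_iff]
      have : 0 ≤ ‖ζ.1‖ ^ 2 + ‖ζ.2‖ ^ 2 := by positivity
      linarith
    · filter_upwards [Ioo_mem_nhdsGT hδ0] with δ hδ
      exact (key δ hδ).2
  apply hround
  apply hCirc r hr
  apply hLw r ℓ hr hax
  apply hzero
  intro h
  have := congrArg Prod.fst h
  simp at this

end MP_e78765_gt
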