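import Pool.Agent.Lib.MP_e78765_gt.Spec5

/-! THEOREM R4 for arbitrary planes. -/

open scoped ContDiff Topology
open MeasureTheory Set Filter

namespace MP_e78765_gt

theorem fin8 (hSig : S_Sig) (hRep : S_Rep) (hSym : S_Sym) (hRig : S_Rig) (hTr : S_Tr)
    (hMA : S_MirA) (hCr : S_Cr) (hCrA : S_CrA) (hCrB : S_CrB) (hR : S_R4) : S_R4G := by
  intro r n c hn hrs hcrit
  by_contra hround
  obtain ⟨hr, hsym, htwo⟩ := hrs
  obtain ⟨A, b, hA1, hA2⟩ := hRig n c hn
  obtain ⟨M, hM⟩ := hMA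
  obtain ⟨hT1, hT2, -⟩ := hTr A b
  obtain ⟨hk0, -⟩ := hT1 r hr
  have hc0 := hCrB r A b hr hcrit
  set r0 : ℝ → E3 := fun t => A (r t) + b with hr0
  have hrange0 : range r0 = (fun x => A x + b) '' range r := by
    rw [hr0, ← range_comp]; rfl
  -- a base point
  have hne : ({x ∈ range r | inner ℝ x n = c}).Nonempty := by
    apply Set.nonempty_of_ncard_ne_zero
    rw [htwo]; norm_num
  obtain ⟨_, ⟨t0, rfl⟩, ht0⟩ := hne
  obtain ⟨σ, L, hσ1, hσ2, hσ3, hσ4, hL, hσ5⟩ := hSig r0 t0 hk0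
  obtain ⟨hk1, hrange1, hder, -⟩ := hRep r0 σ hk0 hσ1 hσ2 hσ3
  have hc1 := hCrA r0 σ hk0 hc0 hσ1 hσ2 hσ3
  set r1 : ℝ → E3 := fun t => r0 (σ t) with hr1
  have hsp : ∀ t, ‖deriv r1 t‖ = L := by
    intro t
    rw [hder, norm_smul, Real.norm_of_nonneg (hσ2 t).le, mul_comm]
    exact hσ5 t
  have hr10 : r1 0 = r0 t0 := by
    rw [hr1]; simp only; rw [hσ4]
  have hinj : Function.Injective (fun x : E3 => A x + b) := by
    intro x y hxy
    exact A.injective (add_right_cancel hxy)
  have hplane : ∀ C : Set E3, ({x ∈ (fun x => A x + b) '' C | x 2 = 0}).ncard =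
      ({x ∈ C | inner ℝ x n = c}).ncard := by
    intro C
    have : {x ∈ (fun x => A x + b) '' C | x 2 = 0} =
        (fun x => A x + b) '' {x ∈ C | inner ℝ x n = c} := by
      ext y
      constructor
      · rintro ⟨⟨x, hx, rfl⟩, hy⟩
        refine ⟨x, ⟨hx, ?_⟩, rfl⟩
        have := hA1 x
        simp only at hy
        rw [hy] at this
        linarith
      · rintro ⟨x, ⟨hx, hxc⟩, rfl⟩
        refine ⟨⟨x, hx, rfl⟩, ?_⟩
        have := hA1 x
        simp only
        rw [this, hxc, sub_self]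
    rw [this, Set.ncard_image_of_injective _ hinj]
  have hsymC : ∀ C : Set E3, mir '' ((fun x => A x + b) '' C) =
      (fun x => A x + b) '' (refl n c '' C) := by
    intro C
    rw [image_image, image_image]
    apply image_congr
    intro x _
    exact (hA2 x).symm
  have hsym1 : mir '' range r1 = range r1 := by
    rw [hrange1, hrange0, hsymC, hsym]
  have htwo1 : ({x ∈ range r1 | x 2 = 0}).ncard = 2 := by
    rw [hrange1, hrange0, hplane, htwo]
  have hzero : (r1 0) 2 = 0 := by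
    rw [hr10, hr0]
    simp only
    rw [hA1, ht0, sub_self]
  have hround1 : ¬ IsRoundCircle (range r1) := by
    intro h
    rw [hrange1, hrange0] at h
    exact hround (hT2 _ h)
  rcases hSym r1 L hk1 hL hsp hsym1 hzero htwo1 with hm | hm
  · obtain ⟨φ, f1, f2, -, f3⟩ := hR r1 hm hround1
    have := (hCr r1 hk1).2.1 hc1 φ f1 f2
    linarith
  · have hrange2 : range (fun t => mir (r1 t)) = range r1 := by
      rw [← hsym1, ← range_comp]
      rfl
    have hc2 := hCrB r1 M 0 hk1 hc1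
    have hfM : (fun t => M (r1 t) + 0) = fun t => mir (r1 t) := by
      funext t; rw [add_zero, hM]
    rw [hfM] at hc2
    obtain ⟨φ, f1, f2, -, f3⟩ := hR _ hm (by rw [hrange2]; exact hround1)
    have := (hCr _ hm.toIsKnot).2.1 hc2 φ f1 f2
    linarith

end MP_e78765_gt
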