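import Pool.Agent.Lib.MP_e78765_gt.Spec

/-! The second chart of a mirror knot, near the point `q = r (1/2)`. -/

open scoped ContDiff Topology
open MeasureTheory Set Filter

namespace MP_e78765_gt

namespace Gc_aux

/-- The denominator of the second chart. -/
noncomputable def D (P y : E3) : ℝ := 1 - 2 * inner ℝ y P + ‖y‖ ^ 2 * ‖P‖ ^ 2

theorem Gm_eq (r : ℝ → E3) (y : E3) :
    Gm r y = (D (ph r) y)⁻¹ • (y - ‖y‖ ^ 2 • ph r) := rfl

theorem D_contDiff (P : E3) : ContDiff ℝ ∞ (D P) := by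
  unfold D
  have h1 : ContDiff ℝ ∞ (fun y : E3 => inner ℝ y P) := contDiff_id.inner ℝ contDiff_const
  have h2 : ContDiff ℝ ∞ (fun y : E3 => ‖y‖ ^ 2) := contDiff_norm_sq ℝ
  exact (contDiff_const.sub (contDiff_const.mul h1)).add (h2.mul contDiff_const)

theorem D_eq {P y : E3} (hy : y ≠ 0) : D P y = ‖y‖ ^ 2 * ‖inv y - P‖ ^ 2 := by
  have h : ‖y‖ ≠ 0 := norm_ne_zero_iff.2 hy
  have e1 : ‖inv y - P‖ ^ 2 = ‖inv y‖ ^ 2 - 2 * inner ℝ (inv y) P + ‖P‖ ^ 2 :=
    norm_sub_sq_real _ _
  have e2 : ‖inv y‖ ^ 2 = (‖y‖ ^ 2)⁻¹ := by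
    unfold inv
    rw [norm_smul, norm_inv, norm_pow, norm_norm, mul_pow]
    field_simp
  have e3 : inner ℝ (inv y) P = (‖y‖ ^ 2)⁻¹ * inner ℝ y P := by
    unfold inv
    rw [real_inner_smul_left]
  rw [e1, e2, e3]
  unfold D
  field_simp

theorem Gm_contDiffAt (r : ℝ → E3) {y : E3} (h : D (ph r) y ≠ 0) :
    ContDiffAt ℝ ∞ (Gm r) y := by
  have h1 : ContDiffAt ℝ ∞ (fun y => (D (ph r) y)⁻¹) y := (D_contDiff _).contDiffAt.inv h
  have h2 : ContDiff ℝ ∞ (fun y : E3 => y - ‖y‖ ^ 2 • ph r) :=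
    contDiff_id.sub ((contDiff_norm_sq ℝ).smul contDiff_const)
  exact h1.smul h2.contDiffAt

theorem Gm_inv (r : ℝ → E3) {y : E3} (hy : y ≠ 0) (h : inv y ≠ ph r) :
    Gm r y = inv (inv y - ph r) := by
  have hn : ‖y‖ ≠ 0 := norm_ne_zero_iff.2 hy
  have hz : ‖inv y - ph r‖ ≠ 0 := norm_ne_zero_iff.2 (sub_ne_zero.2 h)
  rw [Gm_eq, D_eq hy]
  conv_rhs => unfold inv
  set N := ‖inv y - ph r‖ with hN
  have e : (‖y‖ ^ 2)⁻¹ • y - ph r = (‖y‖ ^ 2)⁻¹ • (y - ‖y‖ ^ 2 • ph r) := by
    rw [smul_sub, smul_smul, inv_mul_cancel₀ (by positivity), one_smul]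
  have e2 : inv y - ph r = (‖y‖ ^ 2)⁻¹ • (y - ‖y‖ ^ 2 • ph r) := e
  have hN2 : ‖(‖y‖ ^ 2)⁻¹ • y - ph r‖ = N := rfl
  rw [hN2, e, smul_smul]
  congr 1
  field_simp

end Gc_aux

open Gc_aux

theorem tGc : S_Inv → S_Ch → S_Gc := by
  intro hInv hCh r hr
  obtain ⟨i1, i2, i3, i4, i5, i6, i7, i8, i9, i10, i11, i12⟩ := hInv
  obtain ⟨h1, h2, h3, h4, h5, h6, h7, h8, h9, h10, h11, h12, h13, h14, h15, h16⟩ := hCh r hr
  have hw : r 0 - r (1 / 2) ≠ 0 := by
    intro h
    apply h4
    unfold ph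
    rw [h]
    simp [inv]
  have hinvne : ∀ y : E3, y ≠ 0 → y ≠ r 0 - r (1 / 2) → inv y ≠ ph r := by
    intro y hy hyw h
    apply hyw
    have := congrArg inv h
    unfold ph at this
    rwa [i2 y hy, i2 _ hw] at this
  have hD : ∀ t, r t ≠ r 0 → D (ph r) (r t - r (1 / 2)) ≠ 0 := by
    intro t ht
    by_cases h0 : r t - r (1 / 2) = 0
    · rw [h0]; simp [D]
    · rw [D_eq h0]
      have a1 : ‖r t - r (1 / 2)‖ ≠ 0 := norm_ne_zero_iff.2 h0
      have a2 : ‖inv (r t - r (1 / 2)) - ph r‖ ≠ 0 := by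
        apply norm_ne_zero_iff.2
        apply sub_ne_zero.2
        apply hinvne _ h0
        intro h
        exact ht (sub_left_injective h)
      positivity
  have hGF : ∀ t, r t ≠ r 0 → r t ≠ r (1 / 2) → Gc r t = inv (Fc r t) ∧ Fc r t ≠ 0 := by
    intro t ht htq
    have h0 : r t - r (1 / 2) ≠ 0 := sub_ne_zero.2 htq
    have hne : inv (r t - r (1 / 2)) ≠ ph r :=
      hinvne _ h0 (fun h => ht (sub_left_injective h))
    constructor
    · unfold Gc Fc ch
      exact Gm_inv r h0 hne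
    · unfold Fc ch
      exact sub_ne_zero.2 hne
  have hGq : ∀ t, r t = r (1 / 2) → Gc r t = 0 := by
    intro t ht
    unfold Gc
    rw [ht, sub_self, Gm_eq]
    simp
  refine ⟨hGq _ rfl, ?_, hGF, ?_⟩
  · intro t ht
    have hf : ContDiffAt ℝ ∞ (fun u => r u - r (1 / 2)) t :=
      (hr.smooth.sub contDiff_const).contDiffAt
    refine ⟨?_, ?_⟩
    · exact ContDiffAt.comp t (Gm_contDiffAt r (hD t ht)) hf
    · by_cases htq : r t = r (1 / 2)
      · -- the derivative is that of `r`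
        have hdr : HasDerivAt (fun u => r u - r (1 / 2)) (deriv r t) t := by
          have : HasDerivAt r (deriv r t) t :=
            (hr.smooth.differentiable (by simp)).differentiableAt.hasDerivAt
          exact this.sub_const _
        have hDd : DifferentiableAt ℝ (fun u => (D (ph r) (r u - r (1 / 2)))⁻¹) t := by
          have a1 : ContDiffAt ℝ ∞ (fun u => (D (ph r) (r u - r (1 / 2)))) t :=
            ContDiffAt.comp t (D_contDiff (ph r)).contDiffAt hf
          exact (a1.inv (hD t ht)).differentiableAt (by simp)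
        have hN : HasDerivAt (fun u => (r u - r (1 / 2)) - ‖r u - r (1 / 2)‖ ^ 2 • ph r)
            (deriv r t) t := by
          have a1 := (hdr.norm_sq).smul_const (ph r)
          have a2 := hdr.sub a1
          have a3 : deriv r t - (2 * inner ℝ (r t - r (1 / 2)) (deriv r t)) • ph r = deriv r t := by
            rw [htq, sub_self, inner_zero_left, mul_zero, zero_smul, sub_zero]
          rw [a3] at a2
          exact a2
        have hprod := hDd.hasDerivAt.smul hN
        have e0 : D (ph r) (r t - r (1 / 2)) = 1 := by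
          rw [htq, sub_self]; simp [D]
        have e1 : (r t - r (1 / 2)) - ‖r t - r (1 / 2)‖ ^ 2 • ph r = 0 := by
          rw [htq, sub_self]; simp
        rw [e0, e1, smul_zero, add_zero, inv_one, one_smul] at hprod
        have : deriv (Gc r) t = deriv r t := hprod.deriv
        rw [this]
        exact hr.regular t
      · have hev : Gc r =ᶠ[𝓝 t] fun u => inv (Fc r u) := by
          have o1 : ∀ᶠ u in 𝓝 t, r u ≠ r 0 :=
            (hr.smooth.continuous.continuousAt).eventually_ne ht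
          have o2 : ∀ᶠ u in 𝓝 t, r u ≠ r (1 / 2) :=
            (hr.smooth.continuous.continuousAt).eventually_ne htq
          filter_upwards [o1, o2] with u hu1 hu2
          exact (hGF u hu1 hu2).1
        obtain ⟨c1, c2, c3⟩ := h9 t htq
        have hF : HasDerivAt (Fc r) (deriv (Fc r) t) t :=
          (c1.differentiableAt (by simp)).hasDerivAt
        have hne := (hGF t ht htq).2
        have hd := i10 (Fc r) (deriv (Fc r) t) t hne hF
        rw [hev.deriv_eq, hd.deriv]
        have hnorm := i5 (Fc r t) (deriv (Fc r) t) hne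
        have b1 : 0 < ‖deriv (Fc r) t‖ := norm_pos_iff.2 c3
        have b2 : 0 < ‖Fc r t‖ := norm_pos_iff.2 hne
        rw [← norm_pos_iff, hnorm]
        positivity
  · intro s t hs ht hst
    by_cases hsq : r s = r (1 / 2)
    · by_cases htq : r t = r (1 / 2)
      · rw [hsq, htq]
      · exfalso
        obtain ⟨a1, a2⟩ := hGF t ht htq
        rw [hGq s hsq, a1] at hst
        exact i1 _ a2 hst.symm
    · by_cases htq : r t = r (1 / 2)
      · exfalso
        obtain ⟨a1, a2⟩ := hGF s hs hsq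
        rw [hGq t htq, a1] at hst
        exact i1 _ a2 hst
      · obtain ⟨a1, a2⟩ := hGF s hs hsq
        obtain ⟨b1, b2⟩ := hGF t ht htq
        rw [a1, b1] at hst
        have := congrArg inv hst
        rw [i2 _ a2, i2 _ b2] at this
        exact h14 s t hsq htq this

end MP_e78765_gt
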