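import Pool.Agent.Lib.MP_e78765_gt.Spec3

/-! Glueing of two mirror knots (helper27, port of As.lean by its author). -/

open scoped ContDiff Topology
open MeasureTheory Set Filter

namespace MP_e78765_gt

namespace Glue_aux

theorem mir_two (x : E3) : (mir x) 2 = -x 2 := by simp [mir]

theorem per {f : ℝ → E3} (hf : IsKnot f) (t : ℝ) (n : ℤ) : f (t + n) = f t := by
  have hP1 : Function.Periodic f 1 := hf.periodic
  have := hP1.int_mul n t
  simpa using this

theorem zero_two {f : ℝ → E3} (hf : MirrorKnot f) : (f 0) 2 = 0 := by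
  have := congrArg (fun x : E3 => x 2) (hf.sym 0)
  simp only [neg_zero, mir_two] at this
  linarith

theorem half_two {f : ℝ → E3} (hf : MirrorKnot f) : (f (1 / 2)) 2 = 0 := by
  have := congrArg (fun x : E3 => x 2) (hf.sym (1 / 2))
  simp only [mir_two] at this
  have h2 := hf.periodic (-(1 / 2))
  rw [← h2] at this
  norm_num at this ⊢
  linarith

theorem neg_two {f : ℝ → E3} (hf : MirrorKnot f) {s : ℝ} (h : s ∈ Ioo (-(1 / 2) : ℝ) 0) :
    (f s) 2 < 0 := by
  have h1 := hf.pos (-s) ⟨by linarith [h.2], by linarith [h.1]⟩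
  have := congrArg (fun x : E3 => x 2) (hf.sym (-s))
  simp only [mir_two, neg_neg] at this
  linarith

/-- Every parameter is of one of four types. -/
theorem types (t : ℝ) : ∃ (n : ℤ) (s : ℝ), t = s + n ∧
    (s ∈ Ioo (0 : ℝ) (1 / 2) ∨ s = 0 ∨ s = 1 / 2 ∨ s ∈ Ioo (-(1 / 2) : ℝ) 0) := by
  have h1 := Int.floor_le (t + 1 / 2)
  have h2 := Int.lt_floor_add_one (t + 1 / 2)
  set m := ⌊t + 1 / 2⌋ with hm
  by_cases hs : t - m = -(1 / 2)
  · refine ⟨m - 1, 1 / 2, by push_cast; linarith, Or.inr (Or.inr (Or.inl rfl))⟩
  · refine ⟨m, t - m, by ring, ?_⟩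
    have h3 : -(1 / 2) ≤ t - m := by linarith
    have h4 : t - m < 1 / 2 := by linarith
    have h5 : -(1 / 2) < t - m := lt_of_le_of_ne h3 (Ne.symm hs)
    rcases lt_trichotomy (t - m) 0 with h | h | h
    · exact Or.inr (Or.inr (Or.inr ⟨h5, h⟩))
    · exact Or.inr (Or.inl h)
    · exact Or.inl ⟨h, h4⟩

end Glue_aux

open Glue_aux

theorem tGlue : S_Mir → S_Glue := by
  intro _ r g t1 hr hg ht1 hn0 hn2
  have hg0 : g 0 = r 0 := hn0 0 (by simpa using ht1)
  have hgh : g (1 / 2) = r (1 / 2) := hn2 (1 / 2) (by simpa using ht1)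
  have hpos : ∀ t, 0 ≤ (r t) 2 → glue r g t = r t := by
    intro t ht
    simp only [glue]
    rw [if_pos ht]
  have hneg : ∀ t, (r t) 2 < 0 → glue r g t = g t := by
    intro t ht
    simp only [glue]
    rw [if_neg (not_le.2 ht)]
  have hrc : Continuous r := hr.smooth.continuous
  have hloc : ∀ t, (glue r g =ᶠ[𝓝 t] r) ∨ (glue r g =ᶠ[𝓝 t] g) := by
    intro t
    have hboth : (∀ᶠ u in 𝓝 t, g u = r u) → glue r g =ᶠ[𝓝 t] r := by
      intro h
      filter_upwards [h] with u hu
      by_cases h0 : 0 ≤ (r u) 2
      · exact hpos u h0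
      · rw [hneg u (not_le.1 h0), hu]
    obtain ⟨n, s, hts, hs⟩ := types t
    have hrt : r t = r s := by rw [hts]; exact per hr.toIsKnot s n
    have hc2 : Continuous (fun u => (r u) 2) := by fun_prop
    rcases hs with hs | hs | hs | hs
    · left
      have h1 : 0 < (r t) 2 := by rw [hrt]; exact hr.pos s hs
      filter_upwards [hc2.continuousAt.eventually (lt_mem_nhds h1)] with u hu
      exact hpos u hu.le
    · left
      apply hboth
      have : ∀ᶠ u in 𝓝 t, |u - t| < t1 := by
        have := Metric.ball_mem_nhds t ht1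
        filter_upwards [this] with u hu
        simpa [Real.dist_eq] using hu
      filter_upwards [this] with u hu
      have e : u = (u - n) + n := by ring
      have h1 : |u - n| < t1 := by
        rw [hts, hs] at hu
        simpa using hu
      rw [e, per hg.toIsKnot, per hr.toIsKnot]
      exact hn0 _ h1
    · left
      apply hboth
      have : ∀ᶠ u in 𝓝 t, |u - t| < t1 := by
        have := Metric.ball_mem_nhds t ht1
        filter_upwards [this] with u hu
        simpa [Real.dist_eq] using hu
      filter_upwards [this] with u hu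
      have e : u = (u - n) + n := by ring
      have h1 : |(u - n) - 1 / 2| < t1 := by
        rw [hts, hs] at hu
        have e2 : (u - n) - 1 / 2 = u - (1 / 2 + n) := by ring
        rw [e2]; exact hu
      rw [e, per hg.toIsKnot, per hr.toIsKnot]
      exact hn2 _ h1
    · right
      have h1 : (r t) 2 < 0 := by rw [hrt]; exact neg_two hr hs
      filter_upwards [hc2.continuousAt.eventually (gt_mem_nhds h1)] with u hu
      exact hneg u hu
  have hsign : ∀ t, (r t) 2 < 0 → (g t) 2 < 0 := by
    intro t ht
    obtain ⟨n, s, hts, hs⟩ := types t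
    have hrt : r t = r s := by rw [hts]; exact per hr.toIsKnot s n
    have hgt : g t = g s := by rw [hts]; exact per hg.toIsKnot s n
    rw [hrt] at ht
    rcases hs with hs | hs | hs | hs
    · exact absurd ht (not_lt.2 (hr.pos s hs).le)
    · rw [hs, zero_two hr] at ht
      exact absurd ht (lt_irrefl _)
    · rw [hs, half_two hr] at ht
      exact absurd ht (lt_irrefl _)
    · rw [hgt]; exact neg_two hg hs
  refine ⟨⟨?_, ?_, ?_, ?_⟩, ?_, ?_⟩
  · rw [contDiff_iff_contDiffAt]
    intro t
    rcases hloc t with h | h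
    · exact (hr.smooth.contDiffAt).congr_of_eventuallyEq h
    · exact (hg.smooth.contDiffAt).congr_of_eventuallyEq h
  · intro t
    have e1 := hr.periodic t
    have e2 := hg.periodic t
    by_cases h0 : 0 ≤ (r t) 2
    · rw [hpos t h0, hpos (t + 1) (by rw [e1]; exact h0), e1]
    · rw [hneg t (not_le.1 h0), hneg (t + 1) (by rw [e1]; exact not_le.1 h0), e2]
  · intro t
    rcases hloc t with h | h
    · rw [h.deriv_eq]; exact hr.regular t
    · rw [h.deriv_eq]; exact hg.regular t
  · intro s t hst
    by_cases hs : 0 ≤ (r s) 2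
    · by_cases ht : 0 ≤ (r t) 2
      · rw [hpos s hs, hpos t ht] at hst
        exact hr.inj s t hst
      · exfalso
        rw [hpos s hs, hneg t (not_le.1 ht)] at hst
        have := hsign t (not_le.1 ht)
        rw [← hst] at this
        linarith
    · by_cases ht : 0 ≤ (r t) 2
      · exfalso
        rw [hneg s (not_le.1 hs), hpos t ht] at hst
        have := hsign s (not_le.1 hs)
        rw [hst] at this
        linarith
      · rw [hneg s (not_le.1 hs), hneg t (not_le.1 ht)] at hst
        exact hg.inj s t hst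
  · intro t ht
    apply hpos
    rcases ht.1.lt_or_eq with h | h
    · rcases ht.2.lt_or_eq with h' | h'
      · exact (hr.pos t ⟨h, h'⟩).le
      · rw [h', half_two hr]
    · rw [← h, zero_two hr]
  · intro t ht
    rcases ht.1.lt_or_eq with h | h
    · rcases ht.2.lt_or_eq with h' | h'
      · apply hneg
        have e : t = (t - 1) + (1 : ℤ) := by push_cast; ring
        rw [e, per hr.toIsKnot]
        exact neg_two hr ⟨by linarith, by linarith⟩
      · have e1 : r t = r 0 := by
          have := hr.periodic 0
          rw [h', ← this]; norm_num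
        have e2 : g t = g 0 := by
          have := hg.periodic 0
          rw [h', ← this]; norm_num
        rw [hpos t (by rw [e1, zero_two hr]), e1]
        exact (e2.trans hg0).symm
    · rw [← h, hpos (1 / 2) (by rw [half_two hr])]
      exact hgh.symm

end MP_e78765_gt
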