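import Pool.Agent.Lib.MP_e78765_gt.Spec4

/-!
# THEOREM R3 (MP_e78765_gt), module Hf: energy of the straightened knot and of its half (helper31)
-/

set_option autoImplicit false

open scoped ContDiff Topology
open MeasureTheory Set Filter

namespace MP_e78765_gt

namespace Hf_aux

/-- The excess of `f` over `g` as an integral of the transform of the difference. -/
private theorem exc (hSp : S_Split) (hPa : S_Parts) (hGl : S_Glue) (hVG : S_VG) (hDW : S_DW)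
    {f g : ℝ → E3} {t0 t1 : ℝ} (hf : MirrorKnot f) (hg : MirrorKnot g) (h0 : g 0 = f 0)
    (h2 : g (1 / 2) = f (1 / 2)) (ht0 : 0 < t0) (ht01 : t0 < t1) (ht1 : t1 ≤ 1 / 4)
    (hn0 : ∀ t, |t| < t1 → g t = f t) (hn2 : ∀ t, |t - 1 / 2| < t1 → g t = f t) :
    energy f + energy g - 2 * energy (glue f g) =
        2 * ((Real.pi ^ 2)⁻¹ * ∫ ζ : ℂ × ℂ, ‖Dw f g ζ‖ ^ 2) := by
  obtain ⟨hk, hu, hl⟩ := hGl f g t1 hf hg (ht0.trans ht01) hn0 hn2
  obtain ⟨v1, v2⟩ := hVG f g t0 (1 / 2 - t0) hf hg h0 h2 ht0 (by linarith) (by linarith)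
  have e : ∀ ζ : ℂ × ℂ, Wt (Fc f) t0 (1 / 2 - t0) ζ - Wt (Fc g) t0 (1 / 2 - t0) ζ = Dw f g ζ :=
    hDW f g t0 t1 hf hg h0 h2 ht0 ht01 ht1 hn0 hn2
  simp only [e] at v1 v2
  rw [hSp f g (glue f g) hf hg hk hu hl, hPa f g (glue f g) t0 t1 hf hg hk hu hl ht0 ht01 ht1 hn0 hn2, v2]

end Hf_aux

theorem tHf : S_Split → S_Parts → S_Glue → S_VG → S_DW → S_E4 → S_Hf := by
  intro hSp hPa hGl hVG hDW hE4 r ℓ t0 t1 ε c a hS
  have e1 := Hf_aux.exc hSp hPa hGl hVG hDW hS.kn hS.ax.kn hS.ax.zero hS.ax.half hS.t0_pos hS.t01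
    hS.t1_le hS.near0 hS.near2
  rw [hE4 r ℓ hS.ax] at e1
  linarith

end MP_e78765_gt
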