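import Pool.Agent.Lib.MP_e78765_gt.Spec4

/-!
# THEOREM R3, module Hs: the image of the half-straight knot
-/

set_option autoImplicit false

open scoped ContDiff Topology
open MeasureTheory Set Filter

namespace MP_e78765_gt

namespace Hs_aux

theorem per_exists {f : ℝ → E3} (hf : ∀ t, f (t + 1) = f t) (t : ℝ) :
    ∃ s ∈ Ico (0 : ℝ) 1, f s = f t := by
  have hp : Function.Periodic f 1 := hf
  obtain ⟨s, hs, h⟩ := hp.exists_mem_Ico₀ one_pos t
  exact ⟨s, hs, h.symm⟩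

theorem neg_part {g : ℝ → E3} (hg : MirrorKnot g) {t : ℝ} (h1 : 1 / 2 < t) (h2 : t < 1) :
    g t 2 < 0 := by
  have e1 : g t = g (t - 1) := by
    have := hg.periodic (t - 1)
    rwa [sub_add_cancel] at this
  have e2 : g (t - 1) = mir (g (1 - t)) := by
    rw [← hg.sym, neg_sub]
  have h3 := hg.pos (1 - t) ⟨by linarith, by linarith⟩
  rw [e1, e2]
  simp only [mir]
  show -(g (1 - t) 2) < 0
  linarith

end Hs_aux

open Hs_aux in
theorem tHs : S_Mir → S_Hs := by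
  intro _ g ℓ h hg hl h0 h2 hper h3 h4
  constructor
  · ext x
    simp only [mem_inter_iff, mem_range, Set.mem_ofPred_eq]
    constructor
    · rintro ⟨⟨t, rfl⟩, hx⟩
      obtain ⟨s, hs, hst⟩ := per_exists hper t
      rw [← hst] at hx ⊢
      rcases le_or_gt s (1 / 2) with hc | hc
      · exact ⟨⟨s, (h3 s ⟨hs.1, hc⟩).symm⟩, hx⟩
      · rw [h4 s ⟨hc.le, hs.2.le⟩] at hx
        exact absurd hx (not_le.mpr (neg_part hl hc hs.2))
    · rintro ⟨⟨t, rfl⟩, hx⟩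
      obtain ⟨s, hs, hst⟩ := per_exists hg.periodic t
      rw [← hst] at hx ⊢
      rcases le_or_gt s (1 / 2) with hc | hc
      · exact ⟨⟨s, h3 s ⟨hs.1, hc⟩⟩, hx⟩
      · exact absurd hx (not_le.mpr (neg_part hg hc hs.2))
  · ext x
    simp only [mem_inter_iff, mem_range, Set.mem_ofPred_eq]
    constructor
    · rintro ⟨⟨t, rfl⟩, hx⟩
      obtain ⟨s, hs, hst⟩ := per_exists hper t
      rw [← hst] at hx ⊢
      rcases lt_or_ge s (1 / 2) with hc | hc
      · rcases eq_or_lt_of_le hs.1 with hz | hz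
        · rw [← hz] at hx ⊢
          exact ⟨⟨0, by rw [h0, h3 0 ⟨le_rfl, by norm_num⟩]⟩, hx⟩
        · rw [h3 s ⟨hs.1, hc.le⟩] at hx
          exact absurd hx (not_le.mpr (hg.pos s ⟨hz, hc⟩))
      · exact ⟨⟨s, (h4 s ⟨hc, hs.2.le⟩).symm⟩, hx⟩
    · rintro ⟨⟨t, rfl⟩, hx⟩
      obtain ⟨s, hs, hst⟩ := per_exists hl.periodic t
      rw [← hst] at hx ⊢
      rcases lt_or_ge s (1 / 2) with hc | hc
      · rcases eq_or_lt_of_le hs.1 with hz | hz
        · rw [← hz] at hx ⊢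
          exact ⟨⟨0, by rw [h0, h3 0 ⟨le_rfl, by norm_num⟩]⟩, hx⟩
        · exact absurd hx (not_le.mpr (hl.pos s ⟨hz, hc⟩))
      · exact ⟨⟨s, h4 s ⟨hc, hs.2.le⟩⟩, hx⟩

end MP_e78765_gt
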