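import Pool.Agent.Lib.MP_e78765_gt.Spec

/-!
# THEOREM R (MP_e78765_gt): inversion
-/

set_option autoImplicit false

open scoped ContDiff Topology
open MeasureTheory Set Filter

namespace MP_e78765_gt

namespace Inv_aux

theorem sq_pos {x : E3} (hx : x ≠ 0) : 0 < ‖x‖ ^ 2 := by
  have := norm_pos_iff.2 hx
  positivity

theorem sq_ne {x : E3} (hx : x ≠ 0) : ‖x‖ ^ 2 ≠ 0 := (sq_pos hx).ne'

theorem inv_ne {x : E3} (hx : x ≠ 0) : inv x ≠ 0 := by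
  rw [inv]
  exact smul_ne_zero (inv_ne_zero (sq_ne hx)) hx

theorem norm_inv {x : E3} (hx : x ≠ 0) : ‖inv x‖ = ‖x‖⁻¹ := by
  have h := norm_pos_iff.2 hx
  rw [inv, norm_smul, _root_.norm_inv, norm_pow, norm_norm]
  field_simp

theorem inv_inv' {x : E3} (hx : x ≠ 0) : inv (inv x) = x := by
  have h := norm_pos_iff.2 hx
  have h1 : inv (inv x) = (‖inv x‖ ^ 2)⁻¹ • (‖x‖ ^ 2)⁻¹ • x := rfl
  rw [h1, norm_inv hx, smul_smul]
  have : ((‖x‖⁻¹ ^ 2)⁻¹ * (‖x‖ ^ 2)⁻¹) = 1 := by field_simp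
  rw [this, one_smul]

theorem mir_smul (c : ℝ) (x : E3) : mir (c • x) = c • mir x := by
  ext i
  fin_cases i <;> simp [mir]

theorem mir_sub (x y : E3) : mir (x - y) = mir x - mir y := by
  ext i
  fin_cases i <;> simp [mir]
  ring

theorem inner_mir (x y : E3) : inner ℝ (mir x) (mir y) = inner ℝ x y := by
  simp [mir, PiLp.inner_apply, Fin.sum_univ_three]

theorem norm_mir (x : E3) : ‖mir x‖ = ‖x‖ := by
  have h : ‖mir x‖ ^ 2 = ‖x‖ ^ 2 := by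
    rw [← real_inner_self_eq_norm_sq, ← real_inner_self_eq_norm_sq, inner_mir]
  exact (pow_left_inj₀ (norm_nonneg _) (norm_nonneg _) two_ne_zero).1 h

theorem mir_inv (x : E3) : mir (inv x) = inv (mir x) := by
  rw [inv, inv, mir_smul, norm_mir]

theorem mir_dinv (x a : E3) : mir (dinv x a) = dinv (mir x) (mir a) := by
  rw [dinv, dinv, mir_smul, mir_sub, mir_smul, norm_mir, inner_mir]

theorem inv_smul (c : ℝ) (x : E3) (hc : c ≠ 0) : inv (c • x) = c⁻¹ • inv x := by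
  rw [inv, inv, norm_smul, smul_smul, smul_smul, Real.norm_eq_abs, mul_pow, sq_abs]
  congr 1
  rw [mul_inv]
  field_simp

theorem sq_dist (x y : E3) (hx : x ≠ 0) (hy : y ≠ 0) :
    ‖inv x - inv y‖ ^ 2 = ‖x - y‖ ^ 2 / (‖x‖ ^ 2 * ‖y‖ ^ 2) := by
  have h1 := sq_ne hx
  have h2 := sq_ne hy
  rw [norm_sub_sq_real, norm_sub_sq_real, norm_inv hx, norm_inv hy, inv, inv, inner_smul_left,
    inner_smul_right]
  simp only [conj_trivial]
  field_simp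
  ring

theorem dist_inv (x y : E3) (hx : x ≠ 0) (hy : y ≠ 0) :
    ‖inv x - inv y‖ = ‖x - y‖ / (‖x‖ * ‖y‖) := by
  have h := sq_dist x y hx hy
  have h1 : ‖x - y‖ ^ 2 / (‖x‖ ^ 2 * ‖y‖ ^ 2) = (‖x - y‖ / (‖x‖ * ‖y‖)) ^ 2 := by
    rw [div_pow, mul_pow]
  rw [h1] at h
  exact (pow_left_inj₀ (norm_nonneg _) (by positivity) two_ne_zero).1 h

theorem inner_dinv (x a b : E3) (hx : x ≠ 0) :
    inner ℝ (dinv x a) (dinv x b) = inner ℝ a b / ‖x‖ ^ 4 := by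
  have h1 := sq_ne hx
  have h2 : ‖x‖ ≠ 0 := norm_ne_zero_iff.2 hx
  rw [dinv, dinv]
  simp only [inner_smul_left, inner_smul_right, inner_sub_left, inner_sub_right, conj_trivial,
    real_inner_self_eq_norm_sq, real_inner_comm x a]
  field_simp
  ring

theorem norm_dinv (x a : E3) (hx : x ≠ 0) : ‖dinv x a‖ = ‖a‖ / ‖x‖ ^ 2 := by
  have h : ‖dinv x a‖ ^ 2 = (‖a‖ / ‖x‖ ^ 2) ^ 2 := by
    rw [← real_inner_self_eq_norm_sq, inner_dinv x a a hx, real_inner_self_eq_norm_sq, div_pow,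
      ← pow_mul]
  exact (pow_left_inj₀ (norm_nonneg _) (by positivity) two_ne_zero).1 h

theorem contDiff_inv {x : E3} (hx : x ≠ 0) : ContDiffAt ℝ ∞ inv x := by
  unfold inv
  exact ((contDiff_norm_sq ℝ).contDiffAt.inv (sq_ne hx)).smul contDiffAt_id

theorem deriv_inv (f : ℝ → E3) (a : E3) (t : ℝ) (h0 : f t ≠ 0) (h : HasDerivAt f a t) :
    HasDerivAt (fun s => inv (f s)) (dinv (f t) a) t := by
  have h1 : HasDerivAt (fun s => ‖f s‖ ^ 2) (2 * inner ℝ (f t) a) t := h.norm_sq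
  have h2 := (h1.inv (sq_ne h0)).smul h
  have e : dinv (f t) a = (‖f t‖ ^ 2)⁻¹ • a + (-(2 * inner ℝ (f t) a) / (‖f t‖ ^ 2) ^ 2) • f t := by
    rw [dinv, smul_sub, smul_smul, sub_eq_add_neg, ← neg_smul]
    congr 2
    have := sq_ne h0
    field_simp
  rw [e]
  exact h2

theorem alg (n m s xa xb ya yb ab N D : ℝ) (hn : n ≠ 0) (hm : m ≠ 0) (hD : D ≠ 0)
    (hs : s = (n + m - D) / 2) :
    (N / (n * m) + (ab - 2 * xa * xb / n - 2 * yb * ya / m + 4 * xa * yb * s / (n * m)) / (n * m) -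
        2 * (-(xa / n ^ 2) - (ya - 2 * xa * s / n) / (n * m)) *
          ((xb - 2 * yb * s / m) / (n * m) + yb / m ^ 2) / (D / (n * m))) / (D / (n * m)) =
      (N + ab - 2 * (xa - ya) * (xb - yb) / D) / D := by
  subst hs
  field_simp
  ring

theorem inner_AB (x a y b : E3) (hx : x ≠ 0) (hy : y ≠ 0) :
    inner ℝ (dinv x a) (dinv y b) =
      (inner ℝ a b - 2 * inner ℝ x a * inner ℝ x b / ‖x‖ ^ 2 -
        2 * inner ℝ y b * inner ℝ y a / ‖y‖ ^ 2 +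
        4 * inner ℝ x a * inner ℝ y b * inner ℝ x y / (‖x‖ ^ 2 * ‖y‖ ^ 2)) /
          (‖x‖ ^ 2 * ‖y‖ ^ 2) := by
  have h1 : ‖x‖ ≠ 0 := norm_ne_zero_iff.2 hx
  have h2 : ‖y‖ ≠ 0 := norm_ne_zero_iff.2 hy
  rw [dinv, dinv]
  simp only [inner_smul_left, inner_smul_right, inner_sub_left, inner_sub_right, conj_trivial,
    real_inner_comm y a]
  field_simp
  ring

theorem inner_XA (x a y : E3) (hx : x ≠ 0) (hy : y ≠ 0) :
    inner ℝ (inv x - inv y) (dinv x a) =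
      -(inner ℝ x a / (‖x‖ ^ 2) ^ 2) -
        (inner ℝ y a - 2 * inner ℝ x a * inner ℝ x y / ‖x‖ ^ 2) / (‖x‖ ^ 2 * ‖y‖ ^ 2) := by
  have h1 : ‖x‖ ≠ 0 := norm_ne_zero_iff.2 hx
  have h2 : ‖y‖ ≠ 0 := norm_ne_zero_iff.2 hy
  rw [dinv, inv, inv]
  simp only [inner_smul_left, inner_smul_right, inner_sub_left, inner_sub_right, conj_trivial,
    real_inner_self_eq_norm_sq, real_inner_comm x y]
  field_simp
  ring

theorem inner_XB (x y b : E3) (hx : x ≠ 0) (hy : y ≠ 0) :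
    inner ℝ (inv x - inv y) (dinv y b) =
      (inner ℝ x b - 2 * inner ℝ y b * inner ℝ x y / ‖y‖ ^ 2) / (‖x‖ ^ 2 * ‖y‖ ^ 2) +
        inner ℝ y b / (‖y‖ ^ 2) ^ 2 := by
  have h1 : ‖x‖ ≠ 0 := norm_ne_zero_iff.2 hx
  have h2 : ‖y‖ ≠ 0 := norm_ne_zero_iff.2 hy
  rw [dinv, inv, inv]
  simp only [inner_smul_left, inner_smul_right, inner_sub_left, inner_sub_right, conj_trivial,
    real_inner_self_eq_norm_sq]
  field_simp
  ring

theorem qf_inv (x a y b : E3) (hx : x ≠ 0) (hy : y ≠ 0) :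
    qf (inv x) (dinv x a) (inv y) (dinv y b) = qf x a y b := by
  have h1 := sq_ne hx
  have h2 := sq_ne hy
  rw [qf, qf, sq_dist x y hx hy, inner_AB x a y b hx hy, inner_XA x a y hx hy,
    inner_XB x y b hx hy, norm_dinv x a hx, norm_dinv y b hy]
  by_cases hD : x - y = 0
  · simp [hD]
  have hD' : ‖x - y‖ ^ 2 ≠ 0 := sq_ne hD
  have hs : inner ℝ x y = (‖x‖ ^ 2 + ‖y‖ ^ 2 - ‖x - y‖ ^ 2) / 2 := by
    rw [norm_sub_sq_real]
    ring
  have h := alg (‖x‖ ^ 2) (‖y‖ ^ 2) (inner ℝ x y) (inner ℝ x a) (inner ℝ x b) (inner ℝ y a)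
    (inner ℝ y b) (inner ℝ a b) (‖a‖ * ‖b‖) (‖x - y‖ ^ 2) h1 h2 hD' hs
  rw [div_mul_div_comm, h, inner_sub_left, inner_sub_left]

theorem kf_inv (x a y b : E3) (hx : x ≠ 0) (hy : y ≠ 0) :
    kf (inv x) (dinv x a) (inv y) (dinv y b) = kf x a y b := by
  have h1 := sq_ne hx
  have h2 := sq_ne hy
  rw [kf, kf, sq_dist x y hx hy, norm_dinv x a hx, norm_dinv y b hy, div_mul_div_comm]
  by_cases hD : x - y = 0
  · simp [hD]
  have hD' : ‖x - y‖ ^ 2 ≠ 0 := sq_ne hD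
  field_simp

end Inv_aux

open Inv_aux in
theorem tInv : S_Inv :=
  ⟨fun _ hx => inv_ne hx, fun _ hx => inv_inv' hx, fun _ hx => Inv_aux.norm_inv hx,
    dist_inv, norm_dinv, mir_inv, mir_dinv, fun c x hc => Inv_aux.inv_smul c x hc,
    fun _ hx => contDiff_inv hx, deriv_inv, qf_inv, kf_inv⟩

end MP_e78765_gt
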