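import Pool.Agent.Lib.MP_e78765_gt.Spec3

set_option autoImplicit false

/-! Equivariant ambient isotopy between a mirror knot and the pushed knot. -/

open scoped ContDiff Topology
open MeasureTheory Set Filter

namespace MP_e78765_gt

namespace IsoA_aux

theorem inv_contAt {x : E3} (hx : x ≠ 0) : ContinuousAt inv x := by
  have h0 : ‖x‖ ^ 2 ≠ 0 := by
    have : 0 < ‖x‖ := norm_pos_iff.2 hx
    positivity
  have h1 : ContinuousAt (fun x : E3 => (‖x‖ ^ 2)⁻¹) x :=
    ContinuousAt.inv₀ (by fun_prop) h0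
  exact h1.smul continuousAt_id

theorem norm_inv_eq {x : E3} (hx : x ≠ 0) : ‖inv x‖ = ‖x‖⁻¹ := by
  have h : 0 < ‖x‖ := norm_pos_iff.2 hx
  unfold inv
  rw [norm_smul, norm_inv, norm_pow, norm_norm]
  field_simp

theorem mir_fix {x : E3} (hx : x 2 = 0) : mir x = x := by
  ext i
  fin_cases i
  · simp [mir]
  · simp [mir]
  · simp [mir, hx]

/-- The moving map. -/
noncomputable def H0 (r : ℝ → E3) (ε c a : ℝ) (σ : ℝ) (x : E3) : E3 :=
  open Classical in if x = r (1 / 2) then r (1 / 2) else back r (ps ε c (σ * a) (ch r x))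

theorem H0_q (r : ℝ → E3) (ε c a σ : ℝ) : H0 r ε c a σ (r (1 / 2)) = r (1 / 2) := by
  unfold H0
  rw [if_pos rfl]

theorem H0_ne (r : ℝ → E3) (ε c a σ : ℝ) {x : E3} (h : x ≠ r (1 / 2)) :
    H0 r ε c a σ x = back r (ps ε c (σ * a) (ch r x)) := by
  unfold H0
  rw [if_neg h]

end IsoA_aux

open IsoA_aux

theorem tIsoA : S_Ps → S_Ch → S_Mir → S_Inv → S_IsoA := by
  intro hPs hCh hMir hInv r ℓ t0 t1 ε c a hStr
  obtain ⟨h1, h2, h3, h4, h5, h6, h7, h8, h9, h10, h11, h12, h13, h14, h15, h16⟩ :=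
    hCh r hStr.kn
  have hε : 0 < ε := hStr.ok.1
  have ha : 0 ≤ a := hStr.ok.2.1
  have hc : 0 < c := hStr.c_pos
  obtain ⟨hDc, hDb, hD0, hDid, hDcone, hDmir, -⟩ := hPs ε c a hStr.ok hc hStr.c_le
  obtain ⟨m1, m2, m3, m4, m5, -, -, -⟩ := hMir
  obtain ⟨-, -, -, -, -, i1, -, -, -, -, -, -⟩ := hInv
  set q := r (1 / 2) with hq
  set P := ph r with hP
  have hSσ : ∀ σ : unitInterval, ((σ : ℝ) * a) ∈ Icc (0 : ℝ) a := by
    intro σ
    refine ⟨mul_nonneg σ.2.1 ha, ?_⟩
    exact mul_le_of_le_one_left ha σ.2.2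
  -- the open set where ps is the identity
  have hU : ∃ δ : ℝ, 0 < δ ∧ ∀ y : E3, ‖y + P‖ < δ → ∀ σ : ℝ, ps ε c σ y = y := by
    have hcont : Continuous (fun y : E3 => c * ‖y‖ / 2 - |y 2|) := by fun_prop
    have hpos : 0 < (fun y : E3 => c * ‖y‖ / 2 - |y 2|) (-P) := by
      have : 0 < ‖P‖ := norm_pos_iff.2 h4
      simp only [PiLp.neg_apply, h3, norm_neg, neg_zero, abs_zero, sub_zero]
      positivity
    have := hcont.continuousAt.eventually (lt_mem_nhds hpos)
    obtain ⟨δ, hδ, hb⟩ := Metric.eventually_nhds_iff.1 this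
    refine ⟨δ, hδ, fun y hy σ => hDid σ y (Or.inr (Or.inr ?_))⟩
    have h := hb (y := y) (by rw [dist_eq_norm]; simpa using hy)
    linarith
  obtain ⟨δ, hδ, hδid⟩ := hU
  have hdlP : ∀ σ : ℝ, ps ε c σ (-P) = -P := fun σ => hδid _ (by simpa using hδ) σ
  -- near q the map is the identity
  have hnear : ∃ η : ℝ, 0 < η ∧ ∀ x : E3, ‖x - q‖ < η → ∀ σ : ℝ, H0 r ε c a σ x = x := by
    have hA : 0 < 1 / ε + ‖P‖ := by positivity
    refine ⟨(1 / ε + ‖P‖)⁻¹, by positivity, fun x hx σ => ?_⟩
    by_cases hxq : x = q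
    · rw [hxq]; exact H0_q _ _ _ _ _
    rw [H0_ne _ _ _ _ _ hxq]
    have hx0 : x - q ≠ 0 := sub_ne_zero.2 hxq
    have hpos : 0 < ‖x - q‖ := norm_pos_iff.2 hx0
    have hn : 1 / ε ≤ ‖ch r x‖ := by
      have e1 : ‖inv (x - q)‖ = ‖x - q‖⁻¹ := norm_inv_eq hx0
      have e2 : 1 / ε + ‖P‖ ≤ ‖x - q‖⁻¹ := by
        rw [le_inv_comm₀ hA hpos]
        exact hx.le
      have e3 : ‖inv (x - q)‖ - ‖P‖ ≤ ‖ch r x‖ := norm_sub_norm_le _ _
      linarith
    rw [hDid _ _ (Or.inr (Or.inl ?_))]
    · exact (h7 x hxq).1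
    · rw [div_le_iff₀ hε] at hn
      linarith
  obtain ⟨η, hη, hηid⟩ := hnear
  -- far away the map is the identity
  have hfar : ∀ x : E3, 1 / δ < ‖x - q‖ → ∀ σ : ℝ, H0 r ε c a σ x = x := by
    intro x hx σ
    have hpos : 0 < ‖x - q‖ := lt_trans (by positivity) hx
    have hx0 : x - q ≠ 0 := norm_pos_iff.1 hpos
    have hxq : x ≠ q := sub_ne_zero.1 hx0
    rw [H0_ne _ _ _ _ _ hxq, hδid]
    · exact (h7 x hxq).1
    · have : ch r x + P = inv (x - q) := by
        simp only [ch]
        rw [← hP, ← hq, sub_add_cancel]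
      rw [this, norm_inv_eq hx0]
      rw [inv_lt_comm₀ hpos hδ]
      simpa using hx
  -- joint continuity
  have hchc : ∀ x, x ≠ q → ContinuousAt (ch r) x := by
    intro x hx
    unfold ch
    apply ContinuousAt.sub _ continuousAt_const
    have h0 : x - r (1 / 2) ≠ 0 := sub_ne_zero.2 hx
    exact ContinuousAt.comp (f := fun y : E3 => y - r (1 / 2)) (x := x) (inv_contAt h0) (by fun_prop)
  have hbackc : ∀ y, y ≠ -P → ContinuousAt (back r) y := by
    intro y hy
    unfold back
    apply ContinuousAt.add continuousAt_const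
    have h0 : y + ph r ≠ 0 := by
      intro h
      exact hy (eq_neg_of_add_eq_zero_left h)
    exact ContinuousAt.comp (f := fun y : E3 => y + ph r) (x := y) (inv_contAt h0) (by fun_prop)
  have hcont : Continuous (fun z : unitInterval × E3 => H0 r ε c a z.1 z.2) := by
    rw [continuous_iff_continuousAt]
    rintro ⟨σ, x⟩
    by_cases hxq : x = q
    · have hev : (fun z : unitInterval × E3 => H0 r ε c a z.1 z.2) =ᶠ[𝓝 (σ, x)]
          fun z => z.2 := by
        have ho : IsOpen {z : unitInterval × E3 | ‖z.2 - q‖ < η} :=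
          isOpen_lt (by fun_prop) continuous_const
        filter_upwards [ho.mem_nhds (by simpa [hxq] using hη)] with z hz
        exact hηid _ hz _
      exact (continuous_snd.continuousAt).congr hev.symm
    · have hev : (fun z : unitInterval × E3 => H0 r ε c a z.1 z.2) =ᶠ[𝓝 (σ, x)]
          fun z => back r (ps ε c ((z.1 : ℝ) * a) (ch r z.2)) := by
        have ho : IsOpen {z : unitInterval × E3 | z.2 ≠ q} :=
          isOpen_ne_fun continuous_snd continuous_const
        filter_upwards [ho.mem_nhds hxq] with z hz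
        exact H0_ne _ _ _ _ _ hz
      refine ContinuousAt.congr ?_ hev.symm
      have hne : ps ε c ((σ : ℝ) * a) (ch r x) ≠ -P := by
        intro h
        rw [← hdlP ((σ : ℝ) * a)] at h
        exact (h7 x hxq).2.1 ((hDb _ (hSσ σ)).1 h)
      have k1 : ContinuousAt (fun z : unitInterval × E3 => ((z.1 : ℝ) * a, ch r z.2)) (σ, x) := by
        apply ContinuousAt.prodMk
        · fun_prop
        · exact ContinuousAt.comp (f := fun z : unitInterval × E3 => z.2) (x := (σ, x))
            (hchc x hxq) continuousAt_snd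
      have k2 : ContinuousAt (fun z : unitInterval × E3 => ps ε c ((z.1 : ℝ) * a) (ch r z.2))
          (σ, x) :=
        ContinuousAt.comp (f := fun z : unitInterval × E3 => ((z.1 : ℝ) * a, ch r z.2))
          (g := fun z : ℝ × E3 => ps ε c z.1 z.2) (x := (σ, x)) hDc.continuousAt k1
      exact ContinuousAt.comp (f := fun z : unitInterval × E3 => ps ε c ((z.1 : ℝ) * a) (ch r z.2))
        (g := back r) (x := (σ, x)) (hbackc _ hne) k2
  -- bijectivity
  have hbij : ∀ σ : unitInterval, Function.Bijective (H0 r ε c a σ) := by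
    intro σ
    have hb := hDb _ (hSσ σ)
    have hne : ∀ x, x ≠ q → ps ε c ((σ : ℝ) * a) (ch r x) ≠ -P := by
      intro x hx h
      rw [← hdlP ((σ : ℝ) * a)] at h
      exact (h7 x hx).2.1 (hb.1 h)
    constructor
    · intro x y hxy
      by_cases hx : x = q
      · by_cases hy : y = q
        · rw [hx, hy]
        · exfalso
          rw [hx, H0_q, H0_ne _ _ _ _ _ hy] at hxy
          exact (h8 _ (hne y hy)).2.1 hxy.symm
      · by_cases hy : y = q
        · exfalso
          rw [hy, H0_q, H0_ne _ _ _ _ _ hx] at hxy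
          exact (h8 _ (hne x hx)).2.1 hxy
        · rw [H0_ne _ _ _ _ _ hx, H0_ne _ _ _ _ _ hy] at hxy
          have e := congrArg (ch r) hxy
          rw [(h8 _ (hne x hx)).1, (h8 _ (hne y hy)).1] at e
          have e2 := hb.1 e
          have e3 := congrArg (back r) e2
          rwa [(h7 x hx).1, (h7 y hy).1] at e3
    · intro y
      by_cases hy : y = q
      · exact ⟨q, by rw [hy]; exact H0_q _ _ _ _ _⟩
      · obtain ⟨z, hz⟩ := hb.2 (ch r y)
        have hzP : z ≠ -P := by
          intro h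
          rw [h, hdlP] at hz
          exact (h7 y hy).2.1 hz.symm
        refine ⟨back r z, ?_⟩
        rw [H0_ne _ _ _ _ _ (h8 z hzP).2.1, (h8 z hzP).1, hz, (h7 y hy).1]
  -- closed maps
  have hclosed : ∀ σ : unitInterval, IsClosedMap (H0 r ε c a σ) := by
    intro σ
    have hcσ : Continuous (H0 r ε c a σ) :=
      hcont.comp (Continuous.prodMk continuous_const continuous_id)
    have hp : IsProperMap (H0 r ε c a σ) := by
      rw [isProperMap_iff_tendsto_cocompact]
      refine ⟨hcσ, ?_⟩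
      have hev : (fun x : E3 => x) =ᶠ[cocompact E3] H0 r ε c a σ := by
        have hc : (Metric.closedBall q (1 / δ))ᶜ ∈ cocompact E3 :=
          (isCompact_closedBall q (1 / δ)).compl_mem_cocompact
        filter_upwards [hc] with x hx
        rw [mem_compl_iff, Metric.mem_closedBall, not_le, dist_eq_norm] at hx
        exact (hfar x hx σ).symm
      exact Tendsto.congr' hev tendsto_id
    exact hp.isClosedMap
  refine ⟨fun σ => (Equiv.ofBijective _ (hbij σ)).toHomeomorphOfContinuousClosed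
    (hcont.comp (Continuous.prodMk continuous_const continuous_id)) (hclosed σ), ?_, ?_, ?_, ?_⟩
  · exact hcont
  · intro x
    change H0 r ε c a ((0 : unitInterval) : ℝ) x = x
    by_cases hx : x = q
    · rw [hx]; exact H0_q _ _ _ _ _
    · rw [H0_ne _ _ _ _ _ hx]
      simp only [Icc.coe_zero, zero_mul]
      rw [hD0, (h7 x hx).1]
  · have key : ∀ t, H0 r ε c a ((1 : unitInterval) : ℝ) (r t) = ra ε c a r t := by
      intro t
      simp only [Icc.coe_one]
      by_cases hq1 : r t = q
      · rw [hq1, H0_q]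
        simp only [ra]
        rw [if_pos hq1]
      · rw [H0_ne _ _ _ _ _ hq1, one_mul]
        simp only [ra]
        rw [if_neg hq1]
        rfl
    ext y
    constructor
    · rintro ⟨x, ⟨t, rfl⟩, rfl⟩
      exact ⟨t, (key t).symm⟩
    · rintro ⟨t, rfl⟩
      exact ⟨r t, ⟨t, rfl⟩, key t⟩
  · intro σ x
    change H0 r ε c a (σ : ℝ) (mir x) = mir (H0 r ε c a (σ : ℝ) x)
    have hmq : mir q = q := mir_fix h2
    have hmP : mir P = P := mir_fix h3
    by_cases hx : x = q
    · rw [hx, hmq, H0_q, hmq]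
    · have hmx : mir x ≠ q := by
        intro h
        apply hx
        rw [← m4 x, h, hmq]
      rw [H0_ne _ _ _ _ _ hx, H0_ne _ _ _ _ _ hmx]
      have e1 : ch r (mir x) = mir (ch r x) := by
        simp only [ch]
        rw [← hP, ← hq, m3, hmP, i1, m3, hmq]
      have e2 : ∀ y : E3, back r (mir y) = mir (back r y) := by
        intro y
        simp only [back]
        rw [← hP, ← hq, m1, hmq, i1, m1, hmP]
      rw [e1, hDmir, e2]

end MP_e78765_gt
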