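import Pool.Agent.Lib.MP_e78765_gt.Spec

/-!
# Gaussian formula for the reflected kernel (MP_e78765_gt)
-/

set_option autoImplicit false

open scoped ContDiff Topology
open MeasureTheory Set Filter

namespace MP_e78765_gt

namespace Ker_aux

lemma norm_sub_mir (x y : E3) :
    ‖x - mir y‖ ^ 2 = (x 0 - y 0) ^ 2 + (x 1 - y 1) ^ 2 + (x 2 + y 2) ^ 2 := by
  rw [EuclideanSpace.norm_sq_eq, Fin.sum_univ_three]
  simp [mir, Real.norm_eq_abs, sq_abs]

lemma norm_phi (x : E3) (ζ : ℂ × ℂ) :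
    ‖phi ζ x‖ = Real.exp (-(x 2 * (‖ζ.1‖ ^ 2 + ‖ζ.2‖ ^ 2))) := by
  rw [phi, Complex.norm_exp]
  congr 1
  rw [Complex.sub_re, Complex.neg_re, Complex.ofReal_re, Complex.re_mul_ofReal]
  simp

lemma continuous_phi (x : E3) : Continuous (fun ζ : ℂ × ℂ => phi ζ x) := by
  unfold phi
  fun_prop

/-- the planar displacement -/
noncomputable def dd (x y : E3) : ℂ := ⟨x 0 - y 0, x 1 - y 1⟩

lemma phi_mul (x y : E3) (ζ : ℂ × ℂ) :
    phi ζ x * (starRingEnd ℂ) (phi ζ y) =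
      Complex.exp (-((x 2 + y 2 : ℝ) : ℂ) * (‖ζ.1‖ : ℂ) ^ 2) *
      Complex.exp (-((x 2 + y 2 : ℝ) : ℂ) * (‖ζ.2‖ : ℂ) ^ 2 +
        (-2 * Complex.I) * (inner ℝ (dd x y * ζ.1) ζ.2 : ℝ)) := by
  rw [phi, phi, ← Complex.exp_conj, ← Complex.exp_add, ← Complex.exp_add]
  congr 1
  rw [Complex.inner, map_sub, map_neg, map_mul, Complex.conj_ofReal, Complex.conj_I,
    Complex.conj_ofReal]
  have : (ζ.2 * (starRingEnd ℂ) (dd x y * ζ.1)).re =
      (x 0 - y 0) * ((starRingEnd ℂ) ζ.1 * ζ.2).re +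
      (x 1 - y 1) * ((starRingEnd ℂ) ζ.1 * ζ.2).im := by
    simp [dd, Complex.mul_re, Complex.mul_im]
    ring
  rw [this]
  push_cast
  ring

lemma integrable_gauss {A : ℝ} (hA : 0 < A) :
    Integrable (fun z : ℂ => Real.exp (-A * ‖z‖ ^ 2)) := by
  have h := GaussianFourier.integrable_cexp_neg_mul_sq_norm_add (V := ℂ) (b := (A : ℂ))
    (by simpa using hA) 0 0
  refine h.norm.congr (Eventually.of_forall fun z => ?_)
  simp only [Complex.norm_exp]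
  congr 1
  have : (-(A : ℂ) * (‖z‖ : ℂ) ^ 2 + 0 * (inner ℝ (0 : ℂ) z : ℝ)) = ((-A * ‖z‖ ^ 2 : ℝ) : ℂ) := by
    push_cast; ring
  rw [this, Complex.ofReal_re]

lemma gauss {b : ℝ} (hb : 0 < b) (c w : ℂ) :
    (∫ z : ℂ, Complex.exp (-(b : ℂ) * (‖z‖ : ℂ) ^ 2 + c * (inner ℝ w z : ℝ))) =
      (Real.pi / b : ℂ) * Complex.exp (c ^ 2 * (‖w‖ : ℂ) ^ 2 / (4 * b)) := by
  have h := GaussianFourier.integral_cexp_neg_mul_sq_norm_add (V := ℂ) (b := (b : ℂ))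
    (by simpa using hb) c w
  rw [h, Complex.finrank_real_complex]
  norm_num

end Ker_aux

open Ker_aux in
theorem tKer : S_Ker := by
  intro x y hx hy
  have hA : 0 < x 2 + y 2 := by linarith
  have hint : Integrable (fun ζ : ℂ × ℂ => phi ζ x * (starRingEnd ℂ) (phi ζ y)) := by
    have h1 : Integrable (fun ζ : ℂ × ℂ => Real.exp (-(x 2 + y 2) * ‖ζ.1‖ ^ 2) *
        Real.exp (-(x 2 + y 2) * ‖ζ.2‖ ^ 2)) := (integrable_gauss hA).mul_prod (integrable_gauss hA)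
    refine h1.mono' ?_ (Eventually.of_forall fun ζ => ?_)
    · exact ((continuous_phi x).mul (Complex.continuous_conj.comp
        (continuous_phi y))).aestronglyMeasurable
    · rw [norm_mul, Complex.norm_conj, norm_phi, norm_phi, ← Real.exp_add, ← Real.exp_add]
      exact le_of_eq (congrArg Real.exp (by ring))
  refine ⟨norm_phi x, hint, ?_⟩
  rw [Measure.volume_eq_prod, integral_prod _ hint]
  have hinner : ∀ z : ℂ, (∫ w : ℂ, phi (z, w) x * (starRingEnd ℂ) (phi (z, w) y)) =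
      (Real.pi / (x 2 + y 2 : ℝ) : ℂ) * Complex.exp
        (-((x 2 + y 2 + ‖dd x y‖ ^ 2 / (x 2 + y 2) : ℝ) : ℂ) * (‖z‖ : ℂ) ^ 2 +
          0 * (inner ℝ (0 : ℂ) z : ℝ)) := by
    intro z
    have h1 : ∀ w : ℂ, phi (z, w) x * (starRingEnd ℂ) (phi (z, w) y) =
        Complex.exp (-((x 2 + y 2 : ℝ) : ℂ) * (‖z‖ : ℂ) ^ 2) *
        Complex.exp (-((x 2 + y 2 : ℝ) : ℂ) * (‖w‖ : ℂ) ^ 2 +
        (-2 * Complex.I) * (inner ℝ (dd x y * z) w : ℝ)) := fun w => phi_mul x y (z, w)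
    simp_rw [h1]
    rw [integral_const_mul, gauss hA, mul_left_comm, ← Complex.exp_add]
    congr 2
    rw [norm_mul]
    have hAne : ((x 2 + y 2 : ℝ) : ℂ) ≠ 0 := by exact_mod_cast hA.ne'
    push_cast at hAne ⊢
    rw [mul_pow, Complex.I_sq]
    field_simp
    ring
  simp_rw [hinner]
  have hB : 0 < x 2 + y 2 + ‖dd x y‖ ^ 2 / (x 2 + y 2) := by positivity
  rw [integral_const_mul, gauss hB]
  have hn : ‖dd x y‖ ^ 2 = (x 0 - y 0) ^ 2 + (x 1 - y 1) ^ 2 := by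
    rw [← Complex.normSq_eq_norm_sq, Complex.normSq_apply, dd]
    ring
  have hden : ‖x - mir y‖ ^ 2 = (x 2 + y 2) * (x 2 + y 2 + ‖dd x y‖ ^ 2 / (x 2 + y 2)) := by
    rw [norm_sub_mir, mul_add, mul_div_cancel₀ _ hA.ne', hn]
    ring
  rw [hden]
  simp only [norm_zero, Complex.ofReal_zero, ne_eq, OfNat.ofNat_ne_zero, not_false_eq_true,
    zero_pow, mul_zero, zero_div, Complex.exp_zero, mul_one]
  push_cast
  rw [div_mul_div_comm, sq (Real.pi : ℂ)]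

end MP_e78765_gt
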