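import Pool.Agent.Lib.MP_e78765_gt.Spec3

/-!
# THEOREM R2 (MP_e78765_gt), module Key: the energy identity (helper73)
-/

set_option autoImplicit false

open scoped ContDiff Topology
open MeasureTheory Set Filter

namespace MP_e78765_gt

namespace Key_aux

/-- The excess of `f` over `g` as an integral of the transform of the difference. -/
private theorem exc (hSp : S_Split) (hPa : S_Parts) (hGl : S_Glue) (hVG : S_VG) (hDW : S_DW)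
    {f g : ℝ → E3} {t0 t1 : ℝ} (hf : MirrorKnot f) (hg : MirrorKnot g) (h0 : g 0 = f 0)
    (h2 : g (1 / 2) = f (1 / 2)) (ht0 : 0 < t0) (ht01 : t0 < t1) (ht1 : t1 ≤ 1 / 4)
    (hn0 : ∀ t, |t| < t1 → g t = f t) (hn2 : ∀ t, |t - 1 / 2| < t1 → g t = f t) :
    Integrable (fun ζ : ℂ × ℂ => ‖Dw f g ζ‖ ^ 2) ∧
      energy f + energy g - 2 * energy (glue f g) =
        2 * ((Real.pi ^ 2)⁻¹ * ∫ ζ : ℂ × ℂ, ‖Dw f g ζ‖ ^ 2) := by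
  obtain ⟨hk, hu, hl⟩ := hGl f g t1 hf hg (ht0.trans ht01) hn0 hn2
  obtain ⟨v1, v2⟩ := hVG f g t0 (1 / 2 - t0) hf hg h0 h2 ht0 (by linarith) (by linarith)
  have e : ∀ ζ : ℂ × ℂ, Wt (Fc f) t0 (1 / 2 - t0) ζ - Wt (Fc g) t0 (1 / 2 - t0) ζ = Dw f g ζ :=
    hDW f g t0 t1 hf hg h0 h2 ht0 ht01 ht1 hn0 hn2
  simp only [e] at v1 v2
  refine ⟨v1, ?_⟩
  rw [hSp f g (glue f g) hf hg hk hu hl, hPa f g (glue f g) t0 t1 hf hg hk hu hl ht0 ht01 ht1 hn0 hn2, v2]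

end Key_aux

theorem tKey : S_Split → S_Parts → S_Glue → S_EH → S_VG → S_DW → S_WA → S_Ra → S_Key := by
  intro hSp hPa hGl hEH hVG hDW hWA hRa r ℓ t0 t1 ε c a hS
  obtain ⟨kR, R0, R2, ⟨t2, ht2, ht20, hn0, hn2⟩, -, -⟩ := hRa r ℓ t0 t1 ε c a hS
  obtain ⟨i1, e1⟩ := Key_aux.exc hSp hPa hGl hVG hDW hS.kn hS.ax.kn hS.ax.zero hS.ax.half hS.t0_pos hS.t01
    hS.t1_le hS.near0 hS.near2
  have ht21 : t2 < t1 := ht20.trans_lt hS.t01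
  obtain ⟨i2, e2⟩ := Key_aux.exc hSp hPa hGl hVG hDW (f := ra ε c a r) (g := ℓ) (t0 := t2 / 2) (t1 := t2)
    kR hS.ax.kn (hS.ax.zero.trans R0.symm) (hS.ax.half.trans R2.symm) (half_pos ht2) (half_lt_self ht2)
    (ht21.le.trans hS.t1_le) (fun t ht => (hS.near0 t (ht.trans ht21)).trans (hn0 t ht).symm)
    (fun t ht => (hS.near2 t (ht.trans ht21)).trans (hn2 t ht).symm)
  rw [hEH r ℓ t0 t1 ε c a hS] at e2
  have hae : (fun ζ : ℂ × ℂ => ‖Dw (ra ε c a r) ℓ ζ‖ ^ 2) =ᵐ[volume]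
      fun ζ : ℂ × ℂ => Real.exp (-(2 * (a * (‖ζ.1‖ ^ 2 + ‖ζ.2‖ ^ 2)))) * ‖Dw r ℓ ζ‖ ^ 2 := by
    have hno : NullSingletonClass (volume : Measure (ℂ × ℂ)) := Measure.prod.instNullSingletonClass_fst
    have hne : ∀ᵐ ζ : ℂ × ℂ, ζ ≠ 0 := Measure.ae_ne volume 0
    filter_upwards [hne] with ζ hζ
    rw [hWA r ℓ t0 t1 ε c a hS ζ hζ, norm_mul, mul_pow]
    congr 1
    rw [Complex.norm_real, Real.norm_of_nonneg (Real.exp_pos _).le, ← Real.exp_nat_mul]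
    congr 1
    push_cast
    ring
  have i3 := i2.congr hae
  rw [integral_congr_ae hae] at e2
  refine ⟨i1, ?_⟩
  have e3 : ∫ ζ : ℂ × ℂ, (1 - Real.exp (-(2 * (a * (‖ζ.1‖ ^ 2 + ‖ζ.2‖ ^ 2))))) * ‖Dw r ℓ ζ‖ ^ 2 =
      (∫ ζ : ℂ × ℂ, ‖Dw r ℓ ζ‖ ^ 2) -
        ∫ ζ : ℂ × ℂ, Real.exp (-(2 * (a * (‖ζ.1‖ ^ 2 + ‖ζ.2‖ ^ 2)))) * ‖Dw r ℓ ζ‖ ^ 2 := by
    rw [← integral_sub i1 i3]
    congr 1
    funext ζ
    ring
  rw [e3, mul_sub, mul_sub]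
  linarith

end MP_e78765_gt
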