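import Pool.Agent.Lib.MP_e78765_gt.Spec5

/-!
# Module LLi: integrability and linearity of the first variation (MP_e78765_gt)
-/

set_option autoImplicit false

open scoped ContDiff Topology
open MeasureTheory Set Filter

namespace MP_e78765_gt

namespace LLi_aux

/-- A continuous periodic function is bounded. -/
theorem bdd {f : ℝ → E3} (hf : Continuous f) (hp : ∀ t, f (t + 1) = f t) :
    ∃ M : ℝ, 0 < M ∧ ∀ t, ‖f t‖ ≤ M := by
  have hper : Function.Periodic f 1 := hp
  have hc : IsCompact (range f) := hper.compact_of_continuous one_ne_zero hf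
  obtain ⟨C, hC⟩ := hc.isBounded.exists_norm_le
  exact ⟨max C 1, lt_of_lt_of_le one_pos (le_max_right _ _),
    fun t => le_trans (hC _ (mem_range_self t)) (le_max_left _ _)⟩

/-- The derivative of a periodic function is periodic. -/
theorem per_deriv {f : ℝ → E3} (hp : ∀ t, f (t + 1) = f t) (t : ℝ) : deriv f (t + 1) = deriv f t := by
  have h : (fun x => f (x + 1)) = f := funext hp
  rw [← deriv_comp_add_const, h]

/-- Lipschitz bound on the line. -/
theorem lip {f : ℝ → E3} {C : ℝ} (hf : Differentiable ℝ f) (hC : ∀ t, ‖deriv f t‖ ≤ C) (s t : ℝ) :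
    ‖f s - f t‖ ≤ C * |s - t| := by
  have h := Convex.norm_image_sub_le_of_norm_deriv_le (f := f) (s := univ) (x := t) (y := s) (C := C)
    (fun x _ => hf x) (fun x _ => hC x) convex_univ (mem_univ _) (mem_univ _)
  rwa [Real.norm_eq_abs] at h

/-- Second order bound. -/
theorem sec {f : ℝ → E3} {K : ℝ} (hf : Differentiable ℝ f)
    (hK : ∀ s t, ‖deriv f s - deriv f t‖ ≤ K * |s - t|) (hK0 : 0 ≤ K) (s t : ℝ) :
    ‖f s - f t - (s - t) • deriv f t‖ ≤ K * (s - t) ^ 2 := by
  have hd : ∀ x ∈ uIcc t s, HasDerivWithinAt (fun y => f y - (y - t) • deriv f t)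
      (deriv f x - deriv f t) (uIcc t s) x := by
    intro x _
    have h1 := (hf x).hasDerivAt
    have h2 : HasDerivAt (fun y : ℝ => (y - t) • deriv f t) ((1 : ℝ) • deriv f t) x :=
      ((hasDerivAt_id x).sub_const t).smul_const _
    rw [one_smul] at h2
    exact (h1.sub h2).hasDerivWithinAt
  have hb : ∀ x ∈ uIcc t s, ‖deriv f x - deriv f t‖ ≤ K * |s - t| := by
    intro x hx
    refine le_trans (hK x t) ?_
    refine mul_le_mul_of_nonneg_left ?_ hK0
    exact abs_sub_left_of_mem_uIcc hx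
  have h := Convex.norm_image_sub_le_of_norm_hasDerivWithin_le hd hb (convex_uIcc t s) left_mem_uIcc
    right_mem_uIcc
  rw [sub_self, zero_smul, sub_zero, Real.norm_eq_abs] at h
  have e1 : f s - (s - t) • deriv f t - f t = f s - f t - (s - t) • deriv f t := by abel
  have e2 : K * |s - t| * |s - t| = K * (s - t) ^ 2 := by
    rw [mul_assoc, ← pow_two, sq_abs]
  rw [e1, e2] at h
  exact h

/-- The second order bound with the base point exchanged. -/
theorem sec' {f : ℝ → E3} {K : ℝ} (h : ∀ s t, ‖f s - f t - (s - t) • deriv f t‖ ≤ K * (s - t) ^ 2)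
    (s t : ℝ) : ‖f s - f t - (s - t) • deriv f s‖ ≤ K * (s - t) ^ 2 := by
  have h1 := h t s
  have e1 : f t - f s - (t - s) • deriv f s = -(f s - f t - (s - t) • deriv f s) := by
    rw [← neg_sub s t, neg_smul]; abel
  have e2 : (t - s) ^ 2 = (s - t) ^ 2 := by ring
  rwa [e1, norm_neg, e2] at h1

theorem meas {f φ : ℝ → E3} (h0 : Continuous f) (h1 : Continuous (deriv f)) (h2 : Continuous φ)
    (h3 : Continuous (deriv φ)) : Measurable (fun z : ℝ × ℝ => dQ f φ z.1 z.2) := by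
  unfold dQ dqf
  have cN : Continuous (fun z : ℝ × ℝ => ‖f z.1 - f z.2‖ ^ 2) := by fun_prop
  have cN4 : Continuous (fun z : ℝ × ℝ => ‖f z.1 - f z.2‖ ^ 4) := by fun_prop
  have ca : Continuous (fun z : ℝ × ℝ => ‖deriv f z.1‖) := by fun_prop
  have cb : Continuous (fun z : ℝ × ℝ => ‖deriv f z.2‖) := by fun_prop
  have k1 : Continuous (fun z : ℝ × ℝ => inner ℝ (deriv f z.1) (deriv φ z.1)) := by fun_prop
  have k2 : Continuous (fun z : ℝ × ℝ => inner ℝ (deriv f z.2) (deriv φ z.2)) := by fun_prop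
  have k3 : Continuous (fun z : ℝ × ℝ => inner ℝ (deriv φ z.1) (deriv f z.2)) := by fun_prop
  have k4 : Continuous (fun z : ℝ × ℝ => inner ℝ (deriv f z.1) (deriv φ z.2)) := by fun_prop
  have k5 : Continuous (fun z : ℝ × ℝ =>
      2 * ((inner ℝ (φ z.1 - φ z.2) (deriv f z.1) + inner ℝ (f z.1 - f z.2) (deriv φ z.1)) *
        inner ℝ (f z.1 - f z.2) (deriv f z.2) + inner ℝ (f z.1 - f z.2) (deriv f z.1) *
        (inner ℝ (φ z.1 - φ z.2) (deriv f z.2) + inner ℝ (f z.1 - f z.2) (deriv φ z.2)))) := by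
    fun_prop
  have k6 : Continuous (fun z : ℝ × ℝ => 4 * inner ℝ (f z.1 - f z.2) (deriv f z.1) *
      inner ℝ (f z.1 - f z.2) (deriv f z.2) * inner ℝ (f z.1 - f z.2) (φ z.1 - φ z.2)) := by
    fun_prop
  have k7 : Continuous (fun z : ℝ × ℝ => ‖deriv f z.1‖ * ‖deriv f z.2‖ +
      inner ℝ (deriv f z.1) (deriv f z.2)) := by fun_prop
  have k8 : Continuous (fun z : ℝ × ℝ => 2 * inner ℝ (f z.1 - f z.2) (deriv f z.1) *
      inner ℝ (f z.1 - f z.2) (deriv f z.2)) := by fun_prop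
  have k9 : Continuous (fun z : ℝ × ℝ => inner ℝ (f z.1 - f z.2) (φ z.1 - φ z.2)) := by fun_prop
  have m1 := (((((k1.measurable.div ca.measurable).mul cb.measurable).add
    (ca.measurable.mul (k2.measurable.div cb.measurable))).add k3.measurable).add
    k4.measurable).sub (k5.measurable.div cN.measurable)
  have m2 := (m1.add (k6.measurable.div cN4.measurable)).div cN.measurable
  have m3 := (((k7.measurable.sub (k8.measurable.div cN.measurable)).const_mul 2).mul
    k9.measurable).div cN4.measurable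
  exact m2.sub m3

theorem integ (hDQ : S_DQ) (hBd : S_Bd) {f φ : ℝ → E3} (hf : IsKnot f) (hφ : ContDiff ℝ ∞ φ)
    (hp : ∀ t, φ (t + 1) = φ t) :
    IntegrableOn (fun z : ℝ × ℝ => dQ f φ z.1 z.2) (Ioo (0 : ℝ) 1 ×ˢ Ioo (0 : ℝ) 1) := by
  obtain ⟨⟨m, M, K, hm, hM, hK, hlow, hup, -, hT, hL⟩, hc⟩ := hBd f hf
  obtain ⟨c, hc0, hch⟩ := hc (1 / 2) (by norm_num)
  have d0 : Differentiable ℝ φ := (contDiff_infty_iff_deriv.1 hφ).1
  have s1 : ContDiff ℝ ∞ (deriv φ) := (contDiff_infty_iff_deriv.1 hφ).2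
  have d1 : Differentiable ℝ (deriv φ) := (contDiff_infty_iff_deriv.1 s1).1
  have s2 : ContDiff ℝ ∞ (deriv (deriv φ)) := (contDiff_infty_iff_deriv.1 s1).2
  have p1 := per_deriv hp
  have p2 := per_deriv p1
  obtain ⟨M', hM'0, hM'⟩ := bdd s1.continuous p1
  obtain ⟨K', hK'0, hK'⟩ := bdd s2.continuous p2
  have hL' := lip d1 hK'
  have hS' := sec d0 hL' hK'0.le
  have hR' := lip d0 hM'
  have sqn : ∀ s t : ℝ, 0 ≤ (s - t) ^ 2 := fun s t => sq_nonneg _
  obtain ⟨C, hC, hb⟩ := hDQ (min m c) (max M M') (max K K') (lt_min hm hc0)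
    (lt_of_lt_of_le hM (le_max_left _ _)) (lt_of_lt_of_le hK (le_max_left _ _))
  have hbound := hb f φ hf.periodic hp
    (fun t => ⟨(min_le_left _ _).trans (hlow t), (hup t).trans (le_max_left _ _),
      (hM' t).trans (le_max_right _ _)⟩)
    (fun s t hst => (mul_le_mul_of_nonneg_right (min_le_right _ _) (abs_nonneg _)).trans (hch s t hst))
    (fun s t => ⟨(hL s t).trans (mul_le_mul_of_nonneg_right (le_max_left _ _) (abs_nonneg _)),
      (hR' s t).trans (mul_le_mul_of_nonneg_right (le_max_right _ _) (abs_nonneg _))⟩)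
    (fun s t => ⟨(sec' hT s t).trans (mul_le_mul_of_nonneg_right (le_max_left _ _) (sqn s t)),
      (hT s t).trans (mul_le_mul_of_nonneg_right (le_max_left _ _) (sqn s t))⟩)
    (fun s t => ⟨(sec' hS' s t).trans (mul_le_mul_of_nonneg_right (le_max_right _ _) (sqn s t)),
      (hS' s t).trans (mul_le_mul_of_nonneg_right (le_max_right _ _) (sqn s t))⟩)
  have hmeas := meas hf.smooth.continuous (hf.smooth.continuous_deriv (by simp)) hφ.continuous
    s1.continuous
  have hfin : (volume : Measure (ℝ × ℝ)) (Ioo (0 : ℝ) 1 ×ˢ Ioo (0 : ℝ) 1) ≠ ⊤ := by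
    rw [Measure.volume_eq_prod, Measure.prod_prod, Real.volume_Ioo]
    exact ENNReal.mul_ne_top ENNReal.ofReal_ne_top ENNReal.ofReal_ne_top
  refine Measure.integrableOn_of_bounded hfin hmeas.aestronglyMeasurable
    (M := C) (Eventually.of_forall fun z => ?_)
  rw [Real.norm_eq_abs]
  exact hbound _ _

end LLi_aux

open LLi_aux in
theorem tLLi : S_DQ → S_Dqf → S_Bd → S_LLi := by
  intro hDQ hq hBd f φ hf hφ hp
  refine ⟨integ hDQ hBd hf hφ hp, ?_⟩
  intro ψ c hψ hpψ
  have e : ∀ z : ℝ × ℝ, dQ f (fun t => φ t + c • ψ t) z.1 z.2 =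
      dQ f φ z.1 z.2 + c * dQ f ψ z.1 z.2 := by
    intro z
    have d0 : Differentiable ℝ φ := (contDiff_infty_iff_deriv.1 hφ).1
    have d1 : Differentiable ℝ ψ := (contDiff_infty_iff_deriv.1 hψ).1
    have hd : ∀ t, deriv (fun t => φ t + c • ψ t) t = deriv φ t + c • deriv ψ t := fun t =>
      ((d0 t).hasDerivAt.add ((d1 t).hasDerivAt.const_smul c)).deriv
    unfold dQ
    rw [hd, hd]
    exact hq.1 _ _ _ _ _ _ _ _ _ _ _ _ _
  unfold LL
  simp_rw [e]
  rw [integral_add (integ hDQ hBd hf hφ hp) ((integ hDQ hBd hf hψ hpψ).const_mul c),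
    integral_const_mul]

end MP_e78765_gt
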