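import Pool.Agent.Lib.MP_e78765_gt.Spec

/-!
# `S_Lap`: strictness, Laplace transform argument
-/

set_option autoImplicit false

open scoped ContDiff Topology
open MeasureTheory Set Filter

namespace MP_e78765_gt

namespace Lap_aux

private lemma continuousOn_exp {z : ℝ → ℝ} {s : Set ℝ} (h : ContinuousOn z s) (k : ℝ) :
    ContinuousOn (fun t => Real.exp (-(k * z t))) s :=
  Real.continuous_exp.comp_continuousOn (continuousOn_const.mul h).neg

/-- the analytic core -/
private lemma core (g z dz : ℝ → ℝ) (h1 : ∀ t ∈ Ico (0 : ℝ) (1 / 2), HasDerivAt z (dz t) t)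
    (hgc : ContinuousOn g (Ico (0 : ℝ) (1 / 2))) (hdc : ContinuousOn dz (Ico (0 : ℝ) (1 / 2)))
    (hle : ∀ t ∈ Ico (0 : ℝ) (1 / 2), |dz t| ≤ g t) (h0 : z 0 = 0)
    (hpos : ∀ t ∈ Ioo (0 : ℝ) (1 / 2), 0 < z t) (hinf : Tendsto z (𝓝[<] (1 / 2)) atTop)
    (hd0 : g 0 = dz 0) (hd1 : 0 < dz 0)
    (hB : ∀ k : ℝ, 0 < k → ∃ C, ∀ t ∈ Ioo (0 : ℝ) (1 / 2), g t * Real.exp (-(k * z t)) ≤ C)
    (τ : ℝ) (hτ : 0 < τ)
    (hL : ∀ k : ℝ, 0 < k → ∫ t in Ioo (0 : ℝ) (1 / 2), (g t * Real.exp (-(k * z t)) -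
      Real.exp τ * (g t * Real.exp (-(Real.exp τ * k * z t)))) = 0) :
    ∀ t ∈ Ioo (0 : ℝ) (1 / 2), g t = dz t := by
  have hsub : Ioo (0 : ℝ) (1 / 2) ⊆ Ico (0 : ℝ) (1 / 2) := Ioo_subset_Ico_self
  have hzc : ContinuousOn z (Ico (0 : ℝ) (1 / 2)) := fun t ht => (h1 t ht).continuousAt.continuousWithinAt
  have hg0 : ∀ t ∈ Ioo (0 : ℝ) (1 / 2), 0 ≤ g t := fun t ht => (abs_nonneg _).trans (hle t (hsub ht))
  -- integrability
  have int1 : ∀ k : ℝ, 0 < k → IntegrableOn (fun t => g t * Real.exp (-(k * z t))) (Ioo (0 : ℝ) (1 / 2)) := by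
    intro k hk
    obtain ⟨C, hC⟩ := hB k hk
    refine ⟨?_, HasFiniteIntegral.restrict_of_bounded (C := C) measure_Ioo_lt_top ?_⟩
    · exact ((hgc.mul (continuousOn_exp hzc k)).mono hsub).aestronglyMeasurable measurableSet_Ioo
    · refine (ae_restrict_iff' measurableSet_Ioo).2 (Eventually.of_forall fun t ht => ?_)
      rw [Real.norm_of_nonneg (mul_nonneg (hg0 t ht) (Real.exp_pos _).le)]
      exact hC t ht
  have int2 : ∀ k : ℝ, 0 < k → IntegrableOn (fun t => dz t * Real.exp (-(k * z t))) (Ioo (0 : ℝ) (1 / 2)) := by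
    intro k hk
    refine Integrable.mono' (int1 k hk) ?_ ?_
    · exact ((hdc.mul (continuousOn_exp hzc k)).mono hsub).aestronglyMeasurable measurableSet_Ioo
    · refine (ae_restrict_iff' measurableSet_Ioo).2 (Eventually.of_forall fun t ht => ?_)
      rw [norm_mul, Real.norm_of_nonneg (Real.exp_pos _).le]
      exact mul_le_mul_of_nonneg_right (hle t (hsub ht)) (Real.exp_pos _).le
  -- the fundamental theorem
  have ftc : ∀ k : ℝ, 0 < k → ∀ b ∈ Ioc (0 : ℝ) (1 / 2), ∀ L : ℝ,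
      Tendsto (fun t => Real.exp (-(k * z t))) (𝓝[<] b) (𝓝 L) →
      ∫ t in (0 : ℝ)..b, k * (dz t * Real.exp (-(k * z t))) = 1 - L := by
    intro k hk b hb L hLim
    have e : (1 : ℝ) - L = -L - -1 := by ring
    rw [e]
    refine intervalIntegral.integral_eq_sub_of_hasDerivAt_of_tendsto
      (f := fun t => -Real.exp (-(k * z t))) hb.1 ?_ ?_ ?_ hLim.neg
    · intro t ht
      have h2 := ((((h1 t ⟨ht.1.le, ht.2.trans_le hb.2⟩).const_mul k).neg).exp).neg
      refine h2.congr_deriv ?_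
      show -(Real.exp (-(k * z t)) * -(k * dz t)) = k * (dz t * Real.exp (-(k * z t)))
      ring
    · rw [intervalIntegrable_iff_integrableOn_Ioo_of_le hb.1.le]
      exact ((int2 k hk).mono_set (Ioo_subset_Ioo_right hb.2)).const_mul k
    · have h2 : ContinuousAt (fun t => -Real.exp (-(k * z t))) 0 :=
        ((Real.continuous_exp.continuousAt.comp
          ((continuousAt_const.mul (h1 0 ⟨le_rfl, by norm_num⟩).continuousAt).neg))).neg
      have h3 : -Real.exp (-(k * z 0)) = -1 := by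
        rw [h0, mul_zero, neg_zero, Real.exp_zero]
      rw [← h3]
      exact h2.tendsto.mono_left nhdsWithin_le_nhds
  have hexp1 : ∀ k : ℝ, 0 < k → Tendsto (fun t => Real.exp (-(k * z t))) (𝓝[<] (1 / 2)) (𝓝 0) := by
    intro k hk
    exact Real.tendsto_exp_neg_atTop_nhds_zero.comp (hinf.const_mul_atTop hk)
  set G : ℝ → ℝ := fun k => ∫ t in Ioo (0 : ℝ) (1 / 2), k * ((g t - dz t) * Real.exp (-(k * z t))) with hG
  have intG : ∀ k : ℝ, 0 < k →
      IntegrableOn (fun t => k * ((g t - dz t) * Real.exp (-(k * z t)))) (Ioo (0 : ℝ) (1 / 2)) := by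
    intro k hk
    have h2 := ((int1 k hk).sub (int2 k hk)).const_mul k
    refine h2.congr (Eventually.of_forall fun t => ?_)
    show k * (g t * Real.exp (-(k * z t)) - dz t * Real.exp (-(k * z t))) = _
    ring
  have hGk : ∀ k : ℝ, 0 < k → G k = k * (∫ t in Ioo (0 : ℝ) (1 / 2), g t * Real.exp (-(k * z t))) - 1 := by
    intro k hk
    have h2 : ∫ t in Ioo (0 : ℝ) (1 / 2), k * (dz t * Real.exp (-(k * z t))) = 1 := by
      rw [← integral_Ioc_eq_integral_Ioo, ← intervalIntegral.integral_of_le (by norm_num),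
        ftc k hk (1 / 2) ⟨by norm_num, le_rfl⟩ 0 (hexp1 k hk), sub_zero]
    have h3 : G k = (∫ t in Ioo (0 : ℝ) (1 / 2), k * (g t * Real.exp (-(k * z t)))) -
        ∫ t in Ioo (0 : ℝ) (1 / 2), k * (dz t * Real.exp (-(k * z t))) := by
      rw [hG, ← integral_sub ((int1 k hk).const_mul k) ((int2 k hk).const_mul k)]
      refine integral_congr_ae (Eventually.of_forall fun t => ?_)
      show k * ((g t - dz t) * Real.exp (-(k * z t))) =
        k * (g t * Real.exp (-(k * z t))) - k * (dz t * Real.exp (-(k * z t)))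
      ring
    rw [h3, h2, integral_const_mul]
  have hGrec : ∀ k : ℝ, 0 < k → G (Real.exp τ * k) = G k := by
    intro k hk
    have hk' : 0 < Real.exp τ * k := mul_pos (Real.exp_pos _) hk
    have h2 := hL k hk
    rw [integral_sub (int1 k hk) ((int1 _ hk').const_mul _), integral_const_mul, sub_eq_zero] at h2
    rw [hGk k hk, hGk _ hk', h2]
    ring
  have hGn : ∀ n : ℕ, G (Real.exp τ ^ n) = G 1 := by
    intro n
    induction n with
    | zero => rw [pow_zero]
    | succ n ih => rw [pow_succ', hGrec _ (pow_pos (Real.exp_pos _) n), ih]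
  -- the bound
  obtain ⟨C1, hC1⟩ := hB 1 one_pos
  have hbound : ∀ η : ℝ, 0 < η → G 1 ≤ η := by
    intro η hη
    obtain ⟨t0, ht0, ht0h, hδ⟩ : ∃ t0 : ℝ, 0 < t0 ∧ t0 < 1 / 2 ∧ ∀ t ∈ Ioo (0 : ℝ) t0, g t - dz t ≤ η * dz t := by
      have h2 : ContinuousWithinAt (fun t => η * dz t - (g t - dz t)) (Ico (0 : ℝ) (1 / 2)) 0 :=
        ((continuousOn_const.mul hdc).sub (hgc.sub hdc)) 0 ⟨le_rfl, by norm_num⟩
      have h3 : 0 < η * dz 0 - (g 0 - dz 0) := by
        rw [hd0, sub_self, sub_zero]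
        exact mul_pos hη hd1
      have h4 : ∀ᶠ t in 𝓝[Ico (0 : ℝ) (1 / 2)] 0, 0 < η * dz t - (g t - dz t) :=
        h2.eventually_const_lt h3
      have h5 : ∀ᶠ t in 𝓝[>] (0 : ℝ), 0 < η * dz t - (g t - dz t) := by
        refine h4.filter_mono ?_
        rw [← nhdsWithin_Ioo_eq_nhdsGT (show (0 : ℝ) < 1 / 2 by norm_num)]
        exact nhdsWithin_mono _ hsub
      obtain ⟨u, hu, hus⟩ := (mem_nhdsGT_iff_exists_Ioo_subset).1 h5
      refine ⟨min u (1 / 4), lt_min hu (by norm_num), (min_le_right _ _).trans_lt (by norm_num), fun t ht => ?_⟩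
      have h6 : 0 < η * dz t - (g t - dz t) := hus ⟨ht.1, ht.2.trans_le (min_le_left _ _)⟩
      linarith
    obtain ⟨z0, hz0, hzl⟩ : ∃ z0 : ℝ, 0 < z0 ∧ ∀ t ∈ Ico t0 (1 / 2), z0 ≤ z t := by
      have h2 : ∀ᶠ t in 𝓝[<] (1 / 2 : ℝ), 1 ≤ z t := hinf.eventually_ge_atTop 1
      obtain ⟨u, hu, hus⟩ := (mem_nhdsLT_iff_exists_Ioo_subset).1 h2
      have hv : max t0 u < 1 / 2 := max_lt ht0h hu
      obtain ⟨x, hx, hxm⟩ := (isCompact_Icc (a := t0) (b := max t0 u)).exists_isMinOn
        ⟨t0, ⟨le_rfl, le_max_left _ _⟩⟩ (hzc.mono fun t ht => ⟨ht0.le.trans ht.1, ht.2.trans_lt hv⟩)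
      refine ⟨min (z x) 1, lt_min (hpos x ⟨ht0.trans_le hx.1, hx.2.trans_lt hv⟩) one_pos, fun t ht => ?_⟩
      by_cases h : t ≤ max t0 u
      · exact (min_le_left _ _).trans (hxm ⟨ht.1, h⟩)
      · push Not at h
        exact (min_le_right _ _).trans (hus ⟨(le_max_right _ _).trans_lt h, ht.2⟩)
    have hk : ∀ k : ℝ, 1 ≤ k → G k ≤ η + 2 * C1 * (1 / 2 - t0) * (k * Real.exp (-((k - 1) * z0))) := by
      intro k hk1
      have hk0 : 0 < k := zero_lt_one.trans_le hk1
      have i1 : IntervalIntegrable (fun t => k * ((g t - dz t) * Real.exp (-(k * z t)))) volume 0 t0 := by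
        rw [intervalIntegrable_iff_integrableOn_Ioo_of_le ht0.le]
        exact (intG k hk0).mono_set (Ioo_subset_Ioo_right ht0h.le)
      have i2 : IntervalIntegrable (fun t => k * ((g t - dz t) * Real.exp (-(k * z t)))) volume t0 (1 / 2) := by
        rw [intervalIntegrable_iff_integrableOn_Ioo_of_le ht0h.le]
        exact (intG k hk0).mono_set (Ioo_subset_Ioo_left ht0.le)
      have h2 : G k = (∫ t in (0 : ℝ)..t0, k * ((g t - dz t) * Real.exp (-(k * z t)))) +
          ∫ t in t0..(1 / 2), k * ((g t - dz t) * Real.exp (-(k * z t))) := by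
        rw [intervalIntegral.integral_add_adjacent_intervals i1 i2,
          intervalIntegral.integral_of_le (by norm_num), integral_Ioc_eq_integral_Ioo]
      have h3 : (∫ t in (0 : ℝ)..t0, k * ((g t - dz t) * Real.exp (-(k * z t)))) ≤ η := by
        have i3 : IntervalIntegrable (fun t => η * (k * (dz t * Real.exp (-(k * z t))))) volume 0 t0 := by
          rw [intervalIntegrable_iff_integrableOn_Ioo_of_le ht0.le]
          exact (((int2 k hk0).mono_set (Ioo_subset_Ioo_right ht0h.le)).const_mul k).const_mul η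
        calc (∫ t in (0 : ℝ)..t0, k * ((g t - dz t) * Real.exp (-(k * z t))))
            ≤ ∫ t in (0 : ℝ)..t0, η * (k * (dz t * Real.exp (-(k * z t)))) := by
              refine intervalIntegral.integral_mono_on_of_le_Ioo ht0.le i1 i3 fun t ht => ?_
              have h4 := mul_le_mul_of_nonneg_right (hδ t ht) (Real.exp_pos (-(k * z t))).le
              have h5 := mul_le_mul_of_nonneg_left h4 hk0.le
              calc _ ≤ k * (η * dz t * Real.exp (-(k * z t))) := h5
                _ = _ := by ring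
          _ = η * (1 - Real.exp (-(k * z t0))) := by
              rw [intervalIntegral.integral_const_mul, ftc k hk0 t0 ⟨ht0, ht0h.le⟩ (Real.exp (-(k * z t0)))]
              have h6 : ContinuousAt (fun t => Real.exp (-(k * z t))) t0 :=
                Real.continuous_exp.continuousAt.comp
                  ((continuousAt_const.mul (h1 t0 ⟨ht0.le, ht0h⟩).continuousAt).neg)
              exact h6.tendsto.mono_left nhdsWithin_le_nhds
          _ ≤ η := by
              have := (Real.exp_pos (-(k * z t0))).le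
              nlinarith
      have h4 : (∫ t in t0..(1 / 2), k * ((g t - dz t) * Real.exp (-(k * z t)))) ≤
          2 * C1 * (1 / 2 - t0) * (k * Real.exp (-((k - 1) * z0))) := by
        have i4 : IntervalIntegrable (fun _ : ℝ => 2 * C1 * (k * Real.exp (-((k - 1) * z0)))) volume t0 (1 / 2) :=
          intervalIntegrable_const
        have h5 := intervalIntegral.integral_mono_on_of_le_Ioo ht0h.le i2 i4 fun t ht => by
          have htI : t ∈ Ioo (0 : ℝ) (1 / 2) := ⟨ht0.trans ht.1, ht.2⟩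
          have e1 : g t - dz t ≤ 2 * g t := by
            have := (abs_le.1 (hle t (hsub htI))).1
            linarith
          have e2 : Real.exp (-(k * z t)) ≤ Real.exp (-((k - 1) * z0)) * Real.exp (-(1 * z t)) := by
            rw [← Real.exp_add]
            refine Real.exp_le_exp.2 ?_
            have := mul_le_mul_of_nonneg_left (hzl t ⟨ht.1.le, ht.2⟩) (sub_nonneg.2 hk1)
            linarith
          have e3 : (g t - dz t) * Real.exp (-(k * z t)) ≤
              2 * C1 * Real.exp (-((k - 1) * z0)) := by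
            calc (g t - dz t) * Real.exp (-(k * z t)) ≤ (2 * g t) * Real.exp (-(k * z t)) :=
                  mul_le_mul_of_nonneg_right e1 (Real.exp_pos _).le
              _ ≤ (2 * g t) * (Real.exp (-((k - 1) * z0)) * Real.exp (-(1 * z t))) :=
                  mul_le_mul_of_nonneg_left e2 (mul_nonneg two_pos.le (hg0 t htI))
              _ = 2 * (g t * Real.exp (-(1 * z t))) * Real.exp (-((k - 1) * z0)) := by ring
              _ ≤ 2 * C1 * Real.exp (-((k - 1) * z0)) :=
                  mul_le_mul_of_nonneg_right (mul_le_mul_of_nonneg_left (hC1 t htI) two_pos.le)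
                    (Real.exp_pos _).le
          have e4 := mul_le_mul_of_nonneg_left e3 hk0.le
          exact e4.trans_eq (show k * (2 * C1 * Real.exp (-((k - 1) * z0))) =
            2 * C1 * (k * Real.exp (-((k - 1) * z0))) by ring)
        rw [intervalIntegral.integral_const, smul_eq_mul] at h5
        exact h5.trans_eq (by ring)
      rw [h2]
      exact add_le_add h3 h4
    have hlim : Tendsto (fun n : ℕ => η + 2 * C1 * (1 / 2 - t0) *
        (Real.exp τ ^ n * Real.exp (-((Real.exp τ ^ n - 1) * z0)))) atTop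
        (𝓝 (η + 2 * C1 * (1 / 2 - t0) * 0)) := by
      refine tendsto_const_nhds.add (tendsto_const_nhds.mul ?_)
      have h2 : Tendsto (fun n : ℕ => Real.exp τ ^ n) atTop atTop :=
        tendsto_pow_atTop_atTop_of_one_lt (Real.one_lt_exp_iff.2 hτ)
      have h3 : Tendsto (fun k : ℝ => k * Real.exp (-((k - 1) * z0))) atTop (𝓝 0) := by
        have h4 := (Real.tendsto_pow_mul_exp_neg_atTop_nhds_zero 1).comp
          (tendsto_id.const_mul_atTop hz0)
        have h5 := h4.const_mul (Real.exp z0 / z0)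
        rw [mul_zero] at h5
        refine h5.congr fun k => ?_
        show Real.exp z0 / z0 * ((z0 * k) ^ 1 * Real.exp (-(z0 * k))) = k * Real.exp (-((k - 1) * z0))
        have e : -((k - 1) * z0) = z0 + -(z0 * k) := by ring
        rw [e, Real.exp_add, pow_one]
        field_simp
      exact h3.comp h2
    rw [mul_zero, add_zero] at hlim
    refine ge_of_tendsto' hlim fun n => ?_
    rw [← hGn n]
    exact hk _ (one_le_pow₀ (Real.one_le_exp hτ.le))
  -- conclusion
  have hG1 : G 1 ≤ 0 := le_of_forall_pos_le_add fun η hη => by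
    rw [zero_add]
    exact hbound η hη
  intro t ht
  by_contra hne
  have hnn : ∀ s ∈ Ioo (0 : ℝ) (1 / 2), 0 ≤ (1 : ℝ) * ((g s - dz s) * Real.exp (-(1 * z s))) := by
    intro s hs
    rw [one_mul]
    exact mul_nonneg (sub_nonneg.2 ((le_abs_self _).trans (hle s (hsub hs)))) (Real.exp_pos _).le
  have hlt : 0 < (1 : ℝ) * ((g t - dz t) * Real.exp (-(1 * z t))) := by
    rw [one_mul]
    refine mul_pos (sub_pos.2 (lt_of_le_of_ne ((le_abs_self _).trans (hle t (hsub ht))) fun h => hne h.symm))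
      (Real.exp_pos _)
  have hab : t / 2 < (t + 1 / 2) / 2 := by
    have := ht.1
    linarith
  have hin : Icc (t / 2) ((t + 1 / 2) / 2) ⊆ Ioo (0 : ℝ) (1 / 2) := by
    intro s hs
    have h2 := ht.1
    have h3 := ht.2
    exact ⟨by linarith [hs.1], by linarith [hs.2]⟩
  have h2 : 0 < ∫ s in (t / 2)..((t + 1 / 2) / 2), (1 : ℝ) * ((g s - dz s) * Real.exp (-(1 * z s))) := by
    refine intervalIntegral.integral_pos hab ?_ (fun s hs => hnn s (hin (Ioc_subset_Icc_self hs))) ⟨t, ?_, hlt⟩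
    · exact (continuousOn_const.mul ((hgc.sub hdc).mul (continuousOn_exp hzc 1))).mono (hin.trans hsub)
    · exact ⟨by linarith [ht.1], by linarith [ht.2]⟩
  have h3 : (∫ s in (t / 2)..((t + 1 / 2) / 2), (1 : ℝ) * ((g s - dz s) * Real.exp (-(1 * z s)))) ≤ G 1 := by
    rw [intervalIntegral.integral_of_le hab.le]
    refine setIntegral_mono_set (intG 1 one_pos) ?_ (Eventually.of_forall (Ioc_subset_Icc_self.trans hin))
    exact (ae_restrict_iff' measurableSet_Ioo).2 (Eventually.of_forall hnn)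
  linarith

private lemma phi_real (k : ℝ) (hk : 0 < k) (x : E3) :
    phi (((Real.sqrt k : ℝ) : ℂ), 0) x = ((Real.exp (-(k * x 2)) : ℝ) : ℂ) := by
  have h1 : ‖((Real.sqrt k : ℝ) : ℂ)‖ ^ 2 = k := by
    rw [Complex.norm_real, Real.norm_of_nonneg (Real.sqrt_nonneg k), Real.sq_sqrt hk.le]
  unfold phi
  simp only [mul_zero, Complex.zero_re, Complex.zero_im, add_zero, norm_zero, Complex.ofReal_zero, sub_zero]
  rw [h1, Complex.ofReal_exp]
  congr 1
  push_cast
  ring

private lemma comp_deriv (F : ℝ → E3) (t : ℝ) (h : DifferentiableAt ℝ F t) (i : Fin 3) :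
    HasDerivAt (fun s => F s i) ((deriv F t) i) t :=
  ((EuclideanSpace.proj i : E3 →L[ℝ] ℝ).hasFDerivAt.comp_hasDerivAt t h.hasDerivAt)

private lemma norm_sq (x : E3) : ‖x‖ ^ 2 = x 0 ^ 2 + x 1 ^ 2 + x 2 ^ 2 := by
  rw [EuclideanSpace.norm_sq_eq, Fin.sum_univ_three]
  simp only [Real.norm_eq_abs, sq_abs]

private lemma cont_deriv (F : ℝ → E3) (t : ℝ) (h : ContDiffAt ℝ ∞ F t) : ContinuousAt (deriv F) t := by
  have h1 : ContDiffAt ℝ 0 (fderiv ℝ F) t := h.fderiv_right (m := 0) (by norm_num)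
  exact h1.continuousAt.clm_apply continuousAt_const

end Lap_aux

open Lap_aux in
theorem tLap : S_Dom → S_Cone → S_Ch → S_Lap := by
  intro hDom hCone hCh r τ1 hr hτ1 hSm hW
  obtain ⟨-, -, -, -, hq, -, -, -, hsm, -, -, hF0, hpos, -, -, hinf⟩ := hCh r hr
  obtain ⟨⟨c, hc0, -, hcone⟩, -, hd00, hd01, hd02⟩ := hCone r hr
  have hnq : ∀ t ∈ Ico (0 : ℝ) (1 / 2), r t ≠ r (1 / 2) := by
    intro t ht h
    obtain ⟨n, hn⟩ := (hq t).1 h
    have h1 : (n : ℝ) < 0 := by
      have := ht.2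
      linarith
    have h2 : (-1 : ℝ) < n := by
      have := ht.1
      linarith
    have h3 : n < 0 := by exact_mod_cast h1
    have h4 : -1 < n := by exact_mod_cast h2
    omega
  have hcd : ∀ t ∈ Ico (0 : ℝ) (1 / 2), ContDiffAt ℝ ∞ (Fc r) t := fun t ht => (hsm t (hnq t ht)).1
  have hdiff : ∀ t ∈ Ico (0 : ℝ) (1 / 2), DifferentiableAt ℝ (Fc r) t := fun t ht =>
    (hcd t ht).differentiableAt (by norm_num)
  have hdc : ContinuousOn (deriv (Fc r)) (Ico (0 : ℝ) (1 / 2)) := fun t ht =>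
    (cont_deriv _ t (hcd t ht)).continuousWithinAt
  have hτ : τ1 / 2 ∈ Ioo (0 : ℝ) τ1 := ⟨by linarith, by linarith⟩
  have key : ∀ t ∈ Ioo (0 : ℝ) (1 / 2), ‖deriv (Fc r) t‖ = (deriv (Fc r) t) 2 := by
    refine core (fun t => ‖deriv (Fc r) t‖) (fun t => Fc r t 2) (fun t => (deriv (Fc r) t) 2)
      (fun t ht => comp_deriv _ t (hdiff t ht) 2) hdc.norm ?_ ?_ ?_ hpos ?_ ?_ hd02 ?_ (τ1 / 2) hτ.1 ?_
    · exact (EuclideanSpace.proj (2 : Fin 3) : E3 →L[ℝ] ℝ).continuous.comp_continuousOn hdc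
    · intro t _
      exact PiLp.norm_apply_le (deriv (Fc r) t) 2
    · show Fc r 0 2 = 0
      rw [hF0]
      rfl
    · have h1 : Tendsto (fun t => c * ‖Fc r t‖) (𝓝[<] (1 / 2)) atTop :=
        (hinf.mono_left (nhdsWithin_mono _ fun t (ht : t < 1 / 2) => ht.ne)).const_mul_atTop hc0
      refine tendsto_atTop_mono' _ ?_ h1
      have h2 : ∀ᶠ t in 𝓝[<] (1 / 2 : ℝ), t ∈ Ioo (0 : ℝ) (1 / 2) :=
        Ioo_mem_nhdsLT (by norm_num)
      exact h2.mono fun t ht => hcone t ht
    · show ‖deriv (Fc r) 0‖ = (deriv (Fc r) 0) 2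
      have h1 := norm_sq (deriv (Fc r) 0)
      rw [hd00, hd01] at h1
      have h2 : ‖deriv (Fc r) 0‖ ^ 2 = ((deriv (Fc r) 0) 2) ^ 2 := by
        rw [h1]
        ring
      exact (pow_left_inj₀ (norm_nonneg _) hd02.le two_ne_zero).1 h2
    · intro k hk
      obtain ⟨C, hC⟩ := hDom r (τ1 / 2) hr (hSm _ hτ) k hk
      refine ⟨C, fun t ht => ?_⟩
      have h1 := (hC (((Real.sqrt k : ℝ) : ℂ), 0) 1 ?_ one_pos t ht).1
      · rw [phi_real k hk, norm_mul, Complex.norm_real, Complex.norm_real, norm_norm,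
          Real.norm_of_nonneg (Real.exp_pos _).le] at h1
        exact h1
      · show k ≤ ‖((Real.sqrt k : ℝ) : ℂ)‖ ^ 2 + ‖(0 : ℂ)‖ ^ 2
        rw [Complex.norm_real, Real.norm_of_nonneg (Real.sqrt_nonneg k), Real.sq_sqrt hk.le]
        simp
    · intro k hk
      have h1 := hW (τ1 / 2) hτ (((Real.sqrt k : ℝ) : ℂ), 0) (by
        intro h
        have h2 : ((Real.sqrt k : ℝ) : ℂ) = 0 := congrArg Prod.fst h
        exact (Real.sqrt_pos.2 hk).ne' (Complex.ofReal_eq_zero.1 h2))
      unfold Wi at h1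
      have h2 : (fun t => (‖deriv (Fc r) t‖ : ℂ) * phi (((Real.sqrt k : ℝ) : ℂ), 0) (Fc r t)
          - (Real.exp (τ1 / 2) * ‖deriv (Fc r) t‖ : ℝ) *
            phi (((Real.sqrt k : ℝ) : ℂ), 0) (Real.exp (τ1 / 2) • Fc r t)) =
          fun t => ((‖deriv (Fc r) t‖ * Real.exp (-(k * Fc r t 2)) - Real.exp (τ1 / 2) *
            (‖deriv (Fc r) t‖ * Real.exp (-(Real.exp (τ1 / 2) * k * Fc r t 2))) : ℝ) : ℂ) := by
        funext t
        rw [phi_real k hk, phi_real k hk]
        have h3 : (Real.exp (τ1 / 2) • Fc r t) 2 = Real.exp (τ1 / 2) * Fc r t 2 := rfl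
        have h4 : -(k * (Real.exp (τ1 / 2) * Fc r t 2)) = -(Real.exp (τ1 / 2) * k * Fc r t 2) := by ring
        rw [h3, h4]
        push_cast
        ring
      rw [h2, integral_complex_ofReal] at h1
      exact_mod_cast h1
  have hcomp : ∀ t ∈ Ioo (0 : ℝ) (1 / 2), (deriv (Fc r) t) 0 = 0 ∧ (deriv (Fc r) t) 1 = 0 := by
    intro t ht
    have h1 := norm_sq (deriv (Fc r) t)
    rw [key t ht] at h1
    have h2 : (deriv (Fc r) t) 0 ^ 2 + (deriv (Fc r) t) 1 ^ 2 = 0 := by linarith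
    constructor
    · have h3 := sq_nonneg ((deriv (Fc r) t) 1)
      exact pow_eq_zero_iff two_ne_zero |>.1 (le_antisymm (by linarith) (sq_nonneg _))
    · have h3 := sq_nonneg ((deriv (Fc r) t) 0)
      exact pow_eq_zero_iff two_ne_zero |>.1 (le_antisymm (by linarith) (sq_nonneg _))
  have hfin : ∀ i : Fin 3, (∀ t ∈ Ioo (0 : ℝ) (1 / 2), (deriv (Fc r) t) i = 0) →
      ∀ t ∈ Ioo (0 : ℝ) (1 / 2), Fc r t i = 0 := by
    intro i hi t ht
    have hsub : Icc 0 t ⊆ Ico (0 : ℝ) (1 / 2) := fun s hs => ⟨hs.1, hs.2.trans_lt ht.2⟩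
    obtain ⟨s, hs, hse⟩ := exists_hasDerivAt_eq_slope (fun s => Fc r s i) (fun s => (deriv (Fc r) s) i) ht.1
      (fun s hs => (comp_deriv _ s (hdiff s (hsub hs)) i).continuousAt.continuousWithinAt)
      (fun s hs => comp_deriv _ s (hdiff s (hsub (Ioo_subset_Icc_self hs))) i)
    rw [hi s ⟨hs.1, hs.2.trans ht.2⟩] at hse
    have h1 : Fc r 0 i = 0 := by
      rw [hF0]
      rfl
    have h2 : Fc r t i - Fc r 0 i = 0 := by
      rcases div_eq_zero_iff.1 hse.symm with h | h
      · exact h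
      · exact absurd h (sub_pos.2 ht.1).ne'
    rw [h1, sub_zero] at h2
    exact h2
  exact fun t ht => ⟨hfin 0 (fun s hs => (hcomp s hs).1) t ht, hfin 1 (fun s hs => (hcomp s hs).2) t ht⟩

end MP_e78765_gt
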