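import Pool.Agent.Lib.MP_e78765_gt.Spec

/-!
# Convergence of the energies of the slid knots
-/

set_option autoImplicit false

open scoped ContDiff Topology
open MeasureTheory Set Filter

namespace MP_e78765_gt

namespace Lim_aux

/-- the parameters different from the middle -/
theorem ne_q (hCh : S_Ch) {r : ℝ → E3} (hr : MirrorKnot r) {s : ℝ} (hs : s ∈ Ioo (0 : ℝ) 1)
    (hs2 : s ≠ 1 / 2) : r s ≠ r (1 / 2) := by
  intro h
  obtain ⟨n, hn⟩ := ((hCh r hr).2.2.2.2.1 s).1 h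
  have h1 : (-1 : ℝ) < n := by
    have := hs.1
    linarith
  have h2 : (n : ℝ) < 1 := by
    have := hs.2
    linarith
  have h3 : n = 0 := by
    have h4 : (-1 : ℤ) < n := by exact_mod_cast h1
    have h5 : n < (1 : ℤ) := by exact_mod_cast h2
    omega
  rw [h3, Int.cast_zero, add_zero] at hn
  exact hs2 hn

/-- the chart point is not the origin -/
theorem ne_o (hCh : S_Ch) {r : ℝ → E3} (hr : MirrorKnot r) {s : ℝ} (hs : s ∈ Ioo (0 : ℝ) 1)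
    (hs2 : s ≠ 1 / 2) : Fc r s ≠ 0 := by
  intro h
  obtain ⟨-, -, -, -, c5, c6, -, -, -, -, -, c12, -, c14, -⟩ := hCh r hr
  have hq0 : r 0 ≠ r (1 / 2) := by
    intro h
    obtain ⟨n, hn⟩ := (c5 0).1 h
    have h1 : ((2 * n : ℤ) : ℝ) = ((-1 : ℤ) : ℝ) := by
      push_cast
      linarith
    have h2 : 2 * n = -1 := by exact_mod_cast h1
    omega
  have h1 : r s = r 0 := c14 s 0 (ne_q hCh hr hs hs2) hq0 (by rw [h, c12])
  obtain ⟨n, hn⟩ := (c6 s).1 h1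
  have h2 := hs.1
  have h3 := hs.2
  rw [hn] at h2 h3
  have h4 : (0 : ℤ) < n := by exact_mod_cast h2
  have h5 : n < (1 : ℤ) := by exact_mod_cast h3
  omega

/-- near a good parameter the slid knot is scaled in the chart -/
theorem near (hRs : S_Rs) (hCh : S_Ch) (hCut : S_Cut) {r : ℝ → E3} {τ : ℝ} (hr : MirrorKnot r)
    (hτ : Sm τ) {s : ℝ} (hs : s ∈ Ioo (0 : ℝ) 1) (hs2 : s ≠ 1 / 2) :
    ∀ᶠ ε in 𝓝[>] (0 : ℝ), Fc (rs ε τ r) =ᶠ[𝓝 s] fun t => Real.exp τ • Fc r t := by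
  have hq := ne_q hCh hr hs hs2
  have h0 := ne_o hCh hr hs hs2
  have hF : ContinuousAt (Fc r) s := ((hCh r hr).2.2.2.2.2.2.2.2.1 s hq).1.continuousAt
  have hc : ContinuousAt r s := hr.smooth.continuous.continuousAt
  have e1 : ∀ᶠ ε in 𝓝[>] (0 : ℝ), Real.exp 1 * ε < ‖Fc r s‖ := by
    have h1 : Tendsto (fun ε : ℝ => Real.exp 1 * ε) (𝓝[>] 0) (𝓝 0) :=
      (Continuous.tendsto' (by fun_prop) 0 0 (by simp)).mono_left nhdsWithin_le_nhds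
    exact h1.eventually_lt_const (norm_pos_iff.2 h0)
  have e2 : ∀ᶠ ε in 𝓝[>] (0 : ℝ), Real.exp 1 * (ε * ‖Fc r s‖) < 1 := by
    have h1 : Tendsto (fun ε : ℝ => Real.exp 1 * (ε * ‖Fc r s‖)) (𝓝[>] 0) (𝓝 0) :=
      (Continuous.tendsto' (by fun_prop) 0 0 (by simp)).mono_left nhdsWithin_le_nhds
    exact h1.eventually_lt_const one_pos
  filter_upwards [e1, e2, self_mem_nhdsWithin] with ε h1 h2 hε
  have hε : 0 < ε := hε
  have f1 : ∀ᶠ t in 𝓝 s, r t ≠ r (1 / 2) := hc.eventually_ne hq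
  have f2 : ∀ᶠ t in 𝓝 s, Real.exp 1 * ε < ‖Fc r t‖ := by
    have h3 : Tendsto (fun t => ‖Fc r t‖) (𝓝 s) (𝓝 ‖Fc r s‖) := hF.norm
    exact h3.eventually_const_lt h1
  have f3 : ∀ᶠ t in 𝓝 s, Real.exp 1 * (ε * ‖Fc r t‖) < 1 := by
    have h3 : Tendsto (fun t => Real.exp 1 * (ε * ‖Fc r t‖)) (𝓝 s)
        (𝓝 (Real.exp 1 * (ε * ‖Fc r s‖))) := (hF.norm.const_mul ε).const_mul (Real.exp 1)
    exact h3.eventually_lt_const h2
  filter_upwards [f1, f2, f3] with t g1 g2 g3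
  rw [(hRs r ε τ hr hε hτ).2.2.2.2.2 t g1, sl, (hCut ε hε).2.2.2.1 _ g2.le g3.le, mul_one]

/-- pointwise convergence -/
theorem ptw (hRs : S_Rs) (hCh : S_Ch) (hCut : S_Cut) (hAlg : S_Alg) {r : ℝ → E3} {τ : ℝ}
    (hr : MirrorKnot r) (hτ : Sm τ) {s t : ℝ} (hs : s ∈ Ioo (0 : ℝ) 1) (hs2 : s ≠ 1 / 2)
    (ht : t ∈ Ioo (0 : ℝ) 1) (ht2 : t ≠ 1 / 2) :
    Tendsto (fun ε => Q (rs ε τ r) s t) (𝓝[>] 0) (𝓝 (Q r s t)) := by
  refine tendsto_const_nhds.congr' ?_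
  filter_upwards [near hRs hCh hCut hr hτ hs hs2, near hRs hCh hCut hr hτ ht ht2,
    self_mem_nhdsWithin] with ε h1 h2 hε
  have hε : 0 < ε := hε
  obtain ⟨g1, -, g3, -, g5, -⟩ := hRs r ε τ hr hε hτ
  have hq := ne_q hCh hr hs hs2
  have hq' := ne_q hCh hr ht ht2
  have a1 : rs ε τ r s ≠ rs ε τ r (1 / 2) := by
    rw [g3]
    exact fun h => hq ((g5 s).1 h)
  have a2 : rs ε τ r t ≠ rs ε τ r (1 / 2) := by
    rw [g3]
    exact fun h => hq' ((g5 t).1 h)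
  obtain ⟨-, -, -, -, -, -, -, -, c9, -, -, -, -, -, c15, -⟩ := hCh r hr
  obtain ⟨-, -, -, -, -, -, -, -, -, -, -, -, -, -, d15, -⟩ := hCh (rs ε τ r) g1
  have b1 : deriv (Fc (rs ε τ r)) s = Real.exp τ • deriv (Fc r) s := by
    rw [h1.deriv_eq]
    exact (((c9 s hq).1.differentiableAt (by simp)).hasDerivAt.const_smul (Real.exp τ)).deriv
  have b2 : deriv (Fc (rs ε τ r)) t = Real.exp τ • deriv (Fc r) t := by
    rw [h2.deriv_eq]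
    exact (((c9 t hq').1.differentiableAt (by simp)).hasDerivAt.const_smul (Real.exp τ)).deriv
  rw [d15 s t a1 a2, c15 s t hq hq', b1, b2, h1.eq_of_nhds, h2.eq_of_nhds,
    hAlg.2.2.2.2.2.1 _ _ _ _ _ (Real.exp_ne_zero τ)]

/-- almost all parameters are good -/
theorem ae_good : ∀ᵐ z : ℝ × ℝ ∂(volume.restrict (Ioo (0 : ℝ) 1 ×ˢ Ioo (0 : ℝ) 1)),
    z.1 ∈ Ioo (0 : ℝ) 1 ∧ z.1 ≠ 1 / 2 ∧ z.2 ∈ Ioo (0 : ℝ) 1 ∧ z.2 ≠ 1 / 2 := by
  have hm : MeasurableSet (Ioo (0 : ℝ) 1 ×ˢ Ioo (0 : ℝ) 1) := measurableSet_Ioo.prod measurableSet_Ioo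
  rw [ae_restrict_iff' hm]
  have h1 : ∀ᵐ z : ℝ × ℝ, z.1 ≠ 1 / 2 := by
    have h2 : ∀ᵐ x : ℝ, x ≠ 1 / 2 := by
      rw [ae_iff]
      simp
    exact (Measure.quasiMeasurePreserving_fst (μ := volume) (ν := volume)).ae h2
  have h3 : ∀ᵐ z : ℝ × ℝ, z.2 ≠ 1 / 2 := by
    have h2 : ∀ᵐ x : ℝ, x ≠ 1 / 2 := by
      rw [ae_iff]
      simp
    exact (Measure.quasiMeasurePreserving_snd (μ := volume) (ν := volume)).ae h2
  filter_upwards [h1, h3] with z a1 a2 hz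
  exact ⟨hz.1, a1, hz.2, a2⟩

end Lim_aux

open Lim_aux in
theorem tLim : S_DS → S_Unif → S_Rs → S_Ch → S_Cut → S_Alg → S_QB → S_Lim := by
  intro hDS hUnif hRs hCh hCut hAlg hQB r τ hr hτ
  obtain ⟨ε0, hε0, C, hC⟩ := hUnif r τ hr hτ
  have hev : ∀ᶠ ε in 𝓝[>] (0 : ℝ), ε ∈ Ioo (0 : ℝ) ε0 := Ioo_mem_nhdsGT hε0
  have hint : Tendsto (fun ε => ∫ z in Ioo (0 : ℝ) 1 ×ˢ Ioo (0 : ℝ) 1, Q (rs ε τ r) z.1 z.2)
      (𝓝[>] 0) (𝓝 (∫ z in Ioo (0 : ℝ) 1 ×ˢ Ioo (0 : ℝ) 1, Q r z.1 z.2)) := by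
    refine tendsto_integral_filter_of_dominated_convergence (fun _ => C) ?_ ?_ ?_ ?_
    · filter_upwards [hev] with ε hε
      exact (hQB _ (hRs r ε τ hr hε.1 hτ).1.toIsKnot).2.1.aestronglyMeasurable
    · filter_upwards [hev] with ε hε
      filter_upwards [ae_good] with z hz
      have h0 : 0 ≤ Q (rs ε τ r) z.1 z.2 := hAlg.2.1 _ _ _ _
      rw [Real.norm_of_nonneg h0]
      exact hC ε hε z.1 z.2 (ne_q hCh hr hz.1 hz.2.1) (ne_q hCh hr hz.2.2.1 hz.2.2.2)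
    · have hfin : volume (Ioo (0 : ℝ) 1 ×ˢ Ioo (0 : ℝ) 1) < ⊤ := by
        rw [Measure.volume_eq_prod, Measure.prod_prod, Real.volume_Ioo]
        simp
      have : IsFiniteMeasure (volume.restrict (Ioo (0 : ℝ) 1 ×ˢ Ioo (0 : ℝ) 1)) :=
        ⟨by rwa [Measure.restrict_apply_univ]⟩
      exact integrable_const C
    · filter_upwards [ae_good] with z hz
      exact ptw hRs hCh hCut hAlg hr hτ hz.1 hz.2.1 hz.2.2.1 hz.2.2.2
  have h1 := hint.const_add 4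
  rw [← hDS r hr.toIsKnot] at h1
  refine h1.congr' ?_
  filter_upwards [hev] with ε hε
  exact (hDS _ (hRs r ε τ hr hε.1 hτ).1.toIsKnot).symm

end MP_e78765_gt
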