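import Pool.Agent.Lib.MP_e78765_gt.Spec4

/-! Dominated convergence for the push parameter `a → ∞` (MP_e78765_gt, THEOREM R3). -/

set_option autoImplicit false

open scoped ContDiff Topology
open MeasureTheory Set Filter

namespace MP_e78765_gt

namespace LimA_aux

theorem pos_of_ne {ζ : ℂ × ℂ} (h : ζ ≠ 0) : 0 < ‖ζ.1‖ ^ 2 + ‖ζ.2‖ ^ 2 := by
  by_contra hn
  have h1 : ‖ζ.1‖ ^ 2 = 0 := by nlinarith [sq_nonneg ‖ζ.1‖, sq_nonneg ‖ζ.2‖]
  have h2 : ‖ζ.2‖ ^ 2 = 0 := by nlinarith [sq_nonneg ‖ζ.1‖, sq_nonneg ‖ζ.2‖]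
  exact h (Prod.ext (norm_eq_zero.mp (pow_eq_zero_iff (two_ne_zero)|>.mp h1))
    (norm_eq_zero.mp (pow_eq_zero_iff (two_ne_zero)|>.mp h2)))

theorem lim_pt {x : ℝ} (hx : 0 < x) (y : ℝ) :
    Tendsto (fun a : ℝ => (1 - Real.exp (-(2 * (a * x)))) * y) atTop (𝓝 y) := by
  have h1 : Tendsto (fun a : ℝ => 2 * (a * x)) atTop atTop :=
    (tendsto_id.atTop_mul_const hx).const_mul_atTop two_pos
  have h2 : Tendsto (fun a : ℝ => Real.exp (-(2 * (a * x)))) atTop (𝓝 0) :=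
    Real.tendsto_exp_neg_atTop_nhds_zero.comp h1
  have h3 := (h2.const_sub 1).mul_const y
  rwa [sub_zero, one_mul] at h3

end LimA_aux

theorem tLimA : S_LimA := by
  intro F hF hF0
  refine tendsto_integral_filter_of_dominated_convergence F ?_ ?_ hF ?_
  · refine Eventually.of_forall fun a => ?_
    refine AEStronglyMeasurable.mul ?_ hF.aestronglyMeasurable
    refine Continuous.aestronglyMeasurable ?_
    fun_prop
  · filter_upwards [eventually_ge_atTop (0 : ℝ)] with a ha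
    refine Eventually.of_forall fun ζ => ?_
    have h1 : 0 ≤ 2 * (a * (‖ζ.1‖ ^ 2 + ‖ζ.2‖ ^ 2)) := by positivity
    have h2 : Real.exp (-(2 * (a * (‖ζ.1‖ ^ 2 + ‖ζ.2‖ ^ 2)))) ≤ 1 :=
      Real.exp_le_one_iff.mpr (by linarith)
    have h3 := Real.exp_pos (-(2 * (a * (‖ζ.1‖ ^ 2 + ‖ζ.2‖ ^ 2))))
    have h4 := hF0 ζ
    rw [Real.norm_eq_abs, abs_of_nonneg (mul_nonneg (by linarith) h4)]
    nlinarith
  · have h0 : ∀ᵐ ζ : ℂ × ℂ, ζ ≠ 0 := by
      have h1 : (volume : Measure (ℂ × ℂ)) {(0 : ℂ × ℂ)} = 0 := by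
        rw [Measure.volume_eq_prod, ← Prod.mk_zero_zero, ← Set.singleton_prod_singleton,
          Measure.prod_prod, measure_singleton, zero_mul]
      rw [ae_iff]
      simpa using h1
    filter_upwards [h0] with ζ hζ
    exact LimA_aux.lim_pt (LimA_aux.pos_of_ne hζ) (F ζ)

end MP_e78765_gt
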