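import Pool.Agent.Lib.MP_e78765_gt.Spec

/-!
# MP_e78765_gt, module Loc: local estimates near the diagonal (helper2)
-/

set_option autoImplicit false

open scoped ContDiff Topology
open MeasureTheory Set Filter

namespace MP_e78765_gt

namespace Loc_aux

/-- The defect of the Cauchy-Schwarz inequality for two vectors. -/
private lemma defect (a b : E3) :
    0 ≤ ‖b‖ * ‖a‖ - inner ℝ a b ∧ ‖b‖ * ‖a‖ - inner ℝ a b ≤ ‖a - b‖ ^ 2 / 2 := by
  constructor
  · have h := real_inner_le_norm a b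
    linarith
  · have h := norm_sub_sq_real a b
    nlinarith [sq_nonneg (‖a‖ - ‖b‖)]

/-- Gram determinant: it does not change if a multiple of `a` is added to `E`. -/
private lemma gram (a E : E3) (δ : ℝ) :
    0 ≤ ‖a‖ ^ 2 * ‖δ • a + E‖ ^ 2 - (inner ℝ (δ • a + E) a : ℝ) ^ 2 ∧
      ‖a‖ ^ 2 * ‖δ • a + E‖ ^ 2 - (inner ℝ (δ • a + E) a : ℝ) ^ 2 ≤ ‖a‖ ^ 2 * ‖E‖ ^ 2 := by
  have e1 : ‖δ • a + E‖ ^ 2 = δ ^ 2 * ‖a‖ ^ 2 + 2 * (δ * inner ℝ E a) + ‖E‖ ^ 2 := by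
    rw [norm_add_sq_real, real_inner_smul_left, norm_smul, mul_pow, Real.norm_eq_abs, sq_abs,
      real_inner_comm]
  have e2 : (inner ℝ (δ • a + E) a : ℝ) = δ * ‖a‖ ^ 2 + inner ℝ E a := by
    rw [inner_add_left, real_inner_smul_left, real_inner_self_eq_norm_sq]
  have e3 : ‖a‖ ^ 2 * ‖δ • a + E‖ ^ 2 - (inner ℝ (δ • a + E) a : ℝ) ^ 2 =
      ‖a‖ ^ 2 * ‖E‖ ^ 2 - (inner ℝ E a : ℝ) ^ 2 := by
    rw [e1, e2]
    ring
  rw [e3]
  constructor
  · have h := abs_real_inner_le_norm E a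
    have h2 : (inner ℝ E a : ℝ) ^ 2 ≤ (‖E‖ * ‖a‖) ^ 2 := by
      rw [← sq_abs]
      exact pow_le_pow_left₀ (abs_nonneg _) h 2
    nlinarith
  · have h := sq_nonneg (inner ℝ E a : ℝ)
    linarith

/-- The algebraic part. -/
private lemma core {m M K c δ l : ℝ} (hm : 0 < m) (hM : 0 < M) (hK : 0 < K) (hc : 0 < c)
    (hδ : 0 < δ) (a E : E3) (hE : ‖E‖ ≤ K * δ ^ 2) (ha1 : m ≤ ‖a‖) (ha2 : ‖a‖ ≤ M)
    (hx1 : c * δ ≤ ‖δ • a + E‖) (hx2 : ‖δ • a + E‖ ≤ M * δ) (hl1 : m * δ ≤ l) (hl2 : l ≤ M * δ)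
    (hp1 : 0 ≤ ‖a‖ * l - inner ℝ (δ • a + E) a)
    (hp2 : ‖a‖ * l - inner ℝ (δ • a + E) a ≤ K ^ 2 * δ ^ 3 / 2) :
    |1 / ‖δ • a + E‖ ^ 2 - 1 / l ^ 2| ≤ 2 * M * K ^ 2 / (c ^ 2 * m ^ 3) ∧
      |inner ℝ (δ • a + E) a / ‖δ • a + E‖ ^ 2 - ‖a‖ / l| ≤ 2 * M * K ^ 2 / (c ^ 2 * m) * δ := by
  obtain ⟨g1, g2⟩ := gram a E δ
  have hpa := abs_real_inner_le_norm (δ • a + E) a
  set p : ℝ := inner ℝ (δ • a + E) a with hp
  set X : ℝ := ‖δ • a + E‖ with hX
  set g : ℝ := ‖a‖ with hg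
  have hg0 : 0 < g := lt_of_lt_of_le hm ha1
  have hl0 : 0 < l := lt_of_lt_of_le (mul_pos hm hδ) hl1
  have hX0 : 0 < X := lt_of_lt_of_le (mul_pos hc hδ) hx1
  have hE0 : 0 ≤ ‖E‖ := norm_nonneg E
  have hE2 : ‖E‖ ^ 2 ≤ K ^ 2 * δ ^ 4 := by
    calc ‖E‖ ^ 2 ≤ (K * δ ^ 2) ^ 2 := pow_le_pow_left₀ hE0 hE 2
      _ = K ^ 2 * δ ^ 4 := by ring
  have hG : g ^ 2 * X ^ 2 - p ^ 2 ≤ g ^ 2 * (K ^ 2 * δ ^ 4) :=
    g2.trans (mul_le_mul_of_nonneg_left hE2 (sq_nonneg g))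
  have hpM : |p| ≤ g * (M * δ) := by
    calc |p| ≤ X * g := hpa
      _ ≤ M * δ * g := mul_le_mul_of_nonneg_right hx2 hg0.le
      _ = g * (M * δ) := by ring
  have hd4 : 0 < δ ^ 4 := by positivity
  have hN : c ^ 2 * δ ^ 2 ≤ X ^ 2 := by
    calc c ^ 2 * δ ^ 2 = (c * δ) ^ 2 := by ring
      _ ≤ X ^ 2 := pow_le_pow_left₀ (mul_pos hc hδ).le hx1 2
  have hL : m ^ 2 * δ ^ 2 ≤ l ^ 2 := by
    calc m ^ 2 * δ ^ 2 = (m * δ) ^ 2 := by ring
      _ ≤ l ^ 2 := pow_le_pow_left₀ (mul_pos hm hδ).le hl1 2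
  constructor
  · -- `|l² - X²| ≤ 2 M K² δ⁴ / m`
    have hk : |g * (g * (l ^ 2 - X ^ 2))| ≤ g * (2 * M * K ^ 2 * δ ^ 4) := by
      have e : g * (g * (l ^ 2 - X ^ 2)) = (g * l - p) * (g * l + p) - (g ^ 2 * X ^ 2 - p ^ 2) := by
        ring
      rw [e]
      have h1 : |(g * l - p) * (g * l + p)| ≤ K ^ 2 * δ ^ 3 / 2 * (2 * (g * (M * δ))) := by
        rw [abs_mul]
        refine mul_le_mul ?_ ?_ (abs_nonneg _) (by positivity)
        · rw [abs_of_nonneg hp1]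
          exact hp2
        · refine (abs_add_le _ _).trans ?_
          have h2 : |g * l| ≤ g * (M * δ) := by
            rw [abs_of_pos (mul_pos hg0 hl0)]
            exact mul_le_mul_of_nonneg_left hl2 hg0.le
          linarith
      have h2 : |g ^ 2 * X ^ 2 - p ^ 2| ≤ g * (M * (K ^ 2 * δ ^ 4)) := by
        rw [abs_of_nonneg g1]
        refine hG.trans ?_
        have h3 : g ^ 2 * (K ^ 2 * δ ^ 4) = g * (g * (K ^ 2 * δ ^ 4)) := by ring
        rw [h3]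
        exact mul_le_mul_of_nonneg_left (mul_le_mul_of_nonneg_right ha2 (by positivity)) hg0.le
      refine (abs_sub _ _).trans ?_
      calc _ ≤ K ^ 2 * δ ^ 3 / 2 * (2 * (g * (M * δ))) + g * (M * (K ^ 2 * δ ^ 4)) := add_le_add h1 h2
        _ = g * (2 * M * K ^ 2 * δ ^ 4) := by ring
    have hk2 : g * |l ^ 2 - X ^ 2| ≤ 2 * M * K ^ 2 * δ ^ 4 := by
      rw [abs_mul, abs_mul, abs_of_pos hg0] at hk
      exact le_of_mul_le_mul_left hk hg0
    have hk3 : m * |l ^ 2 - X ^ 2| ≤ 2 * M * K ^ 2 * δ ^ 4 :=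
      (mul_le_mul_of_nonneg_right ha1 (abs_nonneg _)).trans hk2
    have e : 1 / X ^ 2 - 1 / l ^ 2 = (l ^ 2 - X ^ 2) / (X ^ 2 * l ^ 2) := by
      field_simp
    rw [e, abs_div, abs_of_pos (by positivity : 0 < X ^ 2 * l ^ 2), div_le_div_iff₀ (by positivity)
      (by positivity)]
    calc |l ^ 2 - X ^ 2| * (c ^ 2 * m ^ 3) = (m * |l ^ 2 - X ^ 2|) * (c ^ 2 * m ^ 2) := by ring
      _ ≤ (2 * M * K ^ 2 * δ ^ 4) * (c ^ 2 * m ^ 2) :=
        mul_le_mul_of_nonneg_right hk3 (by positivity)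
      _ = 2 * M * K ^ 2 * ((c ^ 2 * δ ^ 2) * (m ^ 2 * δ ^ 2)) := by ring
      _ ≤ 2 * M * K ^ 2 * (X ^ 2 * l ^ 2) := by
        refine mul_le_mul_of_nonneg_left ?_ (by positivity)
        exact mul_le_mul hN hL (by positivity) (by positivity)
  · -- `|p l - g X²| ≤ 2 M K² δ⁴`
    have hk : |g * (g * X ^ 2 - p * l)| ≤ g * (2 * M * K ^ 2 * δ ^ 4) := by
      have e : g * (g * X ^ 2 - p * l) = (g ^ 2 * X ^ 2 - p ^ 2) - p * (g * l - p) := by ring
      rw [e]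
      have h1 : |p * (g * l - p)| ≤ g * (M * δ) * (K ^ 2 * δ ^ 3 / 2) := by
        rw [abs_mul]
        refine mul_le_mul hpM ?_ (abs_nonneg _) (by positivity)
        rw [abs_of_nonneg hp1]
        exact hp2
      have h2 : |g ^ 2 * X ^ 2 - p ^ 2| ≤ g * (M * (K ^ 2 * δ ^ 4)) := by
        rw [abs_of_nonneg g1]
        refine hG.trans ?_
        have h3 : g ^ 2 * (K ^ 2 * δ ^ 4) = g * (g * (K ^ 2 * δ ^ 4)) := by ring
        rw [h3]
        exact mul_le_mul_of_nonneg_left (mul_le_mul_of_nonneg_right ha2 (by positivity)) hg0.le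
      refine (abs_sub _ _).trans ?_
      have h4 : 0 ≤ g * (M * (K ^ 2 * δ ^ 4)) := by positivity
      calc _ ≤ g * (M * (K ^ 2 * δ ^ 4)) + g * (M * δ) * (K ^ 2 * δ ^ 3 / 2) := add_le_add h2 h1
        _ = 3 / 2 * (g * (M * (K ^ 2 * δ ^ 4))) := by ring
        _ ≤ 2 * (g * (M * (K ^ 2 * δ ^ 4))) := by linarith
        _ = g * (2 * M * K ^ 2 * δ ^ 4) := by ring
    have hk2 : |g * X ^ 2 - p * l| ≤ 2 * M * K ^ 2 * δ ^ 4 := by
      rw [abs_mul, abs_of_pos hg0] at hk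
      exact le_of_mul_le_mul_left hk hg0
    have e : p / X ^ 2 - g / l = -((g * X ^ 2 - p * l) / (X ^ 2 * l)) := by
      field_simp
      ring
    rw [e, abs_neg, abs_div, abs_of_pos (by positivity : 0 < X ^ 2 * l), div_le_iff₀ (by positivity)]
    refine hk2.trans ?_
    have e2 : 2 * M * K ^ 2 / (c ^ 2 * m) * δ * (X ^ 2 * l) =
        2 * M * K ^ 2 * δ * ((X ^ 2 * l) / (c ^ 2 * m)) := by
      field_simp
    rw [e2]
    have h3 : δ ^ 3 ≤ (X ^ 2 * l) / (c ^ 2 * m) := by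
      rw [le_div_iff₀ (by positivity)]
      calc δ ^ 3 * (c ^ 2 * m) = (c ^ 2 * δ ^ 2) * (m * δ) := by ring
        _ ≤ X ^ 2 * l := mul_le_mul hN hl1 (by positivity) (by positivity)
    calc 2 * M * K ^ 2 * δ ^ 4 = 2 * M * K ^ 2 * δ * δ ^ 3 := by ring
      _ ≤ _ := mul_le_mul_of_nonneg_left h3 (by positivity)

/-- Bounds of the arc length. -/
private lemma len_bd {r : ℝ → E3} (hk : IsKnot r) {m M : ℝ} (h1 : ∀ t, m ≤ ‖deriv r t‖)
    (h2 : ∀ t, ‖deriv r t‖ ≤ M) {u v : ℝ} (huv : u ≤ v) :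
    m * (v - u) ≤ len r u v ∧ len r u v ≤ M * (v - u) := by
  have hc : Continuous (deriv r) := hk.smooth.continuous_deriv (by simp)
  have hi : IntervalIntegrable (fun t => ‖deriv r t‖) volume u v :=
    hc.norm.intervalIntegrable u v
  unfold len
  constructor
  · have h := intervalIntegral.integral_mono_on huv
      (intervalIntegrable_const (c := m)) hi (fun t _ => h1 t)
    rwa [intervalIntegral.integral_const, smul_eq_mul, mul_comm] at h
  · have h := intervalIntegral.integral_mono_on huv hi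
      (intervalIntegrable_const (c := M)) (fun t _ => h2 t)
    rwa [intervalIntegral.integral_const, smul_eq_mul, mul_comm] at h

/-- The difference of the arc length and of the projection of the chord. -/
private lemma proj_bd {r : ℝ → E3} (hk : IsKnot r) {K : ℝ} (hK : 0 < K)
    (hLip : ∀ s t, ‖deriv r s - deriv r t‖ ≤ K * |s - t|) {u v w : ℝ} (huv : u ≤ v)
    (hw : w ∈ Icc u v) :
    0 ≤ ‖deriv r w‖ * len r u v - inner ℝ (r v - r u) (deriv r w) ∧
      ‖deriv r w‖ * len r u v - inner ℝ (r v - r u) (deriv r w) ≤ K ^ 2 * (v - u) ^ 3 / 2 := by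
  have hc : Continuous (deriv r) := hk.smooth.continuous_deriv (by simp)
  have hd : Differentiable ℝ r := hk.smooth.differentiable (by simp)
  have hi1 : IntervalIntegrable (fun t => ‖deriv r w‖ * ‖deriv r t‖) volume u v :=
    (continuous_const.mul hc.norm).intervalIntegrable u v
  have hi2 : IntervalIntegrable (fun t => (inner ℝ (deriv r t) (deriv r w) : ℝ)) volume u v :=
    (hc.inner continuous_const).intervalIntegrable u v
  have hftc : ∫ t in u..v, (inner ℝ (deriv r t) (deriv r w) : ℝ) =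
      inner ℝ (r v - r u) (deriv r w) := by
    rw [inner_sub_left]
    refine intervalIntegral.integral_eq_sub_of_hasDerivAt (f := fun t => inner ℝ (r t) (deriv r w))
      (fun t _ => ?_) hi2
    have h := (hd t).hasDerivAt.inner ℝ (hasDerivAt_const t (deriv r w))
    rwa [inner_zero_right, zero_add] at h
  have e : ‖deriv r w‖ * len r u v - inner ℝ (r v - r u) (deriv r w) =
      ∫ t in u..v, (‖deriv r w‖ * ‖deriv r t‖ - inner ℝ (deriv r t) (deriv r w)) := by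
    rw [intervalIntegral.integral_sub hi1 hi2, hftc, intervalIntegral.integral_const_mul]
    rfl
  rw [e]
  constructor
  · exact intervalIntegral.integral_nonneg huv fun t _ => (defect (deriv r t) (deriv r w)).1
  · have h := intervalIntegral.integral_mono_on huv (hi1.sub hi2)
      (intervalIntegrable_const (c := K ^ 2 * (v - u) ^ 2 / 2)) (fun t ht => ?_)
    · rw [intervalIntegral.integral_const, smul_eq_mul] at h
      refine h.trans (le_of_eq ?_)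
      ring
    · refine (defect (deriv r t) (deriv r w)).2.trans ?_
      have h1 : |t - w| ≤ v - u := by
        rw [abs_le]
        constructor
        · linarith [ht.1, hw.2]
        · linarith [ht.2, hw.1]
      have h2 : ‖deriv r t - deriv r w‖ ≤ K * (v - u) :=
        (hLip t w).trans (mul_le_mul_of_nonneg_left h1 hK.le)
      have h3 : ‖deriv r t - deriv r w‖ ^ 2 ≤ (K * (v - u)) ^ 2 :=
        pow_le_pow_left₀ (norm_nonneg _) h2 2
      have h4 : (K * (v - u)) ^ 2 = K ^ 2 * (v - u) ^ 2 := by ring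
      linarith

end Loc_aux

open Loc_aux in
theorem tLoc : S_Bd → S_Loc := by
  intro hBd r hk b hb
  obtain ⟨⟨m, M, K, hm, hM, hK, h1, h2, h3, h4, h5⟩, hch⟩ := hBd r hk
  obtain ⟨c, hc, h6⟩ := hch b hb
  have hC1 : 0 ≤ 2 * M * K ^ 2 / (c ^ 2 * m ^ 3) := by positivity
  have hC2 : 0 ≤ 2 * M * K ^ 2 / (c ^ 2 * m) := by positivity
  refine ⟨2 * M * K ^ 2 / (c ^ 2 * m ^ 3) + 2 * M * K ^ 2 / (c ^ 2 * m), fun u v huv hvb => ?_⟩
  obtain ⟨l1, l2⟩ := len_bd hk h1 h2 (sub_nonneg.1 huv.le)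
  have hle : u ≤ v := sub_nonneg.1 huv.le
  have habs : |v - u| = v - u := abs_of_pos huv
  have hx1 : c * (v - u) ≤ ‖r v - r u‖ := by
    have h := h6 v u (by rw [habs]; exact hvb)
    rwa [habs] at h
  have hx2 : ‖r v - r u‖ ≤ M * (v - u) := by
    have h := h5 v u
    rwa [habs] at h
  -- base point `u`
  have eu : (v - u) • deriv r u + (r v - r u - (v - u) • deriv r u) = r v - r u := by abel
  obtain ⟨p1, p2⟩ := proj_bd hk hK h3 hle (w := u) ⟨le_refl u, hle⟩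
  have cu := core hm hM hK hc huv (deriv r u) (r v - r u - (v - u) • deriv r u) (h4 v u) (h1 u)
    (h2 u) (by rw [eu]; exact hx1) (by rw [eu]; exact hx2) l1 l2 (by rw [eu]; exact p1)
    (by rw [eu]; exact p2)
  rw [eu] at cu
  -- base point `v`
  have ev : (v - u) • deriv r v + -(r u - r v - (u - v) • deriv r v) = r v - r u := by
    rw [sub_smul, sub_smul]
    abel
  obtain ⟨q1, q2⟩ := proj_bd hk hK h3 hle (w := v) ⟨hle, le_refl v⟩
  have hEv : ‖-(r u - r v - (u - v) • deriv r v)‖ ≤ K * (v - u) ^ 2 := by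
    rw [norm_neg]
    refine (h4 u v).trans (le_of_eq ?_)
    ring
  have cv := core hm hM hK hc huv (deriv r v) (-(r u - r v - (u - v) • deriv r v)) hEv (h1 v)
    (h2 v) (by rw [ev]; exact hx1) (by rw [ev]; exact hx2) l1 l2 (by rw [ev]; exact q1)
    (by rw [ev]; exact q2)
  rw [ev] at cv
  have hsym : ‖r u - r v‖ = ‖r v - r u‖ := norm_sub_rev _ _
  have hCle : 2 * M * K ^ 2 / (c ^ 2 * m) * (v - u) ≤
      (2 * M * K ^ 2 / (c ^ 2 * m ^ 3) + 2 * M * K ^ 2 / (c ^ 2 * m)) * (v - u) :=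
    mul_le_mul_of_nonneg_right (by linarith) huv.le
  rw [hsym]
  refine ⟨cu.1.trans (by linarith), ?_, cv.2.trans hCle⟩
  have e : (inner ℝ (r u - r v) (deriv r u) : ℝ) / ‖r v - r u‖ ^ 2 + ‖deriv r u‖ / len r u v =
      -(inner ℝ (r v - r u) (deriv r u) / ‖r v - r u‖ ^ 2 - ‖deriv r u‖ / len r u v) := by
    have e1 : (inner ℝ (r u - r v) (deriv r u) : ℝ) = -inner ℝ (r v - r u) (deriv r u) := by
      rw [← inner_neg_left, neg_sub]
    rw [e1]
    ring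
  rw [e, abs_neg]
  exact cu.2.trans hCle

end MP_e78765_gt
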