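import Pool.Agent.Lib.MP_e78765_gt.Spec3

/-!
# `S_Lw`: strictness at `ζ = (1,0)`
-/

set_option autoImplicit false

open scoped ContDiff Topology
open MeasureTheory Set Filter

namespace MP_e78765_gt

namespace Lw_aux

private lemma phi_one (x : E3) :
    phi ((1 : ℂ), 0) x = ((Real.exp (-(x 2)) : ℝ) : ℂ) := by
  unfold phi
  simp only [mul_zero, Complex.zero_re, Complex.zero_im, add_zero, norm_zero,
    Complex.ofReal_zero, sub_zero, norm_one]
  rw [Complex.ofReal_exp]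
  congr 1
  push_cast
  ring

private lemma comp_deriv (F : ℝ → E3) (t : ℝ) (h : DifferentiableAt ℝ F t) (i : Fin 3) :
    HasDerivAt (fun s => F s i) ((deriv F t) i) t :=
  ((EuclideanSpace.proj i : E3 →L[ℝ] ℝ).hasFDerivAt.comp_hasDerivAt t h.hasDerivAt)

private lemma norm_sq (x : E3) : ‖x‖ ^ 2 = x 0 ^ 2 + x 1 ^ 2 + x 2 ^ 2 := by
  rw [EuclideanSpace.norm_sq_eq, Fin.sum_univ_three]
  simp only [Real.norm_eq_abs, sq_abs]

private lemma cont_deriv (F : ℝ → E3) (t : ℝ) (h : ContDiffAt ℝ ∞ F t) :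
    ContinuousAt (deriv F) t := by
  have h1 : ContDiffAt ℝ 0 (fderiv ℝ F) t := h.fderiv_right (m := 0) (by norm_num)
  exact h1.continuousAt.clm_apply continuousAt_const

private lemma base (hCh : S_Ch) (hCone : S_Cone) (r : ℝ → E3) (hr : MirrorKnot r) :
    (∀ t ∈ Ico (0 : ℝ) (1 / 2), DifferentiableAt ℝ (Fc r) t ∧ deriv (Fc r) t ≠ 0) ∧
    ContinuousOn (deriv (Fc r)) (Ico (0 : ℝ) (1 / 2)) ∧
    IntegrableOn (fun t => ‖deriv (Fc r) t‖ * Real.exp (-(Fc r t 2))) (Ioo (0 : ℝ) (1 / 2)) ∧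
    IntegrableOn (fun t => (deriv (Fc r) t) 2 * Real.exp (-(Fc r t 2))) (Ioo (0 : ℝ) (1 / 2)) ∧
    (∫ t in Ioo (0 : ℝ) (1 / 2), (deriv (Fc r) t) 2 * Real.exp (-(Fc r t 2))) = 1 := by
  obtain ⟨-, -, -, -, hq, -, -, -, hsm, -, -, hF0, hpos, -, -, hinf⟩ := hCh r hr
  obtain ⟨⟨c, hc0, -, hcone⟩, ⟨C, hC⟩, -, -, -⟩ := hCone r hr
  have hnq : ∀ t ∈ Ico (0 : ℝ) (1 / 2), r t ≠ r (1 / 2) := by
    intro t ht h
    obtain ⟨n, hn⟩ := (hq t).1 h
    have h1 : (n : ℝ) < 0 := by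
      have := ht.2
      linarith
    have h2 : (-1 : ℝ) < n := by
      have := ht.1
      linarith
    have h3 : n < 0 := by exact_mod_cast h1
    have h4 : -1 < n := by exact_mod_cast h2
    omega
  have hcd : ∀ t ∈ Ico (0 : ℝ) (1 / 2), ContDiffAt ℝ ∞ (Fc r) t := fun t ht =>
    (hsm t (hnq t ht)).1
  have hdiff : ∀ t ∈ Ico (0 : ℝ) (1 / 2), DifferentiableAt ℝ (Fc r) t := fun t ht =>
    (hcd t ht).differentiableAt (by norm_num)
  have hdc : ContinuousOn (deriv (Fc r)) (Ico (0 : ℝ) (1 / 2)) := fun t ht =>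
    (cont_deriv _ t (hcd t ht)).continuousWithinAt
  have hsub : Ioo (0 : ℝ) (1 / 2) ⊆ Ico (0 : ℝ) (1 / 2) := Ioo_subset_Ico_self
  have hz : ∀ t ∈ Ico (0 : ℝ) (1 / 2), HasDerivAt (fun s => Fc r s 2) ((deriv (Fc r) t) 2) t :=
    fun t ht => comp_deriv _ t (hdiff t ht) 2
  have hzc : ContinuousOn (fun s => Fc r s 2) (Ico (0 : ℝ) (1 / 2)) := fun t ht =>
    (hz t ht).continuousAt.continuousWithinAt
  have hec : ContinuousOn (fun s => Real.exp (-(Fc r s 2))) (Ico (0 : ℝ) (1 / 2)) :=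
    Real.continuous_exp.comp_continuousOn hzc.neg
  have hd2 : ContinuousOn (fun t => (deriv (Fc r) t) 2) (Ico (0 : ℝ) (1 / 2)) :=
    (EuclideanSpace.proj (2 : Fin 3) : E3 →L[ℝ] ℝ).continuous.comp_continuousOn hdc
  have hz0 : Fc r 0 2 = 0 := by
    rw [hF0]
    rfl
  have hzinf : Tendsto (fun s => Fc r s 2) (𝓝[<] (1 / 2)) atTop := by
    have h1 : Tendsto (fun t => c * ‖Fc r t‖) (𝓝[<] (1 / 2)) atTop :=
      (hinf.mono_left (nhdsWithin_mono _ fun t (ht : t < 1 / 2) => ht.ne)).const_mul_atTop hc0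
    refine tendsto_atTop_mono' _ ?_ h1
    have h2 : ∀ᶠ t in 𝓝[<] (1 / 2 : ℝ), t ∈ Ioo (0 : ℝ) (1 / 2) :=
      Ioo_mem_nhdsLT (by norm_num)
    exact h2.mono fun t ht => hcone t ht
  have hB : ∀ t ∈ Ioo (0 : ℝ) (1 / 2), ‖deriv (Fc r) t‖ * Real.exp (-(Fc r t 2)) ≤
      |C| * ((1 + 1 / c ^ 2) * 2) := by
    intro t ht
    have h1 := hC t (hnq t (hsub ht))
    have h2 := hcone t ht
    have h3 := hpos t ht
    have h4 : 1 + ‖Fc r t‖ ^ 2 ≤ (1 + 1 / c ^ 2) * (1 + (Fc r t 2) ^ 2) := by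
      have h5 : ‖Fc r t‖ ≤ Fc r t 2 / c := by
        rw [le_div_iff₀ hc0, mul_comm]
        exact h2
      have h6 : ‖Fc r t‖ ^ 2 ≤ (Fc r t 2 / c) ^ 2 := pow_le_pow_left₀ (norm_nonneg _) h5 2
      rw [div_pow] at h6
      have h7 : (Fc r t 2) ^ 2 / c ^ 2 = (1 / c ^ 2) * (Fc r t 2) ^ 2 := by ring
      rw [h7] at h6
      have h8 : 0 ≤ 1 / c ^ 2 := by positivity
      nlinarith [sq_nonneg (Fc r t 2)]
    have h5 : (1 + (Fc r t 2) ^ 2) * Real.exp (-(Fc r t 2)) ≤ 2 := by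
      have h6 := Real.quadratic_le_exp_of_nonneg h3.le
      have h7 : 1 + (Fc r t 2) ^ 2 ≤ 2 * Real.exp (Fc r t 2) := by nlinarith
      calc (1 + (Fc r t 2) ^ 2) * Real.exp (-(Fc r t 2))
          ≤ (2 * Real.exp (Fc r t 2)) * Real.exp (-(Fc r t 2)) :=
            mul_le_mul_of_nonneg_right h7 (Real.exp_pos _).le
        _ = 2 := by rw [mul_assoc, ← Real.exp_add, add_neg_cancel, Real.exp_zero, mul_one]
    have h6 : 0 ≤ 1 + 1 / c ^ 2 := by positivity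
    calc ‖deriv (Fc r) t‖ * Real.exp (-(Fc r t 2))
        ≤ (|C| * (1 + ‖Fc r t‖ ^ 2)) * Real.exp (-(Fc r t 2)) := by
          refine mul_le_mul_of_nonneg_right (h1.trans ?_) (Real.exp_pos _).le
          exact mul_le_mul_of_nonneg_right (le_abs_self C) (by positivity)
      _ ≤ (|C| * ((1 + 1 / c ^ 2) * (1 + (Fc r t 2) ^ 2))) * Real.exp (-(Fc r t 2)) :=
          mul_le_mul_of_nonneg_right (mul_le_mul_of_nonneg_left h4 (abs_nonneg C))
            (Real.exp_pos _).le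
      _ = |C| * ((1 + 1 / c ^ 2) * ((1 + (Fc r t 2) ^ 2) * Real.exp (-(Fc r t 2)))) := by ring
      _ ≤ |C| * ((1 + 1 / c ^ 2) * 2) :=
          mul_le_mul_of_nonneg_left (mul_le_mul_of_nonneg_left h5 h6) (abs_nonneg C)
  have int1 : IntegrableOn (fun t => ‖deriv (Fc r) t‖ * Real.exp (-(Fc r t 2)))
      (Ioo (0 : ℝ) (1 / 2)) := by
    refine ⟨?_, HasFiniteIntegral.restrict_of_bounded (C := |C| * ((1 + 1 / c ^ 2) * 2))
      measure_Ioo_lt_top ?_⟩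
    · exact ((hdc.norm.mul hec).mono hsub).aestronglyMeasurable measurableSet_Ioo
    · refine (ae_restrict_iff' measurableSet_Ioo).2 (Eventually.of_forall fun t ht => ?_)
      rw [Real.norm_of_nonneg (mul_nonneg (norm_nonneg _) (Real.exp_pos _).le)]
      exact hB t ht
  have int2 : IntegrableOn (fun t => (deriv (Fc r) t) 2 * Real.exp (-(Fc r t 2)))
      (Ioo (0 : ℝ) (1 / 2)) := by
    refine Integrable.mono' int1 ?_ ?_
    · exact ((hd2.mul hec).mono hsub).aestronglyMeasurable measurableSet_Ioo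
    · refine (ae_restrict_iff' measurableSet_Ioo).2 (Eventually.of_forall fun t _ => ?_)
      rw [norm_mul, Real.norm_of_nonneg (Real.exp_pos _).le]
      exact mul_le_mul_of_nonneg_right (PiLp.norm_apply_le (deriv (Fc r) t) 2) (Real.exp_pos _).le
  refine ⟨fun t ht => ⟨hdiff t ht, (hsm t (hnq t ht)).2.2⟩, hdc, int1, int2, ?_⟩
  have hlim : Tendsto (fun t => Real.exp (-(Fc r t 2))) (𝓝[<] (1 / 2)) (𝓝 0) :=
    Real.tendsto_exp_neg_atTop_nhds_zero.comp hzinf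
  have ftc : ∫ t in (0 : ℝ)..(1 / 2), (deriv (Fc r) t) 2 * Real.exp (-(Fc r t 2)) = -0 - -1 := by
    refine intervalIntegral.integral_eq_sub_of_hasDerivAt_of_tendsto
      (f := fun t => -Real.exp (-(Fc r t 2))) (by norm_num) ?_ ?_ ?_ hlim.neg
    · intro t ht
      have h2 := (((hz t ⟨ht.1.le, ht.2⟩).neg).exp).neg
      refine h2.congr_deriv ?_
      show -(Real.exp (-(Fc r t 2)) * -((deriv (Fc r) t) 2)) =
        (deriv (Fc r) t) 2 * Real.exp (-(Fc r t 2))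
      ring
    · rw [intervalIntegrable_iff_integrableOn_Ioo_of_le (by norm_num)]
      exact int2
    · have h2 : ContinuousAt (fun t => -Real.exp (-(Fc r t 2))) 0 :=
        ((Real.continuous_exp.continuousAt.comp
          ((hz 0 ⟨le_rfl, by norm_num⟩).continuousAt).neg)).neg
      have h3 : -Real.exp (-(Fc r 0 2)) = -1 := by
        rw [hz0, neg_zero, Real.exp_zero]
      rw [← h3]
      exact h2.tendsto.mono_left nhdsWithin_le_nhds
  rw [intervalIntegral.integral_of_le (by norm_num), integral_Ioc_eq_integral_Ioo] at ftc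
  rw [ftc]
  norm_num

/-- On the axis the third component of the velocity is the speed. -/
private lemma axis (hCh : S_Ch) (hCone : S_Cone) (r ℓ : ℝ → E3) (hl : Axial r ℓ) :
    ∀ t ∈ Ioo (0 : ℝ) (1 / 2), ‖deriv (Fc ℓ) t‖ = (deriv (Fc ℓ) t) 2 := by
  obtain ⟨hd, hdc, -, -, -⟩ := base hCh hCone ℓ hl.kn
  obtain ⟨-, -, -, -, hd02⟩ := hCone ℓ hl.kn
  have hsub : Ioo (0 : ℝ) (1 / 2) ⊆ Ico (0 : ℝ) (1 / 2) := Ioo_subset_Ico_self
  have hcomp : ∀ i : Fin 3, (∀ t ∈ Ioo (0 : ℝ) (1 / 2), Fc ℓ t i = 0) →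
      ∀ t ∈ Ioo (0 : ℝ) (1 / 2), (deriv (Fc ℓ) t) i = 0 := by
    intro i hi t ht
    have h1 := comp_deriv _ t (hd t (hsub ht)).1 i
    have h2 : (fun s => Fc ℓ s i) =ᶠ[𝓝 t] fun _ => (0 : ℝ) := by
      filter_upwards [isOpen_Ioo.mem_nhds ht] with s hs
      exact hi s hs
    exact h1.unique ((hasDerivAt_const t (0 : ℝ)).congr_of_eventuallyEq h2)
  have h0 := hcomp 0 fun t ht => (hl.axis t ht).1
  have h1 := hcomp 1 fun t ht => (hl.axis t ht).2
  have hne : ∀ t ∈ Ioo (0 : ℝ) (1 / 2), (deriv (Fc ℓ) t) 2 ≠ 0 := by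
    intro t ht h
    apply (hd t (hsub ht)).2
    ext i
    fin_cases i
    · exact h0 t ht
    · exact h1 t ht
    · exact h
  have hpos : ∀ t ∈ Ioo (0 : ℝ) (1 / 2), 0 < (deriv (Fc ℓ) t) 2 := by
    intro t ht
    by_contra hcon
    have hlt : (deriv (Fc ℓ) t) 2 < 0 := lt_of_le_of_ne (not_lt.1 hcon) (hne t ht)
    have hc : ContinuousOn (fun s => (deriv (Fc ℓ) s) 2) (Icc 0 t) :=
      ((EuclideanSpace.proj (2 : Fin 3) : E3 →L[ℝ] ℝ).continuous.comp_continuousOn hdc).mono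
        fun s hs => ⟨hs.1, hs.2.trans_lt ht.2⟩
    have hmem : (0 : ℝ) ∈ Icc ((deriv (Fc ℓ) t) 2) ((deriv (Fc ℓ) 0) 2) := ⟨hlt.le, hd02.le⟩
    obtain ⟨s, hs, hs0⟩ := intermediate_value_Icc' ht.1.le hc hmem
    have hs0' : (deriv (Fc ℓ) s) 2 = 0 := hs0
    rcases eq_or_lt_of_le hs.1 with h | h
    · rw [← h] at hs0'
      exact hd02.ne' hs0'
    · exact hne s ⟨h, hs.2.trans_lt ht.2⟩ hs0'
  intro t ht
  have h2 := norm_sq (deriv (Fc ℓ) t)
  rw [h0 t ht, h1 t ht] at h2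
  have h3 : ‖deriv (Fc ℓ) t‖ ^ 2 = ((deriv (Fc ℓ) t) 2) ^ 2 := by
    rw [h2]
    ring
  exact (pow_left_inj₀ (norm_nonneg _) (hpos t ht).le two_ne_zero).1 h3

end Lw_aux

open Lw_aux in
theorem tLw : S_Ch → S_Cone → S_Ker → S_Lw := by
  intro hCh hCone _ r ℓ hr hl hW
  obtain ⟨hd, hdc, int1, int2, hone⟩ := base hCh hCone r hr
  obtain ⟨-, -, jnt1, -, hone'⟩ := base hCh hCone ℓ hl.kn
  obtain ⟨-, -, -, -, -, -, -, -, -, -, -, hF0, -, -, -, -⟩ := hCh r hr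
  have hsub : Ioo (0 : ℝ) (1 / 2) ⊆ Ico (0 : ℝ) (1 / 2) := Ioo_subset_Ico_self
  have hlone : ∫ t in Ioo (0 : ℝ) (1 / 2), ‖deriv (Fc ℓ) t‖ * Real.exp (-(Fc ℓ t 2)) = 1 := by
    refine Eq.trans (setIntegral_congr_fun measurableSet_Ioo fun t ht => ?_) hone'
    show ‖deriv (Fc ℓ) t‖ * Real.exp (-(Fc ℓ t 2)) = (deriv (Fc ℓ) t) 2 * Real.exp (-(Fc ℓ t 2))
    rw [axis hCh hCone r ℓ hl t ht]
  have hrone : ∫ t in Ioo (0 : ℝ) (1 / 2), ‖deriv (Fc r) t‖ * Real.exp (-(Fc r t 2)) = 1 := by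
    have h1 : Dw r ℓ (1, 0) = ((∫ t in Ioo (0 : ℝ) (1 / 2),
        (‖deriv (Fc r) t‖ * Real.exp (-(Fc r t 2)) -
          ‖deriv (Fc ℓ) t‖ * Real.exp (-(Fc ℓ t 2))) : ℝ) : ℂ) := by
      rw [← integral_complex_ofReal]
      unfold Dw
      refine integral_congr_ae (Eventually.of_forall fun t => ?_)
      show (‖deriv (Fc r) t‖ : ℂ) * phi (1, 0) (Fc r t) -
        (‖deriv (Fc ℓ) t‖ : ℂ) * phi (1, 0) (Fc ℓ t) = _
      rw [phi_one, phi_one]
      push_cast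
      ring
    rw [hW] at h1
    have h2 : (∫ t in Ioo (0 : ℝ) (1 / 2),
        (‖deriv (Fc r) t‖ * Real.exp (-(Fc r t 2)) -
          ‖deriv (Fc ℓ) t‖ * Real.exp (-(Fc ℓ t 2)))) = 0 := by
      exact_mod_cast h1.symm
    rw [integral_sub int1 jnt1, hlone] at h2
    linarith
  -- the integral of the nonnegative function is zero
  have hG : ∫ t in Ioo (0 : ℝ) (1 / 2),
      (‖deriv (Fc r) t‖ * Real.exp (-(Fc r t 2)) - (deriv (Fc r) t) 2 * Real.exp (-(Fc r t 2)))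
        = 0 := by
    rw [integral_sub int1 int2, hrone, hone, sub_self]
  have hzc : ContinuousOn (fun s => Fc r s 2) (Ico (0 : ℝ) (1 / 2)) := fun t ht =>
    (comp_deriv _ t (hd t ht).1 2).continuousAt.continuousWithinAt
  have hec : ContinuousOn (fun s => Real.exp (-(Fc r s 2))) (Ico (0 : ℝ) (1 / 2)) :=
    Real.continuous_exp.comp_continuousOn hzc.neg
  have hd2 : ContinuousOn (fun t => (deriv (Fc r) t) 2) (Ico (0 : ℝ) (1 / 2)) :=
    (EuclideanSpace.proj (2 : Fin 3) : E3 →L[ℝ] ℝ).continuous.comp_continuousOn hdc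
  have hGc : ContinuousOn (fun t => ‖deriv (Fc r) t‖ * Real.exp (-(Fc r t 2)) -
      (deriv (Fc r) t) 2 * Real.exp (-(Fc r t 2))) (Ico (0 : ℝ) (1 / 2)) :=
    (hdc.norm.mul hec).sub (hd2.mul hec)
  have hnn : ∀ s ∈ Ioo (0 : ℝ) (1 / 2), 0 ≤ ‖deriv (Fc r) s‖ * Real.exp (-(Fc r s 2)) -
      (deriv (Fc r) s) 2 * Real.exp (-(Fc r s 2)) := by
    intro s _
    rw [← sub_mul]
    exact mul_nonneg (sub_nonneg.2 ((le_abs_self _).trans
      (PiLp.norm_apply_le (deriv (Fc r) s) 2))) (Real.exp_pos _).le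
  have key : ∀ t ∈ Ioo (0 : ℝ) (1 / 2), ‖deriv (Fc r) t‖ = (deriv (Fc r) t) 2 := by
    intro t ht
    by_contra hne
    have hlt : 0 < ‖deriv (Fc r) t‖ * Real.exp (-(Fc r t 2)) -
        (deriv (Fc r) t) 2 * Real.exp (-(Fc r t 2)) := by
      rw [← sub_mul]
      exact mul_pos (sub_pos.2 (lt_of_le_of_ne ((le_abs_self _).trans
        (PiLp.norm_apply_le (deriv (Fc r) t) 2)) fun h => hne h.symm)) (Real.exp_pos _)
    have hab : t / 2 < (t + 1 / 2) / 2 := by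
      have := ht.1
      linarith
    have hin : Icc (t / 2) ((t + 1 / 2) / 2) ⊆ Ioo (0 : ℝ) (1 / 2) := by
      intro s hs
      have h2 := ht.1
      have h3 := ht.2
      exact ⟨by linarith [hs.1], by linarith [hs.2]⟩
    have h2 : 0 < ∫ s in (t / 2)..((t + 1 / 2) / 2), (‖deriv (Fc r) s‖ * Real.exp (-(Fc r s 2)) -
        (deriv (Fc r) s) 2 * Real.exp (-(Fc r s 2))) := by
      refine intervalIntegral.integral_pos hab ?_
        (fun s hs => hnn s (hin (Ioc_subset_Icc_self hs))) ⟨t, ?_, hlt⟩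
      · exact hGc.mono (hin.trans hsub)
      · exact ⟨by linarith [ht.1], by linarith [ht.2]⟩
    have h3 : (∫ s in (t / 2)..((t + 1 / 2) / 2), (‖deriv (Fc r) s‖ * Real.exp (-(Fc r s 2)) -
        (deriv (Fc r) s) 2 * Real.exp (-(Fc r s 2)))) ≤ ∫ t in Ioo (0 : ℝ) (1 / 2),
        (‖deriv (Fc r) t‖ * Real.exp (-(Fc r t 2)) -
          (deriv (Fc r) t) 2 * Real.exp (-(Fc r t 2))) := by
      rw [intervalIntegral.integral_of_le hab.le]
      refine setIntegral_mono_set (int1.sub int2) ?_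
        (Eventually.of_forall (Ioc_subset_Icc_self.trans hin))
      exact (ae_restrict_iff' measurableSet_Ioo).2 (Eventually.of_forall hnn)
    rw [hG] at h3
    linarith
  have hcomp : ∀ t ∈ Ioo (0 : ℝ) (1 / 2), (deriv (Fc r) t) 0 = 0 ∧ (deriv (Fc r) t) 1 = 0 := by
    intro t ht
    have h1 := norm_sq (deriv (Fc r) t)
    rw [key t ht] at h1
    have h2 : (deriv (Fc r) t) 0 ^ 2 + (deriv (Fc r) t) 1 ^ 2 = 0 := by linarith
    constructor
    · have h3 := sq_nonneg ((deriv (Fc r) t) 1)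
      exact pow_eq_zero_iff two_ne_zero |>.1 (le_antisymm (by linarith) (sq_nonneg _))
    · have h3 := sq_nonneg ((deriv (Fc r) t) 0)
      exact pow_eq_zero_iff two_ne_zero |>.1 (le_antisymm (by linarith) (sq_nonneg _))
  have hfin : ∀ i : Fin 3, (∀ t ∈ Ioo (0 : ℝ) (1 / 2), (deriv (Fc r) t) i = 0) →
      ∀ t ∈ Ioo (0 : ℝ) (1 / 2), Fc r t i = 0 := by
    intro i hi t ht
    have hsub' : Icc 0 t ⊆ Ico (0 : ℝ) (1 / 2) := fun s hs => ⟨hs.1, hs.2.trans_lt ht.2⟩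
    obtain ⟨s, hs, hse⟩ := exists_hasDerivAt_eq_slope (fun s => Fc r s i)
      (fun s => (deriv (Fc r) s) i) ht.1
      (fun s hs => (comp_deriv _ s (hd s (hsub' hs)).1 i).continuousAt.continuousWithinAt)
      (fun s hs => comp_deriv _ s (hd s (hsub' (Ioo_subset_Icc_self hs))).1 i)
    rw [hi s ⟨hs.1, hs.2.trans ht.2⟩] at hse
    have h1 : Fc r 0 i = 0 := by
      rw [hF0]
      rfl
    have h2 : Fc r t i - Fc r 0 i = 0 := by
      rcases div_eq_zero_iff.1 hse.symm with h | h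
      · exact h
      · exact absurd h (sub_pos.2 ht.1).ne'
    rw [h1, sub_zero] at h2
    exact h2
  exact fun t ht =>
    ⟨hfin 0 (fun s hs => (hcomp s hs).1) t ht, hfin 1 (fun s hs => (hcomp s hs).2) t ht⟩

end MP_e78765_gt
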