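import Pool.Agent.Lib.MP_e78765_gt.Spec

/-!
# THEOREM R (MP_e78765_gt): the reflection is a linear isometry
-/

set_option autoImplicit false

open scoped ContDiff Topology
open MeasureTheory Set Filter

namespace MP_e78765_gt

private theorem m0 (x : E3) : mir x 0 = x 0 := by simp [mir]

private theorem m1 (x : E3) : mir x 1 = x 1 := by simp [mir]

private theorem m2 (x : E3) : mir x 2 = -x 2 := by simp [mir]

private theorem ext3 {x y : E3} (h0 : x 0 = y 0) (h1 : x 1 = y 1) (h2 : x 2 = y 2) : x = y := by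
  ext i
  fin_cases i
  · exact h0
  · exact h1
  · exact h2

private theorem madd (x y : E3) : mir (x + y) = mir x + mir y := by
  refine ext3 ?_ ?_ ?_
  · rw [m0, PiLp.add_apply, PiLp.add_apply, m0, m0]
  · rw [m1, PiLp.add_apply, PiLp.add_apply, m1, m1]
  · rw [m2, PiLp.add_apply, PiLp.add_apply, m2, m2]
    ring

private theorem msmul (c : ℝ) (x : E3) : mir (c • x) = c • mir x := by
  refine ext3 ?_ ?_ ?_
  · rw [m0, PiLp.smul_apply, PiLp.smul_apply, m0]
  · rw [m1, PiLp.smul_apply, PiLp.smul_apply, m1]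
  · rw [m2, PiLp.smul_apply, PiLp.smul_apply, m2, smul_neg]

private theorem msub (x y : E3) : mir (x - y) = mir x - mir y := by
  refine ext3 ?_ ?_ ?_
  · rw [m0, PiLp.sub_apply, PiLp.sub_apply, m0, m0]
  · rw [m1, PiLp.sub_apply, PiLp.sub_apply, m1, m1]
  · rw [m2, PiLp.sub_apply, PiLp.sub_apply, m2, m2]
    ring

private theorem minner (x y : E3) : inner ℝ (mir x) (mir y) = inner ℝ x y := by
  rw [PiLp.inner_apply, PiLp.inner_apply, Fin.sum_univ_three, Fin.sum_univ_three, m0, m0, m1, m1,
    m2, m2]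
  simp

private theorem mnorm (x : E3) : ‖mir x‖ = ‖x‖ := by
  have h1 : ‖mir x‖ ^ 2 = ‖x‖ ^ 2 := by
    rw [← real_inner_self_eq_norm_sq, ← real_inner_self_eq_norm_sq, minner]
  exact (sq_eq_sq₀ (norm_nonneg _) (norm_nonneg _)).1 h1

/-- The reflection as a continuous linear map. -/
private noncomputable def mirL : E3 →L[ℝ] E3 :=
  LinearMap.toContinuousLinearMap
    { toFun := mir
      map_add' := madd
      map_smul' := msmul }

private theorem mirL_apply (x : E3) : mirL x = mir x := rfl

/-- **The reflection is a linear isometric involution.** -/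
theorem tMir : S_Mir := by
  refine ⟨madd, msmul, msub, ?_, mnorm, minner, ?_, ?_⟩
  · intro x
    refine ext3 ?_ ?_ ?_
    · rw [m0, m0]
    · rw [m1, m1]
    · rw [m2, m2, neg_neg]
  · intro x y
    rw [EuclideanSpace.norm_sq_eq, Fin.sum_univ_three, PiLp.sub_apply, PiLp.sub_apply,
      PiLp.sub_apply, m0, m1, m2, Real.norm_eq_abs, Real.norm_eq_abs, Real.norm_eq_abs, sq_abs,
      sq_abs, sq_abs, sub_neg_eq_add]
  · intro f a t h
    exact mirL.hasFDerivAt.comp_hasDerivAt t h

end MP_e78765_gt
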