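import Pool.Agent.Lib.MP_e78765_gt.Spec2

/-! The reflection as a linear isometry. -/

open scoped ContDiff Topology
open MeasureTheory Set Filter

namespace MP_e78765_gt

theorem tMirA : S_Mir → S_MirA := by
  rintro ⟨m1, m2, -, m4, m5, -⟩
  let f : E3 ≃ₗ[ℝ] E3 :=
    { toFun := mir
      map_add' := m1
      map_smul' := m2
      invFun := mir
      left_inv := m4
      right_inv := m4 }
  exact ⟨⟨f, m5⟩, fun _ => rfl⟩

end MP_e78765_gt
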