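import Pool.Agent.Lib.MP_e78765_gt.Spec

/-!
# THEOREM R (MP_e78765_gt): the mu-bound for the conformal integrand
-/

set_option autoImplicit false

open scoped ContDiff Topology
open MeasureTheory Set Filter

namespace MP_e78765_gt

namespace Mu_aux

theorem one_side {α p γ : ℝ} (hα : 0 < α) (h1 : p ≤ α) (h2 : -α ≤ p) (hγ : 0 ≤ γ) :
    2 * α * (α - p) ≤ 4 * (α ^ 2 - 2 * γ * p + γ ^ 2) := by
  rcases le_total p 0 with hp | hp
  · nlinarith [mul_nonneg hα.le (by linarith : 0 ≤ α + p), mul_nonneg hγ (by linarith : 0 ≤ -p),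
      sq_nonneg γ]
  · nlinarith [sq_nonneg (γ - p), mul_nonneg (by linarith : 0 ≤ α - p) (by linarith : 0 ≤ α + 2 * p)]

theorem norm_sq_sub (a e : E3) (γ : ℝ) (he : ‖e‖ = 1) :
    ‖a - γ • e‖ ^ 2 = ‖a‖ ^ 2 - 2 * γ * inner ℝ e a + γ ^ 2 := by
  rw [norm_sub_sq_real, norm_smul, he, inner_smul_right, real_inner_comm]
  simp
  ring

theorem two_vec {a b e : E3} (he : ‖e‖ = 1) (ha : 0 < ‖a‖) (hb : 0 < ‖b‖) :
    ‖a‖ * ‖b‖ + inner ℝ a b - 2 * inner ℝ e a * inner ℝ e b ≤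
      2 * ‖b‖ * (‖a‖ - inner ℝ e a) + 2 * ‖a‖ * (‖b‖ - inner ℝ e b) := by
  set p : ℝ := inner ℝ e a with hp
  set q : ℝ := inner ℝ e b with hq
  set r : ℝ := inner ℝ a b with hr
  set α : ℝ := ‖a‖ with hα
  set β : ℝ := ‖b‖ with hβ
  have h0 : 0 ≤ ‖(α • b - β • a) + (2 * β * (p - α)) • e‖ ^ 2 := sq_nonneg _
  have h1 : ‖(α • b - β • a) + (2 * β * (p - α)) • e‖ ^ 2 =
      α ^ 2 * β ^ 2 - 2 * (α * β * r) + β ^ 2 * α ^ 2 +
        2 * (2 * β * (p - α) * (α * q - β * p)) + (2 * β * (p - α)) ^ 2 := by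
    have c1 : (inner ℝ b a : ℝ) = r := real_inner_comm a b
    have c2 : (inner ℝ b e : ℝ) = q := real_inner_comm e b
    have c3 : (inner ℝ a e : ℝ) = p := real_inner_comm e a
    rw [norm_add_sq_real, norm_sub_sq_real]
    simp only [norm_smul, he, inner_smul_left, inner_smul_right, inner_sub_left, c1, c2, c3,
      Real.norm_eq_abs, conj_trivial, mul_one, mul_pow, sq_abs, ← hα, ← hβ]
    ring
  rw [h1] at h0
  have h2 : 0 ≤ (2 * (α * β)) * (α * β - r + 2 * (p - α) * (q - β)) := by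
    have e1 : (2 * (α * β)) * (α * β - r + 2 * (p - α) * (q - β)) =
      α ^ 2 * β ^ 2 - 2 * (α * β * r) + β ^ 2 * α ^ 2 +
        2 * (2 * β * (p - α) * (α * q - β * p)) + (2 * β * (p - α)) ^ 2 := by ring
    rw [e1]
    exact h0
  have h3 : 0 ≤ α * β - r + 2 * (p - α) * (q - β) :=
    nonneg_of_mul_nonneg_right h2 (by positivity)
  nlinarith [h3]

theorem core {a b e : E3} {γ γ' : ℝ} (he : ‖e‖ = 1) (ha : 0 < ‖a‖) (hb : 0 < ‖b‖) (hγ : 0 ≤ γ)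
    (hγ' : 0 ≤ γ') :
    ‖a‖ * ‖b‖ + inner ℝ a b - 2 * inner ℝ e a * inner ℝ e b ≤
      4 * (‖a - γ • e‖ ^ 2 * (‖b‖ / ‖a‖) + ‖b - γ' • e‖ ^ 2 * (‖a‖ / ‖b‖)) := by
  have h1 := two_vec he ha hb
  have hpa : inner ℝ e a ≤ ‖a‖ := by
    have := real_inner_le_norm e a
    rwa [he, one_mul] at this
  have hpa' : -‖a‖ ≤ inner ℝ e a := by
    have := neg_le_of_abs_le (abs_real_inner_le_norm e a)
    rwa [he, one_mul] at this
  have hpb : inner ℝ e b ≤ ‖b‖ := by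
    have := real_inner_le_norm e b
    rwa [he, one_mul] at this
  have hpb' : -‖b‖ ≤ inner ℝ e b := by
    have := neg_le_of_abs_le (abs_real_inner_le_norm e b)
    rwa [he, one_mul] at this
  have h2 := one_side ha hpa hpa' hγ
  have h3 := one_side hb hpb hpb' hγ'
  rw [← norm_sq_sub a e γ he] at h2
  rw [← norm_sq_sub b e γ' he] at h3
  have h4 : 2 * ‖b‖ * (‖a‖ - inner ℝ e a) ≤ 4 * (‖a - γ • e‖ ^ 2 * (‖b‖ / ‖a‖)) := by
    have e1 : 2 * ‖b‖ * (‖a‖ - inner ℝ e a) = (2 * ‖a‖ * (‖a‖ - inner ℝ e a)) * (‖b‖ / ‖a‖) := by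
      field_simp
    rw [e1]
    have := mul_le_mul_of_nonneg_right h2 (div_nonneg hb.le ha.le)
    linarith
  have h5 : 2 * ‖a‖ * (‖b‖ - inner ℝ e b) ≤ 4 * (‖b - γ' • e‖ ^ 2 * (‖a‖ / ‖b‖)) := by
    have e1 : 2 * ‖a‖ * (‖b‖ - inner ℝ e b) = (2 * ‖b‖ * (‖b‖ - inner ℝ e b)) * (‖a‖ / ‖b‖) := by
      field_simp
    rw [e1]
    have := mul_le_mul_of_nonneg_right h3 (div_nonneg ha.le hb.le)
    linarith
  linarith

end Mu_aux

open Mu_aux in
theorem tMu : S_Mu := by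
  intro x a y b μ μ' hμ
  by_cases hd : x - y = 0
  · simp [qf, hd]
  by_cases ha : a = 0
  · simp [qf, ha]
  by_cases hb : b = 0
  · simp [qf, hb]
  have hD : 0 < ‖x - y‖ := norm_pos_iff.2 hd
  have hα : 0 < ‖a‖ := norm_pos_iff.2 ha
  have hβ : 0 < ‖b‖ := norm_pos_iff.2 hb
  set d : E3 := x - y with hdd
  have key : ∀ s : ℝ, (s = 1 ∨ s = -1) → 0 ≤ s * μ → 0 ≤ s * μ' →
      ‖a‖ * ‖b‖ + inner ℝ a b - 2 * inner ℝ d a * inner ℝ d b / ‖d‖ ^ 2 ≤
        4 * (‖a - μ • d‖ ^ 2 * (‖b‖ / ‖a‖) + ‖b - μ' • d‖ ^ 2 * (‖a‖ / ‖b‖)) := by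
    intro s hs h1 h2
    have hss : s * s = 1 := by rcases hs with rfl | rfl <;> norm_num
    have habs : |s| = 1 := by rcases hs with rfl | rfl <;> norm_num
    have he : ‖(s / ‖d‖) • d‖ = 1 := by
      rw [norm_smul, Real.norm_eq_abs, abs_div, habs, abs_of_pos hD]
      field_simp
    have hc := core (a := a) (b := b) (γ := s * μ * ‖d‖) (γ' := s * μ' * ‖d‖) he hα hβ
      (mul_nonneg h1 hD.le) (mul_nonneg h2 hD.le)
    have e1 : (s * μ * ‖d‖) • (s / ‖d‖) • d = μ • d := by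
      rw [smul_smul]
      congr 1
      field_simp
      linear_combination μ * hss
    have e2 : (s * μ' * ‖d‖) • (s / ‖d‖) • d = μ' • d := by
      rw [smul_smul]
      congr 1
      field_simp
      linear_combination μ' * hss
    rw [e1, e2] at hc
    have e3 : 2 * inner ℝ ((s / ‖d‖) • d) a * inner ℝ ((s / ‖d‖) • d) b =
        2 * inner ℝ d a * inner ℝ d b / ‖d‖ ^ 2 := by
      rw [real_inner_smul_left, real_inner_smul_left]
      field_simp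
      linear_combination (inner ℝ d a * inner ℝ d b) * hss
    rw [e3] at hc
    exact hc
  have hmain : ‖a‖ * ‖b‖ + inner ℝ a b - 2 * inner ℝ d a * inner ℝ d b / ‖d‖ ^ 2 ≤
      4 * (‖a - μ • d‖ ^ 2 * (‖b‖ / ‖a‖) + ‖b - μ' • d‖ ^ 2 * (‖a‖ / ‖b‖)) := by
    rcases mul_nonneg_iff.1 hμ with ⟨h1, h2⟩ | ⟨h1, h2⟩
    · exact key 1 (Or.inl rfl) (by linarith) (by linarith)
    · exact key (-1) (Or.inr rfl) (by linarith) (by linarith)
  rw [qf, ← hdd]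
  exact div_le_div_of_nonneg_right hmain (by positivity)

end MP_e78765_gt
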