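import Pool.Agent.Lib.MP_e78765_gt.Spec5

/-!
# PB: uniform bounds for the normal field (MP_e78765_gt, THEOREM R4)
-/

set_option autoImplicit false

open scoped ContDiff Topology
open MeasureTheory Set Filter

namespace MP_e78765_gt

namespace PB_aux

theorem smooth_deriv {E : Type} [NormedAddCommGroup E] [NormedSpace ℝ E] {w : ℝ → E}
    (h : ContDiff ℝ ∞ w) : ContDiff ℝ ∞ (deriv w) := (contDiff_infty_iff_deriv.1 h).2

theorem smooth_diff {E : Type} [NormedAddCommGroup E] [NormedSpace ℝ E] {w : ℝ → E}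
    (h : ContDiff ℝ ∞ w) (t : ℝ) : HasDerivAt w (deriv w t) t :=
  ((contDiff_infty_iff_deriv.1 h).1 t).hasDerivAt

theorem mvt {E : Type} [NormedAddCommGroup E] [NormedSpace ℝ E] {w : ℝ → E} (h : ContDiff ℝ ∞ w)
    {K : ℝ} (hK : ∀ t, ‖deriv w t‖ ≤ K) (s t : ℝ) : ‖w s - w t‖ ≤ K * |s - t| := by
  have h1 := Convex.norm_image_sub_le_of_norm_deriv_le (f := w) (s := univ) (x := t) (y := s) (C := K)
    (fun x _ => (smooth_diff h x).differentiableAt) (fun x _ => hK x) convex_univ (mem_univ _) (mem_univ _)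
  rwa [Real.norm_eq_abs] at h1

/-- `f` is smooth with `‖f‖, ‖f'‖ ≤ K`, `‖f''‖ ≤ K / δ`. -/
structure QC {E : Type} [NormedAddCommGroup E] [NormedSpace ℝ E] (δ K : ℝ) (f : ℝ → E) : Prop where
  sm : ContDiff ℝ ∞ f
  b0 : ∀ t, ‖f t‖ ≤ K
  b1 : ∀ t, ‖deriv f t‖ ≤ K
  b2 : ∀ t, ‖deriv (deriv f) t‖ ≤ K / δ

theorem QC.nonneg {E : Type} [NormedAddCommGroup E] [NormedSpace ℝ E] {δ K : ℝ} {f : ℝ → E}
    (h : QC δ K f) : 0 ≤ K := (norm_nonneg _).trans (h.b0 0)

theorem QC.sub {E : Type} [NormedAddCommGroup E] [NormedSpace ℝ E] {δ K K' : ℝ} {f g : ℝ → E}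
    (h : QC δ K f) (h' : QC δ K' g) : QC δ (K + K') (fun t => f t - g t) := by
  have d1 : deriv (fun t => f t - g t) = fun t => deriv f t - deriv g t :=
    funext fun t => ((smooth_diff h.sm t).sub (smooth_diff h'.sm t)).deriv
  have d2 : deriv (fun t => deriv f t - deriv g t) = fun t => deriv (deriv f) t - deriv (deriv g) t :=
    funext fun t => ((smooth_diff (smooth_deriv h.sm) t).sub (smooth_diff (smooth_deriv h'.sm) t)).deriv
  refine ⟨h.sm.sub h'.sm, fun t => (norm_sub_le _ _).trans (add_le_add (h.b0 t) (h'.b0 t)),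
    fun t => ?_, fun t => ?_⟩
  · rw [d1]
    exact (norm_sub_le _ _).trans (add_le_add (h.b1 t) (h'.b1 t))
  · rw [d1, d2, add_div]
    exact (norm_sub_le _ _).trans (add_le_add (h.b2 t) (h'.b2 t))

theorem qc_const {E : Type} [NormedAddCommGroup E] [NormedSpace ℝ E] {δ : ℝ} (hδ : 0 < δ) (c : E) :
    QC δ ‖c‖ (fun _ : ℝ => c) := by
  have d1 : deriv (fun _ : ℝ => c) = fun _ => 0 := funext fun t => deriv_const t c
  have d2 : deriv (fun _ : ℝ => (0 : E)) = fun _ => 0 := funext fun t => deriv_const t 0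
  refine ⟨contDiff_const, fun t => le_rfl, fun t => ?_, fun t => ?_⟩
  · rw [d1]
    show ‖(0 : E)‖ ≤ _
    rw [norm_zero]
    exact norm_nonneg _
  · rw [d1, d2]
    show ‖(0 : E)‖ ≤ _
    rw [norm_zero]
    positivity

theorem QC.smul {E : Type} [NormedAddCommGroup E] [NormedSpace ℝ E] {δ K K' : ℝ} {a : ℝ → ℝ}
    {f : ℝ → E} (hδ : 0 < δ) (hδ1 : δ ≤ 1) (ha : QC δ K a) (hf : QC δ K' f) :
    QC δ (4 * K * K') (fun t => a t • f t) := by
  have hK := ha.nonneg
  have hK' := hf.nonneg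
  have hP : 0 ≤ K * K' := mul_nonneg hK hK'
  have d1 : deriv (fun t => a t • f t) = fun t => a t • deriv f t + deriv a t • f t :=
    funext fun t => ((smooth_diff ha.sm t).smul (smooth_diff hf.sm t)).deriv
  have d2 : deriv (fun t => a t • deriv f t + deriv a t • f t) = fun t =>
      (a t • deriv (deriv f) t + deriv a t • deriv f t) +
        (deriv a t • deriv f t + deriv (deriv a) t • f t) :=
    funext fun t => (((smooth_diff ha.sm t).smul (smooth_diff (smooth_deriv hf.sm) t)).add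
      ((smooth_diff (smooth_deriv ha.sm) t).smul (smooth_diff hf.sm t))).deriv
  refine ⟨ha.sm.smul hf.sm, fun t => ?_, fun t => ?_, fun t => ?_⟩
  · rw [norm_smul]
    have := mul_le_mul (ha.b0 t) (hf.b0 t) (norm_nonneg _) hK
    linarith
  · rw [d1]
    refine (norm_add_le _ _).trans ?_
    rw [norm_smul, norm_smul]
    have h1 := mul_le_mul (ha.b0 t) (hf.b1 t) (norm_nonneg _) hK
    have h2 := mul_le_mul (ha.b1 t) (hf.b0 t) (norm_nonneg _) hK
    linarith
  · rw [d1, d2]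
    have h1 : ‖a t • deriv (deriv f) t‖ ≤ K * K' / δ := by
      rw [norm_smul, mul_div_assoc]
      exact mul_le_mul (ha.b0 t) (hf.b2 t) (norm_nonneg _) hK
    have h0 : K * K' ≤ K * K' / δ := by
      rw [le_div_iff₀ hδ]
      nlinarith
    have h2 : ‖deriv a t • deriv f t‖ ≤ K * K' / δ := by
      rw [norm_smul]
      exact (mul_le_mul (ha.b1 t) (hf.b1 t) (norm_nonneg _) hK).trans h0
    have h3 : ‖deriv (deriv a) t • f t‖ ≤ K * K' / δ := by
      rw [norm_smul]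
      refine (mul_le_mul (ha.b2 t) (hf.b0 t) (norm_nonneg _) (by positivity)).trans (le_of_eq ?_)
      ring
    have h4 := norm_add_le (a t • deriv (deriv f) t + deriv a t • deriv f t)
        (deriv a t • deriv f t + deriv (deriv a) t • f t)
    have h5 := norm_add_le (a t • deriv (deriv f) t) (deriv a t • deriv f t)
    have h6 := norm_add_le (deriv a t • deriv f t) (deriv (deriv a) t • f t)
    have h7 : 4 * K * K' / δ = 4 * (K * K' / δ) := by ring
    rw [h7]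
    linarith

theorem qc_inner {δ K K' : ℝ} {a f : ℝ → E3} (hδ : 0 < δ) (hδ1 : δ ≤ 1) (ha : QC δ K a)
    (hf : QC δ K' f) : QC δ (4 * K * K') (fun t => (inner ℝ (a t) (f t) : ℝ)) := by
  have hK := ha.nonneg
  have hK' := hf.nonneg
  have hP : 0 ≤ K * K' := mul_nonneg hK hK'
  have d1 : deriv (fun t => (inner ℝ (a t) (f t) : ℝ)) = fun t =>
      inner ℝ (a t) (deriv f t) + inner ℝ (deriv a t) (f t) :=
    funext fun t => ((smooth_diff ha.sm t).inner ℝ (smooth_diff hf.sm t)).deriv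
  have d2 : deriv (fun t => (inner ℝ (a t) (deriv f t) + inner ℝ (deriv a t) (f t) : ℝ)) = fun t =>
      (inner ℝ (a t) (deriv (deriv f) t) + inner ℝ (deriv a t) (deriv f t)) +
        (inner ℝ (deriv a t) (deriv f t) + inner ℝ (deriv (deriv a) t) (f t)) :=
    funext fun t => (((smooth_diff ha.sm t).inner ℝ (smooth_diff (smooth_deriv hf.sm) t)).add
      ((smooth_diff (smooth_deriv ha.sm) t).inner ℝ (smooth_diff hf.sm t))).deriv
  refine ⟨ha.sm.inner ℝ hf.sm, fun t => ?_, fun t => ?_, fun t => ?_⟩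
  · have h1 := norm_inner_le_norm (𝕜 := ℝ) (a t) (f t)
    have := mul_le_mul (ha.b0 t) (hf.b0 t) (norm_nonneg _) hK
    linarith
  · rw [d1]
    refine (norm_add_le _ _).trans ?_
    have e1 := norm_inner_le_norm (𝕜 := ℝ) (a t) (deriv f t)
    have e2 := norm_inner_le_norm (𝕜 := ℝ) (deriv a t) (f t)
    have h1 := mul_le_mul (ha.b0 t) (hf.b1 t) (norm_nonneg _) hK
    have h2 := mul_le_mul (ha.b1 t) (hf.b0 t) (norm_nonneg _) hK
    linarith
  · rw [d1, d2]
    have h1 : ‖(inner ℝ (a t) (deriv (deriv f) t) : ℝ)‖ ≤ K * K' / δ := by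
      refine (norm_inner_le_norm (𝕜 := ℝ) _ _).trans ?_
      rw [mul_div_assoc]
      exact mul_le_mul (ha.b0 t) (hf.b2 t) (norm_nonneg _) hK
    have h0 : K * K' ≤ K * K' / δ := by
      rw [le_div_iff₀ hδ]
      nlinarith
    have h2 : ‖(inner ℝ (deriv a t) (deriv f t) : ℝ)‖ ≤ K * K' / δ := by
      refine (norm_inner_le_norm (𝕜 := ℝ) _ _).trans ?_
      exact (mul_le_mul (ha.b1 t) (hf.b1 t) (norm_nonneg _) hK).trans h0
    have h3 : ‖(inner ℝ (deriv (deriv a) t) (f t) : ℝ)‖ ≤ K * K' / δ := by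
      refine (norm_inner_le_norm (𝕜 := ℝ) _ _).trans ?_
      refine (mul_le_mul (ha.b2 t) (hf.b0 t) (norm_nonneg _) (by positivity)).trans (le_of_eq ?_)
      ring
    have h4 := norm_add_le ((inner ℝ (a t) (deriv (deriv f) t) : ℝ) + inner ℝ (deriv a t) (deriv f t))
        (inner ℝ (deriv a t) (deriv f t) + inner ℝ (deriv (deriv a) t) (f t))
    have h5 := norm_add_le (inner ℝ (a t) (deriv (deriv f) t) : ℝ) (inner ℝ (deriv a t) (deriv f t))
    have h6 := norm_add_le (inner ℝ (deriv a t) (deriv f t) : ℝ) (inner ℝ (deriv (deriv a) t) (f t))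
    have h7 : 4 * K * K' / δ = 4 * (K * K' / δ) := by ring
    rw [h7]
    linarith

theorem QC.inv {δ K μ : ℝ} {D : ℝ → ℝ} (hδ : 0 < δ) (hδ1 : δ ≤ 1) (hμ : 0 < μ) (hD : QC δ K D)
    (hm : ∀ t, μ ≤ D t) : QC δ (1 / μ + K / μ ^ 2 + 2 * K ^ 2 / μ ^ 3) (fun t => (D t)⁻¹) := by
  have hK := hD.nonneg
  have hpos : ∀ t, 0 < D t := fun t => hμ.trans_le (hm t)
  have d1 : deriv (fun t => (D t)⁻¹) = fun t => -deriv D t / D t ^ 2 :=
    funext fun t => ((smooth_diff hD.sm t).inv (hpos t).ne').deriv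
  have d2 : deriv (fun t => -deriv D t / D t ^ 2) = fun t =>
      -(deriv (deriv D) t / D t ^ 2) + 2 * deriv D t ^ 2 / D t ^ 3 := by
    funext t
    have h1 := ((smooth_diff (smooth_deriv hD.sm) t).neg.div ((smooth_diff hD.sm t).pow 2)
      (pow_ne_zero 2 (hpos t).ne')).deriv
    refine Eq.trans h1 ?_
    have := (hpos t).ne'
    simp only [Pi.neg_apply, Pi.pow_apply]
    field_simp
    ring
  have p1 : 0 ≤ 1 / μ := by positivity
  have p2 : 0 ≤ K / μ ^ 2 := by positivity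
  have p3 : 0 ≤ 2 * K ^ 2 / μ ^ 3 := by positivity
  refine ⟨hD.sm.inv (fun t => (hpos t).ne'), fun t => ?_, fun t => ?_, fun t => ?_⟩
  · have h1 : ‖(D t)⁻¹‖ ≤ 1 / μ := by
      rw [Real.norm_eq_abs, abs_of_pos (inv_pos.2 (hpos t)), one_div]
      exact inv_anti₀ hμ (hm t)
    linarith
  · rw [d1]
    have h1 : ‖-deriv D t / D t ^ 2‖ ≤ K / μ ^ 2 := by
      rw [norm_div, norm_neg, norm_pow, Real.norm_of_nonneg (hpos t).le]
      exact div_le_div₀ hK (hD.b1 t) (by positivity) (pow_le_pow_left₀ hμ.le (hm t) 2)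
    show ‖-deriv D t / D t ^ 2‖ ≤ _
    linarith
  · rw [d1, d2]
    show ‖-(deriv (deriv D) t / D t ^ 2) + 2 * deriv D t ^ 2 / D t ^ 3‖ ≤ _
    refine (norm_add_le _ _).trans ?_
    have h1 : ‖-(deriv (deriv D) t / D t ^ 2)‖ ≤ K / μ ^ 2 / δ := by
      rw [norm_neg, norm_div, norm_pow, Real.norm_of_nonneg (hpos t).le, div_right_comm]
      exact div_le_div₀ (by positivity) (hD.b2 t) (by positivity) (pow_le_pow_left₀ hμ.le (hm t) 2)
    have h2 : ‖2 * deriv D t ^ 2 / D t ^ 3‖ ≤ 2 * K ^ 2 / μ ^ 3 := by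
      rw [norm_div, norm_mul, norm_pow, norm_pow, Real.norm_of_nonneg (hpos t).le, Real.norm_two]
      exact div_le_div₀ (by positivity)
        (mul_le_mul_of_nonneg_left (pow_le_pow_left₀ (norm_nonneg _) (hD.b1 t) 2) (by norm_num))
        (by positivity) (pow_le_pow_left₀ hμ.le (hm t) 3)
    have h3 : 2 * K ^ 2 / μ ^ 3 ≤ 2 * K ^ 2 / μ ^ 3 / δ := by
      rw [le_div_iff₀ hδ]
      nlinarith
    have h4 : (1 / μ + K / μ ^ 2 + 2 * K ^ 2 / μ ^ 3) / δ =
        1 / μ / δ + K / μ ^ 2 / δ + 2 * K ^ 2 / μ ^ 3 / δ := by ring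
    have h5 : 0 ≤ 1 / μ / δ := by positivity
    rw [h4]
    linarith

theorem inner_e3 (y : E3) : inner ℝ y e3 = y 2 := by
  simp [e3, PiLp.inner_apply, Fin.sum_univ_three]

/-- The constant of the bound for `VF`. -/
noncomputable def cV (A : ℝ) : ℝ :=
  4 * (4 * A * A) * ‖e3‖ + 4 * (4 * ‖(2 : ℝ)‖ * (4 * A * ‖e3‖)) * A

/-- The constant of the bound for `Nf`. -/
noncomputable def cN (A m : ℝ) : ℝ :=
  cV A + 4 * (4 * (4 * cV A * A) *
    (1 / m ^ 2 + 4 * A * A / (m ^ 2) ^ 2 + 2 * (4 * A * A) ^ 2 / (m ^ 2) ^ 3)) * A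

theorem nf_qc {δ A m : ℝ} {q : E3} {g : ℝ → E3} (hδ : 0 < δ) (hδ1 : δ ≤ 1) (hm : 0 < m)
    (hy : QC δ A (fun t => g t - q)) (hd : QC δ A (deriv g)) (hlow : ∀ t, m ≤ ‖deriv g t‖) :
    QC δ (cN A m) (Nf q g) := by
  have e1 := qc_inner hδ hδ1 hy hy
  have ce := qc_const hδ e3
  have e2 := QC.smul hδ hδ1 e1 ce
  have e3' := qc_inner hδ hδ1 hy ce
  have e4 := QC.smul hδ hδ1 (qc_const hδ (2 : ℝ)) e3'
  have e5 := QC.smul hδ hδ1 e4 hy
  have hV := e2.sub e5
  have hVeq : (fun t => (inner ℝ (g t - q) (g t - q) : ℝ) • e3 -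
      ((2 : ℝ) • (inner ℝ (g t - q) e3 : ℝ)) • (g t - q)) = fun t => VF q (g t) := by
    funext t
    unfold VF
    rw [real_inner_self_eq_norm_sq, inner_e3, smul_eq_mul]
  rw [hVeq] at hV
  have hV' : QC δ (cV A) (fun t => VF q (g t)) := hV
  have e6 := qc_inner hδ hδ1 hV' hd
  have e7 := qc_inner hδ hδ1 hd hd
  have e8 := QC.inv (μ := m ^ 2) hδ hδ1 (by positivity) e7 (fun t => by
    rw [real_inner_self_eq_norm_sq]
    exact pow_le_pow_left₀ hm.le (hlow t) 2)
  have e9 := QC.smul hδ hδ1 e6 e8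
  have e10 := QC.smul hδ hδ1 e9 hd
  have e11 := hV'.sub e10
  have hNeq : (fun t => VF q (g t) - ((inner ℝ (VF q (g t)) (deriv g t) : ℝ) •
      (inner ℝ (deriv g t) (deriv g t) : ℝ)⁻¹) • deriv g t) = Nf q g := by
    funext t
    unfold Nf
    rw [real_inner_self_eq_norm_sq, smul_eq_mul, div_eq_mul_inv]
  rw [hNeq] at e11
  exact e11

/-- Bounds for a function which is locally `0`, `N` or `-N`. -/
theorem loc_bd {P N : ℝ → E3} {K K2 : ℝ} (h0 : 0 ≤ K) (h2 : 0 ≤ K2)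
    (h : ∀ t, P =ᶠ[𝓝 t] (fun _ => 0) ∨ P =ᶠ[𝓝 t] N ∨ P =ᶠ[𝓝 t] fun s => -N s)
    (hN : ∀ t, ‖deriv N t‖ ≤ K) (hN2 : ∀ t, ‖deriv (deriv N) t‖ ≤ K2) (t : ℝ) :
    ‖deriv P t‖ ≤ K ∧ ‖deriv (deriv P) t‖ ≤ K2 := by
  rcases h t with h | h | h
  · have h1 : deriv P =ᶠ[𝓝 t] fun _ => (0 : E3) := by
      have := h.deriv
      simpa using this
    rw [h1.eq_of_nhds, h1.deriv_eq]
    simp only [deriv_const, norm_zero]
    exact ⟨h0, h2⟩
  · have h1 : deriv P =ᶠ[𝓝 t] deriv N := h.deriv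
    rw [h1.eq_of_nhds, h1.deriv_eq]
    exact ⟨hN t, hN2 t⟩
  · have h1 : deriv P =ᶠ[𝓝 t] fun s => -deriv N s := by
      have h3 := h.deriv
      have h4 : deriv (fun s => -N s) = fun s => -deriv N s := funext fun s => deriv.fun_neg
      rwa [h4] at h3
    rw [h1.eq_of_nhds, h1.deriv_eq]
    have h5 : deriv (fun s => -deriv N s) t = -deriv (deriv N) t := deriv.fun_neg
    rw [h5, norm_neg, norm_neg]
    exact ⟨hN t, hN2 t⟩

theorem per_ball {g : ℝ → E3} {M : ℝ} (hg : ContDiff ℝ ∞ g) (hp : ∀ t, g (t + 1) = g t)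
    (hM : ∀ t, ‖deriv g t‖ ≤ M) (t : ℝ) : ‖g t - g (1 / 2)‖ ≤ M := by
  have hM0 : 0 ≤ M := (norm_nonneg _).trans (hM 0)
  have h : Function.Periodic g 1 := hp
  have h1 := h.sub_int_mul_eq (x := t) ⌊t⌋
  rw [mul_one] at h1
  rw [← h1]
  refine (mvt hg hM _ _).trans ?_
  have h2 := Int.floor_le t
  have h3 := Int.lt_floor_add_one t
  have h4 : |t - ⌊t⌋ - 1 / 2| ≤ 1 := by
    rw [abs_le]
    constructor
    · linarith
    · linarith
  nlinarith

end PB_aux

open PB_aux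

theorem tPB : S_Psi → S_Par → S_Sk → S_Sk3 → S_Mir → S_PB := by
  intro hPsi hPar hSk hSk3 _ r ℓ hr hℓ hd0 hd1
  obtain ⟨δ1, hδ1, hStr⟩ := hPar r ℓ hr hℓ hd0 hd1
  obtain ⟨δ2, m, M, K, c, κ, hδ2, hδ24, hm, hM, hK, hc, hκ, hsk⟩ := hSk r ℓ hr hℓ hd0 hd1
  obtain ⟨C, hC, hsk3⟩ := hSk3 r ℓ hr hℓ hd0 hd1
  have hA : 0 < M + C := by positivity
  have hCV : 0 ≤ cV (M + C) := by
    unfold cV
    positivity
  have hCN : 0 ≤ cN (M + C) m := by
    unfold cN
    positivity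
  refine ⟨min δ1 δ2, cN (M + C) m + 1, lt_min hδ1 hδ2, by linarith, fun δ hδ => ?_⟩
  have hδ0 : 0 < δ := hδ.1
  have hδa : δ < δ1 := hδ.2.trans_le (min_le_left _ _)
  have hδb : δ < δ2 := hδ.2.trans_le (min_le_right _ _)
  have hδ4 : δ ≤ 1 / 4 := by linarith
  obtain ⟨t0, t1, ε, c', hS⟩ := hStr δ ⟨hδ0, hδa⟩
  obtain ⟨P1, P2, -, P4, P5, -⟩ := hPsi (rst δ r ℓ) ℓ t0 t1 ε c' hS
  obtain ⟨s1, -, s3, -, -, -, s7, -⟩ := hsk δ ⟨hδ0, hδb⟩
  obtain ⟨u1, u2, -⟩ := hsk3 δ hδ0 hδ4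
  obtain ⟨g, hg⟩ : ∃ g, g = rst δ r ℓ := ⟨_, rfl⟩
  rw [← hg] at P1 P2 P4 P5 s1 s7 u1 u2 ⊢
  have ht1 : 0 < t1 := hS.t0_pos.trans hS.t01
  have hdel : ∀ x : ℝ, 0 ≤ x → x ≤ x / δ := fun x hx => by
    rw [le_div_iff₀ hδ0]
    nlinarith
  -- the bounds for the curve
  have hy : QC δ (M + C) (fun t => g t - g (1 / 2)) := by
    have d1 : deriv (fun t => g t - g (1 / 2)) = deriv g :=
      funext fun t => ((smooth_diff s1.smooth t).sub_const _).deriv
    refine ⟨s1.smooth.sub contDiff_const, fun t => ?_, fun t => ?_, fun t => ?_⟩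
    · have := per_ball s1.smooth s1.periodic (fun t => (s7 t).2) t
      linarith
    · rw [d1]
      have := (s7 t).2
      linarith
    · rw [d1]
      have h1 := u1 t
      have h2 := hdel (M + C) hA.le
      linarith
  have hd : QC δ (M + C) (deriv g) := by
    refine ⟨smooth_deriv s1.smooth, fun t => ?_, fun t => ?_, fun t => ?_⟩
    · have := (s7 t).2
      linarith
    · have := u1 t
      linarith
    · refine (u2 t).trans (div_le_div_of_nonneg_right ?_ hδ0.le)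
      linarith
  have hN := nf_qc hδ0 (by linarith) hm hy hd (fun t => (s7 t).1)
  -- local description of `Psi`
  have hloc : ∀ t, Psi g =ᶠ[𝓝 t] (fun _ => 0) ∨ Psi g =ᶠ[𝓝 t] Nf (g (1 / 2)) g ∨
      Psi g =ᶠ[𝓝 t] fun s => -Nf (g (1 / 2)) g s := by
    intro t
    have hcs : Continuous (fun s : ℝ => Real.sin (2 * Real.pi * s)) :=
      Real.continuous_sin.comp (continuous_const.mul continuous_id)
    rcases lt_trichotomy (Real.sin (2 * Real.pi * t)) 0 with h | h | h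
    · right; right
      have h1 : ∀ᶠ s in 𝓝 t, Real.sin (2 * Real.pi * s) < 0 :=
        (hcs.tendsto t).eventually (gt_mem_nhds h)
      filter_upwards [h1] with s hs
      unfold Psi sgn
      rw [if_neg (not_lt.2 hs.le), neg_one_smul]
    · left
      obtain ⟨n, hn⟩ := Real.sin_eq_zero_iff.1 h
      have hpi := Real.pi_ne_zero
      have ht : t = n / 2 := by
        have h2 : Real.pi * (n - 2 * t) = 0 := by linarith
        rcases mul_eq_zero.1 h2 with h3 | h3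
        · exact absurd h3 hpi
        · linarith
      have hper : ∀ (j : ℤ) (s : ℝ), Psi g (s - j) = Psi g s := by
        intro j s
        have h : Function.Periodic (Psi g) 1 := P2
        have h1 := h.sub_int_mul_eq (x := s) j
        rwa [mul_one] at h1
      rcases Int.even_or_odd' n with ⟨j, hj | hj⟩
      · have e1 : t = j := by
          rw [ht, hj]
          push_cast
          ring
        have h1 : ∀ᶠ s : ℝ in 𝓝 t, |s - j| < t1 := by
          refine (((continuous_id.sub continuous_const).abs).tendsto t).eventually (gt_mem_nhds ?_)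
          show |t - j| < t1
          rw [e1, sub_self, abs_zero]
          exact ht1
        filter_upwards [h1] with s hs
        rw [← hper j s]
        exact P4 _ hs
      · have e1 : t - j - 1 / 2 = 0 := by
          rw [ht, hj]
          push_cast
          ring
        have h1 : ∀ᶠ s : ℝ in 𝓝 t, |s - j - 1 / 2| < t1 := by
          refine ((((continuous_id.sub continuous_const).sub continuous_const).abs).tendsto t).eventually
            (gt_mem_nhds ?_)
          show |t - j - 1 / 2| < t1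
          rw [e1, abs_zero]
          exact ht1
        filter_upwards [h1] with s hs
        rw [← hper j s]
        exact P5 _ hs
    · right; left
      have h1 : ∀ᶠ s in 𝓝 t, 0 < Real.sin (2 * Real.pi * s) :=
        (hcs.tendsto t).eventually (lt_mem_nhds h)
      filter_upwards [h1] with s hs
      unfold Psi sgn
      rw [if_pos hs, one_smul]
  have hbd := loc_bd hCN (div_nonneg hCN hδ0.le) hloc hN.b1 hN.b2
  have hb1 : ∀ t, ‖deriv (Psi g) t‖ ≤ cN (M + C) m + 1 := fun t => by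
    have := (hbd t).1
    linarith
  have hb2 : ∀ t, ‖deriv (deriv (Psi g)) t‖ ≤ (cN (M + C) m + 1) / δ := fun t => by
    refine (hbd t).2.trans (div_le_div_of_nonneg_right ?_ hδ0.le)
    linarith
  exact ⟨P1, P2, hb1, mvt P1 hb1, mvt (smooth_deriv P1) hb2⟩

end MP_e78765_gt
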