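import Pool.Agent.Lib.MP_e78765_gt.Spec5

/-!
# THEOREM R4, module PF: the push as a jointly smooth family, its field (helper60)
-/

set_option autoImplicit false

open scoped ContDiff Topology
open MeasureTheory Set Filter

namespace MP_e78765_gt

namespace PF_aux

private lemma e3_2 : (e3 : E3) 2 = 1 := rfl

private lemma proj2_smooth : ContDiff ℝ ∞ (fun x : E3 => x 2) :=
  (EuclideanSpace.proj (2 : Fin 3) : E3 →L[ℝ] ℝ).contDiff

private lemma St_smooth : ContDiff ℝ ∞ St := by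
  have h : St = Real.smoothTransition := rfl
  rw [h]
  exact Real.smoothTransition.contDiff

private lemma St_nonneg (x : ℝ) : 0 ≤ St x := Real.smoothTransition.nonneg x

private lemma St_le_one (x : ℝ) : St x ≤ 1 := Real.smoothTransition.le_one x

private lemma Ang_abs (c : ℝ) (x : E3) : |Ang c x| ≤ 1 := by
  unfold Ang
  rw [abs_le]
  have h1 := St_nonneg (2 * x 2 / (c * ‖x‖) - 1)
  have h2 := St_nonneg (-(2 * x 2) / (c * ‖x‖) - 1)
  have h3 := St_le_one (2 * x 2 / (c * ‖x‖) - 1)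
  have h4 := St_le_one (-(2 * x 2) / (c * ‖x‖) - 1)
  constructor <;> linarith

private lemma Ang_smooth {c : ℝ} (hc : 0 < c) {x : E3} (hx : x ≠ 0) :
    ContDiffAt ℝ ∞ (Ang c) x := by
  have hn : ContDiffAt ℝ ∞ (fun y : E3 => ‖y‖) x := contDiffAt_norm ℝ hx
  have hd : ContDiffAt ℝ ∞ (fun y : E3 => c * ‖y‖) x := contDiffAt_const.mul hn
  have hne : c * ‖x‖ ≠ 0 := mul_ne_zero hc.ne' (norm_ne_zero_iff.2 hx)
  have hp : ContDiffAt ℝ ∞ (fun y : E3 => 2 * y 2) x :=
    contDiffAt_const.mul proj2_smooth.contDiffAt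
  have h1 : ContDiffAt ℝ ∞ (fun y : E3 => 2 * y 2 / (c * ‖y‖) - 1) x :=
    (hp.div hd hne).sub contDiffAt_const
  have h2 : ContDiffAt ℝ ∞ (fun y : E3 => -(2 * y 2) / (c * ‖y‖) - 1) x :=
    (hp.neg.div hd hne).sub contDiffAt_const
  have h3 : ContDiffAt ℝ ∞ (fun y : E3 => St (2 * y 2 / (c * ‖y‖) - 1)) x :=
    ContDiffAt.comp x (g := St) St_smooth.contDiffAt h1
  have h4 : ContDiffAt ℝ ∞ (fun y : E3 => St (-(2 * y 2) / (c * ‖y‖) - 1)) x :=
    ContDiffAt.comp x (g := St) St_smooth.contDiffAt h2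
  exact h3.sub h4

/-- The derivative of the chart back map in the vertical direction. -/
private lemma dinv_inv (hInv : S_Inv) {y : E3} (hy : y ≠ 0) (β : ℝ) :
    dinv (inv y) (β • e3) = β • (‖y‖ ^ 2 • e3 - (2 * y 2) • y) := by
  have hn : ‖inv y‖ = ‖y‖⁻¹ := hInv.2.2.1 y hy
  have hy0 : ‖y‖ ≠ 0 := norm_ne_zero_iff.2 hy
  have hin : inner ℝ y (e3 : E3) = y 2 := by
    rw [PiLp.inner_apply, Fin.sum_univ_three]
    simp [e3]
  unfold dinv
  rw [hn]
  have h1 : inner ℝ (inv y) (β • (e3 : E3)) = (‖y‖ ^ 2)⁻¹ * (β * y 2) := by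
    unfold inv
    rw [real_inner_smul_left, real_inner_smul_right, hin]
  rw [h1]
  have h2 : 2 * ((‖y‖ ^ 2)⁻¹ * (β * y 2)) / ‖y‖⁻¹ ^ 2 = 2 * (β * y 2) := by
    field_simp
  rw [h2]
  have h3 : (‖y‖⁻¹ ^ 2)⁻¹ = ‖y‖ ^ 2 := by
    rw [inv_pow, inv_inv]
  rw [h3]
  unfold inv
  rw [smul_sub, smul_smul, smul_smul, smul_smul, smul_sub, smul_smul, smul_smul]
  congr 1
  · rw [mul_comm]
  · congr 1
    field_simp

end PF_aux

open PF_aux in
theorem tPF : S_Ch → S_Ps → S_Cut → S_Cone → S_Inv → S_PF := by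
  intro hCh hPs hCut _ hInv g ℓ t0 t1 ε c hS
  have hr := hS.kn
  obtain ⟨hε, ha, -⟩ := hS.ok
  have hc := hS.c_pos
  obtain ⟨c1, c2, c3, c4, c5, c6, c7, c8, c9, c10, c11, c12, c13, c14, -, c16⟩ := hCh g hr
  obtain ⟨-, -, p3, p4, -, -, -⟩ := hPs ε c 1 hS.ok hS.c_pos hS.c_le
  obtain ⟨k1, k2, -, -, -, -, k7⟩ := hCut ε hε
  obtain ⟨i1, i2, i3, -, -, -, -, -, i9, i10, -, -⟩ := id hInv
  -- the weight of the push
  obtain ⟨β, hβ⟩ : ∃ β : E3 → ℝ, β = fun x => cut ε x * Ang c x := ⟨_, rfl⟩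
  have hps : ∀ (b : ℝ) (x : E3), ps ε c b x = x + (b * β x) • e3 := fun b x => by
    rw [hβ]
    rfl
  have hβ0 : ∀ x : E3, (‖x‖ ≤ ε ∨ 1 ≤ ε * ‖x‖ ∨ |x 2| ≤ c * ‖x‖ / 2) → β x = 0 := by
    intro x hx
    have h1 := p4 1 x hx
    rw [hps] at h1
    have h2 := congrArg (fun z : E3 => z 2) h1
    have h3 : x 2 + 1 * β x * 1 = x 2 := h2
    linarith
  have hβ1 : ∀ x : E3, |β x| ≤ 1 := by
    intro x
    rw [hβ]
    change |cut ε x * Ang c x| ≤ 1
    rw [abs_mul, abs_of_nonneg (k1 x).1]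
    exact mul_le_one₀ (k1 x).2 (abs_nonneg _) (Ang_abs c x)
  have hβs : ContDiff ℝ ∞ β := by
    rw [contDiff_iff_contDiffAt]
    intro x
    by_cases hx : x = 0
    · have h1 : β =ᶠ[𝓝 x] fun _ => (0 : ℝ) := by
        rw [hx]
        filter_upwards [Metric.ball_mem_nhds (0 : E3) hε] with y hy
        refine hβ0 y (Or.inl ?_)
        rw [Metric.mem_ball, dist_zero_right] at hy
        exact hy.le
      exact contDiffAt_const.congr_of_eventuallyEq h1
    · rw [hβ]
      exact k7.contDiffAt.mul (Ang_smooth hc hx)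
  -- the chart
  have hF7 : ∀ t, g t ≠ g (1 / 2) → back g (Fc g t) = g t ∧ Fc g t ≠ -ph g := fun t ht =>
    ⟨(c7 (g t) ht).1, (c7 (g t) ht).2.1⟩
  have hne : ∀ (b : ℝ) (t : ℝ), |b| < c * ε / 2 → g t ≠ g (1 / 2) →
      Fc g t + (b * β (Fc g t)) • e3 + ph g ≠ 0 := by
    intro b t hb ht h
    by_cases h0 : β (Fc g t) = 0
    · rw [h0, mul_zero, zero_smul, add_zero] at h
      exact (hF7 t ht).2 (eq_neg_of_add_eq_zero_left h)
    · have h2 := congrArg (fun z : E3 => z 2) h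
      have h3 : (Fc g t) 2 + b * β (Fc g t) * 1 + (ph g) 2 = 0 := h2
      rw [c3] at h3
      have h4 : ε < ‖Fc g t‖ := by
        by_contra hcon
        exact h0 (hβ0 _ (Or.inl (not_lt.1 hcon)))
      have h5 : c * ‖Fc g t‖ / 2 < |(Fc g t) 2| := by
        by_contra hcon
        exact h0 (hβ0 _ (Or.inr (Or.inr (not_lt.1 hcon))))
      have h6 : |b * β (Fc g t)| < c * ε / 2 := by
        rw [abs_mul]
        calc |b| * |β (Fc g t)| ≤ |b| * 1 :=
              mul_le_mul_of_nonneg_left (hβ1 _) (abs_nonneg _)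
          _ = |b| := mul_one _
          _ < c * ε / 2 := hb
      have h7 : (Fc g t) 2 = -(b * β (Fc g t)) := by linarith
      rw [h7, abs_neg] at h5
      have h8 : c * ε < c * ‖Fc g t‖ := mul_lt_mul_of_pos_left h4 hc
      linarith
  have hgq : ∀ b t, g t = g (1 / 2) → ra ε c b g t = g (1 / 2) := fun b t ht => if_pos ht
  have hgb : ∀ b t, g t ≠ g (1 / 2) →
      ra ε c b g t = g (1 / 2) + inv (Fc g t + (b * β (Fc g t)) • e3 + ph g) := fun b t ht => by
    have h : ra ε c b g t = back g (ps ε c b (Fc g t)) := if_neg ht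
    rw [h, hps]
    rfl
  have hgr : ∀ b t, g t ≠ g (1 / 2) → β (Fc g t) = 0 → ra ε c b g t = g t := by
    intro b t ht h
    rw [hgb b t ht, h, mul_zero, zero_smul, add_zero]
    exact (hF7 t ht).1
  have hper : ∀ b t, ra ε c b g (t + 1) = ra ε c b g t := by
    intro b t
    have h1 := hr.periodic t
    by_cases ht : g t = g (1 / 2)
    · rw [hgq b t ht, hgq b (t + 1) (by rw [h1]; exact ht)]
    · rw [hgb b t ht, hgb b (t + 1) (by rw [h1]; exact ht), c10]
  have hn2 : ∀ᶠ t in 𝓝 (1 / 2 : ℝ), ∀ b, ra ε c b g t = g t := by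
    have h1 : ∀ᶠ t in 𝓝[≠] (1 / 2 : ℝ), 1 / ε ≤ ‖Fc g t‖ := c16.eventually (eventually_ge_atTop _)
    rw [eventually_nhdsWithin_iff] at h1
    filter_upwards [h1] with t h2 b
    by_cases ht : g t = g (1 / 2)
    · rw [hgq b t ht, ht]
    · have ht' : t ≠ 1 / 2 := fun h => ht (by rw [h])
      refine hgr b t ht (hβ0 _ (Or.inr (Or.inl ?_)))
      have h3 := h2 ht'
      rw [div_le_iff₀ hε] at h3
      rwa [mul_comm]
  have hn3 : ∀ t, g t = g (1 / 2) → ∀ᶠ s in 𝓝 t, ∀ b, ra ε c b g s = g s := by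
    intro t ht
    obtain ⟨n, hn⟩ := (c5 t).1 ht
    have hc1 : Tendsto (fun s : ℝ => s - (n : ℝ)) (𝓝 t) (𝓝 (1 / 2)) := by
      have h1 : Continuous (fun s : ℝ => s - (n : ℝ)) := continuous_id.sub continuous_const
      have h2 := h1.tendsto t
      have h3 : t - (n : ℝ) = 1 / 2 := by
        rw [hn]
        ring
      rwa [h3] at h2
    filter_upwards [hc1.eventually hn2] with s hs b
    have h1 : ra ε c b g (s - n) = ra ε c b g s := by
      have h : Function.Periodic (ra ε c b g) 1 := hper b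
      have h1 := h.sub_int_mul_eq (x := s) n
      rwa [mul_one] at h1
    have h2 : g (s - n) = g s := by
      have h : Function.Periodic g 1 := hr.periodic
      have h1 := h.sub_int_mul_eq (x := s) n
      rwa [mul_one] at h1
    rw [← h1, ← h2]
    exact hs b
  have hcont : Continuous g := hr.smooth.continuous
  refine ⟨?_, c * ε / 2, by positivity, ⟨?_, hper⟩, ?_⟩
  · funext t
    by_cases ht : g t = g (1 / 2)
    · rw [hgq 0 t ht, ht]
    · have h : ra ε c 0 g t = back g (ps ε c 0 (Fc g t)) := if_neg ht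
      rw [h, p3]
      exact (hF7 t ht).1
  · rintro ⟨a, t⟩ hat
    refine ContDiffAt.contDiffWithinAt ?_
    have ha1 : |a| < c * ε / 2 := abs_lt.2 hat.1
    by_cases ht : g t = g (1 / 2)
    · have h1 : ∀ᶠ z in 𝓝 ((a, t) : ℝ × ℝ), (fun z : ℝ × ℝ => ra ε c z.1 g z.2) z
          = (fun z : ℝ × ℝ => g z.2) z := by
        have h2 : ∀ᶠ z in 𝓝 ((a, t) : ℝ × ℝ), ∀ b, ra ε c b g z.2 = g z.2 :=
          (continuous_snd.tendsto ((a, t) : ℝ × ℝ)).eventually (hn3 t ht)
        filter_upwards [h2] with z hz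
        exact hz z.1
      have h3 : ContDiffAt ℝ ∞ (fun z : ℝ × ℝ => g z.2) (a, t) :=
        (hr.smooth.comp contDiff_snd).contDiffAt
      exact h3.congr_of_eventuallyEq h1
    · have hop : ∀ᶠ s in 𝓝 t, g s ≠ g (1 / 2) := hcont.continuousAt.eventually_ne ht
      have h1 : ∀ᶠ z in 𝓝 ((a, t) : ℝ × ℝ), (fun z : ℝ × ℝ => ra ε c z.1 g z.2) z
          = (fun z : ℝ × ℝ => g (1 / 2) +
            inv (Fc g z.2 + (z.1 * β (Fc g z.2)) • e3 + ph g)) z := by
        have h2 : ∀ᶠ z in 𝓝 ((a, t) : ℝ × ℝ), g z.2 ≠ g (1 / 2) :=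
          (continuous_snd.tendsto ((a, t) : ℝ × ℝ)).eventually hop
        filter_upwards [h2] with z hz
        exact hgb z.1 z.2 hz
      have hF : ContDiffAt ℝ ∞ (fun z : ℝ × ℝ => Fc g z.2) (a, t) :=
        ContDiffAt.comp ((a, t) : ℝ × ℝ) (g := Fc g) (c9 t ht).1 contDiffAt_snd
      have hb : ContDiffAt ℝ ∞ (fun z : ℝ × ℝ => β (Fc g z.2)) (a, t) :=
        ContDiffAt.comp ((a, t) : ℝ × ℝ) (g := β) hβs.contDiffAt hF
      have hh : ContDiffAt ℝ ∞ (fun z : ℝ × ℝ =>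
          Fc g z.2 + (z.1 * β (Fc g z.2)) • e3 + ph g) (a, t) :=
        (hF.add ((contDiffAt_fst.mul hb).smul contDiffAt_const)).add contDiffAt_const
      have hi : ContDiffAt ℝ ∞ (fun z : ℝ × ℝ =>
          inv (Fc g z.2 + (z.1 * β (Fc g z.2)) • e3 + ph g)) (a, t) :=
        ContDiffAt.comp ((a, t) : ℝ × ℝ) (g := inv) (i9 _ (hne a t ha1 ht)) hh
      exact (contDiffAt_const.add hi).congr_of_eventuallyEq h1
  · intro t
    by_cases ht : g t = g (1 / 2)
    · have h1 : Xf ε c g t = 0 := by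
        unfold Xf VF
        rw [ht, sub_self, norm_zero]
        simp
      have h2 : (fun a => ra ε c a g t) = fun _ => g (1 / 2) := by
        funext a
        exact hgq a t ht
      rw [h1, h2]
      exact hasDerivAt_const 0 _
    · have h2 : (fun a => ra ε c a g t) = fun a => g (1 / 2) +
          inv (Fc g t + (a * β (Fc g t)) • e3 + ph g) := by
        funext a
        exact hgb a t ht
      rw [h2]
      have hy : g t - g (1 / 2) ≠ 0 := sub_ne_zero.2 ht
      have hF0 : Fc g t + ph g = inv (g t - g (1 / 2)) := by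
        unfold Fc ch
        rw [sub_add_cancel]
      have h3 : HasDerivAt (fun a : ℝ => Fc g t + (a * β (Fc g t)) • (e3 : E3) + ph g)
          (β (Fc g t) • e3) 0 := by
        have h4 : HasDerivAt (fun a : ℝ => a * β (Fc g t)) (1 * β (Fc g t)) 0 :=
          (hasDerivAt_id (0 : ℝ)).mul_const _
        have h5 := ((h4.smul_const (e3 : E3)).const_add (Fc g t)).add_const (ph g)
        rwa [one_mul] at h5
      have h0 : Fc g t + ((0 : ℝ) * β (Fc g t)) • (e3 : E3) + ph g = inv (g t - g (1 / 2)) := by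
        rw [zero_mul, zero_smul, add_zero, hF0]
      have h6 := i10 (fun a : ℝ => Fc g t + (a * β (Fc g t)) • (e3 : E3) + ph g) _ 0
        (by
          change Fc g t + ((0 : ℝ) * β (Fc g t)) • (e3 : E3) + ph g ≠ 0
          rw [h0]
          exact i1 _ hy) h3
      have h7 : dinv (Fc g t + ((0 : ℝ) * β (Fc g t)) • (e3 : E3) + ph g) (β (Fc g t) • e3)
          = Xf ε c g t := by
        rw [h0, dinv_inv hInv hy]
        unfold Xf VF
        rw [hβ]
      have h8 := h6.const_add (g (1 / 2))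
      change HasDerivAt _ (dinv (Fc g t + ((0 : ℝ) * β (Fc g t)) • (e3 : E3) + ph g)
        (β (Fc g t) • e3)) 0 at h8
      rw [h7] at h8
      exact h8

end MP_e78765_gt
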