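import Pool.Agent.Lib.MP_e78765_gt.Spec4

/-!
# MP_e78765_gt, THEOREM R3, module ParA: parameters for all pushes (after Par.lean of helper24)
-/

set_option autoImplicit false

open scoped ContDiff Topology
open MeasureTheory Set Filter

namespace MP_e78765_gt

theorem tParA : S_Sk → S_Cone → S_StB → S_Ch → S_ParA := by
  intro hSk hCone hStB hCh r ℓ hr hax h0 h1
  obtain ⟨δ0, m, M, K, c, κ, hδ0, hδ4, -, -, -, -, -, H⟩ := hSk r ℓ hr hax h0 h1
  refine ⟨δ0, hδ0, fun δ hδ => ?_⟩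
  obtain ⟨hg, hg0, hg2, hn0, hn2, -⟩ := H δ hδ
  obtain ⟨g, hgdef⟩ : ∃ g : ℝ → E3, g = rst δ r ℓ := ⟨_, rfl⟩
  rw [← hgdef] at hg hg0 hg2 hn0 hn2 ⊢
  have hδp : 0 < δ := hδ.1
  have hδ1 : δ < δ0 := hδ.2
  obtain ⟨⟨c', hc', hc1, hcone⟩, -⟩ := hCone g hg
  obtain ⟨-, -, -, -, hhalf, -, -, -, hsm, -, -, -, hpos, -⟩ := hCh g hg
  obtain ⟨⟨B, hB, hB1, -⟩, -⟩ := hStB
  have hmem : ∀ t ∈ Icc (δ / 16) (1 / 2 - δ / 16), t ∈ Ioo (0 : ℝ) (1 / 2) := by
    intro t ht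
    exact ⟨by linarith [ht.1], by linarith [ht.2]⟩
  have hne : ∀ t ∈ Icc (δ / 16) (1 / 2 - δ / 16), g t ≠ g (1 / 2) := by
    intro t ht h
    obtain ⟨n, hn⟩ := (hhalf t).1 h
    have h2 := hmem t ht
    rw [hn] at h2
    have h3 : (n : ℝ) < 0 := by linarith [h2.2]
    have h4 : (-1 : ℝ) < n := by linarith [h2.1]
    have h5 : n < 0 := by exact_mod_cast h3
    have h6 : -1 < n := by exact_mod_cast h4
    omega
  have hcont : ContinuousOn (fun t => ‖Fc g t‖) (Icc (δ / 16) (1 / 2 - δ / 16)) := by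
    intro t ht
    exact ((hsm t (hne t ht)).1.continuousAt.norm).continuousWithinAt
  have hcpt : IsCompact (Icc (δ / 16) (1 / 2 - δ / 16)) := isCompact_Icc
  have hnon : (Icc (δ / 16) (1 / 2 - δ / 16)).Nonempty := ⟨δ / 16, le_refl _, by linarith⟩
  obtain ⟨ta, hta, hmin⟩ := hcpt.exists_isMinOn hnon hcont
  obtain ⟨tb, htb, hmax⟩ := hcpt.exists_isMaxOn hnon hcont
  have hFpos : ∀ t ∈ Icc (δ / 16) (1 / 2 - δ / 16), 0 < ‖Fc g t‖ := by
    intro t ht
    rw [norm_pos_iff]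
    intro h
    have h2 := hpos t (hmem t ht)
    rw [h] at h2
    simp at h2
  have hm := hFpos ta hta
  have hM := hFpos tb htb
  have he : 0 < Real.exp 1 := Real.exp_pos 1
  refine ⟨δ / 16, δ / 8, c', fun a ha => ?_⟩
  have ha1 : 0 < a + 1 := by linarith
  have haB : 0 < 8 * ((a + 1) * B) := mul_pos (by norm_num) (mul_pos ha1 hB)
  obtain ⟨ε, hε⟩ : ∃ ε : ℝ, ε = min (‖Fc g ta‖ / Real.exp 1)
      (min (1 / (Real.exp 1 * ‖Fc g tb‖)) (1 / (8 * ((a + 1) * B)))) := ⟨_, rfl⟩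
  have hε0 : 0 < ε := by
    rw [hε]
    refine lt_min (div_pos hm he) (lt_min ?_ ?_)
    · exact one_div_pos.2 (mul_pos he hM)
    · exact one_div_pos.2 haB
  have hε1 : ε ≤ ‖Fc g ta‖ / Real.exp 1 := by rw [hε]; exact min_le_left _ _
  have hε2 : ε ≤ 1 / (Real.exp 1 * ‖Fc g tb‖) := by
    rw [hε]; exact le_trans (min_le_right _ _) (min_le_left _ _)
  have hε3 : ε ≤ 1 / (8 * ((a + 1) * B)) := by
    rw [hε]; exact le_trans (min_le_right _ _) (min_le_right _ _)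
  refine ⟨ε, ?_⟩
  refine { kn := hg, ax := ?_, t0_pos := by linarith, t01 := by linarith,
           t1_le := by linarith, near0 := hn0, near2 := hn2, c_pos := hc', c_le := hc1,
           cone := hcone, ok := ?_, inner := ?_, outer := ?_ }
  · exact { kn := hax.kn, zero := by rw [hax.zero, hg0], half := by rw [hax.half, hg2],
            axis := hax.axis }
  · refine ⟨hε0, ha, fun x => ?_⟩
    have h4 : ε * (8 * ((a + 1) * B)) ≤ 1 := by
      rwa [le_div_iff₀ haB] at hε3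
    have h5 : a * ε * |deriv St x| ≤ a * ε * B :=
      mul_le_mul_of_nonneg_left (hB1 x) (mul_nonneg ha hε0.le)
    have h6 : 0 ≤ ε * B := mul_nonneg hε0.le hB.le
    nlinarith
  · intro t ht
    have h2 : ‖Fc g ta‖ ≤ ‖Fc g t‖ := hmin ht
    have h3 : Real.exp 1 * ε ≤ ‖Fc g ta‖ := by
      rw [le_div_iff₀ he] at hε1
      linarith
    linarith
  · intro t ht
    have h2 : ‖Fc g t‖ ≤ ‖Fc g tb‖ := hmax ht
    have h3 : ε * (Real.exp 1 * ‖Fc g tb‖) ≤ 1 := by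
      rwa [le_div_iff₀ (mul_pos he hM)] at hε2
    have h4 : Real.exp 1 * (ε * ‖Fc g t‖) ≤ Real.exp 1 * (ε * ‖Fc g tb‖) :=
      mul_le_mul_of_nonneg_left (mul_le_mul_of_nonneg_left h2 hε0.le) he.le
    linarith

end MP_e78765_gt
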