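import Pool.Agent.Lib.MP_e78765_gt.Spec

set_option autoImplicit false

/-! The two-sided integration by parts. -/

open scoped ContDiff Topology
open MeasureTheory Set Filter

namespace MP_e78765_gt

namespace Parts_aux

/-- integrand of `XX a b` -/
noncomputable def J (a b : ℝ → E3) (s t : ℝ) : ℝ :=
  qf (a s) (deriv a s) (mir (b t)) (-mir (deriv b t))

/-- the boundary term -/
noncomputable def G (a b : ℝ → E3) (s t : ℝ) : ℝ :=
  inner ℝ (a s - mir (b t)) (deriv a s) / ‖a s - mir (b t)‖ ^ 2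

lemma mir_cont (hMir : S_Mir) : Continuous mir := by
  obtain ⟨-, -, hsub, -, hnorm, -, -, -⟩ := hMir
  refine (Isometry.of_dist_eq (f := mir) (fun x y => ?_)).continuous
  rw [dist_eq_norm, dist_eq_norm, ← hsub, hnorm]

lemma sub_ne {x y : E3} (hx : 0 < x 2) (hy : 0 < y 2) : x - mir y ≠ 0 := by
  intro h
  have h1 : x = mir y := sub_eq_zero.1 h
  have h2 : x 2 = -(y 2) := by
    conv_lhs => rw [h1]
    simp [mir]
  linarith

lemma hasDeriv_G (hMir : S_Mir) {a b : ℝ → E3} {s t : ℝ} (hb : HasDerivAt b (deriv b t) t)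
    (hne : a s - mir (b t) ≠ 0) :
    HasDerivAt (G a b s) (J a b s t - kk a b s t) t := by
  obtain ⟨-, -, -, -, hnorm, -, -, hder⟩ := hMir
  have h1 : HasDerivAt (fun u => a s - mir (b u)) (-mir (deriv b t)) t :=
    (hder b _ t hb).const_sub (a s)
  have h2 := h1.inner ℝ (hasDerivAt_const t (deriv a s))
  have h3 := h1.norm_sq
  have hD : ‖a s - mir (b t)‖ ^ 2 ≠ 0 := pow_ne_zero 2 (norm_ne_zero_iff.2 hne)
  have h4 := h2.div h3 hD
  have h5 : J a b s t - kk a b s t =
      ((inner ℝ (a s - mir (b t)) (0 : E3) + inner ℝ (-mir (deriv b t)) (deriv a s)) *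
        ‖a s - mir (b t)‖ ^ 2 -
        inner ℝ (a s - mir (b t)) (deriv a s) *
          (2 * inner ℝ (a s - mir (b t)) (-mir (deriv b t)))) /
        (‖a s - mir (b t)‖ ^ 2) ^ 2 := by
    unfold J kk qf kf
    rw [inner_zero_right, real_inner_comm (deriv a s) (-mir (deriv b t)), norm_neg, hnorm]
    have hN : ‖a s - mir (b t)‖ ≠ 0 := norm_ne_zero_iff.2 hne
    field_simp
    ring
  rw [h5]
  exact h4

lemma cont_J (hMir : S_Mir) {a b : ℝ → E3} {s : ℝ} {S : Set ℝ} (hb : Continuous b)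
    (hb' : Continuous (deriv b)) (hne : ∀ t ∈ S, a s - mir (b t) ≠ 0) :
    ContinuousOn (fun t => J a b s t) S := by
  have hm := mir_cont hMir
  have h1 : Continuous (fun t => mir (b t)) := hm.comp hb
  have h2 : Continuous (fun t => mir (deriv b t)) := hm.comp hb'
  have hD : ∀ t ∈ S, ‖a s - mir (b t)‖ ^ 2 ≠ 0 :=
    fun t ht => pow_ne_zero 2 (norm_ne_zero_iff.2 (hne t ht))
  unfold J qf
  have c1 : Continuous (fun t => ‖a s - mir (b t)‖ ^ 2) := by fun_prop
  have c2 : Continuous (fun t => ‖deriv a s‖ * ‖-mir (deriv b t)‖ +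
      inner ℝ (deriv a s) (-mir (deriv b t))) := by fun_prop
  have c3 : Continuous (fun t => 2 * inner ℝ (a s - mir (b t)) (deriv a s) *
      inner ℝ (a s - mir (b t)) (-mir (deriv b t))) := by fun_prop
  exact (c2.continuousOn.sub (c3.continuousOn.div c1.continuousOn hD)).div c1.continuousOn hD

lemma cont_kk (hMir : S_Mir) {a b : ℝ → E3} {s : ℝ} {S : Set ℝ} (hb : Continuous b)
    (hb' : Continuous (deriv b)) (hne : ∀ t ∈ S, a s - mir (b t) ≠ 0) :
    ContinuousOn (fun t => kk a b s t) S := by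
  have hm := mir_cont hMir
  have h1 : Continuous (fun t => mir (b t)) := hm.comp hb
  have hD : ∀ t ∈ S, ‖a s - mir (b t)‖ ^ 2 ≠ 0 :=
    fun t ht => pow_ne_zero 2 (norm_ne_zero_iff.2 (hne t ht))
  unfold kk kf
  have c1 : Continuous (fun t => ‖a s - mir (b t)‖ ^ 2) := by fun_prop
  have c2 : Continuous (fun t => ‖deriv a s‖ * ‖deriv b t‖) := by fun_prop
  exact c2.continuousOn.div c1.continuousOn hD

lemma near {f g : ℝ → E3} {c t1 : ℝ} (h : ∀ t, |t - c| < t1 → g t = f t) {t : ℝ}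
    (ht : |t - c| < t1) : g t = f t ∧ deriv g t = deriv f t := by
  refine ⟨h t ht, Filter.EventuallyEq.deriv_eq ?_⟩
  have ho : IsOpen {x : ℝ | |x - c| < t1} :=
    isOpen_lt (by fun_prop) continuous_const
  filter_upwards [ho.mem_nhds ht] with x hx
  exact h x hx

lemma deriv_neg_t (hMir : S_Mir) {f : ℝ → E3} (hf : MirrorKnot f) (t : ℝ) :
    deriv f (-t) = -mir (deriv f t) := by
  obtain ⟨-, -, -, -, -, -, -, hder⟩ := hMir
  have hd : Differentiable ℝ f := hf.smooth.differentiable (by simp)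
  have h1 : HasDerivAt (fun u => f (-u)) (-(deriv f (-t))) t := by
    have := (hd (-t)).hasDerivAt.scomp t (hasDerivAt_neg t)
    rw [neg_one_smul] at this
    exact this
  have h2 : HasDerivAt (fun u => mir (f u)) (mir (deriv f t)) t := hder f _ t (hd t).hasDerivAt
  have h3 : (fun u => f (-u)) = fun u => mir (f u) := funext hf.sym
  rw [h3] at h1
  have h4 := h1.unique h2
  rw [← h4, neg_neg]

/-- `J f f` in terms of `Q` -/
lemma J_self (hMir : S_Mir) {f : ℝ → E3} (hf : MirrorKnot f) (s t : ℝ) :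
    J f f s t = Q f s (-t) := by
  unfold J Q
  rw [deriv_neg_t hMir hf, hf.sym]

/-- `J f g` in terms of `Q h` -/
lemma J_mix (hMir : S_Mir) {f g h : ℝ → E3} (hg : MirrorKnot g) (hh : IsKnot h)
    (hu : ∀ t ∈ Icc (0 : ℝ) (1 / 2), h t = f t) (hl : ∀ t ∈ Icc (1 / 2 : ℝ) 1, h t = g t)
    {s t : ℝ} (hs : s ∈ Ioo (0 : ℝ) (1 / 2)) (ht : t ∈ Ioo (0 : ℝ) (1 / 2)) :
    J f g s t = Q h s (-t) := by
  have e1 : ∀ x ∈ Ioo (-(1 / 2) : ℝ) 0, h x = g x := by
    intro x hx
    rw [← hh.periodic, ← hg.periodic]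
    exact hl _ ⟨by linarith [hx.1], by linarith [hx.2]⟩
  have ht' : -t ∈ Ioo (-(1 / 2) : ℝ) 0 := ⟨by linarith [ht.2], by linarith [ht.1]⟩
  have e2 : deriv h (-t) = deriv g (-t) := by
    refine Filter.EventuallyEq.deriv_eq ?_
    filter_upwards [isOpen_Ioo.mem_nhds ht'] with x hx using e1 x hx
  have e3 : deriv h s = deriv f s := by
    refine Filter.EventuallyEq.deriv_eq ?_
    filter_upwards [isOpen_Ioo.mem_nhds hs] with x hx using hu x ⟨hx.1.le, hx.2.le⟩
  unfold J Q
  rw [e2, e3, e1 _ ht', hu s ⟨hs.1.le, hs.2.le⟩, hg.sym, deriv_neg_t hMir hg]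

/-- symmetry -/
lemma J_symm (hAlg : S_Alg) (hMir : S_Mir) (a b : ℝ → E3) (s t : ℝ) :
    J a b s t = J b a t s := by
  obtain ⟨h1, -, -, h4, h5, -, -⟩ := hAlg
  obtain ⟨-, hsm, -, hinv, -, -, -, -⟩ := hMir
  have hneg : ∀ x : E3, mir (-x) = -mir x := by
    intro x
    have := hsm (-1) x
    simpa using this
  unfold J
  rw [← h4 (a s), h1, hinv, hneg, hinv, ← h5, neg_neg]

lemma int_Q (hQB : S_QB) (hAlg : S_Alg) {r : ℝ → E3} (hr : IsKnot r) :
    IntegrableOn (fun z : ℝ × ℝ => Q r z.1 (-z.2)) (Ioo (0 : ℝ) (1 / 2) ×ˢ Ioo (0 : ℝ) (1 / 2)) ∧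
    IntegrableOn (fun z : ℝ × ℝ => Q r z.2 (-z.1))
      (Ioo (0 : ℝ) (1 / 2) ×ˢ Ioo (0 : ℝ) (1 / 2)) := by
  obtain ⟨⟨C, hC⟩, hm, -⟩ := hQB r hr
  obtain ⟨-, hpos, -, -, -, -, -⟩ := hAlg
  have hfin : (volume : Measure (ℝ × ℝ)) (Ioo (0 : ℝ) (1 / 2) ×ˢ Ioo (0 : ℝ) (1 / 2)) ≠ ⊤ := by
    rw [Measure.volume_eq_prod, Measure.prod_prod, Real.volume_Ioo]
    exact ENNReal.mul_ne_top ENNReal.ofReal_ne_top ENNReal.ofReal_ne_top
  have hb : ∀ s t, ‖Q r s t‖ ≤ C := by
    intro s t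
    have h0 : 0 ≤ Q r s t := hpos _ _ _ _
    rw [Real.norm_of_nonneg h0]
    exact hC s t
  constructor
  · refine Measure.integrableOn_of_bounded hfin ?_ (M := C) (Eventually.of_forall fun z => hb _ _)
    exact (hm.comp (measurable_fst.prodMk measurable_snd.neg)).aestronglyMeasurable
  · refine Measure.integrableOn_of_bounded hfin ?_ (M := C) (Eventually.of_forall fun z => hb _ _)
    exact (hm.comp (measurable_snd.prodMk measurable_fst.neg)).aestronglyMeasurable

end Parts_aux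

open Parts_aux

theorem tParts : S_QB → S_Alg → S_Mir → S_Bd → S_Parts := by
  intro hQB hAlg hMir _ f g h t0 t1 hf hg hh hu hl ht0 ht01 ht1 hn0 hn2
  set U : Set ℝ := Ioo (0 : ℝ) (1 / 2) with hU
  have hUm : MeasurableSet (U ×ˢ U) := measurableSet_Ioo.prod measurableSet_Ioo
  -- integrability
  have iff' : IntegrableOn (fun z : ℝ × ℝ => J f f z.1 z.2) (U ×ˢ U) :=
    (int_Q hQB hAlg hf.toIsKnot).1.congr_fun (fun z _ => (J_self hMir hf _ _).symm) hUm
  have igg : IntegrableOn (fun z : ℝ × ℝ => J g g z.1 z.2) (U ×ˢ U) :=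
    (int_Q hQB hAlg hg.toIsKnot).1.congr_fun (fun z _ => (J_self hMir hg _ _).symm) hUm
  have ifg : IntegrableOn (fun z : ℝ × ℝ => J f g z.1 z.2) (U ×ˢ U) :=
    (int_Q hQB hAlg hh).1.congr_fun
      (fun z hz => (J_mix hMir hg hh hu hl hz.1 hz.2).symm) hUm
  have igf : IntegrableOn (fun z : ℝ × ℝ => J g f z.1 z.2) (U ×ˢ U) :=
    (int_Q hQB hAlg hh).2.congr_fun
      (fun z hz => by
        show Q h z.2 (-z.1) = J g f z.1 z.2
        rw [J_symm hAlg hMir g f, J_mix hMir hg hh hu hl hz.2 hz.1]) hUm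
  obtain ⟨E, hE⟩ : ∃ E : ℝ → ℝ → ℝ, E = fun s t => J f f s t - J f g s t - J g f s t + J g g s t :=
    ⟨_, rfl⟩
  obtain ⟨kE, hkE⟩ : ∃ kE : ℝ → ℝ → ℝ,
      kE = fun s t => kk f f s t - kk f g s t - kk g f s t + kk g g s t := ⟨_, rfl⟩
  have iE : IntegrableOn (fun z : ℝ × ℝ => E z.1 z.2) (U ×ˢ U) := by
    rw [hE]
    exact ((iff'.sub ifg).sub igf).add igg
  have hXX : XX f f + XX g g - XX f g - XX g f = ∫ z in U ×ˢ U, E z.1 z.2 := by
    have e1 : (∫ z in U ×ˢ U, E z.1 z.2) = (∫ z in U ×ˢ U, J f f z.1 z.2) -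
        (∫ z in U ×ˢ U, J f g z.1 z.2) - (∫ z in U ×ˢ U, J g f z.1 z.2) +
        ∫ z in U ×ˢ U, J g g z.1 z.2 := by
      rw [hE]
      have a1 := integral_add ((iff'.sub ifg).sub igf) igg
      have a2 := integral_sub (iff'.sub ifg) igf
      have a3 := integral_sub iff' ifg
      refine a1.trans ?_
      congr 1
      refine a2.trans ?_
      congr 1
    rw [e1]
    show (∫ z in U ×ˢ U, J f f z.1 z.2) + (∫ z in U ×ˢ U, J g g z.1 z.2) -
        (∫ z in U ×ˢ U, J f g z.1 z.2) - (∫ z in U ×ˢ U, J g f z.1 z.2) = _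
    ring
  have hprod : (∫ z in U ×ˢ U, E z.1 z.2) = ∫ s in U, ∫ t in U, E s t := by
    rw [Measure.volume_eq_prod] at iE ⊢
    exact setIntegral_prod (fun z : ℝ × ℝ => E z.1 z.2) iE
  have hn0' : ∀ t, |t - 0| < t1 → g t = f t := by
    intro t ht
    rw [sub_zero] at ht
    exact hn0 t ht
  -- outside of the middle part
  have hout : ∀ t ∈ U \ Icc t0 (1 / 2 - t0), g t = f t ∧ deriv g t = deriv f t := by
    rintro t ⟨ht, hnt⟩
    by_cases h1 : t < t0
    · refine near hn0' ?_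
      rw [sub_zero, abs_of_pos ht.1]
      linarith
    · have h2 : ¬ t ≤ 1 / 2 - t0 := fun h3 => hnt ⟨not_lt.1 h1, h3⟩
      push Not at h2
      refine near hn2 ?_
      rw [abs_lt]
      exact ⟨by linarith, by linarith [ht.2]⟩
  have hE_t : ∀ s, ∀ t ∈ U \ Icc t0 (1 / 2 - t0), E s t = 0 := by
    intro s t ht
    obtain ⟨h1, h2⟩ := hout t ht
    rw [hE]
    show J f f s t - J f g s t - J g f s t + J g g s t = 0
    unfold J
    rw [h1, h2]
    ring
  have hE_s : ∀ s ∈ U \ Icc t0 (1 / 2 - t0), ∀ t, E s t = 0 := by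
    intro s hs t
    obtain ⟨h1, h2⟩ := hout s hs
    rw [hE]
    show J f f s t - J f g s t - J g f s t + J g g s t = 0
    unfold J
    rw [h1, h2]
    ring
  have hle : t0 ≤ 1 / 2 - t0 := by linarith
  have hsub : Icc t0 (1 / 2 - t0) ⊆ U := fun t ht => ⟨by linarith [ht.1], by linarith [ht.2]⟩
  have h_s : (∫ s in U, ∫ t in U, E s t) = ∫ s in Icc t0 (1 / 2 - t0), ∫ t in U, E s t := by
    refine setIntegral_eq_of_subset_of_forall_sdiff_eq_zero measurableSet_Ioo hsub ?_
    intro s hs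
    have : (fun t => E s t) = fun _ => 0 := funext (hE_s s hs)
    rw [this, integral_zero]
  have h_t : ∀ s, (∫ t in U, E s t) = ∫ t in Icc t0 (1 / 2 - t0), E s t := by
    intro s
    exact setIntegral_eq_of_subset_of_forall_sdiff_eq_zero measurableSet_Ioo hsub (hE_t s)
  -- smoothness
  have df : Differentiable ℝ f := hf.smooth.differentiable (by simp)
  have dg : Differentiable ℝ g := hg.smooth.differentiable (by simp)
  have cf' : Continuous (deriv f) := hf.smooth.continuous_deriv (by simp)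
  have cg' : Continuous (deriv g) := hg.smooth.continuous_deriv (by simp)
  have hmain : ∀ s ∈ Icc t0 (1 / 2 - t0), (∫ t in t0..(1 / 2 - t0), E s t) =
      ∫ t in t0..(1 / 2 - t0), kE s t := by
    intro s hs
    have hfs := hf.pos s (hsub hs)
    have hgs := hg.pos s (hsub hs)
    have nff : ∀ t ∈ Icc t0 (1 / 2 - t0), f s - mir (f t) ≠ 0 :=
      fun t ht => sub_ne hfs (hf.pos t (hsub ht))
    have nfg : ∀ t ∈ Icc t0 (1 / 2 - t0), f s - mir (g t) ≠ 0 :=
      fun t ht => sub_ne hfs (hg.pos t (hsub ht))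
    have ngf : ∀ t ∈ Icc t0 (1 / 2 - t0), g s - mir (f t) ≠ 0 :=
      fun t ht => sub_ne hgs (hf.pos t (hsub ht))
    have ngg : ∀ t ∈ Icc t0 (1 / 2 - t0), g s - mir (g t) ≠ 0 :=
      fun t ht => sub_ne hgs (hg.pos t (hsub ht))
    have cE : ContinuousOn (fun t => E s t) (Icc t0 (1 / 2 - t0)) := by
      rw [hE]
      exact (((cont_J hMir df.continuous cf' nff).sub (cont_J hMir dg.continuous cg' nfg)).sub
        (cont_J hMir df.continuous cf' ngf)).add (cont_J hMir dg.continuous cg' ngg)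
    have ckE : ContinuousOn (fun t => kE s t) (Icc t0 (1 / 2 - t0)) := by
      rw [hkE]
      exact (((cont_kk hMir df.continuous cf' nff).sub (cont_kk hMir dg.continuous cg' nfg)).sub
        (cont_kk hMir df.continuous cf' ngf)).add (cont_kk hMir dg.continuous cg' ngg)
    have iE' : IntervalIntegrable (fun t => E s t) volume t0 (1 / 2 - t0) := by
      refine ContinuousOn.intervalIntegrable ?_
      rwa [uIcc_of_le hle]
    have ikE : IntervalIntegrable (fun t => kE s t) volume t0 (1 / 2 - t0) := by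
      refine ContinuousOn.intervalIntegrable ?_
      rwa [uIcc_of_le hle]
    have hd : ∀ t ∈ uIcc t0 (1 / 2 - t0),
        HasDerivAt (fun u => G f f s u - G f g s u - G g f s u + G g g s u)
          (E s t - kE s t) t := by
      intro t ht
      rw [uIcc_of_le hle] at ht
      have h1 := (((hasDeriv_G hMir (df t).hasDerivAt (nff t ht)).sub
        (hasDeriv_G hMir (dg t).hasDerivAt (nfg t ht))).sub
        (hasDeriv_G hMir (df t).hasDerivAt (ngf t ht))).add
        (hasDeriv_G hMir (dg t).hasDerivAt (ngg t ht))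
      have h2 : E s t - kE s t = J f f s t - kk f f s t - (J f g s t - kk f g s t) -
          (J g f s t - kk g f s t) + (J g g s t - kk g g s t) := by
        rw [hE, hkE]
        ring
      rw [h2]
      exact h1
    have hftc := intervalIntegral.integral_eq_sub_of_hasDerivAt hd (iE'.sub ikE)
    have hb1 : g t0 = f t0 := hn0 t0 (by rw [abs_of_pos ht0]; exact ht01)
    have hb2 : g (1 / 2 - t0) = f (1 / 2 - t0) := hn2 _ (by
      rw [abs_lt]
      exact ⟨by linarith, by linarith⟩)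
    have hz : ∀ u, g u = f u → G f f s u - G f g s u - G g f s u + G g g s u = 0 := by
      intro u hu'
      unfold G
      rw [hu']
      ring
    rw [hz _ hb1, hz _ hb2, intervalIntegral.integral_sub iE' ikE] at hftc
    linarith
  rw [hXX, hprod, h_s]
  have hVV : VV f g t0 (1 / 2 - t0) = ∫ s in t0..(1 / 2 - t0), ∫ t in t0..(1 / 2 - t0), kE s t := by
    rw [hkE]
    rfl
  rw [hVV, intervalIntegral.integral_of_le hle, ← integral_Icc_eq_integral_Ioc]
  refine setIntegral_congr_fun measurableSet_Icc (fun s hs => ?_)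
  show (∫ t in U, E s t) = ∫ t in t0..(1 / 2 - t0), kE s t
  rw [h_t s, ← hmain s hs, intervalIntegral.integral_of_le hle, integral_Icc_eq_integral_Ioc]

end MP_e78765_gt
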