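import Pool.Agent.Lib.MP_e78765_gt.Spec3

set_option autoImplicit false

/-!
# MP_e78765_gt, module Pert: small Lipschitz perturbations are isotopic (helper41)
-/

open scoped ContDiff Topology
open MeasureTheory Set Filter

namespace MP_e78765_gt

namespace Pert_aux

/-- `x ↦ x + w x` is a homeomorphism if `w` is `1/2`-Lipschitz. -/
lemma exists_homeo {w : E3 → E3} (hw : ∀ x y, ‖w x - w y‖ ≤ (1 / 2) * ‖x - y‖) :
    ∃ H : E3 ≃ₜ E3, ∀ x, H x = x + w x := by
  have h1 : ApproximatesLinearOn (fun x => x + w x)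
      ((ContinuousLinearEquiv.refl ℝ E3 : E3 ≃L[ℝ] E3) : E3 →L[ℝ] E3) univ (1 / 2) := by
    intro x _ y _
    show ‖x + w x - (y + w y) - (x - y)‖ ≤ ((1 / 2 : NNReal) : ℝ) * ‖x - y‖
    have h2 : x + w x - (y + w y) - (x - y) = w x - w y := by abel
    rw [h2]
    have h3 : ((1 / 2 : NNReal) : ℝ) = 1 / 2 := by norm_num
    rw [h3]
    exact hw x y
  have h2 : ‖(((ContinuousLinearEquiv.refl ℝ E3).symm : E3 ≃L[ℝ] E3) : E3 →L[ℝ] E3)‖₊ = 1 := by
    have h3 : (((ContinuousLinearEquiv.refl ℝ E3).symm : E3 ≃L[ℝ] E3) : E3 →L[ℝ] E3) =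
        ContinuousLinearMap.id ℝ E3 := rfl
    rw [h3]
    exact NNReal.eq (ContinuousLinearMap.norm_id)
  have h4 : Subsingleton E3 ∨ (1 / 2 : NNReal) <
      ‖(((ContinuousLinearEquiv.refl ℝ E3).symm : E3 ≃L[ℝ] E3) : E3 →L[ℝ] E3)‖₊⁻¹ := by
    right
    rw [h2, inv_one]
    exact NNReal.half_lt_self one_ne_zero
  exact ⟨h1.toHomeomorph _ h4, fun x => rfl⟩

/-- Extension of a `k`-Lipschitz map to `E3`. -/
lemma extend {S : Set E3} {d : E3 → E3} {k : ℝ} (hk : 0 ≤ k)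
    (hd : ∀ x ∈ S, ∀ y ∈ S, ‖d x - d y‖ ≤ k * ‖x - y‖) :
    ∃ v : E3 → E3, (∀ x y, ‖v x - v y‖ ≤ 2 * k * ‖x - y‖) ∧ ∀ x ∈ S, v x = d x := by
  have h1 : ∀ i : Fin 3, ∃ g : E3 → ℝ, (∀ x y, |g x - g y| ≤ k * ‖x - y‖) ∧
      ∀ x ∈ S, g x = d x i := by
    intro i
    have h2 : LipschitzOnWith ⟨k, hk⟩ (fun x => d x i) S := by
      refine LipschitzOnWith.of_dist_le_mul fun x hx y hy => ?_
      rw [Real.dist_eq, dist_eq_norm]
      refine le_trans ?_ (hd x hx y hy)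
      have h3 := PiLp.norm_apply_le (d x - d y) i
      rw [Real.norm_eq_abs] at h3
      exact h3
    obtain ⟨g, hg1, hg2⟩ := h2.extend_real
    refine ⟨g, fun x y => ?_, fun x hx => (hg2 hx).symm⟩
    have h3 := hg1.dist_le_mul x y
    rw [Real.dist_eq, dist_eq_norm] at h3
    exact h3
  choose g hg1 hg2 using h1
  refine ⟨fun x => !₂[g 0 x, g 1 x, g 2 x], fun x y => ?_, fun x hx => ?_⟩
  · rw [EuclideanSpace.norm_eq, Fin.sum_univ_three]
    have h3 : ∀ i : Fin 3, (g i x - g i y) ^ 2 ≤ (k * ‖x - y‖) ^ 2 := by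
      intro i
      rw [← sq_abs (g i x - g i y)]
      exact pow_le_pow_left₀ (abs_nonneg _) (hg1 i x y) 2
    have h0 := h3 0
    have h1 := h3 1
    have h2 := h3 2
    have h5 : (0 : ℝ) ≤ 2 * k * ‖x - y‖ := by positivity
    refine Real.sqrt_le_iff.2 ⟨h5, ?_⟩
    show ‖g 0 x - g 0 y‖ ^ 2 + ‖g 1 x - g 1 y‖ ^ 2 + ‖g 2 x - g 2 y‖ ^ 2 ≤ _
    rw [Real.norm_eq_abs, Real.norm_eq_abs, Real.norm_eq_abs, sq_abs, sq_abs, sq_abs]
    have h6 : (2 * k * ‖x - y‖) ^ 2 = 4 * (k * ‖x - y‖) ^ 2 := by ring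
    rw [h6]
    have h7 : 0 ≤ (k * ‖x - y‖) ^ 2 := sq_nonneg _
    linarith
  · ext i
    fin_cases i
    · exact hg2 0 x hx
    · exact hg2 1 x hx
    · exact hg2 2 x hx

end Pert_aux

open Pert_aux in
/-- Small Lipschitz perturbations are isotopic. -/
theorem tPert : S_Mir → S_Pert := by
  intro hMir r r1 k hk hk4 hL hr hr1
  obtain ⟨ma, ms, msub, mm, mn, -, -, -⟩ := hMir
  classical
  -- the displacement on the range of `r`
  let d : E3 → E3 := fun x => if h : ∃ t, r t = x then r1 h.choose - r h.choose else 0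
  have hd : ∀ t, d (r t) = r1 t - r t := by
    intro t
    have h : ∃ s, r s = r t := ⟨t, rfl⟩
    have h1 : d (r t) = r1 h.choose - r h.choose := dif_pos h
    rw [h1]
    have h2 : r h.choose = r t := h.choose_spec
    have h3 := hL h.choose t
    rw [h2, sub_self, norm_zero, mul_zero, sub_zero] at h3
    have h4 : r1 h.choose - r1 t = 0 := norm_le_zero_iff.1 h3
    rw [h2, sub_eq_zero.1 h4]
  obtain ⟨v, hv1, hv2⟩ := extend (S := range r) (d := d) hk (by
    rintro _ ⟨s, rfl⟩ _ ⟨t, rfl⟩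
    rw [hd s, hd t]
    have h1 : r1 s - r s - (r1 t - r t) = r1 s - r1 t - (r s - r t) := by abel
    rw [h1]
    exact hL s t)
  have hv3 : ∀ t, v (r t) = r1 t - r t := fun t => by rw [hv2 _ ⟨t, rfl⟩, hd t]
  -- the symmetric displacement
  let w : E3 → E3 := fun x => (1 / 2 : ℝ) • (v x + mir (v (mir x)))
  have hw1 : ∀ x y, ‖w x - w y‖ ≤ (1 / 2) * ‖x - y‖ := by
    intro x y
    have h1 : w x - w y = (1 / 2 : ℝ) • ((v x - v y) + mir (v (mir x) - v (mir y))) := by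
      show (1 / 2 : ℝ) • (v x + mir (v (mir x))) - (1 / 2 : ℝ) • (v y + mir (v (mir y))) = _
      rw [msub, ← smul_sub]
      congr 1
      abel
    rw [h1, norm_smul]
    have h2 := norm_add_le (v x - v y) (mir (v (mir x) - v (mir y)))
    rw [mn] at h2
    have h3 := hv1 x y
    have h4 := hv1 (mir x) (mir y)
    rw [← msub, mn] at h4
    have h5 : ‖(1 / 2 : ℝ)‖ = 1 / 2 := by norm_num
    rw [h5]
    have h6 : 2 * k * ‖x - y‖ ≤ (1 / 2) * ‖x - y‖ :=
      mul_le_mul_of_nonneg_right (by linarith) (norm_nonneg _)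
    linarith
  have hw2 : ∀ x, w (mir x) = mir (w x) := by
    intro x
    show (1 / 2 : ℝ) • (v (mir x) + mir (v (mir (mir x)))) =
      mir ((1 / 2 : ℝ) • (v x + mir (v (mir x))))
    rw [ms, ma, mm, mm, add_comm]
  have hw3 : ∀ t, w (r t) = r1 t - r t := by
    intro t
    show (1 / 2 : ℝ) • (v (r t) + mir (v (mir (r t)))) = r1 t - r t
    rw [← hr t, hv3, hv3, hr, hr1, msub, mm, mm, ← two_smul ℝ (r1 t - r t), smul_smul]
    norm_num
  have hwc : Continuous w := by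
    have h1 : LipschitzWith (1 / 2) w := by
      refine LipschitzWith.of_dist_le_mul fun x y => ?_
      rw [dist_eq_norm, dist_eq_norm]
      have h3 : ((1 / 2 : NNReal) : ℝ) = 1 / 2 := by norm_num
      rw [h3]
      exact hw1 x y
    exact h1.continuous
  -- the isotopy
  have hH : ∀ σ : unitInterval, ∃ H : E3 ≃ₜ E3, ∀ x, H x = x + (σ : ℝ) • w x := by
    intro σ
    refine exists_homeo (w := fun x => (σ : ℝ) • w x) fun x y => ?_
    rw [← smul_sub, norm_smul, Real.norm_eq_abs, abs_of_nonneg σ.2.1]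
    calc (σ : ℝ) * ‖w x - w y‖ ≤ 1 * ‖w x - w y‖ :=
          mul_le_mul_of_nonneg_right σ.2.2 (norm_nonneg _)
      _ ≤ (1 / 2) * ‖x - y‖ := by rw [one_mul]; exact hw1 x y
  choose H hH2 using hH
  refine ⟨H, ?_, fun x => ?_, ?_, fun σ x => ?_⟩
  · have h1 : (fun z : unitInterval × E3 => H z.1 z.2) =
        fun z : unitInterval × E3 => z.2 + (z.1 : ℝ) • w z.2 := funext fun z => hH2 z.1 z.2
    rw [h1]
    fun_prop
  · rw [hH2]
    show x + (0 : ℝ) • w x = x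
    rw [zero_smul, add_zero]
  · rw [← range_comp]
    congr 1
    funext t
    show H 1 (r t) = r1 t
    rw [hH2, hw3]
    show r t + (1 : ℝ) • (r1 t - r t) = r1 t
    rw [one_smul]
    abel
  · rw [hH2, hH2, hw2, ma, ms (σ : ℝ) (w x)]

end MP_e78765_gt
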