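import Pool.Agent.Lib.MP_e78765_gt.Spec3

/-!
# Module Ps: elementary facts on the push
-/

set_option autoImplicit false

open scoped ContDiff Topology
open MeasureTheory Set Filter

namespace MP_e78765_gt

namespace Ps_aux

lemma St_nonneg (x : ℝ) : 0 ≤ St x := Real.smoothTransition.nonneg x

lemma St_le_one (x : ℝ) : St x ≤ 1 := Real.smoothTransition.le_one x

lemma St_zero {x : ℝ} (h : x ≤ 0) : St x = 0 := Real.smoothTransition.zero_of_nonpos h

lemma St_one {x : ℝ} (h : 1 ≤ x) : St x = 1 := Real.smoothTransition.one_of_one_le h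

lemma St_mono : Monotone St := Real.smoothTransition.monotone

lemma St_diff (x : ℝ) : HasDerivAt St (deriv St x) x := by
  have h : ContDiff ℝ 1 Real.smoothTransition := Real.smoothTransition.contDiff (n := 1)
  have h1 : Differentiable ℝ St := h.differentiable (by norm_num)
  exact (h1 x).hasDerivAt

lemma St_cont : Continuous St := by
  have h : Continuous Real.smoothTransition := Real.smoothTransition.continuous
  exact h

lemma ext3 {x y : E3} (h0 : x 0 = y 0) (h1 : x 1 = y 1) (h2 : x 2 = y 2) : x = y := by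
  ext i
  fin_cases i
  · exact h0
  · exact h1
  · exact h2

lemma e3_0 : e3 0 = 0 := by simp [e3]
lemma e3_1 : e3 1 = 0 := by simp [e3]
lemma e3_2 : e3 2 = 1 := by simp [e3]

lemma norm_e3 : ‖e3‖ = 1 := by
  have h : ‖e3‖ ^ 2 = 1 := by
    rw [EuclideanSpace.norm_sq_eq, Fin.sum_univ_three, e3_0, e3_1, e3_2]
    simp
  nlinarith [norm_nonneg e3]

lemma nsq (x : E3) : ‖x‖ ^ 2 = x 0 ^ 2 + x 1 ^ 2 + x 2 ^ 2 := by
  rw [EuclideanSpace.norm_sq_eq, Fin.sum_univ_three, Real.norm_eq_abs, Real.norm_eq_abs,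
    Real.norm_eq_abs, sq_abs, sq_abs, sq_abs]

lemma abs2_le (x : E3) : |x 2| ≤ ‖x‖ := by
  have h := nsq x
  refine abs_le_of_sq_le_sq ?_ (norm_nonneg _)
  nlinarith [sq_nonneg (x 0), sq_nonneg (x 1)]

/-- the horizontal part is fixed, the vertical coordinate is `z` -/
noncomputable def vp (x : E3) (z : ℝ) : E3 := !₂[x 0, x 1, z]

lemma vp_0 (x : E3) (z : ℝ) : vp x z 0 = x 0 := by simp [vp]
lemma vp_1 (x : E3) (z : ℝ) : vp x z 1 = x 1 := by simp [vp]
lemma vp_2 (x : E3) (z : ℝ) : vp x z 2 = z := by simp [vp]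

lemma vp_self (x : E3) : vp x (x 2) = x := ext3 (vp_0 _ _) (vp_1 _ _) (vp_2 _ _)

lemma vp_eq (x : E3) (z : ℝ) : vp x z = vp x 0 + z • e3 := by
  refine ext3 ?_ ?_ ?_
  · rw [PiLp.add_apply, PiLp.smul_apply, e3_0, vp_0, vp_0]; simp
  · rw [PiLp.add_apply, PiLp.smul_apply, e3_1, vp_1, vp_1]; simp
  · rw [PiLp.add_apply, PiLp.smul_apply, e3_2, vp_2, vp_2]; simp

lemma vp_cont (x : E3) : Continuous (fun z => vp x z) := by
  have h : (fun z => vp x z) = fun z => vp x 0 + z • e3 := by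
    funext z
    exact vp_eq x z
  rw [h]
  fun_prop

/-- the profile -/
noncomputable def be (ε c : ℝ) (x : E3) : ℝ := cut ε x * Ang c x

lemma ps_eq (ε c b : ℝ) (x : E3) : ps ε c b x = x + (b * be ε c x) • e3 := rfl

lemma ps_0 (ε c b : ℝ) (x : E3) : ps ε c b x 0 = x 0 := by
  rw [ps_eq, PiLp.add_apply, PiLp.smul_apply, e3_0]; simp
lemma ps_1 (ε c b : ℝ) (x : E3) : ps ε c b x 1 = x 1 := by
  rw [ps_eq, PiLp.add_apply, PiLp.smul_apply, e3_1]; simp
lemma ps_2 (ε c b : ℝ) (x : E3) : ps ε c b x 2 = x 2 + b * be ε c x := by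
  rw [ps_eq, PiLp.add_apply, PiLp.smul_apply, e3_2]; simp

lemma Ang_pos {c : ℝ} (hc : 0 < c) (x : E3) (h : 0 ≤ x 2) :
    Ang c x = St (2 * x 2 / (c * ‖x‖) - 1) := by
  have h1 : St (-(2 * x 2) / (c * ‖x‖) - 1) = 0 := by
    apply St_zero
    have : -(2 * x 2) / (c * ‖x‖) ≤ 0 :=
      div_nonpos_of_nonpos_of_nonneg (by linarith) (by positivity)
    linarith
  rw [Ang, h1, sub_zero]

lemma Ang_odd (c : ℝ) (x y : E3) (hn : ‖y‖ = ‖x‖) (h2 : y 2 = -x 2) : Ang c y = -Ang c x := by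
  rw [Ang, Ang, hn, h2]
  have e1 : 2 * -x 2 = -(2 * x 2) := by ring
  have e2 : -(2 * -x 2) = 2 * x 2 := by ring
  rw [e1, neg_neg]
  ring

lemma be_odd (hCut : S_Cut) {ε : ℝ} (hε : 0 < ε) (c : ℝ) (x y : E3) (hn : ‖y‖ = ‖x‖)
    (h2 : y 2 = -x 2) : be ε c y = -be ε c x := by
  rw [be, be, (hCut ε hε).2.2.2.2.1 y x hn, Ang_odd c x y hn h2]
  ring

lemma be_nonneg (hCut : S_Cut) {ε c : ℝ} (hε : 0 < ε) (hc : 0 < c) (x : E3) (h : 0 ≤ x 2) :
    0 ≤ be ε c x := by
  rw [be, Ang_pos hc x h]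
  exact mul_nonneg ((hCut ε hε).1 x).1 (St_nonneg _)

lemma be_abs (hCut : S_Cut) {ε : ℝ} (hε : 0 < ε) (c : ℝ) (x : E3) : |be ε c x| ≤ 1 := by
  have h1 := (hCut ε hε).1 x
  have h2 : |Ang c x| ≤ 1 := by
    rw [Ang, abs_le]
    have a1 := St_nonneg (2 * x 2 / (c * ‖x‖) - 1)
    have a2 := St_le_one (2 * x 2 / (c * ‖x‖) - 1)
    have a3 := St_nonneg (-(2 * x 2) / (c * ‖x‖) - 1)
    have a4 := St_le_one (-(2 * x 2) / (c * ‖x‖) - 1)
    exact ⟨by linarith, by linarith⟩
  rw [be, abs_mul, abs_of_nonneg h1.1]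
  exact mul_le_one₀ h1.2 (abs_nonneg _) h2

/-- the decreasing factor is Lipschitz -/
lemma T_lip {ε a b : ℝ} (hok : Okp ε a) (hb0 : 0 ≤ b) (hb : b ≤ a) {ρ ρ' : ℝ} (h0 : 0 < ρ)
    (h1 : ρ ≤ ρ') :
    b * (St (-Real.log (ε * ρ)) - St (-Real.log (ε * ρ'))) ≤ 1 / 2 * (ρ' - ρ) := by
  obtain ⟨hε, ha, hB⟩ := hok
  set R : ℝ := 1 / (Real.exp 1 * ε) with hR
  have he := Real.exp_pos 1
  have hR0 : 0 < R := by positivity
  set f : ℝ → ℝ := fun y => b * St (-Real.log (ε * y)) with hf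
  have hconst : ∀ y, 0 < y → y ≤ R → St (-Real.log (ε * y)) = 1 := by
    intro y hy hyR
    apply St_one
    rw [← Real.log_inv, Real.le_log_iff_exp_le (by positivity), ← one_div,
      le_div_iff₀ (by positivity)]
    rw [hR, le_div_iff₀ (by positivity)] at hyR
    linarith
  have hder : ∀ y ∈ Ici R, HasDerivWithinAt f (b * (deriv St (-Real.log (ε * y)) *
      (-(ε / (ε * y))))) (Ici R) y := by
    intro y hy
    have hy0 : 0 < y := lt_of_lt_of_le hR0 hy
    have hd1 : HasDerivAt (fun y : ℝ => ε * y) ε y := by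
      simpa using (hasDerivAt_id y).const_mul ε
    have hd2 : HasDerivAt (fun y : ℝ => -Real.log (ε * y)) (-(ε / (ε * y))) y :=
      (hd1.log (by positivity)).neg
    exact (((St_diff _).comp y hd2).const_mul b).hasDerivWithinAt
  have hbd : ∀ y ∈ Ici R, ‖b * (deriv St (-Real.log (ε * y)) * (-(ε / (ε * y))))‖ ≤ 1 / 2 := by
    intro y hy
    have hy0 : 0 < y := lt_of_lt_of_le hR0 hy
    have h2 : ε / (ε * y) ≤ Real.exp 1 * ε := by
      have h3 : ε / (ε * y) = 1 / y := by field_simp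
      rw [h3, div_le_iff₀ hy0]
      have h4 : R ≤ y := hy
      rw [hR, div_le_iff₀ (by positivity)] at h4
      linarith
    have h2' : 0 ≤ ε / (ε * y) := by positivity
    rw [Real.norm_eq_abs, abs_mul, abs_mul, abs_neg, abs_of_nonneg hb0, abs_of_nonneg h2']
    have h5 := hB (-Real.log (ε * y))
    have h6 : Real.exp 1 ≤ 4 := by
      have := Real.exp_one_lt_d9
      linarith
    calc b * (|deriv St (-Real.log (ε * y))| * (ε / (ε * y)))
        ≤ a * (|deriv St (-Real.log (ε * y))| * (Real.exp 1 * ε)) := by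
          gcongr
      _ = Real.exp 1 * (a * ε * |deriv St (-Real.log (ε * y))|) := by ring
      _ ≤ 4 * (1 / 8) := by
          apply mul_le_mul h6 h5 (by positivity) (by norm_num)
      _ = 1 / 2 := by norm_num
  have key : ∀ y ∈ Ici R, ∀ y' ∈ Ici R, ‖f y' - f y‖ ≤ 1 / 2 * ‖y' - y‖ := by
    intro y hy y' hy'
    exact (convex_Ici R).norm_image_sub_le_of_norm_hasDerivWithin_le hder hbd hy hy'
  have e1 : f ρ = f (max ρ R) := by
    rcases le_total ρ R with h | h
    · rw [max_eq_right h, hf]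
      simp only
      rw [hconst ρ h0 h, hconst R hR0 le_rfl]
    · rw [max_eq_left h]
  have e2 : f ρ' = f (max ρ' R) := by
    rcases le_total ρ' R with h | h
    · rw [max_eq_right h, hf]
      simp only
      rw [hconst ρ' (lt_of_lt_of_le h0 h1) h, hconst R hR0 le_rfl]
    · rw [max_eq_left h]
  have h7 := key (max ρ' R) (mem_Ici.2 (le_max_right _ _)) (max ρ R)
    (mem_Ici.2 (le_max_right _ _))
  rw [← e1, ← e2, Real.norm_eq_abs, Real.norm_eq_abs] at h7
  have h8 : |max ρ R - max ρ' R| ≤ ρ' - ρ := by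
    have := abs_max_sub_max_le_abs ρ ρ' R
    rw [abs_of_nonpos (by linarith : ρ - ρ' ≤ 0)] at this
    linarith
  have h9 := le_abs_self (f ρ - f ρ')
  have h10 : b * (St (-Real.log (ε * ρ)) - St (-Real.log (ε * ρ'))) = f ρ - f ρ' := by
    rw [hf]; ring
  rw [h10]
  linarith

/-- the main inequality on the upper half -/
lemma be_up (hCut : S_Cut) {ε c a b : ℝ} (hok : Okp ε a) (hc : 0 < c) (hb0 : 0 ≤ b)
    (hb : b ≤ a) {x x' : E3} (h0 : x 0 = x' 0) (h1 : x 1 = x' 1) (h2 : 0 ≤ x 2)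
    (h3 : x 2 ≤ x' 2) : b * (be ε c x - be ε c x') ≤ 1 / 2 * (x' 2 - x 2) := by
  have hε := hok.1
  by_cases hx : x = 0
  · have h4 : be ε c x = 0 := by
      rw [be, (hCut ε hε).2.1 x (by rw [hx, norm_zero]; exact hε.le), zero_mul]
    have h5 := be_nonneg hCut hε hc x' (h2.trans h3)
    rw [h4]
    nlinarith [mul_nonneg hb0 h5]
  have hρ : 0 < ‖x‖ := norm_pos_iff.2 hx
  have hle : ‖x‖ ≤ ‖x'‖ := by
    rw [← sq_le_sq₀ (norm_nonneg _) (norm_nonneg _), nsq, nsq, h0, h1]
    nlinarith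
  have hρ' : 0 < ‖x'‖ := lt_of_lt_of_le hρ hle
  have hdiff : ‖x'‖ - ‖x‖ ≤ x' 2 - x 2 := by
    have h4 : x' - x = (x' 2 - x 2) • e3 := by
      refine ext3 ?_ ?_ ?_
      · rw [PiLp.sub_apply, PiLp.smul_apply, e3_0, h0]; simp
      · rw [PiLp.sub_apply, PiLp.smul_apply, e3_1, h1]; simp
      · rw [PiLp.sub_apply, PiLp.smul_apply, e3_2]; simp
    have h5 : ‖x' - x‖ = x' 2 - x 2 := by
      rw [h4, norm_smul, norm_e3, mul_one, Real.norm_of_nonneg (by linarith)]
    linarith [norm_sub_norm_le x' x]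
  have hA : St (Real.log (‖x‖ / ε)) ≤ St (Real.log (‖x'‖ / ε)) := by
    apply St_mono
    apply Real.log_le_log (by positivity)
    gcongr
  have hN : St (2 * x 2 / (c * ‖x‖) - 1) ≤ St (2 * x' 2 / (c * ‖x'‖) - 1) := by
    apply St_mono
    have h6 : x 2 * ‖x'‖ ≤ x' 2 * ‖x‖ := by
      rw [← sq_le_sq₀ (by positivity) (mul_nonneg (h2.trans h3) hρ.le), mul_pow, mul_pow, nsq, nsq,
        h0, h1]
      have h7 : x 2 ^ 2 ≤ x' 2 ^ 2 := by
        rw [sq_le_sq₀ h2 (h2.trans h3)]
        exact h3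
      nlinarith [mul_nonneg (sub_nonneg.2 h7) (add_nonneg (sq_nonneg (x' 0)) (sq_nonneg (x' 1)))]
    have h8 : 2 * x 2 / (c * ‖x‖) ≤ 2 * x' 2 / (c * ‖x'‖) := by
      rw [div_le_div_iff₀ (by positivity) (by positivity)]
      nlinarith [mul_le_mul_of_nonneg_left h6 hc.le]
    linarith
  have hT := T_lip hok hb0 hb hρ hle
  rw [be, be, Ang_pos hc x h2, Ang_pos hc x' (h2.trans h3), cut, cut]
  have A0 := St_nonneg (Real.log (‖x‖ / ε))
  have A1 := St_le_one (Real.log (‖x‖ / ε))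
  have N0 := St_nonneg (2 * x 2 / (c * ‖x‖) - 1)
  have N1 := St_le_one (2 * x 2 / (c * ‖x‖) - 1)
  have T0 := St_nonneg (-Real.log (ε * ‖x'‖))
  set A := St (Real.log (‖x‖ / ε))
  set A' := St (Real.log (‖x'‖ / ε))
  set N := St (2 * x 2 / (c * ‖x‖) - 1)
  set N' := St (2 * x' 2 / (c * ‖x'‖) - 1)
  set T := St (-Real.log (ε * ‖x‖))
  set T' := St (-Real.log (ε * ‖x'‖))
  have h9 : A * N ≤ A' * N' := mul_le_mul hA hN N0 (A0.trans hA)
  have h10 : A * T' * N ≤ A' * T' * N' := by nlinarith [mul_le_mul_of_nonneg_right h9 T0]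
  have h11 : A * T * N - A' * T' * N' ≤ A * N * (T - T') := by nlinarith
  have h12 : b * (A * T * N - A' * T' * N') ≤ b * (A * N * (T - T')) :=
    mul_le_mul_of_nonneg_left h11 hb0
  have h13 : 0 ≤ A * N := mul_nonneg A0 N0
  have h14 : A * N ≤ 1 := mul_le_one₀ A1 N0 N1
  have h15 : b * (A * N * (T - T')) = A * N * (b * (T - T')) := by ring
  rw [h15] at h12
  rcases le_total (b * (T - T')) 0 with h16 | h16
  · have h17 : A * N * (b * (T - T')) ≤ 0 := mul_nonpos_of_nonneg_of_nonpos h13 h16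
    linarith
  · have h17 : A * N * (b * (T - T')) ≤ 1 * (b * (T - T')) := mul_le_mul_of_nonneg_right h14 h16
    linarith

lemma norm_vp_neg (x : E3) (z : ℝ) : ‖vp x (-z)‖ = ‖vp x z‖ := by
  have h : ‖vp x (-z)‖ ^ 2 = ‖vp x z‖ ^ 2 := by
    rw [nsq, nsq, vp_0, vp_0, vp_1, vp_1, vp_2, vp_2]
    ring
  exact (sq_eq_sq₀ (norm_nonneg _) (norm_nonneg _)).1 h

/-- the main inequality on a vertical line -/
lemma be_line (hCut : S_Cut) {ε c a b : ℝ} (hok : Okp ε a) (hc : 0 < c) (hb0 : 0 ≤ b)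
    (hb : b ≤ a) (x : E3) {z z' : ℝ} (h : z ≤ z') :
    b * (be ε c (vp x z) - be ε c (vp x z')) ≤ 1 / 2 * (z' - z) := by
  have hε := hok.1
  have hodd : ∀ w, be ε c (vp x (-w)) = -be ε c (vp x w) := fun w =>
    be_odd hCut hε c _ _ (norm_vp_neg x w) (by rw [vp_2, vp_2])
  have hup : ∀ w w', 0 ≤ w → w ≤ w' →
      b * (be ε c (vp x w) - be ε c (vp x w')) ≤ 1 / 2 * (w' - w) := by
    intro w w' hw hww
    have := be_up hCut hok hc hb0 hb (x := vp x w) (x' := vp x w')
      (by rw [vp_0, vp_0]) (by rw [vp_1, vp_1]) (by rw [vp_2]; exact hw)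
      (by rw [vp_2, vp_2]; exact hww)
    rwa [vp_2, vp_2] at this
  rcases le_total 0 z with hz | hz
  · exact hup z z' hz h
  rcases le_total 0 z' with hz' | hz'
  · have h1 := be_nonneg hCut hε hc (vp x z') (by rw [vp_2]; exact hz')
    have h2 := be_nonneg hCut hε hc (vp x (-z)) (by rw [vp_2]; linarith)
    rw [hodd] at h2
    nlinarith [mul_nonneg hb0 h1, mul_nonneg hb0 h2]
  · have h1 := hup (-z') (-z) (by linarith) (by linarith)
    rw [hodd, hodd] at h1
    linarith

lemma be_cont (hCut : S_Cut) {ε c : ℝ} (hε : 0 < ε) (hc : 0 < c) : Continuous (be ε c) := by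
  rw [continuous_iff_continuousAt]
  intro x
  by_cases hx : x = 0
  · subst hx
    have h0 : be ε c =ᶠ[𝓝 (0 : E3)] fun _ => (0 : ℝ) := by
      filter_upwards [Metric.ball_mem_nhds (0 : E3) hε] with y hy
      rw [be, (hCut ε hε).2.1 y (mem_ball_zero_iff.1 hy).le, zero_mul]
    exact continuousAt_const.congr h0.symm
  · have h1 : ContinuousAt (cut ε) x := (hCut ε hε).2.2.2.2.2.2.continuous.continuousAt
    have hx2 : ContinuousAt (fun y : E3 => y 2) x := by fun_prop
    have hn : c * ‖x‖ ≠ 0 := mul_ne_zero hc.ne' (norm_ne_zero_iff.2 hx)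
    have h2 : ContinuousAt (fun y : E3 => 2 * y 2 / (c * ‖y‖) - 1) x :=
      ((continuousAt_const.mul hx2).div (continuousAt_const.mul continuousAt_id.norm) hn).sub
        continuousAt_const
    have h3 : ContinuousAt (fun y : E3 => -(2 * y 2) / (c * ‖y‖) - 1) x :=
      (((continuousAt_const.mul hx2).neg).div (continuousAt_const.mul continuousAt_id.norm) hn).sub
        continuousAt_const
    have h4 : ContinuousAt (Ang c) x :=
      (St_cont.continuousAt.comp h2).sub (St_cont.continuousAt.comp h3)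
    exact h1.mul h4

end Ps_aux

open Ps_aux in
theorem tPs : S_StB → S_Cut → S_Mir → S_Ps := by
  intro _ hCut hMir ε c a hok hc hc1
  have hε := hok.1
  obtain ⟨hcut1, hcut2, hcut3, hcut4, hcut5, hcut6, hcut7⟩ := hCut ε hε
  refine ⟨?_, ?_, ?_, ?_, ?_, ?_, ?_⟩
  · have h := be_cont hCut hε hc
    have h1 : (fun z : ℝ × E3 => ps ε c z.1 z.2) = fun z => z.2 + (z.1 * be ε c z.2) • e3 := rfl
    rw [h1]
    exact continuous_snd.add ((continuous_fst.mul (h.comp continuous_snd)).smul continuous_const)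
  · intro b hb
    constructor
    · intro x y hxy
      have h0 : x 0 = y 0 := by rw [← ps_0 ε c b x, hxy, ps_0]
      have h1 : x 1 = y 1 := by rw [← ps_1 ε c b x, hxy, ps_1]
      have h2 : x 2 + b * be ε c x = y 2 + b * be ε c y := by rw [← ps_2, hxy, ps_2]
      have hy : y = vp x (y 2) := ext3 (by rw [vp_0, h0]) (by rw [vp_1, h1]) (by rw [vp_2])
      have hx : x = vp x (x 2) := (vp_self x).symm
      have h3 : x 2 = y 2 := by
        rcases le_total (x 2) (y 2) with h | h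
        · have h4 := be_line hCut hok hc hb.1 hb.2 x h
          rw [← hx, ← hy] at h4
          linarith
        · have h4 := be_line hCut hok hc hb.1 hb.2 x h
          rw [← hx, ← hy] at h4
          linarith
      exact ext3 h0 h1 h3
    · intro y
      set g : ℝ → ℝ := fun z => z + b * be ε c (vp y z) with hg
      have hgc : Continuous g :=
        continuous_id.add (continuous_const.mul ((be_cont hCut hε hc).comp (vp_cont y)))
      have hbb : ∀ z, |b * be ε c (vp y z)| ≤ b := by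
        intro z
        rw [abs_mul, abs_of_nonneg hb.1]
        exact mul_le_of_le_one_right hb.1 (be_abs hCut hε c _)
      have h1 : g (y 2 - b) ≤ y 2 := by
        have := (abs_le.1 (hbb (y 2 - b))).2
        rw [hg]; simp only; linarith
      have h2 : y 2 ≤ g (y 2 + b) := by
        have := (abs_le.1 (hbb (y 2 + b))).1
        rw [hg]; simp only; linarith
      obtain ⟨z, -, hz⟩ := intermediate_value_Icc (by linarith [hb.1] : y 2 - b ≤ y 2 + b)
        hgc.continuousOn ⟨h1, h2⟩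
      refine ⟨vp y z, ext3 ?_ ?_ ?_⟩
      · rw [ps_0, vp_0]
      · rw [ps_1, vp_1]
      · rw [ps_2, vp_2]
        exact hz
  · intro x
    rw [ps_eq, zero_mul, zero_smul, add_zero]
  · intro b x hx
    have h0 : be ε c x = 0 := by
      rcases hx with h | h | h
      · rw [be, hcut2 x h, zero_mul]
      · rw [be, hcut3 x h, zero_mul]
      · by_cases hx0 : x = 0
        · rw [be, hcut2 x (by rw [hx0, norm_zero]; exact hε.le), zero_mul]
        · have hn : 0 < c * ‖x‖ := mul_pos hc (norm_pos_iff.2 hx0)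
          have h1 := (abs_le.1 h).1
          have h2 := (abs_le.1 h).2
          have h3 : 2 * x 2 / (c * ‖x‖) ≤ 1 := by rw [div_le_one hn]; linarith
          have h4 : -(2 * x 2) / (c * ‖x‖) ≤ 1 := by rw [div_le_one hn]; linarith
          rw [be, Ang, St_zero (by linarith), St_zero (by linarith), sub_zero, mul_zero]
    rw [ps_eq, h0, mul_zero, zero_smul, add_zero]
  · intro b x hx
    by_cases hx0 : x = 0
    · have h1 : cut ε x = 0 := hcut2 x (by rw [hx0, norm_zero]; exact hε.le)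
      rw [ps, h1, zero_mul]
    · have hn : 0 < c * ‖x‖ := mul_pos hc (norm_pos_iff.2 hx0)
      have h1 : Ang c x = 1 := by
        rw [Ang_pos hc x (hn.le.trans hx)]
        apply St_one
        have : 2 ≤ 2 * x 2 / (c * ‖x‖) := by
          rw [le_div_iff₀ hn]
          linarith
        linarith
      rw [ps, h1, mul_one]
  · intro b x
    obtain ⟨m1, m2, m3, m4, m5, m6, m7, m8⟩ := hMir
    have h2 : (mir x) 2 = -x 2 := by simp [mir]
    have h3 : be ε c (mir x) = -be ε c x := be_odd hCut hε c x (mir x) (m5 x) h2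
    have h4 : mir e3 = -e3 := by
      refine ext3 ?_ ?_ ?_
      · rw [PiLp.neg_apply, e3_0]; simp [mir, e3_0]
      · rw [PiLp.neg_apply, e3_1]; simp [mir, e3_1]
      · rw [PiLp.neg_apply, e3_2]; simp [mir, e3_2]
    rw [ps_eq, ps_eq, m1, m2, h3, h4, smul_neg, mul_neg, neg_smul]
  · intro y hy
    -- the function `z ↦ z / 2 + a * cut ε (z • e3)` is monotone on `(0, ∞)`
    have hvp : ∀ z : ℝ, vp 0 z = z • e3 := by
      intro z
      refine ext3 ?_ ?_ ?_
      · rw [vp_0, PiLp.smul_apply, e3_0]; simp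
      · rw [vp_1, PiLp.smul_apply, e3_1]; simp
      · rw [vp_2, PiLp.smul_apply, e3_2]; simp
    have hbe : ∀ z : ℝ, 0 < z → be ε c (vp 0 z) = cut ε (z • e3) := by
      intro z hz
      have h1 : Ang c (vp 0 z) = 1 := by
        rw [Ang_pos hc _ (by rw [vp_2]; exact hz.le), vp_2, hvp, norm_smul, norm_e3, mul_one,
          Real.norm_of_nonneg hz.le]
        apply St_one
        have : 2 ≤ 2 * z / (c * z) := by
          rw [le_div_iff₀ (by positivity)]
          nlinarith
        linarith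
      rw [be, h1, mul_one, hvp]
    have hdif : DifferentiableAt ℝ (fun z : ℝ => cut ε (z • e3)) y := by
      have h1 : DifferentiableAt ℝ (cut ε) (y • e3) :=
        (hcut7.differentiable (by simp)).differentiableAt
      exact h1.comp y ((differentiableAt_id).smul_const e3)
    have hd : HasDerivAt (fun z : ℝ => 1 / 2 * z + a * cut ε (z • e3))
        (1 / 2 + a * deriv (fun z : ℝ => cut ε (z • e3)) y) y := by
      have h1 : HasDerivAt (fun z : ℝ => 1 / 2 * z) (1 / 2) y := by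
        simpa using (hasDerivAt_id y).const_mul (1 / 2 : ℝ)
      exact h1.add (hdif.hasDerivAt.const_mul a)
    have hmono : MonotoneOn (fun z : ℝ => 1 / 2 * z + a * cut ε (z • e3)) (Ioi 0) := by
      intro z hz z' hz' hzz
      have h1 := be_line hCut hok hc hok.2.1 le_rfl 0 hzz
      rw [hbe z hz, hbe z' hz'] at h1
      simp only
      linarith
    have h0 : 0 ≤ 1 / 2 + a * deriv (fun z : ℝ => cut ε (z • e3)) y := by
      have h1 : Tendsto (slope (fun z : ℝ => 1 / 2 * z + a * cut ε (z • e3)) y) (𝓝[≠] y)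
          (𝓝 (1 / 2 + a * deriv (fun z : ℝ => cut ε (z • e3)) y)) :=
        hasDerivAt_iff_tendsto_slope.1 hd
      refine ge_of_tendsto h1 ?_
      filter_upwards [nhdsWithin_le_nhds (Ioi_mem_nhds hy), self_mem_nhdsWithin] with z hz hzy
      rw [slope_def_field]
      rcases lt_or_gt_of_ne hzy with h | h
      · exact div_nonneg_of_nonpos (sub_nonpos.2 (hmono hz hy h.le)) (sub_nonpos.2 h.le)
      · exact div_nonneg (sub_nonneg.2 (hmono hy hz h.le)) (sub_nonneg.2 h.le)
    linarith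

end MP_e78765_gt
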