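import Pool.Agent.Lib.MP_e78765_gt.Spec5

/-!
# Psi: the normal part of the push (MP_e78765_gt, THEOREM R4)
-/

set_option autoImplicit false

open scoped ContDiff Topology
open MeasureTheory Set Filter

namespace MP_e78765_gt

namespace Psi_aux

theorem mir2 (x : E3) : (mir x) 2 = -x 2 := rfl

theorem mir_fix {x : E3} (h : x 2 = 0) : mir x = x := by
  ext i
  fin_cases i
  · rfl
  · rfl
  · change -x 2 = x 2
    rw [h, neg_zero]

theorem vert {x : E3} (h0 : x 0 = 0) (h1 : x 1 = 0) : x = (x 2) • e3 := by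
  ext i
  fin_cases i
  · change x 0 = x 2 * 0
    rw [h0, mul_zero]
  · change x 1 = x 2 * 0
    rw [h1, mul_zero]
  · change x 2 = x 2 * 1
    rw [mul_one]

theorem mir_eq (x : E3) : mir x = x - (2 * x 2) • e3 := by
  ext i
  fin_cases i
  · change x 0 = x 0 - 2 * x 2 * 0
    ring
  · change x 1 = x 1 - 2 * x 2 * 0
    ring
  · change -x 2 = x 2 - 2 * x 2 * 1
    ring

theorem proj2_smooth : ContDiff ℝ ∞ (fun x : E3 => x 2) :=
  (EuclideanSpace.proj (2 : Fin 3) : E3 →L[ℝ] ℝ).contDiff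

theorem mir_smooth : ContDiff ℝ ∞ mir := by
  have h2 : ContDiff ℝ ∞ (fun x : E3 => x - (2 * x 2) • e3) :=
    contDiff_id.sub ((contDiff_const.mul proj2_smooth).smul contDiff_const)
  have h3 : mir = fun x : E3 => x - (2 * x 2) • e3 := funext mir_eq
  rw [h3]
  exact h2

theorem comp2 {f : ℝ → E3} {f' : E3} {t : ℝ} (h : HasDerivAt f f' t) :
    HasDerivAt (fun s => (f s) 2) (f' 2) t :=
  ((EuclideanSpace.proj (2 : Fin 3) : E3 →L[ℝ] ℝ).hasFDerivAt.comp_hasDerivAt t h)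

theorem mir_e3 : mir e3 = -e3 := by
  ext i
  fin_cases i
  · change (0 : ℝ) = -0
    rw [neg_zero]
  · change (0 : ℝ) = -0
    rw [neg_zero]
  · rfl

theorem smul_e3 {a b : ℝ} (h : a • e3 = b • e3) : a = b := by
  have h1 := congrArg (fun x : E3 => x 2) h
  have h2 : a * 1 = b * 1 := h1
  linarith

theorem inner_e3 (y : E3) : inner ℝ y e3 = y 2 := by
  simp [e3, PiLp.inner_apply, Fin.sum_univ_three]

theorem dinv_solve {y d : E3} {z : ℝ} (hy : y ≠ 0) (h : dinv y d = z • e3) :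
    d = z • (‖y‖ ^ 2 • e3 - (2 * y 2) • y) := by
  have hn : 0 < ‖y‖ := norm_pos_iff.2 hy
  have hn2 : ‖y‖ ^ 2 ≠ 0 := by positivity
  have h1 : d - (2 * inner ℝ y d / ‖y‖ ^ 2) • y = (‖y‖ ^ 2 * z) • e3 := by
    have h2 := congrArg (fun x : E3 => ‖y‖ ^ 2 • x) h
    have h3 : ‖y‖ ^ 2 • ((‖y‖ ^ 2)⁻¹ • (d - (2 * inner ℝ y d / ‖y‖ ^ 2) • y)) =
      ‖y‖ ^ 2 • (z • e3) := h2
    rwa [smul_smul, mul_inv_cancel₀ hn2, one_smul, smul_smul] at h3
  have h4 : inner ℝ y d = -(‖y‖ ^ 2 * z * y 2) := by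
    have h5 := congrArg (fun x : E3 => (inner ℝ y x : ℝ)) h1
    have h6 : inner ℝ y (d - (2 * inner ℝ y d / ‖y‖ ^ 2) • y) =
      (inner ℝ y ((‖y‖ ^ 2 * z) • e3) : ℝ) := h5
    rw [inner_sub_right, inner_smul_right, inner_smul_right, inner_e3,
      real_inner_self_eq_norm_sq, div_mul_cancel₀ _ hn2] at h6
    linarith
  have h7 : d = (‖y‖ ^ 2 * z) • e3 + (2 * inner ℝ y d / ‖y‖ ^ 2) • y := by
    rw [← h1, sub_add_cancel]
  rw [h4] at h7
  have h8 : 2 * -(‖y‖ ^ 2 * z * y 2) / ‖y‖ ^ 2 = -(z * (2 * y 2)) := by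
    field_simp
  rw [h8] at h7
  rw [h7, smul_sub, smul_smul, smul_smul, neg_smul, ← sub_eq_add_neg, mul_comm z (‖y‖ ^ 2)]

theorem nf_zero {q : E3} {g : ℝ → E3} {t k : ℝ} (hd : deriv g t ≠ 0)
    (h : deriv g t = k • VF q (g t)) : Nf q g t = 0 := by
  have hk : k ≠ 0 := by
    intro h0
    rw [h0, zero_smul] at h
    exact hd h
  have hV : VF q (g t) = k⁻¹ • deriv g t := by
    rw [h, smul_smul, inv_mul_cancel₀ hk, one_smul]
  have hn : ‖deriv g t‖ ^ 2 ≠ 0 := pow_ne_zero 2 (norm_ne_zero_iff.2 hd)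
  unfold Nf
  rw [hV, real_inner_smul_left, real_inner_self_eq_norm_sq, mul_div_cancel_right₀ _ hn, sub_self]

theorem vf_self (q : E3) : VF q q = 0 := by
  unfold VF
  rw [sub_self, norm_zero]
  simp

theorem nf_zero' {q : E3} {g : ℝ → E3} {t : ℝ} (h : g t = q) : Nf q g t = 0 := by
  unfold Nf
  rw [h, vf_self]
  simp

theorem vf_smooth (q : E3) : ContDiff ℝ ∞ (VF q) := by
  have h1 : ContDiff ℝ ∞ (fun y : E3 => y - q) := contDiff_id.sub contDiff_const
  have h2 : ContDiff ℝ ∞ (fun y : E3 => ‖y - q‖ ^ 2) := h1.norm_sq ℝ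
  have h3 : ContDiff ℝ ∞ (fun y : E3 => (y - q) 2) := proj2_smooth.comp h1
  exact (h2.smul contDiff_const).sub ((contDiff_const.mul h3).smul h1)

theorem vf_mir {q : E3} (hM : S_Mir) (hq : q 2 = 0) (y : E3) : VF q (mir y) = -mir (VF q y) := by
  obtain ⟨m1, m2, m3, m4, m5, m6, -, m8⟩ := hM
  have h1 : mir y - q = mir (y - q) := by rw [m3, mir_fix hq]
  unfold VF
  rw [h1]
  generalize y - q = z
  rw [m5, mir2, m3, m2, m2, mir_e3]
  rw [smul_neg, neg_sub, sub_neg_eq_add, mul_neg, neg_smul, sub_neg_eq_add, add_comm]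

end Psi_aux

open Psi_aux

theorem tPsi : S_Ch → S_Cut → S_Cone → S_Inv → S_Mir → S_Ps → S_Psi := by
  intro hCh hCut _ _ hMir hPs g ℓ t0 t1 ε c hS
  have hg := hS.kn
  obtain ⟨hε, -, -⟩ := hS.ok
  obtain ⟨c1, c2, c3, c4, c5, c6, c7, c8, c9, c10, c11, c12, c13, c14, -, c16⟩ := hCh g hg
  obtain ⟨-, -, -, -, -, -, -, -, l9, l10, l11, l12, -, -, -, -⟩ := hCh ℓ hS.ax.kn
  obtain ⟨-, -, -, p4, p5, p6, -⟩ := hPs ε c 1 hS.ok hS.c_pos hS.c_le
  obtain ⟨k1, -, -, k4, k5, -, k7⟩ := hCut ε hε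
  have hM := hMir
  obtain ⟨m1, m2, m3, m4, m5, m6, -, m8⟩ := hMir
  have ht0 := hS.t0_pos
  have ht01 := hS.t01
  have ht1 := hS.t1_le
  -- the coefficient
  obtain ⟨β, hβ⟩ : ∃ β : E3 → ℝ, β = fun x => cut ε x * Ang c x := ⟨_, rfl⟩
  have hps : ∀ x, ps ε c 1 x = x + β x • e3 := fun x => by
    rw [hβ]
    show x + (1 * (cut ε x * Ang c x)) • e3 = x + (cut ε x * Ang c x) • e3
    rw [one_mul]
  have b0 : ∀ x, ‖x‖ ≤ ε ∨ 1 ≤ ε * ‖x‖ ∨ |x 2| ≤ c * ‖x‖ / 2 → β x = 0 := by
    intro x hx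
    have h1 := p4 1 x hx
    rw [hps] at h1
    have h2 : β x • e3 = (0 : ℝ) • e3 := by
      rw [zero_smul]
      exact add_eq_left.1 h1
    exact smul_e3 h2
  have b1 : ∀ x, c * ‖x‖ ≤ x 2 → β x = cut ε x := by
    intro x hx
    have h1 := p5 1 x hx
    rw [hps, one_mul] at h1
    exact smul_e3 (add_left_cancel h1)
  have bm : ∀ x, β (mir x) = -β x := by
    intro x
    have h1 := p6 1 x
    rw [hps, hps, m1, m2, mir_e3] at h1
    have h2 := add_left_cancel h1
    rw [smul_neg, ← neg_smul] at h2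
    exact smul_e3 h2
  -- periodicity and symmetry
  obtain ⟨q, hq⟩ : ∃ q, q = g (1 / 2) := ⟨_, rfl⟩
  have hq2 : q 2 = 0 := by rw [hq]; exact c2
  have hgd : ∀ t, HasDerivAt g (deriv g t) t := fun t =>
    ((contDiff_infty_iff_deriv.1 hg.smooth).1 t).hasDerivAt
  have hds : ContDiff ℝ ∞ (deriv g) := (contDiff_infty_iff_deriv.1 hg.smooth).2
  have hdper : ∀ t, deriv g (t + 1) = deriv g t := by
    intro t
    rw [← deriv_comp_add_const]
    have h2 : (fun x => g (x + 1)) = g := funext hg.periodic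
    rw [h2]
  have hdsym : ∀ t, deriv g (-t) = -mir (deriv g t) := by
    intro t
    have h1 : HasDerivAt (fun s => g (-s)) ((-1 : ℝ) • deriv g (-t)) t :=
      HasDerivAt.scomp t (hgd (-t)) (hasDerivAt_neg t)
    have h2 : HasDerivAt (fun s => mir (g s)) (mir (deriv g t)) t := m8 _ _ t (hgd t)
    have h3 : (fun s => g (-s)) = fun s => mir (g s) := funext hg.sym
    rw [h3] at h1
    have h4 := h1.unique h2
    rw [neg_one_smul] at h4
    rw [← h4, neg_neg]
  have hNper : ∀ t, Nf q g (t + 1) = Nf q g t := by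
    intro t
    unfold Nf
    rw [hdper, hg.periodic]
  have hNsym : ∀ t, Nf q g (-t) = -mir (Nf q g t) := by
    intro t
    unfold Nf
    rw [hdsym, hg.sym, vf_mir hM hq2, inner_neg_neg, m6, norm_neg, m5, m3, m2, smul_neg,
      sub_neg_eq_add, neg_sub, ← sub_eq_neg_add]
  have hβper : ∀ t, β (Fc g (t + 1)) = β (Fc g t) := fun t => by rw [c10]
  have hβsym : ∀ t, β (Fc g (-t)) = -β (Fc g t) := fun t => by rw [c11, bm]
  -- the axial part
  have hFl : ∀ s, ℓ s = g s → Fc ℓ s = Fc g s := by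
    intro s hs
    unfold Fc ch ph
    rw [hs, hS.ax.zero, hS.ax.half]
  have haxis : ∀ s : ℝ, (∀ n : ℤ, s ≠ 1 / 2 + (n : ℝ)) → (Fc ℓ s) 0 = 0 ∧ (Fc ℓ s) 1 = 0 := by
    intro s hs
    have hint : ∀ (n : ℤ) (t : ℝ), Fc ℓ (t - n) = Fc ℓ t := by
      intro n t
      have h : Function.Periodic (Fc ℓ) 1 := l10
      have h1 := h.sub_int_mul_eq (x := t) n
      rwa [mul_one] at h1
    rw [← hint ⌊s⌋ s]
    have hs0 : 0 ≤ s - ⌊s⌋ := sub_nonneg.2 (Int.floor_le s)
    have hs1 : s - ⌊s⌋ < 1 := by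
      have := Int.lt_floor_add_one s
      linarith
    rcases hs0.eq_or_lt with h | h
    · rw [← h, l12]
      exact ⟨rfl, rfl⟩
    · rcases lt_trichotomy (s - ⌊s⌋) (1 / 2) with h2 | h2 | h2
      · exact hS.ax.axis _ ⟨h, h2⟩
      · exact (hs ⌊s⌋ (by linarith)).elim
      · have h3 := hS.ax.axis (1 - (s - ⌊s⌋)) ⟨by linarith, by linarith⟩
        have h4 : Fc ℓ (s - ⌊s⌋) = mir (Fc ℓ (1 - (s - ⌊s⌋))) := by
          rw [← l11]
          have h5 := l10 (s - ⌊s⌋ - 1)
          rw [sub_add_cancel] at h5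
          rw [h5]
          congr 1
          ring
        rw [h4]
        exact h3
  have hNax : ∀ t, (∀ᶠ s in 𝓝 t, ℓ s = g s) → Nf q g t = 0 := by
    intro t ht
    by_cases h0 : g t = q
    · exact nf_zero' h0
    · have h0' : g t ≠ g (1 / 2) := by rw [← hq]; exact h0
      obtain ⟨hF, hF1, hF2⟩ := c9 t h0'
      have hne : ∀ᶠ s in 𝓝 t, g s ≠ g (1 / 2) :=
        hg.smooth.continuous.continuousAt.eventually_ne h0'
      have hev : Fc g =ᶠ[𝓝 t] fun s => ((Fc g s) 2) • e3 := by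
        filter_upwards [ht, hne] with s hs1 hs2
        have h1 := haxis s (fun n hn => hs2 ((c5 s).2 ⟨n, hn⟩))
        rw [hFl s hs1] at h1
        exact vert h1.1 h1.2
      have hz : HasDerivAt (fun s => (Fc g s) 2) ((deriv (Fc g) t) 2) t :=
        comp2 (hF.differentiableAt (by simp)).hasDerivAt
      have h1 : HasDerivAt (Fc g) (((deriv (Fc g) t) 2) • e3) t :=
        (hz.smul_const e3).congr_of_eventuallyEq hev
      have h2 : deriv (Fc g) t = ((deriv (Fc g) t) 2) • e3 := h1.deriv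
      rw [hF1] at h2
      have h3 := dinv_solve (sub_ne_zero.2 h0') h2
      rw [← hq] at h3
      exact nf_zero (hg.regular t) h3
  have hN0 : ∀ t, |t| < t1 → Nf q g t = 0 := by
    intro t ht
    refine hNax t ?_
    have h1 : ∀ᶠ s in 𝓝 t, |s| < t1 := (continuous_abs.tendsto t).eventually (gt_mem_nhds ht)
    filter_upwards [h1] with s hs
    exact hS.near0 s hs
  have hN2 : ∀ t, |t - 1 / 2| < t1 → Nf q g t = 0 := by
    intro t ht
    refine hNax t ?_
    have h1 : ∀ᶠ s in 𝓝 t, |s - 1 / 2| < t1 :=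
      (((continuous_id.sub continuous_const).abs).tendsto t).eventually (gt_mem_nhds ht)
    filter_upwards [h1] with s hs
    exact hS.near2 s hs
  -- the field as a multiple of the normal part
  have hup : ∀ t ∈ Icc t0 (1 / 2 - t0), β (Fc g t) = 1 := by
    intro t ht
    have h1 : t ∈ Ioo (0 : ℝ) (1 / 2) := ⟨by linarith [ht.1], by linarith [ht.2]⟩
    rw [b1 _ (hS.cone t h1)]
    exact k4 _ (hS.inner t ht) (hS.outer t ht)
  have hsin : ∀ t ∈ Ioo (0 : ℝ) (1 / 2), 0 < Real.sin (2 * Real.pi * t) := by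
    intro t ht
    refine Real.sin_pos_of_pos_of_lt_pi ?_ ?_
    · have := Real.pi_pos
      have := ht.1
      positivity
    · have := Real.pi_pos
      nlinarith [ht.2]
  have hsgnper : ∀ t, sgn (t + 1) = sgn t := by
    intro t
    unfold sgn
    have h1 : 2 * Real.pi * (t + 1) = 2 * Real.pi * t + 2 * Real.pi := by ring
    rw [h1, Real.sin_add_two_pi]
  have hPsiper : ∀ t, Psi g (t + 1) = Psi g t := by
    intro t
    unfold Psi
    rw [← hq, hNper, hsgnper]
  have hmain0 : ∀ t, -(1 / 2) ≤ t → t < 1 / 2 → Psi g t = β (Fc g t) • Nf q g t := by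
    intro t h1 h2
    have hP : Psi g t = sgn t • Nf q g t := by
      unfold Psi
      rw [← hq]
    by_cases a1 : |t| < t1
    · rw [hP, hN0 t a1, smul_zero, smul_zero]
    by_cases a2 : |t - 1 / 2| < t1
    · rw [hP, hN2 t a2, smul_zero, smul_zero]
    by_cases a3 : |t + 1 - 1 / 2| < t1
    · have h3 := hN2 (t + 1) a3
      rw [hNper] at h3
      rw [hP, h3, smul_zero, smul_zero]
    push Not at a1 a2 a3
    rcases le_total 0 t with h3 | h3
    · rw [abs_of_nonneg h3] at a1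
      rw [abs_of_nonpos (by linarith)] at a2
      have h4 : sgn t = 1 := by
        unfold sgn
        exact if_pos (hsin t ⟨by linarith, h2⟩)
      rw [hP, h4, hup t ⟨by linarith, by linarith⟩]
    · rw [abs_of_nonpos h3] at a1
      rw [abs_of_nonneg (by linarith)] at a3
      have h4 : sgn t = -1 := by
        unfold sgn
        refine if_neg ?_
        have h5 := hsin (-t) ⟨by linarith, by linarith⟩
        rw [mul_neg, Real.sin_neg] at h5
        linarith
      have h5 := hβsym t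
      rw [hup (-t) ⟨by linarith, by linarith⟩] at h5
      have h6 : β (Fc g t) = -1 := by linarith
      rw [hP, h4, h6]
  have hmain : ∀ t, Psi g t = β (Fc g t) • Nf q g t := by
    intro t
    have e1 : Function.Periodic (fun s => Psi g s) 1 := hPsiper
    have e2 : Function.Periodic (fun s => β (Fc g s) • Nf q g s) 1 := fun s => by
      show β (Fc g (s + 1)) • Nf q g (s + 1) = β (Fc g s) • Nf q g s
      rw [hβper, hNper]
    have f1 := e1.sub_int_mul_eq (x := t) ⌊t + 1 / 2⌋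
    have f2 := e2.sub_int_mul_eq (x := t) ⌊t + 1 / 2⌋
    simp only [mul_one] at f1 f2
    rw [← f1, ← f2]
    have g1 := Int.floor_le (t + 1 / 2)
    have g2 := Int.lt_floor_add_one (t + 1 / 2)
    exact hmain0 _ (by linarith) (by linarith)
  -- smoothness of the push field
  obtain ⟨V, hV⟩ : ∃ V : ℝ → E3, V = fun t => VF q (g t) := ⟨_, rfl⟩
  have hVs : ContDiff ℝ ∞ V := by
    rw [hV]
    exact (vf_smooth q).comp hg.smooth
  obtain ⟨X, hX⟩ : ∃ X : ℝ → E3, X = fun t => β (Fc g t) • V t := ⟨_, rfl⟩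
  have hXX : ∀ t, Xf ε c g t = X t := by
    intro t
    rw [hX, hV, hβ, hq]
    rfl
  have hVper : ∀ t, V (t + 1) = V t := fun t => by
    rw [hV]
    show VF q (g (t + 1)) = VF q (g t)
    rw [hg.periodic]
  have hVsym : ∀ t, V (-t) = -mir (V t) := fun t => by
    rw [hV]
    show VF q (g (-t)) = -mir (VF q (g t))
    rw [hg.sym, vf_mir hM hq2]
  have hXper : ∀ t, X (t + 1) = X t := fun t => by
    rw [hX]
    show β (Fc g (t + 1)) • V (t + 1) = β (Fc g t) • V t
    rw [hβper, hVper]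
  have hXsym : ∀ t, X (-t) = mir (X t) := fun t => by
    rw [hX]
    show β (Fc g (-t)) • V (-t) = mir (β (Fc g t) • V t)
    rw [hβsym, hVsym, neg_smul_neg, m2]
  have hg0 : g 0 ≠ g (1 / 2) := by
    intro h
    obtain ⟨n, hn⟩ := (c5 0).1 h
    have h1 : (2 * n + 1 : ℝ) = 0 := by linarith
    have h2 : (2 * n + 1 : ℤ) = 0 := by exact_mod_cast h1
    omega
  have hX0 : ContDiffAt ℝ ∞ X 0 := by
    have h3 : X =ᶠ[𝓝 0] fun _ => (0 : E3) := by
      have hc : ContinuousAt (Fc g) 0 := (c9 0 hg0).1.continuousAt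
      have h1 : ∀ᶠ t in 𝓝 (0 : ℝ), ‖Fc g t‖ < ε := by
        have h2 : Tendsto (fun t => ‖Fc g t‖) (𝓝 0) (𝓝 ‖Fc g 0‖) := hc.norm
        rw [c12, norm_zero] at h2
        exact h2.eventually (gt_mem_nhds hε)
      filter_upwards [h1] with t h4
      rw [hX]
      show β (Fc g t) • V t = 0
      rw [b0 _ (Or.inl h4.le), zero_smul]
    exact contDiffAt_const.congr_of_eventuallyEq h3
  have hX2 : ContDiffAt ℝ ∞ X (1 / 2) := by
    have h3 : X =ᶠ[𝓝 (1 / 2)] fun _ => (0 : E3) := by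
      have h1 : ∀ᶠ t in 𝓝[≠] (1 / 2 : ℝ), 1 / ε ≤ ‖Fc g t‖ :=
        c16.eventually (eventually_ge_atTop _)
      rw [eventually_nhdsWithin_iff] at h1
      filter_upwards [h1] with t h2
      rw [hX]
      show β (Fc g t) • V t = 0
      by_cases ht : t = 1 / 2
      · have h4 : V t = 0 := by
          rw [hV]
          show VF q (g t) = 0
          rw [ht, ← hq, vf_self]
        rw [h4, smul_zero]
      · have h4 := h2 ht
        rw [div_le_iff₀ hε] at h4
        rw [b0 _ (Or.inr (Or.inl (by rwa [mul_comm]))), zero_smul]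
    exact contDiffAt_const.congr_of_eventuallyEq h3
  have hX1 : ∀ t ∈ Ioo (0 : ℝ) (1 / 2), ContDiffAt ℝ ∞ X t := by
    intro t ht
    have hne : g t ≠ g (1 / 2) := by
      intro h
      have h2 := hg.pos t ht
      rw [h, c2] at h2
      exact lt_irrefl _ h2
    have hIoo : ∀ᶠ s in 𝓝 t, s ∈ Ioo (0 : ℝ) (1 / 2) := Ioo_mem_nhds ht.1 ht.2
    have hev : X =ᶠ[𝓝 t] fun s => cut ε (Fc g s) • V s := by
      filter_upwards [hIoo] with s hs
      rw [hX]
      show β (Fc g s) • V s = cut ε (Fc g s) • V s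
      rw [b1 _ (hS.cone s hs)]
    have h1 : ContDiffAt ℝ ∞ (fun s => cut ε (Fc g s)) t := k7.contDiffAt.comp t (c9 t hne).1
    exact (h1.smul hVs.contDiffAt).congr_of_eventuallyEq hev
  have hXs : ContDiff ℝ ∞ X := by
    rw [contDiff_iff_contDiffAt]
    have hshift : ∀ (n : ℤ) (t : ℝ), ContDiffAt ℝ ∞ X (t - n) → ContDiffAt ℝ ∞ X t := by
      intro n t h1
      have he : X = fun s => X (s - n) := by
        funext s
        have h : Function.Periodic X 1 := hXper
        have h1 := h.sub_int_mul_eq (x := s) n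
        rw [mul_one] at h1
        rw [h1]
      rw [he]
      exact ContDiffAt.comp t (f := fun s : ℝ => s - (n : ℝ)) h1 (contDiffAt_id.sub contDiffAt_const)
    have hmirr : ∀ t, ContDiffAt ℝ ∞ X (-t) → ContDiffAt ℝ ∞ X t := by
      intro t h1
      have he : X = fun s => mir (X (-s)) := by
        funext s
        rw [hXsym, m4]
      rw [he]
      have h3 : ContDiffAt ℝ ∞ (fun s => X (-s)) t :=
        ContDiffAt.comp t (f := fun s : ℝ => -s) h1 contDiffAt_id.neg
      exact mir_smooth.contDiffAt.comp t h3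
    intro t
    refine hshift ⌊t⌋ t ?_
    have hs0 : 0 ≤ t - ⌊t⌋ := sub_nonneg.2 (Int.floor_le t)
    have hs1 : t - ⌊t⌋ < 1 := by
      have := Int.lt_floor_add_one t
      linarith
    rcases hs0.eq_or_lt with h | h
    · rw [← h]
      exact hX0
    · rcases lt_trichotomy (t - ⌊t⌋) (1 / 2) with h2 | h2 | h2
      · exact hX1 _ ⟨h, h2⟩
      · rw [h2]
        exact hX2
      · refine hshift 1 _ (hmirr _ (hX1 _ ⟨?_, ?_⟩))
        · push_cast
          linarith
        · push_cast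
          linarith
  -- the tangential part
  obtain ⟨τ, hτ⟩ : ∃ τ : ℝ → ℝ, τ = fun t => inner ℝ (X t) (deriv g t) / ‖deriv g t‖ ^ 2 := ⟨_, rfl⟩
  have hτs : ContDiff ℝ ∞ τ := by
    rw [hτ]
    exact (hXs.inner ℝ hds).div (hds.norm_sq ℝ) (fun t => pow_ne_zero 2 (norm_ne_zero_iff.2 (hg.regular t)))
  have hτper : ∀ t, τ (t + 1) = τ t := by
    intro t
    rw [hτ]
    show inner ℝ (X (t + 1)) (deriv g (t + 1)) / ‖deriv g (t + 1)‖ ^ 2 =
      inner ℝ (X t) (deriv g t) / ‖deriv g t‖ ^ 2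
    rw [hXper, hdper]
  have hdec : ∀ t, X t = Psi g t + τ t • deriv g t := by
    intro t
    rw [hmain t, hτ, hX]
    show β (Fc g t) • V t = β (Fc g t) • Nf q g t +
      (inner ℝ (β (Fc g t) • V t) (deriv g t) / ‖deriv g t‖ ^ 2) • deriv g t
    have h1 : V t = Nf q g t + (inner ℝ (V t) (deriv g t) / ‖deriv g t‖ ^ 2) • deriv g t := by
      rw [hV]
      unfold Nf
      rw [sub_add_cancel]
    rw [real_inner_smul_left, mul_div_assoc, ← smul_smul, ← smul_add, ← h1]
  refine ⟨?_, hPsiper, ?_, ?_, ?_, τ, hτs, hτper, fun t => ?_⟩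
  · have h1 : Psi g = fun t => X t - τ t • deriv g t := by
      funext t
      rw [hdec t, add_sub_cancel_right]
    rw [h1]
    exact hXs.sub (hτs.smul hds)
  · intro t
    rw [hmain, hmain, hβsym, hNsym, neg_smul_neg, m2]
  · intro t ht
    rw [hmain, hN0 t ht, smul_zero]
  · intro t ht
    rw [hmain, hN2 t ht, smul_zero]
  · rw [hXX]
    exact hdec t

end MP_e78765_gt
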