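import Pool.Agent.Lib.MP_e78765_gt.Spec

set_option autoImplicit false

/-! `Q` is bounded and integrable along a knot. -/

open scoped ContDiff Topology
open MeasureTheory Set Filter

namespace MP_e78765_gt

namespace QB_aux

lemma qf_self (x a b : E3) : qf x a x b = 0 := by
  unfold qf
  rw [sub_self, norm_zero]
  simp

lemma qf_nonneg (x a y b : E3) : 0 ≤ qf x a y b := by
  by_cases hd : x = y
  · rw [hd, qf_self]
  have hN : 0 < ‖x - y‖ := norm_pos_iff.2 (sub_ne_zero.2 hd)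
  have hR : ‖a - (2 * inner ℝ (x - y) a / ‖x - y‖ ^ 2) • (x - y)‖ = ‖a‖ := by
    have h1 : ‖a - (2 * inner ℝ (x - y) a / ‖x - y‖ ^ 2) • (x - y)‖ ^ 2 = ‖a‖ ^ 2 := by
      rw [norm_sub_sq_real, inner_smul_right, norm_smul, mul_pow, Real.norm_eq_abs, sq_abs,
        real_inner_comm (x - y) a]
      field_simp
      ring
    exact (sq_eq_sq₀ (norm_nonneg _) (norm_nonneg _)).1 h1
  have h2 := abs_real_inner_le_norm (a - (2 * inner ℝ (x - y) a / ‖x - y‖ ^ 2) • (x - y)) b
  rw [hR, inner_sub_left, inner_smul_left] at h2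
  have h3 := (abs_le.1 h2).1
  unfold qf
  refine div_nonneg ?_ (by positivity)
  have h4 : (starRingEnd ℝ) (2 * inner ℝ (x - y) a / ‖x - y‖ ^ 2) * inner ℝ (x - y) b =
      2 * inner ℝ (x - y) a * inner ℝ (x - y) b / ‖x - y‖ ^ 2 := by
    simp only [conj_trivial]
    ring
  rw [h4] at h3
  linarith

lemma per {r : ℝ → E3} (hr : IsKnot r) (n : ℤ) (t : ℝ) :
    r (t + n) = r t ∧ deriv r (t + n) = deriv r t := by
  have h1 : Function.Periodic r 1 := hr.periodic
  have h2 : Function.Periodic r (n * 1) := h1.int_mul n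
  have h3 : ∀ x, r (x + n) = r x := by
    intro x
    have := h2 x
    rwa [mul_one] at this
  refine ⟨h3 t, ?_⟩
  have h4 : deriv (fun x => r (x + n)) t = deriv r (t + n) := deriv_comp_add_const r (n : ℝ) t
  rw [← h4, funext h3]

lemma resc (x d : E3) {δ : ℝ} (h : δ ≠ 0) : d - δ⁻¹ • x = (-δ⁻¹) • (x - δ • d) := by
  rw [smul_sub, smul_smul, neg_mul, inv_mul_cancel₀ h, neg_smul, neg_smul, one_smul]
  abel

end QB_aux

open QB_aux

theorem tQB : S_Mu → S_Bd → S_QB := by
  intro hMu hBd r hr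
  obtain ⟨⟨m, M, K, hm, hM, hK, hlow, hup, -, htay, -⟩, hch⟩ := hBd r hr
  obtain ⟨c, hc, hcb⟩ := hch (1 / 2) (by norm_num)
  have hbound : ∀ s t, Q r s t ≤ 8 * K ^ 2 * (M / m) / c ^ 2 := by
    intro s t
    have hn := abs_sub_round (s - t)
    set n : ℤ := round (s - t) with hndef
    obtain ⟨hs1, hs2⟩ := per hr (-n) s
    obtain ⟨s', hs'⟩ : ∃ s', s' = s + ((-n : ℤ) : ℝ) := ⟨_, rfl⟩
    rw [← hs'] at hs1 hs2
    have hQ : Q r s t = Q r s' t := by
      unfold Q
      rw [hs1, hs2]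
    have hd : |s' - t| ≤ 1 / 2 := by
      rw [hs']
      push_cast
      have : s + -(n : ℝ) - t = s - t - n := by ring
      rwa [this]
    rw [hQ]
    have hpos : 0 ≤ 8 * K ^ 2 * (M / m) / c ^ 2 := by positivity
    by_cases hst : s' = t
    · rw [hst]
      unfold Q
      rw [qf_self]
      exact hpos
    have hδ : 0 < |s' - t| := abs_pos.2 (sub_ne_zero.2 hst)
    have hne : s' - t ≠ 0 := sub_ne_zero.2 hst
    have h1 := hMu (r s') (deriv r s') (r t) (deriv r t) (s' - t)⁻¹ (s' - t)⁻¹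
      (mul_self_nonneg _)
    have hb : ‖deriv r t - (s' - t)⁻¹ • (r s' - r t)‖ ≤ K * |s' - t| := by
      rw [resc _ _ hne, norm_smul, norm_neg, norm_inv, Real.norm_eq_abs]
      have e2 := htay s' t
      rw [← sq_abs (s' - t)] at e2
      calc |s' - t|⁻¹ * ‖r s' - r t - (s' - t) • deriv r t‖
          ≤ |s' - t|⁻¹ * (K * |s' - t| ^ 2) :=
            mul_le_mul_of_nonneg_left e2 (inv_nonneg.2 hδ.le)
        _ = K * |s' - t| := by
            field_simp
    have ha : ‖deriv r s' - (s' - t)⁻¹ • (r s' - r t)‖ ≤ K * |s' - t| := by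
      have e1 : r s' - r t - (s' - t) • deriv r s' =
          -(r t - r s' - (t - s') • deriv r s') := by
        rw [← neg_sub s' t, neg_smul]
        abel
      rw [resc _ _ hne, norm_smul, norm_neg, norm_inv, Real.norm_eq_abs, e1, norm_neg]
      have e2 := htay t s'
      rw [← sq_abs (t - s'), abs_sub_comm t s'] at e2
      calc |s' - t|⁻¹ * ‖r t - r s' - (t - s') • deriv r s'‖
          ≤ |s' - t|⁻¹ * (K * |s' - t| ^ 2) :=
            mul_le_mul_of_nonneg_left e2 (inv_nonneg.2 hδ.le)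
        _ = K * |s' - t| := by
            field_simp
    have hrat : ∀ u v, ‖deriv r u‖ / ‖deriv r v‖ ≤ M / m := by
      intro u v
      exact div_le_div₀ hM.le (hup u) hm (hlow v)
    have hN : c * |s' - t| ≤ ‖r s' - r t‖ := hcb s' t hd
    have hNpos : 0 < c * |s' - t| := mul_pos hc hδ
    unfold Q
    refine h1.trans ?_
    have hA : ‖deriv r s' - (s' - t)⁻¹ • (r s' - r t)‖ ^ 2 * (‖deriv r t‖ / ‖deriv r s'‖) ≤
        (K * |s' - t|) ^ 2 * (M / m) :=
      mul_le_mul (pow_le_pow_left₀ (norm_nonneg _) ha 2) (hrat _ _) (by positivity) (by positivity)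
    have hB : ‖deriv r t - (s' - t)⁻¹ • (r s' - r t)‖ ^ 2 * (‖deriv r s'‖ / ‖deriv r t‖) ≤
        (K * |s' - t|) ^ 2 * (M / m) :=
      mul_le_mul (pow_le_pow_left₀ (norm_nonneg _) hb 2) (hrat _ _) (by positivity) (by positivity)
    calc 4 * (‖deriv r s' - (s' - t)⁻¹ • (r s' - r t)‖ ^ 2 * (‖deriv r t‖ / ‖deriv r s'‖) +
          ‖deriv r t - (s' - t)⁻¹ • (r s' - r t)‖ ^ 2 * (‖deriv r s'‖ / ‖deriv r t‖)) /
          ‖r s' - r t‖ ^ 2
        ≤ 4 * ((K * |s' - t|) ^ 2 * (M / m) + (K * |s' - t|) ^ 2 * (M / m)) /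
          (c * |s' - t|) ^ 2 := by
          refine div_le_div₀ (by positivity) ?_ (by positivity) (pow_le_pow_left₀ hNpos.le hN 2)
          linarith
      _ = 8 * K ^ 2 * (M / m) / c ^ 2 := by
          field_simp
          ring
  have hmeas : Measurable (fun z : ℝ × ℝ => Q r z.1 z.2) := by
    have hr0 : Continuous r := hr.smooth.continuous
    have hr1 : Continuous (deriv r) := hr.smooth.continuous_deriv (by simp)
    unfold Q qf
    have c1 : Continuous (fun z : ℝ × ℝ => ‖r z.1 - r z.2‖ ^ 2) := by fun_prop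
    have c2 : Continuous (fun z : ℝ × ℝ => ‖deriv r z.1‖ * ‖deriv r z.2‖ +
      inner ℝ (deriv r z.1) (deriv r z.2)) := by fun_prop
    have c3 : Continuous (fun z : ℝ × ℝ => 2 * inner ℝ (r z.1 - r z.2) (deriv r z.1) *
      inner ℝ (r z.1 - r z.2) (deriv r z.2)) := by fun_prop
    exact (c2.measurable.sub (c3.measurable.div c1.measurable)).div c1.measurable
  refine ⟨⟨_, hbound⟩, hmeas, ?_⟩
  have hfin : (volume : Measure (ℝ × ℝ)) (Ioo (0 : ℝ) 1 ×ˢ Ioo (0 : ℝ) 1) ≠ ⊤ := by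
    rw [Measure.volume_eq_prod, Measure.prod_prod, Real.volume_Ioo]
    exact ENNReal.mul_ne_top ENNReal.ofReal_ne_top ENNReal.ofReal_ne_top
  refine Measure.integrableOn_of_bounded hfin hmeas.aestronglyMeasurable
    (M := 8 * K ^ 2 * (M / m) / c ^ 2) (Eventually.of_forall fun z => ?_)
  have h0 : 0 ≤ Q r z.1 z.2 := qf_nonneg _ _ _ _
  rw [Real.norm_of_nonneg h0]
  exact hbound _ _

end MP_e78765_gt
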