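import Pool.Agent.Lib.MP_e78765_gt.Spec5

/-! THEOREM R4 for spheres from the case of planes (MP_e78765_gt, part IV). -/

open scoped ContDiff Topology
open MeasureTheory Set Filter

namespace MP_e78765_gt

namespace R4S_aux

/-- The range of a knot is bounded. -/
theorem bdd (r : ℝ → E3) (hr : IsKnot r) (o : E3) : ∃ B : ℝ, 0 < B ∧ ∀ t, ‖r t - o‖ ≤ B := by
  have hc : Continuous fun t => ‖r t - o‖ := (hr.smooth.continuous.sub continuous_const).norm
  obtain ⟨B, hB⟩ := (isCompact_Icc (a := (0 : ℝ)) (b := 1)).bddAbove_image hc.continuousOn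
  refine ⟨max B 1, by positivity, fun t => ?_⟩
  have hp : Function.Periodic r 1 := hr.periodic
  obtain ⟨y, hy, hty⟩ := hp.exists_mem_Ico₀ one_pos t
  rw [hty]
  exact (hB ⟨y, ⟨hy.1, hy.2.le⟩, rfl⟩).trans (le_max_left _ _)

theorem norm_invS (o : E3) (R : ℝ) (x : E3) (hx : x ≠ o) : ‖invS o R x - o‖ = R ^ 2 / ‖x - o‖ := by
  have h : ‖x - o‖ ≠ 0 := norm_ne_zero_iff.mpr (sub_ne_zero.mpr hx)
  rw [invS, add_sub_cancel_left, norm_smul, Real.norm_eq_abs, abs_of_nonneg (by positivity)]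
  field_simp

/-- The centre of the sphere is not on the knot. -/
theorem notmem (r : ℝ → E3) (o : E3) (R : ℝ) (hR : 0 < R) (hr : IsKnot r)
    (hs : invS o R '' range r = range r) : ∀ t, r t ≠ o := by
  intro t0 ht0
  obtain ⟨B, hB, hb⟩ := bdd r hr o
  have hc : Tendsto (fun t => ‖r t - o‖) (𝓝[≠] t0) (𝓝 0) := by
    have h1 : Continuous fun t => ‖r t - o‖ := (hr.smooth.continuous.sub continuous_const).norm
    have h2 := (h1.tendsto t0).mono_left (nhdsWithin_le_nhds (s := {t0}ᶜ))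
    simpa [ht0] using h2
  have h1 : ∀ᶠ t in 𝓝[≠] t0, ‖r t - o‖ < R ^ 2 / B := hc.eventually_lt_const (by positivity)
  have h2 : ∀ᶠ t in 𝓝[≠] t0, |t - t0| < 1 := by
    have : ∀ᶠ t in 𝓝 t0, |t - t0| < 1 := by
      filter_upwards [Metric.ball_mem_nhds t0 one_pos] with t ht
      rwa [Metric.mem_ball, Real.dist_eq] at ht
    exact this.filter_mono nhdsWithin_le_nhds
  obtain ⟨t, ⟨h3, h4⟩, h5⟩ := ((h1.and h2).and self_mem_nhdsWithin).exists
  have h6 : r t ≠ o := by
    rw [← ht0]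
    intro h
    obtain ⟨n, hn⟩ := hr.inj t t0 h
    have h7 : |(n : ℝ)| < 1 := by
      have : (n : ℝ) = -(t - t0) := by rw [hn]; ring
      rw [this, abs_neg]
      exact h4
    have h8 : n = 0 := by
      have h9 : |n| < 1 := by exact_mod_cast h7
      exact Int.abs_lt_one_iff.mp h9
    rw [h8] at hn
    exact h5 (by simpa using hn.symm)
  have h7 : invS o R (r t) ∈ range r := by
    rw [← hs]
    exact mem_image_of_mem _ (mem_range_self t)
  obtain ⟨t', ht'⟩ := h7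
  have h8 := hb t'
  rw [ht', norm_invS o R _ h6] at h8
  have h9 : 0 < ‖r t - o‖ := norm_pos_iff.mpr (sub_ne_zero.mpr h6)
  rw [div_le_iff₀ h9] at h8
  rw [lt_div_iff₀ hB] at h3
  linarith

theorem sphere_point (S : Set E3) (o : E3) (R : ℝ) (hR : 0 < R)
    (h : ({x ∈ S | ‖x - o‖ = R}).ncard = 2) : ∃ c, ‖c - o‖ = R ∧ c ∉ S := by
  by_contra hcon
  push Not at hcon
  have hfin : ({x ∈ S | ‖x - o‖ = R}).Finite := Set.finite_of_ncard_ne_zero (by rw [h]; norm_num)
  have hinj : Function.Injective (fun i : Fin 3 => o + R • EuclideanSpace.single i (1 : ℝ)) := by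
    intro i j hij
    by_contra hne
    have h1 := congrArg (fun x : E3 => x i) (add_left_cancel hij)
    simp [hne, hR.ne'] at h1
  have h1 : (Set.range fun i : Fin 3 => o + R • EuclideanSpace.single i (1 : ℝ)) ⊆
      {x ∈ S | ‖x - o‖ = R} := by
    rintro _ ⟨i, rfl⟩
    have h2 : ‖(o + R • EuclideanSpace.single i (1 : ℝ)) - o‖ = R := by
      rw [add_sub_cancel_left, norm_smul, PiLp.norm_single, norm_one, mul_one,
        Real.norm_eq_abs, abs_of_pos hR]
    exact ⟨hcon _ h2, h2⟩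
  have h2 := Set.ncard_le_ncard h1 hfin
  rw [h, ← Set.image_univ, Set.ncard_image_of_injective _ hinj, Set.ncard_univ] at h2
  simp at h2

end R4S_aux

open R4S_aux in
theorem tR4S : S_R4G → S_CrM → S_SpP → S_CI → S_Inv → S_R4S := by
  intro hG hM hP hC hI r o R hR hr hcr hs hcard
  obtain ⟨i1, i2, -⟩ := hI
  have ho := notmem r o R hR hr hs
  obtain ⟨c, hc, hcS⟩ := sphere_point (range r) o R hR hcard
  have hc' : ∀ t, r t ≠ c := fun t h => hcS ⟨t, h⟩
  obtain ⟨hk, hcrit⟩ := hM r c hr hc'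
  obtain ⟨hn, hp1, hp2⟩ := hP o c R hR hc
  set n : E3 := R⁻¹ • (o - c)
  set u : ℝ → E3 := fun t => inv (r t - c) with hu
  have hsym : IsSymKnot n (1 / (2 * R)) u := by
    refine ⟨hk, ?_, ?_⟩
    · ext y
      constructor
      · rintro ⟨_, ⟨t, rfl⟩, rfl⟩
        have h1 : invS o R (r t) ∈ range r := by
          rw [← hs]
          exact mem_image_of_mem _ (mem_range_self t)
        obtain ⟨t', ht'⟩ := h1
        refine ⟨t', ?_⟩
        rw [hu]
        simp only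
        rw [ht']
        exact (hp2 (r t) (hc' t) (ho t)).2
      · rintro ⟨t, rfl⟩
        have h1 : r t ∈ invS o R '' range r := by
          rw [hs]
          exact mem_range_self t
        obtain ⟨_, ⟨t', rfl⟩, ht'⟩ := h1
        refine ⟨u t', ⟨t', rfl⟩, ?_⟩
        rw [hu]
        simp only
        rw [← ht']
        exact (hp2 (r t') (hc' t') (ho t')).2.symm
    · have h1 : {x ∈ range u | inner ℝ x n = 1 / (2 * R)} =
          (fun x => inv (x - c)) '' {x ∈ range r | ‖x - o‖ = R} := by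
        ext y
        constructor
        · rintro ⟨⟨t, rfl⟩, h2⟩
          exact ⟨r t, ⟨⟨t, rfl⟩, (hp1 (r t) (hc' t)).mpr h2⟩, rfl⟩
        · rintro ⟨_, ⟨⟨t, rfl⟩, h2⟩, rfl⟩
          exact ⟨⟨t, rfl⟩, (hp1 (r t) (hc' t)).mp h2⟩
      rw [h1, Set.InjOn.ncard_image, hcard]
      rintro x ⟨⟨t, rfl⟩, -⟩ y ⟨⟨t', rfl⟩, -⟩ hxy
      have h2 : inv (inv (r t - c)) = inv (inv (r t' - c)) := congrArg inv hxy
      rw [i2 _ (sub_ne_zero.mpr (hc' t)), i2 _ (sub_ne_zero.mpr (hc' t'))] at h2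
      exact sub_left_injective h2
  have hround := hG u n (1 / (2 * R)) hn hsym (hcrit hcr)
  have h0 : (0 : E3) ∉ range u := by
    rintro ⟨t, ht⟩
    exact i1 _ (sub_ne_zero.mpr (hc' t)) ht
  obtain ⟨z, a, b, h1, h2, h3, h4⟩ := hC _ hround h0
  refine ⟨z + c, a, b, h1, h2, h3, ?_⟩
  have h5 : inv '' range u = (fun x => x - c) '' range r := by
    ext y
    constructor
    · rintro ⟨_, ⟨t, rfl⟩, rfl⟩
      exact ⟨r t, ⟨t, rfl⟩, (i2 _ (sub_ne_zero.mpr (hc' t))).symm⟩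
    · rintro ⟨_, ⟨t, rfl⟩, rfl⟩
      exact ⟨u t, ⟨t, rfl⟩, i2 _ (sub_ne_zero.mpr (hc' t))⟩
  rw [h5] at h4
  ext x
  constructor
  · intro hx
    have h6 : x - c ∈ range fun θ : ℝ => z + Real.cos θ • a + Real.sin θ • b := by
      rw [← h4]
      exact ⟨x, hx, rfl⟩
    obtain ⟨θ, hθ⟩ := h6
    refine ⟨θ, ?_⟩
    simp only at hθ ⊢
    have h7 := sub_eq_iff_eq_add.mp hθ.symm
    rw [h7]
    abel
  · rintro ⟨θ, rfl⟩
    have h6 : z + Real.cos θ • a + Real.sin θ • b ∈ (fun x => x - c) '' range r := by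
      rw [h4]
      exact ⟨θ, rfl⟩
    obtain ⟨y, hy, hy2⟩ := h6
    have h7 : z + c + Real.cos θ • a + Real.sin θ • b = y := by
      have h8 := sub_eq_iff_eq_add.mp hy2
      rw [h8]
      abel
    simp only
    rw [h7]
    exact hy

end MP_e78765_gt
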