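import Pool.Agent.Lib.MP_e78765_gt.Spec

/-!
# THEOREM R (MP_e78765_gt): reflection positivity of two curves
-/

set_option autoImplicit false

open scoped ContDiff Topology
open MeasureTheory Set Filter

namespace MP_e78765_gt

private theorem phi_cont : Continuous (fun p : (ℂ × ℂ) × E3 => phi p.1 p.2) := by
  unfold phi
  have hc : Continuous (fun z : ℂ => (starRingEnd ℂ) z) := Complex.continuous_conj
  have h1 : Continuous (fun p : (ℂ × ℂ) × E3 => (starRingEnd ℂ) p.1.1 * p.1.2) :=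
    (hc.comp (continuous_fst.comp continuous_fst)).mul (continuous_snd.comp continuous_fst)
  have h2 : Continuous (fun p : (ℂ × ℂ) × E3 => ((starRingEnd ℂ) p.1.1 * p.1.2).re) :=
    Complex.continuous_re.comp h1
  have h3 : Continuous (fun p : (ℂ × ℂ) × E3 => ((starRingEnd ℂ) p.1.1 * p.1.2).im) :=
    Complex.continuous_im.comp h1
  have hx : ∀ i : Fin 3, Continuous (fun p : (ℂ × ℂ) × E3 => p.2 i) := fun i => by fun_prop
  have h4 : Continuous (fun p : (ℂ × ℂ) × E3 => p.2 2 * (‖p.1.1‖ ^ 2 + ‖p.1.2‖ ^ 2)) :=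
    (hx 2).mul (by fun_prop)
  have h5 : Continuous (fun p : (ℂ × ℂ) × E3 => 2 * p.2 0 * ((starRingEnd ℂ) p.1.1 * p.1.2).re
      + 2 * p.2 1 * ((starRingEnd ℂ) p.1.1 * p.1.2).im) :=
    ((continuous_const.mul (hx 0)).mul h2).add ((continuous_const.mul (hx 1)).mul h3)
  exact Complex.continuous_exp.comp ((Complex.continuous_ofReal.comp h4).neg.sub
    (continuous_const.mul (Complex.continuous_ofReal.comp h5)))

private theorem low (a : ℝ → E3) (α β : ℝ) (hαβ : α ≤ β) (ha : ContinuousOn a (Icc α β))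
    (pa : ∀ t ∈ Icc α β, 0 < a t 2) : ∃ z : ℝ, 0 < z ∧ ∀ t ∈ Icc α β, z ≤ a t 2 := by
  have hc : ContinuousOn (fun t => a t 2) (Icc α β) := by
    have : Continuous (fun x : E3 => x 2) := by fun_prop
    exact this.comp_continuousOn ha
  obtain ⟨t0, ht0, hmin⟩ := isCompact_Icc.exists_isMinOn ⟨α, left_mem_Icc.2 hαβ⟩ hc
  exact ⟨a t0 2, pa t0 ht0, fun t ht => hmin ht⟩

private theorem int4 {X E : Type} [MeasurableSpace X] [NormedAddCommGroup E] [NormedSpace ℝ E]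
    {m : Measure X} {f1 f2 f3 f4 : X → E} (h1 : Integrable f1 m) (h2 : Integrable f2 m)
    (h3 : Integrable f3 m) (h4 : Integrable f4 m) :
    ∫ x, (f1 x - f2 x - f3 x + f4 x) ∂m =
      ∫ x, f1 x ∂m - ∫ x, f2 x ∂m - ∫ x, f3 x ∂m + ∫ x, f4 x ∂m := by
  have e1 : ∫ x, (f1 x - f2 x - f3 x + f4 x) ∂m = ∫ x, (f1 x - f2 x - f3 x) ∂m + ∫ x, f4 x ∂m :=
    integral_add ((h1.sub h2).sub h3) h4
  have e2 : ∫ x, (f1 x - f2 x - f3 x) ∂m = ∫ x, (f1 x - f2 x) ∂m - ∫ x, f3 x ∂m :=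
    integral_sub (h1.sub h2) h3
  rw [e1, e2, integral_sub h1 h2]

/-- The product measure of the parameters. -/
private noncomputable abbrev nu (α β : ℝ) : Measure (ℝ × ℝ) :=
  (volume.restrict (Ioc α β)).prod (volume.restrict (Ioc α β))

private theorem bil (hKer : S_Ker) (a b : ℝ → E3) (α β : ℝ) (hαβ : α ≤ β)
    (ha : ContinuousOn a (Icc α β)) (hb : ContinuousOn b (Icc α β))
    (ha' : ContinuousOn (deriv a) (Icc α β)) (hb' : ContinuousOn (deriv b) (Icc α β))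
    (pa : ∀ t ∈ Icc α β, 0 < a t 2) (pb : ∀ t ∈ Icc α β, 0 < b t 2) :
    Integrable (fun z : ℝ × ℝ => kk a b z.1 z.2) (nu α β) ∧
    Integrable (fun ζ : ℂ × ℂ => Wt a α β ζ * (starRingEnd ℂ) (Wt b α β ζ)) ∧
    ∫ ζ : ℂ × ℂ, Wt a α β ζ * (starRingEnd ℂ) (Wt b α β ζ) =
      ((Real.pi ^ 2 * ∫ z, kk a b z.1 z.2 ∂(nu α β) : ℝ) : ℂ) := by
  obtain ⟨Ma, hMa⟩ := isCompact_Icc.exists_bound_of_continuousOn ha'
  obtain ⟨Mb, hMb⟩ := isCompact_Icc.exists_bound_of_continuousOn hb'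
  obtain ⟨za, hza, hza'⟩ := low a α β hαβ ha pa
  obtain ⟨zb, hzb, hzb'⟩ := low b α β hαβ hb pb
  obtain ⟨z0, hz0, hz0a, hz0b⟩ : ∃ z0 : ℝ, 0 < z0 ∧ z0 ≤ za ∧ z0 ≤ zb :=
    ⟨min za zb, lt_min hza hzb, min_le_left _ _, min_le_right _ _⟩
  obtain ⟨x0, hx0⟩ : ∃ x0 : E3, x0 2 = z0 := ⟨EuclideanSpace.single 2 z0, by simp⟩
  have hx0p : 0 < x0 2 := by rw [hx0]; exact hz0
  obtain ⟨k1, k2, -⟩ := hKer x0 x0 hx0p hx0p
  have hS : MeasurableSet ((Ioc α β ×ˢ Ioc α β) ×ˢ (univ : Set (ℂ × ℂ))) :=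
    (measurableSet_Ioc.prod measurableSet_Ioc).prod MeasurableSet.univ
  have hmeas : (nu α β).prod (volume : Measure (ℂ × ℂ)) =
      (volume : Measure ((ℝ × ℝ) × (ℂ × ℂ))).restrict
        ((Ioc α β ×ˢ Ioc α β) ×ˢ (univ : Set (ℂ × ℂ))) := by
    have e1 : (volume : Measure ((ℝ × ℝ) × (ℂ × ℂ))) =
        ((volume : Measure ℝ).prod (volume : Measure ℝ)).prod (volume : Measure (ℂ × ℂ)) := rfl
    rw [e1, ← Measure.prod_restrict, Measure.restrict_univ, ← Measure.prod_restrict]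
  obtain ⟨G, hG⟩ : ∃ G : (ℝ × ℝ) × (ℂ × ℂ) → ℂ, G = fun w =>
    ((‖deriv a w.1.1‖ : ℂ) * phi w.2 (a w.1.1)) *
      (starRingEnd ℂ) ((‖deriv b w.1.2‖ : ℂ) * phi w.2 (b w.1.2)) := ⟨_, rfl⟩
  have hGc : ContinuousOn G ((Ioc α β ×ˢ Ioc α β) ×ˢ (univ : Set (ℂ × ℂ))) := by
    have f1 : ContinuousOn (fun w : (ℝ × ℝ) × (ℂ × ℂ) => w.1.1)
        ((Ioc α β ×ˢ Ioc α β) ×ˢ (univ : Set (ℂ × ℂ))) := by fun_prop
    have f2 : ContinuousOn (fun w : (ℝ × ℝ) × (ℂ × ℂ) => w.1.2)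
        ((Ioc α β ×ˢ Ioc α β) ×ˢ (univ : Set (ℂ × ℂ))) := by fun_prop
    have f3 : ContinuousOn (fun w : (ℝ × ℝ) × (ℂ × ℂ) => w.2)
        ((Ioc α β ×ˢ Ioc α β) ×ˢ (univ : Set (ℂ × ℂ))) := by fun_prop
    have m1 : MapsTo (fun w : (ℝ × ℝ) × (ℂ × ℂ) => w.1.1)
        ((Ioc α β ×ˢ Ioc α β) ×ˢ (univ : Set (ℂ × ℂ))) (Icc α β) :=
      fun w hw => Ioc_subset_Icc_self hw.1.1
    have m2 : MapsTo (fun w : (ℝ × ℝ) × (ℂ × ℂ) => w.1.2)
        ((Ioc α β ×ˢ Ioc α β) ×ˢ (univ : Set (ℂ × ℂ))) (Icc α β) :=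
      fun w hw => Ioc_subset_Icc_self hw.1.2
    have g1 := Complex.continuous_ofReal.comp_continuousOn (ha'.comp f1 m1).norm
    have g2 := Complex.continuous_ofReal.comp_continuousOn (hb'.comp f2 m2).norm
    have g3 := phi_cont.comp_continuousOn (f3.prodMk (ha.comp f1 m1))
    have g4 := phi_cont.comp_continuousOn (f3.prodMk (hb.comp f2 m2))
    rw [hG]
    exact (g1.mul g3).mul (Complex.continuous_conj.comp_continuousOn (g2.mul g4))
  have hGm : AEStronglyMeasurable G ((nu α β).prod (volume : Measure (ℂ × ℂ))) := by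
    rw [hmeas]
    exact hGc.aestronglyMeasurable hS
  have hGi : Integrable G ((nu α β).prod (volume : Measure (ℂ × ℂ))) := by
    have hb1 : Integrable (fun w : (ℝ × ℝ) × (ℂ × ℂ) =>
        Ma * Mb * ‖phi w.2 x0 * (starRingEnd ℂ) (phi w.2 x0)‖)
        ((nu α β).prod (volume : Measure (ℂ × ℂ))) :=
      (k2.norm.comp_snd (nu α β)).const_mul (Ma * Mb)
    refine hb1.mono' hGm ?_
    rw [hmeas]
    refine (ae_restrict_iff' hS).2 (ae_of_all _ (fun w hw => ?_))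
    have w1 : w.1.1 ∈ Icc α β := Ioc_subset_Icc_self hw.1.1
    have w2 : w.1.2 ∈ Icc α β := Ioc_subset_Icc_self hw.1.2
    have n1 := (hKer (a w.1.1) (a w.1.1) (pa _ w1) (pa _ w1)).1 w.2
    have n2 := (hKer (b w.1.2) (b w.1.2) (pb _ w2) (pb _ w2)).1 w.2
    have n3 := k1 w.2
    have hq : 0 ≤ ‖w.2.1‖ ^ 2 + ‖w.2.2‖ ^ 2 := by positivity
    have l1 : ‖phi w.2 (a w.1.1)‖ ≤ ‖phi w.2 x0‖ := by
      rw [n1, n3, hx0]
      refine Real.exp_le_exp.2 (neg_le_neg (mul_le_mul_of_nonneg_right ?_ hq))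
      exact hz0a.trans (hza' _ w1)
    have l2 : ‖phi w.2 (b w.1.2)‖ ≤ ‖phi w.2 x0‖ := by
      rw [n2, n3, hx0]
      refine Real.exp_le_exp.2 (neg_le_neg (mul_le_mul_of_nonneg_right ?_ hq))
      exact hz0b.trans (hzb' _ w2)
    have e1 : ‖G w‖ = (‖deriv a w.1.1‖ * ‖phi w.2 (a w.1.1)‖) *
        (‖deriv b w.1.2‖ * ‖phi w.2 (b w.1.2)‖) := by
      rw [hG]
      simp only [norm_mul, RCLike.norm_conj, Complex.norm_real, norm_norm]
    have e2 : Ma * Mb * ‖phi w.2 x0 * (starRingEnd ℂ) (phi w.2 x0)‖ =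
        (Ma * ‖phi w.2 x0‖) * (Mb * ‖phi w.2 x0‖) := by
      rw [norm_mul, RCLike.norm_conj]
      ring
    rw [e1, e2]
    have a1 := hMa _ w1
    have a2 := hMb _ w2
    have hMa0 : 0 ≤ Ma := (norm_nonneg _).trans a1
    have hMb0 : 0 ≤ Mb := (norm_nonneg _).trans a2
    exact mul_le_mul (mul_le_mul a1 l1 (norm_nonneg _) hMa0) (mul_le_mul a2 l2 (norm_nonneg _) hMb0)
      (by positivity) (by positivity)
  -- the two iterated integrals
  have h1 : ∀ ζ : ℂ × ℂ, ∫ z, G (z, ζ) ∂(nu α β) = Wt a α β ζ * (starRingEnd ℂ) (Wt b α β ζ) := by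
    intro ζ
    rw [hG]
    have e1 := integral_prod_mul (μ := volume.restrict (Ioc α β)) (ν := volume.restrict (Ioc α β))
      (fun s => (‖deriv a s‖ : ℂ) * phi ζ (a s))
      (fun t => (starRingEnd ℂ) ((‖deriv b t‖ : ℂ) * phi ζ (b t)))
    refine e1.trans ?_
    rw [integral_conj, Wt, Wt, intervalIntegral.integral_of_le hαβ,
      intervalIntegral.integral_of_le hαβ]
  have h2 : ∀ z : ℝ × ℝ, z ∈ Ioc α β ×ˢ Ioc α β →
      ∫ ζ, G (z, ζ) = ((Real.pi ^ 2 * kk a b z.1 z.2 : ℝ) : ℂ) := by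
    intro z hz
    have w1 : z.1 ∈ Icc α β := Ioc_subset_Icc_self hz.1
    have w2 : z.2 ∈ Icc α β := Ioc_subset_Icc_self hz.2
    have n3 := (hKer (a z.1) (b z.2) (pa _ w1) (pb _ w2)).2.2
    have e1 : ∀ ζ : ℂ × ℂ, G (z, ζ) = ((‖deriv a z.1‖ * ‖deriv b z.2‖ : ℝ) : ℂ) *
        (phi ζ (a z.1) * (starRingEnd ℂ) (phi ζ (b z.2))) := by
      intro ζ
      rw [hG]
      simp only [map_mul, Complex.conj_ofReal, Complex.ofReal_mul]
      ring
    rw [integral_congr_ae (ae_of_all _ e1), integral_const_mul, n3, ← Complex.ofReal_mul, kk, kf]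
    congr 1
    ring
  have hae : (fun z : ℝ × ℝ => ∫ ζ, G (z, ζ)) =ᵐ[nu α β]
      fun z => ((Real.pi ^ 2 * kk a b z.1 z.2 : ℝ) : ℂ) := by
    have e1 : nu α β = (volume : Measure (ℝ × ℝ)).restrict (Ioc α β ×ˢ Ioc α β) := by
      have e2 : (volume : Measure (ℝ × ℝ)) = (volume : Measure ℝ).prod (volume : Measure ℝ) := rfl
      rw [e2, ← Measure.prod_restrict]
    rw [e1]
    exact (ae_restrict_iff' (measurableSet_Ioc.prod measurableSet_Ioc)).2 (ae_of_all _ h2)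
  have hpi : (Real.pi ^ 2 : ℝ) ≠ 0 := by positivity
  have hkC : Integrable (fun z : ℝ × ℝ => ((Real.pi ^ 2 * kk a b z.1 z.2 : ℝ) : ℂ)) (nu α β) :=
    hGi.integral_prod_left.congr hae
  have hkR : Integrable (fun z : ℝ × ℝ => kk a b z.1 z.2) (nu α β) := by
    have e1 := (hkC.re).const_mul (Real.pi ^ 2)⁻¹
    refine e1.congr (ae_of_all _ (fun z => ?_))
    show (Real.pi ^ 2)⁻¹ * (((Real.pi ^ 2 * kk a b z.1 z.2 : ℝ) : ℂ)).re = kk a b z.1 z.2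
    rw [Complex.ofReal_re, inv_mul_cancel_left₀ hpi]
  refine ⟨hkR, ?_, ?_⟩
  · have e1 := hGi.integral_prod_right
    refine e1.congr (ae_of_all _ (fun ζ => ?_))
    exact h1 ζ
  · have e1 : ∫ ζ : ℂ × ℂ, Wt a α β ζ * (starRingEnd ℂ) (Wt b α β ζ) =
        ∫ ζ : ℂ × ℂ, ∫ z, G (z, ζ) ∂(nu α β) := by
      refine integral_congr_ae (ae_of_all _ (fun ζ => ?_))
      exact (h1 ζ).symm
    have e2 : ∫ z, (∫ ζ : ℂ × ℂ, G (z, ζ)) ∂(nu α β) =
        ∫ ζ : ℂ × ℂ, (∫ z, G (z, ζ) ∂(nu α β)) :=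
      integral_integral_swap (f := fun z ζ => G (z, ζ)) hGi
    rw [e1, ← e2, integral_congr_ae hae, integral_complex_ofReal, integral_const_mul]

theorem tRP : S_Ker → S_RP := by
  intro hKer a b α β hαβ ha hb ha' hb' pa pb
  obtain ⟨i1, j1, l1⟩ := bil hKer a a α β hαβ ha ha ha' ha' pa pa
  obtain ⟨i2, j2, l2⟩ := bil hKer a b α β hαβ ha hb ha' hb' pa pb
  obtain ⟨i3, j3, l3⟩ := bil hKer b a α β hαβ hb ha hb' ha' pb pa
  obtain ⟨i4, j4, l4⟩ := bil hKer b b α β hαβ hb hb hb' hb' pb pb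
  have hpi : (Real.pi ^ 2 : ℝ) ≠ 0 := by positivity
  have hsq : ∀ ζ : ℂ × ℂ, ((‖Wt a α β ζ - Wt b α β ζ‖ ^ 2 : ℝ) : ℂ) =
      Wt a α β ζ * (starRingEnd ℂ) (Wt a α β ζ) - Wt a α β ζ * (starRingEnd ℂ) (Wt b α β ζ)
        - Wt b α β ζ * (starRingEnd ℂ) (Wt a α β ζ) + Wt b α β ζ * (starRingEnd ℂ) (Wt b α β ζ) := by
    intro ζ
    have e1 := Complex.mul_conj' (Wt a α β ζ - Wt b α β ζ)
    rw [Complex.ofReal_pow, ← e1, map_sub]
    ring
  have hint : Integrable (fun ζ : ℂ × ℂ => ((‖Wt a α β ζ - Wt b α β ζ‖ ^ 2 : ℝ) : ℂ)) := by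
    refine (((j1.sub j2).sub j3).add j4).congr (ae_of_all _ (fun ζ => ?_))
    exact (hsq ζ).symm
  have hval : ∫ ζ : ℂ × ℂ, ((‖Wt a α β ζ - Wt b α β ζ‖ ^ 2 : ℝ) : ℂ) =
      ((Real.pi ^ 2 * VV a b α β : ℝ) : ℂ) := by
    rw [integral_congr_ae (ae_of_all _ hsq), int4 j1 j2 j3 j4, l1, l2, l3, l4]
    have e1 : VV a b α β = ∫ z, (kk a a z.1 z.2 - kk a b z.1 z.2 - kk b a z.1 z.2
        + kk b b z.1 z.2) ∂(nu α β) := by
      have e2 : ∫ z, (kk a a z.1 z.2 - kk a b z.1 z.2 - kk b a z.1 z.2 + kk b b z.1 z.2)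
          ∂(nu α β) = ∫ s in Ioc α β, ∫ t in Ioc α β,
            (kk a a s t - kk a b s t - kk b a s t + kk b b s t) :=
        integral_prod _ (((i1.sub i2).sub i3).add i4)
      rw [e2, VV, intervalIntegral.integral_of_le hαβ]
      refine integral_congr_ae (ae_of_all _ (fun s => ?_))
      exact intervalIntegral.integral_of_le hαβ
    rw [e1, int4 i1 i2 i3 i4]
    push_cast
    ring
  refine ⟨?_, ?_⟩
  · refine hint.re.congr (ae_of_all _ (fun ζ => ?_))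
    exact Complex.ofReal_re _
  · rw [integral_complex_ofReal] at hval
    have h1 := Complex.ofReal_injective hval
    rw [h1, inv_mul_cancel_left₀ hpi]

end MP_e78765_gt
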