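import Pool.Agent.Lib.MP_e78765_gt.Spec3

/-!
# THEOREM R2, module Ra: the pushed knot is a mirror knot (helper71)
-/

set_option autoImplicit false

open scoped ContDiff Topology
open MeasureTheory Set Filter

namespace MP_e78765_gt

namespace Ra_aux

private lemma mir2 (x : E3) : (mir x) 2 = -x 2 := rfl

private lemma mir_fix {x : E3} (h : x 2 = 0) : mir x = x := by
  ext i
  fin_cases i
  · rfl
  · rfl
  · change -x 2 = x 2
    rw [h, neg_zero]

private lemma e3_2 : (e3 : E3) 2 = 1 := rfl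

private lemma e3_ne : (e3 : E3) ≠ 0 := by
  intro h
  have h1 := congrArg (fun x : E3 => x 2) h
  have h2 : (1 : ℝ) = 0 := h1
  exact one_ne_zero h2

private lemma vert {x : E3} (h0 : x 0 = 0) (h1 : x 1 = 0) : x = (x 2) • e3 := by
  ext i
  fin_cases i
  · change x 0 = x 2 * 0
    rw [h0, mul_zero]
  · change x 1 = x 2 * 0
    rw [h1, mul_zero]
  · change x 2 = x 2 * 1
    rw [mul_one]

private lemma mir_eq (x : E3) : mir x = x - (2 * x 2) • e3 := by
  ext i
  fin_cases i
  · change x 0 = x 0 - 2 * x 2 * 0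
    ring
  · change x 1 = x 1 - 2 * x 2 * 0
    ring
  · change -x 2 = x 2 - 2 * x 2 * 1
    ring

private lemma mir_smooth : ContDiff ℝ ∞ mir := by
  have h1 : ContDiff ℝ ∞ (fun x : E3 => x 2) :=
    (EuclideanSpace.proj (2 : Fin 3) : E3 →L[ℝ] ℝ).contDiff
  have h2 : ContDiff ℝ ∞ (fun x : E3 => x - (2 * x 2) • e3) :=
    contDiff_id.sub ((contDiff_const.mul h1).smul contDiff_const)
  have h3 : mir = fun x : E3 => x - (2 * x 2) • e3 := funext mir_eq
  rw [h3]
  exact h2

private lemma comp2 {f : ℝ → E3} {f' : E3} {t : ℝ} (h : HasDerivAt f f' t) :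
    HasDerivAt (fun s => (f s) 2) (f' 2) t :=
  ((EuclideanSpace.proj (2 : Fin 3) : E3 →L[ℝ] ℝ).hasFDerivAt.comp_hasDerivAt t h)

/-- Regularity of the pushed curve in the chart, near an axial point. -/
private lemma axreg {F : ℝ → E3} {ε a t : ℝ} (hc : ContDiff ℝ ∞ (cut ε))
    (hF : DifferentiableAt ℝ F t) (hF' : deriv F t ≠ 0)
    (hax : ∀ᶠ s in 𝓝 t, (F s) 0 = 0 ∧ (F s) 1 = 0)
    (hp : 1 / 2 ≤ 1 + a * deriv (fun z : ℝ => cut ε (z • e3)) ((F t) 2)) :
    deriv F t + (a * deriv (fun s => cut ε (F s)) t) • e3 ≠ 0 := by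
  have hev : F =ᶠ[𝓝 t] fun s => ((F s) 2) • e3 := by
    filter_upwards [hax] with s hs
    exact vert hs.1 hs.2
  have hz : HasDerivAt (fun s => (F s) 2) ((deriv F t) 2) t := comp2 hF.hasDerivAt
  have h1 : HasDerivAt F (((deriv F t) 2) • e3) t :=
    (hz.smul_const e3).congr_of_eventuallyEq hev
  have h2 : deriv F t = ((deriv F t) 2) • e3 := h1.deriv
  have h3 : (deriv F t) 2 ≠ 0 := by
    intro h
    apply hF'
    rw [h2, h, zero_smul]
  have hk : DifferentiableAt ℝ (fun z : ℝ => cut ε (z • e3)) ((F t) 2) := by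
    have h4 : ContDiff ℝ ∞ (fun z : ℝ => cut ε (z • e3)) :=
      hc.comp (contDiff_id.smul contDiff_const)
    exact (h4.differentiable (by simp)) _
  have hev2 : (fun s => cut ε (F s)) =ᶠ[𝓝 t]
      (fun z : ℝ => cut ε (z • e3)) ∘ fun s => (F s) 2 := by
    filter_upwards [hev] with s hs
    change cut ε (F s) = cut ε (((F s) 2) • e3)
    rw [← hs]
  have hD : HasDerivAt (fun s => cut ε (F s))
      (deriv (fun z : ℝ => cut ε (z • e3)) ((F t) 2) * (deriv F t) 2) t :=
    (hk.hasDerivAt.comp t hz).congr_of_eventuallyEq hev2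
  rw [hD.deriv]
  intro h0
  have h5 := congrArg (fun x : E3 => x 2) h0
  have h6 : (deriv F t) 2 + a * (deriv (fun z : ℝ => cut ε (z • e3)) ((F t) 2) * (deriv F t) 2) * 1
      = 0 := h5
  have h7 : (deriv F t) 2 * (1 + a * deriv (fun z : ℝ => cut ε (z • e3)) ((F t) 2)) = 0 := by
    linear_combination h6
  rcases mul_eq_zero.1 h7 with h8 | h8
  · exact h3 h8
  · linarith

end Ra_aux

open Ra_aux in
theorem tRa : S_Ps → S_Ch → S_Cut → S_Inv → S_Mir → S_Ra := by
  intro hPs hCh hCut hInv hMir r ℓ t0 t1 ε c a hS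
  have hr := hS.kn
  obtain ⟨hε, ha, -⟩ := hS.ok
  obtain ⟨c1, c2, c3, c4, c5, c6, c7, c8, c9, c10, c11, c12, c13, c14, -, c16⟩ := hCh r hr
  obtain ⟨-, p2, -, p4, p5, p6, p7⟩ := hPs ε c a hS.ok hS.c_pos hS.c_le
  obtain ⟨k1, -, -, k4, k5, -, k7⟩ := hCut ε hε
  obtain ⟨-, -, -, -, i5, i6, -, -, i9, i10, -, -⟩ := hInv
  obtain ⟨m1, -, -, m4, m5, -, -, m8⟩ := hMir
  have hinj : Function.Injective (ps ε c a) := (p2 a ⟨ha, le_refl a⟩).1
  -- the curve in the chart
  have hF7 : ∀ t, r t ≠ r (1 / 2) → back r (Fc r t) = r t ∧ Fc r t ≠ -ph r := fun t ht =>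
    ⟨(c7 (r t) ht).1, (c7 (r t) ht).2.1⟩
  have hfix : ps ε c a (-ph r) = -ph r := by
    refine p4 a _ (Or.inr (Or.inr ?_))
    have h1 : (-ph r) 2 = 0 := by
      change -(ph r) 2 = 0
      rw [c3, neg_zero]
    rw [h1, abs_zero]
    have := hS.c_pos
    positivity
  have hne : ∀ t, r t ≠ r (1 / 2) → ps ε c a (Fc r t) ≠ -ph r := by
    intro t ht h
    rw [← hfix] at h
    exact (hF7 t ht).2 (hinj h)
  -- the pushed curve
  obtain ⟨g, hg⟩ : ∃ g, g = ra ε c a r := ⟨_, rfl⟩
  have hgq : ∀ t, r t = r (1 / 2) → g t = r (1 / 2) := fun t ht => by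
    rw [hg]
    exact if_pos ht
  have hgb : ∀ t, r t ≠ r (1 / 2) → g t = back r (ps ε c a (Fc r t)) := fun t ht => by
    rw [hg]
    exact if_neg ht
  have hgc : ∀ t, r t ≠ r (1 / 2) → ch r (g t) = ps ε c a (Fc r t) ∧ g t ≠ r (1 / 2) ∧
      (g t) 2 = (ps ε c a (Fc r t)) 2 / ‖ps ε c a (Fc r t) + ph r‖ ^ 2 := fun t ht => by
    rw [hgb t ht]
    exact c8 _ (hne t ht)
  have hgiff : ∀ t, g t = r (1 / 2) ↔ r t = r (1 / 2) := by
    intro t
    refine ⟨fun h => ?_, hgq t⟩
    by_contra hc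
    exact (hgc t hc).2.1 h
  have hgr : ∀ t, r t ≠ r (1 / 2) → ps ε c a (Fc r t) = Fc r t → g t = r t := by
    intro t ht h
    rw [hgb t ht, h, (hF7 t ht).1]
  have hr0 : r 0 ≠ r (1 / 2) := by
    intro h
    obtain ⟨n, hn⟩ := (c5 0).1 h
    have h1 : (2 * n + 1 : ℝ) = 0 := by linarith
    have h2 : (2 * n + 1 : ℤ) = 0 := by exact_mod_cast h1
    omega
  have hg0 : g 0 = r 0 := hgr 0 hr0 (p4 a _ (Or.inl (by rw [c12, norm_zero]; exact hε.le)))
  have hg2 : g (1 / 2) = r (1 / 2) := hgq _ rfl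
  have hcont : Continuous r := hr.smooth.continuous
  have hopen : ∀ t, r t ≠ r (1 / 2) → ∀ᶠ s in 𝓝 t, r s ≠ r (1 / 2) := fun t ht =>
    hcont.continuousAt.eventually_ne ht
  have hn0 : ∀ᶠ t in 𝓝 (0 : ℝ), g t = r t := by
    have hc : ContinuousAt (Fc r) 0 := (c9 0 hr0).1.continuousAt
    have h1 : ∀ᶠ t in 𝓝 (0 : ℝ), ‖Fc r t‖ < ε := by
      have h2 : Tendsto (fun t => ‖Fc r t‖) (𝓝 0) (𝓝 ‖Fc r 0‖) := hc.norm
      rw [c12, norm_zero] at h2
      exact h2.eventually (gt_mem_nhds hε)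
    filter_upwards [h1, hopen 0 hr0] with t h3 h4
    exact hgr t h4 (p4 a _ (Or.inl h3.le))
  have hn2 : ∀ᶠ t in 𝓝 (1 / 2 : ℝ), g t = r t := by
    have h1 : ∀ᶠ t in 𝓝[≠] (1 / 2 : ℝ), 1 / ε ≤ ‖Fc r t‖ := c16.eventually (eventually_ge_atTop _)
    rw [eventually_nhdsWithin_iff] at h1
    filter_upwards [h1] with t h2
    by_cases ht : r t = r (1 / 2)
    · rw [hgq t ht, ht]
    · have ht' : t ≠ 1 / 2 := fun h => ht (by rw [h])
      refine hgr t ht (p4 a _ (Or.inr (Or.inl ?_)))
      have h3 := h2 ht'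
      rw [div_le_iff₀ hε] at h3
      rwa [mul_comm]
  have hgper : ∀ t, g (t + 1) = g t := by
    intro t
    have h1 := hr.periodic t
    by_cases ht : r t = r (1 / 2)
    · rw [hgq t ht, hgq (t + 1) (by rw [h1]; exact ht)]
    · rw [hgb t ht, hgb (t + 1) (by rw [h1]; exact ht), c10]
  have hgint : ∀ (n : ℤ) (t : ℝ), g (t - n) = g t := by
    intro n t
    have h : Function.Periodic g 1 := hgper
    have h1 := h.sub_int_mul_eq (x := t) n
    rwa [mul_one] at h1
  have hsym : ∀ t, g (-t) = mir (g t) := by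
    intro t
    have hiff : r (-t) = r (1 / 2) ↔ r t = r (1 / 2) := by
      rw [c5, c5]
      constructor
      · rintro ⟨n, hn⟩
        exact ⟨-1 - n, by push_cast; linarith⟩
      · rintro ⟨n, hn⟩
        exact ⟨-1 - n, by push_cast; linarith⟩
    by_cases ht : r t = r (1 / 2)
    · rw [hgq t ht, hgq (-t) (hiff.2 ht), mir_fix c2]
    · rw [hgb t ht, hgb (-t) (fun h => ht (hiff.1 h)), c11, p6]
      unfold back
      rw [m1, mir_fix c2, i6, m1, mir_fix c3]
  -- the upper half
  have hup : ∀ t ∈ Ioo (0 : ℝ) (1 / 2), r t ≠ r (1 / 2) := by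
    intro t ht h
    have h2 := hr.pos t ht
    rw [h, c2] at h2
    exact lt_irrefl _ h2
  have hpu : ∀ t ∈ Ioo (0 : ℝ) (1 / 2),
      ps ε c a (Fc r t) = Fc r t + (a * cut ε (Fc r t)) • e3 := fun t ht =>
    p5 a _ (hS.cone t ht)
  have hFl : ∀ s, ℓ s = r s → Fc ℓ s = Fc r s := by
    intro s hs
    unfold Fc ch ph
    rw [hs, hS.ax.zero, hS.ax.half]
  -- smoothness and regularity
  have hgood : ∀ t ∈ Ioo (0 : ℝ) (1 / 2), ContDiffAt ℝ ∞ g t ∧ deriv g t ≠ 0 := by
    intro t ht
    have htq := hup t ht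
    have hIoo : ∀ᶠ s in 𝓝 t, s ∈ Ioo (0 : ℝ) (1 / 2) := Ioo_mem_nhds ht.1 ht.2
    have hev : g =ᶠ[𝓝 t] fun s =>
        r (1 / 2) + inv (Fc r s + (a * cut ε (Fc r s)) • e3 + ph r) := by
      filter_upwards [hIoo] with s hs
      rw [hgb s (hup s hs), hpu s hs]
      rfl
    obtain ⟨hF, -, hF'⟩ := c9 t htq
    have hx : Fc r t + (a * cut ε (Fc r t)) • e3 + ph r ≠ 0 := by
      rw [← hpu t ht]
      exact fun h => hne t htq (eq_neg_of_add_eq_zero_left h)
    have hcF : ContDiffAt ℝ ∞ (fun s => cut ε (Fc r s)) t := k7.contDiffAt.comp t hF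
    have hh : ContDiffAt ℝ ∞ (fun s => Fc r s + (a * cut ε (Fc r s)) • e3) t :=
      hF.add ((contDiffAt_const.mul hcF).smul contDiffAt_const)
    have hhp : ContDiffAt ℝ ∞ (fun s => Fc r s + (a * cut ε (Fc r s)) • e3 + ph r) t :=
      hh.add contDiffAt_const
    constructor
    · refine ContDiffAt.congr_of_eventuallyEq ?_ hev
      have hc : ContDiffAt ℝ ∞ (inv ∘ fun s => Fc r s + (a * cut ε (Fc r s)) • e3 + ph r) t :=
        ContDiffAt.comp t (i9 _ hx) hhp
      exact contDiffAt_const.add hc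
    · have hd1 : HasDerivAt (Fc r) (deriv (Fc r) t) t :=
        (hF.differentiableAt (by simp)).hasDerivAt
      have hd2 : HasDerivAt (fun s => cut ε (Fc r s)) (deriv (fun s => cut ε (Fc r s)) t) t :=
        (hcF.differentiableAt (by simp)).hasDerivAt
      have hd3 : HasDerivAt (fun s => Fc r s + (a * cut ε (Fc r s)) • e3)
          (deriv (Fc r) t + (a * deriv (fun s => cut ε (Fc r s)) t) • e3) t :=
        hd1.add ((hd2.const_mul a).smul_const e3)
      have hd4 := i10 _ _ t hx (hd3.add_const (ph r))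
      have hd5 := (hd4.const_add (r (1 / 2))).congr_of_eventuallyEq hev
      rw [hd5.deriv]
      have hv : deriv (Fc r) t + (a * deriv (fun s => cut ε (Fc r s)) t) • e3 ≠ 0 := by
        have hpos : 0 < Fc r t 2 := c13 t ht
        by_cases hm : t ∈ Icc t0 (1 / 2 - t0)
        · have h1 : cut ε (Fc r t) = 1 := k4 _ (hS.inner t hm) (hS.outer t hm)
          have h2 : IsLocalMax (fun s => cut ε (Fc r s)) t := by
            refine Filter.Eventually.of_forall (fun s => ?_)
            change cut ε (Fc r s) ≤ cut ε (Fc r t)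
            rw [h1]
            exact (k1 _).2
          rw [h2.deriv_eq_zero, mul_zero, zero_smul, add_zero]
          exact hF'
        · have hax : ∀ᶠ s in 𝓝 t, (Fc r s) 0 = 0 ∧ (Fc r s) 1 = 0 := by
            have h3 : ∀ᶠ s in 𝓝 t, ℓ s = r s := by
              by_cases h4 : t < t0
              · have h5 : ∀ᶠ s in 𝓝 t, s ∈ Ioo (0 : ℝ) t1 :=
                  Ioo_mem_nhds ht.1 (h4.trans hS.t01)
                filter_upwards [h5] with s hs
                exact hS.near0 s (abs_lt.2 ⟨by have := hs.1; have := hS.t0_pos; have := hS.t01; linarith, hs.2⟩)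
              · have h6 : 1 / 2 - t0 < t := by
                  by_contra hc
                  exact hm ⟨not_lt.1 h4, not_lt.1 hc⟩
                have h5 : ∀ᶠ s in 𝓝 t, s ∈ Ioo (1 / 2 - t1) (1 / 2 : ℝ) :=
                  Ioo_mem_nhds (by have := hS.t01; linarith) ht.2
                filter_upwards [h5] with s hs
                have h7 := hs.1
                have h8 := hs.2
                exact hS.near2 s (abs_lt.2 ⟨by linarith, by
                  have := hS.t0_pos
                  have := hS.t01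
                  linarith⟩)
            filter_upwards [h3, hIoo] with s h7 h8
            have h9 := hS.ax.axis s h8
            rw [hFl s h7] at h9
            exact h9
          exact axreg k7 (hF.differentiableAt (by simp)) hF' hax (p7 _ hpos)
      intro h0
      have h1 := i5 (Fc r t + (a * cut ε (Fc r t)) • e3 + ph r)
        (deriv (Fc r) t + (a * deriv (fun s => cut ε (Fc r s)) t) • e3) hx
      rw [h0, norm_zero] at h1
      have h2 : 0 < ‖deriv (Fc r) t + (a * deriv (fun s => cut ε (Fc r s)) t) • e3‖ :=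
        norm_pos_iff.2 hv
      have h4 : 0 < ‖Fc r t + (a * cut ε (Fc r t)) • e3 + ph r‖ ^ 2 :=
        pow_pos (norm_pos_iff.2 hx) 2
      have h5 := div_pos h2 h4
      linarith
  have hall : ∀ t, ContDiffAt ℝ ∞ g t ∧ deriv g t ≠ 0 := by
    have hshift : ∀ (n : ℤ) (t : ℝ), (ContDiffAt ℝ ∞ g (t - n) ∧ deriv g (t - n) ≠ 0) →
        ContDiffAt ℝ ∞ g t ∧ deriv g t ≠ 0 := by
      rintro n t ⟨h1, h2⟩
      have he : g = fun s => g (s - n) := by
        funext s
        rw [hgint]
      constructor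
      · rw [he]
        exact ContDiffAt.comp t (f := fun s : ℝ => s - (n : ℝ)) h1
          (contDiffAt_id.sub contDiffAt_const)
      · rw [he, deriv_comp_sub_const]
        exact h2
    have hmirr : ∀ t, (ContDiffAt ℝ ∞ g (-t) ∧ deriv g (-t) ≠ 0) →
        ContDiffAt ℝ ∞ g t ∧ deriv g t ≠ 0 := by
      rintro t ⟨h1, h2⟩
      have he : g = fun s => mir (g (-s)) := by
        funext s
        rw [hsym, m4]
      constructor
      · rw [he]
        have h3 : ContDiffAt ℝ ∞ (fun s => g (-s)) t :=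
          ContDiffAt.comp t (f := fun s : ℝ => -s) h1 contDiffAt_id.neg
        exact mir_smooth.contDiffAt.comp t h3
      · have h3 : HasDerivAt g (deriv g (-t)) (-t) := (h1.differentiableAt (by simp)).hasDerivAt
        have h4 : HasDerivAt (fun s => g (-s)) (-(deriv g (-t))) t := by
          have h5 := HasDerivAt.scomp t h3 (hasDerivAt_neg t)
          have h6 : HasDerivAt (fun s => g (-s)) ((-1 : ℝ) • deriv g (-t)) t := h5
          rwa [neg_one_smul] at h6
        have h5 := m8 _ _ t h4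
        have h6 : deriv g t = mir (-(deriv g (-t))) := by
          conv_lhs => rw [he]
          exact h5.deriv
        rw [h6]
        intro h7
        have h8 := m5 (-(deriv g (-t)))
        rw [h7, norm_zero, norm_neg] at h8
        exact h2 (norm_eq_zero.1 h8.symm)
    have hreg : ∀ t, g =ᶠ[𝓝 t] r → ContDiffAt ℝ ∞ g t ∧ deriv g t ≠ 0 := by
      intro t h
      refine ⟨hr.smooth.contDiffAt.congr_of_eventuallyEq h, ?_⟩
      rw [h.deriv_eq]
      exact hr.regular t
    intro t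
    refine hshift ⌊t⌋ t ?_
    have hs0 : 0 ≤ t - ⌊t⌋ := sub_nonneg.2 (Int.floor_le t)
    have hs1 : t - ⌊t⌋ < 1 := by
      have := Int.lt_floor_add_one t
      linarith
    rcases hs0.eq_or_lt with h | h
    · rw [← h]
      exact hreg 0 hn0
    · rcases lt_trichotomy (t - ⌊t⌋) (1 / 2) with h2 | h2 | h2
      · exact hgood _ ⟨h, h2⟩
      · rw [h2]
        exact hreg _ hn2
      · refine hshift 1 _ (hmirr _ ?_)
        refine hgood _ ⟨?_, ?_⟩
        · push_cast
          linarith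
        · push_cast
          linarith
  have hknot : MirrorKnot g := by
    refine ⟨⟨?_, hgper, fun t => (hall t).2, ?_⟩, hsym, ?_⟩
    · rw [contDiff_iff_contDiffAt]
      exact fun t => (hall t).1
    · intro s t hst
      apply hr.inj
      by_cases hs : r s = r (1 / 2)
      · rw [hs, (hgiff t).1 (by rw [← hst]; exact hgq s hs)]
      · have ht : r t ≠ r (1 / 2) := fun h => hs ((hgiff s).1 (by rw [hst]; exact hgq t h))
        have h1 : ps ε c a (Fc r s) = ps ε c a (Fc r t) := by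
          rw [← (hgc s hs).1, ← (hgc t ht).1, hst]
        exact c14 s t hs ht (hinj h1)
    · intro t ht
      have h1 := hup t ht
      rw [(hgc t h1).2.2, hpu t ht]
      have hx : Fc r t + (a * cut ε (Fc r t)) • e3 + ph r ≠ 0 := by
        rw [← hpu t ht]
        exact fun h => hne t h1 (eq_neg_of_add_eq_zero_left h)
      have h2 : (Fc r t + (a * cut ε (Fc r t)) • e3) 2 = (Fc r t) 2 + a * cut ε (Fc r t) * 1 := rfl
      have h3 : 0 ≤ a * cut ε (Fc r t) := mul_nonneg ha (k1 _).1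
      have h4 := c13 t ht
      rw [h2]
      exact div_pos (by linarith) (pow_pos (norm_pos_iff.2 hx) 2)
  rw [← hg]
  refine ⟨hknot, hg0, hg2, ?_, hgiff, ?_⟩
  · obtain ⟨d0, hd0, h0⟩ := Metric.eventually_nhds_iff.1 hn0
    obtain ⟨d2, hd2, h2⟩ := Metric.eventually_nhds_iff.1 hn2
    have ht0 := hS.t0_pos
    refine ⟨min (min d0 d2) t0, lt_min (lt_min hd0 hd2) ht0, min_le_right _ _, ?_, ?_⟩
    · intro t ht
      refine h0 ?_
      rw [Real.dist_eq, sub_zero]
      exact ht.trans_le ((min_le_left _ _).trans (min_le_left _ _))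
    · intro t ht
      refine h2 ?_
      rw [Real.dist_eq]
      exact ht.trans_le ((min_le_left _ _).trans (min_le_right _ _))
  · intro t ht
    have h1 : Fc g t = ch r (g t) := by
      unfold Fc ch ph
      rw [hg0, hg2]
    rw [h1, (hgc t ht).1]

end MP_e78765_gt
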