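import Pool.Agent.Lib.MP_e78765_gt.Spec2

/-!
# Change of the parameter (MP_e78765_gt)
-/

set_option autoImplicit false

open scoped ContDiff Topology
open MeasureTheory Set Filter

namespace MP_e78765_gt

namespace Rep_aux

theorem qf_smul (x a y b : E3) {l m : ℝ} (hl : 0 ≤ l) (hm : 0 ≤ m) :
    qf x (l • a) y (m • b) = l * (m * qf x a y b) := by
  unfold qf
  rw [norm_smul, norm_smul, Real.norm_eq_abs, Real.norm_eq_abs, abs_of_nonneg hl, abs_of_nonneg hm,
    inner_smul_left, inner_smul_right, inner_smul_right, inner_smul_right]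
  simp only [conj_trivial]
  ring

theorem deriv_periodic {r : ℝ → E3} (h : IsKnot r) (t : ℝ) : deriv r (t + 1) = deriv r t := by
  have e : (fun t => r (t + 1)) = r := funext h.periodic
  have := deriv_comp_add_const (f := r) (a := 1) (x := t)
  rw [← this, e]

theorem Q_periodic_right {r : ℝ → E3} (h : IsKnot r) (x y : ℝ) : Q r x (y + 1) = Q r x y := by
  unfold Q
  rw [h.periodic, deriv_periodic h]

theorem Q_periodic_left {r : ℝ → E3} (h : IsKnot r) (x y : ℝ) : Q r (x + 1) y = Q r x y := by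
  unfold Q
  rw [h.periodic, deriv_periodic h]

section par

variable {σ : ℝ → ℝ}

theorem add_nat (h1 : ∀ t, σ (t + 1) = σ t + 1) (t : ℝ) (k : ℕ) : σ (t + k) = σ t + k := by
  induction k with
  | zero => simp
  | succ k ih => rw [Nat.cast_succ, ← add_assoc, h1, ih, add_assoc]

theorem add_int (h1 : ∀ t, σ (t + 1) = σ t + 1) (t : ℝ) (k : ℤ) : σ (t + k) = σ t + k := by
  rcases Int.eq_nat_or_neg k with ⟨n, rfl | rfl⟩
  · have := add_nat h1 t n
    simpa using this
  · have := add_nat h1 (t + ((-(n : ℤ) : ℤ) : ℝ)) n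
    have e : t + ((-(n : ℤ) : ℤ) : ℝ) + (n : ℝ) = t := by
      push_cast
      ring
    rw [e] at this
    rw [this]
    push_cast
    ring

theorem surj (hc : Continuous σ) (hm : Monotone σ) (h1 : ∀ t, σ (t + 1) = σ t + 1) :
    Function.Surjective σ := by
  apply hc.surjective
  · refine Filter.tendsto_atTop_mono' _ ?_ (tendsto_atTop_add_const_right _ (σ 0 - 1) tendsto_id)
    filter_upwards [Filter.eventually_ge_atTop (0 : ℝ)] with t ht
    have h2 : σ ((0 : ℝ) + (⌊t⌋₊ : ℕ)) ≤ σ t := by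
      apply hm
      rw [zero_add]
      exact Nat.floor_le ht
    rw [add_nat h1] at h2
    have h3 := Nat.lt_floor_add_one t
    show t + (σ 0 - 1) ≤ σ t
    linarith
  · refine Filter.tendsto_atBot_mono' _ ?_ (tendsto_atBot_add_const_right _ (σ 0 + 1) tendsto_id)
    filter_upwards [Filter.eventually_le_atBot (0 : ℝ)] with t ht
    have h2 : σ t ≤ σ (-(⌊-t⌋₊ : ℝ)) := by
      apply hm
      have := Nat.floor_le (neg_nonneg.2 ht)
      linarith
    have h3 := add_nat h1 (-(⌊-t⌋₊ : ℝ)) ⌊-t⌋₊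
    rw [neg_add_cancel] at h3
    have h4 := Nat.lt_floor_add_one (-t)
    show σ t ≤ t + (σ 0 + 1)
    linarith

theorem subst (hs : ContDiff ℝ ∞ σ) (hd : ∀ t, 0 < deriv σ t) (h1 : ∀ t, σ (t + 1) = σ t + 1)
    (g : ℝ → ℝ) (hg : ∀ y, g (y + 1) = g y) :
    ∫ v in Ioo (0 : ℝ) 1, deriv σ v * g (σ v) = ∫ y in Ioo (0 : ℝ) 1, g y := by
  have hmono : StrictMono σ := strictMono_of_deriv_pos hd
  have hsurj := surj hs.continuous hmono.monotone h1
  let e : ℝ ≃o ℝ := StrictMono.orderIsoOfSurjective σ hmono hsurj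
  have he : ∀ t, e t = σ t := fun t => rfl
  have himg : σ '' Ioo (0 : ℝ) 1 = Ioo (σ 0) (σ 1) := e.image_Ioo 0 1
  have h2 := integral_image_eq_integral_abs_deriv_smul (s := Ioo (0 : ℝ) 1) (f := σ)
    (f' := deriv σ) measurableSet_Ioo
    (fun x _ => ((hs.differentiable (by simp)) x).hasDerivAt.hasDerivWithinAt)
    hmono.injective.injOn g
  have h3 : ∫ v in Ioo (0 : ℝ) 1, deriv σ v * g (σ v) = ∫ v in Ioo (0 : ℝ) 1, |deriv σ v| • g (σ v) := by
    refine integral_congr_ae (Eventually.of_forall fun v => ?_)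
    show deriv σ v * g (σ v) = |deriv σ v| • g (σ v)
    rw [abs_of_pos (hd v), smul_eq_mul]
  rw [h3, ← h2, himg]
  have h4 : σ 1 = σ 0 + 1 := by
    have := h1 0
    rwa [zero_add] at this
  have hp : Function.Periodic g 1 := hg
  have h5 := hp.intervalIntegral_add_eq (σ 0) 0
  rw [h4, ← integral_Ioc_eq_integral_Ioo, ← integral_Ioc_eq_integral_Ioo,
    ← intervalIntegral.integral_of_le (by linarith), ← intervalIntegral.integral_of_le zero_le_one,
    h5, zero_add]

end par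

end Rep_aux

open Rep_aux in
theorem tRep : S_DS → S_QB → S_Alg → S_Rep := by
  intro hDS hQB _ r σ h hs hd h1
  have hmono : StrictMono σ := strictMono_of_deriv_pos hd
  have hsurj := surj hs.continuous hmono.monotone h1
  have hder : ∀ t, HasDerivAt (fun t => r (σ t)) (deriv σ t • deriv r (σ t)) t := by
    intro t
    exact ((h.smooth.differentiable (by simp)) (σ t)).hasDerivAt.scomp t
      ((hs.differentiable (by simp)) t).hasDerivAt
  have hK : IsKnot (fun t => r (σ t)) := by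
    refine ⟨h.smooth.comp hs, fun t => ?_, fun t => ?_, fun s t hst => ?_⟩
    · show r (σ (t + 1)) = r (σ t)
      rw [h1, h.periodic]
    · rw [(hder t).deriv]
      exact smul_ne_zero (hd t).ne' (h.regular _)
    · obtain ⟨n, hn⟩ := h.inj (σ s) (σ t) hst
      refine ⟨n, hmono.injective ?_⟩
      rw [add_int h1, hn]
  refine ⟨hK, ?_, fun t => (hder t).deriv, ?_⟩
  · ext x
    constructor
    · rintro ⟨t, rfl⟩
      exact ⟨σ t, rfl⟩
    · rintro ⟨t, rfl⟩
      obtain ⟨u, hu⟩ := hsurj t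
      refine ⟨u, ?_⟩
      show r (σ u) = r t
      rw [hu]
  · rw [hDS _ hK, hDS _ h]
    have hQ : ∀ u v, Q (fun t => r (σ t)) u v = deriv σ u * (deriv σ v * Q r (σ u) (σ v)) := by
      intro u v
      unfold Q
      rw [(hder u).deriv, (hder v).deriv]
      exact qf_smul _ _ _ _ (hd u).le (hd v).le
    have i1 := (hQB _ hK).2.2
    have i2 := (hQB _ h).2.2
    have e1 : ∫ z in Ioo (0 : ℝ) 1 ×ˢ Ioo (0 : ℝ) 1, Q (fun t => r (σ t)) z.1 z.2 =
        ∫ u in Ioo (0 : ℝ) 1, ∫ v in Ioo (0 : ℝ) 1, Q (fun t => r (σ t)) u v :=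
      setIntegral_prod _ i1
    have e2 : ∫ z in Ioo (0 : ℝ) 1 ×ˢ Ioo (0 : ℝ) 1, Q r z.1 z.2 =
        ∫ u in Ioo (0 : ℝ) 1, ∫ v in Ioo (0 : ℝ) 1, Q r u v :=
      setIntegral_prod _ i2
    rw [e1, e2]
    have e3 : ∀ u, ∫ v in Ioo (0 : ℝ) 1, Q (fun t => r (σ t)) u v =
        deriv σ u * ∫ y in Ioo (0 : ℝ) 1, Q r (σ u) y := by
      intro u
      have e4 : ∫ v in Ioo (0 : ℝ) 1, Q (fun t => r (σ t)) u v =
          ∫ v in Ioo (0 : ℝ) 1, deriv σ u * (deriv σ v * Q r (σ u) (σ v)) :=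
        integral_congr_ae (Eventually.of_forall fun v => hQ u v)
      rw [e4, integral_const_mul, subst hs hd h1 (fun y => Q r (σ u) y)
        (fun y => Q_periodic_right h _ _)]
    have e5 : ∫ u in Ioo (0 : ℝ) 1, ∫ v in Ioo (0 : ℝ) 1, Q (fun t => r (σ t)) u v =
        ∫ u in Ioo (0 : ℝ) 1, deriv σ u * ∫ y in Ioo (0 : ℝ) 1, Q r (σ u) y :=
      integral_congr_ae (Eventually.of_forall fun u => e3 u)
    rw [e5, subst hs hd h1 (fun x => ∫ y in Ioo (0 : ℝ) 1, Q r x y) (fun x => ?_)]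
    exact integral_congr_ae (Eventually.of_forall fun y => Q_periodic_left h _ _)

end MP_e78765_gt
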