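import Pool.Agent.Lib.MP_e78765_gt.Spec2

/-! Normal form of a plane. -/

open scoped ContDiff Topology
open MeasureTheory Set Filter

namespace MP_e78765_gt

namespace Rig_aux

/-- The third basis vector. -/
noncomputable def e : E3 := !₂[0, 0, 1]

theorem inner_e (x : E3) : inner ℝ x e = x 2 := by
  simp [e, PiLp.inner_apply, Fin.sum_univ_three]

theorem norm_e : ‖e‖ = 1 := by
  simp [e, EuclideanSpace.norm_eq, Fin.sum_univ_three]

theorem mir_eq (x : E3) : mir x = x - (2 * x 2) • e := by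
  ext i
  fin_cases i
  · simp [mir, e]
  · simp [mir, e]
  · simp [mir, e]; ring

theorem exists_iso (n : E3) (hn : ‖n‖ = 1) : ∃ A : E3 ≃ₗᵢ[ℝ] E3, A n = e := by
  refine ⟨(ℝ ∙ (n - e))ᗮ.reflection, ?_⟩
  exact Submodule.reflection_sub (by rw [hn, norm_e])

end Rig_aux

open Rig_aux

theorem tRig : S_Rig := by
  intro n c hn
  obtain ⟨A, hA⟩ := exists_iso n hn
  have h1 : ∀ x, (A x) 2 = inner ℝ x n := by
    intro x
    rw [← inner_e, ← hA, A.inner_map_map]
  have h2 : ∀ x, (A x + (-c) • e) 2 = inner ℝ x n - c := by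
    intro x
    rw [PiLp.add_apply, h1]
    simp [e]
    ring
  refine ⟨A, (-c) • e, h2, ?_⟩
  intro x
  rw [mir_eq, h2]
  unfold refl
  rw [map_sub, map_smul, hA]
  abel

end MP_e78765_gt
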