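import Pool.Agent.Lib.MP_e78765_gt.Spec

/-!
# THEOREM R, module Rs: the slid knot is a mirror knot
-/

set_option autoImplicit false

open scoped ContDiff Topology
open MeasureTheory Set Filter

namespace MP_e78765_gt

namespace Rs_aux

lemma mir2 (x : E3) : (mir x) 2 = -x 2 := rfl

lemma mir_add (x y : E3) : mir (x + y) = mir x + mir y := by
  ext i
  fin_cases i
  · rfl
  · rfl
  · change -(x 2 + y 2) = -x 2 + -y 2
    ring

lemma mir_fix {x : E3} (h : x 2 = 0) : mir x = x := by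
  ext i
  fin_cases i
  · rfl
  · rfl
  · change -x 2 = x 2
    rw [h, neg_zero]

lemma sl2 (ε τ : ℝ) (x : E3) : (sl ε τ x) 2 = Real.exp (τ * cut ε x) * x 2 := rfl

lemma sl_of_cut {ε τ : ℝ} {x : E3} (h : cut ε x = 0) : sl ε τ x = x := by
  unfold sl
  rw [h, mul_zero, Real.exp_zero, one_smul]

lemma sl_zero (ε τ : ℝ) : sl ε τ 0 = 0 := smul_zero _

end Rs_aux

open Rs_aux in
theorem tRs : S_Ch → S_Sl → S_Cut → S_Inv → S_Rs := by
  intro hCh hSl hCut hInv r ε τ hr hε hτ
  obtain ⟨c1, c2, c3, c4, c5, c6, c7, c8, c9, c10, c11, c12, c13, c14, -, c16⟩ := hCh r hr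
  obtain ⟨s1, s2, -, s4, s5, s6⟩ := hSl ε τ hε hτ
  obtain ⟨-, k2, k3, -⟩ := hCut ε hε
  obtain ⟨-, -, -, -, i5, i6, -, -, i9, i10, -, -⟩ := hInv
  -- the curve in the chart
  have hF7 : ∀ t, r t ≠ r (1 / 2) → back r (Fc r t) = r t ∧ Fc r t ≠ -ph r := fun t ht =>
    ⟨(c7 (r t) ht).1, (c7 (r t) ht).2.1⟩
  have hint : ∀ (n : ℤ) (t : ℝ), Fc r (t - n) = Fc r t := by
    intro n t
    have h : Function.Periodic (Fc r) 1 := c10
    have h1 := h.sub_int_mul_eq (x := t) n
    rwa [mul_one] at h1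
  have hzero : ∀ t, r t ≠ r (1 / 2) → (Fc r t) 2 = 0 → Fc r t = 0 := by
    intro t ht h0
    have e1 := hint ⌊t⌋ t
    obtain ⟨s, hs⟩ : ∃ s, s = t - ⌊t⌋ := ⟨_, rfl⟩
    rw [← hs] at e1
    have hs0 : 0 ≤ s := by rw [hs]; exact sub_nonneg.2 (Int.floor_le t)
    have hs1 : s < 1 := by
      rw [hs]
      have := Int.lt_floor_add_one t
      linarith
    rw [← e1] at h0 ⊢
    rcases hs0.eq_or_lt with h | h
    · rw [← h, c12]
    · rcases lt_trichotomy s (1 / 2) with h2 | h2 | h2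
      · exact absurd h0 (c13 s ⟨h, h2⟩).ne'
      · exact absurd ((c5 t).2 ⟨⌊t⌋, by linarith⟩) ht
      · exfalso
        have e2 := hint 1 s
        rw [Int.cast_one, show s - 1 = -(1 - s) by ring, c11] at e2
        rw [← e2, mir2] at h0
        have h3 := c13 (1 - s) ⟨by linarith, by linarith⟩
        linarith
  have hne : ∀ t, r t ≠ r (1 / 2) → sl ε τ (Fc r t) ≠ -ph r := by
    intro t ht h
    have h1 : (sl ε τ (Fc r t)) 2 = 0 := by
      rw [h]
      change -(ph r) 2 = 0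
      rw [c3, neg_zero]
    rw [sl2] at h1
    have h2 := hzero t ht ((mul_eq_zero.1 h1).resolve_left (Real.exp_pos _).ne')
    rw [h2, sl_zero] at h
    exact c4 (neg_eq_zero.1 h.symm)
  -- the slid curve
  obtain ⟨g, hg⟩ : ∃ g, g = rs ε τ r := ⟨_, rfl⟩
  have hgq : ∀ t, r t = r (1 / 2) → g t = r (1 / 2) := fun t ht => by
    rw [hg]
    exact if_pos ht
  have hgb : ∀ t, r t ≠ r (1 / 2) → g t = back r (sl ε τ (Fc r t)) := fun t ht => by
    rw [hg]
    exact if_neg ht
  have hgc : ∀ t, r t ≠ r (1 / 2) → ch r (g t) = sl ε τ (Fc r t) ∧ g t ≠ r (1 / 2) ∧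
      (g t) 2 = (sl ε τ (Fc r t)) 2 / ‖sl ε τ (Fc r t) + ph r‖ ^ 2 := fun t ht => by
    rw [hgb t ht]
    exact c8 _ (hne t ht)
  have hgiff : ∀ t, g t = r (1 / 2) ↔ r t = r (1 / 2) := by
    intro t
    refine ⟨fun h => ?_, hgq t⟩
    by_contra hc
    exact (hgc t hc).2.1 h
  have hgr : ∀ t, r t ≠ r (1 / 2) → cut ε (Fc r t) = 0 → g t = r t := by
    intro t ht h
    rw [hgb t ht, sl_of_cut h, (hF7 t ht).1]
  have hr0 : r 0 ≠ r (1 / 2) := by
    intro h
    obtain ⟨n, hn⟩ := (c5 0).1 h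
    have h1 : (2 * n + 1 : ℝ) = 0 := by linarith
    have h2 : (2 * n + 1 : ℤ) = 0 := by exact_mod_cast h1
    omega
  have hg0 : g 0 = r 0 := hgr 0 hr0 (k2 _ (by rw [c12, norm_zero]; exact hε.le))
  have hg2 : g (1 / 2) = r (1 / 2) := hgq _ rfl
  have hcont : Continuous r := hr.smooth.continuous
  have hopen : ∀ t, r t ≠ r (1 / 2) → ∀ᶠ s in 𝓝 t, r s ≠ r (1 / 2) := fun t ht =>
    hcont.continuousAt.eventually_ne ht
  have hn0 : ∀ᶠ t in 𝓝 (0 : ℝ), g t = r t := by
    have hc : ContinuousAt (Fc r) 0 := (c9 0 hr0).1.continuousAt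
    have h1 : ∀ᶠ t in 𝓝 (0 : ℝ), ‖Fc r t‖ < ε := by
      have h2 : Tendsto (fun t => ‖Fc r t‖) (𝓝 0) (𝓝 ‖Fc r 0‖) := hc.norm
      rw [c12, norm_zero] at h2
      exact h2.eventually (gt_mem_nhds hε)
    filter_upwards [h1, hopen 0 hr0] with t h3 h4
    exact hgr t h4 (k2 _ h3.le)
  have hn2 : ∀ᶠ t in 𝓝 (1 / 2 : ℝ), g t = r t := by
    have h1 : ∀ᶠ t in 𝓝[≠] (1 / 2 : ℝ), 1 / ε ≤ ‖Fc r t‖ := c16.eventually (eventually_ge_atTop _)
    rw [eventually_nhdsWithin_iff] at h1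
    filter_upwards [h1] with t h2
    by_cases ht : r t = r (1 / 2)
    · rw [hgq t ht, ht]
    · have ht' : t ≠ 1 / 2 := fun h => ht (by rw [h])
      refine hgr t ht (k3 _ ?_)
      have h3 := h2 ht'
      rw [div_le_iff₀ hε] at h3
      rwa [mul_comm]
  have hgper : ∀ t, g (t + 1) = g t := by
    intro t
    have h1 := hr.periodic t
    by_cases ht : r t = r (1 / 2)
    · rw [hgq t ht, hgq (t + 1) (by rw [h1]; exact ht)]
    · rw [hgb t ht, hgb (t + 1) (by rw [h1]; exact ht), c10]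
  have hgint : ∀ (n : ℤ) (t : ℝ), g (t - n) = g t := by
    intro n t
    have h : Function.Periodic g 1 := hgper
    have h1 := h.sub_int_mul_eq (x := t) n
    rwa [mul_one] at h1
  have hrint : ∀ (n : ℤ) (t : ℝ), r (t - n) = r t := by
    intro n t
    have h : Function.Periodic r 1 := hr.periodic
    have h1 := h.sub_int_mul_eq (x := t) n
    rwa [mul_one] at h1
  have hnq : ∀ t, r t = r (1 / 2) → g =ᶠ[𝓝 t] r := by
    intro t ht
    obtain ⟨n, hn⟩ := (c5 t).1 ht
    have h1 : Tendsto (fun s : ℝ => s - n) (𝓝 t) (𝓝 (1 / 2)) := by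
      have h2 : Tendsto (fun s : ℝ => s - n) (𝓝 t) (𝓝 (t - n)) :=
        (continuous_id.sub continuous_const).tendsto t
      have h3 : t - n = 1 / 2 := by linarith
      rwa [h3] at h2
    filter_upwards [h1.eventually hn2] with s hs
    rwa [hgint, hrint] at hs
  -- derivative in the chart
  have hder : ∀ t, r t ≠ r (1 / 2) → ContDiffAt ℝ ∞ g t ∧ deriv g t ≠ 0 := by
    intro t ht
    have hev : g =ᶠ[𝓝 t] fun s => back r (sl ε τ (Fc r s)) := by
      filter_upwards [hopen t ht] with s hs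
      exact hgb s hs
    obtain ⟨hF, -, hF'⟩ := c9 t ht
    have hx : sl ε τ (Fc r t) + ph r ≠ 0 := fun h => hne t ht (eq_neg_of_add_eq_zero_left h)
    have hslF : ContDiffAt ℝ ∞ (fun s => sl ε τ (Fc r s) + ph r) t :=
      (s1.contDiffAt.comp t hF).add contDiffAt_const
    constructor
    · refine ContDiffAt.congr_of_eventuallyEq ?_ hev
      have hc : ContDiffAt ℝ ∞ (inv ∘ fun s => sl ε τ (Fc r s) + ph r) t :=
        ContDiffAt.comp t (i9 _ hx) hslF
      have hc2 : ContDiffAt ℝ ∞ (fun s => r (1 / 2) + (inv ∘ fun s => sl ε τ (Fc r s) + ph r) s) t :=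
        contDiffAt_const.add hc
      exact hc2
    · have hd1 : HasDerivAt (Fc r) (deriv (Fc r) t) t :=
        (hF.differentiableAt (by simp)).hasDerivAt
      have hd2 : HasFDerivAt (sl ε τ) (fderiv ℝ (sl ε τ) (Fc r t)) (Fc r t) :=
        ((s1.differentiable (by simp)) (Fc r t)).hasFDerivAt
      have hd3 : HasDerivAt (fun s => sl ε τ (Fc r s)) (fderiv ℝ (sl ε τ) (Fc r t) (deriv (Fc r) t)) t :=
        hd2.comp_hasDerivAt t hd1
      have hd4 := i10 _ _ t hx (hd3.add_const (ph r))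
      have hd5 : HasDerivAt g (dinv (sl ε τ (Fc r t) + ph r)
          (fderiv ℝ (sl ε τ) (Fc r t) (deriv (Fc r) t))) t :=
        (hd4.const_add (r (1 / 2))).congr_of_eventuallyEq hev
      rw [hd5.deriv]
      intro h0
      have h1 := i5 (sl ε τ (Fc r t) + ph r) (fderiv ℝ (sl ε τ) (Fc r t) (deriv (Fc r) t)) hx
      rw [h0, norm_zero] at h1
      have h2 : 0 < ‖deriv (Fc r) t‖ := norm_pos_iff.2 hF'
      have h3 := (s5 (Fc r t) (deriv (Fc r) t)).1
      have h4 : 0 < ‖sl ε τ (Fc r t) + ph r‖ ^ 2 := pow_pos (norm_pos_iff.2 hx) 2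
      have h5 : 0 < ‖fderiv ℝ (sl ε τ) (Fc r t) (deriv (Fc r) t)‖ / ‖sl ε τ (Fc r t) + ph r‖ ^ 2 :=
        div_pos (by linarith) h4
      linarith
  have hknot : MirrorKnot g := by
    refine ⟨⟨?_, hgper, ?_, ?_⟩, ?_, ?_⟩
    · rw [contDiff_iff_contDiffAt]
      intro t
      by_cases ht : r t = r (1 / 2)
      · exact hr.smooth.contDiffAt.congr_of_eventuallyEq (hnq t ht)
      · exact (hder t ht).1
    · intro t
      by_cases ht : r t = r (1 / 2)
      · rw [(hnq t ht).deriv_eq]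
        exact hr.regular t
      · exact (hder t ht).2
    · intro s t hst
      apply hr.inj
      by_cases hs : r s = r (1 / 2)
      · rw [hs, (hgiff t).1 (by rw [← hst]; exact hgq s hs)]
      · have ht : r t ≠ r (1 / 2) := fun h => hs ((hgiff s).1 (by rw [hst]; exact hgq t h))
        have h1 : sl ε τ (Fc r s) = sl ε τ (Fc r t) := by
          rw [← (hgc s hs).1, ← (hgc t ht).1, hst]
        have h2 := s6 (Fc r s) (Fc r t)
        rw [h1, sub_self, norm_zero] at h2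
        have h3 : ‖Fc r s - Fc r t‖ = 0 := le_antisymm (by linarith) (norm_nonneg _)
        exact c14 s t hs ht (sub_eq_zero.1 (norm_eq_zero.1 h3))
    · intro t
      have hiff : r (-t) = r (1 / 2) ↔ r t = r (1 / 2) := by
        rw [c5, c5]
        constructor
        · rintro ⟨n, hn⟩
          exact ⟨-1 - n, by push_cast; linarith⟩
        · rintro ⟨n, hn⟩
          exact ⟨-1 - n, by push_cast; linarith⟩
      by_cases ht : r t = r (1 / 2)
      · rw [hgq t ht, hgq (-t) (hiff.2 ht), mir_fix c2]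
      · rw [hgb t ht, hgb (-t) (fun h => ht (hiff.1 h)), c11, s2]
        unfold back
        rw [mir_add, mir_fix c2, i6, mir_add, mir_fix c3]
    · intro t ht
      have h1 : r t ≠ r (1 / 2) := by
        intro h
        have h2 := hr.pos t ht
        rw [h, c2] at h2
        exact lt_irrefl _ h2
      rw [(hgc t h1).2.2, sl2]
      have hx : sl ε τ (Fc r t) + ph r ≠ 0 := fun h => hne t h1 (eq_neg_of_add_eq_zero_left h)
      exact div_pos (mul_pos (Real.exp_pos _) (c13 t ht)) (pow_pos (norm_pos_iff.2 hx) 2)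
  rw [← hg]
  refine ⟨hknot, hg0, hg2, ?_, hgiff, ?_⟩
  · obtain ⟨d0, hd0, h0⟩ := Metric.eventually_nhds_iff.1 hn0
    obtain ⟨d2, hd2, h2⟩ := Metric.eventually_nhds_iff.1 hn2
    refine ⟨min (min d0 d2) (1 / 4), by positivity, min_le_right _ _, ?_, ?_⟩
    · intro t ht
      refine h0 ?_
      rw [Real.dist_eq, sub_zero]
      exact ht.trans_le ((min_le_left _ _).trans (min_le_left _ _))
    · intro t ht
      refine h2 ?_
      rw [Real.dist_eq]
      exact ht.trans_le ((min_le_left _ _).trans (min_le_right _ _))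
  · intro t ht
    have h1 : Fc g t = ch r (g t) := by
      unfold Fc ch ph
      rw [hg0, hg2]
    rw [h1, (hgc t ht).1]

end MP_e78765_gt
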