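import Pool.Agent.Lib.MP_e78765_gt.Spec3

set_option autoImplicit false

/-! Convergence of the energies of the straightened knots. -/

open scoped ContDiff Topology
open MeasureTheory Set Filter

namespace MP_e78765_gt

namespace Se_aux

lemma qf_self (x a b : E3) : qf x a x b = 0 := by
  unfold qf
  rw [sub_self, norm_zero]
  simp

lemma per {r : ℝ → E3} (hr : IsKnot r) (n : ℤ) (t : ℝ) :
    r (t + n) = r t ∧ deriv r (t + n) = deriv r t := by
  have h1 : Function.Periodic r 1 := hr.periodic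
  have h2 : Function.Periodic r (n * 1) := h1.int_mul n
  have h3 : ∀ x, r (x + n) = r x := by
    intro x
    have := h2 x
    rwa [mul_one] at this
  refine ⟨h3 t, ?_⟩
  have h4 : deriv (fun x => r (x + n)) t = deriv r (t + n) := deriv_comp_add_const r (n : ℝ) t
  rw [← h4, funext h3]

lemma resc (x d : E3) {δ : ℝ} (h : δ ≠ 0) : d - δ⁻¹ • x = (-δ⁻¹) • (x - δ • d) := by
  rw [smul_sub, smul_smul, neg_mul, inv_mul_cancel₀ h, neg_smul, neg_smul, one_smul]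
  abel

/-- the uniform bound for `Q` -/
lemma bound (hMu : S_Mu) {r : ℝ → E3} (hr : IsKnot r) {m M K c : ℝ} (hm : 0 < m) (hM : 0 < M)
    (hc : 0 < c) (hlow : ∀ t, m ≤ ‖deriv r t‖) (hup : ∀ t, ‖deriv r t‖ ≤ M)
    (htay : ∀ s t, ‖r s - r t - (s - t) • deriv r t‖ ≤ K * (s - t) ^ 2)
    (hcb : ∀ s t, |s - t| ≤ 1 / 2 → c * |s - t| ≤ ‖r s - r t‖) :
    ∀ s t, Q r s t ≤ 8 * K ^ 2 * (M / m) / c ^ 2 := by
  intro s t
  have hn := abs_sub_round (s - t)
  set n : ℤ := round (s - t) with hndef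
  obtain ⟨hs1, hs2⟩ := per hr (-n) s
  obtain ⟨s', hs'⟩ : ∃ s', s' = s + ((-n : ℤ) : ℝ) := ⟨_, rfl⟩
  rw [← hs'] at hs1 hs2
  have hQ : Q r s t = Q r s' t := by
    unfold Q
    rw [hs1, hs2]
  have hd : |s' - t| ≤ 1 / 2 := by
    rw [hs']
    push_cast
    have : s + -(n : ℝ) - t = s - t - n := by ring
    rwa [this]
  rw [hQ]
  have hpos : 0 ≤ 8 * K ^ 2 * (M / m) / c ^ 2 := by positivity
  by_cases hst : s' = t
  · rw [hst]
    unfold Q
    rw [qf_self]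
    exact hpos
  have hδ : 0 < |s' - t| := abs_pos.2 (sub_ne_zero.2 hst)
  have hne : s' - t ≠ 0 := sub_ne_zero.2 hst
  have h1 := hMu (r s') (deriv r s') (r t) (deriv r t) (s' - t)⁻¹ (s' - t)⁻¹
    (mul_self_nonneg _)
  have hb : ‖deriv r t - (s' - t)⁻¹ • (r s' - r t)‖ ≤ K * |s' - t| := by
    rw [resc _ _ hne, norm_smul, norm_neg, norm_inv, Real.norm_eq_abs]
    have e2 := htay s' t
    rw [← sq_abs (s' - t)] at e2
    calc |s' - t|⁻¹ * ‖r s' - r t - (s' - t) • deriv r t‖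
        ≤ |s' - t|⁻¹ * (K * |s' - t| ^ 2) :=
          mul_le_mul_of_nonneg_left e2 (inv_nonneg.2 hδ.le)
      _ = K * |s' - t| := by
          field_simp
  have ha : ‖deriv r s' - (s' - t)⁻¹ • (r s' - r t)‖ ≤ K * |s' - t| := by
    have e1 : r s' - r t - (s' - t) • deriv r s' =
        -(r t - r s' - (t - s') • deriv r s') := by
      rw [← neg_sub s' t, neg_smul]
      abel
    rw [resc _ _ hne, norm_smul, norm_neg, norm_inv, Real.norm_eq_abs, e1, norm_neg]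
    have e2 := htay t s'
    rw [← sq_abs (t - s'), abs_sub_comm t s'] at e2
    calc |s' - t|⁻¹ * ‖r t - r s' - (t - s') • deriv r s'‖
        ≤ |s' - t|⁻¹ * (K * |s' - t| ^ 2) :=
          mul_le_mul_of_nonneg_left e2 (inv_nonneg.2 hδ.le)
      _ = K * |s' - t| := by
          field_simp
  have hrat : ∀ u v, ‖deriv r u‖ / ‖deriv r v‖ ≤ M / m := by
    intro u v
    exact div_le_div₀ hM.le (hup u) hm (hlow v)
  have hN : c * |s' - t| ≤ ‖r s' - r t‖ := hcb s' t hd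
  have hNpos : 0 < c * |s' - t| := mul_pos hc hδ
  unfold Q
  refine h1.trans ?_
  have hA : ‖deriv r s' - (s' - t)⁻¹ • (r s' - r t)‖ ^ 2 * (‖deriv r t‖ / ‖deriv r s'‖) ≤
      (K * |s' - t|) ^ 2 * (M / m) :=
    mul_le_mul (pow_le_pow_left₀ (norm_nonneg _) ha 2) (hrat _ _) (by positivity) (by positivity)
  have hB : ‖deriv r t - (s' - t)⁻¹ • (r s' - r t)‖ ^ 2 * (‖deriv r s'‖ / ‖deriv r t‖) ≤
      (K * |s' - t|) ^ 2 * (M / m) :=
    mul_le_mul (pow_le_pow_left₀ (norm_nonneg _) hb 2) (hrat _ _) (by positivity) (by positivity)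
  calc 4 * (‖deriv r s' - (s' - t)⁻¹ • (r s' - r t)‖ ^ 2 * (‖deriv r t‖ / ‖deriv r s'‖) +
        ‖deriv r t - (s' - t)⁻¹ • (r s' - r t)‖ ^ 2 * (‖deriv r s'‖ / ‖deriv r t‖)) /
        ‖r s' - r t‖ ^ 2
      ≤ 4 * ((K * |s' - t|) ^ 2 * (M / m) + (K * |s' - t|) ^ 2 * (M / m)) /
        (c * |s' - t|) ^ 2 := by
        refine div_le_div₀ (by positivity) ?_ (by positivity) (pow_le_pow_left₀ hNpos.le hN 2)
        linarith
    _ = 8 * K ^ 2 * (M / m) / c ^ 2 := by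
        field_simp
        ring

lemma sin_ne {t : ℝ} (ht : t ∈ Ioo (0 : ℝ) 1) (h : t ≠ 1 / 2) : Real.sin (2 * Real.pi * t) ≠ 0 := by
  intro h0
  obtain ⟨n, hn⟩ := Real.sin_eq_zero_iff.1 h0
  have hπ := Real.pi_pos
  have h1 : (n : ℝ) = 2 * t := by
    have h2 : (n : ℝ) * Real.pi = (2 * t) * Real.pi := by
      rw [hn]
      ring
    exact mul_right_cancel₀ hπ.ne' h2
  have h3 : (0 : ℝ) < n := by
    rw [h1]
    linarith [ht.1]
  have h4 : (n : ℝ) < 2 := by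
    rw [h1]
    linarith [ht.2]
  have h5 : 0 < n := by exact_mod_cast h3
  have h6 : n < 2 := by exact_mod_cast h4
  have h7 : n = 1 := by omega
  rw [h7] at h1
  apply h
  push_cast at h1
  linarith

/-- near `t` the straightened knot is the old one -/
lemma near (hYc : S_Yc) (r ℓ : ℝ → E3) {t : ℝ} (ht : t ∈ Ioo (0 : ℝ) 1) (h : t ≠ 1 / 2) :
    ∀ᶠ δ in 𝓝[>] (0 : ℝ), rst δ r ℓ t = r t ∧ deriv (rst δ r ℓ) t = deriv r t := by
  obtain ⟨B, -, hY⟩ := hYc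
  have h1 := sin_ne ht h
  have h2 : 0 < Real.sin (2 * Real.pi * t) ^ 2 := by positivity
  have h3 : ∀ᶠ δ in 𝓝[>] (0 : ℝ), 2 * δ ^ 2 < Real.sin (2 * Real.pi * t) ^ 2 := by
    have h4 : Tendsto (fun δ : ℝ => 2 * δ ^ 2) (𝓝[>] 0) (𝓝 0) := by
      have h5 : Continuous (fun δ : ℝ => 2 * δ ^ 2) := by fun_prop
      have h6 := h5.tendsto 0
      simp only [ne_eq, OfNat.ofNat_ne_zero, not_false_eq_true, zero_pow, mul_zero] at h6
      exact h6.mono_left nhdsWithin_le_nhds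
    exact h4.eventually (gt_mem_nhds h2)
  have h7 : ∀ᶠ δ in 𝓝[>] (0 : ℝ), δ ≤ 1 / 4 :=
    (eventually_le_nhds (show (0 : ℝ) < 1 / 4 by norm_num)).filter_mono nhdsWithin_le_nhds
  filter_upwards [h3, h7, self_mem_nhdsWithin] with δ hδ1 hδ2 hδ3
  have hδ : 0 < δ := hδ3
  obtain ⟨-, -, -, -, -, -, hz, -, -⟩ := hY δ hδ hδ2
  have h8 : ∀ᶠ t' in 𝓝 t, 2 * δ ^ 2 < Real.sin (2 * Real.pi * t') ^ 2 := by
    have h9 : Continuous (fun t' : ℝ => Real.sin (2 * Real.pi * t') ^ 2) := by fun_prop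
    exact (h9.tendsto t).eventually (lt_mem_nhds hδ1)
  have h10 : rst δ r ℓ =ᶠ[𝓝 t] r := by
    filter_upwards [h8] with t' ht'
    unfold rst Dd
    rw [hz t' ht'.le, zero_smul, add_zero]
  exact ⟨h10.eq_of_nhds, h10.deriv_eq⟩

end Se_aux

open Se_aux

theorem tSe : S_DS → S_QB → S_Mu → S_Alg → S_Sk → S_Yc → S_Se := by
  intro hDS hQB hMu hAlg hSk hYc r ℓ hr hax h0 h2
  obtain ⟨δ0, m, M, K, c, κ, hδ0, hδ4, hm, hM, hK, hc, hκ, hall⟩ := hSk r ℓ hr hax h0 h2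
  have hev : ∀ᶠ δ in 𝓝[>] (0 : ℝ), δ ∈ Ioo (0 : ℝ) δ0 := Ioo_mem_nhdsGT hδ0
  have hfin : (volume : Measure (ℝ × ℝ)) (Ioo (0 : ℝ) 1 ×ˢ Ioo (0 : ℝ) 1) ≠ ⊤ := by
    rw [Measure.volume_eq_prod, Measure.prod_prod, Real.volume_Ioo]
    exact ENNReal.mul_ne_top ENNReal.ofReal_ne_top ENNReal.ofReal_ne_top
  have hne1 : ∀ᵐ x : ℝ, x ≠ 1 / 2 := by
    have h := (Set.countable_singleton (1 / 2 : ℝ)).ae_notMem (volume : Measure ℝ)
    filter_upwards [h] with x hx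
    exact hx
  have hneF : ∀ᵐ z : ℝ × ℝ, z.1 ≠ 1 / 2 := by
    rw [Measure.volume_eq_prod]
    exact Measure.quasiMeasurePreserving_fst.ae hne1
  have hneS : ∀ᵐ z : ℝ × ℝ, z.2 ≠ 1 / 2 := by
    rw [Measure.volume_eq_prod]
    exact Measure.quasiMeasurePreserving_snd.ae hne1
  have hms : MeasurableSet (Ioo (0 : ℝ) 1 ×ˢ Ioo (0 : ℝ) 1) :=
    measurableSet_Ioo.prod measurableSet_Ioo
  have hlim : Tendsto (fun δ => ∫ z in Ioo (0 : ℝ) 1 ×ˢ Ioo (0 : ℝ) 1,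
      Q (rst δ r ℓ) z.1 z.2) (𝓝[>] 0)
      (𝓝 (∫ z in Ioo (0 : ℝ) 1 ×ˢ Ioo (0 : ℝ) 1, Q r z.1 z.2)) := by
    refine tendsto_integral_filter_of_dominated_convergence
      (fun _ => 8 * K ^ 2 * (M / m) / c ^ 2) ?_ ?_ ?_ ?_
    · filter_upwards [hev] with δ hδ
      exact (hQB _ (hall δ hδ).1.toIsKnot).2.1.aestronglyMeasurable
    · filter_upwards [hev] with δ hδ
      obtain ⟨hk, -, -, -, -, -, hd, -, htay, hch, -⟩ := hall δ hδ
      refine Eventually.of_forall (fun z => ?_)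
      have hnn : 0 ≤ Q (rst δ r ℓ) z.1 z.2 := hAlg.2.1 _ _ _ _
      rw [Real.norm_of_nonneg hnn]
      exact bound hMu hk.toIsKnot hm hM hc (fun t => (hd t).1) (fun t => (hd t).2) htay hch _ _
    · exact integrableOn_const hfin
    · have h3 := ae_restrict_mem (μ := (volume : Measure (ℝ × ℝ))) hms
      filter_upwards [h3, ae_restrict_of_ae hneF, ae_restrict_of_ae hneS] with z hz hz1 hz2
      have h4 := near hYc r ℓ hz.1 hz1
      have h5 := near hYc r ℓ hz.2 hz2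
      refine tendsto_nhds_of_eventually_eq ?_
      filter_upwards [h4, h5] with δ h6 h7
      unfold Q
      rw [h6.1, h6.2, h7.1, h7.2]
  rw [hDS r hr.toIsKnot]
  refine (tendsto_const_nhds.add hlim).congr' ?_
  filter_upwards [hev] with δ hδ
  exact (hDS _ (hall δ hδ).1.toIsKnot).symm

end MP_e78765_gt
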