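import Pool.Agent.Lib.MP_e78765_gt.Spec5

/-!
# The inverse of a change of the parameter (MP_e78765_gt, THEOREM R4)
-/

set_option autoImplicit false

open scoped ContDiff Topology
open MeasureTheory Set Filter

namespace MP_e78765_gt

namespace SgI_aux

theorem hasDeriv {s : ℝ → ℝ} (h : ContDiff ℝ ∞ s) (t : ℝ) : HasDerivAt s (deriv s t) t :=
  ((h.differentiable (by simp)) t).hasDerivAt

theorem s_add_nat {s : ℝ → ℝ} (h : ∀ t, s (t + 1) = s t + 1) (t : ℝ) (k : ℕ) :
    s (t + k) = s t + k := by
  induction k with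
  | zero => simp
  | succ k ih =>
    rw [Nat.cast_succ, ← add_assoc, h, ih, add_assoc]

theorem s_surj {s : ℝ → ℝ} (hs : Continuous s) (hm : StrictMono s)
    (h : ∀ t, s (t + 1) = s t + 1) : Function.Surjective s := by
  apply hs.surjective
  · refine Filter.tendsto_atTop_mono' _ ?_ (tendsto_atTop_add_const_right _ (s 0 - 1) tendsto_id)
    filter_upwards [Filter.eventually_ge_atTop (0 : ℝ)] with t ht
    have h1 : s ((0 : ℝ) + (⌊t⌋₊ : ℕ)) ≤ s t := by
      apply hm.monotone
      rw [zero_add]
      exact Nat.floor_le ht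
    rw [s_add_nat h] at h1
    have h2 := Nat.lt_floor_add_one t
    show t + (s 0 - 1) ≤ s t
    linarith
  · refine Filter.tendsto_atBot_mono' _ ?_ (tendsto_atBot_add_const_right _ (s 0 + 1) tendsto_id)
    filter_upwards [Filter.eventually_le_atBot (0 : ℝ)] with t ht
    have h1 : s t ≤ s (-(⌊-t⌋₊ : ℝ)) := by
      apply hm.monotone
      have := Nat.floor_le (neg_nonneg.2 ht)
      linarith
    have h3 := s_add_nat h (-(⌊-t⌋₊ : ℝ)) ⌊-t⌋₊
    rw [neg_add_cancel] at h3
    have h2 := Nat.lt_floor_add_one (-t)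
    show s t ≤ t + (s 0 + 1)
    linarith

end SgI_aux

open SgI_aux in
theorem tSgI : S_SgI := by
  intro s hs hpos hadd
  have hm : StrictMono s := strictMono_of_deriv_pos hpos
  have hsu := s_surj hs.continuous hm hadd
  let e : ℝ ≃ₜ ℝ := (StrictMono.orderIsoOfSurjective s hm hsu).toHomeomorph
  have he : ∀ t, e t = s t := fun t => rfl
  have hsm : ContDiff ℝ ∞ (e.symm : ℝ → ℝ) :=
    Homeomorph.contDiff_symm_deriv (f := e) (f' := fun t => deriv s t)
      (fun t => (hpos t).ne') (fun t => hasDeriv hs t) hs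
  have hd : ∀ t, deriv s (e.symm t) * deriv e.symm t = 1 := by
    intro t
    have h1 : HasDerivAt (e.symm : ℝ → ℝ) (deriv e.symm t) t := hasDeriv hsm t
    have h2 := (hasDeriv hs (e.symm t)).comp t h1
    have h3 : (s ∘ e.symm) = id := by
      funext x
      exact e.apply_symm_apply x
    rw [h3] at h2
    exact h2.unique (hasDerivAt_id t)
  refine ⟨e.symm, hsm, ?_, ?_, ?_, ?_⟩
  · intro t
    have h1 := hd t
    have h2 := hpos (e.symm t)
    by_contra hneg
    push Not at hneg
    have h3 := mul_nonpos_of_nonneg_of_nonpos h2.le hneg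
    rw [h1] at h3
    linarith
  · intro t
    apply e.injective
    rw [e.apply_symm_apply, he, hadd, ← he, e.apply_symm_apply]
  · intro t
    exact e.apply_symm_apply t
  · intro t
    exact e.symm_apply_apply t

end MP_e78765_gt
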