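import Pool.Agent.Lib.MP_e78765_gt.Spec3

/-! Isotopy of the straightening (module Si of THEOREM R2, MP_e78765_gt). -/

open scoped ContDiff Topology
open MeasureTheory Set Filter

namespace MP_e78765_gt

namespace Si_aux

private theorem mir_add (x y : E3) : mir (x + y) = mir x + mir y := by
  ext i
  fin_cases i
  · simp [mir]
  · simp [mir]
  · simp [mir]; ring

private theorem chord (r D : ℝ → E3) (c K : ℝ) (hc : 0 < c) (hK : 0 ≤ K)
    (hr : ∀ t, r (t + 1) = r t) (hD : ∀ t, D (t + 1) = D t)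
    (hca : ∀ s t, |s - t| ≤ 1 / 2 → c * |s - t| ≤ ‖r s - r t‖)
    (hDl : ∀ s t, ‖D s - D t‖ ≤ K * |s - t|) (s t : ℝ) :
    ‖D s - D t‖ ≤ (K / c) * ‖r s - r t‖ := by
  have pr : Function.Periodic r 1 := hr
  have pD : Function.Periodic D 1 := hD
  have er : r (s - round (s - t)) = r s := by
    have := pr.sub_zsmul_eq (round (s - t)) (x := s)
    rwa [zsmul_one] at this
  have eD : D (s - round (s - t)) = D s := by
    have := pD.sub_zsmul_eq (round (s - t)) (x := s)
    rwa [zsmul_one] at this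
  have hab : |s - round (s - t) - t| ≤ 1 / 2 := by
    have h := abs_sub_round (s - t)
    have e : s - round (s - t) - t = s - t - round (s - t) := by ring
    rw [e]
    exact h
  have h1 := hca _ _ hab
  have h2 := hDl (s - round (s - t)) t
  rw [er] at h1
  rw [eD] at h2
  have h3 : K * |s - round (s - t) - t| = (K / c) * (c * |s - round (s - t) - t|) := by
    field_simp
  calc ‖D s - D t‖ ≤ (K / c) * (c * |s - round (s - t) - t|) := by rw [← h3]; exact h2
    _ ≤ (K / c) * ‖r s - r t‖ := mul_le_mul_of_nonneg_left h1 (div_nonneg hK hc.le)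

end Si_aux

theorem tSi : S_Pert → S_Dd → S_Bd → S_Sk → S_Si := by
  intro hPert hDd hBd _ r l hr ha h0 h1
  obtain ⟨C, hC, hDC⟩ := hDd r l hr ha h0 h1
  obtain ⟨c, hc, hca⟩ := (hBd r hr.toIsKnot).2 (1 / 2) (by norm_num)
  refine ⟨min (1 / 4) (c / (4 * C)), lt_min (by norm_num) (by positivity), ?_⟩
  intro d hd
  have hd0 : 0 < d := hd.1
  have hd1 : d ≤ 1 / 4 := hd.2.le.trans (min_le_left _ _)
  have hd2 : d ≤ c / (4 * C) := hd.2.le.trans (min_le_right _ _)
  obtain ⟨-, hper, hsym, -, hlip, -⟩ := hDC d hd0 hd1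
  have hk : C * d / c ≤ 1 / 4 := by
    rw [div_le_iff₀ hc]
    rw [le_div_iff₀ (by positivity)] at hd2
    linarith
  refine hPert r (rst d r l) (C * d / c) (by positivity) hk ?_ hr.sym ?_
  · intro s t
    have e : (rst d r l s - rst d r l t) - (r s - r t) = Dd d r l s - Dd d r l t := by
      unfold rst
      abel
    rw [e]
    exact Si_aux.chord r (Dd d r l) c (C * d) hc (by positivity) hr.periodic hper hca hlip s t
  · intro t
    unfold rst
    rw [Si_aux.mir_add, hr.sym, hsym]

end MP_e78765_gt
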