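import Pool.Agent.Lib.MP_e78765_gt.Spec2

/-!
# Constant speed parameter (MP_e78765_gt)
-/

set_option autoImplicit false

open scoped ContDiff Topology
open MeasureTheory Set Filter

namespace MP_e78765_gt

namespace Sig_aux

theorem smooth_deriv {r : ℝ → E3} (h : IsKnot r) : ContDiff ℝ ∞ (deriv r) := by
  have := contDiff_infty_iff_deriv.1 h.smooth
  exact this.2

theorem smooth_speed {r : ℝ → E3} (h : IsKnot r) : ContDiff ℝ ∞ fun t => ‖deriv r t‖ :=
  (smooth_deriv h).norm ℝ h.regular

theorem deriv_periodic {r : ℝ → E3} (h : IsKnot r) (t : ℝ) : deriv r (t + 1) = deriv r t := by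
  have e : (fun t => r (t + 1)) = r := funext h.periodic
  have := deriv_comp_add_const (f := r) (a := 1) (x := t)
  rw [← this, e]

/-- the normalised arc length -/
noncomputable def s (r : ℝ → E3) (t0 t : ℝ) : ℝ := (∫ x in t0..t, ‖deriv r x‖) / len r 0 1

theorem len_pos {r : ℝ → E3} (h : IsKnot r) : 0 < len r 0 1 := by
  unfold len
  apply intervalIntegral.intervalIntegral_pos_of_pos
  · exact (smooth_speed h).continuous.intervalIntegrable _ _
  · intro x
    exact norm_pos_iff.2 (h.regular x)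
  · exact one_pos

theorem s_hasDeriv {r : ℝ → E3} (h : IsKnot r) (t0 t : ℝ) :
    HasDerivAt (s r t0) (‖deriv r t‖ / len r 0 1) t := by
  have hc := (smooth_speed h).continuous
  have := intervalIntegral.integral_hasDerivAt_right (hc.intervalIntegrable t0 t)
    hc.aestronglyMeasurable.stronglyMeasurableAtFilter hc.continuousAt
  exact this.div_const _

theorem s_smooth {r : ℝ → E3} (h : IsKnot r) (t0 : ℝ) : ContDiff ℝ ∞ (s r t0) := by
  rw [contDiff_infty_iff_deriv]
  refine ⟨fun t => (s_hasDeriv h t0 t).differentiableAt, ?_⟩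
  have e : deriv (s r t0) = fun t => ‖deriv r t‖ / len r 0 1 :=
    funext fun t => (s_hasDeriv h t0 t).deriv
  rw [e]
  exact (smooth_speed h).div_const _

theorem s_mono {r : ℝ → E3} (h : IsKnot r) (t0 : ℝ) : StrictMono (s r t0) := by
  apply strictMono_of_deriv_pos
  intro t
  rw [(s_hasDeriv h t0 t).deriv]
  exact div_pos (norm_pos_iff.2 (h.regular t)) (len_pos h)

theorem s_add_one {r : ℝ → E3} (h : IsKnot r) (t0 t : ℝ) : s r t0 (t + 1) = s r t0 t + 1 := by
  have hL := len_pos h
  have hc := (smooth_speed h).continuous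
  have e1 : ∫ x in t0..(t + 1), ‖deriv r x‖ =
      (∫ x in t0..t, ‖deriv r x‖) + ∫ x in t..(t + 1), ‖deriv r x‖ :=
    (intervalIntegral.integral_add_adjacent_intervals (hc.intervalIntegrable _ _)
      (hc.intervalIntegrable _ _)).symm
  have hp : Function.Periodic (fun x => ‖deriv r x‖) 1 := fun x => by
    show ‖deriv r (x + 1)‖ = ‖deriv r x‖
    rw [deriv_periodic h]
  have e2 : ∫ x in t..(t + 1), ‖deriv r x‖ = len r 0 1 := by
    have := hp.intervalIntegral_add_eq t 0
    rw [this, zero_add]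
    rfl
  unfold s
  rw [e1, e2, add_div, div_self hL.ne']

theorem s_base (r : ℝ → E3) (t0 : ℝ) : s r t0 t0 = 0 := by
  unfold s
  rw [intervalIntegral.integral_same, zero_div]

theorem s_add_nat {r : ℝ → E3} (h : IsKnot r) (t0 t : ℝ) (k : ℕ) :
    s r t0 (t + k) = s r t0 t + k := by
  induction k with
  | zero => simp
  | succ k ih =>
    rw [Nat.cast_succ, ← add_assoc, s_add_one h, ih, add_assoc]

theorem s_surj {r : ℝ → E3} (h : IsKnot r) (t0 : ℝ) : Function.Surjective (s r t0) := by
  have hc : Continuous (s r t0) := (s_smooth h t0).continuous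
  apply hc.surjective
  · refine Filter.tendsto_atTop_mono' _ ?_ (tendsto_atTop_add_const_right _ (s r t0 0 - 1) tendsto_id)
    filter_upwards [Filter.eventually_ge_atTop (0 : ℝ)] with t ht
    have h1 : s r t0 ((0 : ℝ) + (⌊t⌋₊ : ℕ)) ≤ s r t0 t := by
      apply (s_mono h t0).monotone
      rw [zero_add]
      exact Nat.floor_le ht
    rw [s_add_nat h] at h1
    have h2 := Nat.lt_floor_add_one t
    show t + (s r t0 0 - 1) ≤ s r t0 t
    linarith
  · refine Filter.tendsto_atBot_mono' _ ?_ (tendsto_atBot_add_const_right _ (s r t0 0 + 1) tendsto_id)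
    filter_upwards [Filter.eventually_le_atBot (0 : ℝ)] with t ht
    have h1 : s r t0 t ≤ s r t0 (-(⌊-t⌋₊ : ℝ)) := by
      apply (s_mono h t0).monotone
      have := Nat.floor_le (neg_nonneg.2 ht)
      linarith
    have h3 := s_add_nat h t0 (-(⌊-t⌋₊ : ℝ)) ⌊-t⌋₊
    rw [neg_add_cancel] at h3
    have h2 := Nat.lt_floor_add_one (-t)
    show s r t0 t ≤ t + (s r t0 0 + 1)
    linarith

end Sig_aux

open Sig_aux in
theorem tSig : S_Sig := by
  intro r t0 h
  let e : ℝ ≃ₜ ℝ := (StrictMono.orderIsoOfSurjective (s r t0) (s_mono h t0) (s_surj h t0)).toHomeomorph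
  have he : ∀ t, e t = s r t0 t := fun t => rfl
  have hL := len_pos h
  have hn : ∀ t, 0 < ‖deriv r t‖ := fun t => norm_pos_iff.2 (h.regular t)
  have hsm : ContDiff ℝ ∞ (e.symm : ℝ → ℝ) :=
    Homeomorph.contDiff_symm_deriv (f := e) (f' := fun t => ‖deriv r t‖ / len r 0 1)
      (fun t => (div_pos (hn t) hL).ne') (fun t => s_hasDeriv h t0 t) (s_smooth h t0)
  have hd : ∀ t, ‖deriv r (e.symm t)‖ / len r 0 1 * deriv e.symm t = 1 := by
    intro t
    have h1 : HasDerivAt (e.symm : ℝ → ℝ) (deriv e.symm t) t :=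
      ((hsm.differentiable (by simp)) t).hasDerivAt
    have h2 := (s_hasDeriv h t0 (e.symm t)).comp t h1
    have h3 : (s r t0 ∘ e.symm) = id := by
      funext x
      exact e.apply_symm_apply x
    rw [h3] at h2
    exact h2.unique (hasDerivAt_id t)
  refine ⟨e.symm, len r 0 1, hsm, ?_, ?_, ?_, hL, ?_⟩
  · intro t
    have h1 := hd t
    have h2 : 0 < ‖deriv r (e.symm t)‖ / len r 0 1 := div_pos (hn _) hL
    by_contra hneg
    push Not at hneg
    have h3 := mul_nonpos_of_nonneg_of_nonpos h2.le hneg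
    rw [h1] at h3
    linarith
  · intro t
    apply e.injective
    rw [e.apply_symm_apply, he, s_add_one h, ← he, e.apply_symm_apply]
  · apply e.injective
    rw [e.apply_symm_apply, he, s_base]
  · intro t
    have h1 := hd t
    rw [div_mul_eq_mul_div, div_eq_iff hL.ne', one_mul] at h1
    exact h1

end MP_e78765_gt
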