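import Pool.Agent.Lib.MP_e78765_gt.Spec3

/-!
# Module Sk: the straightened knots, with uniform bounds
-/

set_option autoImplicit false

open scoped ContDiff Topology
open MeasureTheory Set Filter

namespace MP_e78765_gt

namespace Sk_aux

lemma mir0 (x : E3) : (mir x) 0 = x 0 := by simp [mir]

lemma mir1 (x : E3) : (mir x) 1 = x 1 := by simp [mir]

lemma mir2 (x : E3) : (mir x) 2 = -x 2 := by simp [mir]

lemma taylor {r : ℝ → E3} {K : ℝ}
    (h : ∀ s t, ‖r s - r t - (s - t) • deriv r t‖ ≤ K * (s - t) ^ 2) (i : Fin 3) (s t : ℝ) :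
    |r s i - r t i - (s - t) * deriv r t i| ≤ K * (s - t) ^ 2 := by
  have := (PiLp.norm_apply_le (r s - r t - (s - t) • deriv r t) i).trans (h s t)
  simpa using this

lemma deriv_zero {r : ℝ → E3} {K : ℝ} (hK : 0 < K)
    (h : ∀ s t, ‖r s - r t - (s - t) • deriv r t‖ ≤ K * (s - t) ^ 2) (i : Fin 3) (c : ℝ)
    (hsym : ∀ s, r (c + s) i = r (c - s) i) : deriv r c i = 0 := by
  by_contra hne
  have hd : 0 < |deriv r c i| := abs_pos.2 hne
  set d := deriv r c i with hdd
  have hs : 0 < |d| / (2 * K) := by positivity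
  set s := |d| / (2 * K) with hss
  have h1 := taylor h i (c + s) c
  have h2 := taylor h i (c - s) c
  rw [← hdd] at h1 h2
  rw [hsym s] at h1
  have e1 : c + s - c = s := by ring
  have e2 : c - s - c = -s := by ring
  rw [e1] at h1
  rw [e2] at h2
  obtain ⟨h1a, h1b⟩ := abs_le.1 h1
  obtain ⟨h2a, h2b⟩ := abs_le.1 h2
  have h3 : s * |d| ≤ K * s ^ 2 := by
    rcases abs_cases d with ⟨ha, _⟩ | ⟨ha, _⟩ <;> rw [ha] <;> nlinarith
  have h4 : K * s = |d| / 2 := by
    rw [hss]; field_simp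
  have h5 : s * |d| ≤ s * (|d| / 2) := by
    rw [← h4]; linarith
  have h6 := le_of_mul_le_mul_left h5 hs
  linarith

lemma third {r : ℝ → E3} {K : ℝ} (hr : ∀ t, deriv r t ≠ 0) (hK : 0 < K)
    (h : ∀ s t, ‖r s - r t - (s - t) • deriv r t‖ ≤ K * (s - t) ^ 2) (c : ℝ)
    (hsym : ∀ s, r (c + s) 0 = r (c - s) 0 ∧ r (c + s) 1 = r (c - s) 1) :
    deriv r c 0 = 0 ∧ deriv r c 1 = 0 ∧ deriv r c 2 ≠ 0 := by
  have h0 := deriv_zero hK h 0 c (fun s => (hsym s).1)
  have h1 := deriv_zero hK h 1 c (fun s => (hsym s).2)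
  refine ⟨h0, h1, fun h2 => hr c ?_⟩
  ext i
  fin_cases i
  · exact h0
  · exact h1
  · exact h2

/-- lower bound at an end point -/
lemma pos_of {α K : ℝ} (hα : α ≠ 0) (hK : 0 < K) (g : ℝ → ℝ)
    (hg : ∀ s ∈ Ioo (0 : ℝ) (1 / 2), 0 < g s) (h : ∀ s, |g s - s * α| ≤ K * s ^ 2) : 0 < α := by
  by_contra hc
  have hα' : α < 0 := lt_of_le_of_ne (not_lt.1 hc) hα
  have hs : 0 < min (1 / 4) (-α / K) := lt_min (by norm_num) (div_pos (by linarith) hK)
  set s := min (1 / 4) (-α / K) with hss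
  have hs1 : s ≤ 1 / 4 := min_le_left _ _
  have hs2 : s ≤ -α / K := min_le_right _ _
  have h1 := hg s ⟨hs, by linarith⟩
  have h2 := (abs_le.1 (h s)).2
  have h3 : K * s ≤ -α := by
    rw [le_div_iff₀ hK] at hs2; linarith
  nlinarith

lemma lower {α β K : ℝ} (hα : 0 < α) (hβ : 0 < β) (hK : 0 < K) (g : ℝ → ℝ) (hgc : Continuous g)
    (hg : ∀ s ∈ Ioo (0 : ℝ) (1 / 2), 0 < g s) (h : ∀ s, |g s - s * α| ≤ K * s ^ 2)
    (h' : ∀ s, |g (1 / 2 - s) - s * β| ≤ K * s ^ 2) :
    ∃ c : ℝ, 0 < c ∧ ∀ t ∈ Ioo (0 : ℝ) (1 / 2), c * (t * (1 / 2 - t)) ≤ g t := by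
  have hδ : 0 < min (1 / 4) (min (α / (2 * K)) (β / (2 * K))) :=
    lt_min (by norm_num) (lt_min (by positivity) (by positivity))
  set δ := min (1 / 4) (min (α / (2 * K)) (β / (2 * K))) with hδδ
  have hδ1 : δ ≤ 1 / 4 := min_le_left _ _
  have hδ2 : δ ≤ α / (2 * K) := (min_le_right _ _).trans (min_le_left _ _)
  have hδ3 : δ ≤ β / (2 * K) := (min_le_right _ _).trans (min_le_right _ _)
  have hδ2' : K * δ ≤ α / 2 := by
    rw [le_div_iff₀ (by positivity)] at hδ2; linarith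
  have hδ3' : K * δ ≤ β / 2 := by
    rw [le_div_iff₀ (by positivity)] at hδ3; linarith
  obtain ⟨t0, ht0, hmin⟩ := (isCompact_Icc (a := δ) (b := 1 / 2 - δ)).exists_isMinOn
    (nonempty_Icc.2 (by linarith)) hgc.continuousOn
  have hm : 0 < g t0 := hg t0 ⟨by linarith [ht0.1], by linarith [ht0.2]⟩
  refine ⟨min α (min β (g t0)), lt_min hα (lt_min hβ hm), ?_⟩
  intro t ht
  have ht1 := ht.1
  have ht2 := ht.2
  have hpos : 0 < t * (1 / 2 - t) := mul_pos ht1 (by linarith)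
  rcases le_or_gt t δ with h1 | h1
  · have h2 : min α (min β (g t0)) ≤ α := min_le_left _ _
    have h3 := (abs_le.1 (h t)).1
    have h4 : K * t ≤ α / 2 := (mul_le_mul_of_nonneg_left h1 hK.le).trans hδ2'
    have h5 : min α (min β (g t0)) * (t * (1 / 2 - t)) ≤ α * (t * (1 / 2 - t)) :=
      mul_le_mul_of_nonneg_right h2 hpos.le
    have h6 : K * t ^ 2 ≤ α / 2 * t := by nlinarith
    have h7 : α * (t * (1 / 2 - t)) ≤ α * (t * (1 / 2)) := by
      apply mul_le_mul_of_nonneg_left _ hα.le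
      apply mul_le_mul_of_nonneg_left _ ht1.le
      linarith
    linarith
  · rcases le_or_gt (1 / 2 - δ) t with h1' | h1'
    · have h2 : min α (min β (g t0)) ≤ β := (min_le_right _ _).trans (min_le_left _ _)
      have h3 := (abs_le.1 (h' (1 / 2 - t))).1
      have e : 1 / 2 - (1 / 2 - t) = t := by ring
      rw [e] at h3
      have hs : 0 < 1 / 2 - t := by linarith
      have h4 : K * (1 / 2 - t) ≤ β / 2 :=
        (mul_le_mul_of_nonneg_left (by linarith) hK.le).trans hδ3'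
      have h5 : min α (min β (g t0)) * (t * (1 / 2 - t)) ≤ β * (t * (1 / 2 - t)) :=
        mul_le_mul_of_nonneg_right h2 hpos.le
      have h6 : K * (1 / 2 - t) ^ 2 ≤ β / 2 * (1 / 2 - t) := by nlinarith
      have h7 : β * (t * (1 / 2 - t)) ≤ β * (1 / 2 * (1 / 2 - t)) := by
        apply mul_le_mul_of_nonneg_left _ hβ.le
        apply mul_le_mul_of_nonneg_right _ hs.le
        linarith
      linarith
    · have h2 : min α (min β (g t0)) ≤ g t0 := (min_le_right _ _).trans (min_le_right _ _)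
      have h3 : g t0 ≤ g t := hmin ⟨h1.le, h1'.le⟩
      have h5 : min α (min β (g t0)) * (t * (1 / 2 - t)) ≤ g t0 * (t * (1 / 2 - t)) :=
        mul_le_mul_of_nonneg_right h2 hpos.le
      have h6 : g t0 * (t * (1 / 2 - t)) ≤ g t0 * 1 := by
        apply mul_le_mul_of_nonneg_left _ hm.le
        nlinarith
      linarith

lemma zero2 {r : ℝ → E3} (hr : MirrorKnot r) : r 0 2 = 0 ∧ r (1 / 2) 2 = 0 := by
  constructor
  · have h1 := hr.sym 0
    rw [neg_zero] at h1
    have h2 : r 0 2 = -r 0 2 := by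
      conv_lhs => rw [h1]
      exact mir2 _
    linarith
  · have h1 := hr.sym (1 / 2)
    have h3 : r (-(1 / 2)) = r (1 / 2) := by
      rw [← hr.periodic (-(1 / 2))]
      norm_num
    have h2 : r (1 / 2) 2 = -r (1 / 2) 2 := by
      conv_lhs => rw [← h3, h1]
      exact mir2 _
    linarith

/-- lower bound for the third coordinate of a mirror knot -/
lemma height (hBd : S_Bd) {r : ℝ → E3} (hr : MirrorKnot r) :
    ∃ κ : ℝ, 0 < κ ∧ ∀ t ∈ Icc (0 : ℝ) (1 / 2), κ * (t * (1 / 2 - t)) ≤ (r t) 2 := by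
  obtain ⟨⟨m, M, K, hm, hM, hK, -, -, -, hT, -⟩, -⟩ := hBd r hr.toIsKnot
  obtain ⟨hp2, hq2⟩ := zero2 hr
  have hreg := hr.regular
  have hsym0 : ∀ s, r (0 + s) 0 = r (0 - s) 0 ∧ r (0 + s) 1 = r (0 - s) 1 := by
    intro s
    rw [zero_add, zero_sub, hr.sym, mir0, mir1]
    exact ⟨rfl, rfl⟩
  have hhalf : ∀ s, r (1 / 2 + s) = mir (r (1 / 2 - s)) := by
    intro s
    rw [← hr.sym, ← hr.periodic (-(1 / 2 - s))]
    congr 1
    ring
  have hsym1 : ∀ s, r (1 / 2 + s) 0 = r (1 / 2 - s) 0 ∧ r (1 / 2 + s) 1 = r (1 / 2 - s) 1 := by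
    intro s
    rw [hhalf, mir0, mir1]
    exact ⟨rfl, rfl⟩
  obtain ⟨-, -, a2⟩ := third hreg hK hT 0 hsym0
  obtain ⟨-, -, b2⟩ := third hreg hK hT (1 / 2) hsym1
  have hT0 : ∀ s, |r s 2 - s * deriv r 0 2| ≤ K * s ^ 2 := by
    intro s
    have := taylor hT 2 s 0
    rwa [hp2, sub_zero, sub_zero] at this
  have hT1 : ∀ s, |r (1 / 2 - s) 2 - s * (-deriv r (1 / 2) 2)| ≤ K * s ^ 2 := by
    intro s
    have := taylor hT 2 (1 / 2 - s) (1 / 2)
    rw [hq2, sub_zero] at this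
    have e : 1 / 2 - s - 1 / 2 = -s := by ring
    rw [e] at this
    have e2 : r (1 / 2 - s) 2 - s * (-deriv r (1 / 2) 2) =
      r (1 / 2 - s) 2 - -s * deriv r (1 / 2) 2 := by ring
    rw [e2]
    rwa [neg_sq] at this
  have hα : 0 < deriv r 0 2 := pos_of a2 hK (fun s => r s 2) hr.pos hT0
  have hβ : 0 < -deriv r (1 / 2) 2 := by
    refine pos_of (neg_ne_zero.2 b2) hK (fun s => r (1 / 2 - s) 2) ?_ hT1
    intro s hs
    exact hr.pos _ ⟨by linarith [hs.2], by linarith [hs.1]⟩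
  have hcont : Continuous (fun s => r s 2) := by
    have := hr.smooth.continuous
    fun_prop
  obtain ⟨c0, hc0, hlow⟩ := lower hα hβ hK (fun s => r s 2) hcont hr.pos hT0 hT1
  refine ⟨c0, hc0, fun t ht => ?_⟩
  rcases eq_or_lt_of_le ht.1 with h | h
  · rw [← h, hp2]
    simp
  · rcases eq_or_lt_of_le ht.2 with h' | h'
    · rw [h', hq2]
      simp
    · exact hlow t ⟨h, h'⟩

/-- Taylor bound from a Lipschitz bound for the derivative -/
lemma taylor_of {D : ℝ → E3} {C : ℝ} (hD : ContDiff ℝ ∞ D)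
    (h : ∀ s t, ‖deriv D s - deriv D t‖ ≤ C * |s - t|) (s t : ℝ) :
    ‖D s - D t - (s - t) • deriv D t‖ ≤ C * (s - t) ^ 2 := by
  have hC : 0 ≤ C := by
    have h1 := (norm_nonneg _).trans (h 1 0)
    norm_num at h1
    exact h1
  have hd : ∀ x ∈ uIcc t s, HasDerivWithinAt (fun x => D x - (x - t) • deriv D t)
      (deriv D x - deriv D t) (uIcc t s) x := by
    intro x _
    have h1 : HasDerivAt D (deriv D x) x :=
      ((hD.differentiable (by simp)) x).hasDerivAt
    have h2 : HasDerivAt (fun x : ℝ => (x - t) • deriv D t) ((1 : ℝ) • deriv D t) x :=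
      ((hasDerivAt_id x).sub_const t).smul_const _
    rw [one_smul] at h2
    exact (h1.sub h2).hasDerivWithinAt
  have hb : ∀ x ∈ uIcc t s, ‖deriv D x - deriv D t‖ ≤ C * |s - t| := by
    intro x hx
    refine (h x t).trans ?_
    refine mul_le_mul_of_nonneg_left ?_ hC
    rcases le_total t s with hts | hts
    · rw [uIcc_of_le hts] at hx
      rw [abs_of_nonneg (by linarith [hx.1]), abs_of_nonneg (by linarith)]
      linarith [hx.2]
    · rw [uIcc_of_ge hts] at hx
      rw [abs_of_nonpos (by linarith [hx.2]), abs_of_nonpos (by linarith)]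
      linarith [hx.1]
  have h3 := (convex_uIcc t s).norm_image_sub_le_of_norm_hasDerivWithin_le hd hb
    left_mem_uIcc right_mem_uIcc
  simp only [sub_self, zero_smul, sub_zero, Real.norm_eq_abs] at h3
  have h4 : D s - D t - (s - t) • deriv D t = D s - (s - t) • deriv D t - D t := by abel
  rw [h4]
  refine h3.trans (le_of_eq ?_)
  rw [mul_assoc, ← sq, sq_abs]

end Sk_aux

open Sk_aux in
theorem tSk : S_Dd → S_Bd → S_Yc → S_Mir → S_Sk := by
  intro hDd hBd hYc hMir r ℓ hr hax hd0 hd2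
  obtain ⟨C, hC, hDD⟩ := hDd r ℓ hr hax hd0 hd2
  obtain ⟨⟨m0, M0, K0, hm0, hM0, hK0, hrm, hrM, hrK, hrT, -⟩, hch⟩ := hBd r hr.toIsKnot
  obtain ⟨c0, hc0, hcb⟩ := hch (1 / 2) (by norm_num)
  obtain ⟨B, -, hY⟩ := hYc
  obtain ⟨κ1, hκ1, h1⟩ := height hBd hr
  obtain ⟨κ2, hκ2, h2⟩ := height hBd hax.kn
  have hδ0 : 0 < min (1 / 4) (min (m0 / (2 * C)) (c0 / (2 * C))) :=
    lt_min (by norm_num) (lt_min (by positivity) (by positivity))
  refine ⟨min (1 / 4) (min (m0 / (2 * C)) (c0 / (2 * C))), m0 / 2, M0 + m0 / 2, K0 + C, c0 / 2,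
    min κ1 κ2, hδ0, min_le_left _ _, by positivity, by positivity, by positivity, by positivity,
    lt_min hκ1 hκ2, ?_⟩
  intro δ hδ
  have hδp : 0 < δ := hδ.1
  have hδ1 : δ ≤ 1 / 4 := hδ.2.le.trans (min_le_left _ _)
  have hδ2 : C * δ ≤ m0 / 2 := by
    have h := hδ.2.le.trans ((min_le_right _ _).trans (min_le_left _ _))
    rw [le_div_iff₀ (by positivity)] at h
    linarith
  have hδ3 : C * δ ≤ c0 / 2 := by
    have h := hδ.2.le.trans ((min_le_right _ _).trans (min_le_right _ _))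
    rw [le_div_iff₀ (by positivity)] at h
    linarith
  obtain ⟨y1, y2, y3, y4, y5, y6, -, -, -⟩ := hY δ hδp hδ1
  obtain ⟨d1, d2, d3, d4, d5, d6⟩ := hDD δ hδp hδ1
  -- elementary
  have hdr : ∀ t, HasDerivAt r (deriv r t) t := fun t =>
    ((hr.smooth.differentiable (by simp)) t).hasDerivAt
  have hdD : ∀ t, HasDerivAt (Dd δ r ℓ) (deriv (Dd δ r ℓ) t) t := fun t =>
    ((d1.differentiable (by simp)) t).hasDerivAt
  have hder : ∀ t, deriv (rst δ r ℓ) t = deriv r t + deriv (Dd δ r ℓ) t := fun t =>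
    ((hdr t).add (hdD t)).deriv
  have hsm : ContDiff ℝ ∞ (rst δ r ℓ) := hr.smooth.add d1
  have hper : ∀ t, rst δ r ℓ (t + 1) = rst δ r ℓ t := by
    intro t
    unfold rst
    rw [hr.periodic, d2]
  have hlow : ∀ t, m0 / 2 ≤ ‖deriv (rst δ r ℓ) t‖ := by
    intro t
    rw [hder]
    have e1 := norm_sub_le_norm_add (deriv r t) (deriv (Dd δ r ℓ) t)
    have e2 := hrm t
    have e3 := d4 t
    linarith
  have hchord : ∀ s t, |s - t| ≤ 1 / 2 → c0 / 2 * |s - t| ≤ ‖rst δ r ℓ s - rst δ r ℓ t‖ := by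
    intro s t hst
    have e0 : rst δ r ℓ s - rst δ r ℓ t = (r s - r t) + (Dd δ r ℓ s - Dd δ r ℓ t) := by
      unfold rst
      abel
    rw [e0]
    have e1 := norm_sub_le_norm_add (r s - r t) (Dd δ r ℓ s - Dd δ r ℓ t)
    have e2 := hcb s t hst
    have e3 := d5 s t
    have e4 : C * δ * |s - t| ≤ c0 / 2 * |s - t| :=
      mul_le_mul_of_nonneg_right hδ3 (abs_nonneg _)
    linarith
  have hheight : ∀ t ∈ Icc (0 : ℝ) (1 / 2), min κ1 κ2 * (t * (1 / 2 - t)) ≤ (rst δ r ℓ t) 2 := by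
    intro t ht
    have hp : 0 ≤ t * (1 / 2 - t) := mul_nonneg ht.1 (by linarith [ht.2])
    have e1 : min κ1 κ2 * (t * (1 / 2 - t)) ≤ (r t) 2 :=
      (mul_le_mul_of_nonneg_right (min_le_left _ _) hp).trans (h1 t ht)
    have e2 : min κ1 κ2 * (t * (1 / 2 - t)) ≤ (ℓ t) 2 :=
      (mul_le_mul_of_nonneg_right (min_le_right _ _) hp).trans (h2 t ht)
    have e3 : (rst δ r ℓ t) 2 = (1 - Yc δ t) * (r t) 2 + Yc δ t * (ℓ t) 2 := by
      unfold rst Dd
      rw [PiLp.add_apply, PiLp.smul_apply, PiLp.sub_apply, smul_eq_mul]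
      ring
    rw [e3]
    have e4 := y4 t
    nlinarith [mul_le_mul_of_nonneg_left e1 (show 0 ≤ 1 - Yc δ t by linarith [e4.2]),
      mul_le_mul_of_nonneg_left e2 e4.1]
  have hint : ∀ (n : ℤ) (s : ℝ), rst δ r ℓ (s + n) = rst δ r ℓ s := by
    intro n s
    have hp : Function.Periodic (rst δ r ℓ) 1 := hper
    have h := hp.int_mul n s
    rw [mul_one] at h
    exact h
  have hzero : rst δ r ℓ 0 = r 0 := by
    unfold rst Dd
    rw [hax.zero]
    simp
  have hhalf : rst δ r ℓ (1 / 2) = r (1 / 2) := by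
    unfold rst Dd
    rw [hax.half]
    simp
  have hone : ∀ t, Yc δ t = 1 → ℓ t = rst δ r ℓ t := by
    intro t ht
    unfold rst Dd
    rw [ht, one_smul]
    abel
  have hknot : MirrorKnot (rst δ r ℓ) := by
    refine { smooth := hsm, periodic := hper, regular := ?_, inj := ?_, sym := ?_, pos := ?_ }
    · intro t h
      have h3 := hlow t
      rw [h, norm_zero] at h3
      linarith
    · intro s t hst
      refine ⟨round (t - s), ?_⟩
      have h3 := abs_sub_round (t - s)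
      have h4 : |(s + (round (t - s) : ℤ)) - t| ≤ 1 / 2 := by
        rw [← abs_neg]
        have : -((s + (round (t - s) : ℤ)) - t) = t - s - (round (t - s) : ℤ) := by ring
        rw [this]
        exact h3
      have h5 := hchord _ _ h4
      rw [hint, hst, sub_self, norm_zero] at h5
      have h6 : |(s + (round (t - s) : ℤ)) - t| ≤ 0 := by
        by_contra hc
        have := mul_pos (show 0 < c0 / 2 by positivity) (not_le.1 hc)
        linarith
      have h7 := abs_nonpos_iff.1 h6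
      linarith
    · intro t
      unfold rst
      rw [hr.sym, d3, hMir.1]
    · intro t ht
      have h3 := hheight t ⟨ht.1.le, ht.2.le⟩
      have h4 : 0 < t * (1 / 2 - t) := mul_pos ht.1 (by linarith [ht.2])
      have h5 : 0 < min κ1 κ2 := lt_min hκ1 hκ2
      have h6 := mul_pos h5 h4
      linarith
  refine ⟨hknot, hzero, hhalf, ?_, ?_, ?_, ?_, ?_, ?_, hchord, hheight⟩
  · intro t ht
    exact hone t (y5 t ht.le)
  · intro t ht
    refine hone t ?_
    have h3 : Yc δ t = Yc δ (t - 1 / 2) := by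
      rw [← y2 (t - 1 / 2)]
      congr 1
      ring
    rw [h3]
    exact y5 _ ht.le
  · intro t ht
    unfold rst Dd
    rw [y6 t ht, zero_smul, add_zero]
  · intro t
    refine ⟨hlow t, ?_⟩
    rw [hder]
    have e1 := norm_add_le (deriv r t) (deriv (Dd δ r ℓ) t)
    have e2 := hrM t
    have e3 := d4 t
    linarith
  · intro s t
    rw [hder, hder]
    have e0 : deriv r s + deriv (Dd δ r ℓ) s - (deriv r t + deriv (Dd δ r ℓ) t) =
        (deriv r s - deriv r t) + (deriv (Dd δ r ℓ) s - deriv (Dd δ r ℓ) t) := by abel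
    rw [e0]
    have e1 := norm_add_le (deriv r s - deriv r t) (deriv (Dd δ r ℓ) s - deriv (Dd δ r ℓ) t)
    have e2 := hrK s t
    have e3 := d6 s t
    linarith
  · intro s t
    rw [hder]
    have e0 : rst δ r ℓ s - rst δ r ℓ t - (s - t) • (deriv r t + deriv (Dd δ r ℓ) t) =
        (r s - r t - (s - t) • deriv r t) +
          (Dd δ r ℓ s - Dd δ r ℓ t - (s - t) • deriv (Dd δ r ℓ) t) := by
      unfold rst
      rw [smul_add]
      abel
    rw [e0]
    have e1 := norm_add_le (r s - r t - (s - t) • deriv r t)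
      (Dd δ r ℓ s - Dd δ r ℓ t - (s - t) • deriv (Dd δ r ℓ) t)
    have e2 := hrT s t
    have e3 := taylor_of d1 d6 s t
    linarith

end MP_e78765_gt
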