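import Pool.Agent.Lib.MP_e78765_gt.Spec

/-!
# THEOREM R, module Sl: the slide
-/

set_option autoImplicit false

open scoped ContDiff Topology
open MeasureTheory Set Filter

namespace MP_e78765_gt

namespace Sl_aux

/-- the radial profile of the cut-off -/
noncomputable def kr (ε ρ : ℝ) : ℝ := St (Real.log (ρ / ε)) * St (-Real.log (ε * ρ))

lemma cut_eq (ε : ℝ) (x : E3) : cut ε x = kr ε ‖x‖ := rfl

lemma St_nonneg (x : ℝ) : 0 ≤ St x := Real.smoothTransition.nonneg x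

lemma St_le (x : ℝ) : St x ≤ 1 := Real.smoothTransition.le_one x

lemma St_diff (x : ℝ) : HasDerivAt St (deriv St x) x := by
  have h : ContDiff ℝ 1 St := Real.smoothTransition.contDiff
  exact ((h.differentiable (by norm_num)) x).hasDerivAt

lemma kr_deriv {ε ρ : ℝ} (hε : 0 < ε) (hρ : 0 < ρ) :
    HasDerivAt (kr ε) ((deriv St (Real.log (ρ / ε)) * ρ⁻¹) * St (-Real.log (ε * ρ)) +
      St (Real.log (ρ / ε)) * (deriv St (-Real.log (ε * ρ)) * -ρ⁻¹)) ρ := by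
  have h1 : HasDerivAt (fun r : ℝ => Real.log (r / ε)) ρ⁻¹ ρ := by
    have h := ((hasDerivAt_id ρ).div_const ε).log (by positivity)
    have e : 1 / ε / (id ρ / ε) = ρ⁻¹ := by
      rw [id]
      field_simp
    rwa [e] at h
  have h2 : HasDerivAt (fun r : ℝ => -Real.log (ε * r)) (-ρ⁻¹) ρ := by
    have h := (((hasDerivAt_id ρ).const_mul ε).log (by rw [id]; positivity)).neg
    have e : ε * 1 / (ε * id ρ) = ρ⁻¹ := by
      rw [id]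
      field_simp
    rwa [e] at h
  exact ((St_diff _).comp ρ h1).mul ((St_diff _).comp ρ h2)

lemma kr_bound {ε τ ρ : ℝ} (hτ : Sm τ) (hρ : 0 < ρ) :
    |τ * ((deriv St (Real.log (ρ / ε)) * ρ⁻¹) * St (-Real.log (ε * ρ)) +
      St (Real.log (ρ / ε)) * (deriv St (-Real.log (ε * ρ)) * -ρ⁻¹)) * ρ| ≤ 1 / 4 := by
  obtain ⟨A, hA⟩ : ∃ A, A = Real.log (ρ / ε) := ⟨_, rfl⟩
  obtain ⟨B, hB⟩ : ∃ B, B = -Real.log (ε * ρ) := ⟨_, rfl⟩
  rw [← hA, ← hB]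
  have e : τ * ((deriv St A * ρ⁻¹) * St B + St A * (deriv St B * -ρ⁻¹)) * ρ =
      (τ * deriv St A) * St B - St A * (τ * deriv St B) := by
    field_simp
    ring
  rw [e]
  have h1 := hτ.2 A
  have h2 := hτ.2 B
  rw [← abs_mul] at h1 h2
  have h3 := St_nonneg A
  have h4 := St_nonneg B
  have h5 := St_le A
  have h6 := St_le B
  have h7 : |(τ * deriv St A) * St B| ≤ 1 / 8 := by
    rw [abs_mul, abs_of_nonneg h4]
    nlinarith [abs_nonneg (τ * deriv St A)]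
  have h8 : |St A * (τ * deriv St B)| ≤ 1 / 8 := by
    rw [abs_mul, abs_of_nonneg h3]
    nlinarith [abs_nonneg (τ * deriv St B)]
  have h9 := abs_sub (τ * deriv St A * St B) (St A * (τ * deriv St B))
  linarith

lemma kr_nonneg (ε ρ : ℝ) : 0 ≤ kr ε ρ := mul_nonneg (St_nonneg _) (St_nonneg _)

lemma kr_le (ε ρ : ℝ) : kr ε ρ ≤ 1 := mul_le_one₀ (St_le _) (St_nonneg _) (St_le _)

lemma exp_bounds {τ k : ℝ} (hτ : |τ| ≤ 1 / 8) (h0 : 0 ≤ k) (h1 : k ≤ 1) :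
    7 / 8 ≤ Real.exp (τ * k) ∧ Real.exp (τ * k) ≤ 8 / 7 := by
  have h2 : |τ * k| ≤ 1 / 8 := by
    rw [abs_mul, abs_of_nonneg h0]
    nlinarith [abs_nonneg τ]
  obtain ⟨h3, h4⟩ := abs_le.1 h2
  constructor
  · have := Real.add_one_le_exp (τ * k)
    linarith
  · have h5 := Real.add_one_le_exp (-(τ * k))
    have h6 : Real.exp (τ * k) * Real.exp (-(τ * k)) = 1 := by
      rw [← Real.exp_add, add_neg_cancel, Real.exp_zero]
    have h7 := Real.exp_pos (τ * k)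
    nlinarith

/-- the radial profile of the slide -/
noncomputable def pr (ε τ ρ : ℝ) : ℝ := Real.exp (τ * kr ε ρ) * ρ

lemma pr_deriv {ε τ ρ : ℝ} (hε : 0 < ε) (hτ : Sm τ) (hρ : 0 < ρ) :
    ∃ d : ℝ, HasDerivAt (pr ε τ) d ρ ∧ 21 / 32 ≤ d ∧ d ≤ 10 / 7 := by
  obtain ⟨D, hD⟩ : ∃ D, D = (deriv St (Real.log (ρ / ε)) * ρ⁻¹) * St (-Real.log (ε * ρ)) +
      St (Real.log (ρ / ε)) * (deriv St (-Real.log (ε * ρ)) * -ρ⁻¹) := ⟨_, rfl⟩
  have h1 := kr_deriv hε hρ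
  have h2 := kr_bound (ε := ε) hτ hρ
  rw [← hD] at h1 h2
  have h3 := ((h1.const_mul τ).exp).mul (hasDerivAt_id ρ)
  refine ⟨_, h3, ?_⟩
  obtain ⟨h4, h5⟩ := exp_bounds hτ.1 (kr_nonneg ε ρ) (kr_le ε ρ)
  obtain ⟨h6, h7⟩ := abs_le.1 h2
  have e : Real.exp (τ * kr ε ρ) * (τ * D) * id ρ + Real.exp (τ * kr ε ρ) * 1 =
      Real.exp (τ * kr ε ρ) * (1 + τ * D * ρ) := by
    rw [id]
    ring
  rw [e]
  constructor
  · nlinarith
  · nlinarith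

lemma pr_bounds {ε τ a b : ℝ} (hε : 0 < ε) (hτ : Sm τ) (ha : 0 < a) (hab : a < b) :
    21 / 32 * (b - a) ≤ pr ε τ b - pr ε τ a ∧ pr ε τ b - pr ε τ a ≤ 10 / 7 * (b - a) := by
  have hd : ∀ ρ ∈ Icc a b, ∃ d : ℝ, HasDerivAt (pr ε τ) d ρ ∧ 21 / 32 ≤ d ∧ d ≤ 10 / 7 :=
    fun ρ hρ => pr_deriv hε hτ (ha.trans_le hρ.1)
  have hc : ContinuousOn (pr ε τ) (Icc a b) := by
    intro ρ hρ
    obtain ⟨d, h, -⟩ := hd ρ hρ
    exact h.continuousAt.continuousWithinAt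
  have hdf : DifferentiableOn ℝ (pr ε τ) (Ioo a b) := by
    intro ρ hρ
    obtain ⟨d, h, -⟩ := hd ρ ⟨hρ.1.le, hρ.2.le⟩
    exact h.differentiableAt.differentiableWithinAt
  obtain ⟨c, hc1, hc2⟩ := exists_deriv_eq_slope (pr ε τ) hab hc hdf
  obtain ⟨d, h1, h2, h3⟩ := hd c ⟨hc1.1.le, hc1.2.le⟩
  rw [h1.deriv] at hc2
  have hba : 0 < b - a := sub_pos.2 hab
  have e : pr ε τ b - pr ε τ a = d * (b - a) := by
    rw [hc2]
    field_simp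
  rw [e]
  constructor
  · nlinarith
  · nlinarith

lemma pr_sq {ε τ a b : ℝ} (hε : 0 < ε) (hτ : Sm τ) (ha : 0 ≤ a) (hb : 0 ≤ b) :
    1 / 4 * (a - b) ^ 2 ≤ (pr ε τ a - pr ε τ b) ^ 2 ∧
      (pr ε τ a - pr ε τ b) ^ 2 ≤ 4 * (a - b) ^ 2 := by
  have h0 : ∀ c : ℝ, 0 ≤ c → 1 / 4 * (c - 0) ^ 2 ≤ (pr ε τ c - pr ε τ 0) ^ 2 ∧
      (pr ε τ c - pr ε τ 0) ^ 2 ≤ 4 * (c - 0) ^ 2 := by
    intro c hc
    have e : pr ε τ 0 = 0 := mul_zero _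
    rw [e, sub_zero, sub_zero]
    unfold pr
    obtain ⟨h4, h5⟩ := exp_bounds hτ.1 (kr_nonneg ε c) (kr_le ε c)
    rw [mul_pow]
    have h6 := sq_nonneg c
    have h7 : 1 / 4 ≤ Real.exp (τ * kr ε c) ^ 2 := by nlinarith
    have h8 : Real.exp (τ * kr ε c) ^ 2 ≤ 4 := by nlinarith
    exact ⟨mul_le_mul_of_nonneg_right h7 h6, mul_le_mul_of_nonneg_right h8 h6⟩
  have hlt : ∀ a b : ℝ, 0 < a → a < b → 1 / 4 * (b - a) ^ 2 ≤ (pr ε τ b - pr ε τ a) ^ 2 ∧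
      (pr ε τ b - pr ε τ a) ^ 2 ≤ 4 * (b - a) ^ 2 := by
    intro a b ha hab
    obtain ⟨h1, h2⟩ := pr_bounds hε hτ ha hab
    have hba : 0 < b - a := sub_pos.2 hab
    constructor
    · nlinarith
    · nlinarith
  have hsw : ∀ a b : ℝ, (1 / 4 * (b - a) ^ 2 ≤ (pr ε τ b - pr ε τ a) ^ 2 ∧
      (pr ε τ b - pr ε τ a) ^ 2 ≤ 4 * (b - a) ^ 2) → 1 / 4 * (a - b) ^ 2 ≤
      (pr ε τ a - pr ε τ b) ^ 2 ∧ (pr ε τ a - pr ε τ b) ^ 2 ≤ 4 * (a - b) ^ 2 := by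
    intro a b h
    have e1 : (a - b) ^ 2 = (b - a) ^ 2 := by ring
    have e2 : (pr ε τ a - pr ε τ b) ^ 2 = (pr ε τ b - pr ε τ a) ^ 2 := by ring
    rw [e1, e2]
    exact h
  rcases ha.eq_or_lt with h | h
  · rw [← h]
    exact hsw _ _ (h0 b hb)
  · rcases hb.eq_or_lt with h' | h'
    · rw [← h']
      exact h0 a ha
    · rcases lt_trichotomy a b with h3 | h3 | h3
      · exact hsw _ _ (hlt a b h h3)
      · rw [h3]
        simp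
      · exact hlt b a h' h3

lemma norm_sl (ε τ : ℝ) (x : E3) : ‖sl ε τ x‖ = pr ε τ ‖x‖ := by
  unfold sl pr
  rw [norm_smul, Real.norm_of_nonneg (Real.exp_pos _).le]
  rfl

lemma dist_sq {ε τ : ℝ} (hε : 0 < ε) (hτ : Sm τ) (x y : E3) :
    1 / 4 * ‖x - y‖ ^ 2 ≤ ‖sl ε τ x - sl ε τ y‖ ^ 2 ∧
      ‖sl ε τ x - sl ε τ y‖ ^ 2 ≤ 4 * ‖x - y‖ ^ 2 := by
  obtain ⟨h1, h2⟩ := pr_sq hε hτ (norm_nonneg x) (norm_nonneg y)
  have h3 := real_inner_le_norm x y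
  obtain ⟨s1, s2⟩ := exp_bounds hτ.1 (kr_nonneg ε ‖x‖) (kr_le ε ‖x‖)
  obtain ⟨t1, t2⟩ := exp_bounds hτ.1 (kr_nonneg ε ‖y‖) (kr_le ε ‖y‖)
  have e1 : ‖x - y‖ ^ 2 = (‖x‖ - ‖y‖) ^ 2 + 2 * (‖x‖ * ‖y‖ - inner ℝ x y) := by
    rw [norm_sub_sq_real]
    ring
  have e2 : ‖sl ε τ x - sl ε τ y‖ ^ 2 = (pr ε τ ‖x‖ - pr ε τ ‖y‖) ^ 2 +
      2 * (Real.exp (τ * kr ε ‖x‖) * Real.exp (τ * kr ε ‖y‖)) * (‖x‖ * ‖y‖ - inner ℝ x y) := by
    rw [norm_sub_sq_real, norm_sl, norm_sl]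
    have h4 : inner ℝ (sl ε τ x) (sl ε τ y) =
        Real.exp (τ * kr ε ‖x‖) * (Real.exp (τ * kr ε ‖y‖) * inner ℝ x y) := by
      unfold sl
      rw [real_inner_smul_left, real_inner_smul_right]
      rfl
    rw [h4]
    unfold pr
    ring
  obtain ⟨s, hs⟩ : ∃ s, s = Real.exp (τ * kr ε ‖x‖) := ⟨_, rfl⟩
  obtain ⟨t, ht⟩ : ∃ t, t = Real.exp (τ * kr ε ‖y‖) := ⟨_, rfl⟩
  obtain ⟨w, hw⟩ : ∃ w, w = ‖x‖ * ‖y‖ - inner ℝ x y := ⟨_, rfl⟩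
  rw [← hs] at s1 s2
  rw [← ht] at t1 t2
  rw [e1, e2, ← hs, ← ht, ← hw]
  have hw0 : 0 ≤ w := by rw [hw]; linarith
  have h5 : 1 / 4 ≤ s * t := by nlinarith
  have h6 : s * t ≤ 4 := by nlinarith
  constructor
  · have := mul_le_mul_of_nonneg_right h5 hw0
    linarith
  · have := mul_le_mul_of_nonneg_right h6 hw0
    linarith

lemma dist_bounds {ε τ : ℝ} (hε : 0 < ε) (hτ : Sm τ) (x y : E3) :
    1 / 2 * ‖x - y‖ ≤ ‖sl ε τ x - sl ε τ y‖ ∧ ‖sl ε τ x - sl ε τ y‖ ≤ 2 * ‖x - y‖ := by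
  obtain ⟨h1, h2⟩ := dist_sq hε hτ x y
  constructor
  · refine le_of_sq_le_sq ?_ (norm_nonneg _)
    rw [mul_pow]
    linarith
  · refine le_of_sq_le_sq ?_ (by positivity)
    rw [mul_pow]
    linarith

/-- bounds of the derivative from bounds of the distances -/
lemma deriv_bounds {f : E3 → E3} {f' : E3 →L[ℝ] E3} {x : E3} (hf : HasFDerivAt f f' x)
    (hb : ∀ y, 1 / 2 * ‖y - x‖ ≤ ‖f y - f x‖ ∧ ‖f y - f x‖ ≤ 2 * ‖y - x‖) (a : E3) :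
    1 / 2 * ‖a‖ ≤ ‖f' a‖ ∧ ‖f' a‖ ≤ 2 * ‖a‖ := by
  have h1 : HasDerivAt (fun s : ℝ => x + s • a) a 0 := by
    have h := ((hasDerivAt_id (0 : ℝ)).smul_const a).const_add x
    rwa [one_smul] at h
  have h2 : HasDerivAt (fun s : ℝ => f (x + s • a)) (f' a) 0 := by
    refine HasFDerivAt.comp_hasDerivAt (0 : ℝ) ?_ h1
    rwa [zero_smul, add_zero]
  have h3 := (hasDerivAt_iff_tendsto_slope.1 h2).norm
  have h4 : ∀ s : ℝ, s ≠ 0 → 1 / 2 * ‖a‖ ≤ ‖slope (fun s : ℝ => f (x + s • a)) 0 s‖ ∧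
      ‖slope (fun s : ℝ => f (x + s • a)) 0 s‖ ≤ 2 * ‖a‖ := by
    intro s hs
    have h5 := hb (x + s • a)
    rw [add_sub_cancel_left, norm_smul, Real.norm_eq_abs] at h5
    have h6 : 0 < |s| := abs_pos.2 hs
    rw [slope_def_module, sub_zero, zero_smul, add_zero, norm_smul, norm_inv, Real.norm_eq_abs]
    constructor
    · rw [inv_mul_eq_div, le_div_iff₀ h6]
      linarith [h5.1]
    · rw [inv_mul_eq_div, div_le_iff₀ h6]
      linarith [h5.2]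
  constructor
  · refine ge_of_tendsto h3 ?_
    filter_upwards [self_mem_nhdsWithin] with s hs
    exact (h4 s hs).1
  · refine le_of_tendsto h3 ?_
    filter_upwards [self_mem_nhdsWithin] with s hs
    exact (h4 s hs).2

end Sl_aux

open Sl_aux in
theorem tSl : S_StB → S_Cut → S_Inv → S_Mir → S_Sl := by
  intro _ hCut hInv hMir ε τ hε hτ
  obtain ⟨-, -, -, -, k5, k6, k7⟩ := hCut ε hε
  obtain ⟨-, -, -, -, -, -, -, i8, -⟩ := hInv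
  obtain ⟨-, m2, -, -, m5, -⟩ := hMir
  have h1 : ContDiff ℝ ∞ (sl ε τ) :=
    (Real.contDiff_exp.comp (contDiff_const.mul k7)).smul contDiff_id
  refine ⟨h1, ?_, ?_, ?_, ?_, fun x y => (dist_bounds hε hτ x y).1⟩
  · intro x
    unfold sl
    rw [m2, k5 (mir x) x (m5 x)]
  · intro x hx
    unfold sl
    rw [i8 _ x (Real.exp_pos _).ne', k6 x hx, ← Real.exp_neg, neg_mul]
  · intro x
    have h2 := dist_bounds hε hτ x 0
    have e : sl ε τ 0 = 0 := smul_zero _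
    rwa [e, sub_zero, sub_zero] at h2
  · intro x a
    exact deriv_bounds ((h1.differentiable (by simp)) x).hasFDerivAt
      (fun y => dist_bounds hε hτ y x) a

end MP_e78765_gt
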