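import Pool.Agent.Lib.MP_e78765_gt.Spec5

/-!
# THEOREM R4 (MP_e78765_gt): from a sphere to a plane
-/

set_option autoImplicit false

open scoped ContDiff Topology
open MeasureTheory Set Filter

namespace MP_e78765_gt

namespace SpP_aux

theorem norm_w (w m : E3) (R : ℝ) (hm : ‖m‖ = R) :
    ‖w + m‖ ^ 2 = ‖w‖ ^ 2 + 2 * inner ℝ w m + R ^ 2 := by
  rw [norm_add_sq_real, hm]

theorem inner_y (w m : E3) (R : ℝ) (hm : ‖m‖ = R) :
    inner ℝ (w + m) m = inner ℝ w m + R ^ 2 := by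
  rw [inner_add_left, real_inner_self_eq_norm_sq, hm]

theorem inner_inv (w m : E3) (R : ℝ) (hm : ‖m‖ = R) :
    inner ℝ (inv (w + m)) (R⁻¹ • m) = (‖w + m‖ ^ 2)⁻¹ * R⁻¹ * (inner ℝ w m + R ^ 2) := by
  rw [inv, real_inner_smul_left, real_inner_smul_right, inner_y w m R hm]
  ring

theorem plane (w m : E3) (R : ℝ) (hR : 0 < R) (hm : ‖m‖ = R) (hy : w + m ≠ 0) :
    ‖w‖ = R ↔ inner ℝ (inv (w + m)) (R⁻¹ • m) = 1 / (2 * R) := by
  have h1 : 0 < ‖w + m‖ ^ 2 := by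
    have := norm_pos_iff.2 hy
    positivity
  have h2 := norm_w w m R hm
  rw [inner_inv w m R hm]
  have h3 : ‖w‖ = R ↔ ‖w‖ ^ 2 = R ^ 2 := by
    rw [sq_eq_sq₀ (norm_nonneg _) hR.le]
  rw [h3]
  have h4 : (‖w + m‖ ^ 2)⁻¹ * R⁻¹ * (inner ℝ w m + R ^ 2) - 1 / (2 * R) =
      (R ^ 2 - ‖w‖ ^ 2) * (‖w + m‖ ^ 2)⁻¹ * (2 * R)⁻¹ := by
    have h5 : ‖w + m‖ ^ 2 ≠ 0 := h1.ne'
    generalize ‖w + m‖ ^ 2 = Y at h2 h5
    field_simp
    rw [h2]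
    ring
  constructor
  · intro h
    rw [← sub_eq_zero, h4, h]
    ring
  · intro h
    rw [← sub_eq_zero, h4] at h
    have h6 : (‖w + m‖ ^ 2)⁻¹ ≠ 0 := inv_ne_zero h1.ne'
    have h7 : (2 * R)⁻¹ ≠ 0 := inv_ne_zero (by positivity)
    have h8 : R ^ 2 - ‖w‖ ^ 2 = 0 := by
      rcases mul_eq_zero.1 h with h | h
      · rcases mul_eq_zero.1 h with h | h
        · exact h
        · exact absurd h h6
      · exact absurd h h7
    linarith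

theorem norm_image (w m : E3) (R : ℝ) (hm : ‖m‖ = R) (hw : w ≠ 0) :
    ‖(R ^ 2 / ‖w‖ ^ 2) • w + m‖ ^ 2 = R ^ 2 / ‖w‖ ^ 2 * ‖w + m‖ ^ 2 := by
  have h1 : ‖w‖ ^ 2 ≠ 0 := by
    have := norm_pos_iff.2 hw
    positivity
  rw [norm_w _ m R hm, norm_w w m R hm, norm_smul, mul_pow, Real.norm_eq_abs, sq_abs,
    real_inner_smul_left]
  generalize ‖w‖ ^ 2 = W at h1
  field_simp
  ring

theorem image_ne (w m : E3) (R : ℝ) (hR : 0 < R) (hm : ‖m‖ = R) (hw : w ≠ 0) (hy : w + m ≠ 0) :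
    (R ^ 2 / ‖w‖ ^ 2) • w + m ≠ 0 := by
  intro h
  have h1 := norm_image w m R hm hw
  rw [h] at h1
  have h2 := norm_pos_iff.2 hw
  have h3 := norm_pos_iff.2 hy
  have h4 : 0 < R ^ 2 / ‖w‖ ^ 2 * ‖w + m‖ ^ 2 := by positivity
  rw [← h1] at h4
  simp at h4

theorem inv_image (w m : E3) (R : ℝ) (hR : 0 < R) (hm : ‖m‖ = R) (hw : w ≠ 0)
    (hy : w + m ≠ 0) :
    inv ((R ^ 2 / ‖w‖ ^ 2) • w + m) = refl (R⁻¹ • m) (1 / (2 * R)) (inv (w + m)) := by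
  have h0 := inner_inv w m R hm
  have h1 : ‖w‖ ^ 2 ≠ 0 := by
    have := norm_pos_iff.2 hw
    positivity
  have h2 : ‖w + m‖ ^ 2 ≠ 0 := by
    have := norm_pos_iff.2 hy
    positivity
  have h3 := norm_w w m R hm
  have h4 : inner ℝ w m = (‖w + m‖ ^ 2 - ‖w‖ ^ 2 - R ^ 2) / 2 := by linarith
  have h5 : inv ((R ^ 2 / ‖w‖ ^ 2) • w + m) =
      (‖w + m‖ ^ 2)⁻¹ • w + (‖w‖ ^ 2 / (R ^ 2 * ‖w + m‖ ^ 2)) • m := by
    rw [inv, norm_image w m R hm hw, smul_add, smul_smul]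
    congr 2
    · field_simp
    · field_simp
  have h6 : refl (R⁻¹ • m) (1 / (2 * R)) (inv (w + m)) =
      (‖w + m‖ ^ 2)⁻¹ • w + ((‖w + m‖ ^ 2)⁻¹ -
        2 * ((‖w + m‖ ^ 2)⁻¹ * R⁻¹ * (inner ℝ w m + R ^ 2) - 1 / (2 * R)) * R⁻¹) • m := by
    rw [refl, h0, inv, smul_add, smul_smul, sub_smul]
    abel
  rw [h5, h6, h4]
  congr 2
  generalize ‖w + m‖ ^ 2 = Y at h2
  field_simp
  ring

end SpP_aux

open SpP_aux in
theorem tSpP : S_Inv → S_SpP := by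
  intro _ o c R hR hc
  have hm : ‖o - c‖ = R := by rw [norm_sub_rev]; exact hc
  refine ⟨?_, ?_, ?_⟩
  · rw [norm_smul, hm, Real.norm_eq_abs, abs_of_pos (inv_pos.2 hR)]
    exact inv_mul_cancel₀ hR.ne'
  · intro x hx
    have h1 : x - c = (x - o) + (o - c) := by abel
    rw [h1]
    exact plane (x - o) (o - c) R hR hm (by rw [← h1]; exact sub_ne_zero.2 hx)
  · intro x hx hxo
    have h1 : x - c = (x - o) + (o - c) := by abel
    have hw : x - o ≠ 0 := sub_ne_zero.2 hxo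
    have hy : (x - o) + (o - c) ≠ 0 := by rw [← h1]; exact sub_ne_zero.2 hx
    have h2 : invS o R x - c = (R ^ 2 / ‖x - o‖ ^ 2) • (x - o) + (o - c) := by
      rw [invS]
      abel
    refine ⟨?_, ?_⟩
    · rw [← sub_ne_zero, h2]
      exact image_ne _ _ R hR hm hw hy
    · rw [h2, h1]
      exact inv_image _ _ R hR hm hw hy

end MP_e78765_gt
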