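import Pool.Agent.Lib.MP_e78765_gt.Defs

/-!
# Specification of the proof of THEOREM R (MP_e78765_gt)

`S_Xyz` is the statement proved in the file `Xyz.lean` (theorem `tXyz : S_Xyz`).
Proofs are in the docstrings.  Notation: `q = r (1/2)`, `p = r 0` (both on the plane `x_3 = 0`),
`F = Fc r`.
-/

open scoped ContDiff Topology
open MeasureTheory Set Filter

namespace MP_e78765_gt

/-! ## Part A: algebra of the integrand -/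

/-- `mir` is a linear isometric involution.  Proof: `mir x = x - (2 * x 2) • e_3`; coordinates,
`EuclideanSpace.norm_eq`, `Fin.sum_univ_three`. -/
def S_Mir : Prop :=
  (∀ x y : E3, mir (x + y) = mir x + mir y) ∧ (∀ (c : ℝ) (x : E3), mir (c • x) = c • mir x) ∧
  (∀ x y : E3, mir (x - y) = mir x - mir y) ∧
  (∀ x : E3, mir (mir x) = x) ∧ (∀ x : E3, ‖mir x‖ = ‖x‖) ∧
  (∀ x y : E3, inner ℝ (mir x) (mir y) = inner ℝ x y) ∧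
  (∀ x y : E3, ‖x - mir y‖ ^ 2 = (x 0 - y 0) ^ 2 + (x 1 - y 1) ^ 2 + (x 2 + y 2) ^ 2) ∧
  (∀ (f : ℝ → E3) (a : E3) (t : ℝ), HasDerivAt f a t → HasDerivAt (fun s => mir (f s)) (mir a) t)

/-- Elementary properties of `qf`.
`0 ≤ qf ≤ 2 |a| |b| / |x-y|^2`: with `v = (x-y)/|x-y|` the vector `R a = a - 2 ⟨v,a⟩ v` has the
norm of `a` and `⟨a,b⟩ - 2 ⟨v,a⟩ ⟨v,b⟩ = ⟨R a, b⟩` has absolute value `≤ |a| |b|`.  (For `x = y`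
all values are `0`, division by zero.) -/
def S_Alg : Prop :=
  (∀ x a y b : E3, qf x a y b = qf y b x a) ∧
  (∀ x a y b : E3, 0 ≤ qf x a y b) ∧
  (∀ x a y b : E3, qf x a y b ≤ 2 * (‖a‖ * ‖b‖) / ‖x - y‖ ^ 2) ∧
  (∀ x a y b : E3, qf (mir x) (mir a) (mir y) (mir b) = qf x a y b) ∧
  (∀ x a y b : E3, qf x (-a) y (-b) = qf x a y b) ∧
  (∀ (c : ℝ) (x a y b : E3), c ≠ 0 → qf (c • x) (c • a) (c • y) (c • b) = qf x a y b) ∧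
  (∀ w x a y b : E3, qf (x + w) a (y + w) b = qf x a y b)

/-- The `μ`-bound.  If `x = y`, `a = 0` or `b = 0` the left side is `0`.  Otherwise let
`d = x - y`, `v = d/|d|`, `e = v` if `μ, μ' ≥ 0` and `e = -v` if `μ, μ' ≤ 0`, `γ = |μ| |d|`, so
`μ d = γ e`; `R z = z - 2 ⟨v,z⟩ v` is a linear isometry with `R e = -e`; put `A = a/|a|`,
`B = b/|b|`.  Then `|A - e| ≤ 2 |a - γ e| / |a|` (because `A - e = (a - γ e)/|a| +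
((γ - |a|)/|a|) e` and `|γ - |a|| = ||γ e| - |a|| ≤ |a - γ e|`), the same for `B`, and
`qf = |a| |b| |B + R A|^2 / (2 |d|^2)`, `|B + R A| ≤ |B - e| + |e + R A|`,
`e + R A = R (A - e)`, so `|B + R A|^2 ≤ 2 |B - e|^2 + 2 |A - e|^2`. -/
def S_Mu : Prop :=
  ∀ (x a y b : E3) (μ μ' : ℝ), 0 ≤ μ * μ' →
    qf x a y b ≤ 4 * (‖a - μ • (x - y)‖ ^ 2 * (‖b‖ / ‖a‖) + ‖b - μ' • (x - y)‖ ^ 2 * (‖a‖ / ‖b‖))
      / ‖x - y‖ ^ 2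

/-- Inversion.  All identities are polynomial identities in the inner products of
`x, y, a, b` after clearing denominators: `|inv x - inv y|^2 = |x-y|^2/(|x|^2 |y|^2)`,
`⟨inv x - inv y, dinv x a⟩` etc. -/
def S_Inv : Prop :=
  (∀ x : E3, x ≠ 0 → inv x ≠ 0) ∧
  (∀ x : E3, x ≠ 0 → inv (inv x) = x) ∧
  (∀ x : E3, x ≠ 0 → ‖inv x‖ = ‖x‖⁻¹) ∧
  (∀ x y : E3, x ≠ 0 → y ≠ 0 → ‖inv x - inv y‖ = ‖x - y‖ / (‖x‖ * ‖y‖)) ∧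
  (∀ x a : E3, x ≠ 0 → ‖dinv x a‖ = ‖a‖ / ‖x‖ ^ 2) ∧
  (∀ x : E3, mir (inv x) = inv (mir x)) ∧
  (∀ x a : E3, mir (dinv x a) = dinv (mir x) (mir a)) ∧
  (∀ (c : ℝ) (x : E3), c ≠ 0 → inv (c • x) = c⁻¹ • inv x) ∧
  (∀ x : E3, x ≠ 0 → ContDiffAt ℝ ∞ inv x) ∧
  (∀ (f : ℝ → E3) (a : E3) (t : ℝ), f t ≠ 0 → HasDerivAt f a t →
    HasDerivAt (fun s => inv (f s)) (dinv (f t) a) t) ∧
  (∀ x a y b : E3, x ≠ 0 → y ≠ 0 →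
    qf (inv x) (dinv x a) (inv y) (dinv y b) = qf x a y b) ∧
  (∀ x a y b : E3, x ≠ 0 → y ≠ 0 →
    kf (inv x) (dinv x a) (inv y) (dinv y b) = kf x a y b)

/-! ## Part B: the formula of Doyle and Schramm, `E = 4 + ∬ Q` -/

/-- Bounds for a knot: `‖r'‖` between positive constants, `‖r''‖` bounded (here as Lipschitz
bound of `r'`), chord-arc bound on every range `|s - t| ≤ b < 1`.  Proof: periodicity and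
compactness; the chord bound by compactness of `{(s,t) : 0 ≤ s ≤ 1, |s-t| ≤ b}`: the quotient
`‖r s - r t‖/|s-t|` is bounded below near the diagonal, because `r s - r t - (s-t) r'(t)` is
`≤ K (s-t)^2`, and away from the diagonal `r s ≠ r t` and continuity. -/
def S_Bd : Prop := ∀ r : ℝ → E3, IsKnot r →
  (∃ m M K : ℝ, 0 < m ∧ 0 < M ∧ 0 < K ∧ (∀ t, m ≤ ‖deriv r t‖) ∧ (∀ t, ‖deriv r t‖ ≤ M) ∧
    (∀ s t, ‖deriv r s - deriv r t‖ ≤ K * |s - t|) ∧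
    (∀ s t, ‖r s - r t - (s - t) • deriv r t‖ ≤ K * (s - t) ^ 2) ∧
    (∀ s t, ‖r s - r t‖ ≤ M * |s - t|)) ∧
  ∀ b : ℝ, b < 1 → ∃ c : ℝ, 0 < c ∧ ∀ s t, |s - t| ≤ b → c * |s - t| ≤ ‖r s - r t‖

/-- Local estimates.  Let `δ = v - u ∈ (0, b]`, `e(w) = r'(w)/‖r'(w)‖`, `T = e(u)`,
`P = ⟨r v - r u, T⟩`, `ℓ = len r u v`, `N = ‖r v - r u‖^2`.  Then
`‖r'(w)‖ - ⟨r'(w), T⟩ = ‖r'(w)‖ ‖e(w) - e(u)‖^2 / 2 ≤ C δ^2`, so `0 ≤ ℓ - P ≤ C δ^3`; the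
component of `r v - r u` orthogonal to `T` has norm `≤ K δ^2`
(it is the orthogonal component of `r v - r u - (v-u) r'(u)`); so
`N = P^2 + O(δ^4)`, `ℓ^2 - N = (ℓ - P)(ℓ + P) - O(δ^4) = O(δ^4)` and
`N - ℓ P = P (P - ℓ) + O(δ^4) = O(δ^4)`.  Divide by `N ≥ c^2 δ^2` and `ℓ ≥ m δ`:
`|1/N - 1/ℓ^2| ≤ C`, `|⟨r u - r v, r'(u)⟩/N + ‖r'(u)‖/ℓ| = ‖r'(u)‖ |N - ℓ P|/(N ℓ) ≤ C δ`.
The third estimate is the second one with the roles of `u` and `v` exchanged (base point `v`).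
-/
def S_Loc : Prop := ∀ r : ℝ → E3, IsKnot r → ∀ b : ℝ, b < 1 → ∃ C : ℝ, ∀ u v : ℝ,
  0 < v - u → v - u ≤ b →
    |1 / ‖r u - r v‖ ^ 2 - 1 / len r u v ^ 2| ≤ C ∧
    |inner ℝ (r u - r v) (deriv r u) / ‖r u - r v‖ ^ 2 + ‖deriv r u‖ / len r u v| ≤ C * (v - u) ∧
    |inner ℝ (r v - r u) (deriv r v) / ‖r u - r v‖ ^ 2 - ‖deriv r v‖ / len r u v| ≤ C * (v - u)

/-- `Q` is bounded along a knot (on all of `R^2`; if `r s = r t` then `Q r s t = 0`), measurable,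
and integrable on `(0,1)^2`.
Proof.  By periodicity we may assume `0 < |s - t| ≤ 1/2` (if `s - t` is an integer, `Q = 0`).
Use `S_Mu` with `μ = 1/(s-t)` for `a = r'(s)` and `μ' = 1/(s-t)` for `b = r'(t)`:
`‖r'(s) - (r s - r t)/(s-t)‖ ≤ K |s-t|` and the same for `t`; the chord bound with `b = 1/2`.
Measurability: `r`, `deriv r` are continuous and `qf` is built from continuous functions and
division. -/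
def S_QB : Prop := ∀ r : ℝ → E3, IsKnot r →
  (∃ C, ∀ s t, Q r s t ≤ C) ∧ Measurable (fun z : ℝ × ℝ => Q r z.1 z.2) ∧
  IntegrableOn (fun z : ℝ × ℝ => Q r z.1 z.2) (Ioo (0 : ℝ) 1 ×ˢ Ioo (0 : ℝ) 1)

/-- The inner integral.  Fix `u ∈ (0,1)`, `L = len r 0 1`.  By periodicity (for `v ∈ (0,u)`:
`len r v u = L - len r u (v+1)`, `arcDist r u v = min (len r u (v+1)) (L - len r u (v+1))`,
`r (v+1) = r v`, `deriv r (v+1) = deriv r v`) the left side is the integral over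
`v ∈ (u, u+1)` of `(1/‖r u - r v‖^2 - 1/D^2) ‖r'(u)‖ ‖r'(v)‖`, `D = min ℓ (L-ℓ)`,
`ℓ = len r u v`.  Let `a ∈ (u,u+1)` be the point with `len r u a = L/2`.  With
`g(v) = ⟨r u - r v, r'(u)⟩/‖r u - r v‖^2` one has on `(u,a)`:
`integrand = Q r u v + d/dv [g(v) + ‖r'(u)‖/ℓ]`, and on `(a,u+1)`:
`integrand = Q r u v + d/dv [g(v) - ‖r'(u)‖/(L-ℓ)]`
(`g'(v) = (-⟨r'(u),r'(v)⟩ + 2⟨r u - r v,r'(u)⟩⟨r u - r v,r'(v)⟩/‖r u - r v‖^2)/‖r u - r v‖^2`).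
By `S_Loc` (with `b = 1 - m/(2M)`; `L - ℓ ≥ L/2` on `(u,a]` gives `v - u ≤ b`, similarly on
the other side; `r (u+1) = r u`) the two bracketed functions tend to `0` at `u` and `u+1`, and
the integrands `(1/N - 1/D^2)‖r'‖‖r'‖ - Q` are bounded; so FTC
(`intervalIntegral.integral_eq_sub_of_hasDerivAt_of_tendsto`) gives
`∫ = ∫ Q + (g(a) + 2‖r'(u)‖/L) - (g(a) - 2‖r'(u)‖/L) = ∫ Q + 4‖r'(u)‖/L`. -/
def S_DSu : Prop := ∀ r : ℝ → E3, IsKnot r → ∀ u ∈ Ioo (0 : ℝ) 1,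
  (∫ v in (0 : ℝ)..1, (1 / ‖r u - r v‖ ^ 2 - 1 / arcDist r u v ^ 2) * ‖deriv r u‖ * ‖deriv r v‖) =
    (∫ v in (0 : ℝ)..1, Q r u v) + 4 * ‖deriv r u‖ / len r 0 1

/-- `E = 4 + ∬ Q`.  Integrate `S_DSu` over `u`; Fubini with `S_QB`; `∫ ‖r'‖ = L`. -/
def S_DS : Prop := ∀ r : ℝ → E3, IsKnot r →
  energy r = 4 + ∫ z in Ioo (0 : ℝ) 1 ×ˢ Ioo (0 : ℝ) 1, Q r z.1 z.2

/-! ## Part C: the reflection identity -/

/-- Splitting of the energy.  `f, g` mirror knots, `h` the knot which is `f` on `[0,1/2]` and `g`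
on `[1/2,1]`.  Split `(0,1)^2` (up to a null set) in the four squares with sides `U = (0,1/2)`,
`L = (1/2,1)`; on `L` write `t = 1 - t'`: `g(1-t') = mir (g t')`, `g'(1-t') = -mir (g' t')` and use
`qf (mir x) (-mir a) (mir y) (-mir b) = qf x a y b` and the symmetry of `qf`.  So
`energy h = 4 + AA f + AA g + 2 XX f g`, `energy f = 4 + 2 AA f + 2 XX f f`, the same for `g`.
All integrals converge absolutely by `S_QB`.  `XX g f = XX f g` by the same symmetries.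
(`deriv h = deriv f` on the open interval `U`, `deriv h = deriv g` on `L`.) -/
def S_Split : Prop := ∀ f g h : ℝ → E3, MirrorKnot f → MirrorKnot g → IsKnot h →
  (∀ t ∈ Icc (0 : ℝ) (1 / 2), h t = f t) → (∀ t ∈ Icc (1 / 2 : ℝ) 1, h t = g t) →
    energy f + energy g - 2 * energy h = 2 * (XX f f + XX g g - XX f g - XX g f)

/-- The two-sided integration by parts.  For `s ∈ U` fixed and `b = f` or `g`:
`qf (a s) (a' s) (mir (b t)) (-mir (b' t)) = kk a b s t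
  + d/dt [⟨a s - mir (b t), a' s⟩ / ‖a s - mir (b t)‖^2]`.
`f = g` for `|t| < t1` and for `|t - 1/2| < t1`, so the integrand of `XX a f - XX a g` vanishes
for `t` outside `K = [t0, 1/2 - t0]`, and on `K` the boundary terms cancel:
`XX a f - XX a g = ∫_{s ∈ U} ∫_{t ∈ K} (kk a f s t - kk a g s t)`.  Take `a = f` and `a = g` and
subtract; for `s ∉ K` the integrands for `a = f` and `a = g` are equal.  Everything is bounded: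
`a s` is in the closed upper half space and `mir (b t)`, `t ∈ K`, in a compact subset of the open
lower half space; for `XX` use `S_QB` for the knots `f`, `g` and `h` (`XX f g` is the integral
over `U × L` of `Q h`). -/
def S_Parts : Prop := ∀ (f g h : ℝ → E3) (t0 t1 : ℝ), MirrorKnot f → MirrorKnot g → IsKnot h →
  (∀ t ∈ Icc (0 : ℝ) (1 / 2), h t = f t) → (∀ t ∈ Icc (1 / 2 : ℝ) 1, h t = g t) →
  0 < t0 → t0 < t1 → t1 ≤ 1 / 4 →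
  (∀ t, |t| < t1 → g t = f t) → (∀ t, |t - 1 / 2| < t1 → g t = f t) →
    XX f f + XX g g - XX f g - XX g f = VV f g t0 (1 / 2 - t0)

/-! ## Part D: cut-off and slide -/

/-- `τ` is small enough for the slide to be a diffeomorphism with good bounds. -/
def Sm (τ : ℝ) : Prop := |τ| ≤ 1 / 8 ∧ ∀ x, |τ| * |deriv St x| ≤ 1 / 8

/-- `St' , St''` are bounded: `St` is smooth and constant on `(-∞,0]` and on `[1,∞)`. -/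
def S_StB : Prop :=
  (∃ B : ℝ, 0 < B ∧ (∀ x, |deriv St x| ≤ B) ∧ ∀ x, |deriv (deriv St) x| ≤ B) ∧
  (∃ τ0 : ℝ, 0 < τ0 ∧ ∀ τ, |τ| ≤ τ0 → Sm τ) ∧
  (∀ τ c, Sm τ → |c| ≤ 1 → Sm (c * τ))

/-- Elementary facts on `cut`. -/
def S_Cut : Prop := ∀ ε : ℝ, 0 < ε →
  (∀ x : E3, 0 ≤ cut ε x ∧ cut ε x ≤ 1) ∧
  (∀ x : E3, ‖x‖ ≤ ε → cut ε x = 0) ∧
  (∀ x : E3, 1 ≤ ε * ‖x‖ → cut ε x = 0) ∧
  (∀ x : E3, Real.exp 1 * ε ≤ ‖x‖ → Real.exp 1 * (ε * ‖x‖) ≤ 1 → cut ε x = 1) ∧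
  (∀ x y : E3, ‖x‖ = ‖y‖ → cut ε x = cut ε y) ∧
  (∀ x : E3, x ≠ 0 → cut ε (inv x) = cut ε x) ∧
  (ContDiff ℝ ∞ (cut ε))

/-- The slide.  Derivative: `D sl_x (a) = e^{τ c} (a + τ (D c_x a) x)`, `c = κ (log |x|)`,
`κ(w) = St (w - log ε) St (-log ε - w)`, `|κ'| ≤ 2 sup |St'|`, `|D c_x a| ≤ |κ'| |a| / |x|`, so
`|τ D c_x a| |x| ≤ |a|/4`; near `0` the map is the identity.
Lower bound for distances: for `x, y ≠ 0` put `R = ‖sl x‖`, `R' = ‖sl y‖`;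
`‖sl x - sl y‖^2 = (R - R')^2 + 2 R R' (1 - ⟨x,y⟩/(|x||y|))`, `R ≥ e^{-1/8} |x|`, and
`|R - R'| ≥ e^{-1/8} (3/4) ||x| - |y||` by the mean value theorem for
`ρ ↦ ρ exp (τ κ (log ρ))`; the same formula with `R = |x|` gives the claim
(`e^{-1/8} 3/4 ≥ 1/2`).  `y = 0`: `sl 0 = 0`. -/
def S_Sl : Prop := ∀ ε τ : ℝ, 0 < ε → Sm τ →
  ContDiff ℝ ∞ (sl ε τ) ∧
  (∀ x : E3, sl ε τ (mir x) = mir (sl ε τ x)) ∧
  (∀ x : E3, x ≠ 0 → inv (sl ε τ x) = sl ε (-τ) (inv x)) ∧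
  (∀ x : E3, 1 / 2 * ‖x‖ ≤ ‖sl ε τ x‖ ∧ ‖sl ε τ x‖ ≤ 2 * ‖x‖) ∧
  (∀ x a : E3, 1 / 2 * ‖a‖ ≤ ‖fderiv ℝ (sl ε τ) x a‖ ∧ ‖fderiv ℝ (sl ε τ) x a‖ ≤ 2 * ‖a‖) ∧
  (∀ x y : E3, 1 / 2 * ‖x - y‖ ≤ ‖sl ε τ x - sl ε τ y‖)

/-! ## Part E: the chart -/

/-- Elementary facts on the chart of a mirror knot.  `p, q` lie on the plane by `sym` and
`periodic` and are different by `inj`; `p - q ≠ 0`, `(ph r) 2 = 0`, `ph r ≠ 0`.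
`Q` is invariant by `S_Inv` (translation, inversion, translation). -/
def S_Ch : Prop := ∀ r : ℝ → E3, MirrorKnot r →
  (r 0) 2 = 0 ∧ (r (1 / 2)) 2 = 0 ∧ (ph r) 2 = 0 ∧ ph r ≠ 0 ∧
  (∀ t, r t = r (1 / 2) ↔ ∃ n : ℤ, t = 1 / 2 + n) ∧
  (∀ t, r t = r 0 ↔ ∃ n : ℤ, t = n) ∧
  (∀ x, x ≠ r (1 / 2) → back r (ch r x) = x ∧ ch r x ≠ -ph r ∧ (ch r x) 2 = x 2 / ‖x - r (1 / 2)‖ ^ 2) ∧
  (∀ x, x ≠ -ph r → ch r (back r x) = x ∧ back r x ≠ r (1 / 2) ∧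
    (back r x) 2 = x 2 / ‖x + ph r‖ ^ 2) ∧
  (∀ t, r t ≠ r (1 / 2) → ContDiffAt ℝ ∞ (Fc r) t ∧
    deriv (Fc r) t = dinv (r t - r (1 / 2)) (deriv r t) ∧ deriv (Fc r) t ≠ 0) ∧
  (∀ t, Fc r (t + 1) = Fc r t) ∧ (∀ t, Fc r (-t) = mir (Fc r t)) ∧ Fc r 0 = 0 ∧
  (∀ t ∈ Ioo (0 : ℝ) (1 / 2), 0 < Fc r t 2) ∧
  (∀ s t, r s ≠ r (1 / 2) → r t ≠ r (1 / 2) → Fc r s = Fc r t → r s = r t) ∧
  (∀ s t, r s ≠ r (1 / 2) → r t ≠ r (1 / 2) →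
    Q r s t = qf (Fc r s) (deriv (Fc r) s) (Fc r t) (deriv (Fc r) t)) ∧
  Tendsto (fun t => ‖Fc r t‖) (𝓝[≠] (1 / 2)) atTop

/-- Cone condition and growth.
`deriv r 0 = ‖deriv r 0‖ e_3`: from `r (-t) = mir (r t)` the first two components vanish, the
third one is `≥ 0` by `pos`.  Similarly `deriv r (1/2) = -‖deriv r (1/2)‖ e_3`.
`(Fc r t) 2 / ‖Fc r t‖ = (r t) 2 ‖p - q‖ / (‖r t - p‖ ‖r t - q‖)` and `(r t) 2 ≥ c t (1/2 - t)`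
on `[0, 1/2]` (compactness: near `0` and `1/2` by the derivative, positive in between),
`‖r t - p‖ ≤ M t`, `‖r t - q‖ ≤ M (1/2 - t)`.
Growth: `‖F'‖ = ‖r'‖/‖r t - q‖^2`, `1/‖r t - q‖ = ‖inv (r t - q)‖ ≤ ‖F‖ + ‖ph r‖`. -/
def S_Cone : Prop := ∀ r : ℝ → E3, MirrorKnot r →
  (∃ c : ℝ, 0 < c ∧ c ≤ 1 ∧ ∀ t ∈ Ioo (0 : ℝ) (1 / 2), c * ‖Fc r t‖ ≤ Fc r t 2) ∧
  (∃ C : ℝ, ∀ t, r t ≠ r (1 / 2) → ‖deriv (Fc r) t‖ ≤ C * (1 + ‖Fc r t‖ ^ 2)) ∧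
  (deriv (Fc r) 0) 0 = 0 ∧ (deriv (Fc r) 0) 1 = 0 ∧ 0 < (deriv (Fc r) 0) 2

/-- The second chart.  `1 - 2 ⟨y, ph⟩ + |y|^2 |ph|^2 = |y|^2 |inv y - ph|^2` for `y ≠ 0`, so it is
zero only for `y = inv (ph r) = p - q`; `Gm r y = inv (inv y - ph r)` for `y ≠ 0, p - q`;
`Gm r 0 = 0`, derivative of `Gm r` at `0` is the identity. -/
def S_Gc : Prop := ∀ r : ℝ → E3, MirrorKnot r →
  Gc r (1 / 2) = 0 ∧
  (∀ t, r t ≠ r 0 → ContDiffAt ℝ ∞ (Gc r) t ∧ deriv (Gc r) t ≠ 0) ∧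
  (∀ t, r t ≠ r 0 → r t ≠ r (1 / 2) → Gc r t = inv (Fc r t) ∧ Fc r t ≠ 0) ∧
  (∀ s t, r s ≠ r 0 → r t ≠ r 0 → Gc r s = Gc r t → r s = r t)

/-- The slid knot is a mirror knot, equal to `r` near `0` and `1/2`, and in the chart it is
`sl ε τ ∘ F`.  `sl ε τ (F t) ≠ -ph r` because the third component is not `0` for `t ∉ (1/2)ℤ`, and
`sl 0 = 0 ≠ -ph r`.  Near `1/2` the chart point satisfies `ε ‖F‖ ≥ 1`, so `rs = r` there;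
near `0`: `‖F‖ ≤ ε`.  Smoothness elsewhere by composition; regular because
`D sl` is injective (`S_Sl`) and `‖dinv x a‖ = ‖a‖/‖x‖^2`; injective because `sl` is. -/
def S_Rs : Prop := ∀ (r : ℝ → E3) (ε τ : ℝ), MirrorKnot r → 0 < ε → Sm τ →
  MirrorKnot (rs ε τ r) ∧ rs ε τ r 0 = r 0 ∧ rs ε τ r (1 / 2) = r (1 / 2) ∧
  (∃ t1 : ℝ, 0 < t1 ∧ t1 ≤ 1 / 4 ∧ (∀ t, |t| < t1 → rs ε τ r t = r t) ∧
    (∀ t, |t - 1 / 2| < t1 → rs ε τ r t = r t)) ∧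
  (∀ t, rs ε τ r t = r (1 / 2) ↔ r t = r (1 / 2)) ∧
  (∀ t, r t ≠ r (1 / 2) → Fc (rs ε τ r) t = sl ε τ (Fc r t))

/-- The knot slid on one side.  `0 ≤ (r t) 2` iff `t ∈ [0,1/2] + ℤ`.  Near every `t` the curve
is equal to `r` or to `rs ε τ r` (near `0` and `1/2` these two are equal).  Injectivity: the
upper part has third component `≥ 0`, the lower part `< 0`. -/
def S_As : Prop := ∀ (r : ℝ → E3) (ε τ : ℝ), MirrorKnot r → 0 < ε → Sm τ →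
  IsKnot (as ε τ r) ∧ (∀ t ∈ Icc (0 : ℝ) (1 / 2), as ε τ r t = r t) ∧
  (∀ t ∈ Icc (1 / 2 : ℝ) 1, as ε τ r t = rs ε τ r t)

/-- The radial map of the asymmetric slide in the chart; `c` is the constant of the cone
condition. -/
noncomputable def dl (ε c τ : ℝ) (x : E3) : E3 :=
  Real.exp (τ * (cut ε x * St (-(2 * x 2) / (c * ‖x‖) - 1))) • x

/-- `dl` is a continuous family of bijections of `R^3`, the identity for `‖x‖ ≤ ε`,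
`ε ‖x‖ ≥ 1` and for `x 2 ≥ -c ‖x‖/2`; for `x 2 ≤ -c ‖x‖` it is `sl`.
Joint continuity: away from `x = 0` clear, near `x = 0` it is the identity.
Injective: `dl x = dl y`, `x, y ≠ 0`, implies `y = k x`, `k > 0`; then the angular factor
`θ ∈ [0,1]` is the same and `w ↦ w + τ θ κ(w)` is strictly increasing (`|τ| |κ'| ≤ 1/4`).
Surjective: along each ray `ρ ↦ ρ exp (τ θ κ(log ρ))` is continuous, `= ρ` for small and large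
`ρ` (intermediate value theorem). -/
def S_Dl : Prop := ∀ ε c : ℝ, 0 < ε → 0 < c → c ≤ 1 →
  Continuous (fun z : ℝ × E3 => dl ε c z.1 z.2) ∧
  (∀ τ, Sm τ → Function.Bijective (dl ε c τ)) ∧
  (∀ x : E3, dl ε c 0 x = x) ∧
  (∀ τ (x : E3), ‖x‖ ≤ ε ∨ 1 ≤ ε * ‖x‖ ∨ -(c * ‖x‖ / 2) ≤ x 2 → dl ε c τ x = x) ∧
  (∀ τ (x : E3), x 2 ≤ -(c * ‖x‖) → dl ε c τ x = sl ε τ x)

/-- Ambient isotopy.  `H σ x = q` if `x = q`, else `back r (dl ε c (σ τ) (ch r x))`.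
`dl` fixes a neighbourhood of `-ph r` (`(ph r) 2 = 0`, `ph r ≠ 0`) and maps the complement of
`-ph r` bijectively to itself.  `H σ` is the identity near `q` (there `ε ‖ch r x‖ ≥ 1`) and
outside of a ball (there `ch r x` is near `-ph r`), so it is a continuous bijection which is the
identity outside a compact set, hence closed, hence a homeomorphism; jointly continuous.
On the curve: upper half: `(Fc r t) 2 ≥ 0`, `H = id`; lower half: `(Fc r t) 2 ≤ -c ‖Fc r t‖`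
(`S_Cone` and `sym`), `H 1 (r t) = rs ε τ r t`. -/
def S_Iso : Prop := ∀ (r : ℝ → E3) (ε τ : ℝ), MirrorKnot r → 0 < ε → Sm τ →
  AmbientIsotopic r (as ε τ r)

/-! ## Part F: the uniform bound and the limit of the energies -/

/-- Abstract estimate for a product `x = m Φ`.  Hypotheses on `[-b,b]`: `K`-Taylor bounds for `Φ`,
`Φ 0 = 0`; `1/2 ≤ m ≤ 2`, `|m'(t)| |t| ≤ C`, and for `|t-s| ≤ |s|/2`:
`|m t - m s - m'(s)(t-s)| s^2 ≤ C (t-s)^2`, `|m t - m s| |s| ≤ C |t-s|`.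
Conclusion: with `u(t) = t m(t)` (so `u' = m + t m'`) and `x' = m Φ' + m' Φ`,
`‖(u t - u s) x'(s) - u'(s) (x t - x s)‖ ≤ C' (t-s)^2`.
Proof: exact identity, with `ρ = Φ t - Φ s - (t-s) Φ'(s)` and
`β = m'(s) m(t) (t-s) - m(s) (m(t) - m(s)) = m(t) [m'(s)(t-s) - (m t - m s)] + (m t - m s)^2`:
`(u t - u s) x'(s) - u'(s) (x t - x s) = β (Φ s - s Φ'(s)) - (m s + s m'(s)) m(t) ρ`.
`‖Φ s - s Φ'(s)‖ ≤ K s^2` (Taylor between `s` and `0`), `‖ρ‖ ≤ K (t-s)^2`.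
If `|t-s| ≤ |s|/2` then `|β| s^2 ≤ C (t-s)^2`; if `|t-s| > |s|/2` then
`|β| s^2 ≤ (|m'(s)| 2 |t-s| + 8) s^2 ≤ 2 C |s| |t-s| + 8 s^2 ≤ C (t-s)^2`. -/
def S_Ua : Prop := ∀ K C : ℝ, 0 ≤ K → 0 ≤ C → ∃ C' : ℝ, 0 ≤ C' ∧
  ∀ (Φ dΦ : ℝ → E3) (m dm : ℝ → ℝ) (b : ℝ), 0 < b → Φ 0 = 0 →
  (∀ s ∈ Icc (-b) b, ∀ t ∈ Icc (-b) b, ‖Φ t - Φ s - (t - s) • dΦ s‖ ≤ K * (t - s) ^ 2) →
  (∀ t ∈ Icc (-b) b, 1 / 2 ≤ m t ∧ m t ≤ 2 ∧ |dm t| * |t| ≤ C) →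
  (∀ s ∈ Icc (-b) b, ∀ t ∈ Icc (-b) b, |t - s| ≤ |s| / 2 →
    |m t - m s - dm s * (t - s)| * s ^ 2 ≤ C * (t - s) ^ 2 ∧ |m t - m s| * |s| ≤ C * |t - s|) →
  ∀ s ∈ Icc (-b) b, ∀ t ∈ Icc (-b) b,
    ‖(t * m t - s * m s) • (m s • dΦ s + dm s • Φ s)
      - (m s + s * dm s) • (m t • Φ t - m s • Φ s)‖ ≤ C' * (t - s) ^ 2

/-- The factor `m(t) = exp (τ cut ε (Φ t))` satisfies the hypotheses of `S_Ua` uniformly in `ε`,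
and `m + t m' ≥ 1/4`.
Proof: `m = exp (τ κ(ℓ))`, `ℓ = log ‖Φ‖`, `κ(w) = St (w - log ε) St (-log ε - w)`, `κ', κ''`
bounded independently of `ε`.  `c |t| ≤ ‖Φ t‖` on `[-b,b]`, so `|ℓ'| ≤ C/|t|`,
`|ℓ''| ≤ C/t^2`, so `|m'| ≤ C/|t|`, `|m''| ≤ C/t^2` for `t ≠ 0`; between `s` and `t` with
`|t-s| ≤ |s|/2` all points have absolute value `≥ |s|/2` (Taylor / mean value).
`m + t m' = m (1 + τ κ' t ℓ')`: for `|t| ≤ a` (`a` small) `|t ℓ'| ≤ 2` because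
`t ⟨Φ,Φ'⟩/‖Φ‖^2 → 1`, and `|τ κ'| ≤ 1/4`; for `|t| ≥ a` and `ε < ε0` `κ' = 0`. -/
def S_Ub : Prop := ∀ (Φ : ℝ → E3) (b τ : ℝ), 0 < b → Sm τ →
  (∀ t ∈ Icc (-b) b, ContDiffAt ℝ ∞ Φ t) → Φ 0 = 0 → (∀ t ∈ Icc (-b) b, deriv Φ t ≠ 0) →
  (∀ s ∈ Icc (-b) b, ∀ t ∈ Icc (-b) b, Φ s = Φ t → s = t) →
  ∃ ε0 : ℝ, 0 < ε0 ∧ ∃ C : ℝ, 0 ≤ C ∧ ∀ ε ∈ Ioo (0 : ℝ) ε0,
    (∀ t ∈ Icc (-b) b, DifferentiableAt ℝ (fun t => Real.exp (τ * cut ε (Φ t))) t) ∧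
    (∀ t ∈ Icc (-b) b, 1 / 2 ≤ Real.exp (τ * cut ε (Φ t)) ∧ Real.exp (τ * cut ε (Φ t)) ≤ 2 ∧
      |deriv (fun t => Real.exp (τ * cut ε (Φ t))) t| * |t| ≤ C ∧
      1 / 4 ≤ Real.exp (τ * cut ε (Φ t)) + t * deriv (fun t => Real.exp (τ * cut ε (Φ t))) t) ∧
    (∀ s ∈ Icc (-b) b, ∀ t ∈ Icc (-b) b, |t - s| ≤ |s| / 2 →
      |Real.exp (τ * cut ε (Φ t)) - Real.exp (τ * cut ε (Φ s))
        - deriv (fun t => Real.exp (τ * cut ε (Φ t))) s * (t - s)| * s ^ 2 ≤ C * (t - s) ^ 2 ∧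
      |Real.exp (τ * cut ε (Φ t)) - Real.exp (τ * cut ε (Φ s))| * |s| ≤ C * |t - s|)

/-- The uniform bound in a chart.  `x = sl ε τ ∘ Φ = m Φ`.  Chord bound
`‖x s - x t‖ ≥ ‖Φ s - Φ t‖/2 ≥ c |s - t|` (`S_Sl`, compactness), `‖Φ'‖/2 ≤ ‖x'‖ ≤ 2‖Φ'‖`.
`u(t) = t m(t)` has `u' ≥ 1/4` on `[-b,b]`, so `(u t - u s)/(t - s) ≥ 1/4`.
Apply `S_Mu` to `(x s, x' s)`, `(x t, x' t)` with `μ = u'(s)/(u s - u t)`,
`μ' = u'(t)/(u s - u t)`: `‖x'(s) - μ (x s - x t)‖ ≤ C' (t-s)^2/|u t - u s| ≤ 4 C' |t-s|` by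
`S_Ua`, the same for `t`. -/
def S_U : Prop := ∀ (Φ : ℝ → E3) (b τ : ℝ), 0 < b → Sm τ →
  (∀ t ∈ Icc (-b) b, ContDiffAt ℝ ∞ Φ t) → Φ 0 = 0 → (∀ t ∈ Icc (-b) b, deriv Φ t ≠ 0) →
  (∀ s ∈ Icc (-b) b, ∀ t ∈ Icc (-b) b, Φ s = Φ t → s = t) →
  ∃ ε0 : ℝ, 0 < ε0 ∧ ∃ C : ℝ, ∀ ε ∈ Ioo (0 : ℝ) ε0, ∀ s ∈ Icc (-b) b, ∀ t ∈ Icc (-b) b,
    Q (fun t => sl ε τ (Φ t)) s t ≤ C

/-- The uniform bound for the slid knots.  Let `g = rs ε τ r`, in the chart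
`Fc g = sl ε τ ∘ F`, `Gc g = sl ε (-τ) ∘ Gc r`.  By periodicity we may take `|s|, |t| ≤ 1/2`;
if `r s = q` or `r t = q` use continuity or treat separately (`Q g` is continuous off the
diagonal; or: it is enough to bound `Q g s t` for `s, t` not in `1/2 + ℤ`, the exceptional values
are limits).  (A) `|s|, |t| ≤ 3/8`: `S_U` for `Φ = F`, `b = 3/8` and `Q g s t = Q (Fc g) s t`
(`S_Ch` for `g`).  (B) `s, t` at distance `≤ 3/8` from `1/2` modulo `1`: `S_U` for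
`Φ(σ) = Gc r (1/2 + σ)`, `-τ` and `Q g = Q (Gc g)` (`S_Inv`, `Gc g = inv (Fc g)`).
(C) otherwise one of them, say `s`, satisfies `|s - 1/2| ≤ 1/8` mod 1 and `|t| ≤ 1/8`:
`Q g s t ≤ 2 ‖g' s‖ ‖g' t‖/‖g s - g t‖^2`, in the chart `Fc`:
`‖sl F s - sl F t‖ ≥ ‖F s - F t‖/2 ≥ c ‖F s‖`, `‖(sl F)'‖ ≤ 2‖F'‖`,
`‖F'(s)‖ ≤ C (1 + ‖F s‖^2)`, `‖F s‖ ≥ c`. -/
def S_Unif : Prop := ∀ (r : ℝ → E3) (τ : ℝ), MirrorKnot r → Sm τ →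
  ∃ ε0 : ℝ, 0 < ε0 ∧ ∃ C : ℝ, ∀ ε ∈ Ioo (0 : ℝ) ε0, ∀ s t : ℝ,
    r s ≠ r (1 / 2) → r t ≠ r (1 / 2) → Q (rs ε τ r) s t ≤ C

/-- The energies converge.  `S_DS` for `rs ε τ r` and `r`; dominated convergence on `(0,1)^2`
with the constant of `S_Unif` (`0 ≤ Q`): for `s, t ∈ (0,1)`, `s, t ≠ 1/2`, and `ε` small the curve
`Fc (rs ε τ r) = sl ε τ ∘ F` is `e^τ F` near `s` and near `t`, so `Q (rs ε τ r) s t = Q r s t`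
(`S_Ch`, scaling invariance). -/
def S_Lim : Prop := ∀ (r : ℝ → E3) (τ : ℝ), MirrorKnot r → Sm τ →
  Tendsto (fun ε => energy (rs ε τ r)) (𝓝[>] 0) (𝓝 (energy r))

/-! ## Part G: reflection positivity -/

/-- The Gaussian formula.  With `A = x 2 + y 2 > 0`, `d = (x 0 - y 0) + i (x 1 - y 1)`:
`phi ζ x * conj (phi ζ y) = exp (-A |ζ_1|^2 - A |ζ_2|^2 - 2 i ⟨d ζ_1, ζ_2⟩)`
(real inner product of `C`; `x 0 - y 0 = d_0`, and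
`d_0 Re (conj ζ_1 ζ_2) + d_1 Im (conj ζ_1 ζ_2) = Re (conj (d ζ_1) ζ_2)`).
Integrate over `ζ_2` by `GaussianFourier.integral_cexp_neg_mul_sq_norm_add`
(`b = A`, `c = -2i`, `w = d ζ_1`): `(π/A) exp (-|d|^2 |ζ_1|^2/A)`; then over `ζ_1`:
`π/(A + |d|^2/A)`.  The absolute value of the integrand is `exp (-A (|ζ_1|^2 + |ζ_2|^2))`. -/
def S_Ker : Prop := ∀ x y : E3, 0 < x 2 → 0 < y 2 →
  (∀ ζ, ‖phi ζ x‖ = Real.exp (-(x 2 * (‖ζ.1‖ ^ 2 + ‖ζ.2‖ ^ 2)))) ∧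
  Integrable (fun ζ : ℂ × ℂ => phi ζ x * (starRingEnd ℂ) (phi ζ y)) ∧
  (∫ ζ : ℂ × ℂ, phi ζ x * (starRingEnd ℂ) (phi ζ y)) = ((Real.pi ^ 2 / ‖x - mir y‖ ^ 2 : ℝ) : ℂ)

/-- Reflection form of two curves in the open upper half space.  Bilinear version:
`∫_s ∫_t ‖a' s‖ ‖b' t‖/‖a s - mir (b t)‖^2 = π^-2 ∫_ζ Wt a ζ * conj (Wt b ζ)` by `S_Ker` and
Fubini on `[α,β]^2 × C^2` (absolute value of the integrand `≤ M^2 exp (-2 z0 |ζ|^2)`, `z0` the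
minimum of the third coordinates).  Expand `|Wt a - Wt b|^2`. -/
def S_RP : Prop := ∀ (a b : ℝ → E3) (α β : ℝ), α ≤ β →
  ContinuousOn a (Icc α β) → ContinuousOn b (Icc α β) →
  ContinuousOn (deriv a) (Icc α β) → ContinuousOn (deriv b) (Icc α β) →
  (∀ t ∈ Icc α β, 0 < a t 2) → (∀ t ∈ Icc α β, 0 < b t 2) →
  Integrable (fun ζ : ℂ × ℂ => ‖Wt a α β ζ - Wt b α β ζ‖ ^ 2) ∧
  VV a b α β = (Real.pi ^ 2)⁻¹ * ∫ ζ : ℂ × ℂ, ‖Wt a α β ζ - Wt b α β ζ‖ ^ 2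

/-- The difference of the transforms of `F` and `sl ε τ ∘ F`. -/
noncomputable def Wd (ε τ : ℝ) (r : ℝ → E3) (ζ : ℂ × ℂ) : ℂ :=
  ∫ t in Ioo (0 : ℝ) (1 / 2), ((‖deriv (Fc r) t‖ : ℂ) * phi ζ (Fc r t)
    - (‖deriv (fun s => sl ε τ (Fc r s)) t‖ : ℂ) * phi ζ (sl ε τ (Fc r t)))

/-- Its limit for `ε → 0`. -/
noncomputable def Wi (τ : ℝ) (r : ℝ → E3) (ζ : ℂ × ℂ) : ℂ :=
  ∫ t in Ioo (0 : ℝ) (1 / 2), ((‖deriv (Fc r) t‖ : ℂ) * phi ζ (Fc r t)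
    - (Real.exp τ * ‖deriv (Fc r) t‖ : ℝ) * phi ζ (Real.exp τ • Fc r t))

/-- `VV r (rs ε τ r)` in the chart.  `kk` is invariant under the chart (`S_Inv`; the chart
commutes with `mir` because `q 2 = 0`, `(ph r) 2 = 0`), so
`VV r (rs ε τ r) α β = VV F (sl ε τ ∘ F) α β = π^-2 ∫ |Wt F - Wt (sl ∘ F)|^2` for
`0 < α < β < 1/2` (`S_RP`), and `Wt F α β - Wt (sl ∘ F) α β = Wd` because `sl ε τ ∘ F = F` near the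
parameters outside `[t0, 1/2 - t0]` in `(0,1/2)` (from `rs = r` there). -/
def S_VW : Prop := ∀ (r : ℝ → E3) (ε τ t0 t1 : ℝ), MirrorKnot r → 0 < ε → Sm τ →
  0 < t0 → t0 < t1 → t1 ≤ 1 / 4 →
  (∀ t, |t| < t1 → rs ε τ r t = r t) → (∀ t, |t - 1 / 2| < t1 → rs ε τ r t = r t) →
  Integrable (fun ζ : ℂ × ℂ => ‖Wd ε τ r ζ‖ ^ 2) ∧
  VV r (rs ε τ r) t0 (1 / 2 - t0) = (Real.pi ^ 2)⁻¹ * ∫ ζ : ℂ × ℂ, ‖Wd ε τ r ζ‖ ^ 2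

/-- Domination.  `‖F'‖ |phi ζ F| ≤ C (1 + ‖F‖^2) exp (-c ‖F‖ |ζ|^2)` is bounded on `(0,1/2)`
locally uniformly in `ζ ≠ 0` (`S_Cone`); the same for `sl ∘ F` (`S_Sl`: `(sl x) 2 ≥ x 2/2`,
`‖(sl F)'‖ ≤ 2‖F'‖`) uniformly in `ε`, and for `e^τ F`. -/
def S_Dom : Prop := ∀ (r : ℝ → E3) (τ : ℝ), MirrorKnot r → Sm τ → ∀ δ : ℝ, 0 < δ → ∃ C : ℝ,
  ∀ (ζ : ℂ × ℂ) (ε : ℝ), δ ≤ ‖ζ.1‖ ^ 2 + ‖ζ.2‖ ^ 2 → 0 < ε → ∀ t ∈ Ioo (0 : ℝ) (1 / 2),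
    ‖(‖deriv (Fc r) t‖ : ℂ) * phi ζ (Fc r t)‖ ≤ C ∧
    ‖(‖deriv (fun s => sl ε τ (Fc r s)) t‖ : ℂ) * phi ζ (sl ε τ (Fc r t))‖ ≤ C ∧
    ‖((Real.exp τ * ‖deriv (Fc r) t‖ : ℝ) : ℂ) * phi ζ (Real.exp τ • Fc r t)‖ ≤ C

/-- Limit.  (1) `Wd ε τ r ζ → Wi τ r ζ` for every `ζ ≠ 0` (dominated convergence by `S_Dom`;
for fixed `t ∈ (0,1/2)` and small `ε` the curve `sl ε τ ∘ F` is `e^τ F` near `t`).
(2) `ζ ↦ Wi τ r ζ` is continuous on `ζ ≠ 0` (`S_Dom`).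
(3) Fatou: `∫⁻ ‖Wi‖^2 ≤ liminf ∫⁻ ‖Wd‖^2 = 0`, so `Wi = 0` a.e., hence everywhere on the open
set `ζ ≠ 0` by (2). -/
def S_Vlim : Prop := ∀ (r : ℝ → E3) (τ : ℝ), MirrorKnot r → Sm τ →
  (∀ ε, 0 < ε → Integrable (fun ζ : ℂ × ℂ => ‖Wd ε τ r ζ‖ ^ 2)) →
  Tendsto (fun ε => ∫ ζ : ℂ × ℂ, ‖Wd ε τ r ζ‖ ^ 2) (𝓝[>] 0) (𝓝 0) →
  ∀ ζ : ℂ × ℂ, ζ ≠ 0 → Wi τ r ζ = 0

/-! ## Part H: strictness -/

/-- `Λ(k) = ∫_0^{1/2} e^{-k F_3} ‖F'‖` (finite for `k > 0` by `S_Dom`).  With `ζ = (√k, 0)`: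
`Wi τ r ζ = Λ(k) - e^τ Λ(e^τ k)`.  So `k Λ(k)` is invariant under `k ↦ e^τ k`, `0 < τ < τ1`,
hence constant on `(0,∞)`, `= C0`.  `∫_0^{1/2} k e^{-k F_3} F_3' = 1` (FTC: `F_3 = 0` at `0`,
`F_3 → ∞` at `1/2`).  So `∫ k e^{-k F_3} δ = C0 - 1` for all `k > 0`, `δ = ‖F'‖ - F_3' ≥ 0`.
For `k → ∞` the left side tends to `0` by dominated convergence: for `k ≥ 1`
`k e^{-k z} ≤ (2/z) e^{-z/2}` (`y e^{-y} ≤ 1`), and `(1/F_3) e^{-F_3/2} δ` is bounded on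
`(0,1/2)`: near `0` `δ ≤ C t` and `F_3 ≥ c t` (`S_Cone`: `δ(0) = 0`), elsewhere by the growth
bound.  So `C0 = 1` and the continuous function `δ ≥ 0` vanishes on `(0,1/2)`; then
`F' = ‖F'‖ e_3`. -/
def S_Lap : Prop := ∀ (r : ℝ → E3) (τ1 : ℝ), MirrorKnot r → 0 < τ1 →
  (∀ τ ∈ Ioo (0 : ℝ) τ1, Sm τ) →
  (∀ τ ∈ Ioo (0 : ℝ) τ1, ∀ ζ : ℂ × ℂ, ζ ≠ 0 → Wi τ r ζ = 0) →
  ∀ t ∈ Ioo (0 : ℝ) (1 / 2), (Fc r t) 0 = 0 ∧ (Fc r t) 1 = 0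

/-- If `F` stays on the vertical line then `r` is a round circle.  `r t = back r (z e_3)` with
`z = (Fc r t) 2`, which takes all positive values on `(0,1/2)`, all negative values on
`(-1/2,0)` (`sym`), `0` at `t = 0`; `q` corresponds to infinity.  With `P = ph r`, `P 2 = 0`:
`back r (z e_3) = q + (P + z e_3)/(|P|^2 + z^2)`.  Put `ρ = 1/(2|P|)`, `c = q + P/(2|P|^2)`,
`u = P/(2|P|^2)` (norm `ρ`), `v = ρ e_3`; with `z = |P| tan (θ/2)` one gets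
`back r (z e_3) = c + cos θ u + sin θ v`, `θ ∈ (-π, π)`, and `θ = π` gives `q`. -/
def S_Circ : Prop := ∀ r : ℝ → E3, MirrorKnot r →
  (∀ t ∈ Ioo (0 : ℝ) (1 / 2), (Fc r t) 0 = 0 ∧ (Fc r t) 1 = 0) → IsRoundCircle (Set.range r)

end MP_e78765_gt
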