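import Pool.Agent.Lib.MP_e78765_gt.Spec
import Pool.Agent.Lib.MP_e78765_gt.Defs2

/-!
# Reduction of the general symmetric case to mirror knots (MP_e78765_gt)

A knot whose image is invariant under the reflection in a plane and meets the plane in exactly
two points becomes, after a rigid motion and a change of the parameter to constant speed, a
`MirrorKnot`.  `S_Xyz` is the statement proved in the file `Xyz.lean` (theorem `tXyz`).
-/

open scoped ContDiff Topology
open MeasureTheory Set Filter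

namespace MP_e78765_gt

/-- Constant speed parameter.
Let `L = len r 0 1 = ∫_0^1 ‖r'‖ > 0`, `s(t) = (∫_{t0}^t ‖r'‖)/L`.  `‖r'‖` is smooth (the norm of a
smooth function without zeros), `s' = ‖r'‖/L > 0`, `s(t+1) = s(t) + 1` (periodicity), so `s` is a
strictly increasing smooth bijection of `R` with `s(t0) = 0`; its inverse `σ` is smooth
(`OpenPartialHomeomorph.contDiffAt_symm_deriv`), `σ(t+1) = σ(t) + 1`, `σ 0 = t0`,
`σ'(t) = L/‖r'(σ t)‖ > 0`. -/
def S_Sig : Prop := ∀ (r : ℝ → E3) (t0 : ℝ), IsKnot r →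
  ∃ (σ : ℝ → ℝ) (L : ℝ), ContDiff ℝ ∞ σ ∧ (∀ t, 0 < deriv σ t) ∧ (∀ t, σ (t + 1) = σ t + 1) ∧
    σ 0 = t0 ∧ 0 < L ∧ ∀ t, ‖deriv r (σ t)‖ * deriv σ t = L

/-- Change of the parameter.  `r ∘ σ` is smooth, periodic,
`deriv (r ∘ σ) t = deriv σ t • deriv r (σ t) ≠ 0`; `σ` is strictly increasing, continuous and
surjective (`σ(t + n) = σ(t) + n`), so the ranges are equal, and
`r (σ s) = r (σ t)` gives `σ t = σ s + n = σ (s + n)`, so `t = s + n`.
Energy: by `S_DS` for `r ∘ σ` and for `r` it is enough that `∬ Q (r ∘ σ) = ∬ Q r` over `(0,1)^2`.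
`Q (r ∘ σ) u v = σ'(u) σ'(v) Q r (σ u) (σ v)` because `qf x (λ a) y (μ b) = λ μ qf x a y b` for
`λ, μ > 0`.  Fubini (`S_QB` for both knots), and in each variable the substitution `x = σ(u)`
(`MeasureTheory.integral_image_eq_integral_abs_deriv_smul`, no continuity needed) and the
periodicity of `Q r` (`Function.Periodic.intervalIntegral_add_eq`):
`∫_0^1 Q r x (σ v) σ'(v) dv = ∫_{σ 0}^{σ 0 + 1} Q r x y dy = ∫_0^1 Q r x y dy`. -/
def S_Rep : Prop := ∀ (r : ℝ → E3) (σ : ℝ → ℝ), IsKnot r → ContDiff ℝ ∞ σ →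
  (∀ t, 0 < deriv σ t) → (∀ t, σ (t + 1) = σ t + 1) →
  IsKnot (fun t => r (σ t)) ∧ range (fun t => r (σ t)) = range r ∧
    (∀ t, deriv (fun t => r (σ t)) t = deriv σ t • deriv r (σ t)) ∧
    energy (fun t => r (σ t)) = energy r

/-- Constant speed parametrisation with a prescribed base point: `S_Rep` for the `σ` of
`S_Sig`. -/
def S_Arc : Prop := ∀ (r : ℝ → E3) (t0 : ℝ), IsKnot r →
  ∃ r1 : ℝ → E3, IsKnot r1 ∧ range r1 = range r ∧ r1 0 = r t0 ∧
    (∃ L : ℝ, 0 < L ∧ ∀ t, ‖deriv r1 t‖ = L) ∧ energy r1 = energy r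

/-- Symmetric parametrisation.
(1) `p = r 0` is on the plane `E = {x_3 = 0}`; let `q` be the other point of `range r` on `E`,
`q = r T`, `T ∈ (0,1)`.  For `t ∈ (0,1)`, `t ≠ T`, `(r t)_3 ≠ 0` (injectivity).  So `(r t)_3` has a
constant sign on `(0,T)` and a constant sign on `(T,1)` (intermediate value theorem).
The two signs are opposite: `mir (r t)`, `t ∈ (0,T)`, is a point of `range r` with the opposite
sign of the third coordinate, so it is in `r (T,1)`.
(2) For `t ∈ [0,T]` the point `mir (r t)` is in `r [T,1]` (for `0 < t < T` by the signs, for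
`t = 0, T` because `mir p = p = r 1`, `mir q = q = r T`).  The map
`k : [0,1-T] → r [T,1]`, `k x = r (1 - x)` is injective (for `0 < T`) and continuous on a compact
interval, so it has a continuous inverse on its image; `h = k⁻¹ ∘ mir ∘ r : [0,T] → [0,1-T]` is
continuous, injective, `h 0 = 0`, `h T = 1 - T`, `mir (r t) = r (1 - h t)`.  A continuous injective
function on an interval is strictly monotone; `h 0 = 0 < 1 - T = h T`, so it is strictly
increasing.
(3) `h' = 1` on `(0,T)`: by `HasDerivAt r (r' y) y` the quotient `‖r x - r y‖/|x - y|` tends to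
`‖r' y‖ = L` for `x → y`; `‖mir (r t) - mir (r t0)‖ = ‖r t - r t0‖` (isometry), so
`(h t - h t0)/(t - t0) = (‖r t - r t0‖/|t-t0|) / (‖r (1 - h t) - r (1 - h t0)‖/|h t - h t0|)`
tends to `L/L = 1` (`h` is increasing, continuous and injective).  So `h t = t` on `[0,T]`
(`h` continuous on `[0,T]`), `T = 1 - T`, `T = 1/2`.
(4) So `mir (r t) = r (1 - t) = r (-t)` for `t ∈ [0,1/2]`; for `t ∈ [-1/2,0]` apply `mir` to the
identity for `-t`; all `t`: periodicity of both sides.  If `(r t)_3 > 0` on `(0,1/2)`, `r` is a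
`MirrorKnot`.  Otherwise `(r t)_3 < 0` there and `mir ∘ r` is one
(`deriv (mir ∘ r) t = mir (deriv r t)`, `mir` is a linear isometry, see `S_Mir`). -/
def S_Sym : Prop := ∀ (r : ℝ → E3) (L : ℝ), IsKnot r → 0 < L → (∀ t, ‖deriv r t‖ = L) →
  mir '' range r = range r → (r 0) 2 = 0 → ({x ∈ range r | x 2 = 0}).ncard = 2 →
    MirrorKnot r ∨ MirrorKnot (fun t => mir (r t))

/-- Normal form of a plane.  `e = !₂[0,0,1]`.  If `n = e` take `A = id`, otherwise the reflection
which exchanges `n` and `e` (Mathlib: `Submodule.reflection_sub`: the reflection in the orthogonal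
complement of the line spanned by `v - w` maps `v` to `w` if `‖v‖ = ‖w‖`); so `A n = e` and
`⟨x, n⟩ = ⟨A x, e⟩ = (A x)_3`.  `b = - c • e`.  Then
`A (refl n c x) + b = A x + b - 2 ((A x + b)_3) e = mir (A x + b)`. -/
def S_Rig : Prop := ∀ (n : E3) (c : ℝ), ‖n‖ = 1 → ∃ (A : E3 ≃ₗᵢ[ℝ] E3) (b : E3),
  (∀ x, (A x + b) 2 = inner ℝ x n - c) ∧ (∀ x, A (refl n c x) + b = mir (A x + b))

/-- Transport by a rigid motion `x ↦ A x + b`.
`deriv (fun t => A (r t) + b) t = A (deriv r t)`; norms and distances are preserved, so `len`,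
`arcDist` and `energy` are.  Round circle: apply the inverse motion to the centre and `A.symm` to
the two vectors.  Isotopy: conjugate by the motion (a homeomorphism). -/
def S_Tr : Prop := ∀ (A : E3 ≃ₗᵢ[ℝ] E3) (b : E3),
  (∀ r, IsKnot r → IsKnot (fun t => A (r t) + b) ∧ energy (fun t => A (r t) + b) = energy r) ∧
  (∀ C, IsRoundCircle ((fun x => A x + b) '' C) → IsRoundCircle C) ∧
  (∀ r r', AmbientIsotopic (fun t => A (r t) + b) r' →
    AmbientIsotopic r (fun t => A.symm (r' t - b)))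

/-- `mir` is the rigid motion of a linear isometry (for the use of `S_Tr`). -/
def S_MirA : Prop := ∃ A : E3 ≃ₗᵢ[ℝ] E3, ∀ x, A x = mir x

/-- THEOREM R for mirror knots. -/
def S_R : Prop := ∀ r : ℝ → E3, MirrorKnot r → ¬ IsRoundCircle (range r) →
  ∃ r' : ℝ → E3, IsKnot r' ∧ AmbientIsotopic r r' ∧ energy r' < energy r

end MP_e78765_gt
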