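import Pool.Agent.Lib.MP_e78765_gt.Spec2
import Pool.Agent.Lib.MP_e78765_gt.Defs3

/-!
# Specification of the proof of THEOREM R2 (MP_e78765_gt)

THEOREM R2: a mirror knot which is not a round circle is not a minimiser of the energy among the
mirror knots of its equivariant isotopy class.  Idea: in the chart push the upper half up by `a`
and the lower half down by `a`, inserting a vertical segment.  With the reflection form the energy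
changes by exactly `- 2 π^-2 ∫ (1 - e^(-2 a |ζ|^2)) |Dw r ℓ ζ|^2`.
`S_Xyz` is the statement proved in the file `Xyz.lean` (theorem `tXyz`).
-/

open scoped ContDiff Topology
open MeasureTheory Set Filter

namespace MP_e78765_gt

/-! ## Part I: the axial knot and the straightening -/

/-- Existence of an axial knot with the velocities of `r` at `0` and `1/2`.
`q = r (1/2)`, `P = ph r` (`≠ 0`, horizontal), `u = (2‖P‖^2)⁻¹ • P`, `v = (2‖P‖)⁻¹ • e3`,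
`C θ = q + u + cos θ • u + sin θ • v`, so `C 0 = q + 2u = q + inv P = r 0`, `C π = q`,
`mir (C θ) = C (-θ)`, `C θ - q` has norm square `(1 + cos θ)/(2‖P‖^2)` and
`inv (C θ - q) - P = (‖P‖ sin θ/(1 + cos θ)) • e3` (vertical).
`deriv r 0 = ‖deriv r 0‖ • e3` (first two components vanish by `sym`, third `≥ 0` by `pos`),
`deriv r (1/2) = -‖deriv r (1/2)‖ • e3`.  Put `A = 2‖P‖ ‖deriv r 0‖`, `B = 2‖P‖ ‖deriv r (1/2)‖`.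
`ℓ t = C (θ t)` with `θ t = ∫_0^t ω`, `ω` smooth, even, 1-periodic, positive, `ω 0 = A`,
`ω (1/2) = B`, `∫_0^{1/2} ω = π` (so `θ` is odd, `θ (t+1) = θ t + 2π`, `θ (1/2) = π`):
`ω t = λ + (A - λ) Y(sin^2(πt)/d^2) + (B - λ) Y(cos^2(πt)/d^2)`, `Y x = 1 - St (x - 1)` (`1` for
`x ≤ 1`, `0` for `x ≥ 2`), `2 d^2 < 1/2` (disjoint supports, `ω` is a convex combination of
`λ, A, B`), `I = ∫_0^{1/2} Y(sin^2(πt)/d^2) dt = ∫_0^{1/2} Y(cos^2(πt)/d^2) dt`, which is `< 1/4`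
and `→ 0` for `d → 0`, `λ = (π - (A+B) I)/(1/2 - 2I) > 0`.
`deriv ℓ t = θ' (-sin θ • u + cos θ • v) ≠ 0`; injective modulo 1 because `θ` is strictly
increasing and `C θ = C θ'` iff `θ - θ' ∈ 2πZ`; `(ℓ t) 2 = sin (θ t)/(2‖P‖) > 0` on `(0,1/2)`. -/
def S_Ell : Prop := ∀ r : ℝ → E3, MirrorKnot r →
  ∃ ℓ : ℝ → E3, Axial r ℓ ∧ deriv ℓ 0 = deriv r 0 ∧ deriv ℓ (1 / 2) = deriv r (1 / 2)

/-- The cut-off.  `Yc δ` is a composition of smooth functions; `St, St', St''` are bounded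
(`S_StB`), the inner function `sin^2(2πt)/δ^2` has derivative `2π sin(4πt)/δ^2`; where `St' ≠ 0` we
have `sin^2(2πt) ≤ 2δ^2`, so `|(Yc δ)'| ≤ B 4π |sin 2πt|/δ^2 ≤ C/δ`, and
`|(Yc δ)''| ≤ C/δ^2`.
`|sin(2πt)| ≤ 2π|t|`, so `Yc δ t = 1` for `|t| ≤ δ/8` (`2π/8 < 1`); `sin(2πt) ≥ 4t` on
`[0,1/4]` and `sin(2πt) ≥ 4(1/2 - t)` on `[1/4,1/2]` (concavity, Mathlib `Real.mul_le_sin`), so
`Yc δ t = 0` for `t ∈ [δ, 1/2 - δ]`; moreover `Yc δ t ≠ 0` with `0 ≤ t ≤ 1/2` implies `t ≤ δ` or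
`1/2 - t ≤ δ`. -/
def S_Yc : Prop := ∃ B : ℝ, 0 ≤ B ∧ ∀ δ : ℝ, 0 < δ → δ ≤ 1 / 4 →
  ContDiff ℝ ∞ (Yc δ) ∧ (∀ t, Yc δ (t + 1 / 2) = Yc δ t) ∧ (∀ t, Yc δ (-t) = Yc δ t) ∧
  (∀ t, 0 ≤ Yc δ t ∧ Yc δ t ≤ 1) ∧ (∀ t, |t| ≤ δ / 8 → Yc δ t = 1) ∧
  (∀ t ∈ Icc δ (1 / 2 - δ), Yc δ t = 0) ∧
  (∀ t, 2 * δ ^ 2 ≤ Real.sin (2 * Real.pi * t) ^ 2 → Yc δ t = 0) ∧
  (∀ t, |deriv (Yc δ) t| ≤ B / δ) ∧ (∀ t, |deriv (deriv (Yc δ)) t| ≤ B / δ ^ 2)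

/-- The displacement is `C^1`-small and `C^{1,1}`-bounded.
`w = ℓ - r` is smooth, 1-periodic, `w (-t) = mir (w t)`, and `w, w'` vanish at `0` and `1/2`.  So
with `d(t)` = distance of `t` to `(1/2)Z`: `‖w''‖ ≤ K`, `‖w' t‖ ≤ K d(t)`, `‖w t‖ ≤ K d(t)^2`
(integrate from the nearest point of `(1/2)Z`).  On the support of `Yc δ` and of its derivatives
`d(t) ≤ δ` (`S_Yc` and half-periodicity), so `‖D'‖ ≤ (B/δ) K δ^2 + K δ ≤ C δ` and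
`‖D''‖ ≤ (B/δ^2) K δ^2 + 2 (B/δ) K δ + K ≤ C`; mean value inequality for `D'`. -/
def S_Dd : Prop := ∀ r ℓ : ℝ → E3, MirrorKnot r → Axial r ℓ → deriv ℓ 0 = deriv r 0 →
  deriv ℓ (1 / 2) = deriv r (1 / 2) → ∃ C : ℝ, 0 < C ∧ ∀ δ : ℝ, 0 < δ → δ ≤ 1 / 4 →
    ContDiff ℝ ∞ (Dd δ r ℓ) ∧ (∀ t, Dd δ r ℓ (t + 1) = Dd δ r ℓ t) ∧
    (∀ t, Dd δ r ℓ (-t) = mir (Dd δ r ℓ t)) ∧
    (∀ t, ‖deriv (Dd δ r ℓ) t‖ ≤ C * δ) ∧ (∀ s t, ‖Dd δ r ℓ s - Dd δ r ℓ t‖ ≤ C * δ * |s - t|) ∧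
    (∀ s t, ‖deriv (Dd δ r ℓ) s - deriv (Dd δ r ℓ) t‖ ≤ C * |s - t|)

/-- The straightened knots, with uniform bounds.  `g = rst δ r ℓ = r + Dd δ r ℓ`.
Bounds for `r` from `S_Bd` (`m, M, K` and the chord-arc constant `c` for `b = 1/2`); with
`C δ0 ≤ m/2, c/2` everything follows from `S_Dd`.  Injectivity modulo 1: reduce to
`|s - t| ≤ 1/2` by periodicity and use the chord-arc bound.  `pos`:
`(g t) 2 = (1 - Yc) (r t) 2 + Yc (ℓ t) 2`, and `(r t) 2, (ℓ t) 2 ≥ κ t (1/2 - t)` on `[0,1/2]`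
(compactness and the derivatives at `0`, `1/2`: `(deriv r 0) 2 > 0`, `(deriv r (1/2)) 2 < 0`;
the same for `ℓ`).  `g = ℓ` where `Yc = 1`, `g = r` where `Yc = 0`. -/
def S_Sk : Prop := ∀ r ℓ : ℝ → E3, MirrorKnot r → Axial r ℓ → deriv ℓ 0 = deriv r 0 →
  deriv ℓ (1 / 2) = deriv r (1 / 2) → ∃ δ0 m M K c κ : ℝ, 0 < δ0 ∧ δ0 ≤ 1 / 4 ∧ 0 < m ∧ 0 < M ∧
    0 < K ∧ 0 < c ∧ 0 < κ ∧ ∀ δ ∈ Ioo (0 : ℝ) δ0,
      MirrorKnot (rst δ r ℓ) ∧ rst δ r ℓ 0 = r 0 ∧ rst δ r ℓ (1 / 2) = r (1 / 2) ∧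
      (∀ t, |t| < δ / 8 → ℓ t = rst δ r ℓ t) ∧ (∀ t, |t - 1 / 2| < δ / 8 → ℓ t = rst δ r ℓ t) ∧
      (∀ t ∈ Icc δ (1 / 2 - δ), rst δ r ℓ t = r t) ∧
      (∀ t, m ≤ ‖deriv (rst δ r ℓ) t‖ ∧ ‖deriv (rst δ r ℓ) t‖ ≤ M) ∧
      (∀ s t, ‖deriv (rst δ r ℓ) s - deriv (rst δ r ℓ) t‖ ≤ K * |s - t|) ∧
      (∀ s t, ‖rst δ r ℓ s - rst δ r ℓ t - (s - t) • deriv (rst δ r ℓ) t‖ ≤ K * (s - t) ^ 2) ∧
      (∀ s t, |s - t| ≤ 1 / 2 → c * |s - t| ≤ ‖rst δ r ℓ s - rst δ r ℓ t‖) ∧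
      (∀ t ∈ Icc (0 : ℝ) (1 / 2), κ * (t * (1 / 2 - t)) ≤ (rst δ r ℓ t) 2)

/-- Small Lipschitz perturbations are isotopic.
`d (r t) = r1 t - r t` is well defined on `range r` and `k`-Lipschitz.  Each component extends to
a `k`-Lipschitz function on `E3` (`LipschitzOnWith.extend_real`); so `d` extends to a
`2k`-Lipschitz map `v` (`√3 ≤ 2`).  Replace `v` by `w x = (1/2) • (v x + mir (v (mir x)))`, still
`2k`-Lipschitz, `w (mir x) = mir (w x)` and `w (r t) = r1 t - r t` (by the two symmetries).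
`H σ x = x + σ • w x`: `ApproximatesLinearOn` of the identity with constant `1/2`, so
`ApproximatesLinearOn.toHomeomorph` gives a homeomorphism; jointly continuous. -/
def S_Pert : Prop := ∀ (r r1 : ℝ → E3) (k : ℝ), 0 ≤ k → k ≤ 1 / 4 →
  (∀ s t, ‖(r1 s - r1 t) - (r s - r t)‖ ≤ k * ‖r s - r t‖) →
  (∀ t, r (-t) = mir (r t)) → (∀ t, r1 (-t) = mir (r1 t)) → SymIso mir r r1

/-- Isotopy of the straightening: `S_Pert` with `‖Dd s - Dd t‖ ≤ C δ |s - t| ≤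
(C δ / c) ‖r s - r t‖` for `|s - t| ≤ 1/2` (`S_Dd`, `S_Bd` with `b = 1/2`); the general case by
periodicity of `Dd` and `r`. -/
def S_Si : Prop := ∀ r ℓ : ℝ → E3, MirrorKnot r → Axial r ℓ → deriv ℓ 0 = deriv r 0 →
  deriv ℓ (1 / 2) = deriv r (1 / 2) → ∃ δ0 : ℝ, 0 < δ0 ∧ ∀ δ ∈ Ioo (0 : ℝ) δ0,
    SymIso mir r (rst δ r ℓ)

/-- Convergence of the energies.  `S_DS` for `g = rst δ r ℓ` and `r`, dominated convergence on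
`(0,1)^2`.  Uniform bound: by periodicity `0 < |s - t| ≤ 1/2` (or `Q = 0`); `S_Mu` with
`μ = μ' = 1/(s-t)` and the constants of `S_Sk` (as in `QB.lean`).  Pointwise: for
`s, t ∈ (0,1)`, both `≠ 1/2`, and `δ` small `Yc δ = 0` near `s` and near `t`
(`2δ^2 ≤ sin^2(2πt)`), so `g = r` near `s` and near `t` and `Q g s t = Q r s t`. -/
def S_Se : Prop := ∀ r ℓ : ℝ → E3, MirrorKnot r → Axial r ℓ → deriv ℓ 0 = deriv r 0 →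
  deriv ℓ (1 / 2) = deriv r (1 / 2) →
    Tendsto (fun δ => energy (rst δ r ℓ)) (𝓝[>] 0) (𝓝 (energy r))

/-- Domination and convergence of the transforms.  `g = rst δ r ℓ`, `u = 1/2 - t`,
`k = ‖ζ.1‖^2 + ‖ζ.2‖^2 > 0`.  `‖(Fc g)' t‖ = ‖g' t‖/‖g t - q‖^2 ≤ M/(c u)^2`,
`(Fc g t) 2 = (g t) 2/‖g t - q‖^2 ≥ κ t u/(M u)^2`, so the first factor times `‖phi ζ (Fc g t)‖` is
`≤ (M/(c^2 u^2)) exp (-k κ t/(M^2 u))`: bounded for `t ≤ 1/4` (`u ≥ 1/4`) and for `t ≥ 1/4`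
(`≤ C u^-2 exp (-k κ/(4 M^2 u))`), uniformly in `δ`.  Dominated convergence on `(0,1/2)`; for
fixed `t ∈ (0,1/2)` and small `δ`, `g = r` near `t`. -/
def S_Sw : Prop := ∀ r ℓ : ℝ → E3, MirrorKnot r → Axial r ℓ → deriv ℓ 0 = deriv r 0 →
  deriv ℓ (1 / 2) = deriv r (1 / 2) → ∀ ζ : ℂ × ℂ, ζ ≠ 0 →
    Tendsto (fun δ => Dw (rst δ r ℓ) ℓ ζ) (𝓝[>] 0) (𝓝 (Dw r ℓ ζ))

/-- `Dw r ℓ` is continuous outside `0`: locally uniform domination in `ζ` as in `S_Dom`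
(`S_Cone` for `r` and for `ℓ`). -/
def S_Dc : Prop := ∀ r ℓ : ℝ → E3, MirrorKnot r → Axial r ℓ →
  ContinuousOn (Dw r ℓ) {ζ : ℂ × ℂ | ζ ≠ 0}

/-- The Fatou step.  `w ζ = 1 - exp (-2 (‖ζ.1‖^2 + ‖ζ.2‖^2)) > 0` for `ζ ≠ 0`.  By `S_Sw` and Fatou
`∫⁻ w ‖Dw r ℓ‖^2 = 0`, so `Dw r ℓ = 0` almost everywhere, hence everywhere on the open set
`ζ ≠ 0` by `S_Dc`. -/
def S_Fat : Prop := ∀ (r ℓ : ℝ → E3) (δ1 : ℝ), MirrorKnot r → Axial r ℓ →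
  deriv ℓ 0 = deriv r 0 → deriv ℓ (1 / 2) = deriv r (1 / 2) → 0 < δ1 →
  (∀ δ ∈ Ioo (0 : ℝ) δ1, Integrable (fun ζ : ℂ × ℂ => ‖Dw (rst δ r ℓ) ℓ ζ‖ ^ 2)) →
  Tendsto (fun δ => ∫ ζ : ℂ × ℂ, (1 - Real.exp (-(2 * (‖ζ.1‖ ^ 2 + ‖ζ.2‖ ^ 2)))) *
    ‖Dw (rst δ r ℓ) ℓ ζ‖ ^ 2) (𝓝[>] 0) (𝓝 0) → ∀ ζ : ℂ × ℂ, ζ ≠ 0 → Dw r ℓ ζ = 0

/-- Strictness.  `ζ = (1,0)`: `phi ζ x = exp (-x 2)`.  `F = Fc r`.
`Fc ℓ t = z(t) e3` with `z' ≠ 0`, `z > 0` on `(0,1/2)`, `z → 0` at `0`, `z → ∞` at `1/2`, so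
`z' > 0` and `∫ ‖(Fc ℓ)'‖ e^{-z} = ∫ z' e^{-z} = 1`.  Also `∫ F_3' e^{-F_3} = 1` (FTC on
`(0,1/2)`; integrability from the growth bound of `S_Cone`).  So `∫ (‖F'‖ - F_3') e^{-F_3} = 0`
with a continuous nonnegative integrand: `‖F'‖ = F_3'` on `(0,1/2)`, the first two components of
`F` are constant, `= 0` by continuity at `0` (`Fc r 0 = 0`).  Compare `Lap.lean`. -/
def S_Lw : Prop := ∀ r ℓ : ℝ → E3, MirrorKnot r → Axial r ℓ → Dw r ℓ (1, 0) = 0 →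
  ∀ t ∈ Ioo (0 : ℝ) (1 / 2), (Fc r t) 0 = 0 ∧ (Fc r t) 1 = 0

/-! ## Part II: the push -/

/-- Elementary facts on the push.
Joint continuity: away from `x = 0` clear; near `x = 0` it is the identity (`cut = 0`).
Bijectivity for `0 ≤ b ≤ a`: `ps` preserves each vertical line `{ξ} × R`; it is enough that
`z ↦ z + b β(ξ,z)`, `β = cut ε * Ang c`, is strictly increasing (continuous, bounded perturbation,
so bijective).  `β` is odd in `z`, `β ≥ 0` for `z ≥ 0`.  For `0 ≤ z < z'` and `x, x'` the two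
points: `Ang` and `St (log (‖x‖/ε))` are nondecreasing in `z`, so `β(z') - β(z) ≥
St(-log(ε‖x'‖)) - St(-log(ε‖x‖))` if this difference is negative, and it is `≥ - e ε B (z' - z)`
with `B = sup |St'|` (the function `ρ ↦ St(-log(ερ))` is constant for `ερ ≤ 1/e`, so it is
Lipschitz with constant `e ε B`; `|‖x'‖ - ‖x‖| ≤ z' - z`); `b e ε B ≤ e/8 < 1/2`.
Last clause: derivative of `y ↦ cut ε (y • e3) = St(log(y/ε)) St(-log(εy))` at `y > 0` is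
`≥ - St'(-log(εy))/y ≥ - e ε B`. -/
def S_Ps : Prop := ∀ ε c a : ℝ, Okp ε a → 0 < c → c ≤ 1 →
  Continuous (fun z : ℝ × E3 => ps ε c z.1 z.2) ∧
  (∀ b ∈ Icc (0 : ℝ) a, Function.Bijective (ps ε c b)) ∧
  (∀ x : E3, ps ε c 0 x = x) ∧
  (∀ (b : ℝ) (x : E3), ‖x‖ ≤ ε ∨ 1 ≤ ε * ‖x‖ ∨ |x 2| ≤ c * ‖x‖ / 2 → ps ε c b x = x) ∧
  (∀ (b : ℝ) (x : E3), c * ‖x‖ ≤ x 2 → ps ε c b x = x + (b * cut ε x) • e3) ∧
  (∀ (b : ℝ) (x : E3), ps ε c b (mir x) = mir (ps ε c b x)) ∧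
  (∀ y : ℝ, 0 < y → 1 / 2 ≤ 1 + a * deriv (fun z : ℝ => cut ε (z • e3)) y)

/-- The pushed knot.  On `(0,1/2)`: `Fc (ra ..) t = F t + (a cut ε (F t)) • e3` by the cone
condition; on `(-1/2,0)` the mirror image; near `0` and `1/2` it is `r` (`‖F‖ ≤ ε` resp.
`ε ‖F‖ ≥ 1`).  `ps x ≠ -ph r`: `ps` is injective and fixes `-ph r` (third coordinate `0`), and
`F t ≠ -ph r`.  Third coordinate of `ps (F t)` positive on `(0,1/2)`.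
Regular: for `t ∈ [t0, 1/2-t0]` `cut ε (F t) = 1` is a maximum of `cut ε`, so the derivative of
`cut ε ∘ F` vanishes and `(Fc (ra ..))' t = F' t ≠ 0`; for `t ∈ (0,t0)` or `(1/2-t0,1/2)`:
`F = z e3` (`r = ℓ` there) and the derivative is `z' (1 + a cut') ≠ 0` (last clause of `S_Ps`).
Compare `Rs.lean`. -/
def S_Ra : Prop := ∀ (r ℓ : ℝ → E3) (t0 t1 ε c a : ℝ), Str r ℓ t0 t1 ε c a →
  MirrorKnot (ra ε c a r) ∧ ra ε c a r 0 = r 0 ∧ ra ε c a r (1 / 2) = r (1 / 2) ∧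
  (∃ t2 : ℝ, 0 < t2 ∧ t2 ≤ t0 ∧ (∀ t, |t| < t2 → ra ε c a r t = r t) ∧
    (∀ t, |t - 1 / 2| < t2 → ra ε c a r t = r t)) ∧
  (∀ t, ra ε c a r t = r (1 / 2) ↔ r t = r (1 / 2)) ∧
  (∀ t, r t ≠ r (1 / 2) → Fc (ra ε c a r) t = ps ε c a (Fc r t))

/-- Isotopy of the push: `H σ x = q` if `x = q`, else `back r (ps ε c (σ a) (ch r x))`.  Exactly as
in `Iso.lean` (`ps` fixes a neighbourhood of `-ph r`, is the identity near infinity, bijective).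
It commutes with `mir` because `ps`, `ch r` and `back r` do (`q` and `ph r` are horizontal). -/
def S_IsoA : Prop := ∀ (r ℓ : ℝ → E3) (t0 t1 ε c a : ℝ), Str r ℓ t0 t1 ε c a →
  SymIso mir r (ra ε c a r)

/-- Glueing of two mirror knots which agree near `0` and `1/2`; see `As.lean`. -/
def S_Glue : Prop := ∀ (f g : ℝ → E3) (t1 : ℝ), MirrorKnot f → MirrorKnot g → 0 < t1 →
  (∀ t, |t| < t1 → g t = f t) → (∀ t, |t - 1 / 2| < t1 → g t = f t) →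
  IsKnot (glue f g) ∧ (∀ t ∈ Icc (0 : ℝ) (1 / 2), glue f g t = f t) ∧
    (∀ t ∈ Icc (1 / 2 : ℝ) 1, glue f g t = g t)

/-- Energy of a knot whose lower half and whose ends are on the axis.
`K = (t0, 1/2 - t0)`, `h = glue f ℓ`, `Hc t = ch f (h t)` (`= Fc f t` on `(0,1/2)`, `= Fc ℓ t` on
`(-1/2,0)`), `V = (-1/2,t0) ∪ (1/2-t0,1/2)`.  On `V` `Hc = z e3` with `z' > 0`, `z` maps
`(-1/2,t0)` onto `(-∞,z1)` and `(1/2-t0,1/2)` onto `(z2,∞)`.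
`energy h = 4 + ∬_{(-1/2,1/2)^2} Q h` (`S_DS`, periodicity), `Q h s t = qf` of the chart
(`S_Inv`, as in `S_Ch`), the part `V × V` is `0` (`qf (y e3) (b e3) (y' e3) (b' e3) = 0` for
`b, b' > 0`), `K × V` and `V × K` are equal, and for `s ∈ K` the change of variables `y = z(t)`
(`MeasureTheory.integral_image_eq_integral_abs_deriv_smul`) gives
`∫_V Q h s t dt = ∫_{y < z1 or y > z2} qf (Fc f s) ((Fc f)' s) (y e3) e3 dy` because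
`qf x a y (b e3) = b qf x a y e3` for `b > 0`. -/
def S_EF : Prop := ∀ (f ℓ : ℝ → E3) (t0 t2 : ℝ), MirrorKnot f → Axial f ℓ → 0 < t2 → t2 ≤ t0 →
  t0 ≤ 1 / 4 → (∀ t, |t| < t2 → ℓ t = f t) → (∀ t, |t - 1 / 2| < t2 → ℓ t = f t) →
  (∀ t ∈ Ioc (0 : ℝ) t0, (Fc f t) 0 = 0 ∧ (Fc f t) 1 = 0) →
  (∀ t ∈ Ico (1 / 2 - t0) (1 / 2 : ℝ), (Fc f t) 0 = 0 ∧ (Fc f t) 1 = 0) →
  energy (glue f ℓ) = 4 + (∫ z in Ioo t0 (1 / 2 - t0) ×ˢ Ioo t0 (1 / 2 - t0), Q f z.1 z.2) +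
    2 * ∫ s in Ioo t0 (1 / 2 - t0),
      ∫ y in Iio ((Fc f t0) 2) ∪ Ioi ((Fc f (1 / 2 - t0)) 2),
        qf (Fc f s) (deriv (Fc f) s) (y • e3) e3

/-- The push does not change the energy of the half-straight knot.  `S_EF` for `f = r` and for
`f = ra ε c a r`: for `t ∈ [t0, 1/2-t0]` `Fc (ra ..) t = Fc r t + a • e3` (`cut = 1`, cone), on the
open interval the derivatives are equal, so the `K × K` parts are equal (`Q` in the chart,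
translation invariance of `qf`), and in the second part translate `y` by `a`. -/
def S_EH : Prop := ∀ (r ℓ : ℝ → E3) (t0 t1 ε c a : ℝ), Str r ℓ t0 t1 ε c a →
  energy (glue (ra ε c a r) ℓ) = energy (glue r ℓ)

/-- The reflection form of two mirror knots with the same `r 0`, `r (1/2)`, in the chart; the proof
is that of `VW.lean` (`kk` is invariant under the chart) and `S_RP`. -/
def S_VG : Prop := ∀ (f g : ℝ → E3) (α β : ℝ), MirrorKnot f → MirrorKnot g → g 0 = f 0 →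
  g (1 / 2) = f (1 / 2) → 0 < α → α ≤ β → β < 1 / 2 →
  Integrable (fun ζ : ℂ × ℂ => ‖Wt (Fc f) α β ζ - Wt (Fc g) α β ζ‖ ^ 2) ∧
  VV f g α β = (Real.pi ^ 2)⁻¹ * ∫ ζ : ℂ × ℂ, ‖Wt (Fc f) α β ζ - Wt (Fc g) α β ζ‖ ^ 2

/-- `Dw` as a difference of two `Wt`: the integrand of `Dw` vanishes for `t < t1` and for
`t > 1/2 - t1`. -/
def S_DW : Prop := ∀ (f g : ℝ → E3) (t0 t1 : ℝ), MirrorKnot f → MirrorKnot g → g 0 = f 0 →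
  g (1 / 2) = f (1 / 2) → 0 < t0 → t0 < t1 → t1 ≤ 1 / 4 →
  (∀ t, |t| < t1 → g t = f t) → (∀ t, |t - 1 / 2| < t1 → g t = f t) →
  ∀ ζ : ℂ × ℂ, Wt (Fc f) t0 (1 / 2 - t0) ζ - Wt (Fc g) t0 (1 / 2 - t0) ζ = Dw f g ζ

/-- The push multiplies the transform of the difference by `exp (-a |ζ|^2)`.
Let `k = ‖ζ.1‖^2 + ‖ζ.2‖^2 > 0`.  On the axis `phi ζ (z e3) = e^{-kz}` and
`∫ z' e^{-kz} = (e^{-k z(α)} - e^{-k z(β)})/k`.  Take `α` below `t2` (of `S_Ra`); with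
`D = ∫_{t0}^{1/2-t0} ‖F'‖ phi ζ F`, `z1 = (Fc r t0) 2`, `z2 = (Fc r (1/2-t0)) 2`
(`F` is on the axis on `(0,t0]` and on `[1/2-t0,1/2)`):
`Wt F - Wt (Fc ℓ) = D - (e^{-k z1} - e^{-k z2})/k` over `[α, 1/2-α]`, and for the pushed curve, which
is `F + a e3` on `[t0,1/2-t0]` and on the axis elsewhere, with increasing third coordinate,
`= e^{-ka} D - (e^{-k(z1+a)} - e^{-k(z2+a)})/k`.  Use `S_DW` for both. -/
def S_WA : Prop := ∀ (r ℓ : ℝ → E3) (t0 t1 ε c a : ℝ), Str r ℓ t0 t1 ε c a →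
  ∀ ζ : ℂ × ℂ, ζ ≠ 0 →
    Dw (ra ε c a r) ℓ ζ = (Real.exp (-(a * (‖ζ.1‖ ^ 2 + ‖ζ.2‖ ^ 2))) : ℂ) * Dw r ℓ ζ

/-- The energy identity.  `S_Split` and `S_Parts` for `(r, ℓ, glue r ℓ)` and
`(ra, ℓ, glue ra ℓ)`, `S_EH`, `S_VG`, `S_DW`, `S_WA`:
`energy ra - energy r = 2 (VV ra ℓ - VV r ℓ)`. -/
def S_Key : Prop := ∀ (r ℓ : ℝ → E3) (t0 t1 ε c a : ℝ), Str r ℓ t0 t1 ε c a →
  Integrable (fun ζ : ℂ × ℂ => ‖Dw r ℓ ζ‖ ^ 2) ∧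
  energy (ra ε c a r) = energy r - 2 * ((Real.pi ^ 2)⁻¹ * ∫ ζ : ℂ × ℂ,
    (1 - Real.exp (-(2 * (a * (‖ζ.1‖ ^ 2 + ‖ζ.2‖ ^ 2))))) * ‖Dw r ℓ ζ‖ ^ 2)

/-- Parameters for the push.  `g = rst δ r ℓ`, `δ` small: `t1 = δ/8`, `t0 = t1/2`, `c` from
`S_Cone` for `g`; `‖Fc g‖` has a positive minimum and a maximum on `[t0, 1/2-t0]`; `ε` small
(`S_StB`).  `Axial g ℓ` because `g 0 = r 0`, `g (1/2) = r (1/2)`. -/
def S_Par : Prop := ∀ r ℓ : ℝ → E3, MirrorKnot r → Axial r ℓ → deriv ℓ 0 = deriv r 0 →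
  deriv ℓ (1 / 2) = deriv r (1 / 2) → ∃ δ0 : ℝ, 0 < δ0 ∧ ∀ δ ∈ Ioo (0 : ℝ) δ0,
    ∃ t0 t1 ε c : ℝ, Str (rst δ r ℓ) ℓ t0 t1 ε c 1

/-- THEOREM R2 for mirror knots. -/
def S_R2 : Prop := ∀ r : ℝ → E3, MirrorKnot r → ¬ IsRoundCircle (range r) →
  ∃ r' : ℝ → E3, MirrorKnot r' ∧ SymIso mir r r' ∧ energy r' < energy r

/-! ## Part III: arbitrary planes -/

/-- Transport of equivariant isotopies by a rigid motion; see `Tr.lean`. -/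
def S_TrS : Prop := ∀ (A : E3 ≃ₗᵢ[ℝ] E3) (b : E3) (ρ ρ' : E3 → E3),
  (∀ x, A (ρ x) + b = ρ' (A x + b)) →
  ∀ r r' : ℝ → E3, SymIso ρ' (fun t => A (r t) + b) r' →
    SymIso ρ r (fun t => A.symm (r' t - b))

/-- A mirror knot has a symmetric image which meets the plane in exactly two points:
`(r t) 2 = 0` iff `t ∈ (1/2) Z`. -/
def S_Two : Prop := ∀ r : ℝ → E3, MirrorKnot r →
  mir '' range r = range r ∧ ({x ∈ range r | x 2 = 0}).ncard = 2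

end MP_e78765_gt
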