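import Pool.Agent.Lib.MP_e78765_gt.Spec3
import Pool.Agent.Lib.MP_e78765_gt.Defs4

/-!
# Specification of the proof of THEOREM R3 (MP_e78765_gt)

THEOREM R3: the infimum of the energy in the equivariant isotopy class of a symmetric knot `r`
(not a round circle) is `2 E(h) - 4` up to `ε`, `h` the half of a knot of the class, and
`E(r) > 2 E(h) - 4`.
`S_Xyz` is the statement proved in the file `Xyz.lean` (theorem `tXyz`).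
-/

open scoped ContDiff Topology
open MeasureTheory Set Filter

namespace MP_e78765_gt

/-- The energy of the axial knot (a circle).  `S_EF` for `f = ℓ`, `t0 = t2 = 1/4`: `Axial ℓ ℓ`,
`glue ℓ ℓ = ℓ`, and the integrals are over `Ioo (1/4) (1/2 - 1/4) = ∅`. -/
def S_E4 : Prop := ∀ r ℓ : ℝ → E3, Axial r ℓ → energy ℓ = 4

/-- The energy of the straightened knot and of its half; see `Key_aux.exc` in `Key.lean` (copy it)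
and `S_E4`. -/
def S_Hf : Prop := ∀ (r ℓ : ℝ → E3) (t0 t1 ε c a : ℝ), Str r ℓ t0 t1 ε c a →
  energy r = 2 * energy (glue r ℓ) - 4 +
    2 * ((Real.pi ^ 2)⁻¹ * ∫ ζ : ℂ × ℂ, ‖Dw r ℓ ζ‖ ^ 2)

/-- Parameters for all pushes; see `Par.lean`: take in addition `ε ≤ 1/(8 (a+1) B)`. -/
def S_ParA : Prop := ∀ r ℓ : ℝ → E3, MirrorKnot r → Axial r ℓ → deriv ℓ 0 = deriv r 0 →
  deriv ℓ (1 / 2) = deriv r (1 / 2) → ∃ δ0 : ℝ, 0 < δ0 ∧ ∀ δ ∈ Ioo (0 : ℝ) δ0,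
    ∃ t0 t1 c : ℝ, ∀ a : ℝ, 0 ≤ a → ∃ ε : ℝ, Str (rst δ r ℓ) ℓ t0 t1 ε c a

/-- Dominated convergence (the integrand converges to `F ζ` for `ζ ≠ 0`). -/
def S_LimA : Prop := ∀ F : ℂ × ℂ → ℝ, Integrable F → (∀ ζ, 0 ≤ F ζ) →
  Tendsto (fun a : ℝ => ∫ ζ : ℂ × ℂ,
    (1 - Real.exp (-(2 * (a * (‖ζ.1‖ ^ 2 + ‖ζ.2‖ ^ 2))))) * F ζ) atTop (𝓝 (∫ ζ : ℂ × ℂ, F ζ))

/-- The image of the half-straight knot.  `g` mirror knot, `ℓ` mirror knot with the same values at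
`0` and `1/2`; `h = g` on `[0,1/2]`, `h = ℓ` on `[1/2,1]`.  The third coordinate of `g t` and `ℓ t` is
`> 0` on `(0,1/2)`, `0` at `0, 1/2, 1` and `< 0` on `(1/2,1)` (`t - 1 ∈ (-1/2,0)`, `sym`). -/
def S_Hs : Prop := ∀ g ℓ h : ℝ → E3, MirrorKnot g → MirrorKnot ℓ → ℓ 0 = g 0 →
  ℓ (1 / 2) = g (1 / 2) → (∀ t, h (t + 1) = h t) → (∀ t ∈ Icc (0 : ℝ) (1 / 2), h t = g t) →
  (∀ t ∈ Icc (1 / 2 : ℝ) 1, h t = ℓ t) →
  range h ∩ {x : E3 | 0 ≤ x 2} = range g ∩ {x : E3 | 0 ≤ x 2} ∧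
    range h ∩ {x : E3 | x 2 ≤ 0} = range ℓ ∩ {x : E3 | x 2 ≤ 0}

/-- THEOREM R3 for mirror knots. -/
def S_R3 : Prop := ∀ r : ℝ → E3, MirrorKnot r → ¬ IsRoundCircle (range r) →
  ∃ g ℓ h : ℝ → E3, MirrorKnot g ∧ MirrorKnot ℓ ∧ IsRoundCircle (range ℓ) ∧ IsKnot h ∧
    range h ∩ {x : E3 | 0 ≤ x 2} = range g ∩ {x : E3 | 0 ≤ x 2} ∧
    range h ∩ {x : E3 | x 2 ≤ 0} = range ℓ ∩ {x : E3 | x 2 ≤ 0} ∧ SymIso mir r g ∧
    2 * energy h - 4 < energy r ∧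
    ∀ η : ℝ, 0 < η → ∃ r' : ℝ → E3, MirrorKnot r' ∧ SymIso mir r r' ∧
      energy r' < 2 * energy h - 4 + η

/-- THEOREM R3 in general position. -/
def S_R3G : Prop := ∀ (r : ℝ → E3) (n : E3) (c : ℝ), ‖n‖ = 1 → IsSymKnot n c r →
  ¬ IsRoundCircle (range r) →
  ∃ g h : ℝ → E3, IsSymKnot n c g ∧ SymIso (refl n c) r g ∧ IsHalf n c g h ∧
    2 * energy h - 4 < energy r ∧
    ∀ η : ℝ, 0 < η → ∃ r' : ℝ → E3, IsSymKnot n c r' ∧ SymIso (refl n c) r r' ∧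
      energy r' < 2 * energy h - 4 + η

end MP_e78765_gt
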