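import Pool.Agent.Lib.MP_e78765_gt.Spec4
import Pool.Agent.Lib.MP_e78765_gt.Defs5

/-!
# Specification of the proof of THEOREM R4 (MP_e78765_gt)

THEOREM R4: a critical point of the Moebius energy which is symmetric with respect to a plane or a
round sphere and meets it in exactly two points is a round circle.
Idea: the first variation `LL f φ` of the energy.  For the straightened knots `g` (`rst δ r ℓ`) the
push has first variation `≤ - 2 π^-2 ∫ (1 - e^(-2|ζ|^2)) |Dw g ℓ|^2` (from `S_Key`); its tangential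
part has first variation `0`; the normal part `Psi g` is uniformly Lipschitz, and
`LL g (Psi g) - LL r (Psi g) → 0`.  So if `LL r = 0`, the integrals tend to `0` and (`S_Fat`,
`S_Lw`, `S_Circ`) `r` is a round circle.
`S_Xyz` is the statement proved in the file `Xyz.lean` (theorem `tXyz`).
-/

open scoped ContDiff Topology
open MeasureTheory Set Filter

namespace MP_e78765_gt

/-! ## Part I: the first variation -/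

/-- Algebra of `dqf`.  (1) linear in the direction, (2) symmetric, (3) derivative of `qf` along
paths (`HasDerivAt.norm` away from `0`: write `‖a‖ = sqrt ⟨a,a⟩`, derivative `⟨a,α⟩/‖a‖`; quotient
rule), (4) invariance under translations. -/
def S_Dqf : Prop :=
  (∀ (x a y b ξ α η β ξ' α' η' β' : E3) (c : ℝ),
    dqf x a y b (ξ + c • ξ') (α + c • α') (η + c • η') (β + c • β') =
      dqf x a y b ξ α η β + c * dqf x a y b ξ' α' η' β') ∧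
  (∀ x a y b ξ α η β : E3, dqf x a y b ξ α η β = dqf y b x a η β ξ α) ∧
  (∀ (x a y b : ℝ → E3) (ξ α η β : E3) (τ : ℝ), HasDerivAt x ξ τ → HasDerivAt a α τ →
    HasDerivAt y η τ → HasDerivAt b β τ → x τ ≠ y τ → a τ ≠ 0 → b τ ≠ 0 →
    HasDerivAt (fun τ => qf (x τ) (a τ) (y τ) (b τ)) (dqf (x τ) (a τ) (y τ) (b τ) ξ α η β) τ) ∧
  (∀ w x a y b ξ α η β : E3, dqf (x + w) a (y + w) b ξ α η β = dqf x a y b ξ α η β)

/-- The bound for `dqf`.  Put `u = h⁻¹ (x - y)`, `ω = h⁻¹ (ξ - η)`; then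
`qf x a y b = h^-2 G(u,a,b)` with `G(u,a,b) = qf u a 0 b` and
`dqf x a y b ξ α η β = h^-2 dqf u a 0 b ω α 0 β = h^-2 DG(u,a,b)[ω,α,β]` (homogeneity, or directly
from the formula).  With `n(z) = z/‖z‖`: `G = ‖a‖‖b‖ ‖T‖^2/(2‖u‖^2)`,
`T = n(a) + n(b) - 2⟨n(u),n(a)⟩ n(u) = A + B + ‖A‖^2 n(u)`, `A = n(a) - n(u)`,
`B = n(b) - n(u)` (`2 - 2⟨n(u),n(a)⟩ = ‖A‖^2`).  Differentiate along `(u + τω, a + τα, b + τβ)` and
use `S_Dqf` (3) and the uniqueness of the derivative: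
`DG = D(‖a‖‖b‖/(2‖u‖^2)) ‖T‖^2 + (‖a‖‖b‖/‖u‖^2) ⟨T, DT⟩`.
`Dn(z)v = (v - ⟨n(z),v⟩ n(z))/‖z‖`, norm `≤ ‖v‖/‖z‖`; `‖n(z) - n(z')‖ ≤ 2‖z - z'‖/‖z‖`,
`‖(Dn(z) - Dn(z'))v‖ ≤ C ‖z - z'‖ ‖v‖` for `m ≤ ‖z‖, ‖z'‖ ≤ M`.  So `‖A‖, ‖B‖ ≤ C P`,
`‖T‖ ≤ C P` (`‖A‖ ≤ 2`), `DA = Dn(a)α - Dn(u)ω = Dn(a)(α - ω) + (Dn(a) - Dn(u))ω`,
`‖DA‖, ‖DB‖ ≤ C (R + P W)`, `DT = DA + DB + 2⟨A,DA⟩ n(u) + ‖A‖^2 Dn(u)ω`,
`‖DT‖ ≤ C (R + P W)` (`‖A‖^2 ≤ 2‖A‖`). -/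
def S_DqB : Prop := ∀ m M : ℝ, 0 < m → 0 < M → ∃ C : ℝ, 0 ≤ C ∧
  ∀ (x a y b ξ α η β : E3) (h P W R : ℝ), h ≠ 0 → m ≤ ‖a‖ → ‖a‖ ≤ M → m ≤ ‖b‖ → ‖b‖ ≤ M →
    m * |h| ≤ ‖x - y‖ → ‖x - y‖ ≤ M * |h| →
    ‖a - h⁻¹ • (x - y)‖ ≤ P → ‖b - h⁻¹ • (x - y)‖ ≤ P →
    ‖h⁻¹ • (ξ - η)‖ ≤ W → ‖α‖ ≤ W → ‖β‖ ≤ W →
    ‖α - h⁻¹ • (ξ - η)‖ ≤ R → ‖β - h⁻¹ • (ξ - η)‖ ≤ R →
    |dqf x a y b ξ α η β| ≤ C * (P ^ 2 * W + P * R) / h ^ 2

/-- Uniform bounds for a jointly smooth family.  `φ a t = fderiv (uncurry f) (a,t) (1,0)`.  All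
partial derivatives of `f` are continuous and periodic in `t`, hence bounded for `|a| ≤ a1 < a0`
(compactness of `[-a1,a1] × [0,1]`); Taylor bounds by the second derivatives.  Symmetry of the
second derivatives for the derivative of `b ↦ deriv (f b) t`.  Lower bounds: `S_Bd` for `f 0`
(`b = 1/2`) and `‖(f a - f 0) s - (f a - f 0) t‖ ≤ C |a| |s - t|`,
`‖deriv (f a) t - deriv (f 0) t‖ ≤ C |a|`; `a1` small.  Injectivity modulo 1 from the chord bound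
and periodicity. -/
def S_Fb : Prop := ∀ (f : ℝ → ℝ → E3) (a0 : ℝ), 0 < a0 → JS f a0 → IsKnot (f 0) →
  ∃ (a1 m M K : ℝ) (φ : ℝ → ℝ → E3), 0 < a1 ∧ a1 < a0 ∧ 0 < m ∧ 0 < M ∧ 0 < K ∧
    ∀ a ∈ Ioo (-a1) a1,
      IsKnot (f a) ∧ ContDiff ℝ ∞ (φ a) ∧ (∀ t, φ a (t + 1) = φ a t) ∧
      (∀ t, HasDerivAt (fun b => f b t) (φ a t) a) ∧
      (∀ t, HasDerivAt (fun b => deriv (f b) t) (deriv (φ a) t) a) ∧
      (∀ t, m ≤ ‖deriv (f a) t‖ ∧ ‖deriv (f a) t‖ ≤ M ∧ ‖deriv (φ a) t‖ ≤ M) ∧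
      (∀ s t, |s - t| ≤ 1 / 2 → m * |s - t| ≤ ‖f a s - f a t‖) ∧
      (∀ s t, ‖f a s - f a t‖ ≤ M * |s - t| ∧ ‖φ a s - φ a t‖ ≤ M * |s - t|) ∧
      (∀ s t, ‖f a s - f a t - (s - t) • deriv (f a) s‖ ≤ K * (s - t) ^ 2 ∧
        ‖f a s - f a t - (s - t) • deriv (f a) t‖ ≤ K * (s - t) ^ 2) ∧
      (∀ s t, ‖φ a s - φ a t - (s - t) • deriv (φ a) s‖ ≤ K * (s - t) ^ 2 ∧
        ‖φ a s - φ a t - (s - t) • deriv (φ a) t‖ ≤ K * (s - t) ^ 2)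

/-- Bound for `dQ` along smooth fields.  Periodicity of `dQ` in `s` and `t` reduces to
`0 < |s - t| ≤ 1/2` (if `f s = f t` then all quotients are `0` and `dQ = 0`); `S_DqB` with
`h = s - t`, `P = K |s-t|`, `W = M`, `R = K |s-t|` (`K ≥` Taylor constants). Here the constant
depends only on `m, M, K`. -/
def S_DQ : Prop := ∀ m M K : ℝ, 0 < m → 0 < M → 0 < K → ∃ C : ℝ, 0 ≤ C ∧ ∀ f φ : ℝ → E3,
  (∀ t, f (t + 1) = f t) → (∀ t, φ (t + 1) = φ t) →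
  (∀ t, m ≤ ‖deriv f t‖ ∧ ‖deriv f t‖ ≤ M ∧ ‖deriv φ t‖ ≤ M) →
  (∀ s t, |s - t| ≤ 1 / 2 → m * |s - t| ≤ ‖f s - f t‖) →
  (∀ s t, ‖f s - f t‖ ≤ M * |s - t| ∧ ‖φ s - φ t‖ ≤ M * |s - t|) →
  (∀ s t, ‖f s - f t - (s - t) • deriv f s‖ ≤ K * (s - t) ^ 2 ∧
    ‖f s - f t - (s - t) • deriv f t‖ ≤ K * (s - t) ^ 2) →
  (∀ s t, ‖φ s - φ t - (s - t) • deriv φ s‖ ≤ K * (s - t) ^ 2 ∧
    ‖φ s - φ t - (s - t) • deriv φ t‖ ≤ K * (s - t) ^ 2) →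
  ∀ s t, |dQ f φ s t| ≤ C

/-- The first variation.  `S_Fb` gives `a1` and bounds; `φ 0 = φ` by uniqueness of derivatives.
For `|a| < a1`: `energy (f a) = 4 + ∫_{(0,1)^2} Q (f a)` (`S_DS`).  For `s, t ∈ (0,1)`, `s ≠ t`,
`b ↦ Q (f b) s t` has at `a` the derivative `dQ (f a) (φ a) s t` (`S_Dqf` (3)), bounded by the
constant of `S_DQ`; integrability of `Q (f a)` by `S_QB`; the diagonal is a null set.
`hasDerivAt_integral_of_dominated_loc_of_deriv_le`. -/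
def S_FV : Prop := ∀ (f : ℝ → ℝ → E3) (a0 : ℝ) (φ : ℝ → E3), 0 < a0 → JS f a0 → IsKnot (f 0) →
  (∀ t, HasDerivAt (fun a => f a t) (φ t) 0) →
  HasDerivAt (fun a => energy (f a)) (LL (f 0) φ) 0

/-- Integrability and linearity of the first variation.  Bound: `S_DQ` with the bounds of `f`
(`S_Bd`) and of `φ` (compactness, periodicity); measurable because `f, f', φ, φ'` are continuous.
Linearity by `S_Dqf` (1) (`deriv (φ + c ψ) = deriv φ + c deriv ψ`). -/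
def S_LLi : Prop := ∀ f φ : ℝ → E3, IsKnot f → ContDiff ℝ ∞ φ → (∀ t, φ (t + 1) = φ t) →
  IntegrableOn (fun z : ℝ × ℝ => dQ f φ z.1 z.2) (Ioo (0 : ℝ) 1 ×ˢ Ioo (0 : ℝ) 1) ∧
  ∀ (ψ : ℝ → E3) (c : ℝ), ContDiff ℝ ∞ ψ → (∀ t, ψ (t + 1) = ψ t) →
    LL f (fun t => φ t + c • ψ t) = LL f φ + c * LL f ψ

/-- Straight lines in the space of curves: `f a t = r t + a • φ t` is a `JS` family, so by `S_FV`
the energy has at `r` the derivative `LL r φ`; hence `r` is critical iff `LL r = 0`. -/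
def S_Cr : Prop := ∀ r : ℝ → E3, IsKnot r →
  (∀ φ : ℝ → E3, ContDiff ℝ ∞ φ → (∀ t, φ (t + 1) = φ t) →
    HasDerivAt (fun τ : ℝ => energy (fun t => r t + τ • φ t)) (LL r φ) 0) ∧
  (IsCritical r ↔ ∀ φ : ℝ → E3, ContDiff ℝ ∞ φ → (∀ t, φ (t + 1) = φ t) → LL r φ = 0)

/-- Tangential fields.  `f_a t = f (t + a τ(t))`; for `|a| sup |τ'| < 1` the map
`t ↦ t + a τ(t)` satisfies the hypotheses of `S_Rep`, so the energy is constant in `a`; the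
`JS` family has the field `τ f'` at `a = 0`; `S_FV` and uniqueness of the derivative. -/
def S_Tan : Prop := ∀ (f : ℝ → E3) (τ : ℝ → ℝ), IsKnot f → ContDiff ℝ ∞ τ →
  (∀ t, τ (t + 1) = τ t) → LL f (fun t => τ t • deriv f t) = 0

/-! ## Part II: the push -/

/-- The push as a jointly smooth family.  `F = Fc g`, `P = ph g`, `q = g (1/2)`.
`(a,t) ↦ ps ε c a (F t) = F t + (a cut ε (F t) Ang c (F t)) e3` is smooth where `g t ≠ q`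
(`cut ε = 0` near `0`, `Ang` smooth off `0`); `back g x = q + inv (x + P)` is smooth for `x ≠ -P`:
for `|a| < a0 = c ε/2` the third coordinate of `ps ε c a (F t)` is `> 0` on `(0,1/2)` (if
`cut ≠ 0` then `(F t) 2 ≥ c ‖F t‖ ≥ c ε`, `0 ≤ cut, Ang ≤ 1` there), `< 0` on `(-1/2,0)`, and for
`t ∈ ℤ`: `F t = 0`; while `P 2 = 0`, `P ≠ 0`.  Near `1/2`: `cut ε (F t) = 0` and `ra = g`.
`ra ε c 0 g = g` (`S_Ch`).  Derivative in `a` at `0` for `g t ≠ q`: with `y = g t - q`,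
`F t + P = inv y`, `dinv (inv y) v = ‖y‖^2 v - 2⟨y,v⟩ y`, `v = (cut Ang) e3`; for `g t = q` both
sides are `0`. -/
def S_PF : Prop := ∀ (g ℓ : ℝ → E3) (t0 t1 ε c : ℝ), Str g ℓ t0 t1 ε c 1 →
  ra ε c 0 g = g ∧ ∃ a0 : ℝ, 0 < a0 ∧ JS (fun a => ra ε c a g) a0 ∧
    ∀ t, HasDerivAt (fun a => ra ε c a g t) (Xf ε c g t) 0

/-- First variation of the push.  `S_FV` and `S_PF`: `a ↦ energy (ra ε c a g)` has the derivative
`LL g (Xf ε c g)` at `0`.  For `0 < a ≤ 1`: `Str g ℓ t0 t1 ε c a` holds too (`Okp` is monotone in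
`a`), and by `S_Key` `(energy (ra ε c a g) - energy g)/a = -2 π^-2 ∫ ((1 - e^(-2 a k))/a) ‖Dw‖^2`,
`k = ‖ζ.1‖^2 + ‖ζ.2‖^2`, with `(1 - e^(-2ak))/a ≥ 1 - e^(-2k)` (concavity of `1 - e^(-y)`).  Let
`a → 0+` (`ge_of_tendsto` / `le_of_tendsto` for the difference quotient). -/
def S_DL : Prop := ∀ (g ℓ : ℝ → E3) (t0 t1 ε c : ℝ), Str g ℓ t0 t1 ε c 1 →
  LL g (Xf ε c g) ≤ -(2 * ((Real.pi ^ 2)⁻¹ * ∫ ζ : ℂ × ℂ,
    (1 - Real.exp (-(2 * (‖ζ.1‖ ^ 2 + ‖ζ.2‖ ^ 2)))) * ‖Dw g ℓ ζ‖ ^ 2))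

/-- The normal part of the push.  `τ t = ⟨Xf t, g' t⟩/‖g' t‖^2`, smooth because `Xf ε c g` is
(near `g t = q` it is `0`, because `cut = 0`).  For `|t| < t1` and `|t - 1/2| < t1` (mod 1) `g = ℓ`
is on the axis: `Fc g t = z e3`, `(Fc g)' = z' e3` with `z' ≠ 0`, and
`g' t = dinv (Fc g t + ph g) ((Fc g)' t) = z' • VF q (g t)`, so `Nf q g t = 0` and `Xf t` is a
multiple of `g' t`; at `t = 1/2` `VF q q = 0`.  For `t ∈ [t0, 1/2 - t0]`: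
`cut ε (F t) = 1`, `Ang c (F t) = 1` (cone), `sgn t = 1`, `Xf t = VF q (g t)`; for
`t ∈ [-1/2 + t0, -t0]`: `cut = 1`, `Ang = -1`, `sgn t = -1`.  So `Psi g = Xf - τ g'` everywhere
(modulo 1), which is smooth and periodic.  Symmetry: `VF q (mir y) = - mir (VF q y)` (`q 2 = 0`),
`g' (-t) = - mir (g' t)`, so `Nf q g (-t) = - mir (Nf q g t)`; `sgn (-t) = - sgn t` if
`sin (2πt) ≠ 0`, and `Nf = 0` otherwise. -/
def S_Psi : Prop := ∀ (g ℓ : ℝ → E3) (t0 t1 ε c : ℝ), Str g ℓ t0 t1 ε c 1 →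
  ContDiff ℝ ∞ (Psi g) ∧ (∀ t, Psi g (t + 1) = Psi g t) ∧ (∀ t, Psi g (-t) = mir (Psi g t)) ∧
  (∀ t, |t| < t1 → Psi g t = 0) ∧ (∀ t, |t - 1 / 2| < t1 → Psi g t = 0) ∧
  ∃ τ : ℝ → ℝ, ContDiff ℝ ∞ τ ∧ (∀ t, τ (t + 1) = τ t) ∧
    ∀ t, Xf ε c g t = Psi g t + τ t • deriv g t

/-! ## Part III: uniform bounds and the comparison of the first variations -/

/-- Third derivative of the cut-off.  `Yc δ t = 1 - St (h t)`, `h = sin^2(2πt)/δ^2 - 1`,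
`h' = 2π sin(4πt)/δ^2`, `h'' = 8π^2 cos(4πt)/δ^2`, `h''' = -32π^3 sin(4πt)/δ^2`;
`Yc''' = -(St'''(h) h'^3 + 3 St''(h) h' h'' + St'(h) h''')`; `St', St'', St'''` are bounded
(smooth, `St` constant on `(-∞,0]` and `[1,∞)`) and vanish unless `0 ≤ h ≤ 1`, that is
`sin^2(2πt) ≤ 2δ^2`, where `|h'| ≤ C/δ`.  Second clause: if `2δ^2 < sin^2(2πt)` then `Yc δ = 0`
near `t`. -/
def S_Yc3 : Prop := ∃ B : ℝ, 0 ≤ B ∧ ∀ δ : ℝ, 0 < δ → δ ≤ 1 / 4 →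
  (∀ t, |deriv (deriv (deriv (Yc δ))) t| ≤ B / δ ^ 3) ∧
  (∀ t, 2 * δ ^ 2 < Real.sin (2 * Real.pi * t) ^ 2 → ∀ᶠ s in 𝓝 t, Yc δ s = 0)

/-- Bounds for the second and third derivatives of the straightened knots.
`g = r + Yc w`, `w = ℓ - r` smooth, periodic, `w = w' = 0` at `(1/2)ℤ` (`w 0 = 0`, `w (1/2) = 0`,
`w' 0 = 0`, `w' (1/2) = 0`), so with `d(t)` = distance of `t` to `(1/2)ℤ`: `‖w t‖ ≤ K d^2`,
`‖w' t‖ ≤ K d`, `‖w''‖, ‖w'''‖ ≤ K`.  If `2δ^2 < sin^2(2πt)` then `g = r` near `t`.  Otherwise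
`d(t) ≤ δ` (`|sin 2πt| ≥ 4 d`), and
`(Yc w)''' = Yc''' w + 3 Yc'' w' + 3 Yc' w'' + Yc w'''`,
`≤ (B/δ^3) K δ^2 + 3 (B/δ^2) K δ + 3 (B/δ) K + K ≤ C/δ`; `(Yc w)''` similarly `≤ C`. -/
def S_Sk3 : Prop := ∀ r ℓ : ℝ → E3, MirrorKnot r → Axial r ℓ → deriv ℓ 0 = deriv r 0 →
  deriv ℓ (1 / 2) = deriv r (1 / 2) → ∃ C : ℝ, 0 < C ∧ ∀ δ : ℝ, 0 < δ → δ ≤ 1 / 4 →
    (∀ t, ‖deriv (deriv (rst δ r ℓ)) t‖ ≤ C) ∧
    (∀ t, ‖deriv (deriv (deriv (rst δ r ℓ))) t‖ ≤ C / δ) ∧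
    (∀ t, 2 * δ ^ 2 < Real.sin (2 * Real.pi * t) ^ 2 →
      rst δ r ℓ t = r t ∧ deriv (rst δ r ℓ) t = deriv r t)

/-- Uniform bounds for the normal field `ψ = Psi g`, `g = rst δ r ℓ`.  `q = g (1/2) = r (1/2)`.
`ψ` is smooth (`S_Psi`, `S_Par`) and periodic; on `(0,1/2)` it is `N = Nf q g`, on `(-1/2,0)`
`-N`, near `(1/2)ℤ` it is `0`; so it is enough to bound `‖N‖, ‖N'‖ ≤ C`, `‖N''‖ ≤ C/δ`.
`N = V(g) - (⟨V(g),g'⟩/‖g'‖^2) g'` with the polynomial field `V = VF q`; `g` stays in a fixed ball,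
`m ≤ ‖g'‖ ≤ M` (`S_Sk`), `‖g''‖ ≤ C`, `‖g'''‖ ≤ C/δ` (`S_Sk3`). -/
def S_PB : Prop := ∀ r ℓ : ℝ → E3, MirrorKnot r → Axial r ℓ → deriv ℓ 0 = deriv r 0 →
  deriv ℓ (1 / 2) = deriv r (1 / 2) → ∃ δ0 C : ℝ, 0 < δ0 ∧ 0 < C ∧ ∀ δ ∈ Ioo (0 : ℝ) δ0,
    ContDiff ℝ ∞ (Psi (rst δ r ℓ)) ∧ (∀ t, Psi (rst δ r ℓ) (t + 1) = Psi (rst δ r ℓ) t) ∧
    (∀ t, ‖deriv (Psi (rst δ r ℓ)) t‖ ≤ C) ∧
    (∀ s t, ‖Psi (rst δ r ℓ) s - Psi (rst δ r ℓ) t‖ ≤ C * |s - t|) ∧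
    (∀ s t, ‖deriv (Psi (rst δ r ℓ)) s - deriv (Psi (rst δ r ℓ)) t‖ ≤ C / δ * |s - t|)

/-- Pointwise bounds for the first variation of a non-smooth field.  `0 < δ ≤ 1`.
Periodicity reduces to `0 < |s - t| ≤ 1/2` (if `f s = f t`, `dQ = 0`).  `S_DqB` with `h = s - t`,
`P = K |s-t|`, `W = M`, `R = min (2M) ((M/δ)|s-t|)`:
`‖ψ' s - (ψ s - ψ t)/(s-t)‖ ≤ R` (mean value: `ψ s - ψ t - (s-t) ψ' s` has norm
`≤ (M/δ) (s-t)^2` and `≤ 2M |s-t|`).  So `|dQ| ≤ C (K^2 M + K R/|s-t|)`. -/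
def S_DB : Prop := ∀ m M K : ℝ, 0 < m → 0 < M → 0 < K → ∃ C : ℝ, 0 ≤ C ∧
  ∀ (f ψ : ℝ → E3) (δ : ℝ), 0 < δ → δ ≤ 1 → (∀ t, f (t + 1) = f t) → (∀ t, ψ (t + 1) = ψ t) →
  ContDiff ℝ ∞ ψ → (∀ t, m ≤ ‖deriv f t‖ ∧ ‖deriv f t‖ ≤ M ∧ ‖deriv ψ t‖ ≤ M) →
  (∀ s t, |s - t| ≤ 1 / 2 → m * |s - t| ≤ ‖f s - f t‖) →
  (∀ s t, ‖f s - f t‖ ≤ M * |s - t| ∧ ‖ψ s - ψ t‖ ≤ M * |s - t|) →
  (∀ s t, ‖f s - f t - (s - t) • deriv f s‖ ≤ K * (s - t) ^ 2 ∧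
    ‖f s - f t - (s - t) • deriv f t‖ ≤ K * (s - t) ^ 2) →
  (∀ s t, ‖deriv ψ s - deriv ψ t‖ ≤ M / δ * |s - t|) →
  (∀ s t, |dQ f ψ s t| ≤ C / δ) ∧
  (∀ (s t : ℝ) (n : ℤ), s ≠ t + n → |s - t - n| ≤ 1 / 2 →
    |dQ f ψ s t| ≤ C * (1 + 1 / |s - t - n|))

/-- An integral estimate.  `N = {s ∈ (0,1) : sin^2(2πs) ≤ 2δ^2}` is contained in
`(0,δ] ∪ [1/2-δ,1/2+δ] ∪ [1-δ,1)` (`|sin 2πs| ≥ 4 d(s)`, `4d ≤ √2 δ`), volume `≤ 4δ`.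
`D = 0` unless `s ∈ N` or `t ∈ N`.  On `{s ∈ N}`: the part where `|s - t - n| ≤ √δ` for some
`n ∈ {-1,0,1}` has volume `≤ 4δ · 6√δ` and `|D| ≤ C/δ` there; on the rest
`|D| ≤ C (1 + 1/√δ)` (take the `n ∈ {-1,0,1}` with `|s - t - n| ≤ 1/2`).  Together
`≤ C (24 √δ + 8 √δ)`; the same for `{t ∈ N}`. -/
def S_DI : Prop := ∀ C : ℝ, 0 ≤ C → ∃ C' : ℝ, 0 ≤ C' ∧ ∀ (δ : ℝ) (D : ℝ → ℝ → ℝ),
  0 < δ → δ ≤ 1 / 4 →
  IntegrableOn (fun z : ℝ × ℝ => D z.1 z.2) (Ioo (0 : ℝ) 1 ×ˢ Ioo (0 : ℝ) 1) →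
  (∀ s t, 2 * δ ^ 2 < Real.sin (2 * Real.pi * s) ^ 2 → 2 * δ ^ 2 < Real.sin (2 * Real.pi * t) ^ 2 →
    D s t = 0) →
  (∀ s t, |D s t| ≤ C / δ) →
  (∀ (s t : ℝ) (n : ℤ), s ≠ t + n → |s - t - n| ≤ 1 / 2 → |D s t| ≤ C * (1 + 1 / |s - t - n|)) →
  |∫ z in Ioo (0 : ℝ) 1 ×ˢ Ioo (0 : ℝ) 1, D z.1 z.2| ≤ C' * Real.sqrt δ

/-- Comparison of the first variations.  `g = rst δ r ℓ`, `ψ = Psi g`,
`D s t = dQ g ψ s t - dQ r ψ s t`.  `S_DB` for `g` (bounds of `S_Sk`) and for `r` (bounds of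
`S_Bd`) with common constants; `S_PB`; `D = 0` if both parameters satisfy
`2δ^2 < sin^2(2π·)` because `g = r`, `g' = r'` there (`S_Sk3`); `S_DI`, `S_LLi`. -/
def S_Dif : Prop := ∀ r ℓ : ℝ → E3, MirrorKnot r → Axial r ℓ → deriv ℓ 0 = deriv r 0 →
  deriv ℓ (1 / 2) = deriv r (1 / 2) →
    Tendsto (fun δ => LL (rst δ r ℓ) (Psi (rst δ r ℓ)) - LL r (Psi (rst δ r ℓ))) (𝓝[>] 0) (𝓝 0)

/-- THEOREM R4 for mirror knots: there is a smooth symmetric field with negative first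
variation. -/
def S_R4 : Prop := ∀ r : ℝ → E3, MirrorKnot r → ¬ IsRoundCircle (range r) →
  ∃ φ : ℝ → E3, ContDiff ℝ ∞ φ ∧ (∀ t, φ (t + 1) = φ t) ∧ (∀ t, φ (-t) = mir (φ t)) ∧
    LL r φ < 0

/-! ## Part IV: arbitrary planes and spheres -/

/-- The inverse of a change of the parameter.  `σ` is a strictly increasing smooth bijection of
`ℝ` (`σ(t+n) = σ(t)+n`, so `σ → ±∞`); the inverse is smooth
(`OpenPartialHomeomorph.contDiffAt_symm_deriv`, see `Sig.lean`). -/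
def S_SgI : Prop := ∀ σ : ℝ → ℝ, ContDiff ℝ ∞ σ → (∀ t, 0 < deriv σ t) →
  (∀ t, σ (t + 1) = σ t + 1) → ∃ ρ : ℝ → ℝ, ContDiff ℝ ∞ ρ ∧ (∀ t, 0 < deriv ρ t) ∧
    (∀ t, ρ (t + 1) = ρ t + 1) ∧ (∀ t, σ (ρ t) = t) ∧ (∀ t, ρ (σ t) = t)

/-- Criticality is invariant under changes of the parameter.  By `S_Cr` it is enough that
`LL (r ∘ σ) φ = 0`.  `ρ` from `S_SgI`.  For small `τ` the curve `f τ = r ∘ σ + τ φ` is a knot
(`S_Fb`), and `energy (f τ) = energy (f τ ∘ ρ) = energy (r + τ (φ ∘ ρ))` (`S_Rep`); derivatives at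
`0` (`S_Cr`): `LL (r ∘ σ) φ = LL r (φ ∘ ρ) = 0`.  (`IsKnot (r ∘ σ)` by `S_Rep`.) -/
def S_CrA : Prop := ∀ (r : ℝ → E3) (σ : ℝ → ℝ), IsKnot r → IsCritical r → ContDiff ℝ ∞ σ →
  (∀ t, 0 < deriv σ t) → (∀ t, σ (t + 1) = σ t + 1) → IsCritical (fun t => r (σ t))

/-- Criticality is invariant under rigid motions: `energy (A (r + τ A⁻¹φ) + b) =
energy (r + τ A⁻¹φ)` for small `τ` (`S_Tr`; knots for small `τ` by `S_Fb`), so the derivative in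
the direction `φ` at `A r + b` is the one in the direction `A⁻¹ φ` at `r`. -/
def S_CrB : Prop := ∀ (r : ℝ → E3) (A : E3 ≃ₗᵢ[ℝ] E3) (b : E3), IsKnot r → IsCritical r →
  IsCritical (fun t => A (r t) + b)

/-- Inversion.  (1) `IsKnot`: `S_Inv`.  (2) `f` knot with `0 ∉ range f`: `energy (inv ∘ f) =
energy f` by `S_DS` and the invariance of `qf` (`S_Inv`).  (3) critical: `u = inv (r - c)`, `φ`
smooth periodic.  `f τ = u + τ φ`; for small `τ` `f τ` is a knot avoiding `0`, and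
`h τ = inv (f τ)` is a `JS` family with `h 0 = r - c` and field `ψ = dinv (u) φ` at `0`.
`energy (h τ) = energy (f τ)`, so `LL u φ = LL (r - c) ψ = LL r ψ = 0` (`S_FV`, translation
invariance of `dqf` or `S_CrB`, `S_Cr`). -/
def S_CrM : Prop := ∀ (r : ℝ → E3) (c : E3), IsKnot r → (∀ t, r t ≠ c) →
  IsKnot (fun t => inv (r t - c)) ∧ (IsCritical r → IsCritical (fun t => inv (r t - c)))

/-- The inverse of a round circle.  `C = {z0 + cos θ u + sin θ v}`; rotate `(u,v)` in their plane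
so that `⟨z0, v⟩ = 0`.  `α = ‖z0‖^2 + ‖u‖^2`, `β = 2⟨z0,u⟩`, `‖x(θ)‖^2 = α + β cos θ > 0` for all
`θ` (`0 ∉ C`), so `|β| < α`; `w = α^2 - β^2`.  With `cos θ' = (α cos θ + β)/(α + β cos θ)`,
`sin θ' = √w sin θ/(α + β cos θ)` (squares add up to 1):
`inv x(θ) = (α z0 - β u)/w + cos θ' (α u - β z0)/w + sin θ' v/√w`; both new vectors have norm
`‖u‖/√w` and are orthogonal; `θ ↦ θ'` is onto (the inverse map is
`cos θ = (α cos θ' - β)/(α - β cos θ')`, `sin θ = √w sin θ'/(α - β cos θ')`). -/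
def S_CI : Prop := ∀ C : Set E3, IsRoundCircle C → (0 : E3) ∉ C → IsRoundCircle (inv '' C)

/-- From a sphere to a plane.  `n = R⁻¹ (o - c)`, `κ = 1/(2R)`, `‖c - o‖ = R`.  For `x ≠ c`,
`y = x - c`: `‖x - o‖ = R` iff `‖y‖^2 = 2⟨y, o - c⟩` iff `⟨inv y, n⟩ = κ`.  For `x ≠ c, o`:
`invS o R x ≠ c` and `inv (invS o R x - c) = refl n κ (inv (x - c))` (clear denominators: with
`w = x - o`, `y = w + (o - c)`, `invS o R x - c = (R^2/‖w‖^2) w + (o - c)`, whose norm square is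
`(R^2/‖w‖^2) ‖y‖^2`, because `‖o - c‖ = R`). -/
def S_SpP : Prop := ∀ (o c : E3) (R : ℝ), 0 < R → ‖c - o‖ = R →
  ‖R⁻¹ • (o - c)‖ = 1 ∧
  (∀ x : E3, x ≠ c → (‖x - o‖ = R ↔ inner ℝ (inv (x - c)) (R⁻¹ • (o - c)) = 1 / (2 * R))) ∧
  (∀ x : E3, x ≠ c → x ≠ o → invS o R x ≠ c ∧
    inv (invS o R x - c) = refl (R⁻¹ • (o - c)) (1 / (2 * R)) (inv (x - c)))

/-- THEOREM R4 for planes. -/
def S_R4G : Prop := ∀ (r : ℝ → E3) (n : E3) (c : ℝ), ‖n‖ = 1 → IsSymKnot n c r → IsCritical r →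
  IsRoundCircle (range r)

/-- THEOREM R4 for spheres.  `o ∉ range r`: otherwise `range r` contains points `x ≠ o` near `o`
(`r` is injective modulo 1 and continuous) and `‖invS o R x - o‖ = R^2/‖x - o‖` is unbounded, but
`range r` is bounded (compact).  Choose `c` with `‖c - o‖ = R`, `c ∉ range r` (the sphere has
more than two points).  `u = inv (r - c)` is a knot, critical (`S_CrM`), symmetric with respect to
the plane `⟨x, n⟩ = κ` with exactly two points on it (`S_SpP`; `x ↦ inv (x - c)` is injective off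
`c`), so its image is a round circle (`S_R4G`) which does not contain `0`, and
`range r = inv '' (range u) + c` is a round circle (`S_CI`, translate by `c`). -/
def S_R4S : Prop := ∀ (r : ℝ → E3) (o : E3) (R : ℝ), 0 < R → IsKnot r → IsCritical r →
  invS o R '' range r = range r → ({x ∈ range r | ‖x - o‖ = R}).ncard = 2 →
  IsRoundCircle (range r)

end MP_e78765_gt
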