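import Pool.Agent.Lib.MP_e78765_gt.Spec

/-!
# THEOREM R, module Split: splitting of the energy
-/

set_option autoImplicit false

open scoped ContDiff Topology
open MeasureTheory Set Filter

namespace MP_e78765_gt

namespace Split_aux

lemma ae_union : (Ioo (0 : ℝ) (1 / 2) ∪ Ioo (1 / 2 : ℝ) 1 : Set ℝ) =ᵐ[volume] Ioo (0 : ℝ) 1 := by
  have h : Ioc (0 : ℝ) (1 / 2) ∪ Ioo (1 / 2 : ℝ) 1 = Ioo (0 : ℝ) 1 :=
    Ioc_union_Ioo_eq_Ioo (by norm_num) (by norm_num)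
  have h1 := (Ioo_ae_eq_Ioc (a := (0 : ℝ)) (b := 1 / 2) (μ := volume)).union
    (EventuallyEq.refl (ae volume) (Ioo (1 / 2 : ℝ) 1))
  rw [h] at h1
  exact h1

lemma subU : Ioo (0 : ℝ) (1 / 2) ⊆ Ioo (0 : ℝ) 1 := Ioo_subset_Ioo_right (by norm_num)

lemma subL : Ioo (1 / 2 : ℝ) 1 ⊆ Ioo (0 : ℝ) 1 := Ioo_subset_Ioo_left (by norm_num)

lemma disjUL : Disjoint (Ioo (0 : ℝ) (1 / 2)) (Ioo (1 / 2 : ℝ) 1) := by
  rw [Set.disjoint_left]
  intro t h1 h2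
  exact absurd h1.2 (not_lt.2 h2.1.le)

lemma split4 (F : ℝ × ℝ → ℝ) (hF : IntegrableOn F (Ioo (0 : ℝ) 1 ×ˢ Ioo (0 : ℝ) 1)) :
    ∫ z in Ioo (0 : ℝ) 1 ×ˢ Ioo (0 : ℝ) 1, F z =
      ((∫ z in Ioo (0 : ℝ) (1 / 2) ×ˢ Ioo (0 : ℝ) (1 / 2), F z) +
        ∫ z in Ioo (0 : ℝ) (1 / 2) ×ˢ Ioo (1 / 2 : ℝ) 1, F z) +
      ((∫ z in Ioo (1 / 2 : ℝ) 1 ×ˢ Ioo (0 : ℝ) (1 / 2), F z) +
        ∫ z in Ioo (1 / 2 : ℝ) 1 ×ˢ Ioo (1 / 2 : ℝ) 1, F z) := by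
  have h1 : ((Ioo (0 : ℝ) (1 / 2) ∪ Ioo (1 / 2 : ℝ) 1) ×ˢ (Ioo (0 : ℝ) (1 / 2) ∪ Ioo (1 / 2 : ℝ) 1) :
      Set (ℝ × ℝ)) =ᵐ[volume] Ioo (0 : ℝ) 1 ×ˢ Ioo (0 : ℝ) 1 :=
    Measure.set_prod_ae_eq ae_union ae_union
  rw [← setIntegral_congr_set h1, Set.union_prod, Set.prod_union, Set.prod_union]
  have hUU := hF.mono_set (Set.prod_mono subU subU)
  have hUL := hF.mono_set (Set.prod_mono subU subL)
  have hLU := hF.mono_set (Set.prod_mono subL subU)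
  have hLL := hF.mono_set (Set.prod_mono subL subL)
  have hd : ∀ s : Set ℝ, Disjoint (s ×ˢ Ioo (0 : ℝ) (1 / 2)) (s ×ˢ Ioo (1 / 2 : ℝ) 1) := by
    intro s
    rw [Set.disjoint_prod]
    exact Or.inr disjUL
  rw [setIntegral_union _ _ (hUU.union hUL) (hLU.union hLL),
    setIntegral_union (hd _) (measurableSet_Ioo.prod measurableSet_Ioo) hUU hUL,
    setIntegral_union (hd _) (measurableSet_Ioo.prod measurableSet_Ioo) hLU hLL]
  · rw [Set.disjoint_left]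
    rintro z (h | h) (h' | h')
    · exact Set.disjoint_left.1 disjUL h.1 h'.1
    · exact Set.disjoint_left.1 disjUL h.1 h'.1
    · exact Set.disjoint_left.1 disjUL h.1 h'.1
    · exact Set.disjoint_left.1 disjUL h.1 h'.1
  · exact (measurableSet_Ioo.prod measurableSet_Ioo).union (measurableSet_Ioo.prod measurableSet_Ioo)

lemma swap_int (F : ℝ × ℝ → ℝ) (S T : Set ℝ) :
    ∫ z in S ×ˢ T, F z = ∫ z in T ×ˢ S, F (z.2, z.1) := by
  have h := (Measure.measurePreserving_swap (μ := (volume : Measure ℝ))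
    (ν := (volume : Measure ℝ))).setIntegral_preimage_emb MeasurableEquiv.prodComm.measurableEmbedding
    F (S ×ˢ T)
  rw [Set.preimage_swap_prod] at h
  exact h.symm

lemma mem_refl {t : ℝ} : 1 - t ∈ Ioo (1 / 2 : ℝ) 1 ↔ t ∈ Ioo (0 : ℝ) (1 / 2) := by
  constructor
  · rintro ⟨h1, h2⟩
    exact ⟨by linarith, by linarith⟩
  · rintro ⟨h1, h2⟩
    exact ⟨by linarith, by linarith⟩

lemma refl2_int (F : ℝ × ℝ → ℝ) (S : Set ℝ) :
    ∫ z in S ×ˢ Ioo (1 / 2 : ℝ) 1, F z =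
      ∫ z in S ×ˢ Ioo (0 : ℝ) (1 / 2), F (z.1, 1 - z.2) := by
  have h := ((MeasurePreserving.id (volume : Measure ℝ)).prod
    (Measure.measurePreserving_sub_left (volume : Measure ℝ) 1)).setIntegral_preimage_emb
    ((MeasurableEquiv.refl ℝ).prodCongr (MeasurableEquiv.subLeft (1 : ℝ))).measurableEmbedding
    F (S ×ˢ Ioo (1 / 2 : ℝ) 1)
  have hs : Prod.map id (fun x : ℝ => 1 - x) ⁻¹' (S ×ˢ Ioo (1 / 2 : ℝ) 1) =
      S ×ˢ Ioo (0 : ℝ) (1 / 2) := by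
    ext z
    constructor
    · rintro ⟨h1, h2⟩
      exact ⟨h1, mem_refl.1 h2⟩
    · rintro ⟨h1, h2⟩
      exact ⟨h1, mem_refl.2 h2⟩
  rw [hs] at h
  exact h.symm

lemma refl1_int (F : ℝ × ℝ → ℝ) (S : Set ℝ) :
    ∫ z in Ioo (1 / 2 : ℝ) 1 ×ˢ S, F z =
      ∫ z in Ioo (0 : ℝ) (1 / 2) ×ˢ S, F (1 - z.1, z.2) := by
  rw [swap_int, refl2_int, swap_int]

/-- The lower half of a mirror knot. -/
lemma lower (hMir : S_Mir) {g : ℝ → E3} (hg : MirrorKnot g) (t : ℝ) :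
    g (1 - t) = mir (g t) ∧ deriv g (1 - t) = -mir (deriv g t) := by
  obtain ⟨-, -, -, -, -, -, -, hd⟩ := hMir
  have h0 : ∀ s, g (1 - s) = mir (g s) := by
    intro s
    have h1 := hg.periodic (-s)
    rw [hg.sym, show -s + 1 = 1 - s by ring] at h1
    exact h1
  have hD : ∀ s, HasDerivAt g (deriv g s) s := fun s =>
    ((hg.smooth.differentiable (by simp)) s).hasDerivAt
  refine ⟨h0 t, ?_⟩
  have h1 := HasDerivAt.comp_const_sub 1 t (hD (1 - t))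
  have h2 := hd g (deriv g t) t (hD t)
  have h3 : (fun x => g (1 - x)) = fun s => mir (g s) := funext h0
  rw [h3] at h1
  have h4 := h1.unique h2
  rw [← h4, neg_neg]

/-- The integral of `Q h`. -/
lemma main (hQB : S_QB) (hAlg : S_Alg) (hMir : S_Mir) {f g h : ℝ → E3}
    (hg : MirrorKnot g) (hh : IsKnot h) (hu : ∀ t ∈ Icc (0 : ℝ) (1 / 2), h t = f t)
    (hl : ∀ t ∈ Icc (1 / 2 : ℝ) 1, h t = g t) :
    ∫ z in Ioo (0 : ℝ) 1 ×ˢ Ioo (0 : ℝ) 1, Q h z.1 z.2 = AA f + AA g + 2 * XX f g := by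
  obtain ⟨hsym, -, -, hmir, hneg, -, -⟩ := hAlg
  obtain ⟨-, -, hI⟩ := hQB h hh
  have hdu : ∀ t ∈ Ioo (0 : ℝ) (1 / 2), deriv h t = deriv f t := by
    intro t ht
    refine Filter.EventuallyEq.deriv_eq ?_
    filter_upwards [Ioo_mem_nhds ht.1 ht.2] with s hs
    exact hu s ⟨hs.1.le, hs.2.le⟩
  have hdl : ∀ t ∈ Ioo (1 / 2 : ℝ) 1, deriv h t = deriv g t := by
    intro t ht
    refine Filter.EventuallyEq.deriv_eq ?_
    filter_upwards [Ioo_mem_nhds ht.1 ht.2] with s hs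
    exact hl s ⟨hs.1.le, hs.2.le⟩
  have hu' : ∀ t ∈ Ioo (0 : ℝ) (1 / 2), h t = f t := fun t ht => hu t ⟨ht.1.le, ht.2.le⟩
  have hl' : ∀ t ∈ Ioo (0 : ℝ) (1 / 2), h (1 - t) = mir (g t) ∧
      deriv h (1 - t) = -mir (deriv g t) := by
    intro t ht
    have h1 := mem_refl.2 ht
    have h2 := lower hMir hg t
    exact ⟨by rw [hl (1 - t) ⟨h1.1.le, h1.2.le⟩, h2.1], by rw [hdl _ h1, h2.2]⟩
  have hUU : ∫ z in Ioo (0 : ℝ) (1 / 2) ×ˢ Ioo (0 : ℝ) (1 / 2), Q h z.1 z.2 = AA f := by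
    refine setIntegral_congr_fun (measurableSet_Ioo.prod measurableSet_Ioo) ?_
    rintro ⟨s, t⟩ ⟨hs, ht⟩
    change Q h s t = Q f s t
    unfold Q
    rw [hu' s hs, hu' t ht, hdu s hs, hdu t ht]
  have hUL : ∫ z in Ioo (0 : ℝ) (1 / 2) ×ˢ Ioo (1 / 2 : ℝ) 1, Q h z.1 z.2 = XX f g := by
    rw [refl2_int]
    refine setIntegral_congr_fun (measurableSet_Ioo.prod measurableSet_Ioo) ?_
    rintro ⟨s, t⟩ ⟨hs, ht⟩
    change Q h s (1 - t) = qf (f s) (deriv f s) (mir (g t)) (-mir (deriv g t))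
    unfold Q
    rw [hu' s hs, hdu s hs, (hl' t ht).1, (hl' t ht).2]
  have hLU : ∫ z in Ioo (1 / 2 : ℝ) 1 ×ˢ Ioo (0 : ℝ) (1 / 2), Q h z.1 z.2 = XX f g := by
    rw [swap_int, ← hUL]
    refine setIntegral_congr_fun (measurableSet_Ioo.prod measurableSet_Ioo) ?_
    rintro ⟨s, t⟩ -
    exact hsym _ _ _ _
  have hLL : ∫ z in Ioo (1 / 2 : ℝ) 1 ×ˢ Ioo (1 / 2 : ℝ) 1, Q h z.1 z.2 = AA g := by
    rw [refl2_int, refl1_int]
    refine setIntegral_congr_fun (measurableSet_Ioo.prod measurableSet_Ioo) ?_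
    rintro ⟨s, t⟩ ⟨hs, ht⟩
    change Q h (1 - s) (1 - t) = Q g s t
    unfold Q
    rw [(hl' s hs).1, (hl' s hs).2, (hl' t ht).1, (hl' t ht).2, hneg, hmir]
  rw [split4 _ hI, hUU, hUL, hLU, hLL]
  ring

lemma XX_symm (hAlg : S_Alg) (hMir : S_Mir) (f g : ℝ → E3) : XX g f = XX f g := by
  obtain ⟨hsym, -, -, hmir, hneg, -, -⟩ := hAlg
  obtain ⟨-, hsm, -, hmm, -⟩ := hMir
  have hmn : ∀ x : E3, mir (-x) = -mir x := by
    intro x
    have h1 := hsm (-1) x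
    rwa [neg_one_smul, neg_one_smul] at h1
  unfold XX
  rw [swap_int]
  refine setIntegral_congr_fun (measurableSet_Ioo.prod measurableSet_Ioo) ?_
  rintro ⟨s, t⟩ -
  change qf (g t) (deriv g t) (mir (f s)) (-mir (deriv f s)) =
    qf (f s) (deriv f s) (mir (g t)) (-mir (deriv g t))
  rw [← hmir (f s) (deriv f s) (mir (g t)) (-mir (deriv g t)), hmm, hmn, hmm, hsym,
    ← hneg (mir (f s)) (mir (deriv f s)) (g t) (-deriv g t), neg_neg]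

end Split_aux

theorem tSplit : S_DS → S_QB → S_Alg → S_Mir → S_Split := by
  intro hDS hQB hAlg hMir f g h hf hg hh hu hl
  rw [hDS f hf.toIsKnot, hDS g hg.toIsKnot, hDS h hh,
    Split_aux.main hQB hAlg hMir (f := f) (g := f) (h := f) hf hf.toIsKnot (fun _ _ => rfl)
      (fun _ _ => rfl),
    Split_aux.main hQB hAlg hMir (f := g) (g := g) (h := g) hg hg.toIsKnot (fun _ _ => rfl)
      (fun _ _ => rfl),
    Split_aux.main hQB hAlg hMir (f := f) (g := g) (h := h) hg hh hu hl,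
    Split_aux.XX_symm hAlg hMir f g]
  ring

end MP_e78765_gt
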