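import Pool.Agent.Lib.MP_e78765_gt.Spec

/-!
# MP_e78765_gt, module StB: the smooth step has bounded derivatives
-/

set_option autoImplicit false

open scoped ContDiff Topology
open MeasureTheory Set Filter

namespace MP_e78765_gt

namespace StB_aux

theorem bdd {f : ℝ → ℝ} (hf : Continuous f) (h0 : ∀ x ∉ Icc (0 : ℝ) 1, f x = 0) :
    ∃ B : ℝ, ∀ x, |f x| ≤ B := by
  obtain ⟨C, hC⟩ := isCompact_Icc.exists_bound_of_continuousOn (s := Icc (0 : ℝ) 1)
    hf.continuousOn
  refine ⟨max C 0, fun x => ?_⟩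
  by_cases h : x ∈ Icc (0 : ℝ) 1
  · exact (hC x h).trans (le_max_left _ _)
  · rw [h0 x h, abs_zero]
    exact le_max_right _ _

theorem d1 : ∀ x ∉ Icc (0 : ℝ) 1, deriv St x = 0 := by
  intro x hx
  by_cases h : x < 0
  · have e : St =ᶠ[𝓝 x] fun _ => (0 : ℝ) := Filter.eventually_of_mem (Iio_mem_nhds h)
      fun y hy => Real.smoothTransition.zero_of_nonpos (le_of_lt hy)
    rw [e.deriv_eq]
    simp
  · have h1 : 1 < x := by
      by_contra h2
      exact hx ⟨not_lt.1 h, not_lt.1 h2⟩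
    have e : St =ᶠ[𝓝 x] fun _ => (1 : ℝ) := Filter.eventually_of_mem (Ioi_mem_nhds h1)
      fun y hy => Real.smoothTransition.one_of_one_le (le_of_lt hy)
    rw [e.deriv_eq]
    simp

theorem d2 : ∀ x ∉ Icc (0 : ℝ) 1, deriv (deriv St) x = 0 := by
  intro x hx
  have e : deriv St =ᶠ[𝓝 x] fun _ => (0 : ℝ) :=
    Filter.eventually_of_mem (isClosed_Icc.isOpen_compl.mem_nhds hx) fun y hy => d1 y hy
  rw [e.deriv_eq]
  simp

theorem smooth : ContDiff ℝ ∞ St := by
  have h : ContDiff ℝ ∞ Real.smoothTransition := Real.smoothTransition.contDiff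
  exact h

end StB_aux

open StB_aux in
theorem tStB : S_StB := by
  have hs := smooth
  have hs1 : ContDiff ℝ ∞ (deriv St) := (contDiff_infty_iff_deriv.1 hs).2
  have hs2 : ContDiff ℝ ∞ (deriv (deriv St)) := (contDiff_infty_iff_deriv.1 hs1).2
  obtain ⟨B1, hB1⟩ := bdd hs1.continuous d1
  obtain ⟨B2, hB2⟩ := bdd hs2.continuous d2
  have hB : 0 < max (max B1 B2) 1 := lt_of_lt_of_le one_pos (le_max_right _ _)
  have h1 : ∀ x, |deriv St x| ≤ max (max B1 B2) 1 := fun x =>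
    (hB1 x).trans ((le_max_left _ _).trans (le_max_left _ _))
  have h2 : ∀ x, |deriv (deriv St) x| ≤ max (max B1 B2) 1 := fun x =>
    (hB2 x).trans ((le_max_right _ _).trans (le_max_left _ _))
  refine ⟨⟨_, hB, h1, h2⟩, ⟨min (1 / 8) (1 / 8 / max (max B1 B2) 1),
    lt_min (by norm_num) (div_pos (by norm_num) hB), fun τ hτ => ⟨hτ.trans (min_le_left _ _),
      fun x => ?_⟩⟩, fun τ c hτ hc => ?_⟩
  · calc |τ| * |deriv St x| ≤ 1 / 8 / max (max B1 B2) 1 * max (max B1 B2) 1 :=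
          mul_le_mul (hτ.trans (min_le_right _ _)) (h1 x) (abs_nonneg _)
            (div_pos (by norm_num) hB).le
      _ = 1 / 8 := div_mul_cancel₀ _ hB.ne'
  · have h3 : |c * τ| ≤ |τ| := by
      rw [abs_mul]
      exact mul_le_of_le_one_left (abs_nonneg _) hc
    exact ⟨h3.trans hτ.1, fun x => (mul_le_mul_of_nonneg_right h3 (abs_nonneg _)).trans (hτ.2 x)⟩

end MP_e78765_gt
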