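import Pool.Agent.Lib.MP_e78765_gt.Spec3

/-!
# Domination and convergence of the transforms
-/

set_option autoImplicit false

open scoped ContDiff Topology
open MeasureTheory Set Filter

namespace MP_e78765_gt

namespace Sw_aux

/-- the integrand -/
noncomputable def Ai (g : ℝ → E3) (ζ : ℂ × ℂ) (t : ℝ) : ℂ := (‖deriv (Fc g) t‖ : ℂ) * phi ζ (Fc g t)

theorem norm_dinv {x : E3} (hx : x ≠ 0) (a : E3) : ‖dinv x a‖ = ‖a‖ / ‖x‖ ^ 2 := by
  have hn : (0 : ℝ) < ‖x‖ ^ 2 := by positivity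
  have h1 : ‖a - (2 * inner ℝ x a / ‖x‖ ^ 2) • x‖ ^ 2 = ‖a‖ ^ 2 := by
    rw [norm_sub_sq_real, norm_smul, inner_smul_right, real_inner_comm, Real.norm_eq_abs, mul_pow, sq_abs]
    field_simp
    ring
  have h2 : ‖a - (2 * inner ℝ x a / ‖x‖ ^ 2) • x‖ = ‖a‖ := by
    exact (sq_eq_sq₀ (norm_nonneg _) (norm_nonneg _)).1 h1
  unfold dinv
  rw [norm_smul, h2, norm_inv, norm_pow, norm_norm, div_eq_inv_mul]

theorem ne_q (hCh : S_Ch) {r : ℝ → E3} (hr : MirrorKnot r) {t : ℝ} (ht : t ∈ Ioo (0 : ℝ) (1 / 2)) :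
    r t ≠ r (1 / 2) := by
  intro h
  obtain ⟨n, hn⟩ := ((hCh r hr).2.2.2.2.1 t).1 h
  have h1 : (n : ℝ) < 0 := by linarith [ht.2]
  have h2 : (-1 : ℝ) < n := by linarith [ht.1]
  have h3 : n < 0 := by exact_mod_cast h1
  have h4 : -1 < n := by exact_mod_cast h2
  omega

theorem phi_cont (ζ : ℂ × ℂ) : Continuous (phi ζ) := by
  have h : ∀ i : Fin 3, Continuous fun x : E3 => x i := fun i => by fun_prop
  have h0 := h 0
  have h1 := h 1
  have h2 := h 2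
  unfold phi
  fun_prop

theorem meas (hCh : S_Ch) {g : ℝ → E3} (hg : MirrorKnot g) (ζ : ℂ × ℂ) :
    AEStronglyMeasurable (Ai g ζ) (volume.restrict (Ioo (0 : ℝ) (1 / 2))) := by
  refine ContinuousOn.aestronglyMeasurable ?_ measurableSet_Ioo
  intro t ht
  obtain ⟨h1, -, -⟩ := (hCh g hg).2.2.2.2.2.2.2.2.1 t (ne_q hCh hg ht)
  have h2 : ContinuousAt (deriv (Fc g)) t := by
    have h3 : ContinuousAt (fderiv ℝ (Fc g)) t := (h1.fderiv_right (m := 0) (by simp)).continuousAt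
    have h4 : deriv (Fc g) = fun s => fderiv ℝ (Fc g) s 1 := rfl
    rw [h4]
    exact h3.clm_apply continuousAt_const
  have h4 : ContinuousAt (Fc g) t := h1.continuousAt
  have h5 : ContinuousAt (fun s => phi ζ (Fc g s)) t := (phi_cont ζ).continuousAt.comp h4
  have h6 : ContinuousAt (fun s => ((‖deriv (Fc g) s‖ : ℝ) : ℂ)) t :=
    Complex.continuous_ofReal.continuousAt.comp h2.norm
  exact (h6.mul h5).continuousWithinAt

theorem bound (hCh : S_Ch) (hKer : S_Ker) {g : ℝ → E3} (hg : MirrorKnot g) {M c κ : ℝ} (hM : 0 < M) (hc : 0 < c)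
    (hκ : 0 < κ) (h1 : ∀ t, ‖deriv g t‖ ≤ M) (h2 : ∀ s t, |s - t| ≤ 1 / 2 → c * |s - t| ≤ ‖g s - g t‖)
    (h3 : ∀ t ∈ Icc (0 : ℝ) (1 / 2), κ * (t * (1 / 2 - t)) ≤ (g t) 2) {ζ : ℂ × ℂ} (hζ : ζ ≠ 0) {t : ℝ}
    (ht : t ∈ Ioo (0 : ℝ) (1 / 2)) :
    ‖Ai g ζ t‖ ≤ M / c ^ 2 * (16 + 2 / ((‖ζ.1‖ ^ 2 + ‖ζ.2‖ ^ 2) * κ / (4 * M ^ 2)) ^ 2) := by
  set k := ‖ζ.1‖ ^ 2 + ‖ζ.2‖ ^ 2 with hk
  have hk0 : 0 < k := by
    rcases eq_or_ne ζ.1 0 with h | h
    · have h' : ζ.2 ≠ 0 := fun h'' => hζ (Prod.ext h h'')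
      positivity
    · positivity
  set u := 1 / 2 - t with hu
  have hu0 : 0 < u := by linarith [ht.2]
  have hne := ne_q hCh hg ht
  have hx : g t - g (1 / 2) ≠ 0 := sub_ne_zero.2 hne
  obtain ⟨-, -, -, -, -, -, hback, -, hFc, -, -, -, hpos, -⟩ := hCh g hg
  obtain ⟨-, hd, -⟩ := hFc t hne
  have habs : |t - 1 / 2| = u := by
    rw [abs_sub_comm, abs_of_pos]
    exact hu0
  have hlow : c * u ≤ ‖g t - g (1 / 2)‖ := by
    have := h2 t (1 / 2) (by rw [habs]; linarith [ht.1])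
    rwa [habs] at this
  have hup : ‖g t - g (1 / 2)‖ ≤ M * u := by
    have h := Convex.norm_image_sub_le_of_norm_deriv_le (f := g) (s := univ) (C := M) (x := 1 / 2) (y := t)
      (fun x _ => (hg.smooth.differentiable (by simp)).differentiableAt) (fun x _ => h1 x) convex_univ
      (mem_univ _) (mem_univ _)
    rwa [Real.norm_eq_abs, habs] at h
  have hnx : 0 < ‖g t - g (1 / 2)‖ := norm_pos_iff.2 hx
  have hd1 : ‖deriv (Fc g) t‖ ≤ M / (c * u) ^ 2 := by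
    rw [hd, norm_dinv hx]
    exact div_le_div₀ hM.le (h1 t) (by positivity) (pow_le_pow_left₀ (by positivity) hlow 2)
  have hF2 : κ * t / (M ^ 2 * u) ≤ (Fc g t) 2 := by
    have e : (Fc g t) 2 = (g t) 2 / ‖g t - g (1 / 2)‖ ^ 2 := (hback (g t) hne).2.2
    rw [e]
    have h5 := h3 t ⟨ht.1.le, ht.2.le⟩
    have h6 : κ * t / (M ^ 2 * u) = κ * (t * u) / (M * u) ^ 2 := by
      field_simp
    rw [h6]
    refine div_le_div₀ ?_ h5 (by positivity) (pow_le_pow_left₀ hnx.le hup 2)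
    exact le_trans (by have := ht.1; positivity) h5
  have hphi : ‖phi ζ (Fc g t)‖ ≤ Real.exp (-(κ * t / (M ^ 2 * u) * k)) := by
    rw [(hKer _ _ (hpos t ht) (hpos t ht)).1 ζ]
    exact Real.exp_le_exp.2 (neg_le_neg (mul_le_mul_of_nonneg_right hF2 hk0.le))
  have hprod : ‖Ai g ζ t‖ ≤ M / (c * u) ^ 2 * Real.exp (-(κ * t / (M ^ 2 * u) * k)) := by
    unfold Ai
    rw [norm_mul, Complex.norm_real, norm_norm]
    exact mul_le_mul hd1 hphi (norm_nonneg _) (by positivity)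
  refine hprod.trans ?_
  have e1 : M / (c * u) ^ 2 = M / c ^ 2 * (1 / u ^ 2) := by
    field_simp
  rw [e1, mul_assoc]
  refine mul_le_mul_of_nonneg_left ?_ (by positivity)
  set a := k * κ / (4 * M ^ 2) with ha
  have ha0 : 0 < a := by positivity
  rcases le_total t (1 / 4) with h | h
  · have h7 : Real.exp (-(κ * t / (M ^ 2 * u) * k)) ≤ 1 := by
      rw [Real.exp_le_one_iff]
      have : 0 ≤ κ * t / (M ^ 2 * u) * k := by have := ht.1; positivity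
      linarith
    have h8 : 1 / u ^ 2 ≤ 16 := by
      have h9 : 1 / 4 ≤ u := by linarith
      rw [div_le_iff₀ (by positivity)]
      nlinarith
    have h9 : 1 / u ^ 2 * Real.exp (-(κ * t / (M ^ 2 * u) * k)) ≤ 16 * 1 :=
      mul_le_mul h8 h7 (Real.exp_pos _).le (by norm_num)
    have h10 : 0 ≤ 2 / a ^ 2 := by positivity
    linarith
  · have h7 : a / u ≤ κ * t / (M ^ 2 * u) * k := by
      have e2 : κ * t / (M ^ 2 * u) * k = (4 * t) * (a / u) := by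
        rw [ha]
        field_simp
      rw [e2]
      have : 0 ≤ a / u := by positivity
      nlinarith
    have h8 : Real.exp (-(κ * t / (M ^ 2 * u) * k)) ≤ Real.exp (-(a / u)) :=
      Real.exp_le_exp.2 (neg_le_neg h7)
    have h9 := Real.quadratic_le_exp_of_nonneg (x := a / u) (by positivity)
    have h10 : (a / u) ^ 2 / 2 ≤ Real.exp (a / u) := by
      have : 0 ≤ a / u := by positivity
      linarith
    have h11 : 1 / u ^ 2 * Real.exp (-(a / u)) ≤ 2 / a ^ 2 := by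
      rw [Real.exp_neg, ← div_eq_mul_inv, div_le_iff₀ (Real.exp_pos _)]
      calc 1 / u ^ 2 = 2 / a ^ 2 * ((a / u) ^ 2 / 2) := by
            field_simp
        _ ≤ 2 / a ^ 2 * Real.exp (a / u) := mul_le_mul_of_nonneg_left h10 (by positivity)
    have h12 : 1 / u ^ 2 * Real.exp (-(κ * t / (M ^ 2 * u) * k)) ≤ 1 / u ^ 2 * Real.exp (-(a / u)) :=
      mul_le_mul_of_nonneg_left h8 (by positivity)
    linarith

end Sw_aux

open Sw_aux in
theorem tSw : S_Sk → S_Yc → S_Ker → S_Ch → S_Sw := by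
  intro hSk _ hKer hCh r ℓ hr hℓ hd0 hd2 ζ hζ
  obtain ⟨δ0, m, M, K, c, κ, p0, -, -, pM, -, pc, pκ, hb⟩ := hSk r ℓ hr hℓ hd0 hd2
  have hℓℓ : Axial ℓ ℓ := ⟨hℓ.kn, rfl, rfl, hℓ.axis⟩
  obtain ⟨δ0', m', M', K', c', κ', p0', -, -, pM', -, pc', pκ', hb'⟩ := hSk ℓ ℓ hℓ.kn hℓℓ rfl rfl
  have hself : rst (δ0' / 2) ℓ ℓ = ℓ := by
    funext t
    unfold rst Dd
    rw [sub_self, smul_zero, add_zero]
  obtain ⟨q1, -, -, -, -, -, q7, -, -, q10, q11⟩ := hb' (δ0' / 2) ⟨by linarith, by linarith⟩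
  rw [hself] at q1 q7 q10 q11
  have hev : ∀ᶠ δ in 𝓝[>] (0 : ℝ), δ ∈ Ioo (0 : ℝ) δ0 := Ioo_mem_nhdsGT p0
  set C := M / c ^ 2 * (16 + 2 / ((‖ζ.1‖ ^ 2 + ‖ζ.2‖ ^ 2) * κ / (4 * M ^ 2)) ^ 2) with hC
  set C' := M' / c' ^ 2 * (16 + 2 / ((‖ζ.1‖ ^ 2 + ‖ζ.2‖ ^ 2) * κ' / (4 * M' ^ 2)) ^ 2) with hC'
  show Tendsto (fun δ => ∫ t in Ioo (0 : ℝ) (1 / 2), (Ai (rst δ r ℓ) ζ t - Ai ℓ ζ t)) (𝓝[>] 0)
    (𝓝 (∫ t in Ioo (0 : ℝ) (1 / 2), (Ai r ζ t - Ai ℓ ζ t)))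
  refine tendsto_integral_filter_of_dominated_convergence (fun _ => C + C') ?_ ?_ ?_ ?_
  · filter_upwards [hev] with δ hδ
    exact (meas hCh (hb δ hδ).1 ζ).sub (meas hCh hℓ.kn ζ)
  · filter_upwards [hev] with δ hδ
    rw [ae_restrict_iff' measurableSet_Ioo]
    refine Eventually.of_forall fun t ht => ?_
    obtain ⟨g1, -, -, -, -, -, g7, -, -, g10, g11⟩ := hb δ hδ
    refine (norm_sub_le _ _).trans (add_le_add ?_ ?_)
    · exact bound hCh hKer g1 pM pc pκ (fun t => (g7 t).2) g10 g11 hζ ht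
    · exact bound hCh hKer q1 pM' pc' pκ' (fun t => (q7 t).2) q10 q11 hζ ht
  · have hfin : volume (Ioo (0 : ℝ) (1 / 2)) < ⊤ := by
      rw [Real.volume_Ioo]
      simp
    have : IsFiniteMeasure (volume.restrict (Ioo (0 : ℝ) (1 / 2))) :=
      ⟨by rwa [Measure.restrict_apply_univ]⟩
    exact integrable_const _
  · rw [ae_restrict_iff' measurableSet_Ioo]
    refine Eventually.of_forall fun t ht => ?_
    refine Tendsto.sub_const ?_ _
    refine tendsto_const_nhds.congr' ?_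
    have h1 : 0 < min t (1 / 2 - t) := lt_min ht.1 (by linarith [ht.2])
    filter_upwards [hev, Ioo_mem_nhdsGT h1] with δ hδ hδ1
    obtain ⟨-, g2, g3, -, -, g6, -⟩ := hb δ hδ
    have h2 : δ < t := lt_of_lt_of_le hδ1.2 (min_le_left _ _)
    have h3 : δ < 1 / 2 - t := lt_of_lt_of_le hδ1.2 (min_le_right _ _)
    have h4 : Fc (rst δ r ℓ) =ᶠ[𝓝 t] Fc r := by
      have h5 : Ioo δ (1 / 2 - δ) ∈ 𝓝 t := Ioo_mem_nhds h2 (by linarith)
      filter_upwards [h5] with s hs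
      unfold Fc ch ph
      rw [g6 s ⟨hs.1.le, hs.2.le⟩, g2, g3]
    unfold Ai
    rw [h4.deriv_eq, h4.eq_of_nhds]

end MP_e78765_gt
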