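import Pool.Agent.Lib.MP_e78765_gt.Spec2

/-! Symmetric parametrisation of a constant speed knot with symmetric image. -/

open scoped ContDiff Topology
open MeasureTheory Set Filter

namespace MP_e78765_gt

namespace Sym_aux

theorem mir_two (x : E3) : (mir x) 2 = -x 2 := by simp [mir]

theorem ext3 {x y : E3} (h0 : x 0 = y 0) (h1 : x 1 = y 1) (h2 : x 2 = y 2) : x = y := by
  ext i
  fin_cases i
  · exact h0
  · exact h1
  · exact h2

theorem mir_fix {x : E3} (h : x 2 = 0) : mir x = x := by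
  refine ext3 ?_ ?_ ?_
  · simp [mir]
  · simp [mir]
  · rw [mir_two, h, neg_zero]

theorem mir_contDiff : ContDiff ℝ ∞ mir := by
  rw [contDiff_euclidean]
  intro i
  fin_cases i
  · have : (fun x : E3 => (mir x) 0) = fun x => x 0 := by funext x; simp [mir]
    simp only [Fin.zero_eta, Fin.isValue]
    rw [this]
    fun_prop
  · have : (fun x : E3 => (mir x) 1) = fun x => x 1 := by funext x; simp [mir]
    simp only [Fin.mk_one, Fin.isValue]
    rw [this]
    fun_prop
  · have : (fun x : E3 => (mir x) 2) = fun x => -x 2 := by funext x; simp [mir]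
    simp only [Fin.reduceFinMk, Fin.isValue]
    rw [this]
    fun_prop

theorem per {f : ℝ → E3} (hf : IsKnot f) (t : ℝ) (n : ℤ) : f (t + n) = f t := by
  have hP1 : Function.Periodic f 1 := hf.periodic
  have := hP1.int_mul n t
  simpa using this

/-- The chord quotient tends to the speed. -/
theorem quot {r : ℝ → E3} {v : E3} {y : ℝ} (h : HasDerivAt r v y) :
    Tendsto (fun x => ‖r x - r y‖ / |x - y|) (𝓝[≠] y) (𝓝 ‖v‖) := by
  have h1 := (hasDerivAt_iff_tendsto_slope.1 h).norm
  refine h1.congr (fun x => ?_)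
  simp only [slope, vsub_eq_sub, norm_smul, norm_inv, Real.norm_eq_abs]
  rw [div_eq_inv_mul]

/-- A function with chord quotients of `r` preserved has derivative one. -/
theorem deriv_one {r : ℝ → E3} {L : ℝ} (hL : 0 < L) (hr : ∀ t, HasDerivAt r (deriv r t) t)
    (hsp : ∀ t, ‖deriv r t‖ = L) {T : ℝ} {u : ℝ → ℝ} (hu : ContinuousOn u (Icc 0 T))
    (hanti : StrictAntiOn u (Icc 0 T))
    (hiso : ∀ s ∈ Icc 0 T, ∀ t ∈ Icc 0 T, ‖r (u s) - r (u t)‖ = ‖r s - r t‖)
    {t0 : ℝ} (ht0 : t0 ∈ Ioo 0 T) : HasDerivAt u (-1) t0 := by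
  have hnh : Icc 0 T ∈ 𝓝 t0 := Icc_mem_nhds ht0.1 ht0.2
  have h0 : t0 ∈ Icc 0 T := ⟨ht0.1.le, ht0.2.le⟩
  rw [hasDerivAt_iff_tendsto_slope]
  have hA := quot (hr t0)
  rw [hsp] at hA
  have hB := quot (hr (u t0))
  rw [hsp] at hB
  have hut : Tendsto u (𝓝[≠] t0) (𝓝[≠] (u t0)) := by
    apply tendsto_nhdsWithin_of_tendsto_nhds_of_eventually_within
    · exact ((hu.continuousAt hnh).tendsto).mono_left nhdsWithin_le_nhds
    · filter_upwards [mem_nhdsWithin_of_mem_nhds hnh, self_mem_nhdsWithin] with t ht hne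
      intro h
      exact hne (hanti.injOn ht h0 h)
  have hC := hB.comp hut
  have hD := (hA.div hC hL.ne').neg
  rw [div_self hL.ne'] at hD
  refine hD.congr' ?_
  have hq : ∀ᶠ t in 𝓝[≠] t0, 0 < ‖r t - r t0‖ / |t - t0| := hA.eventually (lt_mem_nhds hL)
  filter_upwards [mem_nhdsWithin_of_mem_nhds hnh, self_mem_nhdsWithin, hq] with t ht hne hpos
  have hne' : t ≠ t0 := hne
  have hd : 0 < |t - t0| := abs_pos.2 (sub_ne_zero.2 hne')
  have hN : 0 < ‖r t - r t0‖ := by
    rcases (norm_nonneg (r t - r t0)).lt_or_eq with h | h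
    · exact h
    · rw [← h, zero_div] at hpos
      exact absurd hpos (lt_irrefl _)
  simp only [Function.comp, Pi.div_apply]
  rw [hiso t ht t0 h0]
  have hut0 : u t - u t0 ≠ 0 := by
    intro h
    exact hne' (hanti.injOn ht h0 (sub_eq_zero.1 h))
  have hd2 : 0 < |u t - u t0| := abs_pos.2 hut0
  rw [slope_def_field]
  have e1 : ‖r t - r t0‖ / |t - t0| / (‖r t - r t0‖ / |u t - u t0|) = |u t - u t0| / |t - t0| := by
    field_simp
  rw [e1]
  rcases lt_or_gt_of_ne hne' with h | h
  · have h2 := hanti ht h0 h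
    rw [abs_of_neg (sub_neg.2 h), abs_of_pos (sub_pos.2 h2)]
    rw [div_neg, neg_neg]
  · have h2 := hanti h0 ht h
    rw [abs_of_pos (sub_pos.2 h), abs_of_neg (sub_neg.2 h2)]
    rw [neg_div, neg_neg]

end Sym_aux

open Sym_aux

theorem tSym : S_Mir → S_Bd → S_Sym := by
  intro hMir _ r L hr hL hsp hsym hr0 htwo
  obtain ⟨m1, m2, m3, m4, m5, m6, m7, m8⟩ := hMir
  have hrc : Continuous r := hr.smooth.continuous
  have hder : ∀ t, HasDerivAt r (deriv r t) t := fun t =>
    (hr.smooth.differentiable (by simp)).differentiableAt.hasDerivAt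
  have hfc : Continuous (fun t => (r t) 2) := by fun_prop
  have hr1 : r 1 = r 0 := by
    have := hr.periodic 0
    rw [← this]; norm_num
  have hfract : ∀ t, r (Int.fract t) = r t := by
    intro t
    have := per hr (Int.fract t) ⌊t⌋
    rw [← this, Int.fract_add_floor]
  have hinj : ∀ s t, r s = r t → |t - s| < 1 → s = t := by
    intro s t hst hlt
    obtain ⟨n, hn⟩ := hr.inj s t hst
    have : |(n : ℝ)| < 1 := by
      have e : (n : ℝ) = t - s := by rw [hn]; ring
      rw [e]; exact hlt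
    have hn0 : n = 0 := by
      have h3 : |n| < 1 := by exact_mod_cast this
      exact Int.abs_lt_one_iff.1 h3
    rw [hn, hn0]; simp
  -- the second point
  obtain ⟨T, hT0, hT1, hTz, hTall⟩ : ∃ T : ℝ, 0 < T ∧ T < 1 ∧ (r T) 2 = 0 ∧
      ∀ t, (r t) 2 = 0 → r t = r 0 ∨ r t = r T := by
    obtain ⟨x, y, hxy, hS⟩ := Set.ncard_eq_two.1 htwo
    have h0 : r 0 ∈ {x ∈ range r | x 2 = 0} := ⟨⟨0, rfl⟩, hr0⟩
    have hex : ∃ z : E3, z ≠ r 0 ∧ {x ∈ range r | x 2 = 0} = {r 0, z} := by
      have h0' := h0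
      rw [hS] at h0'
      rcases h0' with h | h
      · exact ⟨y, by rw [h]; exact hxy.symm, by rw [hS, h]⟩
      · have h' : r 0 = y := h
        exact ⟨x, by rw [h']; exact hxy, by rw [hS, h']; exact Set.pair_comm _ _⟩
    obtain ⟨z, hz0, hS2⟩ := hex
    have hz : z ∈ {x ∈ range r | x 2 = 0} := by rw [hS2]; right; rfl
    obtain ⟨⟨t, ht⟩, hz2⟩ := hz
    have hne : r (Int.fract t) ≠ r 0 := by rw [hfract, ht]; exact hz0
    refine ⟨Int.fract t, ?_, Int.fract_lt_one t, ?_, ?_⟩
    · rcases (Int.fract_nonneg t).lt_or_eq with h | h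
      · exact h
      · rw [← h] at hne
        exact absurd rfl hne
    · rw [hfract, ht]; exact hz2
    · intro s hs
      have : r s ∈ {x ∈ range r | x 2 = 0} := ⟨⟨s, rfl⟩, hs⟩
      rw [hS2] at this
      rcases this with h | h
      · exact Or.inl h
      · right
        rw [hfract, ht]
        exact h
  have hnz : ∀ t, 0 < t → t < 1 → t ≠ T → (r t) 2 ≠ 0 := by
    intro t h0 h1 hT h
    rcases hTall t h with h2 | h2
    · have := hinj t 0 h2 (by rw [zero_sub, abs_neg, abs_of_pos h0]; exact h1)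
      exact h0.ne' this
    · have := hinj t T h2 (by rw [abs_lt]; constructor <;> linarith)
      exact hT this
  -- constant sign on preconnected sets
  have hsign : ∀ S : Set ℝ, IsPreconnected S → (∀ t ∈ S, (r t) 2 ≠ 0) → ∀ x ∈ S, ∀ y ∈ S,
      0 < (r x) 2 → 0 < (r y) 2 := by
    intro S hS hne x hx y hy hpos
    by_contra hcon
    push Not at hcon
    have := hS.intermediate_value hy hx hfc.continuousOn
    obtain ⟨z, hz, hz0⟩ := this ⟨hcon, hpos.le⟩
    exact hne z hz hz0
  -- the map u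
  have hex : ∀ t : ℝ, ∃ u : ℝ, t ∈ Icc 0 T → u ∈ Icc T 1 ∧ r u = mir (r t) := by
    intro t
    by_cases ht : t ∈ Icc 0 T
    · rcases ht.1.lt_or_eq with h0 | h0
      · rcases ht.2.lt_or_eq with h1 | h1
        · have hmem : mir (r t) ∈ range r := by rw [← hsym]; exact ⟨r t, ⟨t, rfl⟩, rfl⟩
          obtain ⟨w, hw⟩ := hmem
          have hw' : r (Int.fract w) = mir (r t) := by rw [hfract, hw]
          have hf : (r (Int.fract w)) 2 = -(r t) 2 := by rw [hw', mir_two]
          have htn := hnz t h0 (by linarith) h1.ne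
          refine ⟨Int.fract w, fun _ => ⟨⟨?_, (Int.fract_lt_one w).le⟩, hw'⟩⟩
          by_contra hcon
          push Not at hcon
          have hfw0 : 0 < Int.fract w := by
            rcases (Int.fract_nonneg w).lt_or_eq with h | h
            · exact h
            · exfalso
              rw [← h, hr0] at hf
              apply htn; linarith
          have hne : ∀ s ∈ Ioo 0 T, (r s) 2 ≠ 0 := fun s hs =>
            hnz s hs.1 (by linarith [hs.2]) hs.2.ne
          rcases lt_or_gt_of_ne htn with h | h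
          · have := hsign (Ioo 0 T) isPreconnected_Ioo hne (Int.fract w) ⟨hfw0, hcon⟩ t ⟨h0, h1⟩
              (by rw [hf]; linarith)
            linarith
          · have := hsign (Ioo 0 T) isPreconnected_Ioo hne t ⟨h0, h1⟩ (Int.fract w) ⟨hfw0, hcon⟩ h
            rw [hf] at this
            linarith
        · exact ⟨T, fun _ => ⟨⟨le_rfl, hT1.le⟩, by rw [h1, mir_fix hTz]⟩⟩
      · exact ⟨1, fun _ => ⟨⟨hT1.le, le_rfl⟩, by rw [← h0, mir_fix hr0, hr1]⟩⟩
    · exact ⟨0, fun h => absurd h ht⟩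
  choose u hu using hex
  have hu1 : ∀ t ∈ Icc 0 T, u t ∈ Icc T 1 := fun t ht => (hu t ht).1
  have hu2 : ∀ t ∈ Icc 0 T, r (u t) = mir (r t) := fun t ht => (hu t ht).2
  have hinjT : ∀ s ∈ Icc T 1, ∀ t ∈ Icc T 1, r s = r t → s = t := by
    intro s hs t ht hst
    apply hinj s t hst
    rw [abs_lt]
    constructor <;> linarith [hs.1, hs.2, ht.1, ht.2]
  have hucont : ContinuousOn u (Icc 0 T) := by
    rw [continuousOn_iff_continuous_domRestrict]
    have he : Topology.IsClosedEmbedding (fun x : Icc T 1 => r x) := by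
      apply Continuous.isClosedEmbedding
      · exact hrc.comp continuous_subtype_val
      · intro x y hxy
        exact Subtype.ext (hinjT x x.2 y y.2 hxy)
    have hg : Continuous (fun t : Icc 0 T => (⟨u t, hu1 t t.2⟩ : Icc T 1)) := by
      rw [he.isInducing.continuous_iff]
      have : ((fun x : Icc T 1 => r x) ∘ fun t : Icc 0 T => (⟨u t, hu1 t t.2⟩ : Icc T 1)) =
          fun t : Icc 0 T => mir (r t) := by
        funext t
        exact hu2 t t.2
      rw [this]
      exact mir_contDiff.continuous.comp (hrc.comp continuous_subtype_val)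
    exact continuous_subtype_val.comp hg
  have hmirinj : ∀ x y : E3, mir x = mir y → x = y := by
    intro x y h
    have := congrArg mir h
    rwa [m4, m4] at this
  have huinj : InjOn u (Icc 0 T) := by
    intro s hs t ht hst
    have e : mir (r s) = mir (r t) := by rw [← hu2 s hs, ← hu2 t ht, hst]
    apply hinj s t (hmirinj _ _ e)
    rw [abs_lt]
    constructor <;> linarith [hs.1, hs.2, ht.1, ht.2]
  have h0mem : (0 : ℝ) ∈ Icc 0 T := ⟨le_rfl, hT0.le⟩
  have hTmem : T ∈ Icc 0 T := ⟨hT0.le, le_rfl⟩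
  have hu0 : u 0 = 1 := by
    apply hinjT _ (hu1 0 h0mem) _ ⟨hT1.le, le_rfl⟩
    rw [hu2 0 h0mem, mir_fix hr0, hr1]
  have huT : u T = T := by
    apply hinjT _ (hu1 T hTmem) _ ⟨le_rfl, hT1.le⟩
    rw [hu2 T hTmem, mir_fix hTz]
  have hanti : StrictAntiOn u (Icc 0 T) :=
    ContinuousOn.strictAntiOn_of_injOn_Icc hT0.le (by rw [hu0, huT]; exact hT1.le) hucont huinj
  have hiso : ∀ s ∈ Icc 0 T, ∀ t ∈ Icc 0 T, ‖r (u s) - r (u t)‖ = ‖r s - r t‖ := by
    intro s hs t ht
    rw [hu2 s hs, hu2 t ht, ← m3, m5]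
  have hulin : ∀ t ∈ Icc 0 T, u t = 1 - t := by
    intro t ht
    rcases ht.1.lt_or_eq with h0 | h0
    · obtain ⟨c, hc, hceq⟩ := exists_hasDerivAt_eq_slope u (fun _ => (-1 : ℝ)) h0
        (hucont.mono (Icc_subset_Icc le_rfl ht.2))
        (fun x hx => deriv_one hL hder hsp hucont hanti hiso ⟨hx.1, lt_of_lt_of_le hx.2 ht.2⟩)
      rw [hu0, sub_zero] at hceq
      have : u t - 1 = -1 * t := by
        rw [hceq]; field_simp
      linarith
    · rw [← h0, hu0, sub_zero]
  have hThalf : T = 1 / 2 := by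
    have := hulin T hTmem
    rw [huT] at this
    linarith
  have hhalf : ∀ t ∈ Icc (0 : ℝ) (1 / 2), r (-t) = mir (r t) := by
    intro t ht
    have ht' : t ∈ Icc 0 T := by rw [hThalf]; exact ht
    rw [← hu2 t ht', hulin t ht']
    have := hr.periodic (-t)
    rw [← this]
    congr 1
    ring
  have hall : ∀ t, r (-t) = mir (r t) := by
    intro t
    have h1 := Int.floor_le (t + 1 / 2)
    have h2 := Int.lt_floor_add_one (t + 1 / 2)
    set n := ⌊t + 1 / 2⌋ with hn
    have e1 : r t = r (t - n) := by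
      have := per hr (t - n) n
      rw [← this]; congr 1; ring
    have e2 : r (-t) = r (-(t - n)) := by
      have := per hr (-t) n
      rw [← this]; congr 1; ring
    rw [e1, e2]
    set s := t - n with hs
    have hs1 : -(1 / 2) ≤ s := by rw [hs]; linarith
    have hs2 : s < 1 / 2 := by rw [hs]; linarith
    rcases le_or_gt 0 s with h | h
    · exact hhalf s ⟨h, hs2.le⟩
    · have := hhalf (-s) ⟨by linarith, by linarith⟩
      rw [neg_neg] at this
      rw [this, m4]
  have hne : ∀ s ∈ Ioo (0 : ℝ) (1 / 2), (r s) 2 ≠ 0 := fun s hs =>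
    hnz s hs.1 (by linarith [hs.2]) (by rw [hThalf]; exact hs.2.ne)
  have hq : (1 / 4 : ℝ) ∈ Ioo (0 : ℝ) (1 / 2) := by constructor <;> norm_num
  rcases lt_or_gt_of_ne (hne _ hq) with hneg | hpos
  · right
    have hk : IsKnot (fun t => mir (r t)) := by
      refine ⟨mir_contDiff.comp hr.smooth, fun t => by simp only [hr.periodic t], ?_, ?_⟩
      · intro t
        rw [(m8 r _ t (hder t)).deriv, ← norm_pos_iff, m5, hsp]
        exact hL
      · intro s t hst
        exact hr.inj s t (hmirinj _ _ hst)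
    refine ⟨hk, ?_, ?_⟩
    · intro t
      rw [hall]
    · intro t ht
      rw [mir_two]
      by_contra hcon
      push Not at hcon
      have h3 : 0 < (r t) 2 := by
        rcases lt_or_gt_of_ne (hne t ht) with h | h
        · linarith
        · exact h
      have := hsign _ isPreconnected_Ioo hne t ht (1 / 4) hq h3
      linarith
  · left
    refine ⟨hr, hall, ?_⟩
    intro t ht
    exact hsign _ isPreconnected_Ioo hne (1 / 4) hq t ht hpos

end MP_e78765_gt
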