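import Pool.Agent.Lib.MP_e78765_gt.Spec5

/-!
# MP_e78765_gt, THEOREM R4, module Tan: tangential fields have first variation 0 (helper24)
-/

set_option autoImplicit false

open scoped ContDiff Topology
open MeasureTheory Set Filter

namespace MP_e78765_gt

namespace Tan_aux

theorem deriv_bound (τ : ℝ → ℝ) (hs : ContDiff ℝ ∞ τ) (hp : ∀ t, τ (t + 1) = τ t) :
    ∃ C : ℝ, 0 ≤ C ∧ ∀ t, |deriv τ t| ≤ C := by
  have hc : Continuous (deriv τ) := hs.continuous_deriv (by norm_num)
  have hper : Function.Periodic (deriv τ) 1 := by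
    intro t
    have h1 : (fun t => τ (t + 1)) = τ := funext hp
    have h2 : deriv (fun t => τ (t + 1)) t = deriv τ (t + 1) := deriv_comp_add_const τ 1 t
    rw [h1] at h2
    exact h2.symm
  obtain ⟨C, hC⟩ := (isCompact_Icc : IsCompact (Icc (0 : ℝ) 1)).exists_bound_of_continuousOn
    hc.continuousOn
  refine ⟨|C|, abs_nonneg _, fun t => ?_⟩
  obtain ⟨y, hy, hty⟩ := hper.exists_mem_Ico₀ (by norm_num : (0 : ℝ) < 1) t
  rw [hty]
  exact le_trans (hC y ⟨hy.1, hy.2.le⟩) (le_abs_self C)

end Tan_aux

theorem tTan : S_FV → S_Rep → S_Tan := by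
  intro hFV hRep f τ hf hτ hper
  obtain ⟨C, hC0, hC⟩ := Tan_aux.deriv_bound τ hτ hper
  have ha0 : 0 < 1 / (C + 1) := by positivity
  have hτd : Differentiable ℝ τ := hτ.differentiable (by norm_num)
  have hfd : Differentiable ℝ f := hf.smooth.differentiable (by norm_num)
  -- the family
  have hJS : JS (fun a t => f (t + a * τ t)) (1 / (C + 1)) := by
    refine ⟨?_, ?_⟩
    · apply ContDiff.contDiffOn
      exact hf.smooth.comp (contDiff_snd.add (contDiff_fst.mul (hτ.comp contDiff_snd)))
    · intro a t
      have h1 : t + 1 + a * τ (t + 1) = t + a * τ t + 1 := by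
        rw [hper t]; ring
      change f (t + 1 + a * τ (t + 1)) = f (t + a * τ t)
      rw [h1, hf.periodic]
  have h0 : (fun t => f (t + 0 * τ t)) = f := by
    funext t
    simp
  have hK : IsKnot ((fun a t => f (t + a * τ t)) (0 : ℝ)) := by
    change IsKnot (fun t => f (t + 0 * τ t))
    rw [h0]
    exact hf
  have hD : ∀ t, HasDerivAt (fun a => (fun a t => f (t + a * τ t)) a t)
      (τ t • deriv f t) (0 : ℝ) := by
    intro t
    have h1 : HasDerivAt (fun a : ℝ => t + a * τ t) (τ t) 0 := by
      have h2 := ((hasDerivAt_id (0 : ℝ)).mul_const (τ t)).const_add t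
      simpa using h2
    have h3 : HasDerivAt f (deriv f t) (t + 0 * τ t) := by
      have h4 : t + 0 * τ t = t := by ring
      rw [h4]
      exact (hfd t).hasDerivAt
    exact HasDerivAt.scomp (0 : ℝ) h3 h1
  have hmain := hFV (fun a t => f (t + a * τ t)) (1 / (C + 1)) (fun t => τ t • deriv f t) ha0
    hJS hK hD
  have hconst : HasDerivAt (fun a : ℝ => energy (fun t => f (t + a * τ t))) 0 0 := by
    refine (hasDerivAt_const (0 : ℝ) (energy f)).congr_of_eventuallyEq ?_
    have hnb : Ioo (-(1 / (C + 1))) (1 / (C + 1)) ∈ 𝓝 (0 : ℝ) :=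
      Ioo_mem_nhds (by linarith) ha0
    filter_upwards [hnb] with a ha
    have hder : ∀ t, HasDerivAt (fun t => t + a * τ t) (1 + a * deriv τ t) t := by
      intro t
      exact (hasDerivAt_id t).add ((hτd t).hasDerivAt.const_mul a)
    obtain ⟨-, -, -, hE⟩ := hRep f (fun t => t + a * τ t) hf
      (contDiff_id.add (contDiff_const.mul hτ)) (by
        intro t
        rw [(hder t).deriv]
        have h1 : |a * deriv τ t| < 1 := by
          rw [abs_mul]
          have h2 : |a| < 1 / (C + 1) := abs_lt.2 ha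
          calc |a| * |deriv τ t| ≤ |a| * C := mul_le_mul_of_nonneg_left (hC t) (abs_nonneg a)
            _ ≤ |a| * (C + 1) := mul_le_mul_of_nonneg_left (by linarith) (abs_nonneg a)
            _ < 1 / (C + 1) * (C + 1) := mul_lt_mul_of_pos_right h2 (by linarith)
            _ = 1 := by field_simp
        have h3 := (abs_lt.1 h1).1
        linarith) (by
        intro t
        change t + 1 + a * τ (t + 1) = t + a * τ t + 1
        rw [hper t]; ring)
    exact hE
  have hu := hmain.unique hconst
  change LL (fun t => f (t + 0 * τ t)) (fun t => τ t • deriv f t) = 0 at hu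
  rw [h0] at hu
  exact hu

end MP_e78765_gt
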