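import Pool.Agent.Lib.MP_e78765_gt.Spec

/-!
# The uniform bound of the integrand in a chart (MP_e78765_gt)
-/

open scoped ContDiff Topology
open MeasureTheory Set Filter

namespace MP_e78765_gt

namespace U_aux

lemma deriv_cd {Φ : ℝ → E3} {t : ℝ} (h : ContDiffAt ℝ ∞ Φ t) :
    ContDiffAt ℝ ∞ (deriv Φ) t := by
  have h1 : ContDiffAt ℝ ∞ (fderiv ℝ Φ) t := h.fderiv_right (by simp)
  have h2 : ContDiffAt ℝ ∞ (fun s => fderiv ℝ Φ s 1) t := h1.clm_apply contDiffAt_const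
  exact h2

/-- Taylor bound. -/
lemma taylor {Φ : ℝ → E3} {b : ℝ} (h : ∀ t ∈ Icc (-b) b, ContDiffAt ℝ ∞ Φ t) :
    ∃ K : ℝ, 0 ≤ K ∧ ∀ s ∈ Icc (-b) b, ∀ t ∈ Icc (-b) b,
      ‖Φ t - Φ s - (t - s) • deriv Φ s‖ ≤ K * (t - s) ^ 2 := by
  have hc : ContinuousOn (deriv (deriv Φ)) (Icc (-b) b) := fun t ht =>
    (deriv_cd (deriv_cd (h t ht))).continuousAt.continuousWithinAt
  obtain ⟨K, hK⟩ := isCompact_Icc.exists_bound_of_continuousOn hc
  refine ⟨|K|, abs_nonneg K, ?_⟩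
  intro s hs t ht
  have hsub : uIcc s t ⊆ Icc (-b) b := by
    rw [← uIcc_of_le (by linarith [hs.1, hs.2] : -b ≤ b)]
    exact uIcc_subset_uIcc (by rwa [uIcc_of_le (by linarith [hs.1, hs.2] : -b ≤ b)])
      (by rwa [uIcc_of_le (by linarith [hs.1, hs.2] : -b ≤ b)])
  have hlip : ∀ v ∈ Icc (-b) b, ‖deriv Φ v - deriv Φ s‖ ≤ |K| * ‖v - s‖ := by
    intro v hv
    exact Convex.norm_image_sub_le_of_norm_deriv_le
      (fun x hx => (deriv_cd (h x hx)).differentiableAt (by simp))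
      (fun x hx => (hK x hx).trans (le_abs_self K)) (convex_Icc _ _) hs hv
  have hd : ∀ w ∈ uIcc s t, HasDerivWithinAt (fun w => Φ w - w • deriv Φ s)
      (deriv Φ w - deriv Φ s) (uIcc s t) w := by
    intro w hw
    have h1 : HasDerivAt Φ (deriv Φ w) w :=
      ((h w (hsub hw)).differentiableAt (by simp)).hasDerivAt
    have h2 : HasDerivAt (fun w : ℝ => w • deriv Φ s) ((1 : ℝ) • deriv Φ s) w :=
      (hasDerivAt_id w).smul_const _
    rw [one_smul] at h2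
    exact (h1.sub h2).hasDerivWithinAt
  have hb : ∀ w ∈ uIcc s t, ‖deriv Φ w - deriv Φ s‖ ≤ |K| * |t - s| := by
    intro w hw
    refine (hlip w (hsub hw)).trans ?_
    refine mul_le_mul_of_nonneg_left ?_ (abs_nonneg K)
    rw [Real.norm_eq_abs]
    rw [mem_uIcc] at hw
    rcases hw with hw | hw
    · rw [abs_of_nonneg (by linarith [hw.1]), abs_of_nonneg (by linarith [hw.1, hw.2])]
      linarith [hw.2]
    · rw [abs_of_nonpos (by linarith [hw.2]), abs_of_nonpos (by linarith [hw.1, hw.2])]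
      linarith [hw.1]
  have h3 := Convex.norm_image_sub_le_of_norm_hasDerivWithin_le hd hb (convex_uIcc s t)
    left_mem_uIcc right_mem_uIcc
  have h4 : Φ t - t • deriv Φ s - (Φ s - s • deriv Φ s) = Φ t - Φ s - (t - s) • deriv Φ s := by
    rw [sub_smul]
    abel
  rw [h4, Real.norm_eq_abs, mul_assoc, ← sq, sq_abs] at h3
  exact h3

/-- Chord bound. -/
lemma chord {Φ : ℝ → E3} {b : ℝ} (hb : 0 < b) (h : ∀ t ∈ Icc (-b) b, ContDiffAt ℝ ∞ Φ t)
    {μ : ℝ} (hμ : 0 < μ) (hd : ∀ t ∈ Icc (-b) b, μ ≤ ‖deriv Φ t‖)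
    (hinj : ∀ s ∈ Icc (-b) b, ∀ t ∈ Icc (-b) b, Φ s = Φ t → s = t) :
    ∃ c : ℝ, 0 < c ∧ ∀ s ∈ Icc (-b) b, ∀ t ∈ Icc (-b) b, c * |t - s| ≤ ‖Φ t - Φ s‖ := by
  obtain ⟨K, hK0, hK⟩ := taylor h
  set δ : ℝ := μ / (2 * (K + 1)) with hδ
  have hδ0 : 0 < δ := by positivity
  have hKδ : K * δ ≤ μ / 2 := by
    have h1 : (K + 1) * δ = μ / 2 := by
      rw [hδ]
      field_simp
    nlinarith
  have hnear : ∀ s ∈ Icc (-b) b, ∀ t ∈ Icc (-b) b, |t - s| ≤ δ → μ / 2 * |t - s| ≤ ‖Φ t - Φ s‖ := by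
    intro s hs t ht hst
    have h1 := hK s hs t ht
    have h2 : ‖(t - s) • deriv Φ s‖ ≤ ‖Φ t - Φ s‖ + ‖Φ t - Φ s - (t - s) • deriv Φ s‖ := by
      have h3 : (t - s) • deriv Φ s = (Φ t - Φ s) - (Φ t - Φ s - (t - s) • deriv Φ s) := by abel
      calc ‖(t - s) • deriv Φ s‖ = ‖(Φ t - Φ s) - (Φ t - Φ s - (t - s) • deriv Φ s)‖ := by
            rw [← h3]
        _ ≤ _ := norm_sub_le _ _
    rw [norm_smul, Real.norm_eq_abs] at h2
    have h4 : |t - s| * μ ≤ |t - s| * ‖deriv Φ s‖ :=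
      mul_le_mul_of_nonneg_left (hd s hs) (abs_nonneg _)
    have h5 : K * (t - s) ^ 2 ≤ μ / 2 * |t - s| := by
      have h6 : (t - s) ^ 2 = |t - s| * |t - s| := by rw [← sq, sq_abs]
      rw [h6]
      calc K * (|t - s| * |t - s|) ≤ K * (δ * |t - s|) :=
            mul_le_mul_of_nonneg_left (mul_le_mul_of_nonneg_right hst (abs_nonneg _)) hK0
        _ = (K * δ) * |t - s| := by ring
        _ ≤ μ / 2 * |t - s| := mul_le_mul_of_nonneg_right hKδ (abs_nonneg _)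
    linarith
  have hcont : ContinuousOn Φ (Icc (-b) b) := fun t ht => (h t ht).continuousAt.continuousWithinAt
  set S : Set (ℝ × ℝ) := (Icc (-b) b ×ˢ Icc (-b) b) ∩ {z | δ ≤ |z.2 - z.1|} with hS
  have hScomp : IsCompact S := by
    refine (isCompact_Icc.prod isCompact_Icc).inter_right ?_
    exact isClosed_le continuous_const ((continuous_snd.sub continuous_fst).abs)
  have hf : ContinuousOn (fun z : ℝ × ℝ => ‖Φ z.2 - Φ z.1‖) S := by
    refine ContinuousOn.norm (ContinuousOn.sub ?_ ?_)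
    · exact hcont.comp continuous_snd.continuousOn (fun z hz => hz.1.2)
    · exact hcont.comp continuous_fst.continuousOn (fun z hz => hz.1.1)
  have hfar : ∃ ν : ℝ, 0 < ν ∧ ∀ z ∈ S, ν ≤ ‖Φ z.2 - Φ z.1‖ := by
    rcases S.eq_empty_or_nonempty with hne | hne
    · exact ⟨1, one_pos, fun z hz => by simp [hne] at hz⟩
    · obtain ⟨z0, hz0, hmin⟩ := hScomp.exists_isMinOn hne hf
      refine ⟨‖Φ z0.2 - Φ z0.1‖, ?_, fun z hz => hmin hz⟩
      rw [norm_pos_iff, sub_ne_zero]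
      intro h1
      have h2 := hinj _ hz0.1.2 _ hz0.1.1 h1
      have h3 : δ ≤ |z0.2 - z0.1| := hz0.2
      rw [h2, sub_self, abs_zero] at h3
      linarith
  obtain ⟨ν, hν0, hν⟩ := hfar
  refine ⟨min (μ / 2) (ν / (2 * b)), lt_min (by positivity) (by positivity), ?_⟩
  intro s hs t ht
  by_cases hst : |t - s| ≤ δ
  · exact (mul_le_mul_of_nonneg_right (min_le_left _ _) (abs_nonneg _)).trans (hnear s hs t ht hst)
  · have h1 : ν ≤ ‖Φ t - Φ s‖ := hν (s, t) ⟨⟨hs, ht⟩, le_of_lt (not_le.1 hst)⟩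
    have h2 : |t - s| ≤ 2 * b := by
      rw [abs_le]
      constructor <;> linarith [hs.1, hs.2, ht.1, ht.2]
    calc min (μ / 2) (ν / (2 * b)) * |t - s| ≤ ν / (2 * b) * (2 * b) :=
          mul_le_mul (min_le_right _ _) h2 (abs_nonneg _) (by positivity)
      _ = ν := by field_simp
      _ ≤ _ := h1

lemma est {a d : E3} {du D e C : ℝ} (h : ‖D • a - du • d‖ ≤ C * e ^ 2) (hD : 1 / 4 * |e| ≤ |D|)
    (he : e ≠ 0) (hC : 0 ≤ C) : ‖a - (du / D) • d‖ ≤ 4 * C * |e| := by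
  have he' : 0 < |e| := abs_pos.2 he
  have hD0 : 0 < |D| := by linarith
  have hDne : D ≠ 0 := abs_pos.1 hD0
  have h1 : a - (du / D) • d = D⁻¹ • (D • a - du • d) := by
    rw [smul_sub, smul_smul, smul_smul, inv_mul_cancel₀ hDne, one_smul, div_eq_inv_mul]
  rw [h1, norm_smul, norm_inv, Real.norm_eq_abs, inv_mul_le_iff₀ hD0]
  refine h.trans ?_
  have h2 : e ^ 2 = |e| * |e| := by rw [← sq, sq_abs]
  rw [h2]
  have h3 : 0 ≤ C * |e| := mul_nonneg hC he'.le
  nlinarith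

end U_aux

open U_aux in
theorem tU : S_Ua → S_Ub → S_Mu → S_Sl → S_U := by
  intro hUa hUb hMu hSl Φ b τ hb hτ hcd h0 hne hinj
  obtain ⟨K, hK0, hK⟩ := taylor hcd
  obtain ⟨ε0, hε0, C0, hC0, hm⟩ := hUb Φ b τ hb hτ hcd h0 hne hinj
  obtain ⟨C', hC'0, hC'⟩ := hUa K C0 hK0 hC0
  have hdc : ContinuousOn (fun t => ‖deriv Φ t‖) (Icc (-b) b) := fun t ht =>
    ((deriv_cd (hcd t ht)).continuousAt.norm).continuousWithinAt
  have hnemp : (Icc (-b) b).Nonempty := ⟨0, by constructor <;> linarith⟩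
  obtain ⟨t0, ht0, hmin⟩ := isCompact_Icc.exists_isMinOn hnemp hdc
  obtain ⟨t1, ht1, hmax⟩ := isCompact_Icc.exists_isMaxOn hnemp hdc
  set μ : ℝ := ‖deriv Φ t0‖ with hμ
  set M : ℝ := ‖deriv Φ t1‖ with hM
  have hμ0 : 0 < μ := norm_pos_iff.2 (hne t0 ht0)
  have hμ' : ∀ t ∈ Icc (-b) b, μ ≤ ‖deriv Φ t‖ := fun t ht => hmin ht
  have hM' : ∀ t ∈ Icc (-b) b, ‖deriv Φ t‖ ≤ M := fun t ht => hmax ht
  have hM0 : 0 < M := hμ0.trans_le (hμ' t1 ht1)
  obtain ⟨c, hc0, hc⟩ := chord hb hcd hμ0 hμ' hinj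
  refine ⟨ε0, hε0, 2048 * C' ^ 2 * M / (μ * c ^ 2), ?_⟩
  intro ε hε s hs t ht
  obtain ⟨sl1, sl2, sl3, sl4, sl5, sl6⟩ := hSl ε τ hε.1 hτ
  obtain ⟨m1, m2, m3⟩ := hm ε hε
  set m : ℝ → ℝ := fun t => Real.exp (τ * cut ε (Φ t)) with hmdef
  have hx : (fun t => sl ε τ (Φ t)) = fun t => m t • Φ t := rfl
  have hderx : ∀ w ∈ Icc (-b) b,
      deriv (fun t => sl ε τ (Φ t)) w = m w • deriv Φ w + deriv m w • Φ w := by
    intro w hw
    rw [hx]
    exact ((m1 w hw).hasDerivAt.smul ((hcd w hw).differentiableAt (by simp)).hasDerivAt).deriv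
  have hderx' : ∀ w ∈ Icc (-b) b,
      deriv (fun t => sl ε τ (Φ t)) w = fderiv ℝ (sl ε τ) (Φ w) (deriv Φ w) := by
    intro w hw
    have h1 : HasFDerivAt (sl ε τ) (fderiv ℝ (sl ε τ) (Φ w)) (Φ w) :=
      ((sl1.differentiable (by simp)) _).hasFDerivAt
    exact (h1.comp_hasDerivAt w ((hcd w hw).differentiableAt (by simp)).hasDerivAt).deriv
  have hlow : ∀ w ∈ Icc (-b) b, μ / 2 ≤ ‖deriv (fun t => sl ε τ (Φ t)) w‖ := by
    intro w hw
    rw [hderx' w hw]
    have h1 := (sl5 (Φ w) (deriv Φ w)).1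
    have h2 := hμ' w hw
    linarith
  have hupp : ∀ w ∈ Icc (-b) b, ‖deriv (fun t => sl ε τ (Φ t)) w‖ ≤ 2 * M := by
    intro w hw
    rw [hderx' w hw]
    have h1 := (sl5 (Φ w) (deriv Φ w)).2
    have h2 := hM' w hw
    linarith
  by_cases hst : s = t
  · subst hst
    have h1 : Q (fun t => sl ε τ (Φ t)) s s = 0 := by
      unfold Q qf
      simp
    rw [h1]
    positivity
  · have hts : t - s ≠ 0 := sub_ne_zero.2 (Ne.symm hst)
    have hst' : s - t ≠ 0 := sub_ne_zero.2 hst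
    -- monotonicity of `u`
    have hdu : ∀ w ∈ Icc (-b) b, HasDerivAt (fun t => t * m t) (m w + w * deriv m w) w := by
      intro w hw
      have h1 : HasDerivAt (fun t => t * m t) (1 * m w + w * deriv m w) w :=
        (hasDerivAt_id w).mul (m1 w hw).hasDerivAt
      rwa [one_mul] at h1
    have hmono : ∀ x ∈ Icc (-b) b, ∀ y ∈ Icc (-b) b, x ≤ y →
        1 / 4 * (y - x) ≤ (fun t => t * m t) y - (fun t => t * m t) x := by
      refine Convex.mul_sub_le_image_sub_of_le_deriv (convex_Icc _ _) ?_ ?_ ?_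
      · exact fun w hw => (hdu w hw).continuousAt.continuousWithinAt
      · exact fun w hw => (hdu w (interior_subset hw)).differentiableAt.differentiableWithinAt
      · intro w hw
        rw [(hdu w (interior_subset hw)).deriv]
        exact (m2 w (interior_subset hw)).2.2.2
    have hDlow : ∀ x ∈ Icc (-b) b, ∀ y ∈ Icc (-b) b, 1 / 4 * |y - x| ≤ |y * m y - x * m x| := by
      intro x hx y hy
      rcases le_total x y with hxy | hxy
      · have h1 := hmono x hx y hy hxy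
        simp only at h1
        rw [abs_of_nonneg (by linarith : (0 : ℝ) ≤ y - x)]
        exact h1.trans (le_abs_self _)
      · have h1 := hmono y hy x hx hxy
        simp only at h1
        rw [abs_sub_comm y x, abs_sub_comm (y * m y), abs_of_nonneg (by linarith : (0 : ℝ) ≤ x - y)]
        exact h1.trans (le_abs_self _)
    have hua := hC' Φ (deriv Φ) m (deriv m) b hb h0 hK
      (fun w hw => ⟨(m2 w hw).1, (m2 w hw).2.1, (m2 w hw).2.2.1⟩) m3
    have e1 := est (hua s hs t ht) (hDlow s hs t ht) hts hC'0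
    have e2 := est (hua t ht s hs) (hDlow t ht s hs) hst' hC'0
    rw [← hderx s hs] at e1
    rw [← hderx t ht] at e2
    set a : E3 := deriv (fun t => sl ε τ (Φ t)) s with ha
    set a' : E3 := deriv (fun t => sl ε τ (Φ t)) t with ha'
    set D : ℝ := s * m s - t * m t with hD
    have hDt : t * m t - s * m s = -D := by rw [hD]; ring
    have e1' : ‖a - ((m s + s * deriv m s) / D) • (m s • Φ s - m t • Φ t)‖ ≤ 4 * C' * |t - s| := by
      have h1 : ((m s + s * deriv m s) / (t * m t - s * m s)) • (m t • Φ t - m s • Φ s)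
          = ((m s + s * deriv m s) / D) • (m s • Φ s - m t • Φ t) := by
        rw [hDt, div_neg, neg_smul, ← smul_neg, neg_sub]
      rw [h1] at e1
      exact e1
    have hDpos : 0 < |D| := by
      have h1 := hDlow t ht s hs
      have h2 : 0 < |s - t| := abs_pos.2 hst'
      rw [hD]
      linarith
    have hsign : 0 ≤ ((m s + s * deriv m s) / D) * ((m t + t * deriv m t) / D) := by
      rw [div_mul_div_comm]
      have h1 := (m2 s hs).2.2.2
      have h2 := (m2 t ht).2.2.2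
      refine div_nonneg (mul_nonneg ?_ ?_) (mul_self_nonneg D)
      · exact (by norm_num : (0 : ℝ) ≤ 1 / 4).trans h1
      · exact (by norm_num : (0 : ℝ) ≤ 1 / 4).trans h2
    have hmu := hMu (m s • Φ s) a (m t • Φ t) a' _ _ hsign
    have hQ : Q (fun t => sl ε τ (Φ t)) s t = qf (m s • Φ s) a (m t • Φ t) a' := rfl
    rw [hQ]
    refine hmu.trans ?_
    have hch : c / 2 * |t - s| ≤ ‖m s • Φ s - m t • Φ t‖ := by
      have h1 : 1 / 2 * ‖Φ s - Φ t‖ ≤ ‖m s • Φ s - m t • Φ t‖ := sl6 (Φ s) (Φ t)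
      have h2 := hc s hs t ht
      rw [norm_sub_rev (Φ t)] at h2
      linarith
    have hats : 0 < |t - s| := abs_pos.2 hts
    have hr1 : ‖a'‖ / ‖a‖ ≤ 4 * M / μ := by
      have h1 := hlow s hs
      have h2 := hupp t ht
      rw [← ha] at h1
      rw [← ha'] at h2
      calc ‖a'‖ / ‖a‖ ≤ (2 * M) / (μ / 2) :=
            div_le_div₀ (by positivity) h2 (by positivity) h1
        _ = 4 * M / μ := by field_simp; ring
    have hr2 : ‖a‖ / ‖a'‖ ≤ 4 * M / μ := by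
      have h1 := hlow t ht
      have h2 := hupp s hs
      rw [← ha'] at h1
      rw [← ha] at h2
      calc ‖a‖ / ‖a'‖ ≤ (2 * M) / (μ / 2) :=
            div_le_div₀ (by positivity) h2 (by positivity) h1
        _ = 4 * M / μ := by field_simp; ring
    have hn1 : ‖a - ((m s + s * deriv m s) / D) • (m s • Φ s - m t • Φ t)‖ ^ 2
        ≤ (4 * C' * |t - s|) ^ 2 := pow_le_pow_left₀ (norm_nonneg _) e1' 2
    have hn2 : ‖a' - ((m t + t * deriv m t) / D) • (m s • Φ s - m t • Φ t)‖ ^ 2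
        ≤ (4 * C' * |t - s|) ^ 2 := by
      rw [abs_sub_comm t s]
      exact pow_le_pow_left₀ (norm_nonneg _) e2 2
    have hden : (c / 2 * |t - s|) ^ 2 ≤ ‖m s • Φ s - m t • Φ t‖ ^ 2 :=
      pow_le_pow_left₀ (by positivity) hch 2
    have hnum : 4 * (‖a - ((m s + s * deriv m s) / D) • (m s • Φ s - m t • Φ t)‖ ^ 2
          * (‖a'‖ / ‖a‖)
        + ‖a' - ((m t + t * deriv m t) / D) • (m s • Φ s - m t • Φ t)‖ ^ 2 * (‖a‖ / ‖a'‖))
        ≤ 4 * ((4 * C' * |t - s|) ^ 2 * (4 * M / μ) + (4 * C' * |t - s|) ^ 2 * (4 * M / μ)) := by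
      refine mul_le_mul_of_nonneg_left (add_le_add ?_ ?_) (by norm_num)
      · exact mul_le_mul hn1 hr1 (by positivity) (by positivity)
      · exact mul_le_mul hn2 hr2 (by positivity) (by positivity)
    calc _ ≤ 4 * ((4 * C' * |t - s|) ^ 2 * (4 * M / μ) + (4 * C' * |t - s|) ^ 2 * (4 * M / μ))
          / (c / 2 * |t - s|) ^ 2 := div_le_div₀ (by positivity) hnum (by positivity) hden
      _ = 2048 * C' ^ 2 * M / (μ * c ^ 2) := by
        field_simp
        ring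

end MP_e78765_gt
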