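import Pool.Agent.Lib.MP_e78765_gt.Spec

/-!
# Module Ub: uniform bounds for `exp (τ cut (Φ))` in one variable (MP_e78765_gt)
-/

set_option autoImplicit false

open scoped ContDiff Topology
open MeasureTheory Set Filter

namespace MP_e78765_gt

namespace Ub_aux

private lemma cd {Φ : ℝ → E3} {t : ℝ} (h : ContDiffAt ℝ ∞ Φ t) : ContDiffAt ℝ ∞ (deriv Φ) t := by
  have h1 : ContDiffAt ℝ ∞ (fderiv ℝ Φ) t := h.fderiv_right (m := ∞) (by simp)
  have h2 : deriv Φ = fun t => fderiv ℝ Φ t 1 := by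
    funext t
    exact fderiv_apply_one_eq_deriv.symm
  rw [h2]
  exact h1.clm_apply contDiffAt_const

private lemma hd {Φ : ℝ → E3} {t : ℝ} (h : ContDiffAt ℝ ∞ Φ t) : HasDerivAt Φ (deriv Φ t) t :=
  (h.differentiableAt (by simp)).hasDerivAt

private lemma bnd {Ψ : ℝ → E3} {b : ℝ} (hs : ∀ t ∈ Icc (-b) b, ContDiffAt ℝ ∞ Ψ t) :
    ∃ A : ℝ, ∀ t ∈ Icc (-b) b, ‖Ψ t‖ ≤ A :=
  isCompact_Icc.exists_bound_of_continuousOn fun t ht => (hs t ht).continuousAt.continuousWithinAt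

/-- the constants -/
private lemma data {Φ : ℝ → E3} {b : ℝ} (hb : 0 < b)
    (hs : ∀ t ∈ Icc (-b) b, ContDiffAt ℝ ∞ Φ t) (h0 : Φ 0 = 0)
    (hr : ∀ t ∈ Icc (-b) b, deriv Φ t ≠ 0)
    (hi : ∀ s ∈ Icc (-b) b, ∀ t ∈ Icc (-b) b, Φ s = Φ t → s = t) :
    ∃ c A a : ℝ, 0 < c ∧ 0 < A ∧ 0 < a ∧ ∀ t ∈ Icc (-b) b, c * |t| ≤ ‖Φ t‖ ∧ ‖Φ t‖ ≤ A ∧
      ‖deriv Φ t‖ ≤ A ∧ ‖deriv (deriv Φ) t‖ ≤ A ∧ (|t| < a → |t| * ‖deriv Φ t‖ ≤ 2 * ‖Φ t‖) := by
  have z0 : (0 : ℝ) ∈ Icc (-b) b := ⟨by linarith, hb.le⟩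
  have hs1 : ∀ t ∈ Icc (-b) b, ContDiffAt ℝ ∞ (deriv Φ) t := fun t ht => cd (hs t ht)
  have hs2 : ∀ t ∈ Icc (-b) b, ContDiffAt ℝ ∞ (deriv (deriv Φ)) t := fun t ht => cd (hs1 t ht)
  obtain ⟨A0, hA0⟩ := bnd hs
  obtain ⟨A1, hA1⟩ := bnd hs1
  obtain ⟨A2, hA2⟩ := bnd hs2
  have hd0 : DifferentiableAt ℝ Φ 0 := (hd (hs 0 z0)).differentiableAt
  -- the slope
  have e1 : ∀ t : ℝ, ‖Φ t‖ = |t| * ‖dslope Φ 0 t‖ := by
    intro t
    have h := sub_smul_dslope Φ 0 t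
    rw [sub_zero, h0, sub_zero] at h
    rw [← h, norm_smul, Real.norm_eq_abs]
  have hc : ContinuousOn (fun t => ‖dslope Φ 0 t‖) (Icc (-b) b) := by
    refine ContinuousOn.norm ?_
    rw [continuousOn_dslope (Icc_mem_nhds (by linarith) hb)]
    exact ⟨fun t ht => (hs t ht).continuousAt.continuousWithinAt, hd0⟩
  obtain ⟨x, hx, hxm⟩ := isCompact_Icc.exists_isMinOn ⟨0, z0⟩ hc
  have hcx : 0 < ‖dslope Φ 0 x‖ := by
    rw [norm_pos_iff]
    by_cases h : x = 0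
    · rw [h, dslope_same]
      exact hr 0 z0
    · intro h'
      have h1 := e1 x
      rw [h', norm_zero, mul_zero, norm_eq_zero] at h1
      exact h (hi x hx 0 z0 (by rw [h1, h0]))
  -- near zero
  have hn : ∀ᶠ t in 𝓝 (0 : ℝ), ‖deriv Φ t‖ < 2 * ‖dslope Φ 0 t‖ := by
    have c1 : ContinuousAt (fun t => ‖deriv Φ t‖) 0 := (hs1 0 z0).continuousAt.norm
    have c2 : ContinuousAt (fun t => 2 * ‖dslope Φ 0 t‖) 0 :=
      continuousAt_const.mul (continuousAt_dslope_same.2 hd0).norm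
    refine c1.eventually_lt c2 ?_
    rw [dslope_same]
    have := norm_pos_iff.2 (hr 0 z0)
    linarith
  obtain ⟨a, ha, hna⟩ := Metric.eventually_nhds_iff.1 hn
  refine ⟨‖dslope Φ 0 x‖, max A0 (max A1 A2) + 1 + |A0|, a, hcx, ?_, ha, fun t ht => ?_⟩
  · have h1 := le_max_left A0 (max A1 A2)
    have h2 := neg_abs_le A0
    linarith
  · have h1 := le_max_left A0 (max A1 A2)
    have h2 := le_max_left A1 A2
    have h3 := le_max_right A1 A2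
    have h4 := le_max_right A0 (max A1 A2)
    have h5 := abs_nonneg A0
    refine ⟨?_, ?_, ?_, ?_, ?_⟩
    · rw [e1 t, mul_comm]
      exact mul_le_mul_of_nonneg_left (hxm ht) (abs_nonneg t)
    · linarith [hA0 t ht]
    · linarith [hA1 t ht]
    · linarith [hA2 t ht]
    · intro hta
      rw [e1 t]
      have h6 : dist t 0 < a := by rw [Real.dist_eq, sub_zero]; exact hta
      have h7 := hna h6
      nlinarith [abs_nonneg t]

private lemma cut_eq {ε : ℝ} (hε : 0 < ε) {x : E3} (hx : x ≠ 0)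
    (h : Real.exp 1 * (ε * ‖x‖) ≤ 1) : cut ε x = St (Real.log (‖x‖ ^ 2) / 2 - Real.log ε) := by
  have hx' : 0 < ‖x‖ := norm_pos_iff.2 hx
  have h1 : St (-Real.log (ε * ‖x‖)) = 1 := by
    unfold St
    apply Real.smoothTransition.one_of_one_le
    have h2 := Real.log_nonpos (by positivity) h
    rw [Real.log_mul (Real.exp_pos 1).ne' (by positivity), Real.log_exp] at h2
    linarith
  unfold cut
  rw [h1, mul_one, Real.log_div hx'.ne' hε.ne', Real.log_pow]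
  congr 1
  push_cast
  ring

private noncomputable def LL (Φ : ℝ → E3) (ε t : ℝ) : ℝ := Real.log (‖Φ t‖ ^ 2) / 2 - Real.log ε

private noncomputable def pp (Φ : ℝ → E3) (t : ℝ) : ℝ := inner ℝ (Φ t) (deriv Φ t)

private noncomputable def lam (Φ : ℝ → E3) (t : ℝ) : ℝ := pp Φ t / ‖Φ t‖ ^ 2

private noncomputable def mu (Φ : ℝ → E3) (t : ℝ) : ℝ :=
  ((inner ℝ (Φ t) (deriv (deriv Φ) t) + inner ℝ (deriv Φ t) (deriv Φ t)) * ‖Φ t‖ ^ 2 -
    pp Φ t * (2 * pp Φ t)) / (‖Φ t‖ ^ 2) ^ 2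

private noncomputable def mm (Φ : ℝ → E3) (ε τ t : ℝ) : ℝ := Real.exp (τ * cut ε (Φ t))

private noncomputable def dd (Φ : ℝ → E3) (ε τ t : ℝ) : ℝ :=
  mm Φ ε τ t * (τ * deriv St (LL Φ ε t)) * lam Φ t

private noncomputable def d2 (Φ : ℝ → E3) (ε τ t : ℝ) : ℝ :=
  (dd Φ ε τ t * (τ * deriv St (LL Φ ε t)) +
    mm Φ ε τ t * (τ * (deriv (deriv St) (LL Φ ε t) * lam Φ t))) * lam Φ t +
    mm Φ ε τ t * (τ * deriv St (LL Φ ε t)) * mu Φ t

private lemma St_cd : ContDiff ℝ ∞ St := Real.smoothTransition.contDiff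

private lemma St_d (x : ℝ) : HasDerivAt St (deriv St x) x :=
  ((contDiff_infty_iff_deriv.1 St_cd).1 x).hasDerivAt

private lemma St_dd (x : ℝ) : HasDerivAt (deriv St) (deriv (deriv St) x) x :=
  ((contDiff_infty_iff_deriv.1 (contDiff_infty_iff_deriv.1 St_cd).2).1 x).hasDerivAt

private lemma St_zero {x : ℝ} (hx : 1 < x) : deriv St x = 0 := by
  have h : St =ᶠ[𝓝 x] fun _ => (1 : ℝ) := by
    filter_upwards [lt_mem_nhds hx] with y hy
    exact Real.smoothTransition.one_of_one_le hy.le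
  rw [h.deriv_eq, deriv_const]

private lemma LL_d {Φ : ℝ → E3} {t : ℝ} (h : ContDiffAt ℝ ∞ Φ t) (hn : Φ t ≠ 0) (ε : ℝ) :
    HasDerivAt (LL Φ ε) (lam Φ t) t := by
  have h1 : HasDerivAt (fun s => ‖Φ s‖ ^ 2) (2 * pp Φ t) t := (hd h).norm_sq
  have h2 : ‖Φ t‖ ^ 2 ≠ 0 := pow_ne_zero 2 (norm_ne_zero_iff.2 hn)
  have h3 := ((h1.log h2).div_const 2).sub_const (Real.log ε)
  have e : 2 * pp Φ t / ‖Φ t‖ ^ 2 / 2 = lam Φ t := by
    unfold lam
    ring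
  rw [e] at h3
  exact h3

private lemma lam_d {Φ : ℝ → E3} {t : ℝ} (h : ContDiffAt ℝ ∞ Φ t) (hn : Φ t ≠ 0) :
    HasDerivAt (lam Φ) (mu Φ t) t := by
  have h1 : HasDerivAt (fun s => ‖Φ s‖ ^ 2) (2 * pp Φ t) t := (hd h).norm_sq
  have h2 : ‖Φ t‖ ^ 2 ≠ 0 := pow_ne_zero 2 (norm_ne_zero_iff.2 hn)
  have h3 : HasDerivAt (pp Φ)
      (inner ℝ (Φ t) (deriv (deriv Φ) t) + inner ℝ (deriv Φ t) (deriv Φ t)) t :=
    (hd h).inner ℝ (hd (cd h))
  exact h3.div h1 h2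

private lemma mm_d {Φ : ℝ → E3} {t : ℝ} (h : ContDiffAt ℝ ∞ Φ t) (hn : Φ t ≠ 0) {ε τ : ℝ}
    (hε : 0 < ε) (hε2 : Real.exp 1 * (ε * ‖Φ t‖) < 1) :
    HasDerivAt (mm Φ ε τ) (dd Φ ε τ t) t := by
  have hc : ContinuousAt Φ t := h.continuousAt
  have h1 : ∀ᶠ s in 𝓝 t, Φ s ≠ 0 := hc.eventually_ne hn
  have h2 : ∀ᶠ s in 𝓝 t, Real.exp 1 * (ε * ‖Φ s‖) < 1 := by
    have c1 : ContinuousAt (fun s => Real.exp 1 * (ε * ‖Φ s‖)) t :=
      continuousAt_const.mul (continuousAt_const.mul hc.norm)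
    exact c1.eventually_lt continuousAt_const hε2
  have h3 : mm Φ ε τ =ᶠ[𝓝 t] fun s => Real.exp (τ * St (LL Φ ε s)) := by
    filter_upwards [h1, h2] with s hs1 hs2
    unfold mm LL
    rw [cut_eq hε hs1 hs2.le]
  have h4 : HasDerivAt (fun s => Real.exp (τ * St (LL Φ ε s)))
      (Real.exp (τ * St (LL Φ ε t)) * (τ * (deriv St (LL Φ ε t) * lam Φ t))) t :=
    (((St_d (LL Φ ε t)).comp t (LL_d h hn ε)).const_mul τ).exp
  have h5 := h4.congr_of_eventuallyEq h3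
  have e : Real.exp (τ * St (LL Φ ε t)) * (τ * (deriv St (LL Φ ε t) * lam Φ t)) =
      dd Φ ε τ t := by
    have h6 := h3.self_of_nhds
    unfold dd
    rw [h6]
    ring
  rw [e] at h5
  exact h5

private lemma dd_d {Φ : ℝ → E3} {t : ℝ} (h : ContDiffAt ℝ ∞ Φ t) (hn : Φ t ≠ 0) {ε τ : ℝ}
    (hε : 0 < ε) (hε2 : Real.exp 1 * (ε * ‖Φ t‖) < 1) :
    HasDerivAt (dd Φ ε τ) (d2 Φ ε τ t) t := by
  have h1 : HasDerivAt (fun s => τ * deriv St (LL Φ ε s))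
      (τ * (deriv (deriv St) (LL Φ ε t) * lam Φ t)) t :=
    ((St_dd (LL Φ ε t)).comp t (LL_d h hn ε)).const_mul τ
  exact ((mm_d h hn hε hε2).mul h1).mul (lam_d h hn)

private lemma lam_le {Φ : ℝ → E3} {t : ℝ} (hn : Φ t ≠ 0) : |lam Φ t| * ‖Φ t‖ ≤ ‖deriv Φ t‖ := by
  have hx : 0 < ‖Φ t‖ := norm_pos_iff.2 hn
  have h1 : |pp Φ t| ≤ ‖Φ t‖ * ‖deriv Φ t‖ := abs_real_inner_le_norm _ _
  have e : |lam Φ t| * ‖Φ t‖ = |pp Φ t| / ‖Φ t‖ := by
    unfold lam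
    rw [abs_div, abs_of_pos (pow_pos hx 2)]
    field_simp
  rw [e, div_le_iff₀ hx, mul_comm]
  exact h1

private lemma mu_le {Φ : ℝ → E3} {t : ℝ} (hn : Φ t ≠ 0) :
    |mu Φ t| * ‖Φ t‖ ^ 2 ≤ ‖Φ t‖ * ‖deriv (deriv Φ) t‖ + 3 * ‖deriv Φ t‖ ^ 2 := by
  have hx : 0 < ‖Φ t‖ := norm_pos_iff.2 hn
  have h1 : |inner ℝ (Φ t) (deriv (deriv Φ) t)| ≤ ‖Φ t‖ * ‖deriv (deriv Φ) t‖ :=
    abs_real_inner_le_norm _ _
  have h2 : inner ℝ (deriv Φ t) (deriv Φ t) = ‖deriv Φ t‖ ^ 2 := real_inner_self_eq_norm_sq _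
  have h3 := lam_le hn
  have e : mu Φ t * ‖Φ t‖ ^ 2 = inner ℝ (Φ t) (deriv (deriv Φ) t) + ‖deriv Φ t‖ ^ 2 -
      2 * (lam Φ t * ‖Φ t‖) ^ 2 := by
    unfold mu lam
    rw [h2]
    field_simp
  have h4 : (lam Φ t * ‖Φ t‖) ^ 2 ≤ ‖deriv Φ t‖ ^ 2 := by
    rw [← sq_abs, abs_mul, abs_norm]
    exact pow_le_pow_left₀ (by positivity) h3 2
  have e2 : |mu Φ t| * ‖Φ t‖ ^ 2 = |mu Φ t * ‖Φ t‖ ^ 2| := by
    rw [abs_mul, abs_of_pos (pow_pos hx 2)]
  rw [e2, e, abs_le]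
  have h5 := abs_le.1 h1
  have h6 : 0 ≤ (lam Φ t * ‖Φ t‖) ^ 2 := sq_nonneg _
  constructor <;> nlinarith [sq_nonneg ‖deriv Φ t‖]

private lemma mm_bd (Φ : ℝ → E3) {ε τ : ℝ} (t : ℝ) (hτ : |τ| ≤ 1 / 8)
    (hc : 0 ≤ cut ε (Φ t) ∧ cut ε (Φ t) ≤ 1) : 1 / 2 ≤ mm Φ ε τ t ∧ mm Φ ε τ t ≤ 2 := by
  have h1 : |τ * cut ε (Φ t)| ≤ 1 / 8 := by
    rw [abs_mul, abs_of_nonneg hc.1]
    nlinarith [abs_nonneg τ]
  obtain ⟨h2, h3⟩ := abs_le.1 h1
  unfold mm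
  constructor
  · have := Real.add_one_le_exp (τ * cut ε (Φ t))
    linarith
  · have h4 := Real.add_one_le_exp (-(τ * cut ε (Φ t)))
    rw [Real.exp_neg] at h4
    have h5 : 1 / 2 ≤ (Real.exp (τ * cut ε (Φ t)))⁻¹ := by linarith
    have h6 := Real.exp_pos (τ * cut ε (Φ t))
    rw [le_inv_comm₀ (by norm_num) h6] at h5
    norm_num at h5
    exact h5

private lemma dd_le {Φ : ℝ → E3} {ε τ t : ℝ} (h1 : 1 / 2 ≤ mm Φ ε τ t ∧ mm Φ ε τ t ≤ 2)
    (h2 : |τ * deriv St (LL Φ ε t)| ≤ 1 / 8) : |dd Φ ε τ t| ≤ 1 / 4 * |lam Φ t| := by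
  unfold dd
  rw [abs_mul, abs_mul, abs_of_pos (by linarith [h1.1] : 0 < mm Φ ε τ t)]
  refine mul_le_mul_of_nonneg_right ?_ (abs_nonneg _)
  have := mul_le_mul h1.2 h2 (abs_nonneg _) (by norm_num)
  linarith

private lemma d2_le {Φ : ℝ → E3} {ε τ t B : ℝ} (h1 : 1 / 2 ≤ mm Φ ε τ t ∧ mm Φ ε τ t ≤ 2)
    (h2 : |τ * deriv St (LL Φ ε t)| ≤ 1 / 8) (hτ : |τ| ≤ 1 / 8) (hB : 0 < B)
    (h3 : |deriv (deriv St) (LL Φ ε t)| ≤ B) :
    |d2 Φ ε τ t| ≤ (1 + B) * |lam Φ t| ^ 2 + |mu Φ t| := by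
  have hm : 0 < mm Φ ε τ t := by linarith [h1.1]
  have hm' : |mm Φ ε τ t| ≤ 2 := by rw [abs_of_pos hm]; exact h1.2
  have hd := dd_le h1 h2
  have hl := abs_nonneg (lam Φ t)
  have hmu := abs_nonneg (mu Φ t)
  unfold d2
  have a1 : |dd Φ ε τ t * (τ * deriv St (LL Φ ε t))| ≤ (1 / 4 * |lam Φ t|) * (1 / 8) := by
    rw [abs_mul]
    exact mul_le_mul hd h2 (abs_nonneg _) (by positivity)
  have a2 : |mm Φ ε τ t * (τ * (deriv (deriv St) (LL Φ ε t) * lam Φ t))| ≤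
      2 * (1 / 8 * (B * |lam Φ t|)) := by
    rw [abs_mul, abs_mul, abs_mul]
    refine mul_le_mul hm' ?_ (by positivity) (by norm_num)
    refine mul_le_mul hτ ?_ (by positivity) (by norm_num)
    exact mul_le_mul_of_nonneg_right h3 hl
  have a3 : |mm Φ ε τ t * (τ * deriv St (LL Φ ε t)) * mu Φ t| ≤ 2 * (1 / 8) * |mu Φ t| := by
    rw [abs_mul, abs_mul]
    exact mul_le_mul_of_nonneg_right (mul_le_mul hm' h2 (abs_nonneg _) (by norm_num)) hmu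
  have a4 : |(dd Φ ε τ t * (τ * deriv St (LL Φ ε t)) +
      mm Φ ε τ t * (τ * (deriv (deriv St) (LL Φ ε t) * lam Φ t))) * lam Φ t| ≤
      ((1 / 4 * |lam Φ t|) * (1 / 8) + 2 * (1 / 8 * (B * |lam Φ t|))) * |lam Φ t| := by
    rw [abs_mul]
    refine mul_le_mul_of_nonneg_right ?_ hl
    exact (abs_add_le _ _).trans (add_le_add a1 a2)
  refine (abs_add_le _ _).trans ((add_le_add a4 a3).trans ?_)
  have h5 : 0 ≤ |lam Φ t| ^ 2 := by positivity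
  nlinarith [mul_nonneg hB.le h5]

private lemma taylor {f d e : ℝ → ℝ} {s t M1 M2 : ℝ} (hf : ∀ x ∈ uIcc s t, HasDerivAt f (d x) x)
    (hd : ∀ x ∈ uIcc s t, HasDerivAt d (e x) x) (h1 : ∀ x ∈ uIcc s t, |d x| ≤ M1)
    (h2 : ∀ x ∈ uIcc s t, |e x| ≤ M2) :
    |f t - f s| ≤ M1 * |t - s| ∧ |f t - f s - d s * (t - s)| ≤ M2 * (t - s) ^ 2 := by
  have hM2 : 0 ≤ M2 := (abs_nonneg _).trans (h2 s left_mem_uIcc)
  constructor
  · have := Convex.norm_image_sub_le_of_norm_hasDerivWithin_le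
      (fun x hx => (hf x hx).hasDerivWithinAt) h1 (convex_uIcc s t) left_mem_uIcc right_mem_uIcc
    exact this
  · have h3 : ∀ x ∈ uIcc s t, |d x - d s| ≤ M2 * |t - s| := by
      intro x hx
      have h4 := Convex.norm_image_sub_le_of_norm_hasDerivWithin_le
        (fun x hx => (hd x hx).hasDerivWithinAt) h2 (convex_uIcc s t) left_mem_uIcc hx
      refine h4.trans (mul_le_mul_of_nonneg_left ?_ hM2)
      exact abs_sub_left_of_mem_uIcc hx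
    have h5 : ∀ x ∈ uIcc s t, HasDerivWithinAt (fun x => f x - d s * x) (d x - d s)
        (uIcc s t) x := by
      intro x hx
      have := (hf x hx).sub ((hasDerivAt_id x).const_mul (d s))
      rw [mul_one] at this
      exact this.hasDerivWithinAt
    have h6 := Convex.norm_image_sub_le_of_norm_hasDerivWithin_le h5 h3 (convex_uIcc s t)
      left_mem_uIcc right_mem_uIcc
    rw [Real.norm_eq_abs, Real.norm_eq_abs] at h6
    have e1 : f t - d s * t - (f s - d s * s) = f t - f s - d s * (t - s) := by ring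
    have e2 : M2 * |t - s| * |t - s| = M2 * (t - s) ^ 2 := by
      rw [mul_assoc, ← sq, sq_abs]
    simp only [e1, e2] at h6
    exact h6

end Ub_aux

open Ub_aux in
theorem tUb : S_StB → S_Cut → S_Ub := by
  intro hStB hCut Φ b τ hb hτ hs h0 hr hi
  obtain ⟨⟨B, hB, -, hB2⟩, -, -⟩ := hStB
  obtain ⟨hτ1, hτ2⟩ := hτ
  obtain ⟨c, A, a, hc, hA, ha, hdat⟩ := data hb hs h0 hr hi
  have he := Real.exp_pos 1
  obtain ⟨U, hU⟩ : ∃ U, U = A / c := ⟨_, rfl⟩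
  have hU0 : 0 < U := by rw [hU]; positivity
  have hUc : U * c = A := by rw [hU]; field_simp
  obtain ⟨M, hM⟩ : ∃ M, M = (1 + B) * U ^ 2 + 4 * U ^ 2 := ⟨_, rfl⟩
  have hM0 : 0 < M := by rw [hM]; positivity
  refine ⟨min (1 / (Real.exp 1 * A)) (c * a / Real.exp 1), by positivity, 4 * M + 2 * U,
    by positivity, fun ε hε => ?_⟩
  obtain ⟨hε0, hε1⟩ := hε
  obtain ⟨hε2, hε3⟩ := lt_min_iff.1 hε1
  rw [lt_div_iff₀ (by positivity)] at hε2
  rw [lt_div_iff₀ he] at hε3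
  obtain ⟨hcut1, -, -, -, -, -, hcut7⟩ := hCut ε hε0
  have z0 : (0 : ℝ) ∈ Icc (-b) b := ⟨by linarith, hb.le⟩
  -- facts at one point
  have hne : ∀ t ∈ Icc (-b) b, t ≠ 0 → Φ t ≠ 0 := fun t ht h h' => h (hi t ht 0 z0 (by rw [h', h0]))
  have hsm : ∀ t ∈ Icc (-b) b, Real.exp 1 * (ε * ‖Φ t‖) < 1 := by
    intro t ht
    have h1 := (hdat t ht).2.1
    have h2 : Real.exp 1 * (ε * ‖Φ t‖) ≤ Real.exp 1 * (ε * A) := by gcongr
    nlinarith
  have hder : ∀ t ∈ Icc (-b) b, t ≠ 0 → HasDerivAt (mm Φ ε τ) (dd Φ ε τ t) t := fun t ht h =>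
    mm_d (hs t ht) (hne t ht h) hε0 (hsm t ht)
  have hder2 : ∀ t ∈ Icc (-b) b, t ≠ 0 → HasDerivAt (dd Φ ε τ) (d2 Φ ε τ t) t := fun t ht h =>
    dd_d (hs t ht) (hne t ht h) hε0 (hsm t ht)
  have hm : ∀ t : ℝ, 1 / 2 ≤ mm Φ ε τ t ∧ mm Φ ε τ t ≤ 2 := fun t => mm_bd Φ t hτ1 (hcut1 _)
  have hSt : ∀ t : ℝ, |τ * deriv St (LL Φ ε t)| ≤ 1 / 8 := fun t => by
    rw [abs_mul]; exact hτ2 _
  have hlam : ∀ t ∈ Icc (-b) b, t ≠ 0 → |lam Φ t| * |t| ≤ U := by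
    intro t ht h
    obtain ⟨d1, -, d3, -, -⟩ := hdat t ht
    have h1 := lam_le (hne t ht h)
    have h2 : |lam Φ t| * (c * |t|) ≤ |lam Φ t| * ‖Φ t‖ :=
      mul_le_mul_of_nonneg_left d1 (abs_nonneg _)
    have h3 : |lam Φ t| * |t| * c ≤ U * c := by rw [hUc]; linarith
    exact le_of_mul_le_mul_right h3 hc
  have hmu : ∀ t ∈ Icc (-b) b, t ≠ 0 → |mu Φ t| * t ^ 2 ≤ 4 * U ^ 2 := by
    intro t ht h
    obtain ⟨d1, d2', d3, d4, -⟩ := hdat t ht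
    have h1 := mu_le (hne t ht h)
    have h2 : |mu Φ t| * (c * |t|) ^ 2 ≤ |mu Φ t| * ‖Φ t‖ ^ 2 :=
      mul_le_mul_of_nonneg_left (pow_le_pow_left₀ (by positivity) d1 2) (abs_nonneg _)
    have h3 : ‖Φ t‖ * ‖deriv (deriv Φ) t‖ ≤ A * A := mul_le_mul d2' d4 (norm_nonneg _) hA.le
    have h4 : ‖deriv Φ t‖ ^ 2 ≤ A ^ 2 := pow_le_pow_left₀ (norm_nonneg _) d3 2
    have h5 : |mu Φ t| * t ^ 2 * c ^ 2 ≤ 4 * U ^ 2 * c ^ 2 := by
      have e1 : |mu Φ t| * (c * |t|) ^ 2 = |mu Φ t| * t ^ 2 * c ^ 2 := by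
        rw [mul_pow, sq_abs]
        ring
      have e2 : 4 * U ^ 2 * c ^ 2 = 4 * A ^ 2 := by
        rw [← hUc]
        ring
      rw [← e1, e2]
      nlinarith
    exact le_of_mul_le_mul_right h5 (by positivity)
  have hdd : ∀ t ∈ Icc (-b) b, t ≠ 0 → |dd Φ ε τ t| * |t| ≤ U := by
    intro t ht h
    have h1 := dd_le (hm t) (hSt t)
    have h2 := hlam t ht h
    have h3 : |dd Φ ε τ t| * |t| ≤ 1 / 4 * |lam Φ t| * |t| :=
      mul_le_mul_of_nonneg_right h1 (abs_nonneg t)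
    have h4 : 0 ≤ |lam Φ t| * |t| := by positivity
    nlinarith
  have hd2 : ∀ t ∈ Icc (-b) b, t ≠ 0 → |d2 Φ ε τ t| * t ^ 2 ≤ M := by
    intro t ht h
    have h1 := d2_le (hm t) (hSt t) hτ1 hB (hB2 _)
    have h2 := hlam t ht h
    have h3 : |d2 Φ ε τ t| * t ^ 2 ≤ ((1 + B) * |lam Φ t| ^ 2 + |mu Φ t|) * t ^ 2 :=
      mul_le_mul_of_nonneg_right h1 (sq_nonneg t)
    have h4 : (|lam Φ t| * |t|) ^ 2 ≤ U ^ 2 := pow_le_pow_left₀ (by positivity) h2 2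
    rw [mul_pow, sq_abs t] at h4
    have h5 := hmu t ht h
    have h6 : (1 + B) * (|lam Φ t| ^ 2 * t ^ 2) ≤ (1 + B) * U ^ 2 :=
      mul_le_mul_of_nonneg_left h4 (by positivity)
    rw [hM]
    linarith
  refine ⟨fun t ht => ?_, fun t ht => ⟨(hm t).1, (hm t).2, ?_, ?_⟩, fun s hs' t ht hst => ?_⟩
  · have h1 : DifferentiableAt ℝ (cut ε) (Φ t) := (hcut7.differentiable (by simp)) _
    have h2 : DifferentiableAt ℝ Φ t := (hd (hs t ht)).differentiableAt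
    exact ((h1.comp t h2).const_mul τ).exp
  · by_cases h : t = 0
    · rw [h, abs_zero, mul_zero]
      positivity
    · have h1 : deriv (fun t => Real.exp (τ * cut ε (Φ t))) t = dd Φ ε τ t := (hder t ht h).deriv
      rw [h1]
      have := hdd t ht h
      linarith
  · by_cases h : t = 0
    · rw [h, zero_mul, add_zero]
      have : 1 / 2 ≤ Real.exp (τ * cut ε (Φ 0)) := (hm 0).1
      linarith
    · have h1 : deriv (fun t => Real.exp (τ * cut ε (Φ t))) t = dd Φ ε τ t := (hder t ht h).deriv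
      rw [h1]
      have hmt := hm t
      change 1 / 4 ≤ mm Φ ε τ t + t * dd Φ ε τ t
      by_cases hta : |t| < a
      · obtain ⟨d1, -, -, -, d5⟩ := hdat t ht
        have h2 := d5 hta
        have hx : 0 < ‖Φ t‖ := norm_pos_iff.2 (hne t ht h)
        have h3 := lam_le (hne t ht h)
        have h4 : |lam Φ t| * |t| ≤ 2 := by
          have h5 : |lam Φ t| * |t| * ‖Φ t‖ ≤ 2 * ‖Φ t‖ := by
            nlinarith [mul_le_mul_of_nonneg_left h3 (abs_nonneg t)]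
          exact le_of_mul_le_mul_right h5 hx
        have h6 : |t * lam Φ t| ≤ 2 := by rw [abs_mul, mul_comm]; exact h4
        have h7 : |(τ * deriv St (LL Φ ε t)) * (t * lam Φ t)| ≤ 1 / 8 * 2 := by
          rw [abs_mul]
          exact mul_le_mul (hSt t) h6 (abs_nonneg _) (by norm_num)
        have h8 := (abs_le.1 h7).1
        have e : mm Φ ε τ t + t * dd Φ ε τ t =
            mm Φ ε τ t * (1 + (τ * deriv St (LL Φ ε t)) * (t * lam Φ t)) := by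
          unfold dd
          ring
        rw [e]
        nlinarith
      · have h2 : 1 < LL Φ ε t := by
          have hx : 0 < ‖Φ t‖ := norm_pos_iff.2 (hne t ht h)
          have h3 : ε * Real.exp 1 < ‖Φ t‖ := by
            have h4 := (hdat t ht).1
            have h5 : c * a ≤ c * |t| := mul_le_mul_of_nonneg_left (not_lt.1 hta) hc.le
            linarith
          have h4 := Real.log_lt_log (by positivity) h3
          rw [Real.log_mul hε0.ne' he.ne', Real.log_exp] at h4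
          unfold LL
          rw [Real.log_pow]
          push_cast
          linarith
        have h3 : dd Φ ε τ t = 0 := by
          unfold dd
          rw [St_zero h2]
          ring
        rw [h3, mul_zero, add_zero]
        linarith [hmt.1]
  · by_cases h : s = 0
    · rw [h, abs_zero, zero_div, sub_zero] at hst
      have ht0 : t = 0 := abs_nonpos_iff.1 hst
      rw [h, ht0]
      simp
    · have h1 : deriv (fun t => Real.exp (τ * cut ε (Φ t))) s = dd Φ ε τ s := (hder s hs' h).deriv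
      rw [h1]
      have hs0 : 0 < |s| := abs_pos.2 h
      have hseg : ∀ x ∈ uIcc s t, x ∈ Icc (-b) b ∧ |s| / 2 ≤ |x| := by
        intro x hx
        refine ⟨?_, ?_⟩
        · exact (ordConnected_Icc.uIcc_subset hs' ht) hx
        · have h2 := abs_sub_left_of_mem_uIcc hx
          have h3 := abs_sub_abs_le_abs_sub s x
          rw [abs_sub_comm s x] at h3
          linarith
      have hx0 : ∀ x ∈ uIcc s t, x ≠ 0 := by
        intro x hx h'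
        have h2 := (hseg x hx).2
        rw [h', abs_zero] at h2
        linarith
      have b1 : ∀ x ∈ uIcc s t, |dd Φ ε τ x| ≤ 2 * U / |s| := by
        intro x hx
        obtain ⟨h2, h3⟩ := hseg x hx
        have h4 := hdd x h2 (hx0 x hx)
        rw [le_div_iff₀ hs0]
        nlinarith [abs_nonneg (dd Φ ε τ x)]
      have b2 : ∀ x ∈ uIcc s t, |d2 Φ ε τ x| ≤ 4 * M / s ^ 2 := by
        intro x hx
        obtain ⟨h2, h3⟩ := hseg x hx
        have h4 := hd2 x h2 (hx0 x hx)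
        have h5 : (|s| / 2) ^ 2 ≤ |x| ^ 2 := pow_le_pow_left₀ (by positivity) h3 2
        rw [div_pow, sq_abs, sq_abs] at h5
        rw [le_div_iff₀ (by positivity)]
        nlinarith [abs_nonneg (d2 Φ ε τ x)]
      obtain ⟨T1, T2⟩ := taylor (fun x hx => hder x (hseg x hx).1 (hx0 x hx))
        (fun x hx => hder2 x (hseg x hx).1 (hx0 x hx)) b1 b2
      change |mm Φ ε τ t - mm Φ ε τ s - dd Φ ε τ s * (t - s)| * s ^ 2 ≤ _ ∧
        |mm Φ ε τ t - mm Φ ε τ s| * |s| ≤ _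
      constructor
      · have h2 := mul_le_mul_of_nonneg_right T2 (sq_nonneg s)
        have e : 4 * M / s ^ 2 * (t - s) ^ 2 * s ^ 2 = 4 * M * (t - s) ^ 2 := by
          field_simp
        rw [e] at h2
        nlinarith [mul_nonneg hU0.le (sq_nonneg (t - s))]
      · have h2 := mul_le_mul_of_nonneg_right T1 (abs_nonneg s)
        have e : 2 * U / |s| * |t - s| * |s| = 2 * U * |t - s| := by
          field_simp
        rw [e] at h2
        nlinarith [mul_nonneg hM0.le (abs_nonneg (t - s))]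

end MP_e78765_gt
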