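import Pool.Agent.Lib.MP_e78765_gt.Spec

/-!
# The uniform bound of `Q` for the slid knots (MP_e78765_gt, module Unif; helper20)
-/

open scoped ContDiff Topology
open MeasureTheory Set Filter

namespace MP_e78765_gt

namespace Unif_aux

theorem Q_shift {a : ℝ → E3} (ha : ∀ t, a (t + 1) = a t) (s t : ℝ) (n m : ℤ) :
    Q a (s + n) (t + m) = Q a s t := by
  have hp : Function.Periodic a 1 := ha
  have h1 : ∀ (u : ℝ) (k : ℤ), a (u + k) = a u := fun u k => by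
    have h := hp.int_mul k u
    rwa [mul_one] at h
  have h2 : ∀ (u : ℝ) (k : ℤ), deriv a (u + k) = deriv a u := fun u k => by
    have h : (fun v => a (v + k)) = a := funext fun v => h1 v k
    rw [← deriv_comp_add_const, h]
  unfold Q
  rw [h1, h1, h2, h2]

theorem Q_half (a : ℝ → E3) (s t : ℝ) :
    Q (fun u => a (1 / 2 + u)) s t = Q a (1 / 2 + s) (1 / 2 + t) := by
  unfold Q
  rw [deriv_comp_const_add, deriv_comp_const_add]

/-- Real numbers modulo the integers. -/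
theorem red {r : ℝ → E3} (h : ∀ t, r t = r (1 / 2) ↔ ∃ n : ℤ, t = 1 / 2 + n) {t : ℝ}
    (ht : r t ≠ r (1 / 2)) : ∃ (u : ℝ) (n : ℤ), t = u + n ∧ |u| < 1 / 2 := by
  refine ⟨t - ⌊t + 1 / 2⌋, ⌊t + 1 / 2⌋, by ring, ?_⟩
  have h1 := Int.floor_le (t + 1 / 2)
  have h2 := Int.lt_floor_add_one (t + 1 / 2)
  have h3 : t - ⌊t + 1 / 2⌋ ≠ -(1 / 2) := by
    intro h3
    refine ht ((h t).2 ⟨⌊t + 1 / 2⌋ - 1, ?_⟩)
    push_cast
    linarith
  rw [abs_lt]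
  refine ⟨lt_of_le_of_ne (by linarith) (Ne.symm h3), by linarith⟩

theorem Sm_neg {τ : ℝ} (h : Sm τ) : Sm (-τ) := by
  unfold Sm
  rw [abs_neg]
  exact h

/-- In case (B): the parameter seen from `1/2`. -/
theorem half {u : ℝ} (h : |u| < 1 / 2) (h' : 1 / 8 ≤ |u|) :
    ∃ (σ : ℝ) (n : ℤ), σ ∈ Icc (-(3 / 8 : ℝ)) (3 / 8) ∧ 1 / 2 + σ = u + n := by
  rw [abs_lt] at h
  rcases le_total 0 u with h0 | h0
  · rw [abs_of_nonneg h0] at h'
    exact ⟨u - 1 / 2, 0, ⟨by linarith, by linarith [h.2]⟩, by push_cast; ring⟩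
  · rw [abs_of_nonpos h0] at h'
    exact ⟨u + 1 / 2, 1, ⟨by linarith [h.1], by linarith⟩, by push_cast; ring⟩

/-- In case (C): the parameter near `1/2`. -/
theorem near {u : ℝ} (h : |u| < 1 / 2) (h' : 3 / 8 < |u|) :
    ∃ (σ : ℝ) (n : ℤ), σ ∈ Icc (3 / 8 : ℝ) (5 / 8) ∧ σ = u + n := by
  rw [abs_lt] at h
  rcases le_total 0 u with h0 | h0
  · rw [abs_of_nonneg h0] at h'
    exact ⟨u, 0, ⟨by linarith, by linarith [h.2]⟩, by push_cast; ring⟩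
  · rw [abs_of_nonpos h0] at h'
    exact ⟨u + 1, 1, ⟨by linarith [h.1], by linarith⟩, by push_cast; ring⟩

theorem dist_id {x z : E3} (hx : x ≠ 0) :
    ‖x - z‖ ^ 2 = ‖x‖ ^ 2 * (1 - 2 * inner ℝ (inv x) z + ‖inv x‖ ^ 2 * ‖z‖ ^ 2) := by
  have h1 : ‖x‖ ≠ 0 := norm_ne_zero_iff.2 hx
  rw [norm_sub_sq_real]
  unfold inv
  rw [norm_smul, real_inner_smul_left, norm_inv, norm_pow, norm_norm]
  field_simp

/-- Compactness. -/
theorem cmin {G F : ℝ → E3} (hG : ContinuousOn G (Icc (3 / 8 : ℝ) (5 / 8)))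
    (hF : ContinuousOn F (Icc (-(1 / 8) : ℝ) (1 / 8)))
    (hp : ∀ s ∈ Icc (3 / 8 : ℝ) (5 / 8), ∀ t ∈ Icc (-(1 / 8) : ℝ) (1 / 8),
      0 < 1 - 2 * inner ℝ (G s) (F t) + ‖G s‖ ^ 2 * ‖F t‖ ^ 2) :
    ∃ δ : ℝ, 0 < δ ∧ ∀ s ∈ Icc (3 / 8 : ℝ) (5 / 8), ∀ t ∈ Icc (-(1 / 8) : ℝ) (1 / 8),
      δ ≤ 1 - 2 * inner ℝ (G s) (F t) + ‖G s‖ ^ 2 * ‖F t‖ ^ 2 := by
  have hcomp : IsCompact (Icc (3 / 8 : ℝ) (5 / 8) ×ˢ Icc (-(1 / 8) : ℝ) (1 / 8)) :=
    isCompact_Icc.prod isCompact_Icc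
  have hHcont : ContinuousOn (fun z : ℝ × ℝ => 1 - 2 * inner ℝ (G z.1) (F z.2) +
      ‖G z.1‖ ^ 2 * ‖F z.2‖ ^ 2) (Icc (3 / 8 : ℝ) (5 / 8) ×ˢ Icc (-(1 / 8) : ℝ) (1 / 8)) := by
    have h1 : ContinuousOn (fun z : ℝ × ℝ => G z.1)
        (Icc (3 / 8 : ℝ) (5 / 8) ×ˢ Icc (-(1 / 8) : ℝ) (1 / 8)) :=
      hG.comp continuousOn_fst fun z hz => hz.1
    have h2 : ContinuousOn (fun z : ℝ × ℝ => F z.2)
        (Icc (3 / 8 : ℝ) (5 / 8) ×ˢ Icc (-(1 / 8) : ℝ) (1 / 8)) :=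
      hF.comp continuousOn_snd fun z hz => hz.2
    exact (continuousOn_const.sub (continuousOn_const.mul (h1.inner h2))).add
      ((h1.norm.pow 2).mul (h2.norm.pow 2))
  obtain ⟨z0, hz0, hmin⟩ := hcomp.exists_isMinOn ⟨(1 / 2, 0), by constructor <;> norm_num⟩ hHcont
  refine ⟨_, hp z0.1 hz0.1 z0.2 hz0.2, fun s hs t ht => ?_⟩
  exact isMinOn_iff.1 hmin (s, t) ⟨hs, ht⟩

theorem numb {a b δ X n1 n2 D : ℝ} (ha : 0 ≤ a) (hb : 0 ≤ b) (hδ : 0 < δ) (hX : 0 < X)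
    (h1 : n1 ≤ 2 * a * X ^ 2) (h2' : 0 ≤ n2) (h2 : n2 ≤ 2 * b)
    (hD : δ * X ^ 2 / 4 ≤ D) : 2 * (n1 * n2) / D ≤ 32 * a * b / δ := by
  have hpos : 0 < δ * X ^ 2 / 4 := by positivity
  have hnum : 2 * (n1 * n2) ≤ 2 * ((2 * a * X ^ 2) * (2 * b)) :=
    mul_le_mul_of_nonneg_left (mul_le_mul h1 h2 h2' (by positivity)) (by norm_num)
  calc _ ≤ 2 * ((2 * a * X ^ 2) * (2 * b)) / (δ * X ^ 2 / 4) :=
        div_le_div₀ (by positivity) hnum hpos hD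
    _ = _ := by
      field_simp
      ring

theorem grow {C B X n0 n1 : ℝ} (hC : 0 ≤ C) (h0 : n0 ≤ C * (1 + X ^ 2)) (h1 : n1 ≤ 2 * n0)
    (h : 1 ≤ B ^ 2 * X ^ 2) : n1 ≤ 2 * (C * (1 + B ^ 2)) * X ^ 2 := by
  have h2 : C * (1 + X ^ 2) ≤ C * ((1 + B ^ 2) * X ^ 2) :=
    mul_le_mul_of_nonneg_left (by nlinarith) hC
  calc n1 ≤ 2 * (C * (1 + X ^ 2)) := by linarith
    _ ≤ 2 * (C * ((1 + B ^ 2) * X ^ 2)) := by linarith
    _ = _ := by ring

theorem grow2 {C B X n0 n1 : ℝ} (hC : 0 ≤ C) (hX : 0 ≤ X) (hXB : X ≤ B)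
    (h0 : n0 ≤ C * (1 + X ^ 2)) (h1 : n1 ≤ 2 * n0) : n1 ≤ 2 * (C * (1 + B ^ 2)) := by
  have h2 : X ^ 2 ≤ B ^ 2 := pow_le_pow_left₀ hX hXB 2
  have h3 : C * (1 + X ^ 2) ≤ C * (1 + B ^ 2) := mul_le_mul_of_nonneg_left (by linarith) hC
  linarith

end Unif_aux

open Unif_aux

theorem tUnif : S_U → S_Ch → S_Gc → S_Cone → S_Rs → S_Sl → S_Inv → S_Alg → S_Unif := by
  intro hU hCh hGc hCone hRs hSl hInv hAlg r τ hr hτ
  obtain ⟨-, -, -, -, hq, hp, -, -, hF, hFper, -, hF0, -, hFinj, -, -⟩ := hCh r hr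
  obtain ⟨hG0, hGs, hGF, hGinj⟩ := hGc r hr
  obtain ⟨-, ⟨C0, hC0⟩, -⟩ := hCone r hr
  have hrc : Continuous r := hr.smooth.continuous
  have hoq : IsOpen {t | r t ≠ r (1 / 2)} := isOpen_ne.preimage hrc
  have hop : IsOpen {t | r t ≠ r 0} := isOpen_ne.preimage hrc
  -- points
  have hnq : ∀ t ∈ Icc (-(3 / 8 : ℝ)) (3 / 8), r t ≠ r (1 / 2) := by
    intro t ht h
    obtain ⟨n, hn⟩ := (hq t).1 h
    have h1 : (n : ℝ) < 0 := by linarith [ht.2]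
    have h2 : (-1 : ℝ) < n := by linarith [ht.1]
    have h3 : n < 0 := by exact_mod_cast h1
    have h4 : -1 < n := by exact_mod_cast h2
    omega
  have hnp : ∀ t : ℝ, 0 < t → t < 1 → r t ≠ r 0 := by
    intro t h0 h1 h
    obtain ⟨n, hn⟩ := (hp t).1 h
    have h2 : (0 : ℝ) < n := by linarith
    have h3 : (n : ℝ) < 1 := by linarith
    have h4 : 0 < n := by exact_mod_cast h2
    have h5 : n < 1 := by exact_mod_cast h3
    omega
  have hinj : ∀ s t : ℝ, |t - s| < 1 → r s = r t → s = t := by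
    intro s t h1 h
    obtain ⟨n, hn⟩ := hr.inj s t h
    have h2 : t - s = n := by linarith
    rw [h2] at h1
    have h3 : n = 0 := by
      have h4 : |n| < 1 := by exact_mod_cast h1
      exact Int.abs_lt_one_iff.1 h4
    rw [h3] at hn
    push_cast at hn
    linarith
  have hGper : ∀ t, Gc r (t + 1) = Gc r t := by
    intro t
    unfold Gc
    rw [hr.periodic]
  -- (A)
  obtain ⟨εA, hεA, CA, hA⟩ := hU (Fc r) (3 / 8) τ (by norm_num) hτ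
    (fun t ht => (hF t (hnq t ht)).1) hF0 (fun t ht => (hF t (hnq t ht)).2.2)
    (fun s hs t ht h => hinj s t (by
      rw [abs_lt]
      constructor <;> linarith [hs.1, hs.2, ht.1, ht.2])
      (hFinj s t (hnq s hs) (hnq t ht) h))
  -- (B)
  have hGp : ∀ σ ∈ Icc (-(3 / 8 : ℝ)) (3 / 8), r (1 / 2 + σ) ≠ r 0 := fun σ hσ =>
    hnp _ (by linarith [hσ.1]) (by linarith [hσ.2])
  obtain ⟨εB, hεB, CB, hB⟩ := hU (fun σ => Gc r (1 / 2 + σ)) (3 / 8) (-τ) (by norm_num) (Sm_neg hτ)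
    (fun t ht => by
      have h1 : ContDiffAt ℝ ∞ (fun σ : ℝ => 1 / 2 + σ) t := contDiffAt_const.add contDiffAt_id
      exact (hGs _ (hGp t ht)).1.comp t h1) (by simpa using hG0)
    (fun t ht => by
      rw [deriv_comp_const_add]
      exact (hGs _ (hGp t ht)).2)
    (fun s hs t ht h => by
      have h1 := hGinj _ _ (hGp s hs) (hGp t ht) h
      have h2 := hinj _ _ (by
        rw [abs_lt]
        constructor <;> linarith [hs.1, hs.2, ht.1, ht.2]) h1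
      linarith)
  -- (C): compactness
  have hGcont : ContinuousOn (Gc r) (Icc (3 / 8 : ℝ) (5 / 8)) := fun s hs =>
    (hGs s (hnp s (by linarith [hs.1]) (by linarith [hs.2]))).1.continuousAt.continuousWithinAt
  have hFcont : ContinuousOn (Fc r) (Icc (-(1 / 8) : ℝ) (1 / 8)) := fun s hs =>
    (hF s (hnq s ⟨by linarith [hs.1], by linarith [hs.2]⟩)).1.continuousAt.continuousWithinAt
  obtain ⟨B1, hB1⟩ := isCompact_Icc.exists_bound_of_continuousOn hGcont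
  obtain ⟨B2, hB2⟩ := isCompact_Icc.exists_bound_of_continuousOn hFcont
  have hhalf : ∀ s ∈ Icc (3 / 8 : ℝ) (5 / 8), s ≠ 1 / 2 → r s ≠ r (1 / 2) := by
    intro s hs h h1
    refine h (hinj _ _ ?_ h1.symm).symm
    rw [abs_lt]
    constructor <;> linarith [hs.1, hs.2]
  obtain ⟨δ, hδpos, hδmin⟩ := cmin hGcont hFcont (by
    intro s hs t ht
    by_cases h : s = 1 / 2
    · rw [h, hG0, inner_zero_left, norm_zero]
      norm_num
    · have hq1 := hhalf _ hs h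
      have hp1 := hnp s (by linarith [hs.1]) (by linarith [hs.2])
      have hq2 := hnq t ⟨by linarith [ht.1], by linarith [ht.2]⟩
      obtain ⟨e1, e2⟩ := hGF _ hp1 hq1
      have h1 := dist_id (z := Fc r t) e2
      rw [← e1] at h1
      have h2 : Fc r s - Fc r t ≠ 0 := by
        intro h3
        have h4 := hFinj _ _ hq1 hq2 (sub_eq_zero.1 h3)
        have h5 := hinj _ _ (by
          rw [abs_lt]
          constructor <;> linarith [hs.1, hs.2, ht.1, ht.2]) h4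
        linarith [hs.1, ht.2]
      have h3 : 0 < ‖Fc r s - Fc r t‖ ^ 2 := by positivity
      rw [h1] at h3
      exact pos_of_mul_pos_right h3 (by positivity))
  have hC0' : 0 ≤ C0 := by
    have h1 := hC0 0 (hnq 0 ⟨by norm_num, by norm_num⟩)
    rw [hF0, norm_zero] at h1
    have h2 := (norm_nonneg _).trans h1
    linarith
  -- the constants
  refine ⟨min εA εB, lt_min hεA hεB, max CA (max CB
    (32 * (C0 * (1 + B1 ^ 2)) * (C0 * (1 + B2 ^ 2)) / δ)), ?_⟩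
  intro ε hε s t hs ht
  have hε0 : 0 < ε := hε.1
  have hεA' : ε ∈ Ioo (0 : ℝ) εA := ⟨hε.1, hε.2.trans_le (min_le_left _ _)⟩
  have hεB' : ε ∈ Ioo (0 : ℝ) εB := ⟨hε.1, hε.2.trans_le (min_le_right _ _)⟩
  obtain ⟨hg, -, hg2, -, hgq, hFg⟩ := hRs r ε τ hr hε0 hτ
  obtain ⟨hslC, -, hslI, hslN, hslD, hslE⟩ := hSl ε τ hε0 hτ
  -- `Q g = Q x`
  have hQx : Q (rs ε τ r) s t = Q (fun t => sl ε τ (Fc r t)) s t := by
    obtain ⟨-, -, -, -, -, -, -, -, -, -, -, -, -, -, hQ, -⟩ := hCh _ hg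
    have h1 : ∀ u, r u ≠ r (1 / 2) → rs ε τ r u ≠ rs ε τ r (1 / 2) := fun u hu h => by
      rw [hg2] at h
      exact hu ((hgq u).1 h)
    have h2 : ∀ u, r u ≠ r (1 / 2) → Fc (rs ε τ r) =ᶠ[𝓝 u] fun t => sl ε τ (Fc r t) := fun u hu => by
      filter_upwards [hoq.mem_nhds hu] with v hv
      exact hFg v hv
    rw [hQ s t (h1 s hs) (h1 t ht), (h2 s hs).deriv_eq, (h2 t ht).deriv_eq, (h2 s hs).eq_of_nhds,
      (h2 t ht).eq_of_nhds]
    rfl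
  rw [hQx]
  have hxper : ∀ t, sl ε τ (Fc r (t + 1)) = sl ε τ (Fc r t) := fun t => by rw [hFper]
  have hyper : ∀ t, sl ε (-τ) (Gc r (t + 1)) = sl ε (-τ) (Gc r t) := fun t => by rw [hGper]
  have hxd : ∀ u, r u ≠ r (1 / 2) → HasDerivAt (fun t => sl ε τ (Fc r t))
      (fderiv ℝ (sl ε τ) (Fc r u) (deriv (Fc r) u)) u := fun u hu => by
    have h1 : DifferentiableAt ℝ (sl ε τ) (Fc r u) :=
      (hslC.differentiable (by simp)).differentiableAt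
    have h2 : DifferentiableAt ℝ (Fc r) u := (hF u hu).1.differentiableAt (by simp)
    exact h1.hasFDerivAt.comp_hasDerivAt u h2.hasDerivAt
  obtain ⟨s0, n, rfl, hs0⟩ := red hq hs
  obtain ⟨t0, m, rfl, ht0⟩ := red hq ht
  have hrint : ∀ (u : ℝ) (k : ℤ), r (u + k) = r u := fun u k => by
    have h := (show Function.Periodic r 1 from hr.periodic).int_mul k u
    rwa [mul_one] at h
  rw [Q_shift hxper]
  rw [hrint] at hs ht
  -- `Q y = Q x`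
  have hQy : ∀ u v : ℝ, r u ≠ r (1 / 2) → r v ≠ r (1 / 2) → r u ≠ r 0 → r v ≠ r 0 →
      Q (fun t => sl ε (-τ) (Gc r t)) u v = Q (fun t => sl ε τ (Fc r t)) u v := by
    have h1 : ∀ w, r w ≠ r (1 / 2) → r w ≠ r 0 →
        sl ε τ (Fc r w) ≠ 0 ∧ sl ε (-τ) (Gc r w) = inv (sl ε τ (Fc r w)) ∧
        deriv (fun t => sl ε (-τ) (Gc r t)) w =
          dinv (sl ε τ (Fc r w)) (deriv (fun t => sl ε τ (Fc r t)) w) := by
      intro w hw hw'
      have e : ∀ v, r v ≠ r (1 / 2) → r v ≠ r 0 → sl ε (-τ) (Gc r v) = inv (sl ε τ (Fc r v)) := by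
        intro v hv hv'
        obtain ⟨e1, e2⟩ := hGF v hv' hv
        rw [e1, hslI _ e2]
      have hne : sl ε τ (Fc r w) ≠ 0 := by
        have h2 := (hslN (Fc r w)).1
        have h3 : 0 < ‖Fc r w‖ := norm_pos_iff.2 (hGF w hw' hw).2
        intro h4
        rw [h4, norm_zero] at h2
        linarith
      refine ⟨hne, e w hw hw', ?_⟩
      have h2 : (fun t => sl ε (-τ) (Gc r t)) =ᶠ[𝓝 w] fun t => inv (sl ε τ (Fc r t)) := by
        filter_upwards [hoq.mem_nhds hw, hop.mem_nhds hw'] with v hv hv'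
        exact e v hv hv'
      rw [h2.deriv_eq]
      exact (hInv.2.2.2.2.2.2.2.2.2.1 (fun t => sl ε τ (Fc r t)) _ w hne
        (hxd w hw).differentiableAt.hasDerivAt).deriv
    intro u v hu hv hu' hv'
    obtain ⟨a1, a2, a3⟩ := h1 u hu hu'
    obtain ⟨b1, b2, b3⟩ := h1 v hv hv'
    unfold Q
    rw [a3, b3]
    simp only [a2, b2]
    exact hInv.2.2.2.2.2.2.2.2.2.2.1 _ _ _ _ a1 b1
  -- case (C)
  have hCase : ∀ u v : ℝ, |u| < 1 / 2 → 3 / 8 < |u| → |v| < 1 / 8 → r u ≠ r (1 / 2) →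
      Q (fun t => sl ε τ (Fc r t)) u v ≤ 32 * (C0 * (1 + B1 ^ 2)) * (C0 * (1 + B2 ^ 2)) / δ := by
    intro u v hu hu' hv hru
    obtain ⟨σ, k, hσ, hσu⟩ := near hu hu'
    have hsh := Q_shift (a := fun t => sl ε τ (Fc r t)) hxper u v k 0
    rw [← hσu, Int.cast_zero, add_zero] at hsh
    rw [← hsh]
    have hσq : r σ ≠ r (1 / 2) := by rwa [hσu, hrint]
    have hσp : r σ ≠ r 0 := hnp σ (by linarith [hσ.1]) (by linarith [hσ.2])
    have hv1 : v ∈ Icc (-(1 / 8) : ℝ) (1 / 8) := by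
      rw [abs_lt] at hv
      exact ⟨hv.1.le, hv.2.le⟩
    have hvq : r v ≠ r (1 / 2) := hnq v ⟨by linarith [hv1.1], by linarith [hv1.2]⟩
    obtain ⟨e1, e2⟩ := hGF σ hσp hσq
    have hx0 : 0 < ‖Fc r σ‖ := norm_pos_iff.2 e2
    have hA1 := hAlg.2.2.1 (sl ε τ (Fc r σ)) (deriv (fun t => sl ε τ (Fc r t)) σ)
      (sl ε τ (Fc r v)) (deriv (fun t => sl ε τ (Fc r t)) v)
    refine hA1.trans ?_
    rw [(hxd σ hσq).deriv, (hxd v hvq).deriv]
    have d1 := (hslD (Fc r σ) (deriv (Fc r) σ)).2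
    have d2 := (hslD (Fc r v) (deriv (Fc r) v)).2
    have g1 := hC0 σ hσq
    have g2 := hC0 v hvq
    have b1 := hB1 σ hσ
    have b2 := hB2 v hv1
    have hdist : δ * ‖Fc r σ‖ ^ 2 ≤ ‖Fc r σ - Fc r v‖ ^ 2 := by
      rw [dist_id e2, ← e1, mul_comm]
      exact mul_le_mul_of_nonneg_left (hδmin σ hσ v hv1) (by positivity)
    have hE := hslE (Fc r σ) (Fc r v)
    have hE2 : δ * ‖Fc r σ‖ ^ 2 / 4 ≤ ‖sl ε τ (Fc r σ) - sl ε τ (Fc r v)‖ ^ 2 := by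
      have h1 : (1 / 2 * ‖Fc r σ - Fc r v‖) ^ 2 ≤ ‖sl ε τ (Fc r σ) - sl ε τ (Fc r v)‖ ^ 2 :=
        pow_le_pow_left₀ (by positivity) hE 2
      calc δ * ‖Fc r σ‖ ^ 2 / 4 ≤ ‖Fc r σ - Fc r v‖ ^ 2 / 4 := by linarith
        _ = (1 / 2 * ‖Fc r σ - Fc r v‖) ^ 2 := by ring
        _ ≤ _ := h1
    have hG1 : ‖Gc r σ‖ * ‖Fc r σ‖ = 1 := by
      rw [e1, hInv.2.2.1 _ e2]
      exact inv_mul_cancel₀ hx0.ne'
    have hone : 1 ≤ B1 ^ 2 * ‖Fc r σ‖ ^ 2 := by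
      have h1 : 1 ≤ B1 * ‖Fc r σ‖ := by
        rw [← hG1]
        exact mul_le_mul_of_nonneg_right b1 hx0.le
      calc (1 : ℝ) = 1 ^ 2 := by norm_num
        _ ≤ (B1 * ‖Fc r σ‖) ^ 2 := pow_le_pow_left₀ (by norm_num) h1 2
        _ = _ := by ring
    exact numb (by positivity) (by positivity) hδpos hx0
      (grow hC0' g1 d1 hone) (norm_nonneg _) (grow2 hC0' (norm_nonneg _) b2 g2 d2) hE2
  -- the three cases
  by_cases hAs : |s0| ≤ 3 / 8 ∧ |t0| ≤ 3 / 8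
  · exact (hA ε hεA' s0 (abs_le.1 hAs.1) t0 (abs_le.1 hAs.2)).trans (le_max_left _ _)
  by_cases hBs : 1 / 8 ≤ |s0| ∧ 1 / 8 ≤ |t0|
  · obtain ⟨σ, k, hσ, hσs⟩ := half hs0 hBs.1
    obtain ⟨ρ, l, hρ, hρt⟩ := half ht0 hBs.2
    have h1 := hB ε hεB' σ hσ ρ hρ
    rw [Q_half (fun t => sl ε (-τ) (Gc r t)), hσs, hρt, Q_shift hyper] at h1
    have hne : ∀ u, r u ≠ r (1 / 2) → |u| < 1 / 2 → 1 / 8 ≤ |u| → r u ≠ r 0 := by
      intro u _ hu hu' h
      have h2 := hinj u 0 (by rw [zero_sub, abs_neg]; linarith) h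
      rw [h2, abs_zero] at hu'
      linarith
    rw [hQy s0 t0 hs ht (hne s0 hs hs0 hBs.1) (hne t0 ht ht0 hBs.2)] at h1
    exact h1.trans ((le_max_left _ _).trans (le_max_right _ _))
  · rcases le_or_gt |s0| (3 / 8) with h1 | h1
    · have h2 : 3 / 8 < |t0| := not_le.1 fun h => hAs ⟨h1, h⟩
      have h3 : |s0| < 1 / 8 := by
        rcases lt_or_ge |s0| (1 / 8) with h | h
        · exact h
        · exact absurd ⟨h, by linarith⟩ hBs
      have h4 := hCase t0 s0 ht0 h2 h3 ht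
      have h5 : Q (fun t => sl ε τ (Fc r t)) s0 t0 = Q (fun t => sl ε τ (Fc r t)) t0 s0 :=
        hAlg.1 _ _ _ _
      rw [h5]
      exact h4.trans ((le_max_right _ _).trans (le_max_right _ _))
    · have h3 : |t0| < 1 / 8 := by
        rcases lt_or_ge |t0| (1 / 8) with h | h
        · exact h
        · exact absurd ⟨by linarith, h⟩ hBs
      exact (hCase s0 t0 hs0 h1 h3 hs).trans ((le_max_right _ _).trans (le_max_right _ _))

end MP_e78765_gt
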