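import Pool.Agent.Lib.MP_e78765_gt.Spec

/-!
# MP_e78765_gt, module VW: the reflection form in the chart
-/

set_option autoImplicit false

open scoped ContDiff Topology
open MeasureTheory Set Filter

namespace MP_e78765_gt

namespace VW_aux

theorem mir_eq {x : E3} (h : x 2 = 0) : mir x = x := by
  ext i
  fin_cases i
  · simp [mir]
  · simp [mir]
  · simp [mir, h]

/-- The kernel in the chart. -/
theorem kk_chart (hM : S_Mir) (hI : S_Inv) {a b : ℝ → E3} {q : E3} (hq : q 2 = 0)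
    (hp : ph a = ph b) (hp2 : (ph a) 2 = 0) (haq : a (1 / 2) = q) (hbq : b (1 / 2) = q) {s t : ℝ}
    (hs : a s ≠ q) (ht : b t ≠ q) (hda : deriv (Fc a) s = dinv (a s - q) (deriv a s))
    (hdb : deriv (Fc b) t = dinv (b t - q) (deriv b t)) :
    kk (Fc a) (Fc b) s t = kk a b s t := by
  obtain ⟨-, -, m3, m4, m5, -⟩ := hM
  obtain ⟨-, -, -, i4, i5, i6, -⟩ := hI
  have hX : a s - q ≠ 0 := sub_ne_zero.2 hs
  have hY : b t - q ≠ 0 := sub_ne_zero.2 ht
  have hXn : ‖a s - q‖ ≠ 0 := norm_ne_zero_iff.2 hX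
  have hYn : ‖b t - q‖ ≠ 0 := norm_ne_zero_iff.2 hY
  have hmY : mir (b t - q) ≠ 0 := by
    rw [← norm_ne_zero_iff, m5]
    exact hYn
  have e1 : Fc a s - mir (Fc b t) = inv (a s - q) - inv (mir (b t - q)) := by
    unfold Fc ch
    rw [haq, hbq, m3, i6, ← hp, mir_eq hp2]
    abel
  have e2 : a s - q - mir (b t - q) = a s - mir (b t) := by
    rw [m3, mir_eq hq]
    abel
  unfold kk kf
  rw [e1, i4 _ _ hX hmY, hda, hdb, i5 _ _ hX, i5 _ _ hY, m5, e2]
  by_cases h0 : ‖a s - mir (b t)‖ = 0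
  · rw [h0]
    simp
  · field_simp

theorem phi_cont (ζ : ℂ × ℂ) : Continuous (phi ζ) := by
  unfold phi
  fun_prop

theorem deriv_cont {f : ℝ → E3} {t : ℝ} (h : ContDiffAt ℝ ∞ f t) : ContinuousAt (deriv f) t := by
  have h1 : ContDiffAt ℝ 0 (fderiv ℝ f) t := h.fderiv_right (by simp)
  have h2 : deriv f = fun s => fderiv ℝ f s 1 := by
    funext s
    exact (fderiv_apply_one_eq_deriv (f := f) (x := s)).symm
  rw [h2]
  exact h1.continuousAt.clm_apply continuousAt_const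

end VW_aux

open VW_aux in
theorem tVW : S_RP → S_Rs → S_Ch → S_Inv → S_Mir → S_Sl → S_VW := by
  intro hRP hRs hCh hI hM _ r ε τ t0 t1 hr hε hτ h0 h01 h14 hn0 hn1
  obtain ⟨hg, g0, g12, -, gq, gF⟩ := hRs r ε τ hr hε hτ
  obtain ⟨-, q2, p2, -, hq, -, -, -, hF, -, -, -, hpos, -⟩ := hCh r hr
  obtain ⟨-, -, -, -, -, -, -, -, hG, -, -, -, hposG, -⟩ := hCh _ hg
  have hph : ph (rs ε τ r) = ph r := by
    unfold ph
    rw [g0, g12]
  have hrq : ∀ t ∈ Ioo (0 : ℝ) (1 / 2), r t ≠ r (1 / 2) := by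
    intro t ht h
    obtain ⟨n, hn⟩ := (hq t).1 h
    have h1 : (n : ℝ) < 0 := by linarith [ht.2]
    have h2 : (-1 : ℝ) < n := by linarith [ht.1]
    have h3 : n < 0 := by exact_mod_cast h1
    have h4 : -1 < n := by exact_mod_cast h2
    omega
  have hgq : ∀ t ∈ Ioo (0 : ℝ) (1 / 2), rs ε τ r t ≠ rs ε τ r (1 / 2) := by
    intro t ht h
    rw [g12] at h
    exact hrq t ht ((gq t).1 h)
  have hsub : ∀ t ∈ Icc t0 (1 / 2 - t0), t ∈ Ioo (0 : ℝ) (1 / 2) :=
    fun t ht => ⟨by linarith [ht.1], by linarith [ht.2]⟩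
  have hle : t0 ≤ 1 / 2 - t0 := by linarith
  have hFc : ContinuousOn (Fc r) (Icc t0 (1 / 2 - t0)) := fun t ht =>
    (hF t (hrq t (hsub t ht))).1.continuousAt.continuousWithinAt
  have hGc : ContinuousOn (Fc (rs ε τ r)) (Icc t0 (1 / 2 - t0)) := fun t ht =>
    (hG t (hgq t (hsub t ht))).1.continuousAt.continuousWithinAt
  have hFd : ContinuousOn (deriv (Fc r)) (Icc t0 (1 / 2 - t0)) := fun t ht =>
    (deriv_cont (hF t (hrq t (hsub t ht))).1).continuousWithinAt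
  have hGd : ContinuousOn (deriv (Fc (rs ε τ r))) (Icc t0 (1 / 2 - t0)) := fun t ht =>
    (deriv_cont (hG t (hgq t (hsub t ht))).1).continuousWithinAt
  obtain ⟨hint, hVV⟩ := hRP (Fc r) (Fc (rs ε τ r)) t0 (1 / 2 - t0) hle hFc hGc hFd hGd
    (fun t ht => hpos t (hsub t ht)) (fun t ht => hposG t (hsub t ht))
  -- the transforms
  have hW : ∀ ζ, Wt (Fc r) t0 (1 / 2 - t0) ζ - Wt (Fc (rs ε τ r)) t0 (1 / 2 - t0) ζ =
      Wd ε τ r ζ := by
    intro ζ
    have hI1 : IntervalIntegrable (fun t => (‖deriv (Fc r) t‖ : ℂ) * phi ζ (Fc r t)) volume t0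
        (1 / 2 - t0) := by
      refine ContinuousOn.intervalIntegrable ?_
      rw [uIcc_of_le hle]
      exact (Complex.continuous_ofReal.comp_continuousOn hFd.norm).mul
        ((phi_cont ζ).comp_continuousOn hFc)
    have hI2 : IntervalIntegrable (fun t => (‖deriv (Fc (rs ε τ r)) t‖ : ℂ) *
        phi ζ (Fc (rs ε τ r) t)) volume t0 (1 / 2 - t0) := by
      refine ContinuousOn.intervalIntegrable ?_
      rw [uIcc_of_le hle]
      exact (Complex.continuous_ofReal.comp_continuousOn hGd.norm).mul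
        ((phi_cont ζ).comp_continuousOn hGc)
    unfold Wt Wd
    rw [← intervalIntegral.integral_sub hI1 hI2, intervalIntegral.integral_of_le hle]
    -- near a parameter of the open interval
    have hev : ∀ t ∈ Ioo (0 : ℝ) (1 / 2), (fun s => sl ε τ (Fc r s)) =ᶠ[𝓝 t] Fc (rs ε τ r) :=
      fun t ht => Filter.eventually_of_mem (Ioo_mem_nhds ht.1 ht.2)
        fun s hs => (gF s (hrq s hs)).symm
    have hvan : ∀ t ∈ Ioo (0 : ℝ) (1 / 2) \ Ioc t0 (1 / 2 - t0),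
        (‖deriv (Fc r) t‖ : ℂ) * phi ζ (Fc r t) -
          (‖deriv (fun s => sl ε τ (Fc r s)) t‖ : ℂ) * phi ζ (sl ε τ (Fc r t)) = 0 := by
      rintro t ⟨ht, ht'⟩
      have hU : ∀ᶠ s in 𝓝 t, Fc (rs ε τ r) s = Fc r s := by
        have hfun : ∀ s, rs ε τ r s = r s → Fc (rs ε τ r) s = Fc r s := by
          intro s hs
          unfold Fc ch
          rw [hs, g12, hph]
        by_cases hc : t ≤ t0
        · have h1 : t ∈ Ioo (-t1) t1 := ⟨by linarith [ht.1], by linarith⟩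
          refine Filter.eventually_of_mem (Ioo_mem_nhds h1.1 h1.2) fun s hs => hfun s (hn0 s ?_)
          exact abs_lt.2 hs
        · have h2 : 1 / 2 - t0 < t := by
            by_contra h3
            exact ht' ⟨not_le.1 hc, not_lt.1 h3⟩
          have h1 : t ∈ Ioo (1 / 2 - t1) (1 / 2 + t1) := ⟨by linarith, by linarith [ht.2]⟩
          refine Filter.eventually_of_mem (Ioo_mem_nhds h1.1 h1.2) fun s hs => hfun s (hn1 s ?_)
          exact abs_lt.2 ⟨by linarith [hs.1], by linarith [hs.2]⟩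
      have e1 : (fun s => sl ε τ (Fc r s)) =ᶠ[𝓝 t] Fc r := (hev t ht).trans hU
      have e2 : sl ε τ (Fc r t) = Fc r t := e1.eq_of_nhds
      rw [e1.deriv_eq, e2, sub_self]
    rw [setIntegral_eq_of_subset_of_forall_sdiff_eq_zero measurableSet_Ioo
      (fun t ht => hsub t ⟨ht.1.le, ht.2⟩) hvan]
    refine setIntegral_congr_fun measurableSet_Ioc fun t ht => ?_
    have ht' := hsub t ⟨ht.1.le, ht.2⟩
    have e1 := hev t ht'
    have e2 : sl ε τ (Fc r t) = Fc (rs ε τ r) t := e1.eq_of_nhds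
    change (‖deriv (Fc r) t‖ : ℂ) * phi ζ (Fc r t) - (‖deriv (Fc (rs ε τ r)) t‖ : ℂ) *
        phi ζ (Fc (rs ε τ r) t) = (‖deriv (Fc r) t‖ : ℂ) * phi ζ (Fc r t) -
          (‖deriv (fun s => sl ε τ (Fc r s)) t‖ : ℂ) * phi ζ (sl ε τ (Fc r t))
    rw [e1.deriv_eq, e2]
  have hfun : (fun ζ : ℂ × ℂ => ‖Wt (Fc r) t0 (1 / 2 - t0) ζ -
      Wt (Fc (rs ε τ r)) t0 (1 / 2 - t0) ζ‖ ^ 2) = fun ζ => ‖Wd ε τ r ζ‖ ^ 2 := by
    funext ζ
    rw [hW ζ]
  rw [hfun] at hint hVV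
  refine ⟨hint, ?_⟩
  rw [← hVV]
  unfold VV
  refine intervalIntegral.integral_congr fun s hs => ?_
  refine intervalIntegral.integral_congr fun t ht => ?_
  rw [uIcc_of_le hle] at hs ht
  have hs' := hsub s hs
  have ht' := hsub t ht
  have ds := (hF s (hrq s hs')).2.1
  have dt := (hF t (hrq t ht')).2.1
  have es := (hG s (hgq s hs')).2.1
  have et := (hG t (hgq t ht')).2.1
  rw [g12] at es et
  have hgs : rs ε τ r s ≠ r (1 / 2) := by rw [← g12]; exact hgq s hs'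
  have hgt : rs ε τ r t ≠ r (1 / 2) := by rw [← g12]; exact hgq t ht'
  have p2' : (ph (rs ε τ r)) 2 = 0 := by rw [hph]; exact p2
  change kk r r s t - kk r (rs ε τ r) s t - kk (rs ε τ r) r s t + kk (rs ε τ r) (rs ε τ r) s t =
    kk (Fc r) (Fc r) s t - kk (Fc r) (Fc (rs ε τ r)) s t - kk (Fc (rs ε τ r)) (Fc r) s t +
      kk (Fc (rs ε τ r)) (Fc (rs ε τ r)) s t
  rw [kk_chart hM hI q2 rfl p2 rfl rfl (hrq s hs') (hrq t ht') ds dt,
    kk_chart hM hI q2 hph.symm p2 rfl g12 (hrq s hs') hgt ds et,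
    kk_chart hM hI q2 hph p2' g12 rfl hgs (hrq t ht') es dt,
    kk_chart hM hI q2 rfl p2' g12 g12 hgs hgt es et]

end MP_e78765_gt
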