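import Pool.Agent.Lib.MP_e78765_gt.Spec

/-!
# The limit of the reflection form (MP_e78765_gt)
-/

set_option autoImplicit false

open scoped ContDiff Topology
open MeasureTheory Set Filter

namespace MP_e78765_gt

namespace Vlim_aux

lemma continuous_phi_x (ζ : ℂ × ℂ) : Continuous (fun x : E3 => phi ζ x) := by
  unfold phi
  fun_prop

lemma continuous_phi_z (x : E3) : Continuous (fun ζ : ℂ × ℂ => phi ζ x) := by
  unfold phi
  fun_prop

lemma sq_pos_of_ne {ζ : ℂ × ℂ} (h : ζ ≠ 0) : 0 < ‖ζ.1‖ ^ 2 + ‖ζ.2‖ ^ 2 := by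
  by_cases h1 : ζ.1 = 0
  · have h2 : ζ.2 ≠ 0 := fun h2 => h (Prod.ext h1 h2)
    have := norm_pos_iff.2 h2
    positivity
  · have := norm_pos_iff.2 h1
    positivity

/-- the integrand of `Wd` -/
noncomputable def gd (ε τ : ℝ) (r : ℝ → E3) (ζ : ℂ × ℂ) (t : ℝ) : ℂ :=
  ((‖deriv (Fc r) t‖ : ℂ) * phi ζ (Fc r t)
    - (‖deriv (fun s => sl ε τ (Fc r s)) t‖ : ℂ) * phi ζ (sl ε τ (Fc r t)))

/-- the integrand of `Wi` -/
noncomputable def gi (τ : ℝ) (r : ℝ → E3) (ζ : ℂ × ℂ) (t : ℝ) : ℂ :=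
  ((‖deriv (Fc r) t‖ : ℂ) * phi ζ (Fc r t)
    - (Real.exp τ * ‖deriv (Fc r) t‖ : ℝ) * phi ζ (Real.exp τ • Fc r t))

/-- facts from the chart -/
structure Good (r : ℝ → E3) : Prop where
  cont : ∀ t ∈ Ioo (0 : ℝ) (1 / 2), ContinuousAt (Fc r) t
  diff : ∀ t ∈ Ioo (0 : ℝ) (1 / 2), DifferentiableAt ℝ (Fc r) t
  ne : ∀ t ∈ Ioo (0 : ℝ) (1 / 2), Fc r t ≠ 0

lemma good (hCh : S_Ch) {r : ℝ → E3} (hr : MirrorKnot r) : Good r := by
  obtain ⟨h1, h2, h3, h4, h5, h6, h7, h8, h9, h10, h11, h12, h13, h14, h15, h16⟩ := hCh r hr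
  have hne : ∀ t ∈ Ioo (0 : ℝ) (1 / 2), r t ≠ r (1 / 2) := by
    intro t ht h
    obtain ⟨n, hn⟩ := (h5 t).1 h
    have hn1 : (n : ℝ) < 0 := by linarith [ht.2]
    have hn2 : (-1 : ℝ) < n := by linarith [ht.1]
    have hn3 : n < 0 := by exact_mod_cast hn1
    have hn4 : -1 < n := by exact_mod_cast hn2
    omega
  refine ⟨fun t ht => (h9 t (hne t ht)).1.continuousAt,
    fun t ht => (h9 t (hne t ht)).1.differentiableAt (by simp), fun t ht h => ?_⟩
  have := h13 t ht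
  rw [h] at this
  simp at this

lemma meas_gd (hCut : S_Cut) {r : ℝ → E3} (hG : Good r) {ε : ℝ} (hε : 0 < ε) (τ : ℝ)
    (ζ : ℂ × ℂ) :
    AEStronglyMeasurable (gd ε τ r ζ) (volume.restrict (Ioo (0 : ℝ) (1 / 2))) := by
  have hc : ContinuousOn (Fc r) (Ioo (0 : ℝ) (1 / 2)) := fun t ht =>
    (hG.cont t ht).continuousWithinAt
  have hsl : Continuous (sl ε τ) := by
    unfold sl
    have := (hCut ε hε).2.2.2.2.2.2.continuous
    fun_prop
  have m1 : AEStronglyMeasurable (fun t => phi ζ (Fc r t))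
      (volume.restrict (Ioo (0 : ℝ) (1 / 2))) :=
    ((continuous_phi_x ζ).comp_continuousOn hc).aestronglyMeasurable measurableSet_Ioo
  have m2 : AEStronglyMeasurable (fun t => phi ζ (sl ε τ (Fc r t)))
      (volume.restrict (Ioo (0 : ℝ) (1 / 2))) :=
    ((continuous_phi_x ζ).comp_continuousOn
      (hsl.comp_continuousOn hc)).aestronglyMeasurable measurableSet_Ioo
  have m3 : ∀ f : ℝ → E3, AEStronglyMeasurable (fun t => (‖deriv f t‖ : ℂ))
      (volume.restrict (Ioo (0 : ℝ) (1 / 2))) := by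
    intro f
    have : Measurable (fun t => (‖deriv f t‖ : ℂ)) :=
      Complex.measurable_ofReal.comp (measurable_deriv f).norm
    exact this.aestronglyMeasurable
  exact ((m3 _).mul m1).sub ((m3 _).mul m2)

lemma meas_gi {r : ℝ → E3} (hG : Good r) (τ : ℝ)
    (ζ : ℂ × ℂ) :
    AEStronglyMeasurable (gi τ r ζ) (volume.restrict (Ioo (0 : ℝ) (1 / 2))) := by
  have hc : ContinuousOn (Fc r) (Ioo (0 : ℝ) (1 / 2)) := fun t ht =>
    (hG.cont t ht).continuousWithinAt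
  have m1 : AEStronglyMeasurable (fun t => phi ζ (Fc r t))
      (volume.restrict (Ioo (0 : ℝ) (1 / 2))) :=
    ((continuous_phi_x ζ).comp_continuousOn hc).aestronglyMeasurable measurableSet_Ioo
  have m2 : AEStronglyMeasurable (fun t => phi ζ (Real.exp τ • Fc r t))
      (volume.restrict (Ioo (0 : ℝ) (1 / 2))) :=
    ((continuous_phi_x ζ).comp_continuousOn
      (hc.const_smul (Real.exp τ))).aestronglyMeasurable measurableSet_Ioo
  have m3 : AEStronglyMeasurable (fun t => (‖deriv (Fc r) t‖ : ℂ))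
      (volume.restrict (Ioo (0 : ℝ) (1 / 2))) := by
    have : Measurable (fun t => (‖deriv (Fc r) t‖ : ℂ)) :=
      Complex.measurable_ofReal.comp (measurable_deriv _).norm
    exact this.aestronglyMeasurable
  have m4 : AEStronglyMeasurable (fun t => ((Real.exp τ * ‖deriv (Fc r) t‖ : ℝ) : ℂ))
      (volume.restrict (Ioo (0 : ℝ) (1 / 2))) := by
    have : Measurable (fun t => ((Real.exp τ * ‖deriv (Fc r) t‖ : ℝ) : ℂ)) :=
      Complex.measurable_ofReal.comp ((measurable_deriv _).norm.const_mul _)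
    exact this.aestronglyMeasurable
  exact (m3.mul m1).sub (m4.mul m2)

/-- pointwise the integrand is eventually constant -/
lemma ev_eq (hCut : S_Cut) {r : ℝ → E3} (hG : Good r) (τ : ℝ) (ζ : ℂ × ℂ) {t : ℝ}
    (ht : t ∈ Ioo (0 : ℝ) (1 / 2)) : ∀ᶠ ε in 𝓝[>] (0 : ℝ), gd ε τ r ζ t = gi τ r ζ t := by
  have hN : 0 < ‖Fc r t‖ := norm_pos_iff.2 (hG.ne t ht)
  set N := ‖Fc r t‖ with hNdef
  have he : 0 < Real.exp 1 := Real.exp_pos 1
  have hε0 : 0 < min (N / 2 / Real.exp 1) (1 / (Real.exp 1 * (2 * N))) := by positivity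
  filter_upwards [Ioo_mem_nhdsGT hε0] with ε hε
  have hε1 : 0 < ε := hε.1
  have hε2 : Real.exp 1 * ε ≤ N / 2 := by
    have := lt_of_lt_of_le hε.2 (min_le_left _ _)
    rw [lt_div_iff₀ he] at this
    linarith
  have hε3 : Real.exp 1 * (ε * (2 * N)) ≤ 1 := by
    have := lt_of_lt_of_le hε.2 (min_le_right _ _)
    rw [lt_div_iff₀ (by positivity)] at this
    linarith
  have hev : (fun s => sl ε τ (Fc r s)) =ᶠ[𝓝 t] fun s => Real.exp τ • Fc r s := by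
    have h1 : ∀ᶠ s in 𝓝 t, N / 2 < ‖Fc r s‖ :=
      (hG.cont t ht).norm.eventually (lt_mem_nhds (by linarith))
    have h2 : ∀ᶠ s in 𝓝 t, ‖Fc r s‖ < 2 * N :=
      (hG.cont t ht).norm.eventually (gt_mem_nhds (by linarith))
    filter_upwards [h1, h2] with s hs1 hs2
    have hcut : cut ε (Fc r s) = 1 := by
      refine (hCut ε hε1).2.2.2.1 _ (by linarith) ?_
      refine le_trans ?_ hε3
      have : ε * ‖Fc r s‖ ≤ ε * (2 * N) := mul_le_mul_of_nonneg_left hs2.le hε1.le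
      exact mul_le_mul_of_nonneg_left this he.le
    show Real.exp (τ * cut ε (Fc r s)) • Fc r s = _
    rw [hcut, mul_one]
  have hval : sl ε τ (Fc r t) = Real.exp τ • Fc r t := hev.eq_of_nhds
  have hder : deriv (fun s => sl ε τ (Fc r s)) t = Real.exp τ • deriv (Fc r) t := by
    rw [hev.deriv_eq]
    exact deriv_fun_const_smul _ (hG.diff t ht)
  rw [gd, gi, hval, hder, norm_smul, Real.norm_eq_abs, abs_of_pos (Real.exp_pos τ)]

end Vlim_aux

open Vlim_aux in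
theorem tVlim : S_Dom → S_Cut → S_Ker → S_Ch → S_Vlim := by
  intro hDom hCut _ hCh r τ hr hSm hint hlim
  have hG := good hCh hr
  have hWd : ∀ ε ζ, Wd ε τ r ζ = ∫ t in Ioo (0 : ℝ) (1 / 2), gd ε τ r ζ t := fun _ _ => rfl
  have hWi : ∀ ζ, Wi τ r ζ = ∫ t in Ioo (0 : ℝ) (1 / 2), gi τ r ζ t := fun _ => rfl
  have hfin : IsFiniteMeasure (volume.restrict (Ioo (0 : ℝ) (1 / 2))) :=
    ⟨by rw [Measure.restrict_apply_univ]; simp⟩
  -- (1)
  have h1 : ∀ ζ : ℂ × ℂ, ζ ≠ 0 → Tendsto (fun ε => Wd ε τ r ζ) (𝓝[>] 0) (𝓝 (Wi τ r ζ)) := by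
    intro ζ hζ
    obtain ⟨C, hC⟩ := hDom r τ hr hSm _ (sq_pos_of_ne hζ)
    simp_rw [hWd, hWi]
    refine tendsto_integral_filter_of_dominated_convergence (fun _ => C + C) ?_ ?_ ?_ ?_
    · filter_upwards [self_mem_nhdsWithin] with ε hε
      exact meas_gd hCut hG hε τ ζ
    · filter_upwards [self_mem_nhdsWithin] with ε hε
      refine (ae_restrict_iff' measurableSet_Ioo).2 (Eventually.of_forall fun t ht => ?_)
      obtain ⟨b1, b2, -⟩ := hC ζ ε le_rfl hε t ht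
      exact (norm_sub_le _ _).trans (add_le_add b1 b2)
    · exact integrable_const _
    · refine (ae_restrict_iff' measurableSet_Ioo).2 (Eventually.of_forall fun t ht => ?_)
      exact tendsto_const_nhds.congr' ((ev_eq hCut hG τ ζ ht).mono fun ε h => h.symm)
  -- (2)
  have h2 : ∀ ζ : ℂ × ℂ, ζ ≠ 0 → ContinuousAt (fun ζ => Wi τ r ζ) ζ := by
    intro ζ hζ
    have hpos := sq_pos_of_ne hζ
    obtain ⟨C, hC⟩ := hDom r τ hr hSm ((‖ζ.1‖ ^ 2 + ‖ζ.2‖ ^ 2) / 2) (by linarith)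
    have hnear : ∀ᶠ ξ : ℂ × ℂ in 𝓝 ζ, (‖ζ.1‖ ^ 2 + ‖ζ.2‖ ^ 2) / 2 < ‖ξ.1‖ ^ 2 + ‖ξ.2‖ ^ 2 := by
      have hcont : Continuous (fun ξ : ℂ × ℂ => ‖ξ.1‖ ^ 2 + ‖ξ.2‖ ^ 2) := by fun_prop
      exact hcont.continuousAt.eventually (lt_mem_nhds (by linarith))
    simp_rw [hWi]
    refine continuousAt_of_dominated (bound := fun _ => C + C) ?_ ?_ ?_ ?_
    · exact Eventually.of_forall fun ξ => meas_gi hG τ ξ
    · filter_upwards [hnear] with ξ hξ
      refine (ae_restrict_iff' measurableSet_Ioo).2 (Eventually.of_forall fun t ht => ?_)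
      obtain ⟨b1, -, b3⟩ := hC ξ 1 hξ.le one_pos t ht
      exact (norm_sub_le _ _).trans (add_le_add b1 b3)
    · exact integrable_const _
    · refine Eventually.of_forall fun t => ?_
      have : Continuous (fun ξ : ℂ × ℂ => gi τ r ξ t) := by
        unfold gi
        exact ((continuous_const).mul (continuous_phi_z _)).sub
          ((continuous_const).mul (continuous_phi_z _))
      exact this.continuousAt
  -- (3)
  set e : ℕ → ℝ := fun n => 1 / ((n : ℝ) + 1) with he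
  have hepos : ∀ n, 0 < e n := fun n => by simp only [he]; positivity
  have hetend : Tendsto e atTop (𝓝[>] 0) :=
    tendsto_nhdsWithin_iff.2 ⟨tendsto_one_div_add_atTop_nhds_zero_nat,
      Eventually.of_forall hepos⟩
  have hmeas : ∀ n, AEMeasurable (fun ζ : ℂ × ℂ => ENNReal.ofReal (‖Wd (e n) τ r ζ‖ ^ 2)) volume :=
    fun n => (hint _ (hepos n)).aestronglyMeasurable.aemeasurable.ennreal_ofReal
  have hae0 : ∀ᵐ ζ : ℂ × ℂ, ζ ≠ 0 := by
    have : volume ({0} : Set (ℂ × ℂ)) = 0 := by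
      have hs : ({0} : Set (ℂ × ℂ)) = ({0} : Set ℂ) ×ˢ ({0} : Set ℂ) := by
        ext z
        simp [Prod.ext_iff]
      rw [hs, Measure.volume_eq_prod, Measure.prod_prod]
      simp
    exact (measure_eq_zero_iff_ae_notMem.1 this).mono fun ζ h h' => h (by simpa using h')
  have htend : ∀ᵐ ζ : ℂ × ℂ, Tendsto (fun n => ENNReal.ofReal (‖Wd (e n) τ r ζ‖ ^ 2)) atTop
      (𝓝 (ENNReal.ofReal (‖Wi τ r ζ‖ ^ 2))) := by
    filter_upwards [hae0] with ζ hζ
    have := ((h1 ζ hζ).comp hetend)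
    exact ENNReal.tendsto_ofReal (this.norm.pow 2)
  have hmeasI : AEMeasurable (fun ζ : ℂ × ℂ => ENNReal.ofReal (‖Wi τ r ζ‖ ^ 2)) volume :=
    aemeasurable_of_tendsto_metrizable_ae atTop hmeas htend
  have hFatou : ∫⁻ ζ : ℂ × ℂ, ENNReal.ofReal (‖Wi τ r ζ‖ ^ 2) = 0 := by
    have hle : ∫⁻ ζ : ℂ × ℂ, liminf (fun n => ENNReal.ofReal (‖Wd (e n) τ r ζ‖ ^ 2)) atTop ≤
        liminf (fun n => ∫⁻ ζ : ℂ × ℂ, ENNReal.ofReal (‖Wd (e n) τ r ζ‖ ^ 2)) atTop :=
      lintegral_liminf_le' hmeas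
    have heq : ∫⁻ ζ : ℂ × ℂ, liminf (fun n => ENNReal.ofReal (‖Wd (e n) τ r ζ‖ ^ 2)) atTop =
        ∫⁻ ζ : ℂ × ℂ, ENNReal.ofReal (‖Wi τ r ζ‖ ^ 2) :=
      lintegral_congr_ae (htend.mono fun ζ h => h.liminf_eq)
    have hr' : liminf (fun n => ∫⁻ ζ : ℂ × ℂ, ENNReal.ofReal (‖Wd (e n) τ r ζ‖ ^ 2)) atTop = 0 := by
      have hq : ∀ n, ∫⁻ ζ : ℂ × ℂ, ENNReal.ofReal (‖Wd (e n) τ r ζ‖ ^ 2) =
          ENNReal.ofReal (∫ ζ : ℂ × ℂ, ‖Wd (e n) τ r ζ‖ ^ 2) := fun n =>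
        (ofReal_integral_eq_lintegral_ofReal (hint _ (hepos n))
          (Eventually.of_forall fun ζ => by positivity)).symm
      simp_rw [hq]
      have := ENNReal.tendsto_ofReal (hlim.comp hetend)
      rw [ENNReal.ofReal_zero] at this
      exact this.liminf_eq
    rw [← heq]
    exact le_antisymm (hle.trans hr'.le) zero_le
  have hae : ∀ᵐ ζ : ℂ × ℂ, Wi τ r ζ = 0 := by
    have := (lintegral_eq_zero_iff' hmeasI).1 hFatou
    filter_upwards [this] with ζ hζ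
    have h3 : ENNReal.ofReal (‖Wi τ r ζ‖ ^ 2) = 0 := hζ
    have h4 := ENNReal.ofReal_eq_zero.1 h3
    have h5 : ‖Wi τ r ζ‖ ^ 2 = 0 := le_antisymm h4 (by positivity)
    exact norm_eq_zero.1 (pow_eq_zero_iff (two_ne_zero) |>.1 h5)
  intro ζ hζ
  by_contra hne
  have hmem : {ξ : ℂ × ℂ | Wi τ r ξ ≠ 0} ∈ 𝓝 ζ := (h2 ζ hζ).eventually_ne hne
  have hpos := Measure.measure_pos_of_mem_nhds (volume : Measure (ℂ × ℂ)) hmem
  exact hpos.ne' (ae_iff.1 hae)

end MP_e78765_gt
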