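import Pool.Agent.Lib.MP_e78765_gt.Spec2
import Pool.Agent.Lib.MP_e78765_gt.Fin
import Pool.Agent.Lib.MP_e78765_gt.Mir
import Pool.Agent.Lib.MP_e78765_gt.Alg
import Pool.Agent.Lib.MP_e78765_gt.Mu
import Pool.Agent.Lib.MP_e78765_gt.Inv
import Pool.Agent.Lib.MP_e78765_gt.Bd
import Pool.Agent.Lib.MP_e78765_gt.Loc
import Pool.Agent.Lib.MP_e78765_gt.QB
import Pool.Agent.Lib.MP_e78765_gt.DSu
import Pool.Agent.Lib.MP_e78765_gt.DS
import Pool.Agent.Lib.MP_e78765_gt.Split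
import Pool.Agent.Lib.MP_e78765_gt.Parts
import Pool.Agent.Lib.MP_e78765_gt.StB
import Pool.Agent.Lib.MP_e78765_gt.Cut
import Pool.Agent.Lib.MP_e78765_gt.Sl
import Pool.Agent.Lib.MP_e78765_gt.Ch
import Pool.Agent.Lib.MP_e78765_gt.Cone
import Pool.Agent.Lib.MP_e78765_gt.Gc
import Pool.Agent.Lib.MP_e78765_gt.Rs
import Pool.Agent.Lib.MP_e78765_gt.As
import Pool.Agent.Lib.MP_e78765_gt.Dl
import Pool.Agent.Lib.MP_e78765_gt.Iso
import Pool.Agent.Lib.MP_e78765_gt.Ua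
import Pool.Agent.Lib.MP_e78765_gt.Ub
import Pool.Agent.Lib.MP_e78765_gt.U
import Pool.Agent.Lib.MP_e78765_gt.Unif
import Pool.Agent.Lib.MP_e78765_gt.Lim
import Pool.Agent.Lib.MP_e78765_gt.Ker
import Pool.Agent.Lib.MP_e78765_gt.RP
import Pool.Agent.Lib.MP_e78765_gt.VW
import Pool.Agent.Lib.MP_e78765_gt.Dom
import Pool.Agent.Lib.MP_e78765_gt.Vlim
import Pool.Agent.Lib.MP_e78765_gt.Lap
import Pool.Agent.Lib.MP_e78765_gt.Circ

/-! THEOREM R for mirror knots: all modules put together. -/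

namespace MP_e78765_gt

theorem tR : S_R := by
  have hQB : S_QB := tQB tMu tBd
  have hDS : S_DS := tDS (tDSu (tLoc tBd) tBd) hQB
  have hSl : S_Sl := tSl tStB tCut tInv tMir
  have hCh : S_Ch := tCh tInv tMir
  have hCone : S_Cone := tCone hCh tBd tInv
  have hGc : S_Gc := tGc tInv hCh
  have hRs : S_Rs := tRs hCh hSl tCut tInv
  have hDom : S_Dom := tDom hCone hSl tKer hCh
  have hU : S_U := tU tUa (tUb tStB tCut) tMu hSl
  have hUnif : S_Unif := tUnif hU hCh hGc hCone hRs hSl tInv tAlg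
  have hRP : S_RP := tRP tKer
  intro r hr hround
  exact fin_main (tSplit hDS hQB tAlg tMir) (tParts hQB tAlg tMir tBd) tStB hRs (tAs hRs hCh)
    (tIso (tDl tStB tCut) hCh hCone hRs tStB) (tLim hDS hUnif hRs hCh tCut tAlg hQB)
    (tVW hRP hRs hCh tInv tMir hSl) (tVlim hDom tCut tKer hCh) (tLap hDom hCone hCh)
    (tCirc hCh) r hr hround

end MP_e78765_gt
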