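import Pool.Agent.Lib.MP_e78765_gt.Spec3

/-!
# MP_e78765_gt, module VG: the reflection form of two mirror knots in the chart (port of VW.lean)
-/

set_option autoImplicit false

open scoped ContDiff Topology
open MeasureTheory Set Filter

namespace MP_e78765_gt

namespace VG_aux

theorem mir_eq {x : E3} (h : x 2 = 0) : mir x = x := by
  ext i
  fin_cases i
  · simp [mir]
  · simp [mir]
  · simp [mir, h]

/-- The kernel in the chart. -/
theorem kk_chart (hM : S_Mir) (hI : S_Inv) {a b : ℝ → E3} {q : E3} (hq : q 2 = 0)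
    (hp : ph a = ph b) (hp2 : (ph a) 2 = 0) (haq : a (1 / 2) = q) (hbq : b (1 / 2) = q) {s t : ℝ}
    (hs : a s ≠ q) (ht : b t ≠ q) (hda : deriv (Fc a) s = dinv (a s - q) (deriv a s))
    (hdb : deriv (Fc b) t = dinv (b t - q) (deriv b t)) :
    kk (Fc a) (Fc b) s t = kk a b s t := by
  obtain ⟨-, -, m3, m4, m5, -⟩ := hM
  obtain ⟨-, -, -, i4, i5, i6, -⟩ := hI
  have hX : a s - q ≠ 0 := sub_ne_zero.2 hs
  have hY : b t - q ≠ 0 := sub_ne_zero.2 ht
  have hXn : ‖a s - q‖ ≠ 0 := norm_ne_zero_iff.2 hX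
  have hYn : ‖b t - q‖ ≠ 0 := norm_ne_zero_iff.2 hY
  have hmY : mir (b t - q) ≠ 0 := by
    rw [← norm_ne_zero_iff, m5]
    exact hYn
  have e1 : Fc a s - mir (Fc b t) = inv (a s - q) - inv (mir (b t - q)) := by
    unfold Fc ch
    rw [haq, hbq, m3, i6, ← hp, mir_eq hp2]
    abel
  have e2 : a s - q - mir (b t - q) = a s - mir (b t) := by
    rw [m3, mir_eq hq]
    abel
  unfold kk kf
  rw [e1, i4 _ _ hX hmY, hda, hdb, i5 _ _ hX, i5 _ _ hY, m5, e2]
  by_cases h0 : ‖a s - mir (b t)‖ = 0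
  · rw [h0]
    simp
  · field_simp

theorem deriv_cont {f : ℝ → E3} {t : ℝ} (h : ContDiffAt ℝ ∞ f t) : ContinuousAt (deriv f) t := by
  have h1 : ContDiffAt ℝ 0 (fderiv ℝ f) t := h.fderiv_right (by simp)
  have h2 : deriv f = fun s => fderiv ℝ f s 1 := by
    funext s
    exact (fderiv_apply_one_eq_deriv (f := f) (x := s)).symm
  rw [h2]
  exact h1.continuousAt.clm_apply continuousAt_const

theorem ne_q {r : ℝ → E3} (hq : ∀ t, r t = r (1 / 2) ↔ ∃ n : ℤ, t = 1 / 2 + n) :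
    ∀ t ∈ Ioo (0 : ℝ) (1 / 2), r t ≠ r (1 / 2) := by
  intro t ht h
  obtain ⟨n, hn⟩ := (hq t).1 h
  have h1 : (n : ℝ) < 0 := by linarith [ht.2]
  have h2 : (-1 : ℝ) < n := by linarith [ht.1]
  have h3 : n < 0 := by exact_mod_cast h1
  have h4 : -1 < n := by exact_mod_cast h2
  omega

end VG_aux

open VG_aux in
theorem tVG : S_RP → S_Ch → S_Inv → S_Mir → S_VG := by
  intro hRP hCh hI hM f g α β hf hg g0 g12 hα hle hβ
  obtain ⟨-, q2, p2, -, hq, -, -, -, hF, -, -, -, hpos, -⟩ := hCh f hf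
  obtain ⟨-, -, -, -, hq', -, -, -, hG, -, -, -, hposG, -⟩ := hCh g hg
  have hph : ph g = ph f := by
    unfold ph
    rw [g0, g12]
  have hfq := ne_q hq
  have hgq := ne_q hq'
  have hsub : ∀ t ∈ Icc α β, t ∈ Ioo (0 : ℝ) (1 / 2) :=
    fun t ht => ⟨by linarith [ht.1], by linarith [ht.2]⟩
  have hFc : ContinuousOn (Fc f) (Icc α β) := fun t ht =>
    (hF t (hfq t (hsub t ht))).1.continuousAt.continuousWithinAt
  have hGc : ContinuousOn (Fc g) (Icc α β) := fun t ht =>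
    (hG t (hgq t (hsub t ht))).1.continuousAt.continuousWithinAt
  have hFd : ContinuousOn (deriv (Fc f)) (Icc α β) := fun t ht =>
    (deriv_cont (hF t (hfq t (hsub t ht))).1).continuousWithinAt
  have hGd : ContinuousOn (deriv (Fc g)) (Icc α β) := fun t ht =>
    (deriv_cont (hG t (hgq t (hsub t ht))).1).continuousWithinAt
  obtain ⟨hint, hVV⟩ := hRP (Fc f) (Fc g) α β hle hFc hGc hFd hGd
    (fun t ht => hpos t (hsub t ht)) (fun t ht => hposG t (hsub t ht))
  refine ⟨hint, ?_⟩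
  rw [← hVV]
  unfold VV
  refine intervalIntegral.integral_congr fun s hs => ?_
  refine intervalIntegral.integral_congr fun t ht => ?_
  rw [uIcc_of_le hle] at hs ht
  have hs' := hsub s hs
  have ht' := hsub t ht
  have ds := (hF s (hfq s hs')).2.1
  have dt := (hF t (hfq t ht')).2.1
  have es := (hG s (hgq s hs')).2.1
  have et := (hG t (hgq t ht')).2.1
  rw [g12] at es et
  have hgs : g s ≠ f (1 / 2) := by rw [← g12]; exact hgq s hs'
  have hgt : g t ≠ f (1 / 2) := by rw [← g12]; exact hgq t ht'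
  have p2' : (ph g) 2 = 0 := by rw [hph]; exact p2
  change kk f f s t - kk f g s t - kk g f s t + kk g g s t =
    kk (Fc f) (Fc f) s t - kk (Fc f) (Fc g) s t - kk (Fc g) (Fc f) s t + kk (Fc g) (Fc g) s t
  rw [kk_chart hM hI q2 rfl p2 rfl rfl (hfq s hs') (hfq t ht') ds dt,
    kk_chart hM hI q2 hph.symm p2 rfl g12 (hfq s hs') hgt ds et,
    kk_chart hM hI q2 hph p2' g12 rfl hgs (hfq t ht') es dt,
    kk_chart hM hI q2 rfl p2' g12 g12 hgs hgt es et]

end MP_e78765_gt
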