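import Pool.Agent.Lib.MP_e78765_gt.Spec3

/-!
# Module WA: the push multiplies the transform of the difference by an exponential
-/

set_option autoImplicit false

open scoped ContDiff Topology
open MeasureTheory Set Filter

namespace MP_e78765_gt

namespace WA_aux

lemma e3_0 : e3 0 = 0 := by simp [e3]
lemma e3_1 : e3 1 = 0 := by simp [e3]
lemma e3_2 : e3 2 = 1 := by simp [e3]

lemma ext3 {x y : E3} (h0 : x 0 = y 0) (h1 : x 1 = y 1) (h2 : x 2 = y 2) : x = y := by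
  ext i
  fin_cases i
  · exact h0
  · exact h1
  · exact h2

lemma ps_0 (ε c b : ℝ) (x : E3) : ps ε c b x 0 = x 0 := by
  rw [ps, PiLp.add_apply, PiLp.smul_apply, e3_0]; simp
lemma ps_1 (ε c b : ℝ) (x : E3) : ps ε c b x 1 = x 1 := by
  rw [ps, PiLp.add_apply, PiLp.smul_apply, e3_1]; simp

lemma Fc_eq {r ℓ : ℝ → E3} (h0 : ℓ 0 = r 0) (h2 : ℓ (1 / 2) = r (1 / 2)) {t : ℝ}
    (h : ℓ t = r t) : Fc r t = Fc ℓ t := by
  unfold Fc ch ph
  rw [h0, h2, h]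

theorem phi_cont (ζ : ℂ × ℂ) : Continuous (phi ζ) := by
  unfold phi
  fun_prop

theorem deriv_cont {f : ℝ → E3} {t : ℝ} (h : ContDiffAt ℝ ∞ f t) : ContinuousAt (deriv f) t := by
  have h1 : ContDiffAt ℝ 0 (fderiv ℝ f) t := h.fderiv_right (by simp)
  have h2 : deriv f = fun s => fderiv ℝ f s 1 := by
    funext s
    exact (fderiv_apply_one_eq_deriv (f := f) (x := s)).symm
  rw [h2]
  exact h1.continuousAt.clm_apply continuousAt_const

lemma phi_axis (ζ : ℂ × ℂ) {x : E3} (h0 : x 0 = 0) (h1 : x 1 = 0) :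
    phi ζ x = ((Real.exp (-(x 2 * (‖ζ.1‖ ^ 2 + ‖ζ.2‖ ^ 2))) : ℝ) : ℂ) := by
  unfold phi
  rw [h0, h1]
  push_cast
  congr 1
  ring

lemma phi_add (ζ : ℂ × ℂ) (x : E3) (a : ℝ) :
    phi ζ (x + a • e3) = ((Real.exp (-(a * (‖ζ.1‖ ^ 2 + ‖ζ.2‖ ^ 2))) : ℝ) : ℂ) * phi ζ x := by
  have h0 : (x + a • e3) 0 = x 0 := by rw [PiLp.add_apply, PiLp.smul_apply, e3_0]; simp
  have h1 : (x + a • e3) 1 = x 1 := by rw [PiLp.add_apply, PiLp.smul_apply, e3_1]; simp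
  have h2 : (x + a • e3) 2 = x 2 + a := by rw [PiLp.add_apply, PiLp.smul_apply, e3_2]; simp
  unfold phi
  rw [h0, h1, h2, Complex.ofReal_exp, ← Complex.exp_add]
  push_cast
  congr 1
  ring

lemma coord_deriv {f : ℝ → E3} {t : ℝ} (h : ContDiffAt ℝ ∞ f t) (i : Fin 3) :
    HasDerivAt (fun s => f s i) ((deriv f t) i) t := by
  have h1 : HasDerivAt f (deriv f t) t := (h.differentiableAt (by simp)).hasDerivAt
  have h2 := ((EuclideanSpace.proj (𝕜 := ℝ) i).hasFDerivAt (x := f t)).comp_hasDerivAt t h1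
  exact h2

lemma norm_axis {x : E3} (h0 : x 0 = 0) (h1 : x 1 = 0) (h2 : 0 ≤ x 2) : ‖x‖ = x 2 := by
  rw [EuclideanSpace.norm_eq, Fin.sum_univ_three, h0, h1]
  simp only [norm_zero, ne_eq, OfNat.ofNat_ne_zero, not_false_eq_true, zero_pow, zero_add,
    Real.norm_eq_abs, sq_abs]
  exact Real.sqrt_sq h2

lemma axis_deriv {f : ℝ → E3} {t : ℝ} (h : ContDiffAt ℝ ∞ f t)
    (hax : ∀ᶠ s in 𝓝 t, f s 0 = 0 ∧ f s 1 = 0) : (deriv f t) 0 = 0 ∧ (deriv f t) 1 = 0 := by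
  constructor
  · have h1 := (coord_deriv h 0).deriv
    rw [← h1]
    have h2 : (fun s => f s 0) =ᶠ[𝓝 t] fun _ => (0 : ℝ) := by
      filter_upwards [hax] with s hs using hs.1
    rw [h2.deriv_eq]
    simp
  · have h1 := (coord_deriv h 1).deriv
    rw [← h1]
    have h2 : (fun s => f s 1) =ᶠ[𝓝 t] fun _ => (0 : ℝ) := by
      filter_upwards [hax] with s hs using hs.2
    rw [h2.deriv_eq]
    simp

/-- the transform over a piece of the axis -/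
lemma axis_int (ζ : ℂ × ℂ) {f : ℝ → E3} {u v : ℝ} (huv : u ≤ v)
    (hf : ∀ t ∈ Icc u v, ContDiffAt ℝ ∞ f t)
    (hax : ∀ t ∈ Icc u v, ∀ᶠ s in 𝓝 t, f s 0 = 0 ∧ f s 1 = 0)
    (hpos : ∀ t ∈ Icc u v, 0 ≤ (deriv f t) 2) (hk : 0 < ‖ζ.1‖ ^ 2 + ‖ζ.2‖ ^ 2) :
    Wt f u v ζ = (((Real.exp (-(f u 2 * (‖ζ.1‖ ^ 2 + ‖ζ.2‖ ^ 2))) -
      Real.exp (-(f v 2 * (‖ζ.1‖ ^ 2 + ‖ζ.2‖ ^ 2)))) / (‖ζ.1‖ ^ 2 + ‖ζ.2‖ ^ 2) : ℝ) : ℂ) := by
  set k : ℝ := ‖ζ.1‖ ^ 2 + ‖ζ.2‖ ^ 2 with hkd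
  have h1 : Wt f u v ζ = ∫ t in u..v, (((deriv f t) 2 * Real.exp (-(f t 2 * k)) : ℝ) : ℂ) := by
    unfold Wt
    refine intervalIntegral.integral_congr fun t ht => ?_
    rw [uIcc_of_le huv] at ht
    simp only
    have h2 := axis_deriv (hf t ht) (hax t ht)
    have h3 := (hax t ht).self_of_nhds
    rw [phi_axis ζ h3.1 h3.2, norm_axis h2.1 h2.2 (hpos t ht), ← hkd, ← Complex.ofReal_mul]
  rw [h1, intervalIntegral.integral_ofReal]
  congr 1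
  have h4 : ∀ t ∈ uIcc u v, HasDerivAt (fun s => -(Real.exp (-(f s 2 * k)) / k))
      ((deriv f t) 2 * Real.exp (-(f t 2 * k))) t := by
    intro t ht
    rw [uIcc_of_le huv] at ht
    have h5 := coord_deriv (hf t ht) 2
    have h6 := (((h5.mul_const k).neg).exp.div_const k).neg
    refine h6.congr_deriv ?_
    change -(Real.exp (-(f t 2 * k)) * -((deriv f t) 2 * k) / k) =
      (deriv f t) 2 * Real.exp (-(f t 2 * k))
    have hk' : k ≠ 0 := hk.ne'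
    field_simp
  have h7 : IntervalIntegrable (fun t => (deriv f t) 2 * Real.exp (-(f t 2 * k))) volume u v := by
    refine ContinuousOn.intervalIntegrable ?_
    rw [uIcc_of_le huv]
    intro t ht
    have h8 : ContinuousAt (fun t => (deriv f t) 2) t :=
      (EuclideanSpace.proj (𝕜 := ℝ) (2 : Fin 3)).continuous.continuousAt.comp
        (deriv_cont (hf t ht))
    have h9 : ContinuousAt (fun t => f t 2) t := (coord_deriv (hf t ht) 2).continuousAt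
    exact (h8.mul ((h9.mul continuousAt_const).neg.rexp)).continuousWithinAt
  rw [intervalIntegral.integral_eq_sub_of_hasDerivAt h4 h7]
  ring

lemma Wt_split (ζ : ℂ × ℂ) {f : ℝ → E3} {α s t β : ℝ} (h0 : 0 < α) (h1 : α ≤ s) (h2 : s ≤ t)
    (h3 : t ≤ β) (h4 : β < 1 / 2) (hf : ∀ t ∈ Ioo (0 : ℝ) (1 / 2), ContDiffAt ℝ ∞ f t) :
    Wt f α β ζ = Wt f α s ζ + Wt f s t ζ + Wt f t β ζ := by
  have hI : ∀ u v : ℝ, α ≤ u → u ≤ v → v ≤ β →
      IntervalIntegrable (fun t => (‖deriv f t‖ : ℂ) * phi ζ (f t)) volume u v := by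
    intro u v hu huv hv
    refine ContinuousOn.intervalIntegrable ?_
    rw [uIcc_of_le huv]
    intro x hx
    have hx' : x ∈ Ioo (0 : ℝ) (1 / 2) := ⟨by linarith [hx.1], by linarith [hx.2]⟩
    refine ContinuousAt.continuousWithinAt ?_
    exact (Complex.continuous_ofReal.continuousAt.comp (deriv_cont (hf x hx')).norm).mul
      ((phi_cont ζ).continuousAt.comp (hf x hx').continuousAt)
  unfold Wt
  rw [intervalIntegral.integral_add_adjacent_intervals (hI α s le_rfl h1 (by linarith))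
      (hI s t h1 h2 h3),
    intervalIntegral.integral_add_adjacent_intervals (hI α t le_rfl (by linarith) h3)
      (hI t β (by linarith) h3 le_rfl)]

/-- the vertical coordinate of the axial knot is increasing -/
lemma z_pos (hCh : S_Ch) {ℓ : ℝ → E3} (hℓ : MirrorKnot ℓ)
    (hax : ∀ t ∈ Ioo (0 : ℝ) (1 / 2), (Fc ℓ t) 0 = 0 ∧ (Fc ℓ t) 1 = 0) :
    ∀ t ∈ Ioo (0 : ℝ) (1 / 2), 0 < (deriv (Fc ℓ) t) 2 := by
  obtain ⟨-, -, -, -, hq, -, -, -, hF, -, -, hF0, hFpos, -, -, -⟩ := hCh ℓ hℓ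
  have hne : ∀ t ∈ Ico (0 : ℝ) (1 / 2), ℓ t ≠ ℓ (1 / 2) := by
    intro t ht h
    obtain ⟨n, hn⟩ := (hq t).1 h
    have h1 : (n : ℝ) = t - 1 / 2 := by linarith
    have h2 : (-1 : ℝ) < n := by rw [h1]; linarith [ht.1]
    have h3 : (n : ℝ) < 0 := by rw [h1]; linarith [ht.2]
    have h4 : (-1 : ℤ) < n := by exact_mod_cast h2
    have h5 : n < (0 : ℤ) := by exact_mod_cast h3
    omega
  have hnz : ∀ t ∈ Ioo (0 : ℝ) (1 / 2), (deriv (Fc ℓ) t) 2 ≠ 0 := by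
    intro t ht h
    have h1 := hF t (hne t ⟨ht.1.le, ht.2⟩)
    have h2 := axis_deriv h1.1 (by
      filter_upwards [Ioo_mem_nhds ht.1 ht.2] with s hs using hax s hs)
    apply h1.2.2
    exact ext3 (by rw [h2.1]; simp) (by rw [h2.2]; simp) (by rw [h]; simp)
  have hcont : ∀ t ∈ Ioo (0 : ℝ) (1 / 2), ContinuousAt (fun t => (deriv (Fc ℓ) t) 2) t := by
    intro t ht
    exact (EuclideanSpace.proj (𝕜 := ℝ) (2 : Fin 3)).continuous.continuousAt.comp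
        (deriv_cont (hF t (hne t ⟨ht.1.le, ht.2⟩)).1)
  intro t ht
  by_contra hneg
  have hneg' : (deriv (Fc ℓ) t) 2 ≤ 0 := not_lt.1 hneg
  -- mean value theorem on `[0,t]`
  have hc0 : ContinuousOn (fun s => Fc ℓ s 2) (Icc 0 t) := by
    intro s hs
    exact (coord_deriv (hF s (hne s ⟨hs.1, by linarith [hs.2, ht.2]⟩)).1
      2).continuousAt.continuousWithinAt
  obtain ⟨x, hx, hx2⟩ := exists_hasDerivAt_eq_slope (fun s => Fc ℓ s 2)
    (fun s => (deriv (Fc ℓ) s) 2) ht.1 hc0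
    (fun s hs => coord_deriv (hF s (hne s ⟨hs.1.le, by linarith [hs.2, ht.2]⟩)).1 2)
  have h5 : 0 < (deriv (Fc ℓ) x) 2 := by
    rw [hx2, hF0]
    have h6 := hFpos t ht
    have h7 : (0 : E3) 2 = 0 := by simp
    simp only [h7, sub_zero]
    exact div_pos h6 ht.1
  obtain ⟨y, hy, hy2⟩ := intermediate_value_Icc' hx.2.le
    (f := fun t => (deriv (Fc ℓ) t) 2)
    (fun s hs => (hcont s ⟨by linarith [hs.1, hx.1],
      by linarith [hs.2, ht.2]⟩).continuousWithinAt) (show (0 : ℝ) ∈ Icc _ _ from ⟨hneg', h5.le⟩)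
  exact hnz y ⟨by linarith [hy.1, hx.1], by linarith [hy.2, ht.2]⟩ hy2

end WA_aux

open WA_aux in
theorem tWA : S_Ra → S_DW → S_Ps → S_Cut → S_Ch → S_WA := by
  intro hRa hDW hPs hCut hCh r ℓ t0 t1 ε c a hS ζ hζ
  obtain ⟨hkn, hax, ht0, ht01, ht1, hn0, hn2, hc0, hc1, hcone, hok, hin, hout⟩ := hS
  obtain ⟨hgk, hg0, hg2, ⟨t2, ht2, ht20, hgn0, hgn2⟩, hgq, hgF⟩ :=
    hRa r ℓ t0 t1 ε c a ⟨hkn, hax, ht0, ht01, ht1, hn0, hn2, hc0, hc1, hcone, hok, hin, hout⟩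
  set g : ℝ → E3 := ra ε c a r with hg
  have hε := hok.1
  obtain ⟨-, -, -, -, hps5, -, hps7⟩ := hPs ε c a hok hc0 hc1
  obtain ⟨-, -, -, hcut4, -, -, hcutS⟩ := hCut ε hε
  have hax2 := hax.axis
  have hk : 0 < ‖ζ.1‖ ^ 2 + ‖ζ.2‖ ^ 2 := by
    rcases eq_or_ne ζ.1 0 with h | h
    · have h2 : ζ.2 ≠ 0 := fun h2 => hζ (Prod.ext h h2)
      have h3 : 0 < ‖ζ.2‖ := norm_pos_iff.2 h2
      positivity
    · have h3 : 0 < ‖ζ.1‖ := norm_pos_iff.2 h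
      positivity
  have hhalf : ∀ t, t ∈ Ioo (0 : ℝ) (1 / 2) → r t ≠ r (1 / 2) := by
    intro t ht h
    obtain ⟨n, hn⟩ := ((hCh r hkn).2.2.2.2.1 t).1 h
    have h1 : (n : ℝ) = t - 1 / 2 := by linarith
    have h2 : (-1 : ℝ) < n := by rw [h1]; linarith [ht.1]
    have h3 : (n : ℝ) < 0 := by rw [h1]; linarith [ht.2]
    have h4 : (-1 : ℤ) < n := by exact_mod_cast h2
    have h5 : n < (0 : ℤ) := by exact_mod_cast h3
    omega
  have hhalfl : ∀ t, t ∈ Ioo (0 : ℝ) (1 / 2) → ℓ t ≠ ℓ (1 / 2) := by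
    intro t ht h
    obtain ⟨n, hn⟩ := ((hCh ℓ hax.kn).2.2.2.2.1 t).1 h
    have h1 : (n : ℝ) = t - 1 / 2 := by linarith
    have h2 : (-1 : ℝ) < n := by rw [h1]; linarith [ht.1]
    have h3 : (n : ℝ) < 0 := by rw [h1]; linarith [ht.2]
    have h4 : (-1 : ℤ) < n := by exact_mod_cast h2
    have h5 : n < (0 : ℤ) := by exact_mod_cast h3
    omega
  have hhalfg : ∀ t, t ∈ Ioo (0 : ℝ) (1 / 2) → g t ≠ g (1 / 2) := by
    intro t ht h
    rw [hg2] at h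
    exact hhalf t ht ((hgq t).1 h)
  have smF : ∀ t ∈ Ioo (0 : ℝ) (1 / 2), ContDiffAt ℝ ∞ (Fc r) t := fun t ht =>
    ((hCh r hkn).2.2.2.2.2.2.2.2.1 t (hhalf t ht)).1
  have smL : ∀ t ∈ Ioo (0 : ℝ) (1 / 2), ContDiffAt ℝ ∞ (Fc ℓ) t := fun t ht =>
    ((hCh ℓ hax.kn).2.2.2.2.2.2.2.2.1 t (hhalfl t ht)).1
  have smG : ∀ t ∈ Ioo (0 : ℝ) (1 / 2), ContDiffAt ℝ ∞ (Fc g) t := fun t ht =>
    ((hCh g hgk).2.2.2.2.2.2.2.2.1 t (hhalfg t ht)).1
  have zL := z_pos hCh hax.kn hax2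
  have zLp : ∀ t ∈ Ioo (0 : ℝ) (1 / 2), 0 < Fc ℓ t 2 := (hCh ℓ hax.kn).2.2.2.2.2.2.2.2.2.2.2.2.1
  -- `Fc r = Fc ℓ` near the ends
  have hFL : ∀ t, (t ∈ Ioo (0 : ℝ) t1 ∨ t ∈ Ioo (1 / 2 - t1) (1 / 2)) → Fc r t = Fc ℓ t := by
    rintro t (ht | ht)
    · exact Fc_eq hax.zero hax.half (hn0 t (by rw [abs_of_pos ht.1]; exact ht.2))
    · exact Fc_eq hax.zero hax.half (hn2 t (by rw [abs_of_neg (by linarith [ht.2])]
                                               linarith [ht.1]))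
  have hopen : ∀ t, (t ∈ Ioo (0 : ℝ) t1 ∨ t ∈ Ioo (1 / 2 - t1) (1 / 2)) →
      ∀ᶠ s in 𝓝 t, (s ∈ Ioo (0 : ℝ) t1 ∨ s ∈ Ioo (1 / 2 - t1) (1 / 2)) := by
    rintro t (ht | ht)
    · filter_upwards [Ioo_mem_nhds ht.1 ht.2] with s hs using Or.inl hs
    · filter_upwards [Ioo_mem_nhds ht.1 ht.2] with s hs using Or.inr hs
  have hsub : ∀ t, (t ∈ Ioo (0 : ℝ) t1 ∨ t ∈ Ioo (1 / 2 - t1) (1 / 2)) →
      t ∈ Ioo (0 : ℝ) (1 / 2) := by
    rintro t (ht | ht)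
    · exact ⟨ht.1, by linarith [ht.2]⟩
    · exact ⟨by linarith [ht.1], ht.2⟩
  have hGeq : ∀ t ∈ Ioo (0 : ℝ) (1 / 2), Fc g t = Fc r t + (a * cut ε (Fc r t)) • e3 := by
    intro t ht
    rw [hgF t (hhalf t ht), hps5 a _ (hcone t ht)]
  -- axis and monotonicity near the ends
  have axF : ∀ t, (t ∈ Ioo (0 : ℝ) t1 ∨ t ∈ Ioo (1 / 2 - t1) (1 / 2)) →
      ∀ᶠ s in 𝓝 t, (Fc r s) 0 = 0 ∧ (Fc r s) 1 = 0 := by
    intro t ht
    filter_upwards [hopen t ht] with s hs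
    rw [hFL s hs]
    exact hax2 s (hsub s hs)
  have axG : ∀ t, (t ∈ Ioo (0 : ℝ) t1 ∨ t ∈ Ioo (1 / 2 - t1) (1 / 2)) →
      ∀ᶠ s in 𝓝 t, (Fc g s) 0 = 0 ∧ (Fc g s) 1 = 0 := by
    intro t ht
    filter_upwards [hopen t ht] with s hs
    rw [hgF s (hhalf s (hsub s hs)), ps_0, ps_1, hFL s hs]
    exact hax2 s (hsub s hs)
  have axL : ∀ t ∈ Ioo (0 : ℝ) (1 / 2), ∀ᶠ s in 𝓝 t, (Fc ℓ s) 0 = 0 ∧ (Fc ℓ s) 1 = 0 := by
    intro t ht
    filter_upwards [Ioo_mem_nhds ht.1 ht.2] with s hs using hax2 s hs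
  have posF : ∀ t, (t ∈ Ioo (0 : ℝ) t1 ∨ t ∈ Ioo (1 / 2 - t1) (1 / 2)) →
      0 ≤ (deriv (Fc r) t) 2 := by
    intro t ht
    have h1 : Fc r =ᶠ[𝓝 t] Fc ℓ := by
      filter_upwards [hopen t ht] with s hs using hFL s hs
    rw [h1.deriv_eq]
    exact (zL t (hsub t ht)).le
  have posG : ∀ t, (t ∈ Ioo (0 : ℝ) t1 ∨ t ∈ Ioo (1 / 2 - t1) (1 / 2)) →
      0 ≤ (deriv (Fc g) t) 2 := by
    intro t ht
    have hz := coord_deriv (smL t (hsub t ht)) 2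
    have hzp := zLp t (hsub t ht)
    have hce : DifferentiableAt ℝ (fun z : ℝ => cut ε (z • e3)) (Fc ℓ t 2) := by
      have h1 : DifferentiableAt ℝ (cut ε) ((Fc ℓ t 2) • e3) :=
        (hcutS.differentiable (by simp)) _
      have h2 : DifferentiableAt ℝ (fun z : ℝ => z • e3) (Fc ℓ t 2) := by fun_prop
      exact h1.comp (Fc ℓ t 2) h2
    have h3 := ((hasDerivAt_id (Fc ℓ t 2)).add (hce.hasDerivAt.const_mul a))
    have h4 := h3.comp t hz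
    have h5 : (fun s => Fc g s 2) =ᶠ[𝓝 t]
        ((fun y => id y + a * (fun z : ℝ => cut ε (z • e3)) y) ∘ fun s => Fc ℓ s 2) := by
      filter_upwards [hopen t ht] with s hs
      have hs' := hsub s hs
      rw [hGeq s hs', hFL s hs, PiLp.add_apply, PiLp.smul_apply, e3_2]
      have h6 : (Fc ℓ s 2) • e3 = Fc ℓ s := by
        refine ext3 ?_ ?_ ?_
        · rw [PiLp.smul_apply, e3_0, (hax2 s hs').1]; simp
        · rw [PiLp.smul_apply, e3_1, (hax2 s hs').2]; simp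
        · rw [PiLp.smul_apply, e3_2]; simp
      simp only [Function.comp_apply, id_eq, smul_eq_mul, mul_one, h6]
    have h7 := (coord_deriv (smG t (hsub t ht)) 2).deriv
    have h10 := (h4.congr_of_eventuallyEq (by exact h5)).deriv
    rw [← h7, h10]
    have h8 := hps7 _ hzp
    have h9 := zL t (hsub t ht)
    exact mul_nonneg (by linarith) h9.le
  -- the middle
  have hin' : ∀ t ∈ Icc t0 (1 / 2 - t0), Fc g t = Fc r t + a • e3 := by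
    intro t ht
    have ht' : t ∈ Ioo (0 : ℝ) (1 / 2) := ⟨by linarith [ht.1], by linarith [ht.2]⟩
    rw [hGeq t ht', hcut4 _ (hin t ht) (hout t ht), mul_one]
  have hder : ∀ s ∈ Ioo t0 (1 / 2 - t0), deriv (Fc g) s = deriv (Fc r) s := by
    intro s hs
    have h1 : Fc g =ᶠ[𝓝 s] fun t => Fc r t + a • e3 := by
      filter_upwards [Ioo_mem_nhds hs.1 hs.2] with t ht
      exact hin' t (Ioo_subset_Icc_self ht)
    rw [h1.deriv_eq, deriv_add_const]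
  have hle : t0 ≤ 1 / 2 - t0 := by linarith
  have hmid : Wt (Fc g) t0 (1 / 2 - t0) ζ =
      ((Real.exp (-(a * (‖ζ.1‖ ^ 2 + ‖ζ.2‖ ^ 2))) : ℝ) : ℂ) * Wt (Fc r) t0 (1 / 2 - t0) ζ := by
    unfold Wt
    rw [← intervalIntegral.integral_const_mul, intervalIntegral.integral_of_le hle,
      intervalIntegral.integral_of_le hle, integral_Ioc_eq_integral_Ioo,
      integral_Ioc_eq_integral_Ioo]
    refine setIntegral_congr_fun measurableSet_Ioo ?_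
    intro s hs
    simp only
    rw [hder s hs, hin' s (Ioo_subset_Icc_self hs), phi_add]
    ring
  -- the two ends
  set α : ℝ := t2 / 2 with hα
  have hα0 : 0 < α := by positivity
  have hα2 : α < t2 := by rw [hα]; linarith
  have D1 := hDW r ℓ α t2 hkn hax.kn hax.zero hax.half hα0 hα2 (by linarith)
    (fun t ht => hn0 t (by linarith)) (fun t ht => hn2 t (by linarith)) ζ
  have D2 := hDW g ℓ α t2 hgk hax.kn (hax.zero.trans hg0.symm) (hax.half.trans hg2.symm) hα0 hα2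
    (by linarith) (fun t ht => (hn0 t (by linarith)).trans (hgn0 t ht).symm)
    (fun t ht => (hn2 t (by linarith)).trans (hgn2 t ht).symm) ζ
  have hmemL : ∀ t ∈ Icc α t0, (t ∈ Ioo (0 : ℝ) t1 ∨ t ∈ Ioo (1 / 2 - t1) (1 / 2)) :=
    fun t ht => Or.inl ⟨by linarith [ht.1], by linarith [ht.2]⟩
  have hmemR : ∀ t ∈ Icc (1 / 2 - t0) (1 / 2 - α),
      (t ∈ Ioo (0 : ℝ) t1 ∨ t ∈ Ioo (1 / 2 - t1) (1 / 2)) :=
    fun t ht => Or.inr ⟨by linarith [ht.1], by linarith [ht.2]⟩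
  have F1 := axis_int ζ (f := Fc r) (u := α) (v := t0) (by linarith)
    (fun t ht => smF t (hsub t (hmemL t ht))) (fun t ht => axF t (hmemL t ht))
    (fun t ht => posF t (hmemL t ht)) hk
  have F2 := axis_int ζ (f := Fc r) (u := 1 / 2 - t0) (v := 1 / 2 - α) (by linarith)
    (fun t ht => smF t (hsub t (hmemR t ht))) (fun t ht => axF t (hmemR t ht))
    (fun t ht => posF t (hmemR t ht)) hk
  have G1 := axis_int ζ (f := Fc g) (u := α) (v := t0) (by linarith)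
    (fun t ht => smG t (hsub t (hmemL t ht))) (fun t ht => axG t (hmemL t ht))
    (fun t ht => posG t (hmemL t ht)) hk
  have G2 := axis_int ζ (f := Fc g) (u := 1 / 2 - t0) (v := 1 / 2 - α) (by linarith)
    (fun t ht => smG t (hsub t (hmemR t ht))) (fun t ht => axG t (hmemR t ht))
    (fun t ht => posG t (hmemR t ht)) hk
  have hmemA : ∀ t ∈ Icc α (1 / 2 - α), t ∈ Ioo (0 : ℝ) (1 / 2) :=
    fun t ht => ⟨by linarith [ht.1], by linarith [ht.2]⟩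
  have L1 := axis_int ζ (f := Fc ℓ) (u := α) (v := 1 / 2 - α) (by linarith)
    (fun t ht => smL t (hmemA t ht)) (fun t ht => axL t (hmemA t ht))
    (fun t ht => (zL t (hmemA t ht)).le) hk
  have S1 := Wt_split ζ hα0 (show α ≤ t0 by linarith) hle
    (show 1 / 2 - t0 ≤ 1 / 2 - α by linarith) (by linarith) smF
  have S2 := Wt_split ζ hα0 (show α ≤ t0 by linarith) hle
    (show 1 / 2 - t0 ≤ 1 / 2 - α by linarith) (by linarith) smG
  have v1 : Fc r α = Fc ℓ α := hFL α (Or.inl ⟨hα0, by linarith⟩)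
  have v2 : Fc r (1 / 2 - α) = Fc ℓ (1 / 2 - α) :=
    hFL _ (Or.inr ⟨by linarith, by linarith⟩)
  have v3 : Fc g α = Fc ℓ α := by
    refine Fc_eq (hax.zero.trans hg0.symm) (hax.half.trans hg2.symm) ?_
    rw [hgn0 α (by rw [abs_of_pos hα0]; exact hα2)]
    exact hn0 α (by rw [abs_of_pos hα0]; linarith)
  have v4 : Fc g (1 / 2 - α) = Fc ℓ (1 / 2 - α) := by
    refine Fc_eq (hax.zero.trans hg0.symm) (hax.half.trans hg2.symm) ?_
    have h1 : |1 / 2 - α - 1 / 2| = α := by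
      rw [abs_of_neg (by linarith)]
      ring
    rw [hgn2 _ (by rw [h1]; exact hα2)]
    exact hn2 _ (by rw [h1]; linarith)
  have v5 : (Fc g t0) 2 = (Fc r t0) 2 + a := by
    rw [hin' t0 ⟨le_rfl, hle⟩, PiLp.add_apply, PiLp.smul_apply, e3_2]
    simp
  have v6 : (Fc g (1 / 2 - t0)) 2 = (Fc r (1 / 2 - t0)) 2 + a := by
    rw [hin' (1 / 2 - t0) ⟨hle, le_rfl⟩, PiLp.add_apply, PiLp.smul_apply, e3_2]
    simp
  have key1 : Dw g ℓ ζ = Wt (Fc g) α (1 / 2 - α) ζ - Wt (Fc ℓ) α (1 / 2 - α) ζ := D2.symm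
  have key2 : Dw r ℓ ζ = Wt (Fc r) α (1 / 2 - α) ζ - Wt (Fc ℓ) α (1 / 2 - α) ζ := D1.symm
  rw [key1, key2, S1, S2, hmid, F1, F2, G1, G2, L1, v1, v2, v3, v4, v5, v6]
  have x1 : Real.exp (-(((Fc r t0) 2 + a) * (‖ζ.1‖ ^ 2 + ‖ζ.2‖ ^ 2))) =
      Real.exp (-(a * (‖ζ.1‖ ^ 2 + ‖ζ.2‖ ^ 2))) *
        Real.exp (-((Fc r t0) 2 * (‖ζ.1‖ ^ 2 + ‖ζ.2‖ ^ 2))) := by
    rw [← Real.exp_add]
    congr 1
    ring
  have x2 : Real.exp (-(((Fc r (1 / 2 - t0)) 2 + a) * (‖ζ.1‖ ^ 2 + ‖ζ.2‖ ^ 2))) =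
      Real.exp (-(a * (‖ζ.1‖ ^ 2 + ‖ζ.2‖ ^ 2))) *
        Real.exp (-((Fc r (1 / 2 - t0)) 2 * (‖ζ.1‖ ^ 2 + ‖ζ.2‖ ^ 2))) := by
    rw [← Real.exp_add]
    congr 1
    ring
  rw [x1, x2]
  push_cast
  ring

end MP_e78765_gt
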