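import Pool.Agent.Lib.MP_e78765_gt.Spec3

/-!
# MP_e78765_gt, module Yc: the periodic cut-off
-/

set_option autoImplicit false

open scoped ContDiff Topology
open MeasureTheory Set Filter

namespace MP_e78765_gt

namespace Yc_aux

/-- the inner function -/
noncomputable def g (δ t : ℝ) : ℝ := Real.sin (2 * Real.pi * t) ^ 2 / δ ^ 2 - 1

/-- its derivative -/
noncomputable def g1 (δ t : ℝ) : ℝ :=
  4 * Real.pi * (Real.sin (2 * Real.pi * t) * Real.cos (2 * Real.pi * t)) / δ ^ 2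

/-- its second derivative -/
noncomputable def g2 (δ t : ℝ) : ℝ :=
  8 * Real.pi ^ 2 * (Real.cos (2 * Real.pi * t) ^ 2 - Real.sin (2 * Real.pi * t) ^ 2) / δ ^ 2

theorem hs (t : ℝ) : HasDerivAt (fun t => Real.sin (2 * Real.pi * t))
    (Real.cos (2 * Real.pi * t) * (2 * Real.pi)) t := by
  have h1 : HasDerivAt (fun t : ℝ => 2 * Real.pi * t) (2 * Real.pi) t := by
    simpa using (hasDerivAt_id t).const_mul (2 * Real.pi)
  exact (Real.hasDerivAt_sin (2 * Real.pi * t)).comp t h1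

theorem hc (t : ℝ) : HasDerivAt (fun t => Real.cos (2 * Real.pi * t))
    (-Real.sin (2 * Real.pi * t) * (2 * Real.pi)) t := by
  have h1 : HasDerivAt (fun t : ℝ => 2 * Real.pi * t) (2 * Real.pi) t := by
    simpa using (hasDerivAt_id t).const_mul (2 * Real.pi)
  exact (Real.hasDerivAt_cos (2 * Real.pi * t)).comp t h1

theorem hg (δ t : ℝ) : HasDerivAt (g δ) (g1 δ t) t := by
  have h := (((hs t).pow 2).div_const (δ ^ 2)).sub_const 1
  refine h.congr_deriv ?_
  rw [g1]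
  ring

theorem hg1 (δ t : ℝ) : HasDerivAt (g1 δ) (g2 δ t) t := by
  have h := (((hs t).mul (hc t)).const_mul (4 * Real.pi)).div_const (δ ^ 2)
  refine h.congr_deriv ?_
  rw [g2]
  ring

theorem smooth : ContDiff ℝ ∞ St := by
  have h : ContDiff ℝ ∞ Real.smoothTransition := Real.smoothTransition.contDiff
  exact h

theorem d1 : ∀ x ∉ Icc (0 : ℝ) 1, deriv St x = 0 := by
  intro x hx
  by_cases h : x < 0
  · have e : St =ᶠ[𝓝 x] fun _ => (0 : ℝ) := Filter.eventually_of_mem (Iio_mem_nhds h)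
      fun y hy => Real.smoothTransition.zero_of_nonpos (le_of_lt hy)
    rw [e.deriv_eq]
    simp
  · have h1 : 1 < x := by
      by_contra h2
      exact hx ⟨not_lt.1 h, not_lt.1 h2⟩
    have e : St =ᶠ[𝓝 x] fun _ => (1 : ℝ) := Filter.eventually_of_mem (Ioi_mem_nhds h1)
      fun y hy => Real.smoothTransition.one_of_one_le (le_of_lt hy)
    rw [e.deriv_eq]
    simp

theorem d2 : ∀ x ∉ Icc (0 : ℝ) 1, deriv (deriv St) x = 0 := by
  intro x hx
  have e : deriv St =ᶠ[𝓝 x] fun _ => (0 : ℝ) :=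
    Filter.eventually_of_mem (isClosed_Icc.isOpen_compl.mem_nhds hx) fun y hy => d1 y hy
  rw [e.deriv_eq]
  simp

theorem hY (δ t : ℝ) : HasDerivAt (Yc δ) (-(deriv St (g δ t) * g1 δ t)) t := by
  have h1 : HasDerivAt St (deriv St (g δ t)) (g δ t) :=
    ((smooth.differentiable (by simp)) (g δ t)).hasDerivAt
  have h2 := (h1.comp t (hg δ t)).const_sub 1
  exact h2

theorem dY (δ : ℝ) : deriv (Yc δ) = fun t => -(deriv St (g δ t) * g1 δ t) := by
  funext t
  exact (hY δ t).deriv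

theorem hY2 (δ t : ℝ) : HasDerivAt (deriv (Yc δ))
    (-(deriv (deriv St) (g δ t) * g1 δ t * g1 δ t + deriv St (g δ t) * g2 δ t)) t := by
  rw [dY]
  have hs1 : ContDiff ℝ ∞ (deriv St) := (contDiff_infty_iff_deriv.1 smooth).2
  have h1 : HasDerivAt (deriv St) (deriv (deriv St) (g δ t)) (g δ t) :=
    ((hs1.differentiable (by simp)) (g δ t)).hasDerivAt
  exact ((h1.comp t (hg δ t)).mul (hg1 δ t)).neg

/-- bound for the derivative of the inner function where it matters -/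
theorem bg1 {δ : ℝ} (hδ : 0 < δ) {t : ℝ} (h : g δ t ∈ Icc (0 : ℝ) 1) : |g1 δ t| ≤ 20 / δ := by
  have h1 : Real.sin (2 * Real.pi * t) ^ 2 ≤ 2 * δ ^ 2 := by
    have h2 := h.2
    rw [g, sub_le_iff_le_add, div_le_iff₀ (by positivity)] at h2
    linarith
  have h3 : |Real.sin (2 * Real.pi * t)| ≤ 3 / 2 * δ := by
    apply abs_le_of_sq_le_sq' _ (by positivity) |> abs_le.2
    nlinarith [sq_nonneg δ]
  have h4 : |Real.cos (2 * Real.pi * t)| ≤ 1 := Real.abs_cos_le_one _
  have hpi : Real.pi ≤ 3.1416 := by linarith [Real.pi_lt_d4]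
  have hpi0 := Real.pi_pos
  rw [g1, abs_div, abs_mul, abs_of_nonneg (by positivity : (0 : ℝ) ≤ 4 * Real.pi), abs_mul,
    abs_of_nonneg (by positivity : (0 : ℝ) ≤ δ ^ 2), div_le_div_iff₀ (by positivity) hδ]
  have h5 : |Real.sin (2 * Real.pi * t)| * |Real.cos (2 * Real.pi * t)| ≤ 3 / 2 * δ * 1 :=
    mul_le_mul h3 h4 (abs_nonneg _) (by positivity)
  have h6 : 4 * Real.pi * (|Real.sin (2 * Real.pi * t)| * |Real.cos (2 * Real.pi * t)|) ≤
      4 * Real.pi * (3 / 2 * δ * 1) := mul_le_mul_of_nonneg_left h5 (by positivity)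
  calc 4 * Real.pi * (|Real.sin (2 * Real.pi * t)| * |Real.cos (2 * Real.pi * t)|) * δ
      ≤ 4 * Real.pi * (3 / 2 * δ * 1) * δ := mul_le_mul_of_nonneg_right h6 hδ.le
    _ = 6 * Real.pi * δ ^ 2 := by ring
    _ ≤ 20 * δ ^ 2 := by nlinarith [sq_nonneg δ]

theorem bg2 {δ : ℝ} (hδ : 0 < δ) (t : ℝ) : |g2 δ t| ≤ 100 / δ ^ 2 := by
  have h1 : |Real.cos (2 * Real.pi * t) ^ 2 - Real.sin (2 * Real.pi * t) ^ 2| ≤ 1 := by
    rw [abs_le]
    constructor <;> nlinarith [Real.sin_sq_add_cos_sq (2 * Real.pi * t),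
      sq_nonneg (Real.sin (2 * Real.pi * t)), sq_nonneg (Real.cos (2 * Real.pi * t))]
  have hpi : Real.pi ≤ 3.1416 := by linarith [Real.pi_lt_d4]
  have hpi0 := Real.pi_pos
  rw [g2, abs_div, abs_mul, abs_of_nonneg (by positivity : (0 : ℝ) ≤ 8 * Real.pi ^ 2),
    abs_of_nonneg (by positivity : (0 : ℝ) ≤ δ ^ 2)]
  apply div_le_div_of_nonneg_right _ (by positivity)
  have h2 : Real.pi ^ 2 ≤ 3.1416 ^ 2 := pow_le_pow_left₀ hpi0.le hpi 2
  calc 8 * Real.pi ^ 2 * |Real.cos (2 * Real.pi * t) ^ 2 - Real.sin (2 * Real.pi * t) ^ 2|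
      ≤ 8 * Real.pi ^ 2 * 1 := mul_le_mul_of_nonneg_left h1 (by positivity)
    _ ≤ 100 := by nlinarith

/-- small values of the cut-off -/
theorem zero_of {δ : ℝ} (hδ : 0 < δ) {t : ℝ}
    (h : 2 * δ ^ 2 ≤ Real.sin (2 * Real.pi * t) ^ 2) : Yc δ t = 0 := by
  rw [Yc, St, Real.smoothTransition.one_of_one_le, sub_self]
  rw [le_sub_iff_add_le, le_div_iff₀ (by positivity)]
  linarith

theorem half (δ t : ℝ) : Yc δ (t + 1 / 2) = Yc δ t := by
  rw [Yc, Yc]
  have h : 2 * Real.pi * (t + 1 / 2) = 2 * Real.pi * t + Real.pi := by ring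
  rw [h, Real.sin_add_pi, neg_sq]

theorem even (δ t : ℝ) : Yc δ (-t) = Yc δ t := by
  rw [Yc, Yc]
  have h : 2 * Real.pi * (-t) = -(2 * Real.pi * t) := by ring
  rw [h, Real.sin_neg, neg_sq]

theorem quarter {δ : ℝ} (hδ : 0 < δ) {t : ℝ} (h1 : δ ≤ t) (h2 : t ≤ 1 / 4) : Yc δ t = 0 := by
  apply zero_of hδ
  have hpi0 := Real.pi_pos
  have h3 := Real.mul_le_sin (x := 2 * Real.pi * t) (by
    have : 0 ≤ t := by linarith
    positivity) (by nlinarith)
  have h4 : 2 / Real.pi * (2 * Real.pi * t) = 4 * t := by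
    field_simp
    ring
  rw [h4] at h3
  nlinarith

end Yc_aux

open Yc_aux in
theorem tYc : S_StB → S_Yc := by
  rintro ⟨⟨B0, hB0p, hB1, hB2⟩, -⟩
  have hB00 : 0 ≤ B0 := hB0p.le
  refine ⟨500 * B0, by positivity, ?_⟩
  intro δ hδ hδ4
  have hpi0 := Real.pi_pos
  refine ⟨?_, half δ, even δ, ?_, ?_, ?_, ?_, ?_, ?_⟩
  · have h1 : ContDiff ℝ ∞ (fun t => Real.sin (2 * Real.pi * t) ^ 2 / δ ^ 2 - 1) := by fun_prop
    exact contDiff_const.sub (smooth.comp h1)
  · intro t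
    rw [Yc, St]
    constructor
    · linarith [Real.smoothTransition.le_one (Real.sin (2 * Real.pi * t) ^ 2 / δ ^ 2 - 1)]
    · linarith [Real.smoothTransition.nonneg (Real.sin (2 * Real.pi * t) ^ 2 / δ ^ 2 - 1)]
  · intro t ht
    rw [Yc, St, Real.smoothTransition.zero_of_nonpos, sub_zero]
    rw [sub_nonpos, div_le_iff₀ (by positivity), one_mul]
    have h1 : |Real.sin (2 * Real.pi * t)| ≤ |2 * Real.pi * t| := Real.abs_sin_le_abs
    have h2 : |2 * Real.pi * t| = 2 * Real.pi * |t| := by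
      rw [abs_mul, abs_of_pos (by positivity)]
    have h3 : |Real.sin (2 * Real.pi * t)| ≤ δ := by
      rw [h2] at h1
      refine h1.trans ?_
      have h4 : Real.pi ≤ 4 := by linarith [Real.pi_lt_d4]
      have h5 : 0 ≤ |t| := abs_nonneg t
      nlinarith
    have h6 := abs_nonneg (Real.sin (2 * Real.pi * t))
    rw [← sq_abs (Real.sin (2 * Real.pi * t))]
    nlinarith
  · intro t ht
    by_cases h : t ≤ 1 / 4
    · exact quarter hδ ht.1 h
    · have h2 : Yc δ t = Yc δ (1 / 2 - t) := by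
        have h3 := half δ (-t)
        rw [even] at h3
        rw [← h3]
        congr 1
        ring
      rw [h2]
      exact quarter hδ (by linarith [ht.2]) (by linarith)
  · intro t ht
    exact zero_of hδ ht
  · intro t
    rw [(hY δ t).deriv, abs_neg, abs_mul]
    by_cases h : g δ t ∈ Icc (0 : ℝ) 1
    · calc |deriv St (g δ t)| * |g1 δ t| ≤ B0 * (20 / δ) :=
            mul_le_mul (hB1 _) (bg1 hδ h) (abs_nonneg _) hB00
        _ ≤ 500 * B0 / δ := by
            rw [mul_div_assoc', div_le_div_iff_of_pos_right hδ]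
            nlinarith
    · rw [d1 _ h, abs_zero, zero_mul]
      positivity
  · intro t
    rw [(hY2 δ t).deriv, abs_neg]
    by_cases h : g δ t ∈ Icc (0 : ℝ) 1
    · have h1 : |deriv (deriv St) (g δ t) * g1 δ t * g1 δ t| ≤ B0 * (400 / δ ^ 2) := by
        rw [abs_mul, abs_mul]
        have e1 := bg1 hδ h
        have e2 : |g1 δ t| * |g1 δ t| ≤ 20 / δ * (20 / δ) :=
          mul_le_mul e1 e1 (abs_nonneg _) (by positivity)
        calc |deriv (deriv St) (g δ t)| * |g1 δ t| * |g1 δ t|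
            = |deriv (deriv St) (g δ t)| * (|g1 δ t| * |g1 δ t|) := by ring
          _ ≤ B0 * (20 / δ * (20 / δ)) := mul_le_mul (hB2 _) e2 (by positivity) hB00
          _ = B0 * (400 / δ ^ 2) := by
              field_simp
              ring
      have h2 : |deriv St (g δ t) * g2 δ t| ≤ B0 * (100 / δ ^ 2) := by
        rw [abs_mul]
        exact mul_le_mul (hB1 _) (bg2 hδ t) (abs_nonneg _) hB00
      calc _ ≤ |deriv (deriv St) (g δ t) * g1 δ t * g1 δ t| + |deriv St (g δ t) * g2 δ t| :=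
            abs_add_le _ _
        _ ≤ B0 * (400 / δ ^ 2) + B0 * (100 / δ ^ 2) := add_le_add h1 h2
        _ = 500 * B0 / δ ^ 2 := by ring
    · rw [d1 _ h, d2 _ h]
      simp only [zero_mul, add_zero, abs_zero]
      positivity

end MP_e78765_gt
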