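import Pool.Agent.Lib.MP_e78765_gt.Fin5
import Pool.Agent.Lib.MP_e78765_gt.Fin6
import Pool.Agent.Lib.MP_e78765_gt.Mir
import Pool.Agent.Lib.MP_e78765_gt.Alg
import Pool.Agent.Lib.MP_e78765_gt.Mu
import Pool.Agent.Lib.MP_e78765_gt.Inv
import Pool.Agent.Lib.MP_e78765_gt.Bd
import Pool.Agent.Lib.MP_e78765_gt.Loc
import Pool.Agent.Lib.MP_e78765_gt.QB
import Pool.Agent.Lib.MP_e78765_gt.DSu
import Pool.Agent.Lib.MP_e78765_gt.DS
import Pool.Agent.Lib.MP_e78765_gt.Split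
import Pool.Agent.Lib.MP_e78765_gt.Parts
import Pool.Agent.Lib.MP_e78765_gt.StB
import Pool.Agent.Lib.MP_e78765_gt.Cut
import Pool.Agent.Lib.MP_e78765_gt.Ch
import Pool.Agent.Lib.MP_e78765_gt.Cone
import Pool.Agent.Lib.MP_e78765_gt.Ker
import Pool.Agent.Lib.MP_e78765_gt.RP
import Pool.Agent.Lib.MP_e78765_gt.Circ
import Pool.Agent.Lib.MP_e78765_gt.Ell
import Pool.Agent.Lib.MP_e78765_gt.Yc
import Pool.Agent.Lib.MP_e78765_gt.Dd
import Pool.Agent.Lib.MP_e78765_gt.Sk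
import Pool.Agent.Lib.MP_e78765_gt.Pert
import Pool.Agent.Lib.MP_e78765_gt.Si
import Pool.Agent.Lib.MP_e78765_gt.Se
import Pool.Agent.Lib.MP_e78765_gt.Sw
import Pool.Agent.Lib.MP_e78765_gt.Dc
import Pool.Agent.Lib.MP_e78765_gt.Fat
import Pool.Agent.Lib.MP_e78765_gt.Lw
import Pool.Agent.Lib.MP_e78765_gt.Ps
import Pool.Agent.Lib.MP_e78765_gt.Ra
import Pool.Agent.Lib.MP_e78765_gt.IsoA
import Pool.Agent.Lib.MP_e78765_gt.Glue
import Pool.Agent.Lib.MP_e78765_gt.EF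
import Pool.Agent.Lib.MP_e78765_gt.EH
import Pool.Agent.Lib.MP_e78765_gt.VG
import Pool.Agent.Lib.MP_e78765_gt.DW
import Pool.Agent.Lib.MP_e78765_gt.WA
import Pool.Agent.Lib.MP_e78765_gt.Key
import Pool.Agent.Lib.MP_e78765_gt.E4
import Pool.Agent.Lib.MP_e78765_gt.Hf
import Pool.Agent.Lib.MP_e78765_gt.ParA
import Pool.Agent.Lib.MP_e78765_gt.LimA
import Pool.Agent.Lib.MP_e78765_gt.Hs

/-! THEOREM R3 for mirror knots: all modules put together. -/

namespace MP_e78765_gt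

theorem tR3 : S_R3 := by
  have hQB : S_QB := tQB tMu tBd
  have hDS : S_DS := tDS (tDSu (tLoc tBd) tBd) hQB
  have hCh : S_Ch := tCh tInv tMir
  have hCone : S_Cone := tCone hCh tBd tInv
  have hRP : S_RP := tRP tKer
  have hYc : S_Yc := tYc tStB
  have hDd : S_Dd := tDd hYc tMir
  have hSk : S_Sk := tSk hDd tBd hYc tMir
  have hSi : S_Si := tSi (tPert tMir) hDd tBd hSk
  have hSe : S_Se := tSe hDS hQB tMu tAlg hSk hYc
  have hSw : S_Sw := tSw hSk hYc tKer hCh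
  have hDc : S_Dc := tDc hCone tKer hCh
  have hPs : S_Ps := tPs tStB tCut tMir
  have hRa : S_Ra := tRa hPs hCh tCut tInv tMir
  have hIsoA : S_IsoA := tIsoA hPs hCh tMir tInv
  have hGlue : S_Glue := tGlue tMir
  have hEF : S_EF := tEF hDS hQB tAlg hCh hGlue tInv tMir
  have hEH : S_EH := tEH hEF hRa hCh hPs tCut tAlg
  have hVG : S_VG := tVG hRP hCh tInv tMir
  have hDW : S_DW := tDW hCh
  have hWA : S_WA := tWA hRa hDW hPs tCut hCh
  have hSplit : S_Split := tSplit hDS hQB tAlg tMir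
  have hParts : S_Parts := tParts hQB tAlg tMir tBd
  have hKey : S_Key := tKey hSplit hParts hGlue hEH hVG hDW hWA hRa
  have hHf : S_Hf := tHf hSplit hParts hGlue hVG hDW (tE4 hEF)
  exact fin5 (tEll hCh) hSk hSi hSe (tFat hSw hDc) (tLw hCh hCone tKer) hRa hIsoA hKey
    (tParA hSk hCone tStB hCh) hHf tLimA hGlue (tHs tMir) (tCirc hCh)

end MP_e78765_gt
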