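import Pool.Agent.Lib.MP_e78765_gt.Spec2

/-! Transport by a rigid motion. -/

open scoped ContDiff Topology
open MeasureTheory Set Filter

namespace MP_e78765_gt

namespace Tr_aux

/-- The rigid motion as a homeomorphism. -/
noncomputable def hom (A : E3 ≃ₗᵢ[ℝ] E3) (b : E3) : E3 ≃ₜ E3 :=
  A.toHomeomorph.trans (Homeomorph.addRight b)

theorem hom_apply (A : E3 ≃ₗᵢ[ℝ] E3) (b x : E3) : hom A b x = A x + b := rfl

theorem hom_symm (A : E3 ≃ₗᵢ[ℝ] E3) (b x : E3) : (hom A b).symm x = A.symm (x - b) := by
  rw [Homeomorph.symm_apply_eq, hom_apply, A.apply_symm_apply, sub_add_cancel]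

end Tr_aux

open Tr_aux

theorem tTr : S_Tr := by
  intro A b
  refine ⟨?_, ?_, ?_⟩
  · intro r hr
    have hder : ∀ t, HasDerivAt (fun t => A (r t) + b) (A (deriv r t)) t := by
      intro t
      have h : HasDerivAt r (deriv r t) t :=
        (hr.smooth.differentiable (by simp)).differentiableAt.hasDerivAt
      exact ((A.toContinuousLinearEquiv : E3 →L[ℝ] E3).hasFDerivAt.comp_hasDerivAt t h).add_const b
    have hd : ∀ t, deriv (fun t => A (r t) + b) t = A (deriv r t) := fun t => (hder t).deriv
    have hnd : ∀ t, ‖deriv (fun t => A (r t) + b) t‖ = ‖deriv r t‖ := by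
      intro t; rw [hd, A.norm_map]
    have hns : ∀ s t, ‖(A (r s) + b) - (A (r t) + b)‖ = ‖r s - r t‖ := by
      intro s t
      rw [add_sub_add_right_eq_sub, ← map_sub, A.norm_map]
    have hlen : ∀ u v, len (fun t => A (r t) + b) u v = len r u v := by
      intro u v
      unfold len
      simp only [hnd]
    have harc : ∀ u v, arcDist (fun t => A (r t) + b) u v = arcDist r u v := by
      intro u v
      unfold arcDist
      simp only [hlen]
    refine ⟨⟨?_, ?_, ?_, ?_⟩, ?_⟩
    · exact (A.contDiff.comp hr.smooth).add contDiff_const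
    · intro t
      simp only [hr.periodic t]
    · intro t
      rw [← norm_pos_iff, hnd]
      exact norm_pos_iff.2 (hr.regular t)
    · intro s t hst
      exact hr.inj s t (A.injective (add_right_cancel hst))
    · unfold energy
      simp only [hns, hnd, harc]
  · rintro C ⟨c, u, v, hu, hv, huv, hC⟩
    refine ⟨A.symm (c - b), A.symm u, A.symm v, ?_, ?_, ?_, ?_⟩
    · rw [A.symm.norm_map]; exact hu
    · rw [A.symm.norm_map, A.symm.norm_map]; exact hv
    · rw [A.symm.inner_map_map]; exact huv
    · have h1 : C = (fun x => A.symm (x - b)) '' ((fun x => A x + b) '' C) := by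
        rw [image_image]
        simp
      rw [h1, hC, ← range_comp]
      congr 1
      funext θ
      simp only [Function.comp]
      rw [← map_smul, ← map_smul, ← map_add, ← map_add]
      congr 1
      abel
  · rintro r r' ⟨H, h1, h2, h3⟩
    refine ⟨fun σ => ((hom A b).trans (H σ)).trans (hom A b).symm, ?_, ?_, ?_⟩
    · have e : (fun z : unitInterval × E3 =>
          (((hom A b).trans (H z.1)).trans (hom A b).symm) z.2) =
          fun z => (hom A b).symm ((fun z : unitInterval × E3 => H z.1 z.2) (z.1, hom A b z.2)) := by
        funext z; rfl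
      rw [e]
      exact (hom A b).symm.continuous.comp (h1.comp
        (continuous_fst.prodMk ((hom A b).continuous.comp continuous_snd)))
    · intro x
      simp only [Homeomorph.trans_apply]
      rw [h2, Homeomorph.symm_apply_apply]
    · have e1 : range (fun t => A.symm (r' t - b)) = (hom A b).symm '' range r' := by
        rw [← range_comp]
        congr 1
      have e2 : (hom A b) '' range r = range (fun t => A (r t) + b) := by
        rw [← range_comp]
        rfl
      rw [e1, ← h3, ← e2]
      simp only [image_image]
      rfl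

end MP_e78765_gt
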