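import Pool.Agent.Lib.MP_e78765_gt.Spec5

/-!
# MP_e78765_gt, module Yc3: third derivative of the cut-off
-/

set_option autoImplicit false

open scoped ContDiff Topology
open MeasureTheory Set Filter

namespace MP_e78765_gt

namespace Yc3_aux

/-- the inner function -/
noncomputable def g (δ t : ℝ) : ℝ := Real.sin (2 * Real.pi * t) ^ 2 / δ ^ 2 - 1

/-- its derivative -/
noncomputable def g1 (δ t : ℝ) : ℝ :=
  4 * Real.pi * (Real.sin (2 * Real.pi * t) * Real.cos (2 * Real.pi * t)) / δ ^ 2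

/-- its second derivative -/
noncomputable def g2 (δ t : ℝ) : ℝ :=
  8 * Real.pi ^ 2 * (Real.cos (2 * Real.pi * t) ^ 2 - Real.sin (2 * Real.pi * t) ^ 2) / δ ^ 2

theorem hs (t : ℝ) : HasDerivAt (fun t => Real.sin (2 * Real.pi * t))
    (Real.cos (2 * Real.pi * t) * (2 * Real.pi)) t := by
  have h1 : HasDerivAt (fun t : ℝ => 2 * Real.pi * t) (2 * Real.pi) t := by
    simpa using (hasDerivAt_id t).const_mul (2 * Real.pi)
  exact (Real.hasDerivAt_sin (2 * Real.pi * t)).comp t h1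

theorem hc (t : ℝ) : HasDerivAt (fun t => Real.cos (2 * Real.pi * t))
    (-Real.sin (2 * Real.pi * t) * (2 * Real.pi)) t := by
  have h1 : HasDerivAt (fun t : ℝ => 2 * Real.pi * t) (2 * Real.pi) t := by
    simpa using (hasDerivAt_id t).const_mul (2 * Real.pi)
  exact (Real.hasDerivAt_cos (2 * Real.pi * t)).comp t h1

theorem hg (δ t : ℝ) : HasDerivAt (g δ) (g1 δ t) t := by
  have h := (((hs t).pow 2).div_const (δ ^ 2)).sub_const 1
  refine h.congr_deriv ?_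
  rw [g1]
  ring

theorem hg1 (δ t : ℝ) : HasDerivAt (g1 δ) (g2 δ t) t := by
  have h := (((hs t).mul (hc t)).const_mul (4 * Real.pi)).div_const (δ ^ 2)
  refine h.congr_deriv ?_
  rw [g2]
  ring

theorem smooth : ContDiff ℝ ∞ St := by
  have h : ContDiff ℝ ∞ Real.smoothTransition := Real.smoothTransition.contDiff
  exact h

theorem d1 : ∀ x ∉ Icc (0 : ℝ) 1, deriv St x = 0 := by
  intro x hx
  by_cases h : x < 0
  · have e : St =ᶠ[𝓝 x] fun _ => (0 : ℝ) := Filter.eventually_of_mem (Iio_mem_nhds h)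
      fun y hy => Real.smoothTransition.zero_of_nonpos (le_of_lt hy)
    rw [e.deriv_eq]
    simp
  · have h1 : 1 < x := by
      by_contra h2
      exact hx ⟨not_lt.1 h, not_lt.1 h2⟩
    have e : St =ᶠ[𝓝 x] fun _ => (1 : ℝ) := Filter.eventually_of_mem (Ioi_mem_nhds h1)
      fun y hy => Real.smoothTransition.one_of_one_le (le_of_lt hy)
    rw [e.deriv_eq]
    simp

theorem d2 : ∀ x ∉ Icc (0 : ℝ) 1, deriv (deriv St) x = 0 := by
  intro x hx
  have e : deriv St =ᶠ[𝓝 x] fun _ => (0 : ℝ) :=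
    Filter.eventually_of_mem (isClosed_Icc.isOpen_compl.mem_nhds hx) fun y hy => d1 y hy
  rw [e.deriv_eq]
  simp

theorem hY (δ t : ℝ) : HasDerivAt (Yc δ) (-(deriv St (g δ t) * g1 δ t)) t := by
  have h1 : HasDerivAt St (deriv St (g δ t)) (g δ t) :=
    ((smooth.differentiable (by simp)) (g δ t)).hasDerivAt
  have h2 := (h1.comp t (hg δ t)).const_sub 1
  exact h2

theorem dY (δ : ℝ) : deriv (Yc δ) = fun t => -(deriv St (g δ t) * g1 δ t) := by
  funext t
  exact (hY δ t).deriv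

theorem hY2 (δ t : ℝ) : HasDerivAt (deriv (Yc δ))
    (-(deriv (deriv St) (g δ t) * g1 δ t * g1 δ t + deriv St (g δ t) * g2 δ t)) t := by
  rw [dY]
  have hs1 : ContDiff ℝ ∞ (deriv St) := (contDiff_infty_iff_deriv.1 smooth).2
  have h1 : HasDerivAt (deriv St) (deriv (deriv St) (g δ t)) (g δ t) :=
    ((hs1.differentiable (by simp)) (g δ t)).hasDerivAt
  exact ((h1.comp t (hg δ t)).mul (hg1 δ t)).neg

/-- bound for the derivative of the inner function where it matters -/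
theorem bg1 {δ : ℝ} (hδ : 0 < δ) {t : ℝ} (h : g δ t ∈ Icc (0 : ℝ) 1) : |g1 δ t| ≤ 20 / δ := by
  have h1 : Real.sin (2 * Real.pi * t) ^ 2 ≤ 2 * δ ^ 2 := by
    have h2 := h.2
    rw [g, sub_le_iff_le_add, div_le_iff₀ (by positivity)] at h2
    linarith
  have h3 : |Real.sin (2 * Real.pi * t)| ≤ 3 / 2 * δ := by
    apply abs_le_of_sq_le_sq' _ (by positivity) |> abs_le.2
    nlinarith [sq_nonneg δ]
  have h4 : |Real.cos (2 * Real.pi * t)| ≤ 1 := Real.abs_cos_le_one _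
  have hpi : Real.pi ≤ 3.1416 := by linarith [Real.pi_lt_d4]
  have hpi0 := Real.pi_pos
  rw [g1, abs_div, abs_mul, abs_of_nonneg (by positivity : (0 : ℝ) ≤ 4 * Real.pi), abs_mul,
    abs_of_nonneg (by positivity : (0 : ℝ) ≤ δ ^ 2), div_le_div_iff₀ (by positivity) hδ]
  have h5 : |Real.sin (2 * Real.pi * t)| * |Real.cos (2 * Real.pi * t)| ≤ 3 / 2 * δ * 1 :=
    mul_le_mul h3 h4 (abs_nonneg _) (by positivity)
  have h6 : 4 * Real.pi * (|Real.sin (2 * Real.pi * t)| * |Real.cos (2 * Real.pi * t)|) ≤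
      4 * Real.pi * (3 / 2 * δ * 1) := mul_le_mul_of_nonneg_left h5 (by positivity)
  calc 4 * Real.pi * (|Real.sin (2 * Real.pi * t)| * |Real.cos (2 * Real.pi * t)|) * δ
      ≤ 4 * Real.pi * (3 / 2 * δ * 1) * δ := mul_le_mul_of_nonneg_right h6 hδ.le
    _ = 6 * Real.pi * δ ^ 2 := by ring
    _ ≤ 20 * δ ^ 2 := by nlinarith [sq_nonneg δ]

theorem bg2 {δ : ℝ} (hδ : 0 < δ) (t : ℝ) : |g2 δ t| ≤ 100 / δ ^ 2 := by
  have h1 : |Real.cos (2 * Real.pi * t) ^ 2 - Real.sin (2 * Real.pi * t) ^ 2| ≤ 1 := by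
    rw [abs_le]
    constructor <;> nlinarith [Real.sin_sq_add_cos_sq (2 * Real.pi * t),
      sq_nonneg (Real.sin (2 * Real.pi * t)), sq_nonneg (Real.cos (2 * Real.pi * t))]
  have hpi : Real.pi ≤ 3.1416 := by linarith [Real.pi_lt_d4]
  have hpi0 := Real.pi_pos
  rw [g2, abs_div, abs_mul, abs_of_nonneg (by positivity : (0 : ℝ) ≤ 8 * Real.pi ^ 2),
    abs_of_nonneg (by positivity : (0 : ℝ) ≤ δ ^ 2)]
  apply div_le_div_of_nonneg_right _ (by positivity)
  have h2 : Real.pi ^ 2 ≤ 3.1416 ^ 2 := pow_le_pow_left₀ hpi0.le hpi 2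
  calc 8 * Real.pi ^ 2 * |Real.cos (2 * Real.pi * t) ^ 2 - Real.sin (2 * Real.pi * t) ^ 2|
      ≤ 8 * Real.pi ^ 2 * 1 := mul_le_mul_of_nonneg_left h1 (by positivity)
    _ ≤ 100 := by nlinarith

/-- small values of the cut-off -/
theorem zero_of {δ : ℝ} (hδ : 0 < δ) {t : ℝ}
    (h : 2 * δ ^ 2 ≤ Real.sin (2 * Real.pi * t) ^ 2) : Yc δ t = 0 := by
  rw [Yc, St, Real.smoothTransition.one_of_one_le, sub_self]
  rw [le_sub_iff_add_le, le_div_iff₀ (by positivity)]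
  linarith

theorem bdd {f : ℝ → ℝ} (hf : Continuous f) (h0 : ∀ x ∉ Icc (0 : ℝ) 1, f x = 0) :
    ∃ B : ℝ, ∀ x, |f x| ≤ B := by
  obtain ⟨C, hC⟩ := isCompact_Icc.exists_bound_of_continuousOn (s := Icc (0 : ℝ) 1)
    hf.continuousOn
  refine ⟨max C 0, fun x => ?_⟩
  by_cases h : x ∈ Icc (0 : ℝ) 1
  · exact (hC x h).trans (le_max_left _ _)
  · rw [h0 x h, abs_zero]
    exact le_max_right _ _

theorem d3 : ∀ x ∉ Icc (0 : ℝ) 1, deriv (deriv (deriv St)) x = 0 := by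
  intro x hx
  have e : deriv (deriv St) =ᶠ[𝓝 x] fun _ => (0 : ℝ) :=
    Filter.eventually_of_mem (isClosed_Icc.isOpen_compl.mem_nhds hx) fun y hy => d2 y hy
  rw [e.deriv_eq]
  simp

/-- third derivative of the inner function -/
noncomputable def g3 (δ t : ℝ) : ℝ :=
  -(64 * Real.pi ^ 3 * (Real.sin (2 * Real.pi * t) * Real.cos (2 * Real.pi * t))) / δ ^ 2

theorem hg2 (δ t : ℝ) : HasDerivAt (g2 δ) (g3 δ t) t := by
  have h := ((((hc t).pow 2).sub ((hs t).pow 2)).const_mul (8 * Real.pi ^ 2)).div_const (δ ^ 2)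
  refine h.congr_deriv ?_
  rw [g3]
  ring

theorem dY2 (δ : ℝ) : deriv (deriv (Yc δ)) = fun t =>
    -(deriv (deriv St) (g δ t) * g1 δ t * g1 δ t + deriv St (g δ t) * g2 δ t) := by
  funext t
  exact (hY2 δ t).deriv

theorem hY3 (δ t : ℝ) : HasDerivAt (deriv (deriv (Yc δ)))
    (-(deriv (deriv (deriv St)) (g δ t) * g1 δ t * (g1 δ t * g1 δ t) +
      3 * (deriv (deriv St) (g δ t) * (g1 δ t * g2 δ t)) + deriv St (g δ t) * g3 δ t)) t := by
  rw [dY2]
  have hs1 : ContDiff ℝ ∞ (deriv St) := (contDiff_infty_iff_deriv.1 smooth).2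
  have hs2 : ContDiff ℝ ∞ (deriv (deriv St)) := (contDiff_infty_iff_deriv.1 hs1).2
  have h1 : HasDerivAt (deriv St) (deriv (deriv St) (g δ t)) (g δ t) :=
    ((hs1.differentiable (by simp)) (g δ t)).hasDerivAt
  have h2 : HasDerivAt (deriv (deriv St)) (deriv (deriv (deriv St)) (g δ t)) (g δ t) :=
    ((hs2.differentiable (by simp)) (g δ t)).hasDerivAt
  have h3 := ((((h2.comp t (hg δ t)).mul (hg1 δ t)).mul (hg1 δ t)).add
    ((h1.comp t (hg δ t)).mul (hg2 δ t))).neg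
  refine h3.congr_deriv ?_
  simp only [Function.comp_apply, Pi.mul_apply]
  ring

theorem bg3 {δ : ℝ} (hδ : 0 < δ) (hδ4 : δ ≤ 1 / 4) (t : ℝ) : |g3 δ t| ≤ 2000 / δ ^ 3 := by
  have h4 : |Real.cos (2 * Real.pi * t)| ≤ 1 := Real.abs_cos_le_one _
  have h3 : |Real.sin (2 * Real.pi * t)| ≤ 1 := Real.abs_sin_le_one _
  have hpi : Real.pi ≤ 3.1416 := by linarith [Real.pi_lt_d4]
  have hpi0 := Real.pi_pos
  have h2 : Real.pi ^ 3 ≤ 3.1416 ^ 3 := pow_le_pow_left₀ hpi0.le hpi 3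
  have h5 : |Real.sin (2 * Real.pi * t)| * |Real.cos (2 * Real.pi * t)| ≤ 1 * 1 :=
    mul_le_mul h3 h4 (abs_nonneg _) (by norm_num)
  have h6 : 64 * Real.pi ^ 3 * (|Real.sin (2 * Real.pi * t)| * |Real.cos (2 * Real.pi * t)|) ≤
      64 * Real.pi ^ 3 * (1 * 1) := mul_le_mul_of_nonneg_left h5 (by positivity)
  have h7 : 64 * Real.pi ^ 3 * (1 * 1) ≤ 2000 := by nlinarith
  rw [g3, abs_div, abs_neg, abs_mul, abs_of_nonneg (by positivity : (0 : ℝ) ≤ 64 * Real.pi ^ 3),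
    abs_mul, abs_of_nonneg (by positivity : (0 : ℝ) ≤ δ ^ 2)]
  calc 64 * Real.pi ^ 3 * (|Real.sin (2 * Real.pi * t)| * |Real.cos (2 * Real.pi * t)|) / δ ^ 2
      ≤ 2000 / δ ^ 2 := div_le_div_of_nonneg_right (h6.trans h7) (by positivity)
    _ ≤ 2000 / δ ^ 3 := by
        apply div_le_div_of_nonneg_left (by norm_num) (by positivity)
        have : δ ^ 3 = δ ^ 2 * δ := by ring
        rw [this]
        nlinarith [sq_nonneg δ]

end Yc3_aux

open Yc3_aux in
theorem tYc3 : S_StB → S_Yc3 := by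
  rintro ⟨⟨B0, hB0p, hB1, hB2⟩, -⟩
  have hs1 : ContDiff ℝ ∞ (deriv St) := (contDiff_infty_iff_deriv.1 smooth).2
  have hs2 : ContDiff ℝ ∞ (deriv (deriv St)) := (contDiff_infty_iff_deriv.1 hs1).2
  have hs3 : ContDiff ℝ ∞ (deriv (deriv (deriv St))) := (contDiff_infty_iff_deriv.1 hs2).2
  obtain ⟨B3, hB3⟩ := bdd hs3.continuous d3
  have hB30 : 0 ≤ B3 := (abs_nonneg _).trans (hB3 0)
  have hB00 : 0 ≤ B0 := hB0p.le
  refine ⟨8000 * B3 + 6000 * B0 + 2000 * B0, by positivity, ?_⟩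
  intro δ hδ hδ4
  constructor
  · intro t
    rw [(hY3 δ t).deriv, abs_neg]
    by_cases h : g δ t ∈ Icc (0 : ℝ) 1
    · have e1 := bg1 hδ h
      have e2 : |g1 δ t| * |g1 δ t| ≤ 20 / δ * (20 / δ) :=
        mul_le_mul e1 e1 (abs_nonneg _) (by positivity)
      have h1 : |deriv (deriv (deriv St)) (g δ t) * g1 δ t * (g1 δ t * g1 δ t)| ≤
          B3 * (20 / δ) * (20 / δ * (20 / δ)) := by
        rw [abs_mul, abs_mul, abs_mul]
        exact mul_le_mul (mul_le_mul (hB3 _) e1 (abs_nonneg _) hB30) e2 (by positivity)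
          (by positivity)
      have h2 : |3 * (deriv (deriv St) (g δ t) * (g1 δ t * g2 δ t))| ≤
          3 * (B0 * (20 / δ * (100 / δ ^ 2))) := by
        rw [abs_mul, abs_mul, abs_mul, abs_of_pos (by norm_num : (0 : ℝ) < 3)]
        apply mul_le_mul_of_nonneg_left _ (by norm_num)
        exact mul_le_mul (hB2 _) (mul_le_mul e1 (bg2 hδ t) (abs_nonneg _) (by positivity))
          (by positivity) hB00
      have h3 : |deriv St (g δ t) * g3 δ t| ≤ B0 * (2000 / δ ^ 3) := by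
        rw [abs_mul]
        exact mul_le_mul (hB1 _) (bg3 hδ hδ4 t) (abs_nonneg _) hB00
      calc _ ≤ |deriv (deriv (deriv St)) (g δ t) * g1 δ t * (g1 δ t * g1 δ t)| +
            |3 * (deriv (deriv St) (g δ t) * (g1 δ t * g2 δ t))| + |deriv St (g δ t) * g3 δ t| :=
            (abs_add_le _ _).trans (add_le_add_left (abs_add_le _ _) _)
        _ ≤ B3 * (20 / δ) * (20 / δ * (20 / δ)) + 3 * (B0 * (20 / δ * (100 / δ ^ 2))) +
            B0 * (2000 / δ ^ 3) := add_le_add (add_le_add h1 h2) h3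
        _ = (8000 * B3 + 6000 * B0 + 2000 * B0) / δ ^ 3 := by
            field_simp
            ring
    · rw [d1 _ h, d2 _ h, d3 _ h]
      simp only [zero_mul, mul_zero, add_zero, abs_zero]
      positivity
  · intro t ht
    have hcont : Continuous (fun s : ℝ => Real.sin (2 * Real.pi * s) ^ 2) := by fun_prop
    have h1 : ∀ᶠ s in 𝓝 t, 2 * δ ^ 2 < Real.sin (2 * Real.pi * s) ^ 2 :=
      hcont.continuousAt.eventually (lt_mem_nhds ht)
    filter_upwards [h1] with s hs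
    exact zero_of hδ hs.le

end MP_e78765_gt
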