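import Pool.Agent.Lib.MP_e78765_gt.Mir
import Pool.Agent.Lib.MP_e78765_gt.Alg
import Pool.Agent.Lib.MP_e78765_gt.Mu
import Pool.Agent.Lib.MP_e78765_gt.Inv
import Pool.Agent.Lib.MP_e78765_gt.Bd
import Pool.Agent.Lib.MP_e78765_gt.Loc
import Pool.Agent.Lib.MP_e78765_gt.QB
import Pool.Agent.Lib.MP_e78765_gt.DSu
import Pool.Agent.Lib.MP_e78765_gt.DS
import Pool.Agent.Lib.MP_e78765_gt.Split
import Pool.Agent.Lib.MP_e78765_gt.Parts
import Pool.Agent.Lib.MP_e78765_gt.StB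
import Pool.Agent.Lib.MP_e78765_gt.Cut
import Pool.Agent.Lib.MP_e78765_gt.Ch
import Pool.Agent.Lib.MP_e78765_gt.Cone
import Pool.Agent.Lib.MP_e78765_gt.Ker
import Pool.Agent.Lib.MP_e78765_gt.RP
import Pool.Agent.Lib.MP_e78765_gt.Circ
import Pool.Agent.Lib.MP_e78765_gt.Ell
import Pool.Agent.Lib.MP_e78765_gt.Yc
import Pool.Agent.Lib.MP_e78765_gt.Dd
import Pool.Agent.Lib.MP_e78765_gt.Sk
import Pool.Agent.Lib.MP_e78765_gt.Sw
import Pool.Agent.Lib.MP_e78765_gt.Dc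
import Pool.Agent.Lib.MP_e78765_gt.Fat
import Pool.Agent.Lib.MP_e78765_gt.Lw
import Pool.Agent.Lib.MP_e78765_gt.Ps
import Pool.Agent.Lib.MP_e78765_gt.Ra
import Pool.Agent.Lib.MP_e78765_gt.Glue
import Pool.Agent.Lib.MP_e78765_gt.EF
import Pool.Agent.Lib.MP_e78765_gt.EH
import Pool.Agent.Lib.MP_e78765_gt.VG
import Pool.Agent.Lib.MP_e78765_gt.DW
import Pool.Agent.Lib.MP_e78765_gt.WA
import Pool.Agent.Lib.MP_e78765_gt.Key
import Pool.Agent.Lib.MP_e78765_gt.Fin7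
import Pool.Agent.Lib.MP_e78765_gt.Fin8
import Pool.Agent.Lib.MP_e78765_gt.Arc
import Pool.Agent.Lib.MP_e78765_gt.Sig
import Pool.Agent.Lib.MP_e78765_gt.Rep
import Pool.Agent.Lib.MP_e78765_gt.Sym
import Pool.Agent.Lib.MP_e78765_gt.Rig
import Pool.Agent.Lib.MP_e78765_gt.Tr
import Pool.Agent.Lib.MP_e78765_gt.MirA
import Pool.Agent.Lib.MP_e78765_gt.Par
import Pool.Agent.Lib.MP_e78765_gt.Dqf
import Pool.Agent.Lib.MP_e78765_gt.DqB
import Pool.Agent.Lib.MP_e78765_gt.Fb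
import Pool.Agent.Lib.MP_e78765_gt.DQ
import Pool.Agent.Lib.MP_e78765_gt.FV
import Pool.Agent.Lib.MP_e78765_gt.LLi
import Pool.Agent.Lib.MP_e78765_gt.Cr
import Pool.Agent.Lib.MP_e78765_gt.Tan
import Pool.Agent.Lib.MP_e78765_gt.PF
import Pool.Agent.Lib.MP_e78765_gt.DL
import Pool.Agent.Lib.MP_e78765_gt.Psi
import Pool.Agent.Lib.MP_e78765_gt.Yc3
import Pool.Agent.Lib.MP_e78765_gt.Sk3
import Pool.Agent.Lib.MP_e78765_gt.PB
import Pool.Agent.Lib.MP_e78765_gt.DB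
import Pool.Agent.Lib.MP_e78765_gt.DI
import Pool.Agent.Lib.MP_e78765_gt.Dif
import Pool.Agent.Lib.MP_e78765_gt.SgI
import Pool.Agent.Lib.MP_e78765_gt.CrA
import Pool.Agent.Lib.MP_e78765_gt.CrB
import Pool.Agent.Lib.MP_e78765_gt.CrM
import Pool.Agent.Lib.MP_e78765_gt.CI
import Pool.Agent.Lib.MP_e78765_gt.SpP
import Pool.Agent.Lib.MP_e78765_gt.R4S

/-! THEOREM R4: all modules put together. -/

open scoped ContDiff Topology
open MeasureTheory Set Filter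

namespace MP_e78765_gt

/-- `r` is a local minimiser of the Moebius energy along smooth variations: for every smooth
`1`-periodic `φ` the energy of `r + τ φ` is at least the energy of `r` for all small `τ`. -/
def IsLocMin (r : ℝ → E3) : Prop :=
  ∀ φ : ℝ → E3, ContDiff ℝ ∞ φ → (∀ t, φ (t + 1) = φ t) →
    ∃ ε : ℝ, 0 < ε ∧ ∀ τ : ℝ, |τ| < ε → energy r ≤ energy (fun t => r t + τ • φ t)

theorem isCritical_of_isLocMin (hCr : S_Cr) (r : ℝ → E3) (hr : IsKnot r) (h : IsLocMin r) :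
    IsCritical r := by
  intro φ hφ hper
  have h1 := (hCr r hr).1 φ hφ hper
  obtain ⟨ε, hε, h2⟩ := h φ hφ hper
  have h0 : (fun t => r t + (0 : ℝ) • φ t) = r := by
    funext t
    rw [zero_smul, add_zero]
  have h3 : IsLocalMin (fun τ : ℝ => energy (fun t => r t + τ • φ t)) 0 := by
    have h4 : ∀ᶠ τ : ℝ in 𝓝 0, |τ| < ε := by
      have := Metric.ball_mem_nhds (0 : ℝ) hε
      filter_upwards [this] with τ hτ
      rw [Metric.mem_ball, dist_zero_right, Real.norm_eq_abs] at hτ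
      exact hτ
    filter_upwards [h4] with τ hτ
    rw [h0]
    exact h2 τ hτ
  have h5 := h3.hasDerivAt_eq_zero h1
  rw [h5] at h1
  exact h1

theorem tR4G : S_R4G := by
  have hQB : S_QB := tQB tMu tBd
  have hDS : S_DS := tDS (tDSu (tLoc tBd) tBd) hQB
  have hCh : S_Ch := tCh tInv tMir
  have hCone : S_Cone := tCone hCh tBd tInv
  have hRP : S_RP := tRP tKer
  have hYc : S_Yc := tYc tStB
  have hDd : S_Dd := tDd hYc tMir
  have hSk : S_Sk := tSk hDd tBd hYc tMir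
  have hSw : S_Sw := tSw hSk hYc tKer hCh
  have hDc : S_Dc := tDc hCone tKer hCh
  have hPs : S_Ps := tPs tStB tCut tMir
  have hRa : S_Ra := tRa hPs hCh tCut tInv tMir
  have hGlue : S_Glue := tGlue tMir
  have hEF : S_EF := tEF hDS hQB tAlg hCh hGlue tInv tMir
  have hEH : S_EH := tEH hEF hRa hCh hPs tCut tAlg
  have hVG : S_VG := tVG hRP hCh tInv tMir
  have hDW : S_DW := tDW hCh
  have hWA : S_WA := tWA hRa hDW hPs tCut hCh
  have hKey : S_Key := tKey (tSplit hDS hQB tAlg tMir) (tParts hQB tAlg tMir tBd) hGlue hEH hVG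
    hDW hWA hRa
  have hPar : S_Par := tPar hSk hCone tStB hCh
  have hRep : S_Rep := tRep hDS hQB tAlg
  have hDqB : S_DqB := tDqB tDqf
  have hFb : S_Fb := tFb tBd
  have hDQ : S_DQ := tDQ hDqB
  have hFV : S_FV := tFV hFb hDQ tDqf hDS hQB
  have hLLi : S_LLi := tLLi hDQ tDqf tBd
  have hCr : S_Cr := tCr hFV
  have hPF : S_PF := tPF hCh hPs tCut hCone tInv
  have hPsi : S_Psi := tPsi hCh tCut hCone tInv tMir hPs
  have hSk3 : S_Sk3 := tSk3 (tYc3 tStB) hYc tMir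
  have hPB : S_PB := tPB hPsi hPar hSk hSk3 tMir
  have hDif : S_Dif := tDif (tDB hDqB) tDI hLLi hPB hSk hSk3 tBd
  have hR4 : S_R4 := fin7 (tEll hCh) (tFat hSw hDc) (tLw hCh hCone tKer) hKey hPar (tCirc hCh)
    (tDL hFV hPF hKey) hPsi (tTan hFV hRep) hLLi hDif
  exact fin8 tSig hRep (tSym tMir tBd) tRig tTr (tMirA tMir) hCr (tCrA hCr tSgI hRep hFb)
    (tCrB hCr tTr hFb) hR4

theorem tCrC : S_Cr := by
  have hQB : S_QB := tQB tMu tBd
  have hDS : S_DS := tDS (tDSu (tLoc tBd) tBd) hQB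
  exact tCr (tFV (tFb tBd) (tDQ (tDqB tDqf)) tDqf hDS hQB)

theorem tR4Sph : S_R4S := by
  have hQB : S_QB := tQB tMu tBd
  have hDS : S_DS := tDS (tDSu (tLoc tBd) tBd) hQB
  have hDqB : S_DqB := tDqB tDqf
  have hFb : S_Fb := tFb tBd
  have hFV : S_FV := tFV hFb (tDQ hDqB) tDqf hDS hQB
  exact tR4S tR4G (tCrM (tCr hFV) hFV hFb tDqf tInv hDS) (tSpP tInv) (tCI tInv) tInv

end MP_e78765_gt
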