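import Pool.Agent.Lib.MP_e78765_gt.Spec3

/-! Transport of equivariant isotopies by a rigid motion. -/

open scoped ContDiff Topology
open MeasureTheory Set Filter

namespace MP_e78765_gt

namespace TrS_aux

/-- The rigid motion as a homeomorphism. -/
noncomputable def hom (A : E3 ≃ₗᵢ[ℝ] E3) (b : E3) : E3 ≃ₜ E3 :=
  A.toHomeomorph.trans (Homeomorph.addRight b)

theorem hom_apply (A : E3 ≃ₗᵢ[ℝ] E3) (b x : E3) : hom A b x = A x + b := rfl

theorem hom_symm (A : E3 ≃ₗᵢ[ℝ] E3) (b x : E3) : (hom A b).symm x = A.symm (x - b) := by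
  rw [Homeomorph.symm_apply_eq, hom_apply, A.apply_symm_apply, sub_add_cancel]

end TrS_aux

open TrS_aux

theorem tTrS : S_TrS := by
  intro A b ρ ρ' hρ
  rintro r r' ⟨H, h1, h2, h3, h4⟩
  refine ⟨fun σ => ((hom A b).trans (H σ)).trans (hom A b).symm, ?_, ?_, ?_, ?_⟩
  · have e : (fun z : unitInterval × E3 =>
        (((hom A b).trans (H z.1)).trans (hom A b).symm) z.2) =
        fun z => (hom A b).symm ((fun z : unitInterval × E3 => H z.1 z.2) (z.1, hom A b z.2)) := by
      funext z; rfl
    rw [e]
    exact (hom A b).symm.continuous.comp (h1.comp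
      (continuous_fst.prodMk ((hom A b).continuous.comp continuous_snd)))
  · intro x
    simp only [Homeomorph.trans_apply]
    rw [h2, Homeomorph.symm_apply_apply]
  · have e1 : range (fun t => A.symm (r' t - b)) = (hom A b).symm '' range r' := by
      rw [← range_comp]
      congr 1
    have e2 : (hom A b) '' range r = range (fun t => A (r t) + b) := by
      rw [← range_comp]
      rfl
    rw [e1, ← h3, ← e2]
    simp only [image_image]
    rfl
  · intro σ x
    simp only [Homeomorph.trans_apply]
    rw [Homeomorph.symm_apply_eq, hom_apply, hom_apply, hρ, hρ, h4]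
    congr 1
    rw [← hom_apply A b ((hom A b).symm _), Homeomorph.apply_symm_apply]
    rfl

end MP_e78765_gt
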