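import Pool.Agent.Lib.MP_e78765_gt.Spec3

/-!
# THEOREM R2 (MP_e78765_gt): the image of a mirror knot
-/

set_option autoImplicit false

open scoped ContDiff Topology
open MeasureTheory Set Filter

namespace MP_e78765_gt

private theorem two_m2 (x : E3) : mir x 2 = -x 2 := by simp [mir]

private theorem two_fract {r : ℝ → E3} (h : MirrorKnot r) (t : ℝ) : r (Int.fract t) = r t := by
  have hp : Function.Periodic r 1 := h.periodic
  have h1 := hp.sub_zsmul_eq (x := t) ⌊t⌋
  rw [zsmul_one] at h1
  exact h1

private theorem two_zero {r : ℝ → E3} (h : MirrorKnot r) : (r 0) 2 = 0 := by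
  have h1 := h.sym 0
  rw [neg_zero] at h1
  have h2 := congrArg (fun x : E3 => x 2) h1
  simp only [two_m2] at h2
  linarith

private theorem two_half {r : ℝ → E3} (h : MirrorKnot r) : (r (1 / 2)) 2 = 0 := by
  have h1 := h.sym (1 / 2)
  have h3 := h.periodic (-(1 / 2))
  have h4 : (-(1 / 2) : ℝ) + 1 = 1 / 2 := by norm_num
  rw [h4, h1] at h3
  have h2 := congrArg (fun x : E3 => x 2) h3
  simp only [two_m2] at h2
  linarith

theorem tTwo : S_Mir → S_Two := by
  intro hM r h
  have hmm : ∀ x : E3, mir (mir x) = x := hM.2.2.2.1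
  constructor
  · ext x
    constructor
    · rintro ⟨y, ⟨t, rfl⟩, rfl⟩
      exact ⟨-t, h.sym t⟩
    · rintro ⟨t, rfl⟩
      refine ⟨mir (r t), ⟨-t, h.sym t⟩, hmm _⟩
  · have hne : r 0 ≠ r (1 / 2) := by
      intro h0
      obtain ⟨n, hn⟩ := h.inj _ _ h0
      have h1 : (2 * n : ℝ) = 1 := by linarith
      have h2 : (2 * n : ℤ) = 1 := by exact_mod_cast h1
      omega
    have hset : {x ∈ range r | x 2 = 0} = {r 0, r (1 / 2)} := by
      ext x
      constructor
      · rintro ⟨⟨t, rfl⟩, ht⟩
        rw [← two_fract h t] at ht ⊢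
        have hs0 : 0 ≤ Int.fract t := Int.fract_nonneg t
        have hs1 : Int.fract t < 1 := Int.fract_lt_one t
        rcases hs0.eq_or_lt with h0 | h0
        · left
          rw [← h0]
        · rcases lt_trichotomy (Int.fract t) (1 / 2) with h1 | h1 | h1
          · exact absurd ht (h.pos _ ⟨h0, h1⟩).ne'
          · right
            rw [h1]
            rfl
          · exfalso
            have h2 := h.pos (1 - Int.fract t) ⟨by linarith, by linarith⟩
            have h3 := h.periodic (-Int.fract t)
            have h4 : -Int.fract t + 1 = 1 - Int.fract t := by ring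
            rw [h4, h.sym] at h3
            rw [h3, two_m2, ht] at h2
            simp at h2
      · rintro (rfl | hx)
        · exact ⟨⟨0, rfl⟩, two_zero h⟩
        · have hx' : x = r (1 / 2) := hx
          rw [hx']
          exact ⟨⟨1 / 2, rfl⟩, two_half h⟩
    rw [hset, Set.ncard_pair hne]

end MP_e78765_gt
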