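import Pool.Agent.Lib.MP_e78765_gt.R4S

/-! A knot which is invariant under a reflection or an inversion, and is not contained in the
mirror, meets the mirror in exactly two points (MP_e78765_gt, THEOREM R4). -/

open scoped ContDiff Topology
open Set Filter

namespace MP_e78765_gt

namespace TwoPts_aux

/-- A preconnected part of an embedded arc which contains both end points is the whole arc. -/
theorem arc_sub (r : ℝ → E3) (hr : Continuous r) (b d : ℝ) (hinj : InjOn r (Icc b d))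
    (K : Set E3) (hK : IsPreconnected K) (hsub : K ⊆ r '' Icc b d) (hb : r b ∈ K)
    (hd : r d ∈ K) : r '' Icc b d ⊆ K := by
  rintro _ ⟨t, ht, rfl⟩
  have h1 : IsClosed (r '' Icc b t) := (isCompact_Icc.image hr).isClosed
  have h2 : IsClosed (r '' Icc t d) := (isCompact_Icc.image hr).isClosed
  have hcov : K ⊆ r '' Icc b t ∪ r '' Icc t d := by
    intro x hx
    obtain ⟨s, hs, rfl⟩ := hsub hx
    rcases le_total s t with h | h
    · exact Or.inl ⟨s, ⟨hs.1, h⟩, rfl⟩
    · exact Or.inr ⟨s, ⟨h, hs.2⟩, rfl⟩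
  obtain ⟨x, hxK, ⟨u, hu, hxu⟩, ⟨v, hv, hxv⟩⟩ := isPreconnected_closed_iff.mp hK _ _ h1 h2 hcov
    ⟨r b, hb, ⟨b, ⟨le_refl _, ht.1⟩, rfl⟩⟩ ⟨r d, hd, ⟨d, ⟨ht.2, le_refl _⟩, rfl⟩⟩
  have huv : u = v :=
    hinj ⟨hu.1, hu.2.trans ht.2⟩ ⟨ht.1.trans hv.1, hv.2⟩ (hxu.trans hxv.symm)
  have hut : u = t := le_antisymm hu.2 (huv ▸ hv.1)
  rw [← hut, hxu]
  exact hxK

/-- Every value of a periodic function is taken in `[a, a + 1)`. -/
theorem shift (r : ℝ → E3) (hr : IsKnot r) (a t : ℝ) : ∃ t' ∈ Ico a (a + 1), r t' = r t := by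
  have hp : Function.Periodic r 1 := hr.periodic
  obtain ⟨y, hy, hty⟩ := hp.exists_mem_Ico one_pos t a
  exact ⟨y, hy, hty.symm⟩

theorem two_pts (r : ℝ → E3) (hr : IsKnot r) (θ : E3 → E3) (g : E3 → ℝ) (hg : Continuous g)
    (hθc : ContinuousOn θ (range r)) (hθ : ∀ x ∈ range r, θ x ∈ range r)
    (hs : ∀ x ∈ range r, 0 < g x → g (θ x) < 0) (hs' : ∀ x ∈ range r, g x < 0 → 0 < g (θ x))
    (hfix : ∀ x ∈ range r, g x = 0 → θ x = x) (hne : ∃ x ∈ range r, g x ≠ 0) :
    ({x ∈ range r | g x = 0}).ncard = 2 := by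
  have hrc : Continuous r := hr.smooth.continuous
  have hφ : Continuous (fun t => g (r t)) := hg.comp hrc
  obtain ⟨t1, ht1⟩ : ∃ t1, 0 < g (r t1) := by
    obtain ⟨_, ⟨t, rfl⟩, h⟩ := hne
    rcases lt_or_gt_of_ne h with h | h
    · obtain ⟨t', ht'⟩ := hθ (r t) (mem_range_self t)
      refine ⟨t', ?_⟩
      rw [ht']
      exact hs' _ (mem_range_self t) h
    · exact ⟨t, h⟩
  obtain ⟨t2, ht2⟩ : ∃ t2, g (r t2) < 0 := by
    obtain ⟨t', ht'⟩ := hθ (r t1) (mem_range_self t1)
    refine ⟨t', ?_⟩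
    rw [ht']
    exact hs _ (mem_range_self t1) ht1
  -- the last zero before `t1`
  have hz : ∀ s t : ℝ, s ≤ t → g (r s) < 0 → 0 < g (r t) → ∃ z ∈ Icc s t, g (r z) = 0 := by
    intro s t hst h1 h2
    have := intermediate_value_Icc hst hφ.continuousOn
    obtain ⟨z, hz1, hz2⟩ := this ⟨h1.le, h2.le⟩
    exact ⟨z, hz1, hz2⟩
  have hz' : ∀ s t : ℝ, s ≤ t → 0 < g (r s) → g (r t) < 0 → ∃ z ∈ Icc s t, g (r z) = 0 := by
    intro s t hst h1 h2
    have := intermediate_value_Icc' hst hφ.continuousOn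
    obtain ⟨z, hz1, hz2⟩ := this ⟨h2.le, h1.le⟩
    exact ⟨z, hz1, hz2⟩
  have hcl : ∀ s t : ℝ, IsCompact {z ∈ Icc s t | g (r z) = 0} := by
    intro s t
    exact isCompact_Icc.inter_right (isClosed_eq hφ continuous_const)
  have hA : {z ∈ Icc (t1 - 1) t1 | g (r z) = 0}.Nonempty := by
    obtain ⟨t2', h2', h3⟩ := shift r hr (t1 - 1) t2
    have h4 : t2' ≤ t1 := by
      have := h2'.2
      linarith
    obtain ⟨z, hz1, hz2⟩ := hz t2' t1 h4 (by rw [h3]; exact ht2) ht1
    exact ⟨z, ⟨h2'.1.trans hz1.1, hz1.2⟩, hz2⟩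
  obtain ⟨a, ⟨⟨ha1, ha2⟩, ha3⟩, ha4⟩ := (hcl (t1 - 1) t1).exists_isGreatest hA
  have ha5 : g (r (a + 1)) = 0 := by
    rw [hr.periodic]
    exact ha3
  have hB : {z ∈ Icc t1 (t1 + 1) | g (r z) = 0}.Nonempty :=
    ⟨a + 1, ⟨by linarith, by linarith⟩, ha5⟩
  obtain ⟨b, ⟨⟨hb1, hb2⟩, hb3⟩, hb4⟩ := (hcl t1 (t1 + 1)).exists_isLeast hB
  have hba : b ≤ a + 1 := hb4 ⟨⟨by linarith, by linarith⟩, ha5⟩
  have hat : a < t1 := lt_of_le_of_ne ha2 (by
    intro h
    rw [h] at ha3
    exact ht1.ne' ha3)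
  have htb : t1 < b := lt_of_le_of_ne hb1 (by
    intro h
    rw [← h] at hb3
    exact ht1.ne' hb3)
  -- positivity on `(a, b)`
  have hpos : ∀ t ∈ Ioo a b, 0 < g (r t) := by
    intro t ht
    rcases le_total t t1 with h | h
    · by_contra hcon
      have hneg : g (r t) < 0 := lt_of_le_of_ne (not_lt.mp hcon) (by
        intro h0
        have := ha4 ⟨⟨by linarith [ht.1], h⟩, h0⟩
        linarith [ht.1])
      obtain ⟨z, hz1, hz2⟩ := hz t t1 h hneg ht1
      have := ha4 ⟨⟨by linarith [ht.1, hz1.1], hz1.2⟩, hz2⟩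
      linarith [ht.1, hz1.1]
    · by_contra hcon
      have hneg : g (r t) < 0 := lt_of_le_of_ne (not_lt.mp hcon) (by
        intro h0
        have := hb4 ⟨⟨h, by linarith [ht.2]⟩, h0⟩
        linarith [ht.2])
      obtain ⟨z, hz1, hz2⟩ := hz' t1 t h ht1 hneg
      have := hb4 ⟨⟨hz1.1, by linarith [ht.2, hz1.2]⟩, hz2⟩
      linarith [ht.2, hz1.2]
  have hnn : ∀ t ∈ Icc a b, 0 ≤ g (r t) := by
    intro t ht
    rcases eq_or_lt_of_le ht.1 with h | h
    · rw [← h, ha3]
    rcases eq_or_lt_of_le ht.2 with h' | h'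
    · rw [h', hb3]
    · exact (hpos t ⟨h, h'⟩).le
  have hba' : b < a + 1 := by
    refine lt_of_le_of_ne hba ?_
    intro h
    obtain ⟨t2', h2', h3⟩ := shift r hr a t2
    have := hnn t2' ⟨h2'.1, by rw [h]; exact h2'.2.le⟩
    rw [h3] at this
    linarith
  have hinj : InjOn r (Icc b (a + 1)) := by
    intro s hs1 t ht1 hst
    obtain ⟨n, hn⟩ := hr.inj s t hst
    have h1 : |(n : ℝ)| < 1 := by
      rw [abs_lt]
      constructor
      · linarith [hs1.1, hs1.2, ht1.1, ht1.2]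
      · linarith [hs1.1, hs1.2, ht1.1, ht1.2]
    have h2 : n = 0 := by
      have h3 : |n| < 1 := by exact_mod_cast h1
      exact Int.abs_lt_one_iff.mp h3
    rw [h2] at hn
    simpa using hn.symm
  have hcomp : ContinuousOn (fun t => θ (r t)) (Icc a b) :=
    hθc.comp hrc.continuousOn fun t _ => mem_range_self t
  have hK : IsPreconnected ((fun t => θ (r t)) '' Icc a b) := isPreconnected_Icc.image _ hcomp
  have hθa : θ (r a) = r a := hfix _ (mem_range_self a) ha3
  have hθb : θ (r b) = r b := hfix _ (mem_range_self b) hb3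
  have hsub : (fun t => θ (r t)) '' Icc a b ⊆ r '' Icc b (a + 1) := by
    rintro _ ⟨s, hs1, rfl⟩
    rcases eq_or_lt_of_le hs1.1 with h | h
    · refine ⟨a + 1, ⟨hba, le_refl _⟩, ?_⟩
      rw [hr.periodic, ← h]
      exact hθa.symm
    rcases eq_or_lt_of_le hs1.2 with h' | h'
    · refine ⟨b, ⟨le_refl _, hba⟩, ?_⟩
      rw [h']
      exact hθb.symm
    · have h1 : g (θ (r s)) < 0 := hs _ (mem_range_self s) (hpos s ⟨h, h'⟩)
      obtain ⟨u, hu⟩ := hθ (r s) (mem_range_self s)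
      obtain ⟨u', hu', hu2⟩ := shift r hr a u
      refine ⟨u', ⟨?_, hu'.2.le⟩, by rw [hu2, hu]⟩
      by_contra hcon
      have := hnn u' ⟨hu'.1, (not_le.mp hcon).le⟩
      rw [hu2, hu] at this
      linarith
  have hall := arc_sub r hrc b (a + 1) hinj _ hK hsub ⟨b, ⟨by linarith, le_refl _⟩, hθb⟩
    ⟨a, ⟨le_refl _, by linarith⟩, by rw [hr.periodic]; exact hθa⟩
  have hneg : ∀ t ∈ Ioo b (a + 1), g (r t) < 0 := by
    intro t ht
    obtain ⟨s, hs1, hs2⟩ := hall ⟨t, ⟨ht.1.le, ht.2.le⟩, rfl⟩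
    simp only at hs2
    rcases eq_or_lt_of_le hs1.1 with h | h
    · exfalso
      rw [← h, hθa, ← hr.periodic a] at hs2
      have := hinj ⟨hba, le_refl _⟩ ⟨ht.1.le, ht.2.le⟩ hs2
      linarith [ht.2]
    rcases eq_or_lt_of_le hs1.2 with h' | h'
    · exfalso
      rw [h', hθb] at hs2
      have := hinj ⟨le_refl _, hba⟩ ⟨ht.1.le, ht.2.le⟩ hs2
      linarith [ht.1]
    · rw [← hs2]
      exact hs _ (mem_range_self s) (hpos s ⟨h, h'⟩)
  have hset : {x ∈ range r | g x = 0} = {r a, r b} := by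
    ext x
    simp only [mem_ofPred_eq, mem_insert_iff, mem_singleton_iff]
    constructor
    · rintro ⟨⟨t, rfl⟩, h0⟩
      obtain ⟨t', ht', h1⟩ := shift r hr a t
      rw [← h1] at h0 ⊢
      rcases eq_or_lt_of_le ht'.1 with h | h
      · exact Or.inl (by rw [h])
      right
      rcases lt_trichotomy t' b with h' | h' | h'
      · exact absurd h0 (hpos t' ⟨h, h'⟩).ne'
      · rw [h']
      · exact absurd h0 (hneg t' ⟨h', ht'.2⟩).ne
    · rintro (h | h)
      · rw [h]
        exact ⟨mem_range_self a, ha3⟩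
      · rw [h]
        exact ⟨mem_range_self b, hb3⟩
  rw [hset]
  refine ncard_pair ?_
  intro h
  rw [← hr.periodic a] at h
  have := hinj ⟨hba, le_refl _⟩ ⟨le_refl _, hba⟩ h
  linarith

end TwoPts_aux

/-- The case of a plane. -/
theorem two_pts_plane (r : ℝ → E3) (hr : IsKnot r) (n : E3) (c : ℝ) (hn : ‖n‖ = 1)
    (hsym : refl n c '' range r = range r) (hne : ¬ range r ⊆ {x | inner ℝ x n = c}) :
    ({x ∈ range r | inner ℝ x n = c}).ncard = 2 := by
  have hnn : inner ℝ n n = (1 : ℝ) := by rw [real_inner_self_eq_norm_sq, hn]; norm_num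
  have hcal : ∀ x : E3, inner ℝ (refl n c x) n - c = -(inner ℝ x n - c) := by
    intro x
    rw [refl, inner_sub_left, real_inner_smul_left, hnn]
    ring
  have h := TwoPts_aux.two_pts r hr (refl n c) (fun x => inner ℝ x n - c) (by fun_prop)
    (by
      have : Continuous (refl n c) := by
        unfold refl
        fun_prop
      exact this.continuousOn)
    (fun x hx => by
      rw [← hsym]
      exact mem_image_of_mem _ hx)
    (fun x _ hx => by
      rw [hcal]
      linarith)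
    (fun x _ hx => by
      rw [hcal]
      linarith)
    (fun x _ hx => by
      rw [refl, hx]
      simp)
    (by
      obtain ⟨x, hx1, hx2⟩ := not_subset.mp hne
      exact ⟨x, hx1, fun h => hx2 (by simpa [sub_eq_zero] using h)⟩)
  have he : {x ∈ range r | inner ℝ x n = c} = {x ∈ range r | inner ℝ x n - c = 0} := by
    ext x
    simp [sub_eq_zero]
  rw [he]
  exact h

/-- The case of a sphere. -/
theorem two_pts_sphere (r : ℝ → E3) (hr : IsKnot r) (o : E3) (R : ℝ) (hR : 0 < R)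
    (hsym : invS o R '' range r = range r) (hne : ¬ range r ⊆ {x | ‖x - o‖ = R}) :
    ({x ∈ range r | ‖x - o‖ = R}).ncard = 2 := by
  have hno := R4S_aux.notmem r o R hR hr hsym
  have hno' : ∀ x ∈ range r, x ≠ o := by
    rintro _ ⟨t, rfl⟩
    exact hno t
  have hpos : ∀ x ∈ range r, 0 < ‖x - o‖ := fun x hx =>
    norm_pos_iff.mpr (sub_ne_zero.mpr (hno' x hx))
  have h := TwoPts_aux.two_pts r hr (invS o R) (fun x => ‖x - o‖ - R) (by fun_prop)
    (by
      have h1 : ContinuousOn (fun x : E3 => x - o) (range r) :=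
        (continuous_id.sub continuous_const).continuousOn
      have h2 : ContinuousOn (fun x : E3 => ‖x - o‖ ^ 2) (range r) := h1.norm.pow 2
      have h3 : ContinuousOn (fun x : E3 => R ^ 2 / ‖x - o‖ ^ 2) (range r) :=
        ContinuousOn.div continuousOn_const h2 fun x hx => by
          have := hpos x hx
          positivity
      exact continuousOn_const.add (h3.smul h1))
    (fun x hx => by
      rw [← hsym]
      exact mem_image_of_mem _ hx)
    (fun x hx h0 => by
      rw [R4S_aux.norm_invS o R x (hno' x hx), sub_neg, div_lt_iff₀ (hpos x hx)]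
      nlinarith)
    (fun x hx h0 => by
      rw [R4S_aux.norm_invS o R x (hno' x hx), sub_pos, lt_div_iff₀ (hpos x hx)]
      nlinarith)
    (fun x _ h0 => by
      have h1 : ‖x - o‖ = R := by linarith
      rw [invS, h1, div_self (by positivity), one_smul]
      abel)
    (by
      obtain ⟨x, hx1, hx2⟩ := not_subset.mp hne
      exact ⟨x, hx1, fun h => hx2 (by simpa [sub_eq_zero] using h)⟩)
  have he : {x ∈ range r | ‖x - o‖ = R} = {x ∈ range r | ‖x - o‖ - R = 0} := by
    ext x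
    simp [sub_eq_zero]
  rw [he]
  exact h

end MP_e78765_gt
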