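import Pool.Agent.Lib.MP_e78765_gt.Spec

/-!
# MP_e78765_gt, module Ua: abstract second order estimate for a product (helper2)
-/

set_option autoImplicit false

open scoped ContDiff Topology
open MeasureTheory Set Filter

namespace MP_e78765_gt

namespace Ua_aux

/-- The exact identity; `a = m s`, `a' = dm s`, `c = m t`. -/
private lemma ident (s t a a' c : ℝ) (F F' G : E3) :
    (t * c - s * a) • (a • F' + a' • F) - (a + s * a') • (c • G - a • F) =
      (a' * c * (t - s) - a * (c - a)) • (F - s • F') -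
        ((a + s * a') * c) • (G - F - (t - s) • F') := by
  module

/-- The scalar factor. -/
private lemma beta {C s t a a' c : ℝ} (hC : 0 ≤ C) (ha1 : 1 / 2 ≤ a) (ha2 : a ≤ 2)
    (hc1 : 1 / 2 ≤ c) (hc2 : c ≤ 2) (hd : |a'| * |s| ≤ C)
    (hnear : |t - s| ≤ |s| / 2 → |c - a - a' * (t - s)| * s ^ 2 ≤ C * (t - s) ^ 2 ∧
      |c - a| * |s| ≤ C * |t - s|) :
    |a' * c * (t - s) - a * (c - a)| * s ^ 2 ≤ (4 * C + C ^ 2 + 16) * (t - s) ^ 2 := by
  have hs2 : s ^ 2 = |s| ^ 2 := (sq_abs s).symm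
  have ht2 : (t - s) ^ 2 = |t - s| ^ 2 := (sq_abs _).symm
  have hs0 := abs_nonneg s
  have ht0 := abs_nonneg (t - s)
  rcases le_or_gt |t - s| (|s| / 2) with h | h
  · obtain ⟨h1, h2⟩ := hnear h
    have e : a' * c * (t - s) - a * (c - a) = (c - a) ^ 2 - c * (c - a - a' * (t - s)) := by ring
    rw [e]
    have h3 : |(c - a) ^ 2 - c * (c - a - a' * (t - s))| ≤
        |c - a| ^ 2 + 2 * |c - a - a' * (t - s)| := by
      refine (abs_sub _ _).trans ?_
      rw [abs_pow, abs_mul, abs_of_pos (by linarith : 0 < c)]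
      have := mul_le_mul_of_nonneg_right hc2 (abs_nonneg (c - a - a' * (t - s)))
      linarith
    have h4 : (|c - a| * |s|) ^ 2 ≤ (C * |t - s|) ^ 2 :=
      pow_le_pow_left₀ (by positivity) h2 2
    calc |(c - a) ^ 2 - c * (c - a - a' * (t - s))| * s ^ 2
        ≤ (|c - a| ^ 2 + 2 * |c - a - a' * (t - s)|) * s ^ 2 :=
          mul_le_mul_of_nonneg_right h3 (sq_nonneg s)
      _ = (|c - a| * |s|) ^ 2 + 2 * (|c - a - a' * (t - s)| * s ^ 2) := by rw [hs2]; ring
      _ ≤ (C * |t - s|) ^ 2 + 2 * (C * (t - s) ^ 2) := by linarith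
      _ = (C ^ 2 + 2 * C) * (t - s) ^ 2 := by rw [ht2]; ring
      _ ≤ (4 * C + C ^ 2 + 16) * (t - s) ^ 2 :=
          mul_le_mul_of_nonneg_right (by linarith) (sq_nonneg _)
  · have h0 : |s| ≤ 2 * |t - s| := by linarith
    have h3 : |a' * c * (t - s) - a * (c - a)| ≤ 2 * (|a'| * |t - s|) + 4 := by
      refine (abs_sub _ _).trans ?_
      have h4 : |a' * c * (t - s)| ≤ 2 * (|a'| * |t - s|) := by
        rw [abs_mul, abs_mul, abs_of_pos (by linarith : 0 < c)]
        have h5 : |a'| * c ≤ |a'| * 2 := mul_le_mul_of_nonneg_left hc2 (abs_nonneg _)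
        have h6 := mul_le_mul_of_nonneg_right h5 ht0
        linarith
      have h5 : |a * (c - a)| ≤ 4 := by
        rw [abs_mul, abs_of_pos (by linarith : 0 < a)]
        have h6 : |c - a| ≤ 2 := by
          rw [abs_le]
          constructor <;> linarith
        calc a * |c - a| ≤ 2 * 2 := mul_le_mul ha2 h6 (abs_nonneg _) (by norm_num)
          _ = 4 := by norm_num
      linarith
    have h6 : |a'| * |s| * (|s| * |t - s|) ≤ C * (2 * |t - s| * |t - s|) :=
      mul_le_mul hd (mul_le_mul_of_nonneg_right h0 ht0) (by positivity) hC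
    have h7 : |s| ^ 2 ≤ (2 * |t - s|) ^ 2 := pow_le_pow_left₀ hs0 h0 2
    calc |a' * c * (t - s) - a * (c - a)| * s ^ 2
        ≤ (2 * (|a'| * |t - s|) + 4) * s ^ 2 := mul_le_mul_of_nonneg_right h3 (sq_nonneg s)
      _ = 2 * (|a'| * |s| * (|s| * |t - s|)) + 4 * |s| ^ 2 := by rw [hs2]; ring
      _ ≤ 2 * (C * (2 * |t - s| * |t - s|)) + 4 * (2 * |t - s|) ^ 2 := by linarith
      _ = (4 * C + 16) * (t - s) ^ 2 := by rw [ht2]; ring
      _ ≤ (4 * C + C ^ 2 + 16) * (t - s) ^ 2 := by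
          refine mul_le_mul_of_nonneg_right ?_ (sq_nonneg _)
          have := sq_nonneg C
          linarith

end Ua_aux

open Ua_aux in
theorem tUa : S_Ua := by
  intro K C hK hC
  refine ⟨K * (4 * C + C ^ 2 + 16) + (2 + C) * 2 * K, by positivity, ?_⟩
  intro Φ dΦ m dm b hb hΦ0 hT hm hn s hs t ht
  have h0 : (0 : ℝ) ∈ Icc (-b) b := ⟨by linarith, hb.le⟩
  obtain ⟨hs1, hs2, hs3⟩ := hm s hs
  obtain ⟨ht1, ht2, -⟩ := hm t ht
  have hβ := beta hC hs1 hs2 ht1 ht2 hs3 (hn s hs t ht)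
  have hρ := hT s hs t ht
  have hΦs : ‖Φ s - s • dΦ s‖ ≤ K * s ^ 2 := by
    have h := hT s hs 0 h0
    rw [hΦ0] at h
    have e : (0 : E3) - Φ s - (0 - s) • dΦ s = -(Φ s - s • dΦ s) := by module
    rw [e, norm_neg] at h
    refine h.trans (le_of_eq ?_)
    ring
  have hu : |(m s + s * dm s) * m t| ≤ (2 + C) * 2 := by
    rw [abs_mul, abs_of_pos (by linarith : 0 < m t)]
    refine mul_le_mul ?_ ht2 (by linarith) (by linarith)
    refine (abs_add_le _ _).trans ?_
    rw [abs_mul, abs_of_pos (by linarith : 0 < m s)]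
    linarith [mul_comm |dm s| |s|]
  rw [ident]
  refine (norm_sub_le _ _).trans ?_
  rw [norm_smul, norm_smul, Real.norm_eq_abs, Real.norm_eq_abs]
  have h1 : |dm s * m t * (t - s) - m s * (m t - m s)| * ‖Φ s - s • dΦ s‖ ≤
      K * (4 * C + C ^ 2 + 16) * (t - s) ^ 2 := by
    calc |dm s * m t * (t - s) - m s * (m t - m s)| * ‖Φ s - s • dΦ s‖
        ≤ |dm s * m t * (t - s) - m s * (m t - m s)| * (K * s ^ 2) :=
          mul_le_mul_of_nonneg_left hΦs (abs_nonneg _)
      _ = K * (|dm s * m t * (t - s) - m s * (m t - m s)| * s ^ 2) := by ring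
      _ ≤ K * ((4 * C + C ^ 2 + 16) * (t - s) ^ 2) := mul_le_mul_of_nonneg_left hβ hK
      _ = K * (4 * C + C ^ 2 + 16) * (t - s) ^ 2 := by ring
  have h2 : |(m s + s * dm s) * m t| * ‖Φ t - Φ s - (t - s) • dΦ s‖ ≤
      (2 + C) * 2 * K * (t - s) ^ 2 := by
    calc |(m s + s * dm s) * m t| * ‖Φ t - Φ s - (t - s) • dΦ s‖
        ≤ (2 + C) * 2 * (K * (t - s) ^ 2) :=
          mul_le_mul hu hρ (norm_nonneg _) (by positivity)
      _ = (2 + C) * 2 * K * (t - s) ^ 2 := by ring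
  linarith

end MP_e78765_gt
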